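import Mathlib
import Pool.Agent.H69.LB.Defs

/-!
# MP_0e3417: only finitely many solutions with maximal gap at most 2. Shared definitions.

Overview with complete proofs: /team-store/H6_0e3417.md
-/

open Finset H69LB
open scoped ContDiff

namespace EG

/-- the weight of the sieve: a smooth bump `0 ≤ φ ≤ 1` with support in `(1 - η, 1 + η)` -/
structure Wt (η : ℝ) (φ : ℝ → ℝ) : Prop where
  η_pos : 0 < η
  η_le : η ≤ 1 / 2
  smooth : ContDiff ℝ ∞ φ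
  zero : ∀ x, η ≤ |x - 1| → φ x = 0
  nonneg : ∀ x, 0 ≤ φ x
  le_one : ∀ x, φ x ≤ 1
  int_pos : 0 < ∫ x, φ x

/-- squarefree numbers up to `z` which are coprime to `Q` -/
def sq (Q z : ℕ) : Finset ℕ := (Icc 1 z).filter (fun r => Squarefree r ∧ Nat.Coprime r Q)

/-- `G_Q(z) = ∑_{r ≤ z} μ(r)²/φ(r)`, `r` coprime to `Q` -/
noncomputable def GG (Q z : ℕ) : ℝ := ∑ r ∈ sq Q z, 1 / (Nat.totient r : ℝ)

/-- Selberg coefficients in terms of the diagonal variables `y`: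
`λ_d = μ(d) d ∑_{s : d ∣ s} y_s/φ(s)` -/
noncomputable def lam (Q z : ℕ) (y : ℕ → ℝ) (d : ℕ) : ℝ :=
  (ArithmeticFunction.moebius d : ℝ) * d * ∑ s ∈ (sq Q z).filter (fun s => d ∣ s), y s / (Nat.totient s : ℝ)

/-- the divisor sum `∑_{B ∈ D, B ∣ n} f(B)` -/
noncomputable def Fn (D : Finset ℕ) (f : ℕ → ℝ) (n : ℕ) : ℝ := ∑ B ∈ D.filter (fun B => B ∣ n), f B

/-- `S(b) = ∑_{B ∈ D, b ∣ B} f(B)/B` -/
noncomputable def SS (D : Finset ℕ) (f : ℕ → ℝ) (b : ℕ) : ℝ := ∑ B ∈ D.filter (fun B => b ∣ B), f B / (B : ℝ)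

/-- least common multiples of the elements of `D` and `D'` -/
def lcD (D D' : Finset ℕ) : Finset ℕ := (D ×ˢ D').image (fun p => Nat.lcm p.1 p.2)

/-- `∑_{[d, d'] = B} f(d) f'(d')` -/
noncomputable def lcf (D D' : Finset ℕ) (f f' : ℕ → ℝ) (B : ℕ) : ℝ :=
  ∑ p ∈ (D ×ˢ D').filter (fun p => Nat.lcm p.1 p.2 = B), f p.1 * f' p.2

/-- a set of squarefree numbers coprime to `Q` -/
def Good (Q : ℕ) (D : Finset ℕ) : Prop := ∀ B ∈ D, Squarefree B ∧ Nat.Coprime B Q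

/-- control of the sums `S(b)`: `|S(b)| ≤ a C^{ω(b)} (b, p)/b` for squarefree `b` -/
def Ctrl (C a : ℝ) (p : ℕ) (D : Finset ℕ) (f : ℕ → ℝ) : Prop :=
  ∀ b : ℕ, Squarefree b → |SS D f b| ≤ a * C ^ b.primeFactors.card * (Nat.gcd b p : ℝ) / b

/-- `Q` is divisible by all primes up to `w` -/
def Wide (w Q : ℕ) : Prop := 1 ≤ Q ∧ ∀ p : ℕ, p.Prime → p ≤ w → p ∣ Q

/-- an admissible system of linear forms `L_i(t) = a_i t + b_i` outside the primes of `Q` -/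
structure Forms {ι : Type} (Q : ℕ) (a b : ι → ℕ) : Prop where
  Q_pos : 1 ≤ Q
  pos : ∀ i, 1 ≤ a i
  prime : ∀ i, ∀ p : ℕ, p.Prime → p ∣ a i → p ∣ Q
  diff : ∀ i j, i ≠ j → ∀ p : ℕ, p.Prime → (p : ℤ) ∣ (a i : ℤ) * b j - (a j : ℤ) * b i → p ∣ Q

/-- the special linear forms `L_i(t) = a_i t + 1` of the application; all their values are coprime to `Q` -/
structure SForms {ι : Type} (Q : ℕ) (a : ι → ℕ) : Prop where
  Q_pos : 1 ≤ Q
  pos : ∀ i, 1 ≤ a i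
  dvd : ∀ i, a i ∣ Q
  prime : ∀ i, ∀ p : ℕ, p.Prime → p ∣ Q → p ∣ a i
  ne : ∀ i j, i ≠ j → a i ≠ a j
  diff : ∀ i j, i ≠ j → ∀ p : ℕ, p.Prime → (p : ℤ) ∣ (a i : ℤ) - a j → p ∣ Q

theorem SForms.forms {ι : Type} {Q : ℕ} {a : ι → ℕ} (h : SForms Q a) {P : ℕ} (hP : 1 ≤ P) :
    Forms (Q * P) a (fun _ => 1) where
  Q_pos := Nat.mul_pos h.Q_pos hP
  pos := h.pos
  prime := fun i _ _ hp => (hp.trans (h.dvd i)).trans (Dvd.intro _ rfl)
  diff := fun i j hij p hp hd => (h.diff i j hij p hp (by simpa using hd)).trans (Dvd.intro _ rfl)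

/-- `∏_i f_i(B_i)/B_i`, summed over pairwise coprime tuples `B_i ∈ D_i` which are coprime to `m` -/
noncomputable def Mm {ι : Type} [Fintype ι] [DecidableEq ι] (D : ι → Finset ℕ) (f : ι → ℕ → ℝ) (m : ℕ) : ℝ :=
  ∑ B ∈ (Fintype.piFinset D).filter (fun B => (∀ i j, i ≠ j → Nat.Coprime (B i) (B j)) ∧ ∀ i, Nat.Coprime (B i) m),
    ∏ i, f i (B i) / (B i : ℝ)

end EG
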