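import Pool.Agent.H6.EG.Defs
import Pool.Agent.H69.LB.Div

/-!
# MP_0e3417 row LamB: size of the Selberg coefficients

`lam_sel_le`: let `y = 1/G` (`G = GG Q z > 0` as `1 ∈ sq Q z`), `d ∈ sq Q z`. `|lam d| = (d/G) ∑_{s ∈ sq Q z, d ∣ s} 1/φ(s) = (d/(φ(d) G)) G_d`, `G_d = ∑_{s' ∈ sq Q z, (s',d) = 1, s' d ≤ z} 1/φ(s')` (`s = d s'`). On the other hand
`G = ∑_{l ∣ d} ∑_{r ∈ sq Q z, (r,d) = l} 1/φ(r) = ∑_{l ∣ d} (1/φ(l)) ∑_{r' : (r',d) = 1, l r' ≤ z} 1/φ(r') ≥ (∑_{l ∣ d} 1/φ(l)) G_d = (d/φ(d)) G_d`. So `|lam d| ≤ 1`. If `d ∉ sq Q z` then either no `s` is divisible by `d`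
or ... : `d ∣ s ∈ sq Q z` implies `d ∈ sq Q z`; otherwise `lam d = 0` (also `d = 0`).
`lam_sel_one`: `lam 1 = (1/G) ∑_{s} 1/φ(s) = 1`.
`lam_crude`: `|lam d| ≤ d g ∑_{s ∈ sq Q z, d ∣ s} 1/φ(s)`, `s = d s'`, `≤ g (d/φ(d)) ∑_{s' ≤ z} 1/φ(s')`; `le_totient` (`Pool/Agent/H69/LB/Div.lean`): `n ≤ 2 (1 + log n) φ(n)`, and `sum_inv_le`.
So `|lam d| ≤ g * 2 (1 + log z) * 2 (1 + log z)(1 + log z)`.
-/

open Finset

namespace EG

private theorem LamB_mem {Q z r : ℕ} :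
    r ∈ sq Q z ↔ (1 ≤ r ∧ r ≤ z) ∧ Squarefree r ∧ Nat.Coprime r Q := by
  unfold sq
  rw [Finset.mem_filter, Finset.mem_Icc]

private theorem LamB_one {Q z : ℕ} (hz : 1 ≤ z) : 1 ∈ sq Q z :=
  LamB_mem.mpr ⟨⟨le_rfl, hz⟩, squarefree_one, Nat.coprime_one_left Q⟩

/-- the cofactors -/
private def LamB_T (Q z d : ℕ) : Finset ℕ := (sq Q z).filter (fun r => Nat.Coprime r d ∧ d * r ≤ z)

private theorem LamB_sum {Q z d : ℕ} (hd : d ∈ sq Q z) (f : ℕ → ℝ) :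
    ∑ s ∈ (sq Q z).filter (fun s => d ∣ s), f s = ∑ r ∈ LamB_T Q z d, f (d * r) := by
  obtain ⟨⟨hd1, hd2⟩, hd3, hd4⟩ := LamB_mem.mp hd
  refine Finset.sum_bij' (fun s _ => s / d) (fun r _ => d * r) ?_ ?_ ?_ ?_ ?_
  · intro s hs
    obtain ⟨hs, hds⟩ := Finset.mem_filter.mp hs
    obtain ⟨⟨h1, h2⟩, h3, h4⟩ := LamB_mem.mp hs
    obtain ⟨r, rfl⟩ := hds
    rw [Nat.mul_div_cancel_left r (by omega)]
    have hr : 1 ≤ r := Nat.pos_of_ne_zero (by rintro rfl; simp at h1)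
    have hc : Nat.Coprime d r := Nat.coprime_of_squarefree_mul h3
    refine Finset.mem_filter.mpr ⟨LamB_mem.mpr ⟨⟨hr, ?_⟩, h3.of_mul_right,
      Nat.Coprime.coprime_dvd_left (Dvd.intro_left d rfl) h4⟩, hc.symm, h2⟩
    exact (Nat.le_mul_of_pos_left r (by omega)).trans h2
  · intro r hr
    obtain ⟨hr, hc, hle⟩ := Finset.mem_filter.mp hr
    obtain ⟨⟨h1, h2⟩, h3, h4⟩ := LamB_mem.mp hr
    refine Finset.mem_filter.mpr ⟨LamB_mem.mpr ⟨⟨Nat.mul_pos (by omega) (by omega), hle⟩, ?_, ?_⟩,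
      Dvd.intro r rfl⟩
    · exact (Nat.squarefree_mul hc.symm).mpr ⟨hd3, h3⟩
    · exact Nat.Coprime.mul_left hd4 h4
  · intro s hs
    obtain ⟨hs, hds⟩ := Finset.mem_filter.mp hs
    exact Nat.mul_div_cancel' hds
  · intro r hr
    exact Nat.mul_div_cancel_left r (by omega)
  · intro s hs
    obtain ⟨hs, hds⟩ := Finset.mem_filter.mp hs
    rw [Nat.mul_div_cancel' hds]

private theorem LamB_tot {Q z d r : ℕ} (hr : r ∈ LamB_T Q z d) :
    (Nat.totient (d * r) : ℝ) = Nat.totient d * Nat.totient r := by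
  obtain ⟨hr, hc, hle⟩ := Finset.mem_filter.mp hr
  rw [Nat.totient_mul hc.symm]
  push_cast
  rfl

private theorem LamB_empty {Q z d : ℕ} (hd : d ∉ sq Q z) :
    (sq Q z).filter (fun s => d ∣ s) = ∅ := by
  rw [Finset.filter_eq_empty_iff]
  intro s hs hds
  obtain ⟨⟨h1, h2⟩, h3, h4⟩ := LamB_mem.mp hs
  apply hd
  refine LamB_mem.mpr ⟨⟨Nat.pos_of_dvd_of_pos hds h1, (Nat.le_of_dvd h1 hds).trans h2⟩,
    h3.squarefree_of_dvd hds, Nat.Coprime.coprime_dvd_left hds h4⟩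

private theorem LamB_div {d : ℕ} (hd : Squarefree d) (hd1 : 1 ≤ d) :
    ∑ l ∈ d.divisors, 1 / (Nat.totient l : ℝ) = d / Nat.totient d := by
  have hφ : (0 : ℝ) < Nat.totient d := by exact_mod_cast Nat.totient_pos.mpr hd1
  rw [eq_div_iff hφ.ne', Finset.sum_mul]
  have h1 : ∀ l ∈ d.divisors, 1 / (Nat.totient l : ℝ) * Nat.totient d = Nat.totient (d / l) := by
    intro l hl
    obtain ⟨k, hk⟩ := (Nat.mem_divisors.mp hl).1
    have hl0 : 0 < l := Nat.pos_of_mem_divisors hl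
    have hc : Nat.Coprime l k := Nat.coprime_of_squarefree_mul (hk ▸ hd)
    have hφl : (0 : ℝ) < Nat.totient l := by exact_mod_cast Nat.totient_pos.mpr hl0
    rw [hk, Nat.mul_div_cancel_left k hl0, Nat.totient_mul hc]
    push_cast
    field_simp
  rw [Finset.sum_congr rfl h1]
  have h2 : ∑ l ∈ d.divisors, (Nat.totient (d / l) : ℝ) = ∑ l ∈ d.divisors, (Nat.totient l : ℝ) :=
    Nat.sum_div_divisors d (fun l => (Nat.totient l : ℝ))
  rw [h2]
  have h3 := Nat.sum_totient d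
  exact_mod_cast h3

private theorem LamB_nn (r : ℕ) : (0 : ℝ) ≤ 1 / (Nat.totient r : ℝ) := by positivity

private theorem LamB_low {Q z d : ℕ} (hd : d ∈ sq Q z) :
    (d : ℝ) / Nat.totient d * ∑ r ∈ LamB_T Q z d, 1 / (Nat.totient r : ℝ) ≤ GG Q z := by
  classical
  obtain ⟨⟨hd1, hd2⟩, hd3, hd4⟩ := LamB_mem.mp hd
  rw [← LamB_div hd3 hd1, Finset.sum_mul_sum, ← Finset.sum_product']
  have h1 : ∀ x ∈ d.divisors ×ˢ LamB_T Q z d, 1 / (Nat.totient x.1 : ℝ) * (1 / (Nat.totient x.2 : ℝ)) =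
      1 / (Nat.totient (x.1 * x.2) : ℝ) := by
    rintro ⟨l, r⟩ hx
    obtain ⟨hl, hr⟩ := Finset.mem_product.mp hx
    obtain ⟨hr, hc, hle⟩ := Finset.mem_filter.mp hr
    have hc' : Nat.Coprime l r := (Nat.Coprime.coprime_dvd_right (Nat.mem_divisors.mp hl).1 hc).symm
    rw [Nat.totient_mul hc']
    push_cast
    rw [one_div_mul_one_div]
  rw [Finset.sum_congr rfl h1]
  have hinj : Set.InjOn (fun x : ℕ × ℕ => x.1 * x.2) (d.divisors ×ˢ LamB_T Q z d : Finset (ℕ × ℕ)) := by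
    rintro ⟨l, r⟩ hx ⟨l', r'⟩ hx' heq
    obtain ⟨hl, hr⟩ := Finset.mem_product.mp (Finset.mem_coe.mp hx)
    obtain ⟨hl', hr'⟩ := Finset.mem_product.mp (Finset.mem_coe.mp hx')
    obtain ⟨hr, hc, -⟩ := Finset.mem_filter.mp hr
    obtain ⟨hr', hc', -⟩ := Finset.mem_filter.mp hr'
    simp only at heq hl hl' hc hc'
    have g1 : Nat.gcd (l * r) d = l := by
      rw [Nat.Coprime.gcd_mul_right_cancel l hc]
      exact Nat.gcd_eq_left (Nat.mem_divisors.mp hl).1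
    have g2 : Nat.gcd (l' * r') d = l' := by
      rw [Nat.Coprime.gcd_mul_right_cancel l' hc']
      exact Nat.gcd_eq_left (Nat.mem_divisors.mp hl').1
    have e1 : l = l' := by rw [← g1, ← g2, heq]
    subst e1
    have e2 : r = r' := Nat.eq_of_mul_eq_mul_left (Nat.pos_of_mem_divisors hl) heq
    rw [e2]
  unfold GG
  rw [← Finset.sum_image (f := fun s => 1 / (Nat.totient s : ℝ)) hinj]
  refine Finset.sum_le_sum_of_subset_of_nonneg ?_ fun s _ _ => LamB_nn s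
  intro s hs
  obtain ⟨⟨l, r⟩, hx, rfl⟩ := Finset.mem_image.mp hs
  obtain ⟨hl, hr⟩ := Finset.mem_product.mp hx
  obtain ⟨hr, hc, hle⟩ := Finset.mem_filter.mp hr
  obtain ⟨⟨h1, h2⟩, h3, h4⟩ := LamB_mem.mp hr
  simp only at hl hc hle h1 h2 h3 h4 ⊢
  have hld : l ∣ d := (Nat.mem_divisors.mp hl).1
  have hl0 : 0 < l := Nat.pos_of_mem_divisors hl
  have hc' : Nat.Coprime l r := (Nat.Coprime.coprime_dvd_right hld hc).symm
  refine LamB_mem.mpr ⟨⟨Nat.mul_pos hl0 h1, ?_⟩, ?_, ?_⟩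
  · exact (Nat.mul_le_mul_right r (Nat.le_of_dvd (by omega) hld)).trans hle
  · exact (Nat.squarefree_mul hc').mpr ⟨hd3.squarefree_of_dvd hld, h3⟩
  · exact Nat.Coprime.mul_left (Nat.Coprime.coprime_dvd_left hld hd4) h4

private theorem LamB_pos {Q z : ℕ} (hz : 1 ≤ z) : 0 < GG Q z := by
  unfold GG
  refine lt_of_lt_of_le ?_ (Finset.single_le_sum (fun s _ => LamB_nn s) (LamB_one hz))
  simp

private theorem LamB_mu (d : ℕ) : |((ArithmeticFunction.moebius d : ℤ) : ℝ)| ≤ 1 := by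
  have h := ArithmeticFunction.abs_moebius_le_one (n := d)
  exact_mod_cast h

private theorem LamB_abs {Q z d : ℕ} (hd : d ∈ sq Q z) {g : ℝ} {y : ℕ → ℝ} (hy : ∀ r, |y r| ≤ g) :
    |lam Q z y d| ≤ g * ((d : ℝ) / Nat.totient d * ∑ r ∈ LamB_T Q z d, 1 / (Nat.totient r : ℝ)) := by
  have hg : 0 ≤ g := (abs_nonneg _).trans (hy 0)
  unfold lam
  rw [LamB_sum hd, abs_mul, abs_mul]
  have h1 : |∑ r ∈ LamB_T Q z d, y (d * r) / (Nat.totient (d * r) : ℝ)| ≤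
      g * (1 / (Nat.totient d : ℝ) * ∑ r ∈ LamB_T Q z d, 1 / (Nat.totient r : ℝ)) := by
    rw [Finset.mul_sum, Finset.mul_sum]
    refine (Finset.abs_sum_le_sum_abs _ _).trans (Finset.sum_le_sum fun r hr => ?_)
    rw [LamB_tot hr, abs_div, abs_of_nonneg (a := (Nat.totient d : ℝ) * Nat.totient r) (by positivity),
      one_div_mul_one_div, mul_one_div]
    exact div_le_div_of_nonneg_right (hy _) (by positivity)
  have h2 : |((ArithmeticFunction.moebius d : ℤ) : ℝ)| * |(d : ℝ)| ≤ d := by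
    rw [Nat.abs_cast]
    exact mul_le_of_le_one_left (Nat.cast_nonneg d) (LamB_mu d)
  calc _ ≤ (d : ℝ) * (g * (1 / (Nat.totient d : ℝ) * ∑ r ∈ LamB_T Q z d, 1 / (Nat.totient r : ℝ))) :=
        mul_le_mul h2 h1 (abs_nonneg _) (Nat.cast_nonneg d)
    _ = _ := by ring

theorem lam_sel_le (Q z : ℕ) (hz : 1 ≤ z) (d : ℕ) : |lam Q z (fun _ => (GG Q z)⁻¹) d| ≤ 1 := by
  by_cases hd : d ∈ sq Q z
  · have hG := LamB_pos (Q := Q) hz
    refine (LamB_abs hd (g := (GG Q z)⁻¹) fun _ => ?_).trans ?_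
    · rw [abs_of_nonneg (inv_nonneg.mpr hG.le)]
    · rw [inv_mul_le_iff₀ hG, mul_one]
      exact LamB_low hd
  · unfold lam
    rw [LamB_empty hd]
    simp

theorem lam_sel_one (Q z : ℕ) (hz : 1 ≤ z) : lam Q z (fun _ => (GG Q z)⁻¹) 1 = 1 := by
  have hG := LamB_pos (Q := Q) hz
  unfold lam
  have h1 : (sq Q z).filter (fun s => 1 ∣ s) = sq Q z := by
    rw [Finset.filter_true_of_mem]
    intro s _
    exact one_dvd s
  rw [h1]
  have h2 : ∑ s ∈ sq Q z, (GG Q z)⁻¹ / (Nat.totient s : ℝ) = (GG Q z)⁻¹ * GG Q z := by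
    conv_rhs => rw [GG]
    rw [Finset.mul_sum]
    refine Finset.sum_congr rfl fun s _ => ?_
    rw [mul_one_div]
    rfl
  rw [h2, inv_mul_cancel₀ hG.ne']
  simp

theorem lam_crude (Q z : ℕ) (hz : 1 ≤ z) {g : ℝ} {y : ℕ → ℝ} (hy : ∀ r, |y r| ≤ g) (d : ℕ) :
    |lam Q z y d| ≤ 4 * g * (1 + Real.log z) ^ 3 := by
  have hg : 0 ≤ g := (abs_nonneg _).trans (hy 0)
  have hlz : 0 ≤ Real.log z := Real.log_natCast_nonneg z
  by_cases hd : d ∈ sq Q z
  · obtain ⟨⟨hd1, hd2⟩, hd3, hd4⟩ := LamB_mem.mp hd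
    refine (LamB_abs hd hy).trans ?_
    have hlog : ∀ n : ℕ, 1 ≤ n → n ≤ z → Real.log n ≤ Real.log z := by
      intro n h1 h2
      exact Real.log_le_log (by exact_mod_cast h1) (by exact_mod_cast h2)
    have h1 : (d : ℝ) / Nat.totient d ≤ 2 * (1 + Real.log z) := by
      have hφ : (0 : ℝ) < Nat.totient d := by exact_mod_cast Nat.totient_pos.mpr hd1
      rw [div_le_iff₀ hφ]
      refine (H69LB.le_totient hd1).trans (mul_le_mul_of_nonneg_right ?_ hφ.le)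
      have := hlog d hd1 hd2
      linarith
    have h2 : ∑ r ∈ LamB_T Q z d, 1 / (Nat.totient r : ℝ) ≤ 2 * (1 + Real.log z) ^ 2 := by
      have h3 : ∑ r ∈ LamB_T Q z d, 1 / (Nat.totient r : ℝ) ≤
          ∑ r ∈ Finset.Icc 1 z, 1 / (Nat.totient r : ℝ) := by
        refine Finset.sum_le_sum_of_subset_of_nonneg ?_ fun s _ _ => LamB_nn s
        exact (Finset.filter_subset _ _).trans (Finset.filter_subset _ _)
      have h4 : ∀ r ∈ Finset.Icc 1 z, 1 / (Nat.totient r : ℝ) ≤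
          2 * (1 + Real.log z) * ((r : ℝ))⁻¹ := by
        intro r hr
        obtain ⟨hr1, hr2⟩ := Finset.mem_Icc.mp hr
        have hφ : (0 : ℝ) < Nat.totient r := by exact_mod_cast Nat.totient_pos.mpr hr1
        have hr0 : (0 : ℝ) < r := by exact_mod_cast hr1
        rw [← div_eq_mul_inv, div_le_div_iff₀ hφ hr0, one_mul]
        refine (H69LB.le_totient hr1).trans (mul_le_mul_of_nonneg_right ?_ hφ.le)
        have := hlog r hr1 hr2
        linarith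
      have h5 := Finset.sum_le_sum h4
      rw [← Finset.mul_sum] at h5
      have h6 := mul_le_mul_of_nonneg_left (H69LB.sum_inv_le z)
        (show (0 : ℝ) ≤ 2 * (1 + Real.log z) by linarith)
      calc _ ≤ _ := h3
        _ ≤ _ := h5
        _ ≤ _ := h6
        _ = 2 * (1 + Real.log z) ^ 2 := by ring
    calc g * ((d : ℝ) / Nat.totient d * ∑ r ∈ LamB_T Q z d, 1 / (Nat.totient r : ℝ)) ≤
        g * (2 * (1 + Real.log z) * (2 * (1 + Real.log z) ^ 2)) := by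
          refine mul_le_mul_of_nonneg_left (mul_le_mul h1 h2
            (Finset.sum_nonneg fun s _ => LamB_nn s) (by linarith)) hg
      _ = 4 * g * (1 + Real.log z) ^ 3 := by ring
  · unfold lam
    rw [LamB_empty hd]
    simp only [Finset.sum_empty, mul_zero, abs_zero]
    positivity

end EG
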