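import Pool.Agent.H6.EG.Defs

/-!
# MP_0e3417 row LcP: products of divisor sums

`fn_mul`: `lcm d d' ∣ n ↔ d ∣ n ∧ d' ∣ n`; group the pairs `(d, d')` by their lcm.
`lcf_sum`: the same grouping for an arbitrary function `h` of the lcm.
`good_lcD`: the lcm of squarefree numbers is squarefree, and coprime to `Q`.
`lcf_abs`: triangle inequality and `lcf_sum` for absolute values.
`lcf_gcd`: `lcf_sum` with `h B = gcd(e,B)/B`, and `gcd(e,B) lcm(e,B) = e B` (all numbers in `D`, `D'` are positive).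
-/

open Finset

namespace EG

theorem LcP_sum (D D' : Finset ℕ) (f f' : ℕ → ℝ) (h : ℕ → ℝ) :
    ∑ B ∈ lcD D D', lcf D D' f f' B * h B = ∑ d ∈ D, ∑ d' ∈ D', f d * f' d' * h (Nat.lcm d d') := by
  classical
  have h1 : ∀ B ∈ lcD D D', lcf D D' f f' B * h B =
      ∑ p ∈ (D ×ˢ D').filter (fun p => Nat.lcm p.1 p.2 = B), f p.1 * f' p.2 * h (Nat.lcm p.1 p.2) := by
    intro B _
    rw [lcf, sum_mul]
    refine sum_congr rfl fun p hp => ?_
    rw [(mem_filter.1 hp).2]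
  rw [sum_congr rfl h1, sum_fiberwise_of_maps_to (s := D ×ˢ D') (t := lcD D D')
    (g := fun p => Nat.lcm p.1 p.2) (fun p hp => mem_image_of_mem _ hp)
    (fun p => f p.1 * f' p.2 * h (Nat.lcm p.1 p.2)), sum_product]

theorem fn_mul (D D' : Finset ℕ) (f f' : ℕ → ℝ) (n : ℕ) :
    Fn D f n * Fn D' f' n = Fn (lcD D D') (lcf D D' f f') n := by
  have h1 : Fn (lcD D D') (lcf D D' f f') n =
      ∑ B ∈ lcD D D', lcf D D' f f' B * (if B ∣ n then 1 else 0) := by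
    rw [Fn, sum_filter]
    refine sum_congr rfl fun B _ => ?_
    rw [mul_ite, mul_one, mul_zero]
  rw [h1, LcP_sum, Fn, Fn, sum_filter, sum_filter, sum_mul_sum]
  refine sum_congr rfl fun d _ => sum_congr rfl fun d' _ => ?_
  by_cases h2 : d ∣ n
  · by_cases h3 : d' ∣ n
    · rw [if_pos h2, if_pos h3, if_pos (Nat.lcm_dvd h2 h3), mul_one]
    · rw [if_neg h3, if_neg (fun h => h3 ((Nat.dvd_lcm_right d d').trans h)), mul_zero, mul_zero]
  · rw [if_neg h2, if_neg (fun h => h2 ((Nat.dvd_lcm_left d d').trans h)), mul_zero, zero_mul]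

theorem lcf_sum (D D' : Finset ℕ) (f f' : ℕ → ℝ) (h : ℕ → ℝ) :
    ∑ B ∈ lcD D D', lcf D D' f f' B * h B = ∑ d ∈ D, ∑ d' ∈ D', f d * f' d' * h (Nat.lcm d d') :=
  LcP_sum D D' f f' h

theorem LcP_sqf {a b : ℕ} (ha : Squarefree a) (hb : Squarefree b) : Squarefree (Nat.lcm a b) := by
  have ha0 : a ≠ 0 := ha.ne_zero
  have hb0 : b ≠ 0 := hb.ne_zero
  rw [Nat.squarefree_iff_factorization_le_one (Nat.lcm_ne_zero ha0 hb0)]
  intro p
  rw [Nat.factorization_lcm ha0 hb0, Finsupp.sup_apply]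
  exact sup_le (((Nat.squarefree_iff_factorization_le_one ha0).1 ha) p)
    (((Nat.squarefree_iff_factorization_le_one hb0).1 hb) p)

theorem good_lcD {Q : ℕ} {D D' : Finset ℕ} (h : Good Q D) (h' : Good Q D') : Good Q (lcD D D') := by
  intro B hB
  rw [lcD, mem_image] at hB
  obtain ⟨⟨d, d'⟩, hp, rfl⟩ := hB
  rw [mem_product] at hp
  obtain ⟨h1, h2⟩ := h d hp.1
  obtain ⟨h3, h4⟩ := h' d' hp.2
  refine ⟨LcP_sqf h1 h3, ?_⟩
  exact Nat.Coprime.coprime_dvd_left (Nat.lcm_dvd_mul d d') (Nat.Coprime.mul_left h2 h4)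

theorem lcf_abs (D D' : Finset ℕ) (f f' : ℕ → ℝ) :
    ∑ B ∈ lcD D D', |lcf D D' f f' B| ≤ (∑ d ∈ D, |f d|) * ∑ d ∈ D', |f' d| := by
  have h1 : ∑ B ∈ lcD D D', |lcf D D' f f' B| ≤
      ∑ B ∈ lcD D D', lcf D D' (fun d => |f d|) (fun d => |f' d|) B * 1 := by
    refine sum_le_sum fun B _ => ?_
    rw [mul_one, lcf, lcf]
    refine (abs_sum_le_sum_abs _ _).trans (le_of_eq ?_)
    exact sum_congr rfl fun p _ => abs_mul _ _
  refine h1.trans (le_of_eq ?_)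
  rw [lcf_sum D D' (fun d => |f d|) (fun d => |f' d|) (fun _ => 1), sum_mul_sum]
  exact sum_congr rfl fun d _ => sum_congr rfl fun d' _ => mul_one _

theorem lcf_gcd {Q : ℕ} {D D' : Finset ℕ} (hD : Good Q D) (hD' : Good Q D') (f f' : ℕ → ℝ) {e : ℕ} (he : 1 ≤ e) :
    ∑ B ∈ lcD D D', lcf D D' f f' B * ((Nat.gcd e B : ℝ) / B) =
      e * ∑ d ∈ D, ∑ d' ∈ D', f d * f' d' / (Nat.lcm e (Nat.lcm d d') : ℝ) := by
  rw [lcf_sum D D' f f' (fun B => (Nat.gcd e B : ℝ) / B), mul_sum]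
  refine sum_congr rfl fun d hd => ?_
  rw [mul_sum]
  refine sum_congr rfl fun d' hd' => ?_
  have hd0 : d ≠ 0 := (hD d hd).1.ne_zero
  have hd0' : d' ≠ 0 := (hD' d' hd').1.ne_zero
  have hB : Nat.lcm d d' ≠ 0 := Nat.lcm_ne_zero hd0 hd0'
  have hL : Nat.lcm e (Nat.lcm d d') ≠ 0 := Nat.lcm_ne_zero (by omega) hB
  have hB' : ((Nat.lcm d d' : ℕ) : ℝ) ≠ 0 := by exact_mod_cast hB
  have hL' : ((Nat.lcm e (Nat.lcm d d') : ℕ) : ℝ) ≠ 0 := by exact_mod_cast hL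
  have key : (Nat.gcd e (Nat.lcm d d') : ℝ) * (Nat.lcm e (Nat.lcm d d') : ℝ) =
      e * (Nat.lcm d d' : ℝ) := by
    exact_mod_cast Nat.gcd_mul_lcm e (Nat.lcm d d')
  field_simp
  linear_combination (f d * f' d') * key

end EG
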