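import Pool.Agent.H6.EG.SelT
import Pool.Agent.H6.EG.LcP

/-!
# MP_0e3417 row SelU: the second Selberg identity and its bound

`selU`: for squarefree `d, d'` put `e = d/gcd(d,b)`, `e' = d'/gcd(d',b)` (coprime to `b`). Then `lcm(b, d, d') = b lcm(e, e')` and
`1/lcm(e,e') = gcd(e,e')/(e e') = (1/(e e')) ∑_{r ∣ e, r ∣ e'} φ(r)`, `1/e = gcd(d,b)/d`; `r ∣ e` and `r ∣ e'` iff `r ∣ d`, `r ∣ d'` and `(r,b) = 1`.
So `b ∑_{d,d'} lam_d lam'_{d'}/lcm(b,d,d') = ∑_{r, (r,b) = 1} φ(r) (∑_{r ∣ d} lam_d gcd(d,b)/d) (∑_{r ∣ d'} lam'_{d'} gcd(d',b)/d')`, `r ∈ sq Q z`; apply `selT` twice (`μ(r)² = 1`).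
`selB`: Cauchy-Schwarz: `|∑ Y Y'/φ| ≤ (∑ Y²/φ)^(1/2) (∑ Y'²/φ)^(1/2)`, and `Yb(r)² ≤ 2^ω(b) ∑_{c ∣ b} [rc ∈ sq Q z] y_{rc}²` (there are `2^ω(b)` divisors), so
`∑_r Yb(r)²/φ(r) ≤ 4^ω(b) N`. (In the second factor `r` runs over `sq Q z`; the terms with `r ∉ sq Q z'` vanish.)
-/

open Finset

namespace EG

theorem SelU_lcm {b d d' : ℕ} (hb : 0 < b) (hd : 0 < d) (hd' : 0 < d') :
    Nat.lcm b (Nat.lcm d d') = b * Nat.lcm (d / Nat.gcd d b) (d' / Nat.gcd d' b) := by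
  have h1 : ∀ x : ℕ, Nat.lcm b x = b * (x / Nat.gcd x b) := by
    intro x
    rw [Nat.lcm, Nat.gcd_comm b x, Nat.mul_div_assoc _ (Nat.gcd_dvd_left x b)]
  have h2 : Nat.lcm b (Nat.lcm d d') = Nat.lcm (Nat.lcm b d) (Nat.lcm b d') := by
    apply Nat.dvd_antisymm
    · refine Nat.lcm_dvd ?_ (Nat.lcm_dvd ?_ ?_)
      · exact (Nat.dvd_lcm_left b d).trans (Nat.dvd_lcm_left _ _)
      · exact (Nat.dvd_lcm_right b d).trans (Nat.dvd_lcm_left _ _)
      · exact (Nat.dvd_lcm_right b d').trans (Nat.dvd_lcm_right _ _)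
    · refine Nat.lcm_dvd (Nat.lcm_dvd ?_ ?_) (Nat.lcm_dvd ?_ ?_)
      · exact Nat.dvd_lcm_left _ _
      · exact (Nat.dvd_lcm_left d d').trans (Nat.dvd_lcm_right _ _)
      · exact Nat.dvd_lcm_left _ _
      · exact (Nat.dvd_lcm_right d d').trans (Nat.dvd_lcm_right _ _)
  rw [h2, h1 d, h1 d', Nat.lcm_mul_left]

theorem SelU_dvd {b d r : ℕ} (hd : Squarefree d) :
    r ∣ d / Nat.gcd d b ↔ r ∣ d ∧ Nat.Coprime r b := by
  have hg : Nat.gcd d b ∣ d := Nat.gcd_dvd_left d b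
  have hd0 : 0 < d := Nat.pos_of_ne_zero hd.ne_zero
  have hg0 : 0 < Nat.gcd d b := Nat.gcd_pos_of_pos_left b hd0
  obtain ⟨e, he⟩ := hg
  have he' : d / Nat.gcd d b = e := by
    conv_lhs => rw [he]
    have h3 : Nat.gcd (Nat.gcd d b * e) b = Nat.gcd d b := by rw [← he]
    rw [h3]
    exact Nat.mul_div_cancel_left e hg0
  rw [he']
  have hge : Nat.Coprime (Nat.gcd d b) e := by
    apply Nat.coprime_of_squarefree_mul
    rw [← he]
    exact hd
  constructor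
  · intro h
    have hre : r ∣ d := by
      rw [he]
      exact h.mul_left _
    refine ⟨hre, ?_⟩
    have h4 : Nat.gcd r b ∣ Nat.gcd d b :=
      Nat.dvd_gcd ((Nat.gcd_dvd_left r b).trans hre) (Nat.gcd_dvd_right r b)
    have h5 : Nat.gcd r b ∣ e := (Nat.gcd_dvd_left r b).trans h
    have h6 : Nat.gcd r b ∣ Nat.gcd (Nat.gcd d b) e := Nat.dvd_gcd h4 h5
    rw [hge] at h6
    exact Nat.dvd_one.mp h6
  · rintro ⟨h1, h2⟩
    have h3 : Nat.Coprime r (Nat.gcd d b) := h2.coprime_dvd_right (Nat.gcd_dvd_right d b)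
    rw [he] at h1
    exact h3.dvd_of_dvd_mul_left h1

theorem SelU_tot {Q z b d d' : ℕ} (hd : d ∈ sq Q z) (hd' : Squarefree d') :
    ∑ r ∈ (sq Q z).filter (fun r => Nat.Coprime r b), (if r ∣ d ∧ r ∣ d' then (Nat.totient r : ℝ) else 0) =
      (Nat.gcd (d / Nat.gcd d b) (d' / Nat.gcd d' b) : ℝ) := by
  have hds := (selT_mem.mp hd).2.1
  have hd0 : 0 < d := Nat.pos_of_ne_zero hds.ne_zero
  have he0 : 0 < d / Nat.gcd d b :=
    Nat.div_pos (Nat.le_of_dvd hd0 (Nat.gcd_dvd_left d b)) (Nat.gcd_pos_of_pos_left b hd0)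
  have h1 := Nat.sum_totient (Nat.gcd (d / Nat.gcd d b) (d' / Nat.gcd d' b))
  rw [← Finset.sum_filter]
  have h2 : ((sq Q z).filter (fun r => Nat.Coprime r b)).filter (fun r => r ∣ d ∧ r ∣ d') =
      (Nat.gcd (d / Nat.gcd d b) (d' / Nat.gcd d' b)).divisors := by
    ext r
    rw [Finset.mem_filter, Finset.mem_filter, Nat.mem_divisors, Nat.dvd_gcd_iff, SelU_dvd hds, SelU_dvd hd']
    constructor
    · rintro ⟨⟨_, h4⟩, h5, h6⟩
      exact ⟨⟨⟨h5, h4⟩, ⟨h6, h4⟩⟩, (Nat.gcd_pos_of_pos_left _ he0).ne'⟩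
    · rintro ⟨⟨⟨h5, h4⟩, ⟨h6, _⟩⟩, _⟩
      exact ⟨⟨selT_dvd hd h5, h4⟩, h5, h6⟩
  rw [h2]
  exact_mod_cast h1

theorem SelU_key {Q z z' b d d' : ℕ} (hb : Squarefree b) (hd : d ∈ sq Q z) (hd' : d' ∈ sq Q z') :
    (b : ℝ) / (Nat.lcm b (Nat.lcm d d') : ℝ) =
      ((Nat.gcd d b : ℝ) / d) * ((Nat.gcd d' b : ℝ) / d') *
        ∑ r ∈ (sq Q z).filter (fun r => Nat.Coprime r b), (if r ∣ d ∧ r ∣ d' then (Nat.totient r : ℝ) else 0) := by
  have hb0 : 0 < b := Nat.pos_of_ne_zero hb.ne_zero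
  have hds := (selT_mem.mp hd).2.1
  have hds' := (selT_mem.mp hd').2.1
  have hd0 : 0 < d := Nat.pos_of_ne_zero hds.ne_zero
  have hd0' : 0 < d' := Nat.pos_of_ne_zero hds'.ne_zero
  have hg0 : 0 < Nat.gcd d b := Nat.gcd_pos_of_pos_left b hd0
  have hg0' : 0 < Nat.gcd d' b := Nat.gcd_pos_of_pos_left b hd0'
  have he0 : 0 < d / Nat.gcd d b := Nat.div_pos (Nat.le_of_dvd hd0 (Nat.gcd_dvd_left d b)) hg0
  have he0' : 0 < d' / Nat.gcd d' b := Nat.div_pos (Nat.le_of_dvd hd0' (Nat.gcd_dvd_left d' b)) hg0'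
  rw [SelU_tot hd hds', SelU_lcm hb0 hd0 hd0']
  have h1 : d / Nat.gcd d b * Nat.gcd d b = d := Nat.div_mul_cancel (Nat.gcd_dvd_left d b)
  have h1' : d' / Nat.gcd d' b * Nat.gcd d' b = d' := Nat.div_mul_cancel (Nat.gcd_dvd_left d' b)
  have h2 := Nat.gcd_mul_lcm (d / Nat.gcd d b) (d' / Nat.gcd d' b)
  have hl0 : 0 < Nat.lcm (d / Nat.gcd d b) (d' / Nat.gcd d' b) := Nat.lcm_pos he0 he0'
  generalize hG : Nat.gcd (d / Nat.gcd d b) (d' / Nat.gcd d' b) = G at *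
  generalize hL : Nat.lcm (d / Nat.gcd d b) (d' / Nat.gcd d' b) = L at *
  generalize hE : d / Nat.gcd d b = E at *
  generalize hE' : d' / Nat.gcd d' b = E' at *
  generalize Nat.gcd d b = g at *
  generalize Nat.gcd d' b = g' at *
  have r1 : (E : ℝ) * g = d := by exact_mod_cast h1
  have r1' : (E' : ℝ) * g' = d' := by exact_mod_cast h1'
  have r2 : (G : ℝ) * L = E * E' := by exact_mod_cast h2
  have b0 : (b : ℝ) ≠ 0 := by exact_mod_cast hb0.ne'
  have g0 : (g : ℝ) ≠ 0 := by exact_mod_cast hg0.ne'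
  have g0' : (g' : ℝ) ≠ 0 := by exact_mod_cast hg0'.ne'
  have E0 : (E : ℝ) ≠ 0 := by exact_mod_cast he0.ne'
  have E0' : (E' : ℝ) ≠ 0 := by exact_mod_cast he0'.ne'
  have L0 : (L : ℝ) ≠ 0 := by exact_mod_cast hl0.ne'
  rw [← r1, ← r1']
  push_cast
  field_simp
  linear_combination -r2

theorem selU (Q z z' : ℕ) (y y' : ℕ → ℝ) {b : ℕ} (hb : Squarefree b) (hbQ : Nat.Coprime b Q) :
    (b : ℝ) * ∑ d ∈ sq Q z, ∑ d' ∈ sq Q z', lam Q z y d * lam Q z' y' d' / (Nat.lcm b (Nat.lcm d d') : ℝ) =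
      ∑ r ∈ (sq Q z).filter (fun r => Nat.Coprime r b), Yb Q z y b r * Yb Q z' y' b r / (Nat.totient r : ℝ) := by
  have h1 : (b : ℝ) * ∑ d ∈ sq Q z, ∑ d' ∈ sq Q z', lam Q z y d * lam Q z' y' d' / (Nat.lcm b (Nat.lcm d d') : ℝ) =
      ∑ d ∈ sq Q z, ∑ d' ∈ sq Q z', ∑ r ∈ (sq Q z).filter (fun r => Nat.Coprime r b),
        (Nat.totient r : ℝ) * (if r ∣ d then lam Q z y d * (Nat.gcd d b : ℝ) / d else 0) *
          (if r ∣ d' then lam Q z' y' d' * (Nat.gcd d' b : ℝ) / d' else 0) := by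
    rw [Finset.mul_sum]
    refine Finset.sum_congr rfl fun d hd => ?_
    rw [Finset.mul_sum]
    refine Finset.sum_congr rfl fun d' hd' => ?_
    have h2 : (b : ℝ) * (lam Q z y d * lam Q z' y' d' / (Nat.lcm b (Nat.lcm d d') : ℝ)) =
        lam Q z y d * lam Q z' y' d' * ((b : ℝ) / (Nat.lcm b (Nat.lcm d d') : ℝ)) := by ring
    rw [h2, SelU_key hb hd hd', ← mul_assoc, Finset.mul_sum]
    refine Finset.sum_congr rfl fun r _ => ?_
    by_cases h3 : r ∣ d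
    · by_cases h4 : r ∣ d'
      · rw [if_pos ⟨h3, h4⟩, if_pos h3, if_pos h4]
        ring
      · rw [if_neg (fun h => h4 h.2), if_neg h4]
        ring
    · rw [if_neg (fun h => h3 h.1), if_neg h3]
      ring
  rw [h1]
  have h5 : ∑ d ∈ sq Q z, ∑ d' ∈ sq Q z', ∑ r ∈ (sq Q z).filter (fun r => Nat.Coprime r b),
        (Nat.totient r : ℝ) * (if r ∣ d then lam Q z y d * (Nat.gcd d b : ℝ) / d else 0) *
          (if r ∣ d' then lam Q z' y' d' * (Nat.gcd d' b : ℝ) / d' else 0) =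
      ∑ r ∈ (sq Q z).filter (fun r => Nat.Coprime r b), ∑ d ∈ sq Q z, ∑ d' ∈ sq Q z',
        (Nat.totient r : ℝ) * (if r ∣ d then lam Q z y d * (Nat.gcd d b : ℝ) / d else 0) *
          (if r ∣ d' then lam Q z' y' d' * (Nat.gcd d' b : ℝ) / d' else 0) := by
    have h6 : ∀ d ∈ sq Q z, ∑ d' ∈ sq Q z', ∑ r ∈ (sq Q z).filter (fun r => Nat.Coprime r b),
        (Nat.totient r : ℝ) * (if r ∣ d then lam Q z y d * (Nat.gcd d b : ℝ) / d else 0) *
          (if r ∣ d' then lam Q z' y' d' * (Nat.gcd d' b : ℝ) / d' else 0) =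
        ∑ r ∈ (sq Q z).filter (fun r => Nat.Coprime r b), ∑ d' ∈ sq Q z',
        (Nat.totient r : ℝ) * (if r ∣ d then lam Q z y d * (Nat.gcd d b : ℝ) / d else 0) *
          (if r ∣ d' then lam Q z' y' d' * (Nat.gcd d' b : ℝ) / d' else 0) := fun d _ => Finset.sum_comm
    rw [Finset.sum_congr rfl h6, Finset.sum_comm]
  rw [h5]
  refine Finset.sum_congr rfl fun r hr => ?_
  rw [Finset.mem_filter, selT_mem] at hr
  obtain ⟨⟨_, hrs, hrQ⟩, hrb⟩ := hr
  have h7 : ∑ d ∈ sq Q z, ∑ d' ∈ sq Q z',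
        (Nat.totient r : ℝ) * (if r ∣ d then lam Q z y d * (Nat.gcd d b : ℝ) / d else 0) *
          (if r ∣ d' then lam Q z' y' d' * (Nat.gcd d' b : ℝ) / d' else 0) =
      (Nat.totient r : ℝ) * (∑ d ∈ (sq Q z).filter (fun d => r ∣ d), lam Q z y d * (Nat.gcd d b : ℝ) / d) *
        (∑ d ∈ (sq Q z').filter (fun d => r ∣ d), lam Q z' y' d * (Nat.gcd d b : ℝ) / d) := by
    rw [Finset.sum_filter, Finset.sum_filter, mul_assoc, Finset.sum_mul_sum, Finset.mul_sum]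
    refine Finset.sum_congr rfl fun d _ => ?_
    rw [Finset.mul_sum]
    refine Finset.sum_congr rfl fun d' _ => ?_
    ring
  rw [h7, selT Q z y hrs hrQ hb hbQ hrb, selT Q z' y' hrs hrQ hb hbQ hrb]
  have hphi : ((Nat.totient r : ℕ) : ℝ) ≠ 0 := by
    exact_mod_cast (Nat.totient_pos.mpr (Nat.pos_of_ne_zero hrs.ne_zero)).ne'
  have hmu : (ArithmeticFunction.moebius r : ℝ) ^ 2 = 1 := by
    have := ArithmeticFunction.moebius_sq_eq_one_of_squarefree hrs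
    exact_mod_cast this
  field_simp
  linear_combination (Yb Q z y b r * Yb Q z' y' b r) * hmu

theorem SelU_card {b : ℕ} (hb : Squarefree b) : (b.divisors.card : ℝ) ≤ 2 ^ b.primeFactors.card := by
  have h1 : b.divisors.card ≤ 2 ^ b.primeFactors.card := by
    rw [Nat.card_divisors hb.ne_zero]
    refine (Finset.prod_le_pow_card _ _ 2 ?_)
    intro p _
    have := hb.natFactorization_le_one p
    omega
  exact_mod_cast h1

theorem SelU_sq (Q z : ℕ) (y : ℕ → ℝ) {N : ℝ}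
    (hN : ∀ c : ℕ, 1 ≤ c → ∑ r ∈ sq Q z, (if r * c ∈ sq Q z then y (r * c) ^ 2 else 0) / (Nat.totient r : ℝ) ≤ N)
    {b : ℕ} (hb : Squarefree b) :
    ∑ r ∈ sq Q z, Yb Q z y b r ^ 2 / (Nat.totient r : ℝ) ≤ 4 ^ b.primeFactors.card * N := by
  have hN0 : 0 ≤ N := by
    refine le_trans (Finset.sum_nonneg fun r _ => ?_) (hN 1 le_rfl)
    split_ifs
    · positivity
    · simp
  have hcard := SelU_card hb
  have h2 : (0 : ℝ) ≤ 2 ^ b.primeFactors.card := by positivity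
  have h1 : ∀ r ∈ sq Q z, Yb Q z y b r ^ 2 / (Nat.totient r : ℝ) ≤
      2 ^ b.primeFactors.card * ∑ c ∈ b.divisors, (if r * c ∈ sq Q z then y (r * c) ^ 2 else 0) / (Nat.totient r : ℝ) := by
    intro r _
    have h3 : Yb Q z y b r ^ 2 ≤ 2 ^ b.primeFactors.card *
        ∑ c ∈ b.divisors, (if r * c ∈ sq Q z then y (r * c) ^ 2 else 0) := by
      unfold Yb
      refine (sq_sum_le_card_mul_sum_sq).trans ?_
      have h4 : ∑ c ∈ b.divisors, ((ArithmeticFunction.moebius c : ℝ) * (if r * c ∈ sq Q z then y (r * c) else 0)) ^ 2 ≤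
          ∑ c ∈ b.divisors, (if r * c ∈ sq Q z then y (r * c) ^ 2 else 0) := by
        refine Finset.sum_le_sum fun c hc => ?_
        have hmu : (ArithmeticFunction.moebius c : ℝ) ^ 2 = 1 := by
          have := ArithmeticFunction.moebius_sq_eq_one_of_squarefree
            (hb.squarefree_of_dvd (Nat.dvd_of_mem_divisors hc))
          exact_mod_cast this
        rw [mul_pow, hmu, one_mul]
        split_ifs
        · exact le_rfl
        · simp
      have h5 : 0 ≤ ∑ c ∈ b.divisors, (if r * c ∈ sq Q z then y (r * c) ^ 2 else 0) := by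
        refine Finset.sum_nonneg fun c _ => ?_
        split_ifs
        · positivity
        · exact le_rfl
      exact (mul_le_mul_of_nonneg_left h4 (Nat.cast_nonneg _)).trans (mul_le_mul_of_nonneg_right hcard h5)
    have h6 : 2 ^ b.primeFactors.card * ∑ c ∈ b.divisors, (if r * c ∈ sq Q z then y (r * c) ^ 2 else 0) / (Nat.totient r : ℝ) =
        (2 ^ b.primeFactors.card * ∑ c ∈ b.divisors, (if r * c ∈ sq Q z then y (r * c) ^ 2 else 0)) / (Nat.totient r : ℝ) := by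
      rw [← Finset.sum_div, mul_div_assoc]
    rw [h6]
    exact div_le_div_of_nonneg_right h3 (Nat.cast_nonneg _)
  refine (Finset.sum_le_sum h1).trans ?_
  rw [← Finset.mul_sum, Finset.sum_comm]
  have h7 : ∑ c ∈ b.divisors, ∑ r ∈ sq Q z, (if r * c ∈ sq Q z then y (r * c) ^ 2 else 0) / (Nat.totient r : ℝ) ≤
      2 ^ b.primeFactors.card * N := by
    refine (Finset.sum_le_sum fun c hc => hN c (Nat.pos_of_mem_divisors hc)).trans ?_
    rw [Finset.sum_const, nsmul_eq_mul]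
    exact mul_le_mul_of_nonneg_right hcard hN0
  refine (mul_le_mul_of_nonneg_left h7 h2).trans (le_of_eq ?_)
  rw [← mul_assoc, ← mul_pow]
  norm_num

theorem selB (Q z z' : ℕ) (y y' : ℕ → ℝ) {N N' : ℝ}
    (hN : ∀ c : ℕ, 1 ≤ c → ∑ r ∈ sq Q z, (if r * c ∈ sq Q z then y (r * c) ^ 2 else 0) / (Nat.totient r : ℝ) ≤ N)
    (hN' : ∀ c : ℕ, 1 ≤ c → ∑ r ∈ sq Q z', (if r * c ∈ sq Q z' then y' (r * c) ^ 2 else 0) / (Nat.totient r : ℝ) ≤ N')
    {b : ℕ} (hb : Squarefree b) (hbQ : Nat.Coprime b Q) :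
    |∑ B ∈ lcD (sq Q z) (sq Q z'), lcf (sq Q z) (sq Q z') (lam Q z y) (lam Q z' y') B * ((Nat.gcd b B : ℝ) / B)| ≤
      4 ^ b.primeFactors.card * Real.sqrt (N * N') := by
  have hgood : ∀ x, Good Q (sq Q x) := fun x B hB => (selT_mem.mp hB).2
  rw [lcf_gcd (hgood z) (hgood z') _ _ (Nat.pos_of_ne_zero hb.ne_zero), selU Q z z' y y' hb hbQ]
  have h1 : (∑ r ∈ (sq Q z).filter (fun r => Nat.Coprime r b), Yb Q z y b r * Yb Q z' y' b r / (Nat.totient r : ℝ)) ^ 2 ≤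
      (∑ r ∈ (sq Q z).filter (fun r => Nat.Coprime r b), Yb Q z y b r ^ 2 / (Nat.totient r : ℝ)) *
      (∑ r ∈ (sq Q z).filter (fun r => Nat.Coprime r b), Yb Q z' y' b r ^ 2 / (Nat.totient r : ℝ)) := by
    refine Finset.sum_sq_le_sum_mul_sum_of_sq_eq_mul _ ?_ ?_ ?_
    · intro r _
      positivity
    · intro r _
      positivity
    · intro r _
      ring
  have h2 : ∑ r ∈ (sq Q z).filter (fun r => Nat.Coprime r b), Yb Q z y b r ^ 2 / (Nat.totient r : ℝ) ≤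
      4 ^ b.primeFactors.card * N := by
    refine (Finset.sum_le_sum_of_subset_of_nonneg (Finset.filter_subset _ _) ?_).trans (SelU_sq Q z y hN hb)
    intro r _ _
    positivity
  have h3 : ∑ r ∈ (sq Q z).filter (fun r => Nat.Coprime r b), Yb Q z' y' b r ^ 2 / (Nat.totient r : ℝ) ≤
      4 ^ b.primeFactors.card * N' := by
    refine le_trans ?_ (SelU_sq Q z' y' hN' hb)
    have h4 : ∑ r ∈ (sq Q z).filter (fun r => Nat.Coprime r b), Yb Q z' y' b r ^ 2 / (Nat.totient r : ℝ) =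
        ∑ r ∈ ((sq Q z).filter (fun r => Nat.Coprime r b)).filter (fun r => r ∈ sq Q z'),
          Yb Q z' y' b r ^ 2 / (Nat.totient r : ℝ) := by
      rw [Finset.sum_filter (p := fun r => r ∈ sq Q z')]
      refine Finset.sum_congr rfl fun r _ => ?_
      split_ifs with h
      · rfl
      · have h5 : Yb Q z' y' b r = 0 := by
          unfold Yb
          refine Finset.sum_eq_zero fun c _ => ?_
          rw [if_neg, mul_zero]
          intro h6
          exact h (selT_dvd h6 (Dvd.intro c rfl))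
        rw [h5]
        simp
    rw [h4]
    refine Finset.sum_le_sum_of_subset_of_nonneg ?_ ?_
    · intro r hr
      exact (Finset.mem_filter.mp hr).2
    · intro r _ _
      positivity
  have h0 : (0 : ℝ) ≤ ∑ r ∈ (sq Q z).filter (fun r => Nat.Coprime r b), Yb Q z' y' b r ^ 2 / (Nat.totient r : ℝ) := by
    refine Finset.sum_nonneg fun r _ => ?_
    positivity
  have h0' : (0 : ℝ) ≤ ∑ r ∈ (sq Q z).filter (fun r => Nat.Coprime r b), Yb Q z y b r ^ 2 / (Nat.totient r : ℝ) := by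
    refine Finset.sum_nonneg fun r _ => ?_
    positivity
  have h6 := h1.trans (mul_le_mul h2 h3 h0 (h0'.trans h2))
  have h7 : (4 : ℝ) ^ b.primeFactors.card * N * (4 ^ b.primeFactors.card * N') =
      (4 ^ b.primeFactors.card) ^ 2 * (N * N') := by ring
  rw [h7] at h6
  have h8 := Real.abs_le_sqrt h6
  rw [Real.sqrt_mul (by positivity), Real.sqrt_sq (by positivity)] at h8
  exact h8

end EG
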