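import Pool.Agent.H6.EG.Defs

/-!
# MP_0e3417 row Ssu: the sums `S(b)` in terms of the sums with a gcd

`ssu`: exchange the sums; for squarefree `b` and squarefree `B`: `∑_{e ∣ b} μ(b/e) gcd(e,B) = ∏_{q ∣ b} (gcd(q,B) - 1)`, which is `∏_{q ∣ b} (q - 1) = φ(b)` if `b ∣ B` and `0` otherwise.
`ctrl_of_U`: let `b` be squarefree. If `b` is not coprime to `Q` then `SS D f b = 0` (no `B ∈ D` is divisible by `b`). Otherwise all `e ∣ b` are squarefree and coprime to `Q`, and by `ssu`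
`φ(b) |S(b)| ≤ ∑_{e ∣ b} a c^ω(e) gcd(e,p) ≤ a gcd(b,p) (1 + c)^ω(b)`, and `b ≤ 2^ω(b) φ(b)`.
-/

open Finset

namespace EG

theorem Ssu_gcd (B n : ℕ) (hn : 0 < n) :
    ∑ i ∈ n.divisors, (if i ∣ B then (Nat.totient i : ℝ) else 0) = (Nat.gcd n B : ℝ) := by
  rw [← Finset.sum_filter]
  have h1 : n.divisors.filter (fun i => i ∣ B) = (Nat.gcd n B).divisors := by
    ext i
    simp only [Finset.mem_filter, Nat.mem_divisors]
    constructor
    · rintro ⟨⟨h1, h2⟩, h3⟩
      exact ⟨Nat.dvd_gcd h1 h3, (Nat.gcd_pos_of_pos_left B hn).ne'⟩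
    · rintro ⟨h1, h2⟩
      exact ⟨⟨h1.trans (Nat.gcd_dvd_left n B), hn.ne'⟩, h1.trans (Nat.gcd_dvd_right n B)⟩
  rw [h1, ← Nat.cast_sum, Nat.sum_totient]

theorem Ssu_moeb (B b : ℕ) (hb : 0 < b) :
    ∑ e ∈ b.divisors, (ArithmeticFunction.moebius (b / e) : ℝ) * (Nat.gcd e B : ℝ) =
      if b ∣ B then (Nat.totient b : ℝ) else 0 := by
  have h1 := (ArithmeticFunction.sum_eq_iff_sum_mul_moebius_eq
    (f := fun i => if i ∣ B then (Nat.totient i : ℝ) else 0)
    (g := fun n => (Nat.gcd n B : ℝ))).1 (fun n hn => Ssu_gcd B n hn) b hb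
  rw [← h1]
  exact (Nat.sum_divisorsAntidiagonal' (fun x y => (ArithmeticFunction.moebius x : ℝ) *
    (Nat.gcd y B : ℝ))).symm

theorem ssu {Q : ℕ} {D : Finset ℕ} (hD : Good Q D) (f : ℕ → ℝ) {b : ℕ} (hb : Squarefree b) :
    (Nat.totient b : ℝ) * SS D f b =
      ∑ e ∈ b.divisors, (ArithmeticFunction.moebius (b / e) : ℝ) * ∑ B ∈ D, f B * ((Nat.gcd e B : ℝ) / B) := by
  have hb0 : 0 < b := Nat.pos_of_ne_zero hb.ne_zero
  have h1 : (Nat.totient b : ℝ) * SS D f b =
      ∑ B ∈ D, (f B / (B : ℝ)) * (if b ∣ B then (Nat.totient b : ℝ) else 0) := by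
    unfold SS
    rw [Finset.mul_sum, Finset.sum_filter]
    refine Finset.sum_congr rfl fun B _ => ?_
    by_cases h : b ∣ B
    · rw [if_pos h, if_pos h, mul_comm]
    · rw [if_neg h, if_neg h, mul_zero]
  rw [h1]
  have h2 : ∀ B ∈ D, (f B / (B : ℝ)) * (if b ∣ B then (Nat.totient b : ℝ) else 0) =
      ∑ e ∈ b.divisors, (ArithmeticFunction.moebius (b / e) : ℝ) * (f B * ((Nat.gcd e B : ℝ) / B)) := by
    intro B _
    rw [← Ssu_moeb B b hb0, Finset.mul_sum]
    refine Finset.sum_congr rfl fun e _ => ?_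
    ring
  rw [Finset.sum_congr rfl h2, Finset.sum_comm]
  refine Finset.sum_congr rfl fun e _ => ?_
  rw [Finset.mul_sum]

/-- `c ^ ω` as an arithmetic function -/
noncomputable def Ssu_f (c : ℝ) : ArithmeticFunction ℝ :=
  ⟨fun d => if d = 0 then 0 else c ^ d.primeFactors.card, by simp⟩

theorem Ssu_f_mult (c : ℝ) : (Ssu_f c).IsMultiplicative := by
  refine ⟨?_, ?_⟩
  · change (if (1 : ℕ) = 0 then (0 : ℝ) else c ^ (Nat.primeFactors 1).card) = 1
    simp
  · intro m n hmn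
    change (if m * n = 0 then (0 : ℝ) else c ^ (m * n).primeFactors.card) =
      (if m = 0 then (0 : ℝ) else c ^ m.primeFactors.card) *
        (if n = 0 then (0 : ℝ) else c ^ n.primeFactors.card)
    by_cases hm : m = 0
    · simp [hm]
    · by_cases hn : n = 0
      · simp [hn]
      · rw [if_neg (Nat.mul_ne_zero hm hn), if_neg hm, if_neg hn, Nat.primeFactors_mul hm hn,
          Finset.card_union_of_disjoint (Nat.Coprime.disjoint_primeFactors hmn), pow_add]

theorem Ssu_sum (c : ℝ) {b : ℕ} (hb : Squarefree b) :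
    ∑ e ∈ b.divisors, c ^ e.primeFactors.card = (1 + c) ^ b.primeFactors.card := by
  have h1 := (Ssu_f_mult c).prodPrimeFactors_one_add_of_squarefree hb
  have h2 : ∑ e ∈ b.divisors, c ^ e.primeFactors.card = ∑ d ∈ b.divisors, Ssu_f c d := by
    refine Finset.sum_congr rfl fun e he => ?_
    have h3 : e ≠ 0 := (Nat.pos_of_mem_divisors he).ne'
    change _ = if e = 0 then (0 : ℝ) else c ^ e.primeFactors.card
    rw [if_neg h3]
  rw [h2, ← h1]
  have h4 : ∀ p ∈ b.primeFactors, (1 + Ssu_f c p) = 1 + c := by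
    intro p hp
    have hp' := Nat.prime_of_mem_primeFactors hp
    change 1 + (if p = 0 then (0 : ℝ) else c ^ p.primeFactors.card) = 1 + c
    rw [if_neg hp'.ne_zero, Nat.Prime.primeFactors hp', Finset.card_singleton, pow_one]
  rw [Finset.prod_congr rfl h4, Finset.prod_const]

theorem Ssu_tot {b : ℕ} (hb : Squarefree b) : b ≤ 2 ^ b.primeFactors.card * Nat.totient b := by
  have hb0 : 0 < b := Nat.pos_of_ne_zero hb.ne_zero
  have h1 := Nat.totient_mul_prod_primeFactors b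
  rw [Nat.prod_primeFactors_of_squarefree hb, mul_comm] at h1
  have h2 : Nat.totient b = ∏ p ∈ b.primeFactors, (p - 1) := Nat.eq_of_mul_eq_mul_left hb0 h1
  rw [h2, ← Finset.prod_const, ← Finset.prod_mul_distrib]
  calc b = ∏ p ∈ b.primeFactors, p := (Nat.prod_primeFactors_of_squarefree hb).symm
    _ ≤ ∏ p ∈ b.primeFactors, 2 * (p - 1) := by
        refine Finset.prod_le_prod' fun p hp => ?_
        have := (Nat.prime_of_mem_primeFactors hp).two_le
        omega

theorem ctrl_of_U {Q : ℕ} {D : Finset ℕ} (hD : Good Q D) {f : ℕ → ℝ} {a c : ℝ} (ha : 0 ≤ a) (hc : 0 ≤ c) (p : ℕ)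
    (h : ∀ e : ℕ, Squarefree e → Nat.Coprime e Q →
      |∑ B ∈ D, f B * ((Nat.gcd e B : ℝ) / B)| ≤ a * c ^ e.primeFactors.card * (Nat.gcd e p : ℝ)) :
    Ctrl (2 * (1 + c)) a p D f := by
  intro b hb
  have hb0 : 0 < b := Nat.pos_of_ne_zero hb.ne_zero
  have hbR : (0 : ℝ) < b := by exact_mod_cast hb0
  have hC : 0 ≤ 2 * (1 + c) := by linarith
  by_cases hQ : Nat.Coprime b Q
  · have hg : ∀ e ∈ b.divisors,
        |(ArithmeticFunction.moebius (b / e) : ℝ) * ∑ B ∈ D, f B * ((Nat.gcd e B : ℝ) / B)| ≤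
          a * (Nat.gcd b p : ℝ) * c ^ e.primeFactors.card := by
      intro e he
      have hed : e ∣ b := Nat.dvd_of_mem_divisors he
      have h1 := h e (hb.squarefree_of_dvd hed) (Nat.Coprime.coprime_dvd_left hed hQ)
      have h2 : |((ArithmeticFunction.moebius (b / e) : ℤ) : ℝ)| ≤ 1 := by
        exact_mod_cast ArithmeticFunction.abs_moebius_le_one
      have h3 : (Nat.gcd e p : ℝ) ≤ (Nat.gcd b p : ℝ) := by
        have h4 : Nat.gcd e p ∣ Nat.gcd b p := Nat.gcd_dvd_gcd_of_dvd_left p hed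
        exact_mod_cast Nat.le_of_dvd (Nat.gcd_pos_of_pos_left p hb0) h4
      rw [abs_mul]
      calc |((ArithmeticFunction.moebius (b / e) : ℤ) : ℝ)| * |∑ B ∈ D, f B * ((Nat.gcd e B : ℝ) / B)|
          ≤ 1 * (a * c ^ e.primeFactors.card * (Nat.gcd e p : ℝ)) :=
            mul_le_mul h2 h1 (abs_nonneg _) (by norm_num)
        _ ≤ 1 * (a * c ^ e.primeFactors.card * (Nat.gcd b p : ℝ)) := by
            refine mul_le_mul_of_nonneg_left ?_ (by norm_num)
            exact mul_le_mul_of_nonneg_left h3 (by positivity)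
        _ = a * (Nat.gcd b p : ℝ) * c ^ e.primeFactors.card := by ring
    have h5 : (Nat.totient b : ℝ) * |SS D f b| ≤ a * (Nat.gcd b p : ℝ) * (1 + c) ^ b.primeFactors.card := by
      have h6 : (Nat.totient b : ℝ) * |SS D f b| = |(Nat.totient b : ℝ) * SS D f b| := by
        rw [abs_mul, Nat.abs_cast]
      rw [h6, ssu hD f hb]
      refine (Finset.abs_sum_le_sum_abs _ _).trans ((Finset.sum_le_sum hg).trans (le_of_eq ?_))
      rw [← Finset.mul_sum, Ssu_sum c hb]
    have h7 : (b : ℝ) ≤ 2 ^ b.primeFactors.card * (Nat.totient b : ℝ) := by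
      exact_mod_cast Ssu_tot hb
    rw [le_div_iff₀ hbR]
    calc |SS D f b| * b ≤ |SS D f b| * (2 ^ b.primeFactors.card * (Nat.totient b : ℝ)) :=
          mul_le_mul_of_nonneg_left h7 (abs_nonneg _)
      _ = 2 ^ b.primeFactors.card * ((Nat.totient b : ℝ) * |SS D f b|) := by ring
      _ ≤ 2 ^ b.primeFactors.card * (a * (Nat.gcd b p : ℝ) * (1 + c) ^ b.primeFactors.card) :=
          mul_le_mul_of_nonneg_left h5 (by positivity)
      _ = a * (2 * (1 + c)) ^ b.primeFactors.card * (Nat.gcd b p : ℝ) := by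
          rw [mul_pow]
          ring
  · have h1 : SS D f b = 0 := by
      unfold SS
      have h2 : D.filter (fun B => b ∣ B) = ∅ := by
        rw [Finset.filter_eq_empty_iff]
        intro B hB hd
        exact hQ (Nat.Coprime.coprime_dvd_left hd (hD B hB).2)
      rw [h2, Finset.sum_empty]
    rw [h1, abs_zero]
    positivity

end EG
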