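import Pool.Agent.H6.EG.Eqs
import Pool.Agent.H6.EG.SelU
import Pool.Agent.H6.EG.Ssu

/-!
# MP_0e3417 row AtA: the data of the atoms

Write `u = uu e0 T Q`, `z_n = zz e0 v0 T n`, `G(x) = GG Q ⌊x⌋`. `gq` (constant `C0`) for `x = T^(e0 v_n) ≥ 1`: `|GG Q z_n - v_n u| ≤ C0 EQ Q`, as `(φ(Q)/Q) log x = v_n u`.
`Good`: `good_lcD`, `sq`.
`SS` at `1`: by `lcf_gcd` with `e = 1` and `selU` with `b = 1` (`Yb .. 1 r = y r` for `r ∈ sq`): `SS (DA) (fA) 1 = ∑_{r ∈ sq Q z_n} y^(n)_r y^(n')_r/φ(r)` (`y^(n')_r` counted if `r ∈ sq Q z_n'`).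
For `n ≠ n'` the supports `(z_{n-1}, z_n]`, `(z_{n'-1}, z_n']` are disjoint (`z` is monotone in `n` for `T ≥ 1`): the sum is `0`. For `n = n'`: `(1/v_n²) (GG Q z_n - GG Q z_{n-1})` (without the second term if `n = 0`),
which differs from `(1/v_n²) w_n u` by at most `(2/v_n²) C0 EQ Q`. `eqs`: `EQ Q ≤ ε' u`.
`la 1 = ∑_{s ∈ sq Q z_n} y_s/φ(s)`: the same with `1/v_n`.
`Ctrl`: `selB` with `N = (1/v_n²) GG Q z_n ≤ (1/v0²)(v_m + C0) u` (all terms `≤ (1/v_n²)/φ(r)`), so `|∑ .. gcd/B| ≤ 4^ω(b) C1 u` with `C1 = (1/v0²)(v_m + C0) + 1` and `ctrl_of_U` with `c = 4`, `p = 1` gives `Ctrl (2 (1 + 4))`.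
-/

open Finset

namespace EG

theorem AtA_good (Q z : ℕ) : Good Q (sq Q z) := by
  intro B hB
  unfold sq at hB
  rw [Finset.mem_filter] at hB
  exact hB.2

theorem AtA_vv_pos {v0 : ℝ} (hv0 : 0 < v0) (n : ℕ) : 0 < vv v0 n := by
  unfold vv
  positivity

theorem AtA_vv_mono {v0 : ℝ} (hv0 : 0 < v0) {n m : ℕ} (h : n ≤ m) : vv v0 n ≤ vv v0 m := by
  unfold vv
  have h1 : (2 : ℝ) ^ n ≤ 2 ^ m := pow_le_pow_right₀ (by norm_num) h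
  exact mul_le_mul_of_nonneg_right h1 hv0.le

theorem AtA_vv_zero (v0 : ℝ) : vv v0 0 = v0 := by
  unfold vv
  simp

theorem AtA_vv_ge {v0 : ℝ} (hv0 : 0 < v0) (n : ℕ) : v0 ≤ vv v0 n := by
  have := AtA_vv_mono hv0 (Nat.zero_le n)
  rwa [AtA_vv_zero] at this

theorem AtA_zz_mono {e0 v0 T : ℝ} (he0 : 0 < e0) (hv0 : 0 < v0) (hT : 1 ≤ T) {n m : ℕ} (h : n ≤ m) :
    zz e0 v0 T n ≤ zz e0 v0 T m := by
  unfold zz
  apply Nat.floor_le_floor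
  apply Real.rpow_le_rpow_of_exponent_le hT
  exact mul_le_mul_of_nonneg_left (AtA_vv_mono hv0 h) he0.le

/-- the sum over the support of the atom -/
noncomputable def AtA_W (e0 v0 T : ℝ) (Q n : ℕ) : ℝ :=
  ∑ r ∈ sq Q (zz e0 v0 T n), if (n = 0 ∨ zz e0 v0 T (n - 1) < r) then 1 / (Nat.totient r : ℝ) else 0

theorem AtA_G {e0 v0 T C0 : ℝ} (he0 : 0 < e0) (hv0 : 0 < v0) (hT : 1 ≤ T) {Q : ℕ} (hQ : 1 ≤ Q)
    (h : ∀ Q : ℕ, 1 ≤ Q → ∀ x : ℝ, 1 ≤ x →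
      |GG Q ⌊x⌋₊ - (Nat.totient Q : ℝ) / Q * Real.log x| ≤ C0 * EQ Q) (n : ℕ) :
    |GG Q (zz e0 v0 T n) - vv v0 n * uu e0 T Q| ≤ C0 * EQ Q := by
  have h1 : (1 : ℝ) ≤ T ^ (e0 * vv v0 n) :=
    Real.one_le_rpow hT (mul_nonneg he0.le (AtA_vv_pos hv0 n).le)
  have h2 := h Q hQ _ h1
  rw [Real.log_rpow (by linarith)] at h2
  have h3 : vv v0 n * uu e0 T Q = (Nat.totient Q : ℝ) / Q * (e0 * vv v0 n * Real.log T) := by
    unfold uu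
    ring
  rw [h3]
  exact h2

theorem AtA_sq_sub {Q z z' : ℕ} (h : z ≤ z') : sq Q z ⊆ sq Q z' := by
  intro r hr
  unfold sq at hr ⊢
  rw [Finset.mem_filter, Finset.mem_Icc] at hr ⊢
  exact ⟨⟨hr.1.1, hr.1.2.trans h⟩, hr.2⟩

theorem AtA_W_eq {e0 v0 T : ℝ} (he0 : 0 < e0) (hv0 : 0 < v0) (hT : 1 ≤ T) (Q n : ℕ) :
    AtA_W e0 v0 T Q n = GG Q (zz e0 v0 T n) - (if n = 0 then 0 else GG Q (zz e0 v0 T (n - 1))) := by
  by_cases hn : n = 0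
  · subst hn
    simp only [AtA_W, GG, true_or, if_true, sub_zero]
  · rw [if_neg hn]
    have h1 : zz e0 v0 T (n - 1) ≤ zz e0 v0 T n := AtA_zz_mono he0 hv0 hT (Nat.sub_le n 1)
    have h2 : GG Q (zz e0 v0 T (n - 1)) =
        ∑ r ∈ sq Q (zz e0 v0 T n), if r ≤ zz e0 v0 T (n - 1) then 1 / (Nat.totient r : ℝ) else 0 := by
      unfold GG
      rw [← Finset.sum_filter]
      apply Finset.sum_congr _ (fun _ _ => rfl)
      ext r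
      unfold sq
      simp only [Finset.mem_filter, Finset.mem_Icc]
      constructor
      · rintro ⟨⟨a, b⟩, c⟩
        exact ⟨⟨⟨a, b.trans h1⟩, c⟩, b⟩
      · rintro ⟨⟨⟨a, _⟩, c⟩, d⟩
        exact ⟨⟨a, d⟩, c⟩
    rw [h2]
    unfold AtA_W GG
    rw [← Finset.sum_sub_distrib]
    apply Finset.sum_congr rfl
    intro r _
    by_cases hr : r ≤ zz e0 v0 T (n - 1)
    · rw [if_neg (by push Not; exact ⟨hn, hr⟩), if_pos hr]
      ring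
    · rw [if_pos (Or.inr (by omega)), if_neg hr]
      ring

theorem AtA_W_bound {e0 v0 T C0 : ℝ} (he0 : 0 < e0) (hv0 : 0 < v0) (hT : 1 ≤ T) {Q : ℕ} (hQ : 1 ≤ Q)
    (h : ∀ Q : ℕ, 1 ≤ Q → ∀ x : ℝ, 1 ≤ x →
      |GG Q ⌊x⌋₊ - (Nat.totient Q : ℝ) / Q * Real.log x| ≤ C0 * EQ Q) (n : ℕ) :
    |AtA_W e0 v0 T Q n - wv v0 n * uu e0 T Q| ≤ 2 * (C0 * EQ Q) := by
  have h1 := AtA_G he0 hv0 hT hQ h n
  have h0 : 0 ≤ C0 * EQ Q := (abs_nonneg _).trans h1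
  rw [AtA_W_eq he0 hv0 hT]
  by_cases hn : n = 0
  · subst hn
    simp only [if_true, sub_zero, wv]
    rw [AtA_vv_zero] at h1
    linarith
  · rw [if_neg hn]
    have h2 := AtA_G he0 hv0 hT hQ h (n - 1)
    have h3 : vv v0 n = 2 * vv v0 (n - 1) := by
      unfold vv
      obtain ⟨k, rfl⟩ := Nat.exists_eq_succ_of_ne_zero hn
      simp only [Nat.succ_eq_add_one, Nat.add_sub_cancel]
      ring
    have h4 : wv v0 n = vv v0 n - vv v0 (n - 1) := by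
      unfold wv
      rw [if_neg hn, h3]
      ring
    rw [h4]
    rw [abs_le] at h1 h2 ⊢
    constructor
    · nlinarith [h1.1, h2.2]
    · nlinarith [h1.2, h2.1]

theorem AtA_la {e0 v0 T : ℝ} (Q n : ℕ) :
    la e0 v0 T Q n 1 = (vv v0 n)⁻¹ * AtA_W e0 v0 T Q n := by
  unfold la lam AtA_W
  rw [Finset.filter_true_of_mem (fun s _ => one_dvd s), Finset.mul_sum, Finset.mul_sum]
  apply Finset.sum_congr rfl
  intro s hs
  have hs2 : s ≤ zz e0 v0 T n := by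
    unfold sq at hs
    rw [Finset.mem_filter, Finset.mem_Icc] at hs
    exact hs.1.2
  unfold ya
  by_cases hc : n = 0 ∨ zz e0 v0 T (n - 1) < s
  · rw [if_pos ⟨hs2, hc⟩, if_pos hc]
    simp
    ring
  · rw [if_neg (fun h => hc h.2), if_neg hc]
    simp

theorem AtA_Yb (Q z : ℕ) (y : ℕ → ℝ) (r : ℕ) : Yb Q z y 1 r = if r ∈ sq Q z then y r else 0 := by
  unfold Yb
  simp

theorem AtA_SS {e0 v0 T : ℝ} (Q n n' : ℕ) :
    SS (DA e0 v0 T Q n n') (fA e0 v0 T Q n n') 1 =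
      ∑ r ∈ sq Q (zz e0 v0 T n), ya e0 v0 T n r *
        (if r ∈ sq Q (zz e0 v0 T n') then ya e0 v0 T n' r else 0) / (Nat.totient r : ℝ) := by
  have h1 : SS (DA e0 v0 T Q n n') (fA e0 v0 T Q n n') 1 =
      ∑ B ∈ lcD (sq Q (zz e0 v0 T n)) (sq Q (zz e0 v0 T n')),
        lcf (sq Q (zz e0 v0 T n)) (sq Q (zz e0 v0 T n')) (lam Q (zz e0 v0 T n) (ya e0 v0 T n))
          (lam Q (zz e0 v0 T n') (ya e0 v0 T n')) B * ((Nat.gcd 1 B : ℝ) / B) := by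
    unfold SS DA fA
    rw [Finset.filter_true_of_mem (fun s _ => one_dvd s)]
    apply Finset.sum_congr rfl
    intro B _
    rw [Nat.gcd_one_left]
    show lcf _ _ (la e0 v0 T Q n) (la e0 v0 T Q n') B / (B : ℝ) = _
    have ha : la e0 v0 T Q n = lam Q (zz e0 v0 T n) (ya e0 v0 T n) := rfl
    have hb : la e0 v0 T Q n' = lam Q (zz e0 v0 T n') (ya e0 v0 T n') := rfl
    rw [ha, hb]
    push_cast
    ring
  rw [h1, lcf_gcd (AtA_good Q _) (AtA_good Q _) _ _ le_rfl, selU Q _ _ _ _ squarefree_one (Nat.coprime_one_left Q)]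
  rw [Finset.filter_true_of_mem (fun r _ => Nat.coprime_one_right r)]
  apply Finset.sum_congr rfl
  intro r hr
  rw [AtA_Yb, AtA_Yb, if_pos hr]

theorem AtA_SS_same {e0 v0 T : ℝ} (Q n : ℕ) :
    SS (DA e0 v0 T Q n n) (fA e0 v0 T Q n n) 1 = ((vv v0 n)⁻¹) ^ 2 * AtA_W e0 v0 T Q n := by
  rw [AtA_SS]
  unfold AtA_W
  rw [Finset.mul_sum]
  apply Finset.sum_congr rfl
  intro s hs
  rw [if_pos hs]
  have hs2 : s ≤ zz e0 v0 T n := by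
    unfold sq at hs
    rw [Finset.mem_filter, Finset.mem_Icc] at hs
    exact hs.1.2
  unfold ya
  by_cases hc : n = 0 ∨ zz e0 v0 T (n - 1) < s
  · rw [if_pos ⟨hs2, hc⟩, if_pos hc]
    ring
  · rw [if_neg (fun h => hc h.2), if_neg hc]
    simp

theorem AtA_disj {e0 v0 T : ℝ} (he0 : 0 < e0) (hv0 : 0 < v0) (hT : 1 ≤ T) {n n' : ℕ} (h : n < n') (r : ℕ) :
    ya e0 v0 T n r * ya e0 v0 T n' r = 0 := by
  unfold ya
  by_cases h1 : r ≤ zz e0 v0 T n ∧ (n = 0 ∨ zz e0 v0 T (n - 1) < r)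
  · have h2 : ¬ (r ≤ zz e0 v0 T n' ∧ (n' = 0 ∨ zz e0 v0 T (n' - 1) < r)) := by
      rintro ⟨_, h3 | h3⟩
      · omega
      · have h4 : zz e0 v0 T n ≤ zz e0 v0 T (n' - 1) := AtA_zz_mono he0 hv0 hT (by omega)
        omega
    rw [if_neg h2, mul_zero]
  · rw [if_neg h1, zero_mul]

theorem AtA_SS_ne {e0 v0 T : ℝ} (he0 : 0 < e0) (hv0 : 0 < v0) (hT : 1 ≤ T) (Q : ℕ) {n n' : ℕ} (h : n ≠ n') :
    SS (DA e0 v0 T Q n n') (fA e0 v0 T Q n n') 1 = 0 := by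
  rw [AtA_SS]
  apply Finset.sum_eq_zero
  intro r _
  have h1 : ya e0 v0 T n r * ya e0 v0 T n' r = 0 := by
    rcases lt_or_gt_of_ne h with h2 | h2
    · exact AtA_disj he0 hv0 hT h2 r
    · rw [mul_comm]
      exact AtA_disj he0 hv0 hT h2 r
  split_ifs
  · rw [h1, zero_div]
  · rw [mul_zero, zero_div]

theorem AtA_ya_sq {e0 v0 T : ℝ} (hv0 : 0 < v0) (n r : ℕ) : ya e0 v0 T n r ^ 2 ≤ (v0⁻¹) ^ 2 := by
  have h1 : (vv v0 n)⁻¹ ≤ v0⁻¹ := inv_anti₀ hv0 (AtA_vv_ge hv0 n)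
  have h2 : 0 ≤ (vv v0 n)⁻¹ := (inv_pos.mpr (AtA_vv_pos hv0 n)).le
  unfold ya
  split_ifs
  · exact pow_le_pow_left₀ h2 h1 2
  · have : 0 ≤ (v0⁻¹) ^ 2 := sq_nonneg _
    simpa using this

theorem AtA_N {e0 v0 T : ℝ} (hv0 : 0 < v0) (Q n : ℕ) (c : ℕ) :
    ∑ r ∈ sq Q (zz e0 v0 T n), (if r * c ∈ sq Q (zz e0 v0 T n) then ya e0 v0 T n (r * c) ^ 2 else 0) /
      (Nat.totient r : ℝ) ≤ (v0⁻¹) ^ 2 * GG Q (zz e0 v0 T n) := by
  unfold GG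
  rw [Finset.mul_sum]
  apply Finset.sum_le_sum
  intro r _
  have h1 : (0 : ℝ) ≤ 1 / (Nat.totient r : ℝ) := by positivity
  have h2 : (if r * c ∈ sq Q (zz e0 v0 T n) then ya e0 v0 T n (r * c) ^ 2 else 0) ≤ (v0⁻¹) ^ 2 := by
    split_ifs
    · exact AtA_ya_sq hv0 n _
    · exact sq_nonneg _
  calc _ = (if r * c ∈ sq Q (zz e0 v0 T n) then ya e0 v0 T n (r * c) ^ 2 else 0) * (1 / (Nat.totient r : ℝ)) := by
        ring
    _ ≤ _ := mul_le_mul_of_nonneg_right h2 h1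

theorem atA {e0 v0 : ℝ} (he0 : 0 < e0) (hv0 : 0 < v0) (m : ℕ) : ∃ C1 : ℝ, 1 ≤ C1 ∧ ∀ ε : ℝ, 0 < ε → ∃ T1 : ℝ,
    ∀ T, T1 ≤ T → ∀ Q : ℕ, 1 ≤ Q → Big e0 T Q → ∀ n ≤ m, ∀ n' ≤ m,
      Good Q (DA e0 v0 T Q n n') ∧ Ctrl 10 (C1 * uu e0 T Q) 1 (DA e0 v0 T Q n n') (fA e0 v0 T Q n n') ∧
      |SS (DA e0 v0 T Q n n') (fA e0 v0 T Q n n') 1 -
          (if n = n' then ((vv v0 n)⁻¹) ^ 2 * wv v0 n else 0) * uu e0 T Q| ≤ ε * uu e0 T Q ∧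
      |la e0 v0 T Q n 1 - (vv v0 n)⁻¹ * wv v0 n * uu e0 T Q| ≤ ε * uu e0 T Q := by
  obtain ⟨C0, hC0, hgq⟩ := gq
  have hvm : 0 < vv v0 m := AtA_vv_pos hv0 m
  have hiv : 0 < v0⁻¹ := inv_pos.mpr hv0
  refine ⟨(v0⁻¹) ^ 2 * (vv v0 m + C0) + 1, by nlinarith [mul_pos (pow_pos hiv 2) (by linarith : (0 : ℝ) < vv v0 m + C0)], ?_⟩
  intro ε hε
  set K : ℝ := 2 * C0 * (v0⁻¹ + (v0⁻¹) ^ 2) with hK
  have hKpos : 0 < K := by
    rw [hK]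
    have : 0 < v0⁻¹ + (v0⁻¹) ^ 2 := by positivity
    have h2 : 0 < 2 * C0 := by linarith
    exact mul_pos h2 this
  have hmin : 0 < min 1 (ε / K) := lt_min one_pos (div_pos hε hKpos)
  obtain ⟨T1, hT1, hev⟩ := eqs he0 hmin
  refine ⟨T1, ?_⟩
  intro T hT Q hQ hBig n hn n' hn'
  obtain ⟨hu1, hu2⟩ := hev T hT Q hQ hBig
  have hT' : 1 ≤ T := hT1.trans hT
  set u := uu e0 T Q with hu
  have hupos : 0 < u := lt_of_lt_of_le (one_div_pos.mpr hmin) hu1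
  have hEQ1 : 1 ≤ EQ Q := EQ_ge_one hQ
  have hEQ : EQ Q ≤ min 1 (ε / K) * u := by
    have h1 : 0 ≤ Real.sqrt (Real.log T) := Real.sqrt_nonneg _
    nlinarith [mul_nonneg (by linarith : (0 : ℝ) ≤ EQ Q) h1]
  have hEQa : EQ Q ≤ u := by
    have : min 1 (ε / K) * u ≤ 1 * u := mul_le_mul_of_nonneg_right (min_le_left _ _) hupos.le
    linarith
  have hEQb : K * EQ Q ≤ ε * u := by
    have h1 : min 1 (ε / K) * u ≤ ε / K * u := mul_le_mul_of_nonneg_right (min_le_right _ _) hupos.le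
    have h2 : EQ Q ≤ ε / K * u := hEQ.trans h1
    calc K * EQ Q ≤ K * (ε / K * u) := mul_le_mul_of_nonneg_left h2 hKpos.le
      _ = ε * u := by field_simp
  have hgood : Good Q (DA e0 v0 T Q n n') := good_lcD (AtA_good Q _) (AtA_good Q _)
  have hNb : ∀ k ≤ m, (v0⁻¹) ^ 2 * GG Q (zz e0 v0 T k) ≤ (v0⁻¹) ^ 2 * (vv v0 m + C0) * u := by
    intro k hk
    have h1 := AtA_G he0 hv0 hT' hQ hgq k
    rw [abs_le] at h1
    have h2 : vv v0 k * u ≤ vv v0 m * u := mul_le_mul_of_nonneg_right (AtA_vv_mono hv0 hk) hupos.le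
    have h3 : C0 * EQ Q ≤ C0 * u := mul_le_mul_of_nonneg_left hEQa (by linarith)
    have h4 : GG Q (zz e0 v0 T k) ≤ (vv v0 m + C0) * u := by
      have := h1.2
      rw [← hu] at this
      linarith
    calc (v0⁻¹) ^ 2 * GG Q (zz e0 v0 T k) ≤ (v0⁻¹) ^ 2 * ((vv v0 m + C0) * u) :=
          mul_le_mul_of_nonneg_left h4 (by positivity)
      _ = _ := by ring
  have hWb : ∀ k, |AtA_W e0 v0 T Q k - wv v0 k * u| ≤ 2 * (C0 * EQ Q) :=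
    fun k => AtA_W_bound he0 hv0 hT' hQ hgq k
  have hvinv : ∀ k, (vv v0 k)⁻¹ ≤ v0⁻¹ := fun k => inv_anti₀ hv0 (AtA_vv_ge hv0 k)
  have hvinv0 : ∀ k, 0 ≤ (vv v0 k)⁻¹ := fun k => (inv_pos.mpr (AtA_vv_pos hv0 k)).le
  have hCE : 0 ≤ 2 * (C0 * EQ Q) := by nlinarith
  have hK1 : v0⁻¹ * (2 * (C0 * EQ Q)) ≤ K * EQ Q := by
    rw [hK]
    have : 0 ≤ (v0⁻¹) ^ 2 * (2 * (C0 * EQ Q)) := mul_nonneg (by positivity) hCE
    nlinarith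
  have hK2 : (v0⁻¹) ^ 2 * (2 * (C0 * EQ Q)) ≤ K * EQ Q := by
    rw [hK]
    have : 0 ≤ v0⁻¹ * (2 * (C0 * EQ Q)) := mul_nonneg (by positivity) hCE
    nlinarith
  refine ⟨hgood, ?_, ?_, ?_⟩
  · have h10 : (10 : ℝ) = 2 * (1 + 4) := by norm_num
    rw [h10]
    apply ctrl_of_U hgood
    · have : 0 ≤ (v0⁻¹) ^ 2 * (vv v0 m + C0) + 1 := by positivity
      exact mul_nonneg this hupos.le
    · norm_num
    · intro e he heQ
      have h1 := selB Q (zz e0 v0 T n) (zz e0 v0 T n') (ya e0 v0 T n) (ya e0 v0 T n')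
        (N := (v0⁻¹) ^ 2 * (vv v0 m + C0) * u) (N' := (v0⁻¹) ^ 2 * (vv v0 m + C0) * u)
        (fun c _ => (AtA_N hv0 Q n c).trans (hNb n hn)) (fun c _ => (AtA_N hv0 Q n' c).trans (hNb n' hn')) he heQ
      have hNN : 0 ≤ (v0⁻¹) ^ 2 * (vv v0 m + C0) * u := by positivity
      rw [Real.sqrt_mul_self hNN] at h1
      have h2 : (Nat.gcd e 1 : ℝ) = 1 := by simp
      rw [h2, mul_one]
      have h3 : (4 : ℝ) ^ e.primeFactors.card * ((v0⁻¹) ^ 2 * (vv v0 m + C0) * u) ≤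
          ((v0⁻¹) ^ 2 * (vv v0 m + C0) + 1) * u * 4 ^ e.primeFactors.card := by
        have h4 : (0 : ℝ) < 4 ^ e.primeFactors.card := by positivity
        nlinarith [mul_pos hupos h4]
      exact le_trans h1 h3
  · by_cases hnn : n = n'
    · subst hnn
      rw [if_pos rfl, AtA_SS_same]
      have h1 : ((vv v0 n)⁻¹) ^ 2 * AtA_W e0 v0 T Q n - ((vv v0 n)⁻¹) ^ 2 * wv v0 n * u =
          ((vv v0 n)⁻¹) ^ 2 * (AtA_W e0 v0 T Q n - wv v0 n * u) := by ring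
      rw [h1, abs_mul, abs_of_nonneg (sq_nonneg _)]
      have h2 : ((vv v0 n)⁻¹) ^ 2 ≤ (v0⁻¹) ^ 2 := pow_le_pow_left₀ (hvinv0 n) (hvinv n) 2
      calc ((vv v0 n)⁻¹) ^ 2 * |AtA_W e0 v0 T Q n - wv v0 n * u|
          ≤ (v0⁻¹) ^ 2 * (2 * (C0 * EQ Q)) := mul_le_mul h2 (hWb n) (abs_nonneg _) (sq_nonneg _)
        _ ≤ K * EQ Q := hK2
        _ ≤ ε * u := hEQb
    · rw [if_neg hnn, AtA_SS_ne he0 hv0 hT' Q hnn]
      simp only [zero_mul, sub_zero, abs_zero]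
      positivity
  · rw [AtA_la]
    have h1 : (vv v0 n)⁻¹ * AtA_W e0 v0 T Q n - (vv v0 n)⁻¹ * wv v0 n * u =
        (vv v0 n)⁻¹ * (AtA_W e0 v0 T Q n - wv v0 n * u) := by ring
    rw [h1, abs_mul, abs_of_nonneg (hvinv0 n)]
    calc (vv v0 n)⁻¹ * |AtA_W e0 v0 T Q n - wv v0 n * u|
        ≤ v0⁻¹ * (2 * (C0 * EQ Q)) := mul_le_mul (hvinv n) (hWb n) (abs_nonneg _) hiv.le
      _ ≤ K * EQ Q := hK1
      _ ≤ ε * u := hEQb

end EG
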