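import Pool.Agent.H6.EG.Eqs
import Pool.Agent.H6.EG.SelU
import Pool.Agent.H6.EG.Ssu

/-!
# MP_0e3417 row BeP: the data of `β(n) 1[p ∣ n]`

Write `G = GG Q R`. (0) `gq` gives for all real `x ≥ 0`: `∑_{r ∈ sq Q ⌊x⌋, x/p < r} 1/φ(r) ≤ (φ(Q)/Q) log p + 2 C EQ Q` (if `x ≥ p` difference of two values of `GG`; if `1 ≤ x < p`: `GG ≤ (φ(Q)/Q) log x + C EQ Q`).
(1) Let `e` be squarefree, coprime to `Q`, `b = lcm(e, p)`. Then `∑_{B ∈ DBp} fBp(B) gcd(e,B)/B = e ∑_{d,d'} lb(d) lb(d')/lcm(e, lcm(lcm d d', p))` (`lcf_gcd` type computation: `fBp` groups `(d,d')` by `lcm(lcm(d,d'),p)`)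
`= (e/b) * b ∑_{d,d'} lb lb/lcm(b, lcm d d') = (gcd(e,p)/p) ∑_{r ∈ sq Q R, (r,b) = 1} Yb(r)²/φ(r)` (`selU`).
(2) Let `e' = b/p`. For `r` coprime to `b`: `Yb Q R y b r = ∑_{c ∣ e'} μ(c) (y[rc ∈ sq Q R] - y[rcp ∈ sq Q R]) = (1/G) ∑_{c ∣ e'} μ(c) [R/p < r c ≤ R, rc squarefree and coprime to Q]`
(the divisors of `b = p e'` are `c` and `c p`). Cauchy-Schwarz (`2^ω(e')` divisors) and (0) with `x = R/c`: `∑_r Yb(r)²/φ(r) ≤ (1/G²) 4^ω(e') ((φ(Q)/Q) log p + 2 C EQ Q)`.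
(3) `ctrl_of_U` with `c = 4` and this `p`; `SS .. 1` is (1) with `e = 1`: nonnegative, and `≤ ap`.
-/

open Finset

namespace EG

/-- the bound for the sum with `p ∣ n` -/
noncomputable def ap (C0 : ℝ) (Q R p : ℕ) : ℝ :=
  ((Nat.totient Q : ℝ) / Q * Real.log p + C0 * EQ Q) / (p * GG Q R ^ 2)

theorem BeP_mem {Q z r : ℕ} :
    r ∈ sq Q z ↔ (1 ≤ r ∧ r ≤ z) ∧ Squarefree r ∧ Nat.Coprime r Q := by
  unfold sq
  rw [Finset.mem_filter, Finset.mem_Icc]

theorem BeP_nn (r : ℕ) : (0 : ℝ) ≤ 1 / (Nat.totient r : ℝ) := by positivity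

theorem BeP_V {C : ℝ} (hC : 1 ≤ C) {Q p : ℕ} (hQ : 1 ≤ Q) (hp : 2 ≤ p) :
    0 ≤ (Nat.totient Q : ℝ) / Q * Real.log p + 2 * C * EQ Q := by
  have hlp : 0 ≤ Real.log p := Real.log_nonneg (by exact_mod_cast (by omega : 1 ≤ p))
  have hφ : 0 ≤ (Nat.totient Q : ℝ) / Q := by positivity
  have hE := gq_EQ hQ
  have h1 := mul_nonneg hφ hlp
  have h2 : 0 ≤ 2 * C * EQ Q := by positivity
  linarith

/-- the sum over a range `R / (c p) < r ≤ R / c` -/
theorem BeP_sum {C : ℝ} (hC : 1 ≤ C) (hg : ∀ Q : ℕ, 1 ≤ Q → ∀ x : ℝ, 1 ≤ x →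
    |GG Q ⌊x⌋₊ - (Nat.totient Q : ℝ) / Q * Real.log x| ≤ C * EQ Q) (Q R p c : ℕ) (hQ : 1 ≤ Q)
    (hp : 2 ≤ p) (hc : 1 ≤ c) :
    ∑ r ∈ (sq Q R).filter (fun r => r * c ≤ R ∧ R < r * c * p), 1 / (Nat.totient r : ℝ) ≤
      (Nat.totient Q : ℝ) / Q * Real.log p + 2 * C * EQ Q := by
  have hφ : 0 ≤ (Nat.totient Q : ℝ) / Q := by positivity
  have hE := gq_EQ hQ
  have hV := BeP_V hC hQ hp
  have hcR : (0 : ℝ) < c := by exact_mod_cast hc
  have hpR : (1 : ℝ) ≤ p := by exact_mod_cast (by omega : 1 ≤ p)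
  have hCE : 0 ≤ C * EQ Q := by positivity
  rcases lt_or_ge R c with h | h
  · rw [Finset.filter_false_of_mem, Finset.sum_empty]
    · exact hV
    · intro r hr h1
      have h2 := (BeP_mem.1 hr).1.1
      have h3 : 1 * c ≤ r * c := Nat.mul_le_mul_right c h2
      omega
  have hx1 : (1 : ℝ) ≤ (R : ℝ) / c := by
    rw [le_div_iff₀ hcR, one_mul]
    exact_mod_cast h
  have h1 := hg Q hQ ((R : ℝ) / c) hx1
  rw [Nat.floor_div_eq_div] at h1
  rw [abs_le] at h1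
  have hsub : (sq Q R).filter (fun r => r * c ≤ R ∧ R < r * c * p) ⊆ sq Q (R / c) := by
    intro r hr
    obtain ⟨h2, h3, h4⟩ := Finset.mem_filter.1 hr
    obtain ⟨⟨h5, h6⟩, h7⟩ := BeP_mem.1 h2
    exact BeP_mem.2 ⟨⟨h5, (Nat.le_div_iff_mul_le hc).2 h3⟩, h7⟩
  rcases lt_or_ge R (c * p) with h' | h'
  · have h2 : ∑ r ∈ (sq Q R).filter (fun r => r * c ≤ R ∧ R < r * c * p), 1 / (Nat.totient r : ℝ) ≤
        GG Q (R / c) := Finset.sum_le_sum_of_subset_of_nonneg hsub (fun r _ _ => BeP_nn r)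
    have h3 : Real.log ((R : ℝ) / c) ≤ Real.log p := by
      refine Real.log_le_log (by linarith) ?_
      rw [div_le_iff₀ hcR, mul_comm]
      exact_mod_cast h'.le
    have h4 := mul_le_mul_of_nonneg_left h3 hφ
    linarith [h1.2]
  · have hcp : (0 : ℝ) < c * p := by positivity
    have hx2 : (1 : ℝ) ≤ (R : ℝ) / ((c * p : ℕ) : ℝ) := by
      rw [Nat.cast_mul, le_div_iff₀ hcp, one_mul]
      exact_mod_cast h'
    have h2 := hg Q hQ ((R : ℝ) / ((c * p : ℕ) : ℝ)) hx2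
    rw [Nat.floor_div_eq_div, abs_le] at h2
    have h3 : ∑ r ∈ (sq Q R).filter (fun r => r * c ≤ R ∧ R < r * c * p), 1 / (Nat.totient r : ℝ) +
        GG Q (R / (c * p)) ≤ GG Q (R / c) := by
      have hdisj : Disjoint ((sq Q R).filter (fun r => r * c ≤ R ∧ R < r * c * p))
          (sq Q (R / (c * p))) := by
        rw [Finset.disjoint_left]
        intro r hr hr'
        obtain ⟨-, -, h4⟩ := Finset.mem_filter.1 hr
        have h5 := (BeP_mem.1 hr').1.2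
        rw [Nat.le_div_iff_mul_le (Nat.mul_pos hc (by omega))] at h5
        rw [← mul_assoc] at h5
        omega
      have e1 : GG Q (R / (c * p)) = ∑ r ∈ sq Q (R / (c * p)), 1 / (Nat.totient r : ℝ) := rfl
      rw [e1, ← Finset.sum_union hdisj]
      refine Finset.sum_le_sum_of_subset_of_nonneg ?_ (fun r _ _ => BeP_nn r)
      refine Finset.union_subset hsub ?_
      intro r hr
      obtain ⟨⟨h5, h6⟩, h7⟩ := BeP_mem.1 hr
      refine BeP_mem.2 ⟨⟨h5, h6.trans ?_⟩, h7⟩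
      exact Nat.div_le_div_left (Nat.le_mul_of_pos_right c (by omega)) hc
    have h4 : Real.log ((R : ℝ) / c) = Real.log p + Real.log ((R : ℝ) / ((c * p : ℕ) : ℝ)) := by
      rw [← Real.log_mul (by positivity) (by linarith)]
      congr 1
      rw [Nat.cast_mul]
      field_simp
    have h5 : (Nat.totient Q : ℝ) / Q * Real.log ((R : ℝ) / c) = (Nat.totient Q : ℝ) / Q * Real.log p +
        (Nat.totient Q : ℝ) / Q * Real.log ((R : ℝ) / ((c * p : ℕ) : ℝ)) := by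
      rw [h4, mul_add]
    linarith [h1.2, h2.1]

/-- divisors of `p e'` -/
theorem BeP_div {p e' : ℕ} (hp : p.Prime) (h : Nat.Coprime p e') (F : ℕ → ℝ) :
    ∑ c ∈ (p * e').divisors, F c = ∑ c ∈ e'.divisors, (F c + F (c * p)) := by
  classical
  have h1 : (p * e').divisors = (p.divisors ×ˢ e'.divisors).image (fun x => x.1 * x.2) := by
    rw [Nat.divisors_mul]
    rfl
  rw [h1, Finset.sum_image (fun a ha b hb hab => h.mul_injOn_divisors ha hb hab),
    Finset.sum_product, hp.divisors, Finset.sum_pair hp.one_lt.ne, Finset.sum_add_distrib]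
  congr 1
  · exact Finset.sum_congr rfl fun c _ => by rw [one_mul]
  · exact Finset.sum_congr rfl fun c _ => by rw [mul_comm]

theorem BeP_Y {Q R p e' r : ℕ} (hp : p.Prime) (hpQ : Nat.Coprime p Q) (hb : Squarefree (p * e'))
    (g : ℝ) (hr : Nat.Coprime r (p * e')) :
    Yb Q R (fun _ => g) (p * e') r = ∑ c ∈ e'.divisors, (ArithmeticFunction.moebius c : ℝ) *
      (if r * c ∈ sq Q R ∧ R < r * c * p then g else 0) := by
  have hcop : Nat.Coprime p e' := Nat.coprime_of_squarefree_mul hb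
  have he' : e' ≠ 0 := fun h => hb.ne_zero (by rw [h, mul_zero])
  rw [Yb, BeP_div hp hcop]
  refine Finset.sum_congr rfl fun c hc => ?_
  have hce : c ∣ e' := Nat.dvd_of_mem_divisors hc
  have hcp : Nat.Coprime c p := (Nat.Coprime.coprime_dvd_right hce hcop).symm
  have hrp : Nat.Coprime r p := Nat.Coprime.coprime_mul_right_right hr
  have hrcp : Nat.Coprime (r * c) p := Nat.Coprime.mul_left hrp hcp
  have hmu : (ArithmeticFunction.moebius (c * p) : ℝ) = - (ArithmeticFunction.moebius c : ℝ) := by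
    rw [ArithmeticFunction.isMultiplicative_moebius.map_mul_of_coprime hcp,
      ArithmeticFunction.moebius_apply_prime hp]
    push_cast
    ring
  have hmem : r * (c * p) ∈ sq Q R ↔ r * c ∈ sq Q R ∧ r * c * p ≤ R := by
    rw [← mul_assoc, BeP_mem, BeP_mem]
    constructor
    · rintro ⟨⟨h1, h2⟩, h3, h4⟩
      have h5 : 1 ≤ r * c := Nat.pos_of_ne_zero (fun h => by rw [h, zero_mul] at h1; omega)
      refine ⟨⟨⟨h5, (Nat.le_mul_of_pos_right _ hp.pos).trans h2⟩, h3.of_mul_left, ?_⟩, h2⟩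
      exact Nat.Coprime.coprime_mul_right h4
    · rintro ⟨⟨⟨h1, h2⟩, h3, h4⟩, h5⟩
      refine ⟨⟨Nat.mul_pos h1 hp.pos, h5⟩, ?_, Nat.Coprime.mul_left h4 hpQ⟩
      exact (Nat.squarefree_mul hrcp).2 ⟨h3, hp.prime.squarefree⟩
  rw [hmu]
  by_cases h1 : r * c ∈ sq Q R
  · by_cases h2 : R < r * c * p
    · have n1 : ¬ r * (c * p) ∈ sq Q R := fun h => absurd (hmem.1 h).2 (not_le.2 h2)
      rw [if_pos h1, if_neg n1, if_pos ⟨h1, h2⟩]
      ring
    · have n2 : ¬ (r * c ∈ sq Q R ∧ R < r * c * p) := fun h => h2 h.2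
      rw [if_pos h1, if_pos (hmem.2 ⟨h1, not_lt.1 h2⟩), if_neg n2]
      ring
  · have n3 : ¬ r * (c * p) ∈ sq Q R := fun h => h1 (hmem.1 h).1
    have n4 : ¬ (r * c ∈ sq Q R ∧ R < r * c * p) := fun h => h1 h.1
    rw [if_neg h1, if_neg n3, if_neg n4]
    ring

theorem BeP_bound {C : ℝ} (hC : 1 ≤ C) (hg : ∀ Q : ℕ, 1 ≤ Q → ∀ x : ℝ, 1 ≤ x →
    |GG Q ⌊x⌋₊ - (Nat.totient Q : ℝ) / Q * Real.log x| ≤ C * EQ Q) {Q R p e' : ℕ} (hQ : 1 ≤ Q)
    (hp : p.Prime) (hpQ : Nat.Coprime p Q) (hb : Squarefree (p * e')) (g : ℝ) :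
    ∑ r ∈ (sq Q R).filter (fun r => Nat.Coprime r (p * e')),
      Yb Q R (fun _ => g) (p * e') r * Yb Q R (fun _ => g) (p * e') r / (Nat.totient r : ℝ) ≤
      4 ^ e'.primeFactors.card * (g ^ 2 * ((Nat.totient Q : ℝ) / Q * Real.log p + 2 * C * EQ Q)) := by
  classical
  set V := (Nat.totient Q : ℝ) / Q * Real.log p + 2 * C * EQ Q with hV
  have he' : Squarefree e' := hb.of_mul_right
  have hcard : (e'.divisors.card : ℝ) = 2 ^ e'.primeFactors.card := by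
    have h := Ssu_sum 1 he'
    have h2 : (1 : ℝ) + 1 = 2 := by norm_num
    rw [h2] at h
    rw [← h]
    simp
  have h1 : ∀ r ∈ (sq Q R).filter (fun r => Nat.Coprime r (p * e')),
      Yb Q R (fun _ => g) (p * e') r * Yb Q R (fun _ => g) (p * e') r / (Nat.totient r : ℝ) ≤
      ∑ c ∈ e'.divisors, 2 ^ e'.primeFactors.card * g ^ 2 *
        (if r * c ≤ R ∧ R < r * c * p then 1 / (Nat.totient r : ℝ) else 0) := by
    intro r hr
    obtain ⟨hr1, hr2⟩ := Finset.mem_filter.1 hr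
    rw [BeP_Y hp hpQ hb g hr2]
    have h2 := sq_sum_le_card_mul_sum_sq (s := e'.divisors) (f := fun c =>
      (ArithmeticFunction.moebius c : ℝ) * (if r * c ∈ sq Q R ∧ R < r * c * p then g else 0))
    rw [hcard] at h2
    have h3 : ∑ c ∈ e'.divisors, ((ArithmeticFunction.moebius c : ℝ) *
        (if r * c ∈ sq Q R ∧ R < r * c * p then g else 0)) ^ 2 ≤
        ∑ c ∈ e'.divisors, g ^ 2 * (if r * c ≤ R ∧ R < r * c * p then 1 else 0) := by
      refine Finset.sum_le_sum fun c _ => ?_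
      rw [mul_pow]
      have h4 : ((ArithmeticFunction.moebius c : ℤ) : ℝ) ^ 2 ≤ 1 := by
        have h5 : |((ArithmeticFunction.moebius c : ℤ) : ℝ)| ≤ 1 := by
          exact_mod_cast ArithmeticFunction.abs_moebius_le_one
        exact (sq_le_one_iff_abs_le_one _).2 h5
      by_cases h6 : r * c ∈ sq Q R ∧ R < r * c * p
      · have h7 : r * c ≤ R ∧ R < r * c * p := ⟨(BeP_mem.1 h6.1).1.2, h6.2⟩
        rw [if_pos h6, if_pos h7, mul_one]
        exact mul_le_of_le_one_left (sq_nonneg g) h4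
      · rw [if_neg h6]
        have h8 : (0 : ℝ) ≤ g ^ 2 * (if r * c ≤ R ∧ R < r * c * p then 1 else 0) := by
          refine mul_nonneg (sq_nonneg g) ?_
          split_ifs <;> norm_num
        have h9 : ((ArithmeticFunction.moebius c : ℤ) : ℝ) ^ 2 * (0 : ℝ) ^ 2 = 0 := by ring
        rw [h9]
        exact h8
    have h4 : (0 : ℝ) ≤ 1 / (Nat.totient r : ℝ) := BeP_nn r
    have h5 : (0 : ℝ) ≤ 2 ^ e'.primeFactors.card := by positivity
    rw [← pow_two, div_eq_mul_one_div]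
    refine (mul_le_mul_of_nonneg_right (h2.trans (mul_le_mul_of_nonneg_left h3 h5)) h4).trans
      (le_of_eq ?_)
    rw [Finset.mul_sum, Finset.sum_mul]
    refine Finset.sum_congr rfl fun c _ => ?_
    split_ifs <;> ring
  refine (Finset.sum_le_sum h1).trans ?_
  rw [Finset.sum_comm]
  have h2 : ∀ c ∈ e'.divisors, ∑ r ∈ (sq Q R).filter (fun r => Nat.Coprime r (p * e')),
      2 ^ e'.primeFactors.card * g ^ 2 *
        (if r * c ≤ R ∧ R < r * c * p then 1 / (Nat.totient r : ℝ) else 0) ≤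
      2 ^ e'.primeFactors.card * g ^ 2 * V := by
    intro c hc
    rw [← Finset.mul_sum]
    refine mul_le_mul_of_nonneg_left ?_ (by positivity)
    have h3 := BeP_sum hC hg Q R p c hQ hp.two_le (Nat.pos_of_mem_divisors hc)
    refine le_trans ?_ h3
    rw [Finset.sum_filter (p := fun r => r * c ≤ R ∧ R < r * c * p)]
    refine Finset.sum_le_sum_of_subset_of_nonneg (Finset.filter_subset _ _) fun r _ _ => ?_
    split_ifs
    · exact BeP_nn r
    · exact le_rfl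
  refine (Finset.sum_le_sum h2).trans (le_of_eq ?_)
  rw [Finset.sum_const, nsmul_eq_mul, hcard]
  have h3 : (4 : ℝ) ^ e'.primeFactors.card = 2 ^ e'.primeFactors.card * 2 ^ e'.primeFactors.card := by
    rw [← mul_pow]
    norm_num
  rw [h3]
  ring

theorem BeP_goodsq (Q R : ℕ) : Good Q (sq Q R) := fun _ h => (BeP_mem.1 h).2

theorem BeP_goodDB (Q R : ℕ) : Good Q (DB Q R) := good_lcD (BeP_goodsq Q R) (BeP_goodsq Q R)

theorem BeP_goodp {Q p : ℕ} (hp : p.Prime) (hpQ : Nat.Coprime p Q) : Good Q {p} := by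
  intro B hB
  rw [Finset.mem_singleton] at hB
  rw [hB]
  exact ⟨hp.prime.squarefree, hpQ⟩

theorem BeP_id {Q R p e : ℕ} (hp : p.Prime) (hpQ : Nat.Coprime p Q) (he : Squarefree e)
    (heQ : Nat.Coprime e Q) :
    ∑ B ∈ DBp Q R p, fBp Q R p B * ((Nat.gcd e B : ℝ) / B) =
      (Nat.gcd e p : ℝ) / p * ∑ r ∈ (sq Q R).filter (fun r => Nat.Coprime r (Nat.lcm e p)),
        Yb Q R (fun _ => (GG Q R)⁻¹) (Nat.lcm e p) r * Yb Q R (fun _ => (GG Q R)⁻¹) (Nat.lcm e p) r /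
          (Nat.totient r : ℝ) := by
  have he1 : 1 ≤ e := Nat.pos_of_ne_zero he.ne_zero
  have hbs : Squarefree (Nat.lcm e p) := LcP_sqf he hp.prime.squarefree
  have hbQ : Nat.Coprime (Nat.lcm e p) Q :=
    Nat.Coprime.coprime_dvd_left (Nat.lcm_dvd_mul e p) (Nat.Coprime.mul_left heQ hpQ)
  unfold DBp fBp
  rw [lcf_gcd (BeP_goodDB Q R) (BeP_goodp hp hpQ) (fB Q R) (fun _ => 1) he1]
  have h1 : ∀ d : ℕ, ∑ d' ∈ ({p} : Finset ℕ), fB Q R d * (fun _ => (1 : ℝ)) d' /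
      (Nat.lcm e (Nat.lcm d d') : ℝ) = fB Q R d * (1 / (Nat.lcm e (Nat.lcm d p) : ℝ)) := by
    intro d
    rw [Finset.sum_singleton]
    ring
  rw [Finset.sum_congr rfl fun d _ => h1 d]
  unfold DB fB
  rw [lcf_sum (sq Q R) (sq Q R) (lb Q R) (lb Q R) (fun B => 1 / (Nat.lcm e (Nat.lcm B p) : ℝ))]
  have h2 := selU Q R R (fun _ => (GG Q R)⁻¹) (fun _ => (GG Q R)⁻¹) hbs hbQ
  rw [← h2]
  have h3 : ∀ d d' : ℕ, Nat.lcm e (Nat.lcm (Nat.lcm d d') p) = Nat.lcm (Nat.lcm e p) (Nat.lcm d d') := by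
    intro d d'
    rw [Nat.lcm_comm (Nat.lcm d d') p, Nat.lcm_assoc]
  have h4 : ∑ d ∈ sq Q R, ∑ d' ∈ sq Q R, lb Q R d * lb Q R d' *
      (1 / (Nat.lcm e (Nat.lcm (Nat.lcm d d') p) : ℝ)) =
      ∑ d ∈ sq Q R, ∑ d' ∈ sq Q R, lam Q R (fun _ => (GG Q R)⁻¹) d * lam Q R (fun _ => (GG Q R)⁻¹) d' /
        (Nat.lcm (Nat.lcm e p) (Nat.lcm d d') : ℝ) := by
    refine Finset.sum_congr rfl fun d _ => Finset.sum_congr rfl fun d' _ => ?_
    rw [h3, mul_one_div]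
    rfl
  rw [h4, ← mul_assoc]
  congr 1
  have h5 : (Nat.gcd e p : ℝ) * (Nat.lcm e p : ℝ) = e * p := by
    exact_mod_cast Nat.gcd_mul_lcm e p
  have hp0 : (p : ℝ) ≠ 0 := by exact_mod_cast hp.ne_zero
  field_simp
  linarith [h5]

theorem beP : ∃ C0 : ℝ, 1 ≤ C0 ∧ ∀ Q R p : ℕ, 1 ≤ Q → 1 ≤ R → p.Prime → Nat.Coprime p Q →
    Good Q (DBp Q R p) ∧ Ctrl 10 (ap C0 Q R p) p (DBp Q R p) (fBp Q R p) ∧
      0 ≤ SS (DBp Q R p) (fBp Q R p) 1 ∧ SS (DBp Q R p) (fBp Q R p) 1 ≤ ap C0 Q R p := by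
  classical
  obtain ⟨C, hC, hg⟩ := gq
  refine ⟨2 * C, by linarith, fun Q R p hQ hR hp hpQ => ?_⟩
  have hgood : Good Q (DBp Q R p) := good_lcD (BeP_goodDB Q R) (BeP_goodp hp hpQ)
  have hV := BeP_V hC hQ hp.two_le
  have hpR : (0 : ℝ) < p := by exact_mod_cast hp.pos
  have hap : ap (2 * C) Q R p = ((GG Q R)⁻¹) ^ 2 *
      ((Nat.totient Q : ℝ) / Q * Real.log p + 2 * C * EQ Q) / p := by
    unfold ap
    rw [inv_pow, div_mul_eq_div_div, div_eq_mul_inv (_ / (p : ℝ))]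
    ring
  have hap0 : 0 ≤ ap (2 * C) Q R p := by
    rw [hap]
    positivity
  have key : ∀ e : ℕ, Squarefree e → Nat.Coprime e Q →
      0 ≤ ∑ B ∈ DBp Q R p, fBp Q R p B * ((Nat.gcd e B : ℝ) / B) ∧
      ∑ B ∈ DBp Q R p, fBp Q R p B * ((Nat.gcd e B : ℝ) / B) ≤
        ap (2 * C) Q R p * 4 ^ e.primeFactors.card * (Nat.gcd e p : ℝ) := by
    intro e he heQ
    have hdvd : p ∣ Nat.lcm e p := Nat.dvd_lcm_right e p
    obtain ⟨e', he'⟩ := hdvd
    have hbs : Squarefree (p * e') := by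
      rw [← he']
      exact LcP_sqf he hp.prime.squarefree
    rw [BeP_id hp hpQ he heQ, he']
    have h1 := BeP_bound (R := R) hC hg hQ hp hpQ hbs (GG Q R)⁻¹
    have h0 : 0 ≤ ∑ r ∈ (sq Q R).filter (fun r => Nat.Coprime r (p * e')),
        Yb Q R (fun _ => (GG Q R)⁻¹) (p * e') r * Yb Q R (fun _ => (GG Q R)⁻¹) (p * e') r /
          (Nat.totient r : ℝ) :=
      Finset.sum_nonneg fun r _ => div_nonneg (mul_self_nonneg _) (Nat.cast_nonneg _)
    have hgp : (0 : ℝ) ≤ (Nat.gcd e p : ℝ) / p := by positivity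
    refine ⟨mul_nonneg hgp h0, ?_⟩
    have h2 : e' ∣ e := by
      have h3 : Nat.Coprime e' p := (Nat.coprime_of_squarefree_mul hbs).symm
      have h4 : e' ∣ e * p := by
        refine (Dvd.intro_left p rfl : e' ∣ p * e').trans ?_
        rw [← he']
        exact Nat.lcm_dvd_mul e p
      exact h3.dvd_of_dvd_mul_right h4
    have h3 : e'.primeFactors.card ≤ e.primeFactors.card :=
      Finset.card_le_card (Nat.primeFactors_mono h2 he.ne_zero)
    have h4 : (4 : ℝ) ^ e'.primeFactors.card ≤ 4 ^ e.primeFactors.card :=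
      pow_le_pow_right₀ (by norm_num) h3
    have hX : 0 ≤ ((GG Q R)⁻¹) ^ 2 * ((Nat.totient Q : ℝ) / Q * Real.log p + 2 * C * EQ Q) := by
      positivity
    have h5 := h1.trans (mul_le_mul_of_nonneg_right h4 hX)
    refine (mul_le_mul_of_nonneg_left h5 hgp).trans (le_of_eq ?_)
    rw [hap]
    ring
  have hSS : SS (DBp Q R p) (fBp Q R p) 1 =
      ∑ B ∈ DBp Q R p, fBp Q R p B * ((Nat.gcd 1 B : ℝ) / B) := by
    unfold SS
    rw [Finset.filter_true_of_mem (fun B _ => one_dvd B)]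
    refine Finset.sum_congr rfl fun B _ => ?_
    rw [Nat.gcd_one_left, Nat.cast_one, mul_one_div]
  have k1 := key 1 squarefree_one (Nat.coprime_one_left Q)
  rw [← hSS] at k1
  refine ⟨hgood, ?_, k1.1, ?_⟩
  · have h10 : (10 : ℝ) = 2 * (1 + 4) := by norm_num
    rw [h10]
    refine ctrl_of_U hgood hap0 (by norm_num) p ?_
    intro e he heQ
    obtain ⟨h1, h2⟩ := key e he heQ
    rw [abs_of_nonneg h1]
    exact h2
  · have := k1.2
    simpa using this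

end EG
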