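import Pool.Agent.H6.EG.Eqs
import Pool.Agent.H6.EG.SelU
import Pool.Agent.H6.EG.Ssu

/-!
# MP_0e3417 row BeB: the data of the square of the Selberg sum

Write `u = uu e0 T Q`, `R = Rr r T = ⌊T^r⌋`, `G = GG Q R`. `gq` with `x = T^r`: `|G - (r/e0) u| ≤ C0 EQ Q ≤ ε' u` (`eqs`), which is the last claim, and in particular `G ≥ (r/(2 e0)) u`.
`SS (DB) (fB) 1 = ∑_{r ∈ sq Q R} (1/G)²/φ(r) = 1/G` (`lcf_gcd` with `e = 1`, `selU` with `b = 1`); `|1/G - (e0/r)/u| = |G - (r/e0) u| (e0/r)/(G u)` is `≤ ε/u`.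
`Ctrl`: `selB` with `N = N' = 1/G` (every term at most `(1/G²)/φ(r)`), `1/G ≤ (2 e0/r)/u`; `ctrl_of_U` with `c = 4`.
-/

open Finset

namespace EG

theorem beB_good (Q R : ℕ) : Good Q (sq Q R) := by
  intro B hB
  unfold sq at hB
  exact (mem_filter.mp hB).2

theorem beB_one (Q R : ℕ) (hR : 1 ≤ R) : 0 < GG Q R := by
  unfold GG
  refine sum_pos (fun r hr => ?_) ⟨1, ?_⟩
  · unfold sq at hr
    have h1 : 1 ≤ r := (mem_Icc.mp (mem_filter.mp hr).1).1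
    have h2 : (0 : ℝ) < (Nat.totient r : ℝ) := by exact_mod_cast Nat.totient_pos.mpr h1
    positivity
  · unfold sq
    exact mem_filter.mpr ⟨mem_Icc.mpr ⟨le_rfl, hR⟩, squarefree_one, Nat.coprime_one_left Q⟩

theorem beB_SS (Q R : ℕ) (hR : 1 ≤ R) : SS (DB Q R) (fB Q R) 1 = (GG Q R)⁻¹ := by
  have hG := beB_one Q R hR
  have hgood := beB_good Q R
  have h1 : SS (DB Q R) (fB Q R) 1 =
      ∑ B ∈ lcD (sq Q R) (sq Q R), lcf (sq Q R) (sq Q R) (lb Q R) (lb Q R) B * ((Nat.gcd 1 B : ℝ) / B) := by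
    unfold SS DB fB
    rw [filter_true_of_mem (fun B _ => one_dvd B)]
    refine sum_congr rfl fun B _ => ?_
    rw [Nat.gcd_one_left, Nat.cast_one, mul_one_div]
  rw [h1, lcf_gcd hgood hgood (lb Q R) (lb Q R) le_rfl]
  have h2 := selU Q R R (fun _ => (GG Q R)⁻¹) (fun _ => (GG Q R)⁻¹) (b := 1) squarefree_one (Nat.coprime_one_left Q)
  have h3 : ((1 : ℕ) : ℝ) * ∑ d ∈ sq Q R, ∑ d' ∈ sq Q R, lb Q R d * lb Q R d' / (Nat.lcm 1 (Nat.lcm d d') : ℝ) =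
      ((1 : ℕ) : ℝ) * ∑ d ∈ sq Q R, ∑ d' ∈ sq Q R, lam Q R (fun _ => (GG Q R)⁻¹) d * lam Q R (fun _ => (GG Q R)⁻¹) d' / (Nat.lcm 1 (Nat.lcm d d') : ℝ) := rfl
  rw [h3, h2]
  have h4 : (sq Q R).filter (fun r => Nat.Coprime r 1) = sq Q R :=
    filter_true_of_mem (fun r _ => Nat.coprime_one_right r)
  rw [h4]
  have h5 : ∀ r ∈ sq Q R, Yb Q R (fun _ => (GG Q R)⁻¹) 1 r * Yb Q R (fun _ => (GG Q R)⁻¹) 1 r / (Nat.totient r : ℝ) =
      ((GG Q R)⁻¹) ^ 2 * (1 / (Nat.totient r : ℝ)) := by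
    intro r hr
    have h6 : Yb Q R (fun _ => (GG Q R)⁻¹) 1 r = (GG Q R)⁻¹ := by
      unfold Yb
      rw [Nat.divisors_one, sum_singleton, mul_one, if_pos hr]
      simp
    rw [h6]
    ring
  rw [sum_congr rfl h5, ← mul_sum]
  change ((GG Q R)⁻¹) ^ 2 * GG Q R = (GG Q R)⁻¹
  field_simp

theorem beB_N (Q R : ℕ) (hR : 1 ≤ R) (c : ℕ) :
    ∑ r ∈ sq Q R, (if r * c ∈ sq Q R then ((fun _ => (GG Q R)⁻¹ : ℕ → ℝ) (r * c)) ^ 2 else 0) / (Nat.totient r : ℝ) ≤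
      (GG Q R)⁻¹ := by
  have hG := beB_one Q R hR
  have h1 : ∀ r ∈ sq Q R, (if r * c ∈ sq Q R then ((fun _ => (GG Q R)⁻¹ : ℕ → ℝ) (r * c)) ^ 2 else 0) / (Nat.totient r : ℝ) ≤
      ((GG Q R)⁻¹) ^ 2 * (1 / (Nat.totient r : ℝ)) := by
    intro r _
    have h2 : (0 : ℝ) ≤ (Nat.totient r : ℝ) := Nat.cast_nonneg _
    rw [mul_one_div]
    refine div_le_div_of_nonneg_right ?_ h2
    split_ifs
    · exact le_rfl
    · positivity
  refine (sum_le_sum h1).trans (le_of_eq ?_)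
  rw [← mul_sum]
  change ((GG Q R)⁻¹) ^ 2 * GG Q R = (GG Q R)⁻¹
  field_simp

theorem beB {e0 r : ℝ} (he0 : 0 < e0) (hr : 0 < r) : ∃ C1 : ℝ, 1 ≤ C1 ∧ ∀ ε : ℝ, 0 < ε → ∃ T1 : ℝ,
    ∀ T, T1 ≤ T → ∀ Q : ℕ, 1 ≤ Q → Big e0 T Q →
      1 ≤ Rr r T ∧ Good Q (DB Q (Rr r T)) ∧ Ctrl 10 (C1 / uu e0 T Q) 1 (DB Q (Rr r T)) (fB Q (Rr r T)) ∧
      |SS (DB Q (Rr r T)) (fB Q (Rr r T)) 1 - (e0 / r) / uu e0 T Q| ≤ ε / uu e0 T Q ∧
      |GG Q (Rr r T) - (r / e0) * uu e0 T Q| ≤ ε * uu e0 T Q := by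
  obtain ⟨C0, hC0, hgq⟩ := gq
  have hre : 0 < r / e0 := div_pos hr he0
  refine ⟨1 + 2 * (e0 / r), by have := div_pos he0 hr; linarith, fun ε hε => ?_⟩
  set κ : ℝ := min (r / e0 / 2) (min ε (ε * (r / e0) ^ 2 / 2)) with hκ
  have hκ0 : 0 < κ := by
    rw [hκ]
    refine lt_min (by positivity) (lt_min hε (by positivity))
  have hκ1 : κ ≤ r / e0 / 2 := min_le_left _ _
  have hκ2 : κ ≤ ε := (min_le_right _ _).trans (min_le_left _ _)
  have hκ3 : κ ≤ ε * (r / e0) ^ 2 / 2 := (min_le_right _ _).trans (min_le_right _ _)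
  have hC00 : 0 < C0 := by linarith
  obtain ⟨T1, hT1, hE⟩ := eqs he0 (div_pos hκ0 hC00)
  refine ⟨T1, fun T hT Q hQ hbig => ?_⟩
  have hT' : 1 ≤ T := hT1.trans hT
  have hT0 : 0 < T := by linarith
  obtain ⟨h1, h2⟩ := hE T hT Q hQ hbig
  set u := uu e0 T Q with hu
  have hu0 : 0 < u := lt_of_lt_of_le (by positivity) h1
  have hEQ : EQ Q ≤ κ / C0 * u := by
    have h3 := EQ_ge_one hQ
    have h4 := Real.sqrt_nonneg (Real.log T)
    nlinarith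
  have hx1 : 1 ≤ T ^ r := Real.one_le_rpow hT' hr.le
  have hR : 1 ≤ Rr r T := by
    unfold Rr
    exact Nat.le_floor (by simpa using hx1)
  have hlog : (Nat.totient Q : ℝ) / Q * Real.log (T ^ r) = (r / e0) * u := by
    rw [hu, uu, Real.log_rpow hT0]
    field_simp
  have hGu : |GG Q (Rr r T) - (r / e0) * u| ≤ κ * u := by
    have h3 := hgq Q hQ (T ^ r) hx1
    rw [hlog] at h3
    refine h3.trans ?_
    calc C0 * EQ Q ≤ C0 * (κ / C0 * u) := by gcongr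
      _ = κ * u := by field_simp
  have hG := beB_one Q (Rr r T) hR
  set G := GG Q (Rr r T) with hGdef
  have hGlow : r / e0 / 2 * u ≤ G := by
    have h3 := (abs_le.mp hGu).1
    have h4 : κ * u ≤ r / e0 / 2 * u := by gcongr
    linarith
  have hinv : G⁻¹ ≤ 2 * (e0 / r) / u := by
    have h5 : 0 < r / e0 / 2 * u := by positivity
    refine (inv_anti₀ h5 hGlow).trans (le_of_eq ?_)
    field_simp
  have hgood := beB_good Q (Rr r T)
  refine ⟨hR, good_lcD hgood hgood, ?_, ?_, ?_⟩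
  · have h6 : (0 : ℝ) ≤ (1 + 2 * (e0 / r)) / u := by
      have := div_pos he0 hr
      positivity
    have h7 := ctrl_of_U (Q := Q) (D := DB Q (Rr r T)) (good_lcD hgood hgood) (f := fB Q (Rr r T))
      (a := (1 + 2 * (e0 / r)) / u) (c := 4) h6 (by norm_num) 1 ?_
    · have h8 : (2 * (1 + 4) : ℝ) = 10 := by norm_num
      rw [h8] at h7
      exact h7
    · intro e he hecop
      have h9 := selB Q (Rr r T) (Rr r T) (fun _ => (GG Q (Rr r T))⁻¹) (fun _ => (GG Q (Rr r T))⁻¹)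
        (N := G⁻¹) (N' := G⁻¹) (fun c _ => beB_N Q (Rr r T) hR c) (fun c _ => beB_N Q (Rr r T) hR c) he hecop
      have h10 : Real.sqrt (G⁻¹ * G⁻¹) = G⁻¹ := Real.sqrt_mul_self (inv_nonneg.mpr hG.le)
      rw [h10] at h9
      have h11 : ∑ B ∈ DB Q (Rr r T), fB Q (Rr r T) B * ((Nat.gcd e B : ℝ) / B) =
          ∑ B ∈ lcD (sq Q (Rr r T)) (sq Q (Rr r T)), lcf (sq Q (Rr r T)) (sq Q (Rr r T))
            (lam Q (Rr r T) (fun _ => (GG Q (Rr r T))⁻¹)) (lam Q (Rr r T) (fun _ => (GG Q (Rr r T))⁻¹)) B * ((Nat.gcd e B : ℝ) / B) := rfl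
      rw [h11]
      refine h9.trans ?_
      rw [Nat.gcd_one_right, Nat.cast_one, mul_one, mul_comm]
      refine mul_le_mul_of_nonneg_right (hinv.trans ?_) (by positivity)
      refine div_le_div_of_nonneg_right ?_ hu0.le
      linarith
  · rw [beB_SS Q (Rr r T) hR]
    have h12 : G⁻¹ - e0 / r / u = ((r / e0) * u - G) * ((e0 / r) / (G * u)) := by
      have := hG.ne'
      have := hu0.ne'
      field_simp
    change |G⁻¹ - e0 / r / u| ≤ ε / u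
    rw [h12, abs_mul, abs_sub_comm]
    have h13 : 0 < (e0 / r) / (G * u) := by positivity
    rw [abs_of_pos h13]
    have h14 : (e0 / r) / (G * u) ≤ (e0 / r) / ((r / e0 / 2 * u) * u) := by
      refine div_le_div_of_nonneg_left (by positivity) (by positivity) ?_
      gcongr
    calc |G - r / e0 * u| * (e0 / r / (G * u)) ≤ (κ * u) * ((e0 / r) / ((r / e0 / 2 * u) * u)) := by
          gcongr
      _ = κ * (2 * (e0 / r) ^ 2) / u := by field_simp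
      _ ≤ (ε * (r / e0) ^ 2 / 2) * (2 * (e0 / r) ^ 2) / u := by gcongr
      _ = ε / u := by field_simp
  · exact hGu.trans (by gcongr)

end EG
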