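import Pool.Agent.H6.EG.Gq
import Pool.Agent.H6.EG.LcP

/-!
# MP_0e3417: definitions of the sieve weights

Atoms: `v_n = 2^n v0`, `z_n = T^(e0 v_n)`, `y^(n)_r = 1/v_n` on `z_{n-1} < r ≤ z_n`.
-/

open Finset

namespace EG

/-- `v_n = 2^n v0` -/
noncomputable def vv (v0 : ℝ) (n : ℕ) : ℝ := 2 ^ n * v0

/-- `w_n = v_n - v_{n-1}` (`w_0 = v_0`) -/
noncomputable def wv (v0 : ℝ) (n : ℕ) : ℝ := if n = 0 then v0 else vv v0 n / 2

/-- `z_n = T^(e0 v_n)` -/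
noncomputable def zz (e0 v0 T : ℝ) (n : ℕ) : ℕ := ⌊T ^ (e0 * vv v0 n)⌋₊

/-- the diagonal variables of the atom `n` -/
noncomputable def ya (e0 v0 T : ℝ) (n r : ℕ) : ℝ :=
  if r ≤ zz e0 v0 T n ∧ (n = 0 ∨ zz e0 v0 T (n - 1) < r) then (vv v0 n)⁻¹ else 0

/-- the coefficients of the atom `n` -/
noncomputable def la (e0 v0 T : ℝ) (Q n d : ℕ) : ℝ := lam Q (zz e0 v0 T n) (ya e0 v0 T n) d

/-- support of the product of two atoms -/
noncomputable def DA (e0 v0 T : ℝ) (Q n n' : ℕ) : Finset ℕ := lcD (sq Q (zz e0 v0 T n)) (sq Q (zz e0 v0 T n'))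

/-- coefficients of the product of two atoms -/
noncomputable def fA (e0 v0 T : ℝ) (Q n n' : ℕ) : ℕ → ℝ :=
  lcf (sq Q (zz e0 v0 T n)) (sq Q (zz e0 v0 T n')) (la e0 v0 T Q n) (la e0 v0 T Q n')

/-- `u = (φ(Q)/Q) log R0`, `R0 = T^e0` -/
noncomputable def uu (e0 T : ℝ) (Q : ℕ) : ℝ := (Nat.totient Q : ℝ) / Q * (e0 * Real.log T)

/-- `T` is large compared with `Q` -/
def Big (e0 T : ℝ) (Q : ℕ) : Prop := EQ Q ^ 4 ≤ uu e0 T Q

/-- the coefficients of the Selberg upper bound sieve of level `R` -/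
noncomputable def lb (Q R d : ℕ) : ℝ := lam Q R (fun _ => (GG Q R)⁻¹) d

/-- support of the square of the Selberg sum -/
def DB (Q R : ℕ) : Finset ℕ := lcD (sq Q R) (sq Q R)

/-- coefficients of the square of the Selberg sum -/
noncomputable def fB (Q R : ℕ) : ℕ → ℝ := lcf (sq Q R) (sq Q R) (lb Q R) (lb Q R)

/-- the square of the Selberg sum -/
noncomputable def be (Q R n : ℕ) : ℝ := Fn (sq Q R) (lb Q R) n ^ 2

/-- the level `T^r` -/
noncomputable def Rr (r T : ℝ) : ℕ := ⌊T ^ r⌋₊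

/-- the index set of the Maynard sum -/
noncomputable def AS (ι : Type) [Fintype ι] [DecidableEq ι] (v0 : ℝ) (m : ℕ) : Finset (ι → ℕ) :=
  (Fintype.piFinset fun _ => range (m + 1)).filter (fun n => ∑ i, vv v0 (n i) ≤ 1)

/-- the Maynard sum; in the coordinates in `J` only the divisor `1` is kept -/
noncomputable def sM {ι : Type} [Fintype ι] [DecidableEq ι] (e0 v0 T : ℝ) (m Q : ℕ) (a b : ι → ℕ) (J : Finset ι) (t : ℕ) : ℝ :=
  ∑ n ∈ AS ι v0 m, ∏ i, if i ∈ J then la e0 v0 T Q (n i) 1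
    else Fn (sq Q (zz e0 v0 T (n i))) (la e0 v0 T Q (n i)) (a i * t + b i)

/-- the functionals `I` (`J = ∅`), `J` (`J = {j}`), `J₂` (`J = {i, j}`) -/
noncomputable def FI (ι : Type) [Fintype ι] [DecidableEq ι] (v0 : ℝ) (m : ℕ) (J : Finset ι) : ℝ :=
  ∑ n ∈ AS ι v0 m, ∑ n' ∈ AS ι v0 m, ∏ i, if i ∈ J then (vv v0 (n i))⁻¹ * wv v0 (n i) * ((vv v0 (n' i))⁻¹ * wv v0 (n' i))
    else if n i = n' i then ((vv v0 (n i))⁻¹) ^ 2 * wv v0 (n i) else 0

/-- supports in the sum with squares of Selberg sums at `J` -/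
noncomputable def DJ {ι : Type} [DecidableEq ι] (e0 v0 T : ℝ) (Q R : ℕ) (J : Finset ι) (n n' : ι → ℕ) (i : ι) : Finset ℕ :=
  if i ∈ J then DB Q R else DA e0 v0 T Q (n i) (n' i)

/-- coefficients in the sum with squares of Selberg sums at `J` -/
noncomputable def fJ {ι : Type} [DecidableEq ι] (e0 v0 T : ℝ) (Q R : ℕ) (J : Finset ι) (n n' : ι → ℕ) (i : ι) : ℕ → ℝ :=
  if i ∈ J then fun B => la e0 v0 T Q (n i) 1 * la e0 v0 T Q (n' i) 1 * fB Q R B else fA e0 v0 T Q (n i) (n' i)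

/-- the range of `t` -/
noncomputable def rT (T : ℝ) : Finset ℕ := range (⌊2 * T⌋₊ + 1)

/-- support and coefficients of `β(n) 1[p ∣ n]` -/
def DBp (Q R p : ℕ) : Finset ℕ := lcD (DB Q R) {p}

/-- coefficients of `β(n) 1[p ∣ n]` -/
noncomputable def fBp (Q R p : ℕ) : ℕ → ℝ := lcf (DB Q R) {p} (fB Q R) (fun _ => 1)

end EG
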