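import Pool.Agent.H6.EG.S3
import Pool.Agent.H6.EG.Defs2

/-!
# MP_0e3417 row Gen: evaluation of the main term

Proof. `s3 K C` gives `C'`; `|Mm D f 1 - ∏ SS_i| ≤ (C'/√w) A^K ∏ s_i`, which is `≤ (ε/2) ∏ s_i` for `w ≥ w0 := ⌈(2 C' A^K/ε)²⌉ + ⌈C'⌉`. And `|SS_i| ≤ (A + ε1) s_i`, `|∏ SS_i - ∏ σ_i s_i| ≤ K ε1 (A + ε1)^(K-1) ∏ s_i ≤ (ε/2) ∏ s_i` for
small `ε1` (telescoping; or continuity of the product of `K` numbers in `[-(A+1), A+1]` after dividing by `s_i`; if some `s_i = 0` then `SS_i = 0` and everything vanishes).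
-/

open Finset

namespace EG

theorem Gen_tel {ι : Type} [DecidableEq ι] (x y s : ι → ℝ) {A e : ℝ} (hA : 0 ≤ A) (he : 0 ≤ e) (hs : ∀ i, 0 ≤ s i)
    (hy : ∀ i, |y i| ≤ A * s i) (hxy : ∀ i, |x i - y i| ≤ e * s i) (t : Finset ι) :
    |∏ i ∈ t, x i - ∏ i ∈ t, y i| ≤ ((A + e) ^ t.card - A ^ t.card) * ∏ i ∈ t, s i := by
  induction t using Finset.induction_on with
  | empty => simp
  | insert i t hi ih =>
    rw [prod_insert hi, prod_insert hi, prod_insert hi, card_insert_of_notMem hi]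
    have hS : 0 ≤ ∏ i ∈ t, s i := prod_nonneg fun j _ => hs j
    have hX : |∏ j ∈ t, x j| ≤ (A + e) ^ t.card * ∏ j ∈ t, s j := by
      rw [abs_prod]
      calc ∏ j ∈ t, |x j| ≤ ∏ j ∈ t, ((A + e) * s j) := by
            refine prod_le_prod (fun j _ => abs_nonneg _) (fun j _ => ?_)
            have h1 : |x j| ≤ |x j - y j| + |y j| := by
              have := abs_add_le (x j - y j) (y j)
              simpa using this
            have h2 := hxy j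
            have h3 := hy j
            linarith
        _ = (A + e) ^ t.card * ∏ j ∈ t, s j := by rw [prod_mul_distrib, prod_const]
    have e1 : x i * ∏ j ∈ t, x j - y i * ∏ j ∈ t, y j =
        (x i - y i) * ∏ j ∈ t, x j + y i * (∏ j ∈ t, x j - ∏ j ∈ t, y j) := by ring
    rw [e1]
    refine (abs_add_le _ _).trans ?_
    rw [abs_mul, abs_mul]
    have h4 : |x i - y i| * |∏ j ∈ t, x j| ≤ (e * s i) * ((A + e) ^ t.card * ∏ j ∈ t, s j) :=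
      mul_le_mul (hxy i) hX (abs_nonneg _) (mul_nonneg he (hs i))
    have h5 : |y i| * |∏ j ∈ t, x j - ∏ j ∈ t, y j| ≤
        (A * s i) * (((A + e) ^ t.card - A ^ t.card) * ∏ j ∈ t, s j) :=
      mul_le_mul (hy i) ih (abs_nonneg _) (mul_nonneg hA (hs i))
    have h6 : ((A + e) ^ (t.card + 1) - A ^ (t.card + 1)) * (s i * ∏ j ∈ t, s j) =
        (e * s i) * ((A + e) ^ t.card * ∏ j ∈ t, s j) +
        (A * s i) * (((A + e) ^ t.card - A ^ t.card) * ∏ j ∈ t, s j) := by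
      rw [pow_succ, pow_succ]; ring
    rw [h6]
    exact add_le_add h4 h5

theorem Gen_eps (K : ℕ) (A : ℝ) {ε : ℝ} (hε : 0 < ε) : ∃ e : ℝ, 0 < e ∧ (A + e) ^ K - A ^ K ≤ ε := by
  have hc : Continuous fun x : ℝ => (A + x) ^ K - A ^ K := by fun_prop
  have h0 : (fun x : ℝ => (A + x) ^ K - A ^ K) 0 < ε := by simpa using hε
  have h1 := (hc.tendsto 0).eventually (gt_mem_nhds h0)
  have h2 : ∀ᶠ x in nhdsWithin (0 : ℝ) (Set.Ioi 0), (A + x) ^ K - A ^ K < ε := h1.filter_mono nhdsWithin_le_nhds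
  obtain ⟨e, he1, he2⟩ := (h2.and self_mem_nhdsWithin).exists
  exact ⟨e, he2, he1.le⟩

theorem Gen_w (B : ℝ) (hB : 0 ≤ B) {ε : ℝ} (hε : 0 < ε) : ∃ w0 : ℕ, 1 ≤ w0 ∧ ∀ w : ℕ, w0 ≤ w → B / Real.sqrt w ≤ ε := by
  refine ⟨⌈(B / ε) ^ 2⌉₊ + 1, by omega, fun w hw => ?_⟩
  have h1 : (B / ε) ^ 2 ≤ (w : ℝ) := by
    have : (⌈(B / ε) ^ 2⌉₊ : ℝ) ≤ w := by exact_mod_cast (by omega : ⌈(B / ε) ^ 2⌉₊ ≤ w)
    exact (Nat.le_ceil _).trans this
  have h2 : B / ε ≤ Real.sqrt w := Real.le_sqrt_of_sq_le h1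
  have h3 : 0 < Real.sqrt w := by
    apply Real.sqrt_pos.mpr
    exact_mod_cast (by omega : 0 < w)
  rw [div_le_iff₀ h3]
  rw [div_le_iff₀ hε] at h2
  linarith

theorem gen (K : ℕ) (C A : ℝ) (hC : 1 ≤ C) (hA : 1 ≤ A) {ε : ℝ} (hε : 0 < ε) : ∃ ε1 : ℝ, ∃ w0 : ℕ, 0 < ε1 ∧
    ∀ (ι : Type) [Fintype ι] [DecidableEq ι], Fintype.card ι = K →
    ∀ w Q p : ℕ, Wide w Q → w0 ≤ w → (p = 1 ∨ (p.Prime ∧ w < p)) →
    ∀ (D : ι → Finset ℕ) (f : ι → ℕ → ℝ) (s σ : ι → ℝ) (j0 : ι), (∀ i, 0 ≤ s i) → (∀ i, |σ i| ≤ A) → (∀ i, Good Q (D i)) →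
      (∀ i, Ctrl C (A * s i) (if i = j0 then p else 1) (D i) (f i)) → (∀ i, |SS (D i) (f i) 1 - σ i * s i| ≤ ε1 * s i) →
      |Mm D f 1 - (∏ i, σ i) * ∏ i, s i| ≤ ε * ∏ i, s i := by
  obtain ⟨C', hC', H⟩ := s3 K C hC
  obtain ⟨e, he, heK⟩ := Gen_eps K A (half_pos hε)
  have hB : 0 ≤ C' * A ^ K := by positivity
  obtain ⟨w1, hw1, Hw⟩ := Gen_w (C' * A ^ K) hB (half_pos hε)
  refine ⟨e, w1 + ⌈C'⌉₊, he, ?_⟩
  intro ι _ _ hK w Q p hW hw hp D f s σ j0 hs hσ hD hCt hSS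
  have hCw : C' ≤ (w : ℝ) := (Nat.le_ceil _).trans (by exact_mod_cast (by omega : ⌈C'⌉₊ ≤ w))
  have h1 := H ι hK w Q p hW hCw hp D f (fun i => A * s i) j0 (fun i => mul_nonneg (by linarith) (hs i)) hD hCt
  have hS : 0 ≤ ∏ i, s i := prod_nonneg fun j _ => hs j
  have h2 : C' / Real.sqrt w * ∏ i, A * s i ≤ ε / 2 * ∏ i, s i := by
    rw [prod_mul_distrib, prod_const, card_univ, hK]
    have h3 := Hw w (by omega)
    calc C' / Real.sqrt w * (A ^ K * ∏ i, s i) = (C' * A ^ K / Real.sqrt w) * ∏ i, s i := by ring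
      _ ≤ ε / 2 * ∏ i, s i := mul_le_mul_of_nonneg_right h3 hS
  have h4 := Gen_tel (fun i => SS (D i) (f i) 1) (fun i => σ i * s i) s (by linarith : (0 : ℝ) ≤ A) he.le hs
    (fun i => by rw [abs_mul, abs_of_nonneg (hs i)]; exact mul_le_mul_of_nonneg_right (hσ i) (hs i)) hSS univ
  rw [card_univ, hK] at h4
  have h5 : ((A + e) ^ K - A ^ K) * ∏ i, s i ≤ ε / 2 * ∏ i, s i := mul_le_mul_of_nonneg_right heK hS
  have h6 : Mm D f 1 - (∏ i, σ i) * ∏ i, s i =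
      (Mm D f 1 - ∏ i, SS (D i) (f i) 1) + (∏ i, SS (D i) (f i) 1 - ∏ i, σ i * s i) := by
    rw [← prod_mul_distrib]; ring
  rw [h6]
  refine (abs_add_le _ _).trans ?_
  have h7 : |∏ i, SS (D i) (f i) 1 - ∏ i, σ i * s i| ≤ ((A + e) ^ K - A ^ K) * ∏ i, s i := h4
  have h8 : |Mm D f 1 - ∏ i, SS (D i) (f i) 1| ≤ C' / Real.sqrt w * ∏ i, A * s i := h1
  linarith

end EG
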