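import Pool.Agent.H6.EG.AtA
import Pool.Agent.H6.EG.BeP
import Pool.Agent.H6.EG.BeB
import Pool.Agent.H6.EG.Gen

/-!
# MP_0e3417 row E3pM: the main term with the condition `p ∣ L_j`

Proof. As in `MainJ`, with `J = {j}` and the coordinate `j` replaced by `DBp, fBp`: fix `n, n' ∈ AS`; `gen` with this `p` (prime, not dividing `Q`, hence `> w0` by `Wide`), `j0 = j`, `s i = u` for `i ≠ j`,
`s j = u² ap`, `σ i = [n i = n' i] g² w` for `i ≠ j`, `σ j = τ g w(n j) g w(n' j)`, `τ = SS (DBp) (fBp) 1/ap ∈ [0,1]` (`beP`; if `ap = 0`.. : `ap > 0` since `EQ ≥ 1`). `Ctrl`: `|la la'| ≤ 4 u²`.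
Hence `|Mm - τ g w g w ∏_{i ≠ j} … u^(K+1) ap| ≤ ε' u^(K+1) ap`; sum over `n, n'`: `≤ (τ FI {j} + ε) u^(K+1) ap ≤ (FI {j} + ε) u^(K+1) ap` since `FI ≥ 0`.
The constant `C0` is that of `beP` (choose it: the statement has the form `∃ C0`).
-/

open Finset

namespace EG

theorem E3pM_mono {C a a' : ℝ} (hC : 0 ≤ C) (h : a ≤ a') {p : ℕ} {D : Finset ℕ} {f : ℕ → ℝ}
    (hc : Ctrl C a p D f) : Ctrl C a' p D f := by
  intro b hb
  refine (hc b hb).trans ?_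
  have h1 : 0 ≤ C ^ b.primeFactors.card * (Nat.gcd b p : ℝ) / b := by positivity
  calc a * C ^ b.primeFactors.card * (Nat.gcd b p : ℝ) / b
      = a * (C ^ b.primeFactors.card * (Nat.gcd b p : ℝ) / b) := by ring
    _ ≤ a' * (C ^ b.primeFactors.card * (Nat.gcd b p : ℝ) / b) := mul_le_mul_of_nonneg_right h h1
    _ = _ := by ring

theorem E3pM_SS (D : Finset ℕ) (f : ℕ → ℝ) (c : ℝ) (b : ℕ) :
    SS D (fun B => c * f B) b = c * SS D f b := by
  unfold SS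
  rw [Finset.mul_sum]
  refine Finset.sum_congr rfl fun B _ => ?_
  ring

theorem E3pM_ctrl {C a : ℝ} {p : ℕ} {D : Finset ℕ} {f : ℕ → ℝ}
    (hc : Ctrl C a p D f) {c M : ℝ} (h : |c| ≤ M) : Ctrl C (M * a) p D (fun B => c * f B) := by
  intro b hb
  rw [E3pM_SS, abs_mul]
  have h1 := hc b hb
  calc |c| * |SS D f b| ≤ M * (a * C ^ b.primeFactors.card * (Nat.gcd b p : ℝ) / b) :=
        mul_le_mul h h1 (abs_nonneg _) ((abs_nonneg c).trans h)
    _ = _ := by ring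

theorem E3pM_gw {v0 : ℝ} (hv0 : 0 < v0) (k : ℕ) :
    0 ≤ (vv v0 k)⁻¹ * wv v0 k ∧ (vv v0 k)⁻¹ * wv v0 k ≤ 1 := by
  have hV := AtA_vv_pos hv0 k
  unfold wv
  by_cases hk : k = 0
  · subst hk
    rw [if_pos rfl, AtA_vv_zero, inv_mul_cancel₀ hv0.ne']
    exact ⟨by norm_num, le_rfl⟩
  · rw [if_neg hk]
    have e : (vv v0 k)⁻¹ * (vv v0 k / 2) = 1 / 2 := by
      field_simp
    rw [e]
    norm_num

theorem E3pM_ggw {v0 : ℝ} (hv0 : 0 < v0) (k : ℕ) :
    0 ≤ ((vv v0 k)⁻¹) ^ 2 * wv v0 k ∧ ((vv v0 k)⁻¹) ^ 2 * wv v0 k ≤ 1 / v0 := by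
  have hV := AtA_vv_pos hv0 k
  obtain ⟨h1, h2⟩ := E3pM_gw hv0 k
  have hi : 0 ≤ (vv v0 k)⁻¹ := (inv_pos.2 hV).le
  have hi2 : (vv v0 k)⁻¹ ≤ 1 / v0 := by
    rw [one_div]
    exact inv_anti₀ hv0 (AtA_vv_ge hv0 k)
  have e : ((vv v0 k)⁻¹) ^ 2 * wv v0 k = (vv v0 k)⁻¹ * ((vv v0 k)⁻¹ * wv v0 k) := by ring
  rw [e]
  refine ⟨mul_nonneg hi h1, ?_⟩
  calc (vv v0 k)⁻¹ * ((vv v0 k)⁻¹ * wv v0 k) ≤ (vv v0 k)⁻¹ * 1 := mul_le_mul_of_nonneg_left h2 hi
    _ = (vv v0 k)⁻¹ := mul_one _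
    _ ≤ 1 / v0 := hi2

theorem E3pM_Rr {r T : ℝ} (hr : 0 < r) (hT : 1 ≤ T) : 1 ≤ Rr r T := by
  unfold Rr
  refine Nat.le_floor ?_
  rw [Nat.cast_one]
  exact Real.one_le_rpow hT hr.le

theorem E3pM_u {e0 T : ℝ} (he0 : 0 < e0) (hT : 1 ≤ T) (Q : ℕ) : 0 ≤ uu e0 T Q := by
  unfold uu
  have := Real.log_nonneg hT
  positivity

theorem E3pM_card (ι : Type) [Fintype ι] [DecidableEq ι] {K : ℕ} (hι : Fintype.card ι = K) (v0 : ℝ)
    (m : ℕ) : ((AS ι v0 m).card : ℝ) ≤ ((m : ℝ) + 1) ^ K := by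
  have h1 : (AS ι v0 m).card ≤ (m + 1) ^ K := by
    unfold AS
    refine (Finset.card_filter_le _ _).trans ?_
    rw [Fintype.card_piFinset]
    simp [hι]
  exact_mod_cast h1

theorem E3pM_le {ι : Type} [Fintype ι] [DecidableEq ι] {v0 : ℝ} {m : ℕ} {n : ι → ℕ}
    (hn : n ∈ AS ι v0 m) (i : ι) : n i ≤ m := by
  unfold AS at hn
  have h1 := Fintype.mem_piFinset.1 (Finset.mem_filter.1 hn).1 i
  have := Finset.mem_range.1 h1
  omega

theorem E3pM_prod {x y a b u e : ℝ} (hu : 0 ≤ u) (he : 0 ≤ e) (he1 : e ≤ 1) (ha0 : 0 ≤ a)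
    (ha : a ≤ 1) (hb0 : 0 ≤ b) (hb : b ≤ 1) (hx : |x - a * u| ≤ e * u) (hy : |y - b * u| ≤ e * u) :
    |x * y| ≤ 4 * u ^ 2 ∧ |x * y - a * b * u ^ 2| ≤ 3 * e * u ^ 2 := by
  have hau : 0 ≤ a * u := mul_nonneg ha0 hu
  have hbu : 0 ≤ b * u := mul_nonneg hb0 hu
  have hau1 : a * u ≤ u := by
    calc a * u ≤ 1 * u := mul_le_mul_of_nonneg_right ha hu
      _ = u := one_mul u
  have hbu1 : b * u ≤ u := by
    calc b * u ≤ 1 * u := mul_le_mul_of_nonneg_right hb hu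
      _ = u := one_mul u
  have heu1 : e * u ≤ u := by
    calc e * u ≤ 1 * u := mul_le_mul_of_nonneg_right he1 hu
      _ = u := one_mul u
  have hx2 : |x| ≤ 2 * u := by
    have h := abs_add_le (x - a * u) (a * u)
    rw [sub_add_cancel, abs_of_nonneg hau] at h
    linarith
  have hy2 : |y| ≤ 2 * u := by
    have h := abs_add_le (y - b * u) (b * u)
    rw [sub_add_cancel, abs_of_nonneg hbu] at h
    linarith
  constructor
  · rw [abs_mul]
    calc |x| * |y| ≤ (2 * u) * (2 * u) := mul_le_mul hx2 hy2 (abs_nonneg _) (by linarith)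
      _ = 4 * u ^ 2 := by ring
  · have e1 : x * y - a * b * u ^ 2 = (x - a * u) * y + (a * u) * (y - b * u) := by ring
    rw [e1]
    refine (abs_add_le _ _).trans ?_
    rw [abs_mul, abs_mul, abs_of_nonneg hau]
    have h1 : |x - a * u| * |y| ≤ (e * u) * (2 * u) :=
      mul_le_mul hx hy2 (abs_nonneg _) (mul_nonneg he hu)
    have h2 : a * u * |y - b * u| ≤ u * (e * u) := mul_le_mul hau1 hy (abs_nonneg _) hu
    calc |x - a * u| * |y| + a * u * |y - b * u| ≤ (e * u) * (2 * u) + u * (e * u) := add_le_add h1 h2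
      _ = 3 * e * u ^ 2 := by ring

/-- the factors of the functional -/
noncomputable def E3pM_F {ι : Type} [DecidableEq ι] (v0 : ℝ) (j : ι) (n n' : ι → ℕ) (i : ι) : ℝ :=
  if i ∈ ({j} : Finset ι) then (vv v0 (n i))⁻¹ * wv v0 (n i) * ((vv v0 (n' i))⁻¹ * wv v0 (n' i))
    else if n i = n' i then ((vv v0 (n i))⁻¹) ^ 2 * wv v0 (n i) else 0

theorem E3pM_F_nn {ι : Type} [DecidableEq ι] {v0 : ℝ} (hv0 : 0 < v0) (j : ι) (n n' : ι → ℕ) (i : ι) :
    0 ≤ E3pM_F v0 j n n' i := by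
  unfold E3pM_F
  split_ifs
  · exact mul_nonneg (E3pM_gw hv0 _).1 (E3pM_gw hv0 _).1
  · exact (E3pM_ggw hv0 _).1
  · exact le_rfl

theorem E3pM_F_le {ι : Type} [DecidableEq ι] {v0 : ℝ} (hv0 : 0 < v0) (j : ι) (n n' : ι → ℕ) (i : ι) :
    E3pM_F v0 j n n' i ≤ 1 + 1 / v0 := by
  have h0 : 0 < 1 / v0 := by positivity
  unfold E3pM_F
  split_ifs
  · have h1 := mul_le_mul (E3pM_gw hv0 (n i)).2 (E3pM_gw hv0 (n' i)).2 (E3pM_gw hv0 (n' i)).1
      (by norm_num)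
    linarith
  · have := (E3pM_ggw hv0 (n i)).2
    linarith
  · linarith

theorem e3pM {e0 v0 r : ℝ} (he0 : 0 < e0) (hv0 : 0 < v0) (hr : 0 < r) (m K : ℕ) (hK : 1 ≤ K) : ∃ C0 : ℝ, 1 ≤ C0 ∧ ∀ ε : ℝ, 0 < ε →
    ∃ T1 : ℝ, ∃ w0 : ℕ, ∀ (ι : Type) [Fintype ι] [DecidableEq ι], Fintype.card ι = K → ∀ Q : ℕ, 1 ≤ Q → Wide w0 Q →
      ∀ T, T1 ≤ T → Big e0 T Q → ∀ (j : ι) (p : ℕ), p.Prime → ¬ p ∣ Q →
      Good Q (DBp Q (Rr r T) p) ∧
      ∑ n ∈ AS ι v0 m, ∑ n' ∈ AS ι v0 m,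
          Mm (fun i => if i = j then DBp Q (Rr r T) p else DA e0 v0 T Q (n i) (n' i))
            (fun i => if i = j then fun B => la e0 v0 T Q (n i) 1 * la e0 v0 T Q (n' i) 1 * fBp Q (Rr r T) p B
              else fA e0 v0 T Q (n i) (n' i)) 1 ≤
        (FI ι v0 m {j} + ε) * uu e0 T Q ^ (K + 1) * ap C0 Q (Rr r T) p := by
  classical
  obtain ⟨C0, hC0, hBe⟩ := beP
  obtain ⟨C1, hC1, hAt⟩ := atA he0 hv0 m
  refine ⟨C0, hC0, fun ε hε => ?_⟩
  obtain ⟨N, hNdef⟩ : ∃ N : ℝ, N = ((m : ℝ) + 1) ^ K := ⟨_, rfl⟩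
  have hN : 1 ≤ N := by
    rw [hNdef]
    refine one_le_pow₀ ?_
    have : (0 : ℝ) ≤ m := Nat.cast_nonneg m
    linarith
  have hv : 0 < 1 / v0 := by positivity
  obtain ⟨A, hAdef⟩ : ∃ A : ℝ, A = 4 + C1 + 1 / v0 := ⟨_, rfl⟩
  have hA : 1 ≤ A := by linarith
  have hN2 : 0 < N ^ 2 := by positivity
  obtain ⟨ε1, w0, hε1, hgen⟩ := gen K 10 A (by norm_num) hA (ε := ε / N ^ 2) (div_pos hε hN2)
  obtain ⟨e2, he2def⟩ : ∃ e2 : ℝ, e2 = min 1 (ε1 / 3) := ⟨_, rfl⟩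
  have he2 : 0 < e2 := by
    rw [he2def]
    exact lt_min one_pos (by positivity)
  have he2a : e2 ≤ 1 := by
    rw [he2def]
    exact min_le_left _ _
  have he2b : 3 * e2 ≤ ε1 := by
    have : e2 ≤ ε1 / 3 := by
      rw [he2def]
      exact min_le_right _ _
    linarith
  obtain ⟨T1, hT1⟩ := hAt e2 he2
  refine ⟨max 1 T1, w0, ?_⟩
  intro ι _ _ hι Q hQ hW T hT hbig j p hp hpQ
  have hT1' : 1 ≤ T := (le_max_left _ _).trans hT
  have hT1'' : T1 ≤ T := (le_max_right _ _).trans hT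
  have hR := E3pM_Rr hr hT1'
  have hw0p : w0 < p := by
    by_contra h
    exact hpQ (hW.2 p hp (not_lt.1 h))
  have hcop : Nat.Coprime p Q := (Nat.Prime.coprime_iff_not_dvd hp).2 hpQ
  obtain ⟨hgd, hct, hs0, hs1⟩ := hBe Q (Rr r T) p hQ hR hp hcop
  refine ⟨hgd, ?_⟩
  have hat := hT1 T hT1'' Q hQ hbig
  have hu : 0 ≤ uu e0 T Q := E3pM_u he0 hT1' Q
  obtain ⟨u, hudef⟩ : ∃ u : ℝ, u = uu e0 T Q := ⟨_, rfl⟩
  rw [← hudef] at hu hat ⊢
  obtain ⟨a, hadef⟩ : ∃ a : ℝ, a = ap C0 Q (Rr r T) p := ⟨_, rfl⟩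
  rw [← hadef] at hct hs1 ⊢
  obtain ⟨S, hSdef⟩ : ∃ S : ℝ, S = SS (DBp Q (Rr r T) p) (fBp Q (Rr r T) p) 1 := ⟨_, rfl⟩
  rw [← hSdef] at hs0 hs1
  have ha : 0 ≤ a := hs0.trans hs1
  obtain ⟨τ, hτ0, hτ1, hτ⟩ : ∃ τ : ℝ, 0 ≤ τ ∧ τ ≤ 1 ∧ S = τ * a := by
    rcases ha.eq_or_lt with h | h
    · refine ⟨0, le_rfl, by norm_num, ?_⟩
      rw [← h] at hs1
      rw [zero_mul]
      exact le_antisymm hs1 hs0
    · refine ⟨S / a, div_nonneg hs0 ha, ?_, ?_⟩
      · rw [div_le_one h]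
        exact hs1
      · field_simp
  have hU : 0 ≤ u ^ (K + 1) * a := by positivity
  have key : ∀ n ∈ AS ι v0 m, ∀ n' ∈ AS ι v0 m,
      Mm (fun i => if i = j then DBp Q (Rr r T) p else DA e0 v0 T Q (n i) (n' i))
        (fun i => if i = j then fun B => la e0 v0 T Q (n i) 1 * la e0 v0 T Q (n' i) 1 * fBp Q (Rr r T) p B
          else fA e0 v0 T Q (n i) (n' i)) 1 ≤
      ((∏ i, E3pM_F v0 j n n' i) + ε / N ^ 2) * (u ^ (K + 1) * a) := by
    intro n hn n' hn'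
    have hσ : ∀ i, |(if i = j then τ else 1) * E3pM_F v0 j n n' i| ≤ A := by
      intro i
      have h1 : 0 ≤ (if i = j then τ else 1) := by
        split_ifs
        · exact hτ0
        · norm_num
      have h2 : (if i = j then τ else 1) ≤ 1 := by
        split_ifs
        · exact hτ1
        · norm_num
      have h3 := E3pM_F_nn hv0 j n n' i
      have h4 := E3pM_F_le hv0 j n n' i
      rw [abs_of_nonneg (mul_nonneg h1 h3)]
      calc (if i = j then τ else 1) * E3pM_F v0 j n n' i ≤ 1 * E3pM_F v0 j n n' i :=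
            mul_le_mul_of_nonneg_right h2 h3
        _ = E3pM_F v0 j n n' i := one_mul _
        _ ≤ A := by linarith
    have hs : ∀ i : ι, 0 ≤ (if i = j then u * a else 1) * u := by
      intro i
      split_ifs
      · positivity
      · linarith
    obtain ⟨hxj, hyj⟩ := E3pM_prod hu he2.le he2a (E3pM_gw hv0 (n j)).1 (E3pM_gw hv0 (n j)).2
      (E3pM_gw hv0 (n' j)).1 (E3pM_gw hv0 (n' j)).2
      (hat (n j) (E3pM_le hn j) (n j) (E3pM_le hn j)).2.2.2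
      (hat (n' j) (E3pM_le hn' j) (n' j) (E3pM_le hn' j)).2.2.2
    have h := hgen ι hι w0 Q p hW le_rfl (Or.inr ⟨hp, hw0p⟩)
      (fun i => if i = j then DBp Q (Rr r T) p else DA e0 v0 T Q (n i) (n' i))
      (fun i => if i = j then fun B => la e0 v0 T Q (n i) 1 * la e0 v0 T Q (n' i) 1 * fBp Q (Rr r T) p B
          else fA e0 v0 T Q (n i) (n' i))
      (fun i => (if i = j then u * a else 1) * u)
      (fun i => (if i = j then τ else 1) * E3pM_F v0 j n n' i) j hs hσ ?_ ?_ ?_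
    · rw [Finset.prod_mul_distrib, Finset.prod_mul_distrib, Finset.prod_ite_eq', Finset.prod_ite_eq',
        if_pos (Finset.mem_univ j), if_pos (Finset.mem_univ j), Finset.prod_const, Finset.card_univ,
        hι] at h
      have h1 := (abs_le.1 h).2
      have e1 : u * a * u ^ K = u ^ (K + 1) * a := by ring
      rw [e1] at h1
      have h2 : τ * (∏ i, E3pM_F v0 j n n' i) * (u ^ (K + 1) * a) ≤
          (∏ i, E3pM_F v0 j n n' i) * (u ^ (K + 1) * a) := by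
        refine mul_le_mul_of_nonneg_right ?_ hU
        have h3 : 0 ≤ ∏ i, E3pM_F v0 j n n' i := Finset.prod_nonneg fun i _ => E3pM_F_nn hv0 j n n' i
        calc τ * (∏ i, E3pM_F v0 j n n' i) ≤ 1 * (∏ i, E3pM_F v0 j n n' i) :=
              mul_le_mul_of_nonneg_right hτ1 h3
          _ = _ := one_mul _
      rw [add_mul]
      linarith
    · intro i
      by_cases hij : i = j
      · simp only [if_pos hij]
        exact hgd
      · simp only [if_neg hij]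
        exact (hat (n i) (E3pM_le hn i) (n' i) (E3pM_le hn' i)).1
    · intro i
      by_cases hij : i = j
      · subst hij
        simp only [if_true]
        have h1 := E3pM_ctrl hct (c := la e0 v0 T Q (n i) 1 * la e0 v0 T Q (n' i) 1) hxj
        refine E3pM_mono (by norm_num) ?_ h1
        have h2 : 0 ≤ u * a * u := by positivity
        calc 4 * u ^ 2 * a = 4 * (u * a * u) := by ring
          _ ≤ A * (u * a * u) := mul_le_mul_of_nonneg_right (by linarith) h2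
      · simp only [if_neg hij]
        have h1 := (hat (n i) (E3pM_le hn i) (n' i) (E3pM_le hn' i)).2.1
        refine E3pM_mono (by norm_num) ?_ h1
        rw [one_mul]
        exact mul_le_mul_of_nonneg_right (by linarith) hu
    · intro i
      by_cases hij : i = j
      · subst hij
        simp only [if_true]
        rw [E3pM_SS, ← hSdef, hτ]
        have hF : E3pM_F v0 i n n' i = (vv v0 (n i))⁻¹ * wv v0 (n i) *
            ((vv v0 (n' i))⁻¹ * wv v0 (n' i)) := by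
          unfold E3pM_F
          rw [if_pos (Finset.mem_singleton_self i)]
        rw [hF]
        have e1 : la e0 v0 T Q (n i) 1 * la e0 v0 T Q (n' i) 1 * (τ * a) -
            τ * ((vv v0 (n i))⁻¹ * wv v0 (n i) * ((vv v0 (n' i))⁻¹ * wv v0 (n' i))) * (u * a * u) =
            (τ * a) * (la e0 v0 T Q (n i) 1 * la e0 v0 T Q (n' i) 1 -
              (vv v0 (n i))⁻¹ * wv v0 (n i) * ((vv v0 (n' i))⁻¹ * wv v0 (n' i)) * u ^ 2) := by ring
        rw [e1, abs_mul, abs_of_nonneg (mul_nonneg hτ0 ha)]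
        have h2 : τ * a ≤ a := by
          calc τ * a ≤ 1 * a := mul_le_mul_of_nonneg_right hτ1 ha
            _ = a := one_mul a
        have h3 : (τ * a) * |la e0 v0 T Q (n i) 1 * la e0 v0 T Q (n' i) 1 -
              (vv v0 (n i))⁻¹ * wv v0 (n i) * ((vv v0 (n' i))⁻¹ * wv v0 (n' i)) * u ^ 2| ≤
            a * (3 * e2 * u ^ 2) := mul_le_mul h2 hyj (abs_nonneg _) ha
        refine h3.trans ?_
        have h4 : 0 ≤ u * a * u := by positivity
        calc a * (3 * e2 * u ^ 2) = 3 * e2 * (u * a * u) := by ring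
          _ ≤ ε1 * (u * a * u) := mul_le_mul_of_nonneg_right he2b h4
      · simp only [if_neg hij]
        have h1 := (hat (n i) (E3pM_le hn i) (n' i) (E3pM_le hn' i)).2.2.1
        have hF : E3pM_F v0 j n n' i =
            if n i = n' i then ((vv v0 (n i))⁻¹) ^ 2 * wv v0 (n i) else 0 := by
          unfold E3pM_F
          rw [if_neg (fun h => hij (Finset.mem_singleton.1 h))]
        rw [hF, one_mul, one_mul]
        refine h1.trans (mul_le_mul_of_nonneg_right ?_ hu)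
        linarith
  have hFI : FI ι v0 m {j} = ∑ n ∈ AS ι v0 m, ∑ n' ∈ AS ι v0 m, ∏ i, E3pM_F v0 j n n' i := rfl
  refine (Finset.sum_le_sum fun n hn => Finset.sum_le_sum fun n' hn' => key n hn n' hn').trans ?_
  have e1 : ∑ n ∈ AS ι v0 m, ∑ n' ∈ AS ι v0 m,
      ((∏ i, E3pM_F v0 j n n' i) + ε / N ^ 2) * (u ^ (K + 1) * a) =
      (FI ι v0 m {j} + ((AS ι v0 m).card : ℝ) ^ 2 * (ε / N ^ 2)) * (u ^ (K + 1) * a) := by
    rw [hFI]
    simp only [← Finset.sum_mul]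
    congr 1
    simp only [Finset.sum_add_distrib, Finset.sum_const, nsmul_eq_mul]
    ring
  rw [e1, mul_assoc]
  refine mul_le_mul_of_nonneg_right ?_ hU
  have h2 := E3pM_card ι hι v0 m
  rw [← hNdef] at h2
  have h3 : ((AS ι v0 m).card : ℝ) ^ 2 ≤ N ^ 2 := pow_le_pow_left₀ (Nat.cast_nonneg _) h2 2
  have h4 : ((AS ι v0 m).card : ℝ) ^ 2 * (ε / N ^ 2) ≤ N ^ 2 * (ε / N ^ 2) :=
    mul_le_mul_of_nonneg_right h3 (div_pos hε hN2).le
  have h5 : N ^ 2 * (ε / N ^ 2) = ε := by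
    field_simp
  linarith

end EG
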