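import Pool.Agent.H6.EG.Eul

/-!
# MP_0e3417 row PhiC: from weights `1/B` to weights `1/φ(B)`

Proof. For squarefree `B`: `B/φ(B) = ∑_{e ∣ B} 1/φ(e)`. So for squarefree `b`, with `f~(B) = f(B) B/φ(B)`:
`SS D f~ b = ∑_{B ∈ D, b ∣ B} (f(B)/B) ∑_{e ∣ B} 1/φ(e) = ∑_{e ∈ sq Q N} (1/φ(e)) SS D f (lcm b e)`, `N` an upper bound for `D` (all `e ∣ B` are in `sq Q N`).
By `Ctrl` (`p = 1`): `|SS D f (lcm b e)| ≤ a C^(ω(b)+ω(e)) gcd(b,e)/(b e)`, and `1/φ(e) ≤ 2^ω(e)/e`. So `|SS D f~ b| ≤ a C^ω(b)/b ∑_e (2C)^ω(e) gcd(e,b)/e² ≤ a C^ω(b)/b C2 2^ω(b)` by `eul` (if `b` is coprime to `Q`;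
otherwise `SS D f~ b = 0`), and for `b = 1`: `|SS D f~ 1 - SS D f 1| ≤ a ∑_{e ≠ 1} (2C)^ω(e)/e² ≤ a C2/√w`. To have the form of `Ctrl` (no constant in front) use `a' = C2 a`.
-/

open Finset

namespace EG

theorem PhiC_div {B : ℕ} (hB : Squarefree B) :
    (B : ℝ) / (Nat.totient B : ℝ) = ∑ e ∈ B.divisors, 1 / (Nat.totient e : ℝ) := by
  have h1 : ∑ e ∈ B.divisors, (Nat.totient (B / e) : ℝ) = B := by
    rw [Nat.sum_div_divisors B (fun e => (Nat.totient e : ℝ))]
    exact_mod_cast Nat.sum_totient B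
  have hB0 : B ≠ 0 := hB.ne_zero
  have hφ : (Nat.totient B : ℝ) ≠ 0 := by
    exact_mod_cast (Nat.totient_pos.2 (Nat.pos_of_ne_zero hB0)).ne'
  rw [div_eq_iff hφ, Finset.sum_mul]
  conv_lhs => rw [← h1]
  refine Finset.sum_congr rfl fun e he => ?_
  obtain ⟨hd, -⟩ := Nat.mem_divisors.1 he
  have h2 : e * (B / e) = B := Nat.mul_div_cancel' hd
  have hc : Nat.Coprime e (B / e) := Nat.coprime_of_squarefree_mul (by rwa [h2])
  have h3 : Nat.totient B = Nat.totient e * Nat.totient (B / e) := by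
    conv_lhs => rw [← h2]
    exact Nat.totient_mul hc
  have he0 : (Nat.totient e : ℝ) ≠ 0 := by
    have : 0 < e := Nat.pos_of_ne_zero (fun h => by simp [h] at hd; exact hB0 hd)
    exact_mod_cast (Nat.totient_pos.2 this).ne'
  rw [h3]
  push_cast
  field_simp

theorem PhiC_tot {e : ℕ} (he : Squarefree e) :
    1 / (Nat.totient e : ℝ) ≤ 2 ^ e.primeFactors.card / (e : ℝ) := by
  have he0 : 0 < e := Nat.pos_of_ne_zero he.ne_zero
  have hφ : 0 < Nat.totient e := Nat.totient_pos.2 he0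
  rw [div_le_div_iff₀ (by exact_mod_cast hφ) (by exact_mod_cast he0)]
  have h1 := Nat.totient_mul_prod_primeFactors e
  rw [Nat.prod_primeFactors_of_squarefree he] at h1
  have h2 : Nat.totient e = ∏ p ∈ e.primeFactors, (p - 1) := by
    apply Nat.eq_of_mul_eq_mul_left he0
    rw [← h1, mul_comm]
  have h3 : e ≤ 2 ^ e.primeFactors.card * Nat.totient e := by
    rw [h2, Finset.card_eq_sum_ones, ← Finset.prod_pow_eq_pow_sum, ← Finset.prod_mul_distrib]
    conv_lhs => rw [← Nat.prod_primeFactors_of_squarefree he]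
    refine Finset.prod_le_prod' fun p hp => ?_
    have := (Nat.prime_of_mem_primeFactors hp).two_le
    omega
  have h4 : (e : ℝ) ≤ 2 ^ e.primeFactors.card * Nat.totient e := by exact_mod_cast h3
  linarith

theorem PhiC_lcm {b e : ℕ} (hb : Squarefree b) (he : Squarefree e) :
    Squarefree (Nat.lcm b e) ∧
      (Nat.lcm b e).primeFactors.card ≤ b.primeFactors.card + e.primeFactors.card := by
  have hb0 := hb.ne_zero
  have he0 := he.ne_zero
  constructor
  · rw [Nat.squarefree_iff_factorization_le_one (Nat.lcm_ne_zero hb0 he0)]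
    intro p
    rw [Nat.factorization_lcm hb0 he0]
    exact sup_le ((Nat.squarefree_iff_factorization_le_one hb0).1 hb p)
      ((Nat.squarefree_iff_factorization_le_one he0).1 he p)
  · have hsub : (Nat.lcm b e).primeFactors ⊆ b.primeFactors ∪ e.primeFactors := by
      intro p hp
      obtain ⟨hpp, hpd, -⟩ := Nat.mem_primeFactors.1 hp
      have hbe : p ∣ b * e := hpd.trans (Nat.lcm_dvd_mul b e)
      rcases (hpp.dvd_mul).1 hbe with h | h
      · exact Finset.mem_union_left _ (Nat.mem_primeFactors.2 ⟨hpp, h, hb0⟩)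
      · exact Finset.mem_union_right _ (Nat.mem_primeFactors.2 ⟨hpp, h, he0⟩)
    exact (Finset.card_le_card hsub).trans (Finset.card_union_le _ _)

theorem PhiC_SS {Q : ℕ} {D : Finset ℕ} (hD : Good Q D) (f : ℕ → ℝ) {N : ℕ}
    (hN : ∀ B ∈ D, B ≤ N) (b : ℕ) :
    SS D (fun B => f B * ((B : ℝ) / (Nat.totient B : ℝ))) b =
      ∑ e ∈ sq Q N, 1 / (Nat.totient e : ℝ) * SS D f (Nat.lcm b e) := by
  unfold SS
  have h1 : ∀ B ∈ D.filter (fun B => b ∣ B), f B * ((B : ℝ) / (Nat.totient B : ℝ)) / (B : ℝ) =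
      ∑ e ∈ sq Q N, if e ∣ B then 1 / (Nat.totient e : ℝ) * (f B / (B : ℝ)) else 0 := by
    intro B hB
    obtain ⟨hBD, -⟩ := Finset.mem_filter.1 hB
    obtain ⟨hs, hc⟩ := hD B hBD
    have hset : B.divisors = (sq Q N).filter (fun e => e ∣ B) := by
      ext e
      simp only [Nat.mem_divisors, Finset.mem_filter, sq, Finset.mem_Icc]
      constructor
      · rintro ⟨hd, h0⟩
        refine ⟨⟨⟨?_, (Nat.le_of_dvd (Nat.pos_of_ne_zero h0) hd).trans (hN B hBD)⟩,
          hs.squarefree_of_dvd hd, hc.coprime_dvd_left hd⟩, hd⟩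
        exact Nat.pos_of_ne_zero (fun h => by simp [h] at hd; exact h0 hd)
      · rintro ⟨-, hd⟩
        exact ⟨hd, hs.ne_zero⟩
    rw [← Finset.sum_filter, ← hset, ← Finset.sum_mul, ← PhiC_div hs]
    ring
  rw [Finset.sum_congr rfl h1, Finset.sum_comm]
  refine Finset.sum_congr rfl fun e _ => ?_
  rw [← Finset.sum_filter, Finset.filter_filter, ← Finset.mul_sum]
  congr 2
  ext B
  simp only [Finset.mem_filter, Nat.lcm_dvd_iff]

theorem phiC (C : ℝ) (hC : 1 ≤ C) : ∃ C2 : ℝ, 1 ≤ C2 ∧ ∀ w Q : ℕ, Wide w Q → C2 ≤ w → ∀ (D : Finset ℕ) (f : ℕ → ℝ) (a : ℝ), 0 ≤ a →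
    Good Q D → Ctrl C a 1 D f →
      Ctrl (2 * C) (C2 * a) 1 D (fun B => f B * ((B : ℝ) / (Nat.totient B : ℝ))) ∧
      |SS D (fun B => f B * ((B : ℝ) / (Nat.totient B : ℝ))) 1 - SS D f 1| ≤ C2 * a / Real.sqrt w := by
  obtain ⟨E, hE, heul⟩ := eul (2 * C) (by linarith)
  refine ⟨E, hE, fun w Q hw hEw D f a ha hD hctrl => ?_⟩
  have hN : ∀ B ∈ D, B ≤ D.sup id + 1 := fun B hB =>
    (Finset.le_sup (f := id) hB).trans (Nat.le_succ _)
  obtain ⟨N, hNd⟩ : ∃ N, N = D.sup id + 1 := ⟨_, rfl⟩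
  rw [← hNd] at hN
  have hN1 : 1 ≤ N := by omega
  obtain ⟨e1, e2⟩ := heul w Q hw hEw 1 (Or.inl rfl) N
  have hC0 : 0 ≤ C := by linarith
  -- one term
  have hterm : ∀ b : ℕ, Squarefree b → ∀ e ∈ sq Q N,
      |1 / (Nat.totient e : ℝ) * SS D f (Nat.lcm b e)| ≤
        a * C ^ b.primeFactors.card / b *
          ((2 * C) ^ e.primeFactors.card * (Nat.gcd e b : ℝ) * (Nat.gcd e 1 : ℝ) / (e : ℝ) ^ 2) := by
    intro b hb e he
    obtain ⟨he1, hes, heQ⟩ : 1 ≤ e ∧ Squarefree e ∧ Nat.Coprime e Q := by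
      simp only [sq, Finset.mem_filter, Finset.mem_Icc] at he
      exact ⟨he.1.1, he.2⟩
    have hb0 : 0 < b := Nat.pos_of_ne_zero hb.ne_zero
    have hb0' : (0 : ℝ) < b := by exact_mod_cast hb0
    have he0' : (0 : ℝ) < e := by exact_mod_cast he1
    obtain ⟨hl, hlc⟩ := PhiC_lcm hb hes
    have h1 := hctrl _ hl
    rw [Nat.gcd_one_right, Nat.cast_one, mul_one] at h1
    rw [abs_mul, abs_of_nonneg (by positivity : (0 : ℝ) ≤ 1 / (Nat.totient e : ℝ))]
    have h2 : (Nat.gcd b e : ℝ) * (Nat.lcm b e : ℝ) = b * e := by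
      exact_mod_cast Nat.gcd_mul_lcm b e
    have hg0 : (0 : ℝ) < Nat.gcd b e := by exact_mod_cast Nat.gcd_pos_of_pos_left e hb0
    have hl0 : (0 : ℝ) < Nat.lcm b e := by exact_mod_cast Nat.lcm_pos hb0 he1
    have h3 : a * C ^ (Nat.lcm b e).primeFactors.card / (Nat.lcm b e : ℝ) ≤
        a * C ^ (b.primeFactors.card + e.primeFactors.card) * ((Nat.gcd b e : ℝ) / (b * e)) := by
      have h4 : (1 : ℝ) / (Nat.lcm b e : ℝ) = (Nat.gcd b e : ℝ) / (b * e) := by
        rw [← h2]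
        field_simp
      rw [← h4, mul_one_div]
      apply div_le_div_of_nonneg_right _ hl0.le
      exact mul_le_mul_of_nonneg_left (pow_le_pow_right₀ hC hlc) ha
    have h5 := mul_le_mul (PhiC_tot hes) (h1.trans h3) (abs_nonneg _) (by positivity)
    refine h5.trans (le_of_eq ?_)
    rw [Nat.gcd_one_right, Nat.gcd_comm e b, pow_add, mul_pow]
    push_cast
    field_simp
  constructor
  · intro b hb
    rw [Nat.gcd_one_right, Nat.cast_one, mul_one]
    have hb0 : 0 < b := Nat.pos_of_ne_zero hb.ne_zero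
    have hb0' : (0 : ℝ) < b := by exact_mod_cast hb0
    by_cases hbQ : Nat.Coprime b Q
    · rw [PhiC_SS hD f hN b]
      refine (Finset.abs_sum_le_sum_abs _ _).trans ((Finset.sum_le_sum (hterm b hb)).trans ?_)
      rw [← Finset.mul_sum]
      have h1 := mul_le_mul_of_nonneg_left (e1 b hb hbQ)
        (by positivity : 0 ≤ a * C ^ b.primeFactors.card / (b : ℝ))
      refine h1.trans (le_of_eq ?_)
      rw [mul_pow]
      ring
    · have h0 : SS D (fun B => f B * ((B : ℝ) / (Nat.totient B : ℝ))) b = 0 := by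
        unfold SS
        rw [Finset.filter_false_of_mem, Finset.sum_empty]
        intro B hB hdvd
        exact hbQ ((hD B hB).2.coprime_dvd_left hdvd)
      rw [h0, abs_zero]
      positivity
  · rw [PhiC_SS hD f hN 1]
    have h1 : (1 : ℕ) ∈ sq Q N := by
      simp only [sq, Finset.mem_filter, Finset.mem_Icc]
      exact ⟨⟨le_rfl, hN1⟩, squarefree_one, Nat.coprime_one_left Q⟩
    rw [← Finset.add_sum_erase _ _ h1]
    have h2 : 1 / (Nat.totient 1 : ℝ) * SS D f (Nat.lcm 1 1) = SS D f 1 := by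
      simp
    rw [h2, add_sub_cancel_left]
    refine (Finset.abs_sum_le_sum_abs _ _).trans ?_
    have h3 : ∀ e ∈ (sq Q N).erase 1, |1 / (Nat.totient e : ℝ) * SS D f (Nat.lcm 1 e)| ≤
        a * ((2 * C) ^ e.primeFactors.card * (Nat.gcd e 1 : ℝ) / (e : ℝ) ^ 2) := by
      intro e he
      have h4 := hterm 1 squarefree_one e (Finset.mem_of_mem_erase he)
      refine h4.trans (le_of_eq ?_)
      simp
    refine (Finset.sum_le_sum h3).trans ?_
    rw [← Finset.mul_sum]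
    have h4 := mul_le_mul_of_nonneg_left e2 ha
    refine h4.trans (le_of_eq ?_)
    ring

end EG
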