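import Pool.Agent.H6.EG.AtA
import Pool.Agent.H6.EG.PhiC
import Pool.Agent.H6.EG.Gen
import Pool.Agent.H6.EG.E3pM

/-!
# MP_0e3417 row E2c: the main term of the sum over primes

Proof. Fix `n, n' ∈ AS`. `gen` with `p = 1`, `C = 20`, `s i = u` for `i ≠ j`, `s j = 1`, `σ i = [n i = n' i] g² w`, `σ j = 1`, `D j = {1}`, `f j = 1` (`SS {1} 1 b = 1` if `b = 1`, `0` otherwise (for squarefree `b`)). For `i ≠ j`: `atA` and `phiC`
(`C = 10`): `Ctrl 20 (C2 C1 u)` and `|SS f~ 1 - SS f 1| ≤ C2 C1 u/√w ≤ ε' u` for `w = w0` large. So `|Mm - (∏_{i ≠ j} σ i) u^(K-1)| ≤ ε' u^(K-1)`. Multiply by `la(n j) 1 * la(n' j) 1 = (g w(n j) + O(ε')) (g w(n' j) + O(ε')) u²` and sum: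
`∑_{n,n'} g w(n j) g w(n' j) ∏_{i ≠ j} σ i = FI {j}`.
-/

open Finset

namespace EG

theorem E2c_SS1 (b : ℕ) : SS {1} (fun _ => (1 : ℝ)) b = if b ∣ 1 then 1 else 0 := by
  unfold SS
  rw [Finset.filter_singleton]
  split_ifs <;> simp

theorem E2c_ctrl1 {C A : ℝ} (hC : 0 ≤ C) (hA : 1 ≤ A) : Ctrl C (A * 1) 1 {1} (fun _ => (1 : ℝ)) := by
  intro b _
  rw [E2c_SS1]
  by_cases h : b ∣ 1
  · rw [if_pos h]
    have h1 : b = 1 := Nat.dvd_one.mp h
    subst h1
    simp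
    exact hA
  · rw [if_neg h, abs_zero]
    positivity

theorem E2c_good (Q : ℕ) : Good Q {1} := by
  intro B hB
  rw [Finset.mem_singleton] at hB
  subst hB
  exact ⟨squarefree_one, Nat.coprime_one_left Q⟩

theorem E2c_w {c e : ℝ} (hc : 0 ≤ c) (he : 0 < e) : ∃ w1 : ℕ, ∀ w : ℕ, w1 ≤ w → c / Real.sqrt w ≤ e := by
  refine ⟨⌈(c / e) ^ 2⌉₊ + 1, fun w hw => ?_⟩
  have h1 : (c / e) ^ 2 ≤ (w : ℝ) := by
    calc (c / e) ^ 2 ≤ (⌈(c / e) ^ 2⌉₊ : ℝ) := Nat.le_ceil _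
      _ ≤ (w : ℝ) := by exact_mod_cast (by omega : ⌈(c / e) ^ 2⌉₊ ≤ w)
  have h0 : (0 : ℝ) < w := by exact_mod_cast (by omega : 0 < w)
  have hs : 0 < Real.sqrt w := Real.sqrt_pos.mpr h0
  have h2 : c / e ≤ Real.sqrt w := Real.le_sqrt_of_sq_le h1
  rw [div_le_iff₀ hs]
  rw [div_le_iff₀ he] at h2
  linarith

/-- the factors of the main term -/
noncomputable def E2c_G {ι : Type} [DecidableEq ι] (v0 : ℝ) (j : ι) (n n' : ι → ℕ) (i : ι) : ℝ :=
  if i = j then 1 else if n i = n' i then ((vv v0 (n i))⁻¹) ^ 2 * wv v0 (n i) else 0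

theorem E2c_G_nn {ι : Type} [DecidableEq ι] {v0 : ℝ} (hv0 : 0 < v0) (j : ι) (n n' : ι → ℕ) (i : ι) :
    0 ≤ E2c_G v0 j n n' i := by
  unfold E2c_G
  split_ifs
  · norm_num
  · exact (E3pM_ggw hv0 _).1
  · exact le_rfl

theorem E2c_G_le {ι : Type} [DecidableEq ι] {v0 : ℝ} (hv0 : 0 < v0) (j : ι) (n n' : ι → ℕ) (i : ι) :
    E2c_G v0 j n n' i ≤ 1 + 1 / v0 := by
  have h0 : 0 < 1 / v0 := by positivity
  unfold E2c_G
  split_ifs
  · linarith
  · have := (E3pM_ggw hv0 (n i)).2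
    linarith
  · linarith

theorem E2c_prod {ι : Type} [Fintype ι] [DecidableEq ι] (v0 : ℝ) (j : ι) (n n' : ι → ℕ) :
    (vv v0 (n j))⁻¹ * wv v0 (n j) * ((vv v0 (n' j))⁻¹ * wv v0 (n' j)) * ∏ i, E2c_G v0 j n n' i =
      ∏ i, E3pM_F v0 j n n' i := by
  rw [← Finset.mul_prod_erase Finset.univ (E2c_G v0 j n n') (Finset.mem_univ j),
    ← Finset.mul_prod_erase Finset.univ (E3pM_F v0 j n n') (Finset.mem_univ j)]
  have h1 : E2c_G v0 j n n' j = 1 := by
    unfold E2c_G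
    rw [if_pos rfl]
  have h2 : E3pM_F v0 j n n' j = (vv v0 (n j))⁻¹ * wv v0 (n j) * ((vv v0 (n' j))⁻¹ * wv v0 (n' j)) := by
    unfold E3pM_F
    rw [if_pos (Finset.mem_singleton_self j)]
  rw [h1, h2, one_mul]
  congr 1
  apply Finset.prod_congr rfl
  intro i hi
  have hij : i ≠ j := Finset.ne_of_mem_erase hi
  unfold E2c_G E3pM_F
  rw [if_neg hij, if_neg (fun h => hij (Finset.mem_singleton.1 h))]

theorem E2c_fin {X M P c u e ε' B : ℝ} {K : ℕ} (hK : 1 ≤ K) (hu : 0 ≤ u) (he : 0 ≤ e)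
    (hX : |X| ≤ 4 * u ^ 2) (hXc : |X - c * u ^ 2| ≤ 3 * e * u ^ 2)
    (hP : |P| ≤ B) (hM : |M - P * u ^ (K - 1)| ≤ ε' * u ^ (K - 1)) :
    |X * M - c * P * u ^ (K + 1)| ≤ (4 * ε' + 3 * e * B) * u ^ (K + 1) := by
  obtain ⟨k, rfl⟩ : ∃ k, K = k + 1 := ⟨K - 1, by omega⟩
  rw [Nat.add_sub_cancel] at hM
  have e1 : X * M - c * P * u ^ (k + 1 + 1) = X * (M - P * u ^ k) + (X - c * u ^ 2) * (P * u ^ k) := by ring
  rw [e1]
  refine (abs_add_le _ _).trans ?_
  rw [abs_mul, abs_mul, abs_mul, abs_of_nonneg (pow_nonneg hu k)]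
  have h1 : |X| * |M - P * u ^ k| ≤ (4 * u ^ 2) * (ε' * u ^ k) :=
    mul_le_mul hX hM (abs_nonneg _) (by positivity)
  have h2 : |X - c * u ^ 2| * (|P| * u ^ k) ≤ (3 * e * u ^ 2) * (B * u ^ k) := by
    apply mul_le_mul hXc _ (by positivity) (by positivity)
    exact mul_le_mul_of_nonneg_right hP (pow_nonneg hu k)
  calc _ ≤ (4 * u ^ 2) * (ε' * u ^ k) + (3 * e * u ^ 2) * (B * u ^ k) := add_le_add h1 h2
    _ = _ := by ring

theorem e2c {e0 v0 : ℝ} (he0 : 0 < e0) (hv0 : 0 < v0) (m K : ℕ) (hK : 1 ≤ K) {ε : ℝ} (hε : 0 < ε) :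
    ∃ T1 : ℝ, ∃ w0 : ℕ, ∀ (ι : Type) [Fintype ι] [DecidableEq ι], Fintype.card ι = K → ∀ Q : ℕ, 1 ≤ Q → Wide w0 Q →
      ∀ T, T1 ≤ T → Big e0 T Q → ∀ j : ι,
      |∑ n ∈ AS ι v0 m, ∑ n' ∈ AS ι v0 m, la e0 v0 T Q (n j) 1 * la e0 v0 T Q (n' j) 1 *
          Mm (Function.update (fun i => DA e0 v0 T Q (n i) (n' i)) j {1})
            (Function.update (fun i B => fA e0 v0 T Q (n i) (n' i) B * ((B : ℝ) / (Nat.totient B : ℝ))) j (fun _ => 1)) 1 -
        FI ι v0 m {j} * uu e0 T Q ^ (K + 1)| ≤ ε * uu e0 T Q ^ (K + 1) := by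
  classical
  obtain ⟨C1, hC1, hAt⟩ := atA he0 hv0 m
  obtain ⟨C2, hC2, hPhi⟩ := phiC 10 (by norm_num)
  obtain ⟨N, hNdef⟩ : ∃ N : ℝ, N = ((m : ℝ) + 1) ^ K := ⟨_, rfl⟩
  have hN : 1 ≤ N := by
    rw [hNdef]
    refine one_le_pow₀ ?_
    have : (0 : ℝ) ≤ m := Nat.cast_nonneg m
    linarith
  have hv : 0 < 1 / v0 := by positivity
  obtain ⟨A, hAdef⟩ : ∃ A : ℝ, A = 4 + C2 * C1 + 1 / v0 := ⟨_, rfl⟩
  have hC21 : 1 ≤ C2 * C1 := by nlinarith
  have hA : 1 ≤ A := by linarith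
  have hA0 : 0 < A := by linarith
  have hN2 : 0 < N ^ 2 := by positivity
  obtain ⟨ε1, w0, hε1, hgen⟩ := gen K (2 * 10) A (by norm_num) hA (ε := ε / (8 * N ^ 2)) (by positivity)
  obtain ⟨w1, hw1⟩ := E2c_w (c := C2 * C1) (e := ε1 / 2) (by linarith) (by positivity)
  obtain ⟨e2, he2def⟩ : ∃ e2 : ℝ, e2 = min 1 (min (ε1 / 2) (ε / (6 * A ^ K * N ^ 2))) := ⟨_, rfl⟩
  have he2 : 0 < e2 := by
    rw [he2def]
    exact lt_min one_pos (lt_min (by positivity) (by positivity))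
  have he2a : e2 ≤ 1 := by
    rw [he2def]
    exact min_le_left _ _
  have he2b : e2 ≤ ε1 / 2 := by
    rw [he2def]
    exact (min_le_right _ _).trans (min_le_left _ _)
  have he2c : e2 ≤ ε / (6 * A ^ K * N ^ 2) := by
    rw [he2def]
    exact (min_le_right _ _).trans (min_le_right _ _)
  obtain ⟨T1, hT1⟩ := hAt e2 he2
  refine ⟨max 1 T1, max w0 (max ⌈C2⌉₊ w1), ?_⟩
  intro ι _ _ hι Q hQ hW T hT hbig j
  have hT1' : 1 ≤ T := (le_max_left _ _).trans hT
  have hT1'' : T1 ≤ T := (le_max_right _ _).trans hT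
  obtain ⟨w, hwdef⟩ : ∃ w : ℕ, w = max w0 (max ⌈C2⌉₊ w1) := ⟨_, rfl⟩
  rw [← hwdef] at hW
  have hww0 : w0 ≤ w := by
    rw [hwdef]
    exact le_max_left _ _
  have hwC2 : C2 ≤ (w : ℝ) := by
    refine (Nat.le_ceil C2).trans ?_
    rw [hwdef]
    exact_mod_cast (le_max_left _ _).trans (le_max_right _ _)
  have hww1 : w1 ≤ w := by
    rw [hwdef]
    exact (le_max_right _ _).trans (le_max_right _ _)
  have hat := hT1 T hT1'' Q hQ hbig
  have hu : 0 ≤ uu e0 T Q := E3pM_u he0 hT1' Q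
  obtain ⟨u, hudef⟩ : ∃ u : ℝ, u = uu e0 T Q := ⟨_, rfl⟩
  rw [← hudef] at hu hat ⊢
  have key : ∀ n ∈ AS ι v0 m, ∀ n' ∈ AS ι v0 m,
      |la e0 v0 T Q (n j) 1 * la e0 v0 T Q (n' j) 1 *
          Mm (Function.update (fun i => DA e0 v0 T Q (n i) (n' i)) j {1})
            (Function.update (fun i B => fA e0 v0 T Q (n i) (n' i) B * ((B : ℝ) / (Nat.totient B : ℝ))) j (fun _ => 1)) 1 -
        (∏ i, E3pM_F v0 j n n' i) * u ^ (K + 1)| ≤ ε / N ^ 2 * u ^ (K + 1) := by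
    intro n hn n' hn'
    have hσ : ∀ i, |E2c_G v0 j n n' i| ≤ A := by
      intro i
      have h3 := E2c_G_nn hv0 j n n' i
      have h4 := E2c_G_le hv0 j n n' i
      rw [abs_of_nonneg h3]
      linarith
    have hs : ∀ i : ι, 0 ≤ (if i = j then 1 else u) := by
      intro i
      split_ifs
      · norm_num
      · exact hu
    obtain ⟨hxj, hyj⟩ := E3pM_prod hu he2.le he2a (E3pM_gw hv0 (n j)).1 (E3pM_gw hv0 (n j)).2
      (E3pM_gw hv0 (n' j)).1 (E3pM_gw hv0 (n' j)).2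
      (hat (n j) (E3pM_le hn j) (n j) (E3pM_le hn j)).2.2.2
      (hat (n' j) (E3pM_le hn' j) (n' j) (E3pM_le hn' j)).2.2.2
    have hM := hgen ι hι w Q 1 hW hww0 (Or.inl rfl)
      (Function.update (fun i => DA e0 v0 T Q (n i) (n' i)) j {1})
      (Function.update (fun i B => fA e0 v0 T Q (n i) (n' i) B * ((B : ℝ) / (Nat.totient B : ℝ))) j (fun _ => 1))
      (fun i => if i = j then 1 else u)
      (fun i => E2c_G v0 j n n' i) j hs hσ ?_ ?_ ?_
    · have hprod : ∏ i : ι, (if i = j then (1 : ℝ) else u) = u ^ (K - 1) := by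
        rw [← Finset.mul_prod_erase Finset.univ (fun i : ι => if i = j then (1 : ℝ) else u) (Finset.mem_univ j)]
        rw [if_pos rfl, one_mul]
        rw [Finset.prod_congr rfl (g := fun _ => u)
          (fun i hi => by rw [if_neg (Finset.ne_of_mem_erase hi)])]
        rw [Finset.prod_const, Finset.card_erase_of_mem (Finset.mem_univ j), Finset.card_univ, hι]
      rw [hprod] at hM
      have hPb : |∏ i, E2c_G v0 j n n' i| ≤ A ^ K := by
        rw [Finset.abs_prod]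
        calc ∏ i, |E2c_G v0 j n n' i| ≤ ∏ _i : ι, A :=
              Finset.prod_le_prod (fun i _ => abs_nonneg _) (fun i _ => hσ i)
          _ = A ^ K := by rw [Finset.prod_const, Finset.card_univ, hι]
      have hfin := E2c_fin hK hu he2.le hxj hyj hPb hM
      rw [E2c_prod] at hfin
      refine hfin.trans (mul_le_mul_of_nonneg_right ?_ (pow_nonneg hu _))
      have h5 : 3 * e2 * A ^ K ≤ 3 * (ε / (6 * A ^ K * N ^ 2)) * A ^ K := by gcongr
      have h6 : 3 * (ε / (6 * A ^ K * N ^ 2)) * A ^ K = ε / N ^ 2 / 2 := by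
        field_simp
        ring
      have h7 : 4 * (ε / (8 * N ^ 2)) = ε / N ^ 2 / 2 := by
        field_simp
        ring
      linarith
    · intro i
      by_cases hij : i = j
      · subst hij
        rw [Function.update_self]
        exact E2c_good Q
      · rw [Function.update_of_ne hij]
        exact (hat (n i) (E3pM_le hn i) (n' i) (E3pM_le hn' i)).1
    · intro i
      rw [ite_self]
      by_cases hij : i = j
      · subst hij
        rw [Function.update_self, Function.update_self]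
        rw [if_pos rfl]
        exact E2c_ctrl1 (by norm_num) hA
      · rw [Function.update_of_ne hij, Function.update_of_ne hij]
        rw [if_neg hij]
        obtain ⟨hg, hc, _, _⟩ := hat (n i) (E3pM_le hn i) (n' i) (E3pM_le hn' i)
        have h1 := (hPhi w Q hW hwC2 _ _ (C1 * u) (by positivity) hg hc).1
        refine E3pM_mono (by norm_num) ?_ h1
        calc C2 * (C1 * u) = (C2 * C1) * u := by ring
          _ ≤ A * u := mul_le_mul_of_nonneg_right (by linarith) hu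
    · intro i
      by_cases hij : i = j
      · subst hij
        rw [Function.update_self, Function.update_self]
        have hG1 : E2c_G v0 i n n' i = 1 := by
          unfold E2c_G
          rw [if_pos rfl]
        rw [if_pos rfl, E2c_SS1, hG1]
        simp
        exact hε1.le
      · rw [Function.update_of_ne hij, Function.update_of_ne hij]
        rw [if_neg hij]
        obtain ⟨hg, hc, hss, _⟩ := hat (n i) (E3pM_le hn i) (n' i) (E3pM_le hn' i)
        have h1 := (hPhi w Q hW hwC2 _ _ (C1 * u) (by positivity) hg hc).2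
        have hF : E2c_G v0 j n n' i =
            if n i = n' i then ((vv v0 (n i))⁻¹) ^ 2 * wv v0 (n i) else 0 := by
          unfold E2c_G
          rw [if_neg hij]
        rw [hF]
        have h2 : C2 * (C1 * u) / Real.sqrt w ≤ ε1 / 2 * u := by
          have h3 := hw1 w hww1
          calc C2 * (C1 * u) / Real.sqrt w = (C2 * C1 / Real.sqrt w) * u := by ring
            _ ≤ ε1 / 2 * u := mul_le_mul_of_nonneg_right h3 hu
        have h4 : e2 * u ≤ ε1 / 2 * u := mul_le_mul_of_nonneg_right he2b hu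
        have h5 := abs_sub_le (SS (DA e0 v0 T Q (n i) (n' i))
          (fun B => fA e0 v0 T Q (n i) (n' i) B * ((B : ℝ) / (Nat.totient B : ℝ))) 1)
          (SS (DA e0 v0 T Q (n i) (n' i)) (fA e0 v0 T Q (n i) (n' i)) 1)
          ((if n i = n' i then ((vv v0 (n i))⁻¹) ^ 2 * wv v0 (n i) else 0) * u)
        have h6 : ε1 * u = ε1 / 2 * u + ε1 / 2 * u := by ring
        rw [h6]
        linarith
  have hFI : FI ι v0 m {j} = ∑ n ∈ AS ι v0 m, ∑ n' ∈ AS ι v0 m, ∏ i, E3pM_F v0 j n n' i := rfl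
  rw [hFI, Finset.sum_mul, ← Finset.sum_sub_distrib]
  refine (Finset.abs_sum_le_sum_abs _ _).trans ?_
  have hcard := E3pM_card ι hι v0 m
  rw [← hNdef] at hcard
  have hU : 0 ≤ u ^ (K + 1) := pow_nonneg hu _
  have hinner : ∀ n ∈ AS ι v0 m,
      |∑ n' ∈ AS ι v0 m, la e0 v0 T Q (n j) 1 * la e0 v0 T Q (n' j) 1 *
          Mm (Function.update (fun i => DA e0 v0 T Q (n i) (n' i)) j {1})
            (Function.update (fun i B => fA e0 v0 T Q (n i) (n' i) B * ((B : ℝ) / (Nat.totient B : ℝ))) j (fun _ => 1)) 1 -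
        (∑ n' ∈ AS ι v0 m, ∏ i, E3pM_F v0 j n n' i) * u ^ (K + 1)| ≤
        ((AS ι v0 m).card : ℝ) * (ε / N ^ 2 * u ^ (K + 1)) := by
    intro n hn
    rw [Finset.sum_mul, ← Finset.sum_sub_distrib]
    refine (Finset.abs_sum_le_sum_abs _ _).trans ?_
    refine (Finset.sum_le_sum (fun n' hn' => key n hn n' hn')).trans ?_
    rw [Finset.sum_const, nsmul_eq_mul]
  refine (Finset.sum_le_sum hinner).trans ?_
  rw [Finset.sum_const, nsmul_eq_mul]
  have h3 : ((AS ι v0 m).card : ℝ) * (((AS ι v0 m).card : ℝ) * (ε / N ^ 2 * u ^ (K + 1))) ≤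
      N * (N * (ε / N ^ 2 * u ^ (K + 1))) := by
    have h0 : 0 ≤ ε / N ^ 2 * u ^ (K + 1) := mul_nonneg (div_pos hε hN2).le hU
    gcongr
  refine h3.trans (le_of_eq ?_)
  field_simp

end EG
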