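import Pool.Agent.H6.EG.Defs2

/-!
# MP_0e3417 row Eqs: consequences of `Big`

Proof. `EQ Q ≥ 1` and `EQ Q ≥ 2^ω(Q) ≥ Q/φ(Q)`, so `u = uu e0 T Q ≥ e0 log T / EQ Q`. With `EQ⁴ ≤ u`: `u^(5/4) ≥ u EQ ≥ e0 log T`, so `u → ∞` uniformly in `Q` as `T → ∞` (first claim), and
`EQ (1 + √(log T)) ≤ u^(1/4) (1 + (u^(5/4)/e0)^(1/2)) ≤ u^(1/4) + u^(7/8)/√e0 ≤ ε u` once `u` is large.
-/

open Finset

namespace EG

theorem EQ_ge_one {Q : ℕ} (hQ : 1 ≤ Q) : 1 ≤ EQ Q := gq_EQ hQ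

theorem eqs_tot {Q : ℕ} (hQ : 1 ≤ Q) : (Q : ℝ) ≤ 2 ^ Q.primeFactors.card * (Nat.totient Q : ℝ) := by
  have h1 : (Nat.totient Q : ℚ) = Q * ∏ p ∈ Q.primeFactors, (1 - (p : ℚ)⁻¹) := Nat.totient_eq_mul_prod_factors Q
  have h2 : (Nat.totient Q : ℝ) = Q * ∏ p ∈ Q.primeFactors, (1 - (p : ℝ)⁻¹) := by
    have := congrArg (fun q : ℚ => (q : ℝ)) h1
    simpa using this
  have h3 : ((1 : ℝ) / 2) ^ Q.primeFactors.card ≤ ∏ p ∈ Q.primeFactors, (1 - (p : ℝ)⁻¹) := by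
    rw [← Finset.prod_const]
    apply Finset.prod_le_prod
    · intro i _; norm_num
    · intro p hp
      have hp2 : 2 ≤ p := (Nat.prime_of_mem_primeFactors hp).two_le
      have hp2' : (2 : ℝ) ≤ p := by exact_mod_cast hp2
      have : (p : ℝ)⁻¹ ≤ 2⁻¹ := inv_anti₀ (by norm_num) hp2'
      linarith
  have hQ0 : (0 : ℝ) < Q := by exact_mod_cast hQ
  have h4 : (2 : ℝ) ^ Q.primeFactors.card * (1 / 2) ^ Q.primeFactors.card = 1 := by
    rw [← mul_pow]; norm_num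
  calc (Q : ℝ) = Q * (2 ^ Q.primeFactors.card * (1 / 2) ^ Q.primeFactors.card) := by rw [h4, mul_one]
    _ ≤ Q * (2 ^ Q.primeFactors.card * ∏ p ∈ Q.primeFactors, (1 - (p : ℝ)⁻¹)) := by
        gcongr
    _ = 2 ^ Q.primeFactors.card * (Nat.totient Q : ℝ) := by rw [h2]; ring

theorem eqs {e0 : ℝ} (he0 : 0 < e0) {ε : ℝ} (hε : 0 < ε) : ∃ T1 : ℝ, 1 ≤ T1 ∧ ∀ T, T1 ≤ T → ∀ Q : ℕ, 1 ≤ Q → Big e0 T Q →
    1 / ε ≤ uu e0 T Q ∧ EQ Q * (1 + Real.sqrt (Real.log T)) ≤ ε * uu e0 T Q := by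
  obtain ⟨V, hV1, hV2, hV3⟩ : ∃ V : ℝ, 1 ≤ V ∧ 2 / ε ≤ V ∧ 4 / (e0 * ε ^ 2) ≤ V :=
    ⟨max 1 (max (2 / ε) (4 / (e0 * ε ^ 2))), le_max_left _ _, (le_max_left _ _).trans (le_max_right _ _),
      (le_max_right _ _).trans (le_max_right _ _)⟩
  refine ⟨Real.exp (V ^ 5 / e0), Real.one_le_exp (by positivity), ?_⟩
  intro T hT Q hQ hB
  have hE := EQ_ge_one hQ
  have hTpos : 0 < T := (Real.exp_pos _).trans_le hT
  have hL : V ^ 5 / e0 ≤ Real.log T := by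
    rw [Real.le_log_iff_exp_le hTpos]; exact hT
  have hL' : V ^ 5 ≤ e0 * Real.log T := by
    rw [div_le_iff₀ he0] at hL; linarith
  have hL0 : 0 ≤ Real.log T := le_trans (by positivity) hL
  have hQ0 : (0 : ℝ) < Q := by exact_mod_cast hQ
  unfold Big at hB
  set u := uu e0 T Q with hu
  have hu0 : 0 ≤ u := le_trans (by positivity) hB
  -- u * EQ ≥ e0 log T
  have huE : e0 * Real.log T ≤ u * EQ Q := by
    have h1 := eqs_tot hQ
    have h2 : (1 : ℝ) ≤ 2 ^ Q.primeFactors.card * ((Nat.totient Q : ℝ) / Q) := by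
      rw [← mul_div_assoc, le_div_iff₀ hQ0, one_mul]; exact h1
    have h3 : (2 : ℝ) ^ Q.primeFactors.card ≤ EQ Q := by
      unfold EQ
      have : 0 ≤ Real.log Q := Real.log_nonneg (by exact_mod_cast hQ)
      nlinarith [pow_pos (show (0 : ℝ) < 2 by norm_num) Q.primeFactors.card]
    have h4 : (1 : ℝ) ≤ EQ Q * ((Nat.totient Q : ℝ) / Q) := by
      refine h2.trans ?_
      gcongr
    have h5 : 0 ≤ e0 * Real.log T := by positivity
    calc e0 * Real.log T = 1 * (e0 * Real.log T) := by ring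
      _ ≤ (EQ Q * ((Nat.totient Q : ℝ) / Q)) * (e0 * Real.log T) := by gcongr
      _ = u * EQ Q := by rw [hu]; unfold uu; ring
  obtain ⟨v, hv0, hv⟩ : ∃ v : ℝ, 0 ≤ v ∧ v ^ 4 = u := by
    refine ⟨Real.sqrt (Real.sqrt u), Real.sqrt_nonneg _, ?_⟩
    have h1 : Real.sqrt (Real.sqrt u) ^ 2 = Real.sqrt u := Real.sq_sqrt (Real.sqrt_nonneg _)
    have h2 : Real.sqrt u ^ 2 = u := Real.sq_sqrt hu0
    calc Real.sqrt (Real.sqrt u) ^ 4 = (Real.sqrt (Real.sqrt u) ^ 2) ^ 2 := by ring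
      _ = u := by rw [h1, h2]
  have hEv : EQ Q ≤ v := by
    have : EQ Q ^ 4 ≤ v ^ 4 := by rw [hv]; exact hB
    exact le_of_pow_le_pow_left₀ (by norm_num) hv0 this
  have hv5 : e0 * Real.log T ≤ v ^ 5 := by
    calc e0 * Real.log T ≤ u * EQ Q := huE
      _ ≤ u * v := by gcongr
      _ = v ^ 5 := by rw [← hv]; ring
  have hVv : V ≤ v := le_of_pow_le_pow_left₀ (n := 5) (by norm_num) hv0 (hL'.trans hv5)
  have hv1 : 1 ≤ v := hV1.trans hVv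
  have hεv : 2 ≤ ε * v := by
    have h := hV2.trans hVv
    rw [div_le_iff₀ hε] at h; linarith
  constructor
  · rw [← hv]
    have h1 : 1 / ε ≤ v := by
      rw [div_le_iff₀ hε]; linarith
    calc 1 / ε ≤ v := h1
      _ = v ^ 1 := (pow_one v).symm
      _ ≤ v ^ 4 := pow_le_pow_right₀ hv1 (by norm_num)
  · -- sqrt bound
    have hs : Real.sqrt (Real.log T) ≤ ε / 2 * v ^ 3 := by
      rw [Real.sqrt_le_left (by positivity)]
      have h1 : Real.log T ≤ v ^ 5 / e0 := by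
        rw [le_div_iff₀ he0]; linarith
      refine h1.trans ?_
      rw [div_le_iff₀ he0]
      have h2 : 4 ≤ v * (e0 * ε ^ 2) := by
        have h := hV3.trans hVv
        rwa [div_le_iff₀ (by positivity)] at h
      have h3 : 0 ≤ v ^ 5 := by positivity
      nlinarith
    have h3 : 1 ≤ ε / 2 * v ^ 3 := by
      have h4 : 1 ≤ ε / 2 * v := by linarith
      have h5 : (1 : ℝ) ≤ v ^ 2 := one_le_pow₀ hv1
      nlinarith
    calc EQ Q * (1 + Real.sqrt (Real.log T)) ≤ v * (ε / 2 * v ^ 3 + ε / 2 * v ^ 3) := by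
          gcongr
      _ = ε * v ^ 4 := by ring
      _ = ε * u := by rw [hv]

end EG
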