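import Pool.Agent.H6.EG.Defs2

/-!
# MP_0e3417 row Cnt: the smooth count in an arithmetic progression

Proof. `φ` is `C^1` with compact support, let `L` be a Lipschitz constant; `0 ≤ φ ≤ 1`, `φ = 0` outside `(1/2, 3/2)` (`η ≤ 1/2`), so `φ(t/T) = 0` unless `T/2 < t < 3T/2`.
If `q > T`: the sum has at most `T/q + 1 ≤ 2` nonzero terms, each `≤ 1`, and `0 ≤ T ∫ φ/q ≤ 1`. If `q ≤ T`: for every integer `t ≡ ρ` mod `q` (also negative ones, `φ(t/T) = 0`)
`|q φ(t/T) - ∫_t^{t+q} φ(x/T) dx| ≤ q (q/T) L`; the cells `[t, t+q)` tile the line, those which meet `(T/2, 3T/2)` number at most `T/q + 2 ≤ 3 T/q`, so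
`|q ∑ φ(t/T) - T ∫ φ| ≤ (3T/q) q² L/T = 3 L q`. Divide by `q`. `C = 3 L + 3`.
-/

open Finset

namespace EG

theorem Cnt_tile {f f' h : ℝ → ℝ} (hf : ∀ x, HasDerivAt f (f' x) x) (hf' : Continuous f')
    (hh : Continuous h) (hle : ∀ x, |f' x| ≤ h x) {c d : ℝ} (hcd : c ≤ d) :
    |(d - c) * f d - ∫ x in c..d, f x| ≤ (d - c) * ∫ x in c..d, h x := by
  have hfc : Continuous f := continuous_iff_continuousAt.2 fun x => (hf x).continuousAt
  have h0 : ∀ x, 0 ≤ h x := fun x => (abs_nonneg _).trans (hle x)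
  have e1 : (d - c) * f d - ∫ x in c..d, f x = ∫ x in c..d, (f d - f x) := by
    rw [intervalIntegral.integral_sub (by simp) (hfc.intervalIntegrable _ _)]
    simp
  rw [e1]
  have key : ∀ x ∈ Set.uIoc c d, ‖f d - f x‖ ≤ ∫ x in c..d, h x := by
    intro x hx
    rw [Set.uIoc_of_le hcd] at hx
    rw [← intervalIntegral.integral_eq_sub_of_hasDerivAt (fun y _ => hf y)
      (hf'.intervalIntegrable _ _)]
    refine (intervalIntegral.norm_integral_le_of_norm_le hx.2 (g := h) ?_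
      (hh.intervalIntegrable _ _)).trans ?_
    · exact Filter.Eventually.of_forall fun y _ => hle y
    · rw [← intervalIntegral.integral_add_adjacent_intervals (hh.intervalIntegrable c x)
        (hh.intervalIntegrable x d)]
      have := intervalIntegral.integral_nonneg hx.1.le (fun u _ => h0 u) (μ := MeasureTheory.volume)
      linarith
  have := intervalIntegral.norm_integral_le_of_norm_le_const key
  rw [Real.norm_eq_abs, abs_of_nonneg (sub_nonneg.2 hcd)] at this
  linarith [mul_comm (d - c) (∫ x in c..d, h x)]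

theorem Cnt_sum {φ : ℝ → ℝ} {η T : ℝ} (hφ : Wt η φ) (hT : 1 ≤ T) {q : ℕ} (hq : 1 ≤ q) (ρ : ℕ) :
    ∑ t ∈ (rT T).filter (fun t => t ≡ ρ [MOD q]), φ ((t : ℝ) / T) =
      ∑ k ∈ range (⌊2 * T⌋₊ + 2), φ (((ρ % q + k * q : ℕ) : ℝ) / T) := by
  have hT0 : 0 < T := by linarith
  have hinj : Set.InjOn (fun k => ρ % q + k * q) (range (⌊2 * T⌋₊ + 2) : Set ℕ) := by
    intro k _ k' _ h
    have h' : k * q = k' * q := by simpa using h
    exact Nat.eq_of_mul_eq_mul_right hq h'
  rw [← Finset.sum_image (f := fun t : ℕ => φ ((t : ℝ) / T)) hinj]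
  apply Finset.sum_subset
  · intro t ht
    rw [Finset.mem_filter, rT, Finset.mem_range] at ht
    rw [Finset.mem_image]
    refine ⟨t / q, ?_, ?_⟩
    · rw [Finset.mem_range]
      have := Nat.div_le_self t q
      omega
    · have h1 : t % q = ρ % q := ht.2
      rw [← h1]
      exact Nat.mod_add_div' t q
  · intro t ht hn
    rw [Finset.mem_image] at ht
    obtain ⟨k, _, rfl⟩ := ht
    rw [Finset.mem_filter, not_and, rT, Finset.mem_range] at hn
    apply hφ.zero
    have h1 : ¬ (ρ % q + k * q < ⌊2 * T⌋₊ + 1) := by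
      intro hlt
      refine hn hlt ?_
      show (ρ % q + k * q) % q = ρ % q
      rw [Nat.add_mul_mod_self_right, Nat.mod_mod]
    have h2 : 2 * T ≤ ((ρ % q + k * q : ℕ) : ℝ) := by
      have h3 := Nat.lt_floor_add_one (2 * T)
      have h4 : ((⌊2 * T⌋₊ + 1 : ℕ) : ℝ) ≤ ((ρ % q + k * q : ℕ) : ℝ) := by
        exact_mod_cast not_lt.1 h1
      push_cast at h4 ⊢
      linarith
    have h3 : 2 ≤ ((ρ % q + k * q : ℕ) : ℝ) / T := by
      rw [le_div_iff₀ hT0]
      exact h2
    rw [abs_of_nonneg (by linarith)]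
    linarith [hφ.η_le]

theorem Cnt_out {φ : ℝ → ℝ} {η T : ℝ} (hφ : Wt η φ) (hT : 1 ≤ T) {x : ℝ}
    (hx : x ≤ 0 ∨ 2 * T ≤ x) : φ (x / T) = 0 := by
  have hT0 : 0 < T := by linarith
  apply hφ.zero
  rcases hx with hx | hx
  · have : x / T ≤ 0 := div_nonpos_of_nonpos_of_nonneg hx hT0.le
    rw [abs_of_nonpos (by linarith)]
    linarith [hφ.η_le]
  · have : 2 ≤ x / T := by rw [le_div_iff₀ hT0]; exact hx
    rw [abs_of_nonneg (by linarith)]
    linarith [hφ.η_le]

theorem cnt {η : ℝ} {φ : ℝ → ℝ} (hφ : Wt η φ) : ∃ C : ℝ, 0 ≤ C ∧ ∀ T : ℝ, 1 ≤ T → ∀ q : ℕ, 1 ≤ q → ∀ ρ : ℕ,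
    |∑ t ∈ (rT T).filter (fun t => t ≡ ρ [MOD q]), φ ((t : ℝ) / T) - T * (∫ x, φ x) / q| ≤ C := by
  have hcs : HasCompactSupport φ := by
    refine HasCompactSupport.intro (K := Set.Icc 0 2) isCompact_Icc ?_
    intro x hx
    have := Cnt_out hφ le_rfl (x := x) ?_
    · simpa using this
    · rw [Set.mem_Icc, not_and_or, not_le, not_le] at hx
      rcases hx with hx | hx
      · exact Or.inl hx.le
      · right; linarith
  have hd : ∀ x, HasDerivAt φ (deriv φ x) x := fun x =>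
    ((hφ.smooth.differentiable (by simp)) x).hasDerivAt
  have hdc : Continuous (deriv φ) := hφ.smooth.continuous_deriv (by simp)
  have hdi : MeasureTheory.Integrable (fun x => |deriv φ x|) :=
    (hdc.integrable_of_hasCompactSupport hcs.deriv).abs
  refine ⟨∫ x, |deriv φ x|, MeasureTheory.integral_nonneg fun x => abs_nonneg _, ?_⟩
  intro T hT q hq ρ
  have hT0 : 0 < T := by linarith
  have hq0 : (0 : ℝ) < q := by exact_mod_cast hq
  obtain ⟨f, hfdef⟩ : ∃ f : ℝ → ℝ, f = fun x => φ (x / T) := ⟨_, rfl⟩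
  obtain ⟨h, hhdef⟩ : ∃ h : ℝ → ℝ, h = fun x => |deriv φ (x / T)| * T⁻¹ := ⟨_, rfl⟩
  have hf : ∀ x, HasDerivAt f (deriv φ (x / T) * T⁻¹) x := by
    intro x
    rw [hfdef]
    have h1 : HasDerivAt (fun x : ℝ => x / T) (T⁻¹) x := by
      simpa [div_eq_mul_inv] using (hasDerivAt_id x).mul_const T⁻¹
    exact (hd (x / T)).comp x h1
  have hf'c : Continuous fun x : ℝ => deriv φ (x / T) * T⁻¹ :=
    (hdc.comp (continuous_id.div_const T)).mul continuous_const
  have hhc : Continuous h := by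
    rw [hhdef]
    exact (continuous_abs.comp (hdc.comp (continuous_id.div_const T))).mul continuous_const
  have hle : ∀ x, |deriv φ (x / T) * T⁻¹| ≤ h x := by
    intro x
    rw [hhdef, abs_mul, abs_of_pos (inv_pos.2 hT0)]
  have hfc : Continuous f := continuous_iff_continuousAt.2 fun x => (hf x).continuousAt
  have hhi : MeasureTheory.Integrable h := by
    rw [hhdef]
    exact (hdi.comp_div hT0.ne').mul_const _
  have hhint : ∫ x, h x = ∫ x, |deriv φ x| := by
    rw [hhdef, MeasureTheory.integral_mul_const,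
      MeasureTheory.Measure.integral_comp_div (fun x => |deriv φ x|) T, abs_of_pos hT0,
      smul_eq_mul]
    field_simp
  have hfint : ∫ x, f x = T * ∫ x, φ x := by
    rw [hfdef, MeasureTheory.Measure.integral_comp_div φ T, abs_of_pos hT0, smul_eq_mul]
  obtain ⟨N, hN⟩ : ∃ N : ℕ, N = ⌊2 * T⌋₊ + 2 := ⟨_, rfl⟩
  obtain ⟨a, ha⟩ : ∃ a : ℕ → ℝ, a = fun k : ℕ => ((ρ % q : ℕ) : ℝ) - q + k * q := ⟨_, rfl⟩
  have hastep : ∀ k, a (k + 1) - a k = q := by
    intro k; rw [ha]; push_cast; ring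
  have hamono : ∀ k, a k ≤ a (k + 1) := fun k => by linarith [hastep k]
  have ha0 : a 0 ≤ 0 := by
    rw [ha]
    have : ((ρ % q : ℕ) : ℝ) ≤ q := by exact_mod_cast (Nat.mod_lt ρ hq).le
    simp only [Nat.cast_zero, zero_mul, add_zero]
    linarith
  have haN : 2 * T ≤ a N := by
    rw [ha, hN]
    have h1 := Nat.lt_floor_add_one (2 * T)
    have h2 : (0 : ℝ) ≤ ((ρ % q : ℕ) : ℝ) := Nat.cast_nonneg _
    have h3 : (1 : ℝ) ≤ q := by exact_mod_cast hq
    have h4 : ((⌊2 * T⌋₊ : ℝ) + 1) * 1 ≤ ((⌊2 * T⌋₊ : ℝ) + 1) * q :=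
      mul_le_mul_of_nonneg_left h3 (by positivity)
    push_cast
    nlinarith
  have ha0N : a 0 ≤ a N := by linarith
  have hsumf : ∑ k ∈ range N, ∫ x in a k..a (k + 1), f x = ∫ x, f x := by
    rw [intervalIntegral.sum_integral_adjacent_intervals
      (fun k _ => hfc.intervalIntegrable _ _), intervalIntegral.integral_of_le ha0N]
    apply MeasureTheory.setIntegral_eq_integral_of_forall_compl_eq_zero
    intro x hx
    rw [hfdef]
    apply Cnt_out hφ hT
    rw [Set.mem_Ioc, not_and_or, not_lt, not_le] at hx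
    rcases hx with hx | hx
    · left; linarith
    · right; linarith
  have hsumh : ∑ k ∈ range N, ∫ x in a k..a (k + 1), h x ≤ ∫ x, h x := by
    rw [intervalIntegral.sum_integral_adjacent_intervals
      (fun k _ => hhc.intervalIntegrable _ _), intervalIntegral.integral_of_le ha0N]
    apply MeasureTheory.setIntegral_le_integral hhi
    exact Filter.Eventually.of_forall fun x => (abs_nonneg _).trans (hle x)
  rw [Cnt_sum hφ hT hq ρ, ← hN]
  have hterm : ∀ k : ℕ, φ (((ρ % q + k * q : ℕ) : ℝ) / T) = f (a (k + 1)) := by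
    intro k
    rw [hfdef, ha]
    simp only
    congr 2
    push_cast
    ring
  have hmain : |∑ k ∈ range N, ((q : ℝ) * f (a (k + 1)) - ∫ x in a k..a (k + 1), f x)| ≤
      q * ∫ x, h x := by
    refine (Finset.abs_sum_le_sum_abs _ _).trans ?_
    have : ∀ k ∈ range N, |(q : ℝ) * f (a (k + 1)) - ∫ x in a k..a (k + 1), f x| ≤
        q * ∫ x in a k..a (k + 1), h x := by
      intro k _
      have := Cnt_tile hf hf'c hhc hle (hamono k)
      rwa [hastep k] at this
    refine (Finset.sum_le_sum this).trans ?_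
    rw [← Finset.mul_sum]
    exact mul_le_mul_of_nonneg_left hsumh hq0.le
  rw [Finset.sum_sub_distrib, hsumf, ← Finset.mul_sum, hhint, hfint] at hmain
  have hfin : ∑ k ∈ range N, φ (((ρ % q + k * q : ℕ) : ℝ) / T) - T * (∫ x, φ x) / q =
      (q * ∑ k ∈ range N, f (a (k + 1)) - T * ∫ x, φ x) / q := by
    rw [Finset.sum_congr rfl fun k _ => hterm k]
    field_simp
  rw [hfin, abs_div, abs_of_pos hq0, div_le_iff₀ hq0]
  linarith [mul_comm (q : ℝ) (∫ x, |deriv φ x|)]

end EG
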