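import Pool.Agent.H6.EG.Defs2
import Pool.Agent.H6.EG.LamB

/-!
# MP_0e3417 row AbsJ: the sums of the absolute values of the coefficients

Proof. `|la n d| ≤ (4/v0)(1 + log z_n)³ ≤ (4/v0)(1 + log T)³` (`lam_crude` with `g = 1/v_n ≤ 1/v0`; `z_n ≤ T` since `e0 ≤ 1` and `v_n ≤ 1` for `n = n i`, `n ∈ AS`). `la_abs`: `∑_{d ∈ sq Q z_n} |la| ≤ z_n (4/v0)(1 + log T)³ ≤ T^(e0 v_n) ..`.
`i ∉ J`: `lcf_abs`: `∑ |fA| ≤ T^(e0 (v_{n i} + v_{n' i})) ((4/v0)(1 + log T)³)²`. `i ∈ J`: `∑ |fJ| ≤ ((4/v0)(1 + log T)³)² (∑_{d ≤ R} 1)² ≤ (..)² T^(2r)` (`lam_sel_le`). Multiply; `∑_i v_{n i} ≤ 1`, `∑_i v_{n' i} ≤ 1`.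
-/

open Finset

namespace EG

private theorem AbsJ_vv {v0 : ℝ} (hv0 : 0 < v0) (n : ℕ) : v0 ≤ vv v0 n := by
  unfold vv
  have h : (1 : ℝ) ≤ 2 ^ n := one_le_pow₀ (by norm_num)
  nlinarith

private theorem AbsJ_C {v0 : ℝ} (hv0 : 0 < v0) {T : ℝ} (hT : 1 ≤ T) : 0 ≤ 4 / v0 * (1 + Real.log T) ^ 3 := by
  have := Real.log_nonneg hT
  positivity

theorem la_abs {e0 v0 : ℝ} (he0 : 0 < e0) (he1 : e0 ≤ 1) (hv0 : 0 < v0) {T : ℝ} (hT : 1 ≤ T) (Q n : ℕ) (hn : vv v0 n ≤ 1) :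
    (∀ d, |la e0 v0 T Q n d| ≤ 4 / v0 * (1 + Real.log T) ^ 3) ∧
    ∑ d ∈ sq Q (zz e0 v0 T n), |la e0 v0 T Q n d| ≤ T ^ (e0 * vv v0 n) * (4 / v0 * (1 + Real.log T) ^ 3) := by
  have hv := AbsJ_vv hv0 n
  have hvp : 0 < vv v0 n := hv0.trans_le hv
  have hTp : 0 < T := by linarith
  have hlT := Real.log_nonneg hT
  have hpow : 1 ≤ T ^ (e0 * vv v0 n) := Real.one_le_rpow hT (by positivity)
  have hz : 1 ≤ zz e0 v0 T n := by
    unfold zz
    exact Nat.le_floor (by exact_mod_cast hpow)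
  have hz' : (zz e0 v0 T n : ℝ) ≤ T ^ (e0 * vv v0 n) := by
    unfold zz
    exact Nat.floor_le (by positivity)
  have hzp : (0 : ℝ) < zz e0 v0 T n := by exact_mod_cast hz
  have hlz : Real.log (zz e0 v0 T n) ≤ Real.log T := by
    refine (Real.log_le_log hzp hz').trans ?_
    rw [Real.log_rpow hTp]
    have h1 : e0 * vv v0 n ≤ 1 := by nlinarith
    nlinarith
  have hlz0 : 0 ≤ Real.log (zz e0 v0 T n) := Real.log_natCast_nonneg _
  have hy : ∀ r, |ya e0 v0 T n r| ≤ v0⁻¹ := by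
    intro r
    unfold ya
    split_ifs
    · rw [abs_of_pos (inv_pos.2 hvp)]
      exact inv_anti₀ hv0 hv
    · rw [abs_zero]
      positivity
  have hb : ∀ d, |la e0 v0 T Q n d| ≤ 4 / v0 * (1 + Real.log T) ^ 3 := by
    intro d
    unfold la
    refine (lam_crude Q _ hz hy d).trans ?_
    rw [div_eq_mul_inv]
    refine mul_le_mul_of_nonneg_left ?_ (by positivity)
    exact pow_le_pow_left₀ (by positivity) (by linarith) 3
  refine ⟨hb, ?_⟩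
  have hC := AbsJ_C hv0 hT
  have hcard : ((sq Q (zz e0 v0 T n)).card : ℝ) ≤ T ^ (e0 * vv v0 n) := by
    refine le_trans ?_ hz'
    have h1 : (sq Q (zz e0 v0 T n)).card ≤ zz e0 v0 T n := by
      unfold sq
      refine (card_filter_le _ _).trans ?_
      simp
    exact_mod_cast h1
  calc ∑ d ∈ sq Q (zz e0 v0 T n), |la e0 v0 T Q n d|
      ≤ ∑ _d ∈ sq Q (zz e0 v0 T n), 4 / v0 * (1 + Real.log T) ^ 3 := sum_le_sum fun d _ => hb d
    _ = ((sq Q (zz e0 v0 T n)).card : ℝ) * (4 / v0 * (1 + Real.log T) ^ 3) := by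
        rw [sum_const, nsmul_eq_mul]
    _ ≤ _ := mul_le_mul_of_nonneg_right hcard hC

private theorem AbsJ_R {r : ℝ} (hr : 0 < r) {T : ℝ} (hT : 1 ≤ T) (Q : ℕ) :
    ∑ B ∈ DB Q (Rr r T), |fB Q (Rr r T) B| ≤ T ^ (2 * r) := by
  have hTp : 0 < T := by linarith
  have hpow : 1 ≤ T ^ r := Real.one_le_rpow hT hr.le
  have hz : 1 ≤ Rr r T := by
    unfold Rr
    exact Nat.le_floor (by exact_mod_cast hpow)
  have hz' : (Rr r T : ℝ) ≤ T ^ r := by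
    unfold Rr
    exact Nat.floor_le (by positivity)
  have h1 : ∑ d ∈ sq Q (Rr r T), |lb Q (Rr r T) d| ≤ T ^ r := by
    calc ∑ d ∈ sq Q (Rr r T), |lb Q (Rr r T) d|
        ≤ ∑ _d ∈ sq Q (Rr r T), (1 : ℝ) := sum_le_sum fun d _ => lam_sel_le Q _ hz d
      _ = ((sq Q (Rr r T)).card : ℝ) := by rw [sum_const, nsmul_eq_mul, mul_one]
      _ ≤ Rr r T := by
          have h1 : (sq Q (Rr r T)).card ≤ Rr r T := by
            unfold sq
            refine (card_filter_le _ _).trans ?_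
            simp
          exact_mod_cast h1
      _ ≤ _ := hz'
  have h0 : 0 ≤ ∑ d ∈ sq Q (Rr r T), |lb Q (Rr r T) d| := sum_nonneg fun _ _ => abs_nonneg _
  unfold DB fB
  refine (lcf_abs _ _ _ _).trans ?_
  have h2 : T ^ (2 * r) = T ^ r * T ^ r := by
    rw [← Real.rpow_add hTp]
    congr 1
    ring
  rw [h2]
  exact mul_le_mul h1 h1 h0 (by positivity)

theorem absJ {e0 v0 r : ℝ} (he0 : 0 < e0) (he1 : e0 ≤ 1) (hv0 : 0 < v0) (hr : 0 < r) (m : ℕ) (ι : Type) [Fintype ι] [DecidableEq ι]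
    (Q : ℕ) {T : ℝ} (hT : 1 ≤ T) (J : Finset ι) {n n' : ι → ℕ} (hn : n ∈ AS ι v0 m) (hn' : n' ∈ AS ι v0 m) :
    ∏ i, ∑ B ∈ DJ e0 v0 T Q (Rr r T) J n n' i, |fJ e0 v0 T Q (Rr r T) J n n' i B| ≤
      (4 / v0 * (1 + Real.log T) ^ 3) ^ (2 * Fintype.card ι) * T ^ (2 * e0 + 2 * r * J.card) := by
  have hTp : 0 < T := by linarith
  have hC := AbsJ_C hv0 hT
  set C : ℝ := 4 / v0 * (1 + Real.log T) ^ 3 with hCdef
  have hvp : ∀ k, 0 < vv v0 k := fun k => hv0.trans_le (AbsJ_vv hv0 k)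
  have hs : ∀ {n : ι → ℕ}, n ∈ AS ι v0 m → ∑ i, vv v0 (n i) ≤ 1 := by
    intro n hn
    unfold AS at hn
    exact (mem_filter.1 hn).2
  have hle : ∀ {n : ι → ℕ}, n ∈ AS ι v0 m → ∀ i, vv v0 (n i) ≤ 1 := by
    intro n hn i
    exact (single_le_sum (f := fun i => vv v0 (n i)) (fun j _ => (hvp _).le) (mem_univ i)).trans (hs hn)
  have key : ∀ i, ∑ B ∈ DJ e0 v0 T Q (Rr r T) J n n' i, |fJ e0 v0 T Q (Rr r T) J n n' i B| ≤
      C ^ 2 * (T ^ (e0 * (vv v0 (n i) + vv v0 (n' i))) * T ^ (if i ∈ J then 2 * r else 0)) := by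
    intro i
    obtain ⟨a1, a2⟩ := la_abs he0 he1 hv0 hT Q (n i) (hle hn i)
    obtain ⟨b1, b2⟩ := la_abs he0 he1 hv0 hT Q (n' i) (hle hn' i)
    rw [← hCdef] at a1 a2 b1 b2
    have hT1 : 1 ≤ T ^ (e0 * (vv v0 (n i) + vv v0 (n' i))) :=
      Real.one_le_rpow hT (mul_nonneg he0.le (add_nonneg (hvp _).le (hvp _).le))
    unfold DJ fJ
    by_cases hi : i ∈ J
    · rw [if_pos hi, if_pos hi, if_pos hi]
      have h1 : ∑ B ∈ DB Q (Rr r T), |la e0 v0 T Q (n i) 1 * la e0 v0 T Q (n' i) 1 * fB Q (Rr r T) B| =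
          |la e0 v0 T Q (n i) 1| * |la e0 v0 T Q (n' i) 1| * ∑ B ∈ DB Q (Rr r T), |fB Q (Rr r T) B| := by
        rw [mul_sum]
        refine sum_congr rfl fun B _ => ?_
        rw [abs_mul, abs_mul]
      rw [h1]
      have h2 := AbsJ_R hr hT Q
      have h3 : |la e0 v0 T Q (n i) 1| * |la e0 v0 T Q (n' i) 1| ≤ C ^ 2 := by
        rw [pow_two C]
        exact mul_le_mul (a1 1) (b1 1) (abs_nonneg _) hC
      have h4 : (0 : ℝ) ≤ ∑ B ∈ DB Q (Rr r T), |fB Q (Rr r T) B| := sum_nonneg fun _ _ => abs_nonneg _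
      refine mul_le_mul h3 (h2.trans ?_) h4 (by positivity)
      exact le_mul_of_one_le_left (by positivity) hT1
    · rw [if_neg hi, if_neg hi, if_neg hi, Real.rpow_zero, mul_one]
      unfold DA fA
      refine (lcf_abs _ _ _ _).trans ?_
      have h0 : 0 ≤ ∑ d ∈ sq Q (zz e0 v0 T (n' i)), |la e0 v0 T Q (n' i) d| := sum_nonneg fun _ _ => abs_nonneg _
      refine (mul_le_mul a2 b2 h0 (by positivity)).trans (le_of_eq ?_)
      rw [mul_add, Real.rpow_add hTp]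
      ring
  refine (prod_le_prod (fun i _ => sum_nonneg fun _ _ => abs_nonneg _) fun i _ => key i).trans ?_
  rw [prod_mul_distrib, prod_mul_distrib, prod_const, card_univ, ← pow_mul, ← Real.rpow_sum_of_pos hTp,
    ← Real.rpow_sum_of_pos hTp, ← Real.rpow_add hTp]
  refine mul_le_mul_of_nonneg_left (Real.rpow_le_rpow_of_exponent_le hT ?_) (by positivity)
  have h1 : ∑ i, e0 * (vv v0 (n i) + vv v0 (n' i)) = e0 * (∑ i, vv v0 (n i) + ∑ i, vv v0 (n' i)) := by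
    rw [← mul_sum, sum_add_distrib]
  have h2 : ∑ i, (if i ∈ J then 2 * r else 0) = 2 * r * J.card := by
    rw [← sum_filter, filter_mem_eq_inter, univ_inter, sum_const, nsmul_eq_mul]
    ring
  rw [h1, h2]
  have := hs hn
  have := hs hn'
  nlinarith

end EG
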