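import Pool.Agent.H6.EG.Defs
import Pool.Agent.H17.BV.Cor

/-!
# MP_0e3417: TARGET of the Bombieri-Vinogradov part

Smooth weights, level `x^(1/2-ε)`, saving of any power of the logarithm with divisor weights `C^ω(q)`. The statement allows
to leave out the moduli divisible by one prime `P = P(x) > w0`; `BVL.bv_smooth` (Pool/Agent/H17/BV/Cor.lean) needs no such
exception (Siegel's theorem is proved there), so `P` is just a fixed prime here.
-/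

open Finset H69LB

namespace EG

theorem bv {ε : ℝ} (hε : 0 < ε) (A C : ℝ) (w0 : ℕ) : ∃ (B : ℝ) (P : ℝ → ℕ), (∀ x, (P x).Prime ∧ w0 < P x) ∧
    ∀ (M : ℝ) (W : ℝ → ℝ), 0 < M → WS M W → ∃ x0 : ℝ, ∀ x, x0 ≤ x → ((P x : ℕ) : ℝ) ≤ Real.log x ^ B ∧
      ∃ E : ℕ → ℝ, (∀ q, 0 ≤ E q) ∧
      (∀ q : ℕ, 1 ≤ q → (q : ℝ) ≤ x ^ (1 / 2 - ε) → ¬ P x ∣ q → ∀ a : ℕ, Nat.Coprime a q →
        |∑ n ∈ (Icc 1 (NN M x)).filter (fun n => n ≡ a [MOD q]),
            ArithmeticFunction.vonMangoldt n * W (Real.log (n / x)) -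
          x * (∫ η, W η * Real.exp η) / (Nat.totient q : ℝ)| ≤ E q) ∧
      ∑ q ∈ (Icc 1 ⌊x ^ (1 / 2 - ε)⌋₊).filter (fun q => ¬ P x ∣ q), C ^ q.primeFactors.card * E q ≤
        x / Real.log x ^ A := by
  obtain ⟨p, hp1, hp⟩ := Nat.exists_infinite_primes (w0 + 1)
  refine ⟨1, fun _ => p, fun _ => ⟨hp, hp1⟩, fun M W hM hW => ?_⟩
  obtain ⟨x0, hx0⟩ := BVL.bv_smooth hM hW hε A C
  refine ⟨max x0 (Real.exp p), fun x hx => ?_⟩
  obtain ⟨E, hE0, hE1, hE2⟩ := hx0 x ((le_max_left _ _).trans hx)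
  have hxp : Real.exp p ≤ x := (le_max_right _ _).trans hx
  have hx1 : 0 < x := lt_of_lt_of_le (Real.exp_pos _) hxp
  refine ⟨?_, E, hE0, fun q h1 h2 _ a ha => hE1 q h1 h2 a ha, ?_⟩
  · rw [Real.rpow_one, Real.le_log_iff_exp_le hx1]
    exact hxp
  · refine le_trans ?_ hE2
    calc ∑ q ∈ (Icc 1 ⌊x ^ (1 / 2 - ε)⌋₊).filter (fun q => ¬ p ∣ q), C ^ q.primeFactors.card * E q
        ≤ ∑ q ∈ (Icc 1 ⌊x ^ (1 / 2 - ε)⌋₊).filter (fun q => ¬ p ∣ q), |C| ^ q.primeFactors.card * E q := by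
          refine Finset.sum_le_sum fun q _ => mul_le_mul_of_nonneg_right ?_ (hE0 q)
          rw [← abs_pow]
          exact le_abs_self _
      _ ≤ ∑ q ∈ Icc 1 ⌊x ^ (1 / 2 - ε)⌋₊, |C| ^ q.primeFactors.card * E q := by
          refine Finset.sum_le_sum_of_subset_of_nonneg (Finset.filter_subset _ _) fun q _ _ => ?_
          exact mul_nonneg (by positivity) (hE0 q)

end EG
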