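import Pool.Agent.H6.EG.Defs2

/-!
# MP_0e3417 row E2n: counting tuples with a given product

`lcf_bd`: if `lcf S S' f f' B` has at least one pair `(d, d')` with `lcm d d' = B`, then `B` is squarefree (`good_lcD`), and there are at most `(2^ω(B))²` such pairs (both divide `B`).
`tup`: `∏_i 4^ω(B i) = 4^ω(∏ B i)` for pairwise coprime `B i` (squarefree). Group the tuples by `q = ∏ B i ∈ 𝒬`; `q` is squarefree and every `B i` divides `q`, so there are at most `(2^ω(q))^K` tuples, `K = card ι`.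
So the sum is at most `∑_{q ∈ 𝒬} 2^(K ω(q)) 4^ω(q) X(q)`.
-/

open Finset

namespace EG

theorem E2n_inj {a b : ℕ} (ha : Squarefree a) (hb : Squarefree b) (h : a.primeFactors = b.primeFactors) : a = b := by
  rw [← Nat.prod_primeFactors_of_squarefree ha, ← Nat.prod_primeFactors_of_squarefree hb, h]

theorem E2n_card {Q : ℕ} {S S' : Finset ℕ} (hS : Good Q S) (hS' : Good Q S') (B : ℕ) :
    ((S ×ˢ S').filter (fun p => Nat.lcm p.1 p.2 = B)).card ≤ 4 ^ B.primeFactors.card := by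
  have h4 : (4 : ℕ) ^ B.primeFactors.card = (B.primeFactors.powerset ×ˢ B.primeFactors.powerset).card := by
    rw [card_product, card_powerset, ← mul_pow]; norm_num
  rw [h4]
  apply Finset.card_le_card_of_injOn (fun p => (p.1.primeFactors, p.2.primeFactors))
  · intro p hp
    have hp' := mem_filter.1 (mem_coe.1 hp)
    have h1 := mem_product.1 hp'.1
    have hd : p.1 ≠ 0 := (hS p.1 h1.1).1.ne_zero
    have hd' : p.2 ≠ 0 := (hS' p.2 h1.2).1.ne_zero
    have hB : B ≠ 0 := by rw [← hp'.2]; exact Nat.lcm_ne_zero hd hd'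
    rw [mem_coe, mem_product, mem_powerset, mem_powerset]
    refine ⟨Nat.primeFactors_mono ?_ hB, Nat.primeFactors_mono ?_ hB⟩
    · rw [← hp'.2]; exact Nat.dvd_lcm_left _ _
    · rw [← hp'.2]; exact Nat.dvd_lcm_right _ _
  · intro p hp p' hp' h
    have h1 := mem_product.1 (mem_filter.1 (mem_coe.1 hp)).1
    have h2 := mem_product.1 (mem_filter.1 (mem_coe.1 hp')).1
    have e := Prod.mk.inj h
    exact Prod.ext (E2n_inj (hS _ h1.1).1 (hS _ h2.1).1 e.1) (E2n_inj (hS' _ h1.2).1 (hS' _ h2.2).1 e.2)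

theorem lcf_bd {Q : ℕ} {S S' : Finset ℕ} (hS : Good Q S) (hS' : Good Q S') {f f' : ℕ → ℝ} {F F' : ℝ} (hf : ∀ d, |f d| ≤ F)
    (hf' : ∀ d, |f' d| ≤ F') (B : ℕ) : |lcf S S' f f' B| ≤ 4 ^ B.primeFactors.card * (F * F') := by
  have hF : 0 ≤ F := (abs_nonneg _).trans (hf 0)
  have hF' : 0 ≤ F' := (abs_nonneg _).trans (hf' 0)
  unfold lcf
  refine (Finset.abs_sum_le_sum_abs _ _).trans ?_
  have h1 : ∀ p ∈ (S ×ˢ S').filter (fun p => Nat.lcm p.1 p.2 = B), |f p.1 * f' p.2| ≤ F * F' := by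
    intro p _
    rw [abs_mul]
    exact mul_le_mul (hf _) (hf' _) (abs_nonneg _) hF
  refine (Finset.sum_le_sum h1).trans ?_
  rw [Finset.sum_const, nsmul_eq_mul]
  refine mul_le_mul_of_nonneg_right ?_ (mul_nonneg hF hF')
  exact_mod_cast E2n_card hS hS' B

theorem E2n_omega {ι : Type} [Fintype ι] {B : ι → ℕ} (hs : ∀ i, Squarefree (B i))
    (hc : ∀ i j, i ≠ j → Nat.Coprime (B i) (B j)) :
    ∏ i, (4 : ℝ) ^ (B i).primeFactors.card ≤ 4 ^ (∏ i, B i).primeFactors.card := by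
  classical
  rw [Finset.prod_pow_eq_pow_sum]
  apply pow_le_pow_right₀ (by norm_num)
  rw [← Finset.card_biUnion]
  · apply Finset.card_le_card
    intro p hp
    rw [mem_biUnion] at hp
    obtain ⟨i, _, hi⟩ := hp
    have h1 := Nat.primeFactors_mono (Finset.dvd_prod_of_mem B (mem_univ i))
      (Finset.prod_ne_zero_iff.2 fun j _ => (hs j).ne_zero)
    exact h1 hi
  · intro i _ j _ hij
    exact (hc i j hij).disjoint_primeFactors

theorem E2n_fib {ι : Type} [Fintype ι] [DecidableEq ι] {Q : ℕ} {D : ι → Finset ℕ} (hD : ∀ i, Good Q (D i)) (q : ℕ) :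
    (((Fintype.piFinset D).filter (fun B => ∀ i j, i ≠ j → Nat.Coprime (B i) (B j))).filter
      (fun B => ∏ i, B i = q)).card ≤ (2 ^ q.primeFactors.card) ^ Fintype.card ι := by
  have h4 : (2 ^ q.primeFactors.card) ^ Fintype.card ι =
      (Fintype.piFinset (fun _ : ι => q.primeFactors.powerset)).card := by
    rw [Fintype.card_piFinset]
    simp
  rw [h4]
  apply Finset.card_le_card_of_injOn (fun B i => (B i).primeFactors)
  · intro B hB
    have h1 := mem_filter.1 (mem_coe.1 hB)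
    have h2 := Fintype.mem_piFinset.1 (mem_filter.1 h1.1).1
    rw [mem_coe, Fintype.mem_piFinset]
    intro i
    rw [mem_powerset, ← h1.2]
    exact Nat.primeFactors_mono (Finset.dvd_prod_of_mem B (mem_univ i))
      (Finset.prod_ne_zero_iff.2 fun j _ => (hD j _ (h2 j)).1.ne_zero)
  · intro B hB B' hB' h
    have h1 := Fintype.mem_piFinset.1 (mem_filter.1 (mem_filter.1 (mem_coe.1 hB)).1).1
    have h2 := Fintype.mem_piFinset.1 (mem_filter.1 (mem_filter.1 (mem_coe.1 hB')).1).1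
    funext i
    exact E2n_inj (hD i _ (h1 i)).1 (hD i _ (h2 i)).1 (congrFun h i)

theorem tup {ι : Type} [Fintype ι] [DecidableEq ι] {Q : ℕ} {D : ι → Finset ℕ} (hD : ∀ i, Good Q (D i)) {X : ℕ → ℝ} (hX : ∀ q, 0 ≤ X q)
    {𝒬 : Finset ℕ} (hQ : ∀ B ∈ Fintype.piFinset D, (∀ i j, i ≠ j → Nat.Coprime (B i) (B j)) → ∏ i, B i ∈ 𝒬) :
    ∑ B ∈ (Fintype.piFinset D).filter (fun B => ∀ i j, i ≠ j → Nat.Coprime (B i) (B j)),
        (∏ i, (4 : ℝ) ^ (B i).primeFactors.card) * X (∏ i, B i) ≤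
      ∑ q ∈ 𝒬, ((2 : ℝ) ^ (Fintype.card ι + 2)) ^ q.primeFactors.card * X q := by
  rw [← Finset.sum_fiberwise_of_maps_to (t := 𝒬) (g := fun B => ∏ i, B i)
    (fun B hB => hQ B (mem_filter.1 hB).1 (mem_filter.1 hB).2)]
  refine Finset.sum_le_sum fun q _ => ?_
  have h1 : ∀ B ∈ ((Fintype.piFinset D).filter (fun B => ∀ i j, i ≠ j → Nat.Coprime (B i) (B j))).filter
      (fun B => ∏ i, B i = q), (∏ i, (4 : ℝ) ^ (B i).primeFactors.card) * X (∏ i, B i) ≤
        4 ^ q.primeFactors.card * X q := by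
    intro B hB
    have h2 := mem_filter.1 hB
    have h3 := mem_filter.1 h2.1
    have h4 := Fintype.mem_piFinset.1 h3.1
    have h5 := E2n_omega (fun i => (hD i _ (h4 i)).1) h3.2
    rw [h2.2] at h5
    rw [h2.2]
    exact mul_le_mul_of_nonneg_right h5 (hX q)
  refine (Finset.sum_le_sum h1).trans ?_
  rw [Finset.sum_const, nsmul_eq_mul, ← mul_assoc]
  refine mul_le_mul_of_nonneg_right ?_ (hX q)
  have h6 : (((((Fintype.piFinset D).filter (fun B => ∀ i j, i ≠ j → Nat.Coprime (B i) (B j))).filter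
      (fun B => ∏ i, B i = q)).card : ℕ) : ℝ) ≤ ((2 : ℝ) ^ q.primeFactors.card) ^ Fintype.card ι := by
    exact_mod_cast E2n_fib hD q
  calc _ ≤ ((2 : ℝ) ^ q.primeFactors.card) ^ Fintype.card ι * 4 ^ q.primeFactors.card :=
        mul_le_mul_of_nonneg_right h6 (by positivity)
    _ = ((2 : ℝ) ^ (Fintype.card ι + 2)) ^ q.primeFactors.card := by
        rw [show (4 : ℝ) = 2 ^ 2 by norm_num, ← pow_mul, ← pow_mul, ← pow_mul, ← pow_add]
        congr 1
        ring

end EG
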