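import Pool.Agent.H6.EG.Defs2

/-!
# MP_0e3417 row Mtx: expansion of a product of divisor sums over linear forms

`mtx`: expand the product of the sums `Fn` (`Finset.prod_univ_sum`), exchange with the sum over `t`. A tuple `B` which is not pairwise coprime gives nothing: if a prime `p` divides `B i` and `B j` and
`B i ∣ a_i t + b_i`, `B j ∣ a_j t + b_j`, then `p` divides `a_i (a_j t + b_j) - a_j (a_i t + b_i) = a_i b_j - a_j b_i`, so `p ∣ Q`, but `B i` is coprime to `Q`.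
`crtB`: `a_i` is invertible mod `B i` (primes of `a_i` divide `Q`), so `B i ∣ a_i t + b_i` iff `t ≡ ρ_i` mod `B i`; Chinese remainder theorem (`B` pairwise coprime, finitely many).
-/

open Finset

namespace EG

theorem Mtx_ex {ι : Type} [Fintype ι] [DecidableEq ι] (a b : ι → ℕ) (D : ι → Finset ℕ)
    (f : ι → ℕ → ℝ) (t : ℕ) :
    ∏ i, Fn (D i) (f i) (a i * t + b i) = ∑ B ∈ Fintype.piFinset D,
      (∏ i, f i (B i)) * (if ∀ i, B i ∣ a i * t + b i then 1 else 0) := by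
  have h1 : ∀ i, Fn (D i) (f i) (a i * t + b i) =
      ∑ B ∈ D i, (if B ∣ a i * t + b i then f i B else 0) := by
    intro i
    rw [Fn, sum_filter]
  rw [prod_congr rfl (fun i _ => h1 i), prod_univ_sum]
  refine sum_congr rfl fun B _ => ?_
  by_cases h : ∀ i, B i ∣ a i * t + b i
  · rw [if_pos h, mul_one]
    exact prod_congr rfl fun i _ => if_pos (h i)
  · rw [if_neg h, mul_zero]
    push Not at h
    obtain ⟨i, hi⟩ := h
    exact prod_eq_zero (mem_univ i) (if_neg hi)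

theorem Mtx_cop {ι : Type} {Q : ℕ} {a b : ι → ℕ} (hF : Forms Q a b) {B : ι → ℕ}
    (hB : ∀ i, Nat.Coprime (B i) Q) {t : ℕ} (ht : ∀ i, B i ∣ a i * t + b i) {i j : ι}
    (hij : i ≠ j) : Nat.Coprime (B i) (B j) := by
  by_contra hc
  rw [Nat.Prime.not_coprime_iff_dvd] at hc
  obtain ⟨p, hp, h1, h2⟩ := hc
  have h3 : (p : ℤ) ∣ (a i : ℤ) * t + b i := by
    have := h1.trans (ht i)
    exact_mod_cast this
  have h4 : (p : ℤ) ∣ (a j : ℤ) * t + b j := by
    have := h2.trans (ht j)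
    exact_mod_cast this
  have h5 : (p : ℤ) ∣ (a i : ℤ) * b j - (a j : ℤ) * b i := by
    have e : (a i : ℤ) * b j - (a j : ℤ) * b i =
        (a i : ℤ) * ((a j : ℤ) * t + b j) - (a j : ℤ) * ((a i : ℤ) * t + b i) := by ring
    rw [e]
    exact dvd_sub (h4.mul_left _) (h3.mul_left _)
  have h6 := hF.diff i j hij p hp h5
  have h7 : p ∣ Nat.gcd (B i) Q := Nat.dvd_gcd h1 h6
  rw [Nat.Coprime.gcd_eq_one (hB i)] at h7
  exact hp.one_lt.ne' (Nat.dvd_one.1 h7)

theorem mtx {ι : Type} [Fintype ι] [DecidableEq ι] {Q : ℕ} {a b : ι → ℕ} (hF : Forms Q a b) {D : ι → Finset ℕ} {f : ι → ℕ → ℝ}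
    (hD : ∀ i, Good Q (D i)) (S : Finset ℕ) (g : ℕ → ℝ) :
    ∑ t ∈ S, g t * ∏ i, Fn (D i) (f i) (a i * t + b i) =
      ∑ B ∈ (Fintype.piFinset D).filter (fun B => ∀ i j, i ≠ j → Nat.Coprime (B i) (B j)),
        (∏ i, f i (B i)) * ∑ t ∈ S.filter (fun t => ∀ i, B i ∣ a i * t + b i), g t := by
  have hR : ∑ B ∈ (Fintype.piFinset D).filter (fun B => ∀ i j, i ≠ j → Nat.Coprime (B i) (B j)),
        (∏ i, f i (B i)) * ∑ t ∈ S.filter (fun t => ∀ i, B i ∣ a i * t + b i), g t =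
      ∑ B ∈ Fintype.piFinset D,
        (∏ i, f i (B i)) * ∑ t ∈ S.filter (fun t => ∀ i, B i ∣ a i * t + b i), g t := by
    refine sum_filter_of_ne fun B hB hne i j hij => ?_
    have h1 : ∑ t ∈ S.filter (fun t => ∀ i, B i ∣ a i * t + b i), g t ≠ 0 := by
      intro h0
      rw [h0, mul_zero] at hne
      exact hne rfl
    obtain ⟨t, ht, _⟩ := exists_ne_zero_of_sum_ne_zero h1
    rw [mem_filter] at ht
    rw [Fintype.mem_piFinset] at hB
    exact Mtx_cop hF (fun i => (hD i (B i) (hB i)).2) ht.2 hij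
  rw [hR]
  have hL : ∀ t ∈ S, g t * ∏ i, Fn (D i) (f i) (a i * t + b i) =
      ∑ B ∈ Fintype.piFinset D,
        (∏ i, f i (B i)) * (if ∀ i, B i ∣ a i * t + b i then g t else 0) := by
    intro t _
    rw [Mtx_ex, mul_sum]
    refine sum_congr rfl fun B _ => ?_
    rw [mul_left_comm, mul_ite, mul_one, mul_zero]
  rw [sum_congr rfl hL, sum_comm]
  refine sum_congr rfl fun B _ => ?_
  rw [← mul_sum, sum_filter]

theorem Mtx_one {n a : ℕ} (hn : 1 ≤ n) (b : ℕ) (h : Nat.Coprime a n) :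
    ∃ ρ : ℕ, ∀ t : ℕ, n ∣ a * t + b ↔ t ≡ ρ [MOD n] := by
  haveI : NeZero n := ⟨by omega⟩
  let u := ZMod.unitOfCoprime a h
  have hu : (u : ZMod n) = (a : ZMod n) := ZMod.coe_unitOfCoprime a h
  refine ⟨(-(b : ZMod n) * ((u⁻¹ : (ZMod n)ˣ) : ZMod n)).val, fun t => ?_⟩
  rw [← ZMod.natCast_eq_zero_iff, ← ZMod.natCast_eq_natCast_iff, ZMod.natCast_zmod_val]
  push_cast
  rw [← hu]
  constructor
  · intro h1
    have h2 : (u : ZMod n) * t = -(b : ZMod n) := eq_neg_of_add_eq_zero_left h1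
    rw [← h2, mul_comm (u : ZMod n), mul_assoc, Units.mul_inv, mul_one]
  · intro h1
    rw [h1, mul_comm, mul_assoc, Units.inv_mul, mul_one]
    ring

theorem crtB {ι : Type} [Fintype ι] [DecidableEq ι] {Q : ℕ} {a b : ι → ℕ} (hF : Forms Q a b) {B : ι → ℕ}
    (hB : ∀ i, 1 ≤ B i ∧ Nat.Coprime (B i) Q) (hc : ∀ i j, i ≠ j → Nat.Coprime (B i) (B j)) :
    ∃ ρ : ℕ, ∀ t : ℕ, (∀ i, B i ∣ a i * t + b i) ↔ t ≡ ρ [MOD ∏ i, B i] := by
  have h1 : ∀ i, Nat.Coprime (a i) (B i) := by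
    intro i
    by_contra hco
    rw [Nat.Prime.not_coprime_iff_dvd] at hco
    obtain ⟨p, hp, h1, h2⟩ := hco
    have h7 : p ∣ Nat.gcd (B i) Q := Nat.dvd_gcd h2 (hF.prime i p hp h1)
    rw [Nat.Coprime.gcd_eq_one (hB i).2] at h7
    exact hp.one_lt.ne' (Nat.dvd_one.1 h7)
  choose r hr using fun i => Mtx_one (hB i).1 (b i) (h1 i)
  have hpw : Set.Pairwise ((univ : Finset ι) : Set ι) (Function.onFun Nat.Coprime B) :=
    fun i _ j _ hij => hc i j hij
  obtain ⟨ρ, hρ⟩ := Nat.chineseRemainderOfFinset r B univ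
    (fun i _ => by have := (hB i).1; omega) hpw
  refine ⟨ρ, fun t => ?_⟩
  constructor
  · intro h
    rw [Nat.modEq_iff_dvd]
    push_cast
    refine Finset.prod_dvd_of_coprime ?_ ?_
    · intro i _ j _ hij
      exact Nat.isCoprime_iff_coprime.2 (hc i j hij)
    · intro i _
      rw [← Nat.modEq_iff_dvd]
      exact ((hr i t).1 (h i)).trans (hρ i (mem_univ i)).symm
  · intro h i
    rw [hr i t]
    have h2 : t ≡ ρ [MOD B i] := h.of_dvd (dvd_prod_of_mem B (mem_univ i))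
    exact h2.trans (hρ i (mem_univ i))

end EG
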