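import Pool.Agent.H6.EG.E2a
import Pool.Agent.H6.EG.E2n
import Pool.Agent.H6.EG.Mtx
import Pool.Agent.H6.EG.AbsJ
import Pool.Agent.H6.EG.BV

/-!
# MP_0e3417 row E2b: the remainder of the sum over primes

Proof. `bv` with `ε = 1/8`, exponent `A' = A + 6 K + 2`, `C' = 2^(K+2)`, `w0 = max w1 Q` gives `B, P0`; put `P T = P0 (Q T)`, and for each `j` (finitely many) use its second part with `M = log (2Q) + 1`,
`W_j = fun x => φ(exp x * Q / a j)` (`e2a_ws`), `x = Q T`. `P T > Q`, so `P T` is a prime not dividing `Q`; `P T ≤ (log (Q T))^B ≤ (log T)^(|B|+1)` for large `T`.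
Fix `n, n' ∈ AS`, `j`; `D = update (fun i => DA ..) j {1}`, `f = update (fun i => fA ..) j (fun _ => 1)`, with the sieve modulus `Q' = Q * P T`. `mtx` with `g t = φ(t/T) Λ(a_j t + 1)`
(`Forms Q' a 1` from `SForms.forms`). For a pairwise coprime tuple `B` (with `B j = 1`) let `q = ∏ B i` (coprime to `Q'`), `crtB` gives `ρ`. `(a_j ρ + 1, q) = 1`: a common prime `p` divides some `B i`, `i ≠ j`, so
`p ∣ a_i ρ + 1` (take `t = ρ` in `crtB`) and `p ∣ a_j ρ + 1`, so `p ∣ a_i - a_j`, `p ∣ Q`, contradiction. `e2a` and `bv` (modulus `a_j q`, not divisible by `P T`; residue `a_j ρ + 1`, coprime to `a_j q`;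
`a_j q ≤ Q T^(2 e0) ≤ (Q T)^(3/8)` since `e0 ≤ 1/8`: `q ≤ ∏_i z_{n i} z_{n' i} ≤ T^(2 e0)`) give
`∑_t φ Λ = T ∫φ (a_j/φ(a_j))/φ(q) + O(E_j(a_j q) + C)`. The main terms sum to `T ∫φ (a_j/φ(a_j)) Mm D f~ 1`.
Errors: `|f i (B i)| ≤ 4^ω(B i) F`, `F = (4/v0 (1 + log T)³)²` (`lcf_bd`, `la_abs`), so by `tup` (with `X q = E_j(a_j q) + C` and `𝒬` = the numbers `q ≤ T^(2 e0)` coprime to `Q'`) they are at most
`F^K ∑_{q ∈ 𝒬} (2^(K+2))^ω(q) (E_j(a_j q) + C) ≤ F^K (Q T/(log (Q T))^A' + C ∑_{q ≤ T^(1/4)} (2^(K+2))^ω(q))`; the last sum is at most `T^(1/4) T^(1/4)` for large `T` (`c^ω(q) ≤ C_c q^(1/2)`, or `c^ω(q) ≤ τ(q)^{K+2}`, ..).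
(`ω(q) ≤ ω(a_j q)`; `q ↦ a_j q` is injective.) Altogether `≤ T/(log T)^A` for large `T`.
-/

open Finset H69LB

namespace EG

theorem E2b_om {c : ℝ} (hc : 1 ≤ c) : ∃ C : ℝ, 1 ≤ C ∧ ∀ q : ℕ, 1 ≤ q →
    c ^ q.primeFactors.card ≤ C * Real.sqrt q := by
  obtain ⟨m, hm⟩ : ∃ m : ℕ, c ^ 2 ≤ m := exists_nat_ge _
  have hc0 : 0 < c := by linarith
  refine ⟨c ^ m, one_le_pow₀ hc, fun q hq => ?_⟩
  have h1 : ∀ p ∈ q.primeFactors, c ≤ (if p ≤ m then c else 1) * Real.sqrt p := by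
    intro p hp
    have hp1 := (Nat.prime_of_mem_primeFactors hp).one_lt
    split_ifs with h
    · have : 1 ≤ Real.sqrt p := by
        rw [Real.one_le_sqrt]
        exact_mod_cast hp1.le
      nlinarith
    · rw [one_mul]
      apply Real.le_sqrt_of_sq_le
      push Not at h
      have : (m : ℝ) ≤ p := by exact_mod_cast h.le
      linarith
  calc c ^ q.primeFactors.card = ∏ _p ∈ q.primeFactors, c := by rw [Finset.prod_const]
    _ ≤ ∏ p ∈ q.primeFactors, (if p ≤ m then c else 1) * Real.sqrt p :=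
        Finset.prod_le_prod (fun _ _ => hc0.le) h1
    _ = (∏ p ∈ q.primeFactors, (if p ≤ m then c else 1)) * ∏ p ∈ q.primeFactors, Real.sqrt p :=
        Finset.prod_mul_distrib
    _ ≤ c ^ m * Real.sqrt q := by
        refine mul_le_mul ?_ ?_ (Finset.prod_nonneg fun _ _ => Real.sqrt_nonneg _) (by positivity)
        · rw [← Finset.prod_filter, Finset.prod_const]
          refine pow_le_pow_right₀ hc ?_
          have h2 : q.primeFactors.filter (fun p => p ≤ m) ⊆ Icc 1 m := by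
            intro p hp
            rw [mem_filter] at hp
            rw [mem_Icc]
            exact ⟨(Nat.prime_of_mem_primeFactors hp.1).one_lt.le, hp.2⟩
          simpa using card_le_card h2
        · rw [← Real.sqrt_prod _ (fun p _ => Nat.cast_nonneg p)]
          refine Real.sqrt_le_sqrt ?_
          have h3 : ∏ p ∈ q.primeFactors, p ≤ q := Nat.le_of_dvd hq (Nat.prod_primeFactors_dvd q)
          rw [← Nat.cast_prod]
          exact Nat.cast_le.2 h3

theorem E2b_sum {c : ℝ} (hc : 1 ≤ c) : ∃ C : ℝ, 1 ≤ C ∧ ∀ y : ℝ, 1 ≤ y → ∀ S : Finset ℕ,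
    (∀ q ∈ S, 1 ≤ q ∧ (q : ℝ) ≤ y) → ∑ q ∈ S, c ^ q.primeFactors.card ≤ C * y ^ 2 := by
  obtain ⟨C, hC, h⟩ := E2b_om hc
  refine ⟨C, hC, fun y hy S hS => ?_⟩
  have h1 : ∀ q ∈ S, c ^ q.primeFactors.card ≤ C * y := by
    intro q hq
    refine (h q (hS q hq).1).trans (mul_le_mul_of_nonneg_left ?_ (by linarith))
    refine le_trans ?_ (hS q hq).2
    rw [Real.sqrt_le_left (Nat.cast_nonneg q)]
    have : (1 : ℝ) ≤ q := by exact_mod_cast (hS q hq).1
    nlinarith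
  have h2 : (S.card : ℝ) ≤ y := by
    have h3 : S ⊆ Icc 1 ⌊y⌋₊ := by
      intro q hq
      rw [mem_Icc]
      exact ⟨(hS q hq).1, Nat.le_floor (hS q hq).2⟩
    have h4 : S.card ≤ ⌊y⌋₊ := by simpa using card_le_card h3
    exact (Nat.cast_le.2 h4).trans (Nat.floor_le (by linarith))
  calc ∑ q ∈ S, c ^ q.primeFactors.card ≤ ∑ _q ∈ S, C * y := sum_le_sum h1
    _ = S.card * (C * y) := by rw [sum_const, nsmul_eq_mul]
    _ ≤ y * (C * y) := mul_le_mul_of_nonneg_right h2 (by positivity)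
    _ = C * y ^ 2 := by ring

theorem E2b_tot {ι : Type} [DecidableEq ι] (s : Finset ι) (B : ι → ℕ)
    (hc : ∀ i j, i ≠ j → Nat.Coprime (B i) (B j)) :
    Nat.totient (∏ i ∈ s, B i) = ∏ i ∈ s, Nat.totient (B i) := by
  induction s using Finset.induction_on with
  | empty => simp
  | insert i s hi ih =>
    rw [prod_insert hi, prod_insert hi, Nat.totient_mul, ih]
    refine Nat.Coprime.prod_right fun j hj => hc i j ?_
    rintro rfl
    exact hi hj

theorem E2b_DA {e0 v0 T : ℝ} (hT : 1 ≤ T) {Q n n' B : ℕ} (hB : B ∈ DA e0 v0 T Q n n') :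
    (B : ℝ) ≤ T ^ (e0 * vv v0 n + e0 * vv v0 n') := by
  have hT0 : 0 < T := by linarith
  unfold DA lcD at hB
  rw [mem_image] at hB
  obtain ⟨⟨d, d'⟩, hp, rfl⟩ := hB
  rw [mem_product] at hp
  obtain ⟨h1, h2⟩ := hp
  unfold EG.sq at h1 h2
  rw [mem_filter, mem_Icc] at h1 h2
  have h3 : (d : ℝ) ≤ T ^ (e0 * vv v0 n) :=
    (Nat.cast_le.2 h1.1.2).trans (Nat.floor_le (by positivity))
  have h4 : (d' : ℝ) ≤ T ^ (e0 * vv v0 n') :=
    (Nat.cast_le.2 h2.1.2).trans (Nat.floor_le (by positivity))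
  have h5 : ((Nat.lcm d d' : ℕ) : ℝ) ≤ d * d' := by
    have h6 : Nat.lcm d d' ≤ d * d' :=
      Nat.le_of_dvd (Nat.mul_pos h1.1.1 h2.1.1) (Nat.lcm_dvd_mul d d')
    exact_mod_cast h6
  rw [Real.rpow_add hT0]
  exact h5.trans (mul_le_mul h3 h4 (Nat.cast_nonneg _) (by positivity))

theorem E2b_sq (Q z : ℕ) : Good Q (EG.sq Q z) := by
  intro B hB
  unfold EG.sq at hB
  exact (mem_filter.1 hB).2

/-- the moduli -/
noncomputable def E2b_S (e0 T : ℝ) (Q : ℕ) : Finset ℕ :=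
  (Icc 1 ⌊T ^ (2 * e0)⌋₊).filter (fun q => Nat.Coprime q Q)

theorem E2b_core {e0 v0 : ℝ} (he0 : 0 < e0) (he1 : e0 ≤ 1 / 8) (hv0 : 0 < v0) (m : ℕ)
    {ι : Type} [Fintype ι] [DecidableEq ι] {Q : ℕ} {a : ι → ℕ} (ha : SForms Q a) {p : ℕ}
    (hp : p.Prime) {T I : ℝ} (hT : 1 ≤ T) {n n' : ι → ℕ} (hn : n ∈ AS ι v0 m)
    (hn' : n' ∈ AS ι v0 m) (j : ι) (g : ℕ → ℝ) (X : ℕ → ℝ) (hX : ∀ q, 0 ≤ X q)
    (hg : ∀ q : ℕ, 1 ≤ q → (q : ℝ) ≤ T ^ (2 * e0) → Nat.Coprime q (Q * p) → ∀ ρ : ℕ,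
      Nat.Coprime (a j * ρ + 1) (a j * q) →
      |∑ t ∈ (rT T).filter (fun t => t ≡ ρ [MOD q]), g t - I / (Nat.totient q : ℝ)| ≤ X q) :
    |∑ t ∈ rT T, g t *
          ∏ i, Fn (Function.update (fun i => DA e0 v0 T (Q * p) (n i) (n' i)) j {1} i)
            (Function.update (fun i => fA e0 v0 T (Q * p) (n i) (n' i)) j (fun _ => 1) i) (a i * t + 1) -
        I * Mm (Function.update (fun i => DA e0 v0 T (Q * p) (n i) (n' i)) j {1})
            (Function.update (fun i B => fA e0 v0 T (Q * p) (n i) (n' i) B * ((B : ℝ) / (Nat.totient B : ℝ))) j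
              (fun _ => 1)) 1| ≤
      ((4 / v0 * (1 + Real.log T) ^ 3) ^ 2) ^ Fintype.card ι *
        ∑ q ∈ E2b_S e0 T (Q * p), ((2 : ℝ) ^ (Fintype.card ι + 2)) ^ q.primeFactors.card * X q := by
  have hT0 : 0 < T := by linarith
  have hlT := Real.log_nonneg hT
  have hvp : ∀ k, 0 < vv v0 k := fun k => by unfold vv; positivity
  have hs : ∀ {n : ι → ℕ}, n ∈ AS ι v0 m → ∑ i, vv v0 (n i) ≤ 1 := by
    intro n hn
    unfold AS at hn
    exact (mem_filter.1 hn).2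
  have hle : ∀ {n : ι → ℕ}, n ∈ AS ι v0 m → ∀ i, vv v0 (n i) ≤ 1 := by
    intro n hn i
    exact (single_le_sum (f := fun i => vv v0 (n i)) (fun j _ => (hvp _).le) (mem_univ i)).trans (hs hn)
  have hv1 : v0 ≤ 1 := by
    refine le_trans ?_ (hle hn j)
    unfold vv
    have h : (1 : ℝ) ≤ 2 ^ (n j) := one_le_pow₀ (by norm_num)
    nlinarith
  obtain ⟨F0, hF0⟩ : ∃ F0, F0 = 4 / v0 * (1 + Real.log T) ^ 3 := ⟨_, rfl⟩
  have hF1 : 1 ≤ F0 := by
    rw [hF0]
    have h1 : 1 ≤ 4 / v0 := by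
      rw [le_div_iff₀ hv0]
      linarith
    have h2 : 1 ≤ (1 + Real.log T) ^ 3 := one_le_pow₀ (by linarith)
    nlinarith
  rw [← hF0]
  obtain ⟨D, hDdef⟩ : ∃ D, D = Function.update (fun i => DA e0 v0 T (Q * p) (n i) (n' i)) j {1} := ⟨_, rfl⟩
  obtain ⟨f, hfdef⟩ : ∃ f, f = Function.update (fun i => fA e0 v0 T (Q * p) (n i) (n' i)) j (fun _ => 1) := ⟨_, rfl⟩
  obtain ⟨f', hf'def⟩ : ∃ f', f' = Function.update
    (fun i (B : ℕ) => fA e0 v0 T (Q * p) (n i) (n' i) B * ((B : ℝ) / (Nat.totient B : ℝ))) j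
              (fun _ => 1) := ⟨_, rfl⟩
  rw [← hDdef, ← hfdef, ← hf'def]
  have hDj : D j = {1} := by rw [hDdef, Function.update_self]
  have hDi : ∀ i, i ≠ j → D i = DA e0 v0 T (Q * p) (n i) (n' i) := by
    intro i hi
    rw [hDdef, Function.update_of_ne hi]
  have hfj : f j = fun _ => 1 := by rw [hfdef, Function.update_self]
  have hfi : ∀ i, i ≠ j → f i = fA e0 v0 T (Q * p) (n i) (n' i) := by
    intro i hi
    rw [hfdef, Function.update_of_ne hi]
  have hf'j : f' j = fun _ => 1 := by rw [hf'def, Function.update_self]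
  have hf'i : ∀ i, i ≠ j → f' i = fun B : ℕ => fA e0 v0 T (Q * p) (n i) (n' i) B * ((B : ℝ) / (Nat.totient B : ℝ)) := by
    intro i hi
    rw [hf'def, Function.update_of_ne hi]
  have hD : ∀ i, Good (Q * p) (D i) := by
    intro i
    by_cases hi : i = j
    · rw [hi, hDj]
      intro B hB
      rw [mem_singleton] at hB
      rw [hB]
      exact ⟨squarefree_one, Nat.coprime_one_left _⟩
    · rw [hDi i hi]
      exact good_lcD (E2b_sq _ _) (E2b_sq _ _)
  have hmtx := mtx (ha.forms hp.one_lt.le) (f := f) hD (rT T) g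
  rw [hmtx]
  have hM : Mm D f' 1 = ∑ B ∈ (Fintype.piFinset D).filter
      (fun B => ∀ i j, i ≠ j → Nat.Coprime (B i) (B j)), ∏ i, f' i (B i) / (B i : ℝ) := by
    unfold Mm
    refine Finset.sum_congr (Finset.filter_congr (fun B _ => ?_)) (fun _ _ => rfl)
    exact ⟨fun h => h.1, fun h => ⟨h, fun i => Nat.coprime_one_right _⟩⟩
  have hprodle : ∀ B ∈ Fintype.piFinset D, ((∏ i, B i : ℕ) : ℝ) ≤ T ^ (2 * e0) := by
    intro B hB
    rw [Fintype.mem_piFinset] at hB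
    push_cast
    have h1 : ∀ i, (B i : ℝ) ≤ T ^ (e0 * vv v0 (n i) + e0 * vv v0 (n' i)) := by
      intro i
      by_cases hi : i = j
      · have h2 := hB i
        rw [hi, hDj, mem_singleton] at h2
        rw [hi, h2, Nat.cast_one]
        exact Real.one_le_rpow hT (add_nonneg (mul_nonneg he0.le (hvp _).le) (mul_nonneg he0.le (hvp _).le))
      · have h2 := hB i
        rw [hDi i hi] at h2
        exact E2b_DA hT h2
    refine (prod_le_prod (fun i _ => Nat.cast_nonneg _) fun i _ => h1 i).trans ?_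
    rw [← Real.rpow_sum_of_pos hT0]
    refine Real.rpow_le_rpow_of_exponent_le hT ?_
    rw [sum_add_distrib, ← mul_sum, ← mul_sum]
    have := hs hn
    have := hs hn'
    nlinarith
  have hgood : ∀ B ∈ Fintype.piFinset D, ∀ i, 1 ≤ B i ∧ Nat.Coprime (B i) (Q * p) := by
    intro B hB i
    rw [Fintype.mem_piFinset] at hB
    have h1 := hD i (B i) (hB i)
    exact ⟨Nat.pos_of_ne_zero h1.1.ne_zero, h1.2⟩
  have hqc : ∀ B ∈ Fintype.piFinset D, Nat.Coprime (∏ i, B i) (Q * p) := by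
    intro B hB
    exact Nat.Coprime.prod_left fun i _ => (hgood B hB i).2
  have hq1 : ∀ B ∈ Fintype.piFinset D, 1 ≤ ∏ i, B i := by
    intro B hB
    refine Nat.pos_of_ne_zero (Finset.prod_ne_zero_iff.2 (fun i _ => ?_))
    have := (hgood B hB i).1
    omega
  have htup := tup (ι := ι) hD hX (𝒬 := E2b_S e0 T (Q * p)) (by
    intro B hB _
    unfold E2b_S
    rw [mem_filter, mem_Icc]
    exact ⟨⟨hq1 B hB, Nat.le_floor (hprodle B hB)⟩, hqc B hB⟩)
  refine le_trans ?_ (mul_le_mul_of_nonneg_left htup (by positivity))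
  rw [hM, mul_sum, mul_sum, ← sum_sub_distrib]
  refine (abs_sum_le_sum_abs _ _).trans (sum_le_sum fun B hB => ?_)
  rw [mem_filter] at hB
  obtain ⟨hBp, hBc⟩ := hB
  have hBD := hBp
  rw [Fintype.mem_piFinset] at hBD
  have hBj : B j = 1 := by
    have h1 := hBD j
    rw [hDj, mem_singleton] at h1
    exact h1
  obtain ⟨ρ, hρ⟩ := crtB (ha.forms hp.one_lt.le) (hgood B hBp) hBc
  have hfil : (rT T).filter (fun t => ∀ i, B i ∣ a i * t + 1) =
      (rT T).filter (fun t => t ≡ ρ [MOD ∏ i, B i]) :=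
    Finset.filter_congr (fun t _ => hρ t)
  rw [hfil]
  have hco : Nat.Coprime (a j * ρ + 1) (a j * ∏ i, B i) := by
    by_contra hcon
    rw [Nat.Prime.not_coprime_iff_dvd] at hcon
    obtain ⟨r, hr, h1, h2⟩ := hcon
    rcases hr.dvd_mul.1 h2 with h3 | h3
    · have h4 : r ∣ 1 := (Nat.dvd_add_right (h3.mul_right ρ)).1 h1
      exact hr.one_lt.ne' (Nat.dvd_one.1 h4)
    · obtain ⟨i, _, h4⟩ := (Prime.dvd_finsetProd_iff hr.prime B).1 h3
      have hij : i ≠ j := by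
        rintro rfl
        rw [hBj] at h4
        exact hr.one_lt.ne' (Nat.dvd_one.1 h4)
      have h5 : r ∣ a i * ρ + 1 := h4.trans ((hρ ρ).2 (Nat.ModEq.refl ρ) i)
      have h6 : (r : ℤ) ∣ (a i : ℤ) - a j := by
        have e : (a i : ℤ) - a j = (a i : ℤ) * ((a j : ℤ) * ρ + 1) - (a j : ℤ) * ((a i : ℤ) * ρ + 1) := by ring
        rw [e]
        have h7 : (r : ℤ) ∣ (a j : ℤ) * ρ + 1 := by exact_mod_cast h1
        have h8 : (r : ℤ) ∣ (a i : ℤ) * ρ + 1 := by exact_mod_cast h5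
        exact dvd_sub (h7.mul_left _) (h8.mul_left _)
      have h7 := ha.diff i j hij r hr h6
      have h8 : r ∣ Nat.gcd (B i) (Q * p) := Nat.dvd_gcd h4 (h7.mul_right p)
      rw [Nat.Coprime.gcd_eq_one (hgood B hBp i).2] at h8
      exact hr.one_lt.ne' (Nat.dvd_one.1 h8)
  have hmain := hg (∏ i, B i) (hq1 B hBp) (hprodle B hBp) (hqc B hBp) ρ hco
  have hf' : ∏ i, f' i (B i) / (B i : ℝ) = (∏ i, f i (B i)) / (Nat.totient (∏ i, B i) : ℝ) := by
    rw [E2b_tot univ B hBc, Nat.cast_prod, ← prod_div_distrib]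
    refine prod_congr rfl fun i _ => ?_
    by_cases hi : i = j
    · rw [hi, hf'j, hfj, hBj]
      simp
    · rw [hf'i i hi, hfi i hi]
      have h1 : (B i : ℝ) ≠ 0 := by
        have := (hgood B hBp i).1
        positivity
      field_simp
  rw [hf']
  have h3 : (∏ i, f i (B i)) * ∑ t ∈ (rT T).filter (fun t => t ≡ ρ [MOD ∏ i, B i]), g t -
      I * ((∏ i, f i (B i)) / (Nat.totient (∏ i, B i) : ℝ)) =
      (∏ i, f i (B i)) * (∑ t ∈ (rT T).filter (fun t => t ≡ ρ [MOD ∏ i, B i]), g t -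
        I / (Nat.totient (∏ i, B i) : ℝ)) := by ring
  rw [h3, abs_mul, Finset.abs_prod, ← mul_assoc]
  refine mul_le_mul ?_ hmain (abs_nonneg _) (by positivity)
  have h4 : ∀ i, |f i (B i)| ≤ F0 ^ 2 * 4 ^ (B i).primeFactors.card := by
    intro i
    by_cases hi : i = j
    · rw [hi, hfj, hBj]
      simp only [abs_one, Nat.primeFactors_one, card_empty, pow_zero, mul_one]
      exact one_le_pow₀ hF1
    · rw [hfi i hi]
      obtain ⟨a1, _⟩ := la_abs he0 (by linarith) hv0 hT (Q * p) (n i) (hle hn i)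
      obtain ⟨b1, _⟩ := la_abs he0 (by linarith) hv0 hT (Q * p) (n' i) (hle hn' i)
      rw [← hF0] at a1 b1
      have h5 := lcf_bd (E2b_sq (Q * p) (zz e0 v0 T (n i))) (E2b_sq (Q * p) (zz e0 v0 T (n' i))) a1 b1 (B i)
      unfold fA
      refine h5.trans (le_of_eq ?_)
      ring
  calc ∏ i, |f i (B i)| ≤ ∏ i, (F0 ^ 2 * 4 ^ (B i).primeFactors.card) :=
        prod_le_prod (fun i _ => abs_nonneg _) fun i _ => h4 i
    _ = _ := by rw [prod_mul_distrib, prod_const, card_univ]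

theorem E2b_fin {v : ℝ} (hv : 0 < v) (K : ℕ) (A : ℝ) {Q : ℝ} (hQ : 1 ≤ Q) {C : ℝ} (hC : 0 ≤ C) :
    ∀ᶠ T : ℝ in Filter.atTop,
    ((4 / v * (1 + Real.log T) ^ 3) ^ 2) ^ K *
      (Q * T / Real.log (Q * T) ^ (|A| + 6 * K + 2) + C * T ^ (1 / 2 : ℝ)) ≤ T / Real.log T ^ A := by
  obtain ⟨G, hG⟩ : ∃ G, G = ((32 / v) ^ 2) ^ K := ⟨_, rfl⟩
  have hG0 : 0 < G := by rw [hG]; positivity
  have hlittle := (isLittleO_log_rpow_rpow_atTop (s := 1 / 2) (6 * (K : ℝ) + |A|) (by norm_num)).bound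
    (show (0 : ℝ) < 1 / (2 * G * C + 1) by positivity)
  filter_upwards [hlittle, Filter.eventually_ge_atTop (Real.exp 1),
    Real.tendsto_log_atTop.eventually_ge_atTop (2 * G * Q)] with T h1 h2 h3
  have hT0 : 0 < T := lt_of_lt_of_le (Real.exp_pos 1) h2
  have hL1 : 1 ≤ Real.log T := by rwa [Real.le_log_iff_exp_le hT0]
  obtain ⟨L, hL⟩ : ∃ L, L = Real.log T := ⟨_, rfl⟩
  rw [← hL] at h1 h3 hL1 ⊢
  have hL0 : 0 < L := by linarith
  have hLQ : L ≤ Real.log (Q * T) := by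
    rw [hL]
    exact Real.log_le_log hT0 (by nlinarith)
  have hA0 := abs_nonneg A
  have hK0 : (0 : ℝ) ≤ K := Nat.cast_nonneg K
  have h4 : ((4 / v * (1 + L) ^ 3) ^ 2) ^ K ≤ G * L ^ (6 * K : ℝ) := by
    have h5 : 4 / v * (1 + L) ^ 3 ≤ 32 / v * L ^ 3 := by
      have h6 : (1 + L) ^ 3 ≤ (2 * L) ^ 3 := pow_le_pow_left₀ (by positivity) (by linarith) 3
      calc 4 / v * (1 + L) ^ 3 ≤ 4 / v * (2 * L) ^ 3 := mul_le_mul_of_nonneg_left h6 (by positivity)
        _ = 32 / v * L ^ 3 := by ring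
    calc ((4 / v * (1 + L) ^ 3) ^ 2) ^ K ≤ ((32 / v * L ^ 3) ^ 2) ^ K := by
          refine pow_le_pow_left₀ (by positivity) (pow_le_pow_left₀ (by positivity) h5 2) K
      _ = G * L ^ (6 * K : ℝ) := by
          rw [hG]
          have h7 : L ^ (6 * K : ℝ) = L ^ (6 * K) := by
            rw [← Real.rpow_natCast]
            push_cast
            rfl
          rw [h7, mul_pow, mul_pow, ← pow_mul, ← pow_mul, ← pow_mul]
          congr 2
          ring
  have h5 : Q * T / Real.log (Q * T) ^ (|A| + 6 * K + 2) ≤ Q * T / L ^ (|A| + 6 * K + 2) := by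
    refine div_le_div_of_nonneg_left (by positivity) (by positivity) ?_
    exact Real.rpow_le_rpow hL0.le hLQ (by positivity)
  have h6 : G * L ^ (6 * K : ℝ) * (Q * T / L ^ (|A| + 6 * K + 2)) ≤ 1 / 2 * (T / L ^ |A|) := by
    have e : L ^ (|A| + 6 * K + 2) = L ^ |A| * L ^ (6 * K : ℝ) * L ^ (2 : ℝ) := by
      rw [← Real.rpow_add hL0, ← Real.rpow_add hL0]
    have hLA : 0 < L ^ |A| := by positivity
    have hLK : 0 < L ^ (6 * K : ℝ) := by positivity
    rw [e, Real.rpow_two]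
    have e2 : G * L ^ (6 * K : ℝ) * (Q * T / (L ^ |A| * L ^ (6 * K : ℝ) * L ^ 2)) = (G * Q / L ^ 2) * (T / L ^ |A|) := by
      field_simp
    rw [e2]
    refine mul_le_mul_of_nonneg_right ?_ (by positivity)
    rw [div_le_iff₀ (by positivity)]
    nlinarith
  have h7 : G * L ^ (6 * K : ℝ) * (C * T ^ (1 / 2 : ℝ)) ≤ 1 / 2 * (T / L ^ |A|) := by
    rw [Real.norm_of_nonneg (by positivity), Real.norm_of_nonneg (by positivity), one_div_mul_eq_div,
      le_div_iff₀ (by positivity), Real.rpow_add hL0] at h1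
    have hLA : 0 < L ^ |A| := by positivity
    have hTT : T = T ^ (1 / 2 : ℝ) * T ^ (1 / 2 : ℝ) := by
      rw [← Real.rpow_add hT0]
      norm_num
    obtain ⟨u, hu⟩ : ∃ u, u = T ^ (1 / 2 : ℝ) := ⟨_, rfl⟩
    have hu0 : 0 < u := by rw [hu]; positivity
    have hLK : 0 < L ^ (6 * K : ℝ) := by positivity
    rw [← hu] at h1 hTT ⊢
    have h8 : 2 * G * C * (L ^ (6 * K : ℝ) * L ^ |A|) ≤ u := by nlinarith
    rw [mul_div_assoc', le_div_iff₀ hLA]
    calc G * L ^ (6 * K : ℝ) * (C * u) * L ^ |A| = 1 / 2 * (2 * G * C * (L ^ (6 * K : ℝ) * L ^ |A|)) * u := by ring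
      _ ≤ 1 / 2 * u * u := by
          refine mul_le_mul_of_nonneg_right (mul_le_mul_of_nonneg_left h8 (by norm_num)) hu0.le
      _ = 1 / 2 * T := by rw [hTT]; ring
  have h8 : T / L ^ |A| ≤ T / L ^ A := by
    refine div_le_div_of_nonneg_left hT0.le (by positivity) ?_
    exact Real.rpow_le_rpow_of_exponent_le hL1 (le_abs_self A)
  have hnn : 0 ≤ Q * T / Real.log (Q * T) ^ (|A| + 6 * K + 2) + C * T ^ (1 / 2 : ℝ) := by
    have : 0 < Real.log (Q * T) := by linarith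
    positivity
  calc ((4 / v * (1 + L) ^ 3) ^ 2) ^ K *
      (Q * T / Real.log (Q * T) ^ (|A| + 6 * K + 2) + C * T ^ (1 / 2 : ℝ))
      ≤ G * L ^ (6 * K : ℝ) * (Q * T / Real.log (Q * T) ^ (|A| + 6 * K + 2) + C * T ^ (1 / 2 : ℝ)) :=
        mul_le_mul_of_nonneg_right h4 hnn
    _ ≤ G * L ^ (6 * K : ℝ) * (Q * T / L ^ (|A| + 6 * K + 2) + C * T ^ (1 / 2 : ℝ)) := by
        refine mul_le_mul_of_nonneg_left (by linarith) (by positivity)
    _ = G * L ^ (6 * K : ℝ) * (Q * T / L ^ (|A| + 6 * K + 2)) + G * L ^ (6 * K : ℝ) * (C * T ^ (1 / 2 : ℝ)) := by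
        ring
    _ ≤ T / L ^ |A| := by linarith
    _ ≤ T / L ^ A := h8

theorem E2b_P {Q : ℕ} (hQ : 1 ≤ Q) (B : ℝ) : ∀ᶠ T : ℝ in Filter.atTop,
    Real.log (Q * T) ^ B ≤ Real.log T ^ (|B| + 1) := by
  filter_upwards [Filter.eventually_ge_atTop (Real.exp 1), Filter.eventually_ge_atTop (Q : ℝ),
    Real.tendsto_log_atTop.eventually_ge_atTop (2 ^ |B|)] with T h1 h2 h3
  have hT0 : 0 < T := lt_of_lt_of_le (Real.exp_pos 1) h1
  have hL1 : 1 ≤ Real.log T := by rwa [Real.le_log_iff_exp_le hT0]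
  have hQ0 : (1 : ℝ) ≤ Q := by exact_mod_cast hQ
  have h4 : Real.log (Q * T) = Real.log Q + Real.log T := Real.log_mul (by positivity) (by positivity)
  have h5 : 0 ≤ Real.log Q := Real.log_nonneg hQ0
  have h6 : Real.log Q ≤ Real.log T := Real.log_le_log (by positivity) h2
  calc Real.log (Q * T) ^ B ≤ Real.log (Q * T) ^ |B| :=
        Real.rpow_le_rpow_of_exponent_le (by linarith) (le_abs_self B)
    _ ≤ (2 * Real.log T) ^ |B| := Real.rpow_le_rpow (by linarith) (by linarith) (abs_nonneg B)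
    _ = 2 ^ |B| * Real.log T ^ |B| := Real.mul_rpow (by norm_num) (by linarith)
    _ ≤ Real.log T * Real.log T ^ |B| := mul_le_mul_of_nonneg_right h3 (by positivity)
    _ = Real.log T ^ (|B| + 1) := by
        rw [Real.rpow_add (by linarith), Real.rpow_one]
        ring

theorem e2b {η : ℝ} {φ : ℝ → ℝ} (hφ : Wt η φ) {e0 v0 : ℝ} (he0 : 0 < e0) (he1 : e0 ≤ 1 / 8) (hv0 : 0 < v0) (m : ℕ) (A : ℝ)
    (ι : Type) [Fintype ι] [DecidableEq ι] (Q : ℕ) (a : ι → ℕ) (ha : SForms Q a) (w1 : ℕ) :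
    ∃ (B : ℝ) (P : ℝ → ℕ), (∀ T, (P T).Prime ∧ w1 < P T ∧ ¬ P T ∣ Q) ∧ ∃ T0 : ℝ, ∀ T, T0 ≤ T → ((P T : ℕ) : ℝ) ≤ Real.log T ^ B ∧
      ∀ n ∈ AS ι v0 m, ∀ n' ∈ AS ι v0 m, ∀ j : ι,
        |∑ t ∈ rT T, φ ((t : ℝ) / T) * ArithmeticFunction.vonMangoldt (a j * t + 1) *
            ∏ i, Fn (Function.update (fun i => DA e0 v0 T (Q * P T) (n i) (n' i)) j {1} i)
              (Function.update (fun i => fA e0 v0 T (Q * P T) (n i) (n' i)) j (fun _ => 1) i) (a i * t + 1) -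
          T * (∫ x, φ x) * ((a j : ℝ) / (Nat.totient (a j) : ℝ)) *
            Mm (Function.update (fun i => DA e0 v0 T (Q * P T) (n i) (n' i)) j {1})
              (Function.update (fun i B => fA e0 v0 T (Q * P T) (n i) (n' i) B * ((B : ℝ) / (Nat.totient B : ℝ))) j
                (fun _ => 1)) 1| ≤ T / Real.log T ^ A := by
  obtain ⟨B0, P0, hP0, hbv⟩ := bv (ε := 1 / 8) (by norm_num) (|A| + 6 * (Fintype.card ι : ℝ) + 2)
    ((2 : ℝ) ^ (Fintype.card ι + 2)) (max w1 Q)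
  have hQ0 : (1 : ℝ) ≤ Q := by exact_mod_cast ha.Q_pos
  have hPQ : ∀ T : ℝ, ¬ P0 (Q * T) ∣ Q := by
    intro T h
    have h1 := Nat.le_of_dvd ha.Q_pos h
    have h2 := (hP0 (Q * T)).2
    have h3 := le_max_right w1 Q
    omega
  refine ⟨|B0| + 1, fun T => P0 (Q * T), fun T => ⟨(hP0 _).1, lt_of_le_of_lt (le_max_left _ _) (hP0 _).2,
    hPQ T⟩, ?_⟩
  have hev : ∀ᶠ T : ℝ in Filter.atTop, ((P0 (Q * T) : ℕ) : ℝ) ≤ Real.log T ^ (|B0| + 1) ∧
      ∀ j : ι, ∀ n ∈ AS ι v0 m, ∀ n' ∈ AS ι v0 m,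
        |∑ t ∈ rT T, φ ((t : ℝ) / T) * ArithmeticFunction.vonMangoldt (a j * t + 1) *
            ∏ i, Fn (Function.update (fun i => DA e0 v0 T (Q * P0 (Q * T)) (n i) (n' i)) j {1} i)
              (Function.update (fun i => fA e0 v0 T (Q * P0 (Q * T)) (n i) (n' i)) j (fun _ => 1) i) (a i * t + 1) -
          T * (∫ x, φ x) * ((a j : ℝ) / (Nat.totient (a j) : ℝ)) *
            Mm (Function.update (fun i => DA e0 v0 T (Q * P0 (Q * T)) (n i) (n' i)) j {1})
              (Function.update (fun i B => fA e0 v0 T (Q * P0 (Q * T)) (n i) (n' i) B * ((B : ℝ) / (Nat.totient B : ℝ))) j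
                (fun _ => 1)) 1| ≤ T / Real.log T ^ A := by
    refine Filter.Eventually.and ?_ (Filter.eventually_all.2 fun j => ?_)
    · obtain ⟨x0, hx0⟩ := hbv 1 (fun _ => 0) one_pos ⟨contDiff_const, fun _ _ => rfl⟩
      filter_upwards [E2b_P ha.Q_pos B0, Filter.eventually_ge_atTop x0, Filter.eventually_ge_atTop 0]
        with T h1 h2 h3
      refine ((hx0 (Q * T) (h2.trans ?_)).1).trans h1
      nlinarith
    · obtain ⟨C1, T1, hC1, he2a⟩ := e2a hφ ha.Q_pos (ha.pos j) (ha.dvd j)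
      have hlog : 0 ≤ Real.log (2 * Q) := Real.log_nonneg (by linarith)
      obtain ⟨x0, hx0⟩ := hbv (Real.log (2 * Q) + 1) _ (by linarith)
        (e2a_ws hφ ha.Q_pos (ha.pos j) (ha.dvd j)).1
      have hc1 : (1 : ℝ) ≤ 2 ^ (Fintype.card ι + 2) := one_le_pow₀ (by norm_num)
      obtain ⟨C2, hC2, hsum⟩ := E2b_sum hc1
      filter_upwards [E2b_fin hv0 (Fintype.card ι) A hQ0 (show 0 ≤ C1 * C2 by positivity),
        Filter.eventually_ge_atTop x0, Filter.eventually_ge_atTop 1, Filter.eventually_ge_atTop T1,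
        Filter.eventually_ge_atTop ((Q : ℝ) ^ 8)] with T h1 h2 h3 h4 h5 n hn n' hn'
      have hT0 : 0 < T := by linarith
      obtain ⟨_, E, hE0, hE1, hE2⟩ := hx0 (Q * T) (by nlinarith)
      obtain ⟨p, hpdef⟩ : ∃ p, p = P0 (Q * T) := ⟨_, rfl⟩
      have hp : p.Prime := by rw [hpdef]; exact (hP0 _).1
      have hpQ : ¬ p ∣ Q := by rw [hpdef]; exact hPQ T
      rw [← hpdef] at hE1 hE2 ⊢
      have haQ : a j ≤ Q := Nat.le_of_dvd ha.Q_pos (ha.dvd j)
      have haQ' : (a j : ℝ) ≤ Q := by exact_mod_cast haQ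
      have hsmall : ∀ q : ℕ, (q : ℝ) ≤ T ^ (2 * e0) → ((a j * q : ℕ) : ℝ) ≤ (Q * T) ^ (1 / 2 - 1 / 8 : ℝ) := by
        intro q hq
        push_cast
        have h6 : (Q : ℝ) ≤ T ^ (1 / 8 : ℝ) := by
          rw [← Real.rpow_natCast] at h5
          calc (Q : ℝ) = ((Q : ℝ) ^ ((8 : ℕ) : ℝ)) ^ (1 / 8 : ℝ) := by
                rw [← Real.rpow_mul (by linarith)]
                norm_num
            _ ≤ T ^ (1 / 8 : ℝ) := Real.rpow_le_rpow (by positivity) h5 (by norm_num)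
        have h7 : (q : ℝ) ≤ T ^ (1 / 4 : ℝ) :=
          hq.trans (Real.rpow_le_rpow_of_exponent_le h3 (by linarith))
        calc (a j : ℝ) * q ≤ T ^ (1 / 8 : ℝ) * T ^ (1 / 4 : ℝ) :=
              mul_le_mul (haQ'.trans h6) h7 (Nat.cast_nonneg _) (by positivity)
          _ = T ^ (1 / 2 - 1 / 8 : ℝ) := by
              rw [← Real.rpow_add hT0]
              norm_num
          _ ≤ (Q * T) ^ (1 / 2 - 1 / 8 : ℝ) :=
              Real.rpow_le_rpow hT0.le (by nlinarith) (by norm_num)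
      have hndvd : ∀ q : ℕ, Nat.Coprime q (Q * p) → ¬ p ∣ a j * q := by
        intro q hq h
        rcases hp.dvd_mul.1 h with h6 | h6
        · exact hpQ (h6.trans (ha.dvd j))
        · have h7 : p ∣ Nat.gcd q (Q * p) := Nat.dvd_gcd h6 (Dvd.intro_left Q rfl)
          rw [Nat.Coprime.gcd_eq_one hq] at h7
          exact hp.one_lt.ne' (Nat.dvd_one.1 h7)
      have hcore := E2b_core he0 he1 hv0 m ha hp (I := T * (∫ x, φ x) * ((a j : ℝ) / (Nat.totient (a j) : ℝ)))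
        h3 hn hn' j (fun t => φ ((t : ℝ) / T) * ArithmeticFunction.vonMangoldt (a j * t + 1))
        (fun q => E (a j * q) + C1) (fun q => add_nonneg (hE0 _) hC1) (by
          intro q hq1 hq2 hq3 ρ hρ
          have h6 := he2a T h4 q hq1 (hq3.coprime_dvd_right ((ha.dvd j).mul_right p)) ρ
          refine h6.trans (add_le_add_left ?_ C1)
          exact hE1 (a j * q) (Nat.mul_pos (ha.pos j) hq1) (hsmall q hq2) (hndvd q hq3) _ hρ)
      refine hcore.trans (le_trans ?_ h1)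
      refine mul_le_mul_of_nonneg_left ?_ (by positivity)
      have hS : ∀ q ∈ E2b_S e0 T (Q * p), (1 ≤ q ∧ (q : ℝ) ≤ T ^ (2 * e0)) ∧ Nat.Coprime q (Q * p) := by
        intro q hq
        unfold E2b_S at hq
        rw [mem_filter, mem_Icc] at hq
        exact ⟨⟨hq.1.1, (Nat.cast_le.2 hq.1.2).trans (Nat.floor_le (by positivity))⟩, hq.2⟩
      have hsplit : ∑ q ∈ E2b_S e0 T (Q * p), ((2 : ℝ) ^ (Fintype.card ι + 2)) ^ q.primeFactors.card * (E (a j * q) + C1) =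
          ∑ q ∈ E2b_S e0 T (Q * p), ((2 : ℝ) ^ (Fintype.card ι + 2)) ^ q.primeFactors.card * E (a j * q) +
          C1 * ∑ q ∈ E2b_S e0 T (Q * p), ((2 : ℝ) ^ (Fintype.card ι + 2)) ^ q.primeFactors.card := by
        rw [mul_sum, ← sum_add_distrib]
        refine sum_congr rfl fun q _ => ?_
        ring
      rw [hsplit]
      refine add_le_add ?_ ?_
      · refine le_trans ?_ hE2
        calc ∑ q ∈ E2b_S e0 T (Q * p), ((2 : ℝ) ^ (Fintype.card ι + 2)) ^ q.primeFactors.card * E (a j * q)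
            ≤ ∑ q ∈ E2b_S e0 T (Q * p), ((2 : ℝ) ^ (Fintype.card ι + 2)) ^ (a j * q).primeFactors.card * E (a j * q) := by
              refine sum_le_sum fun q hq => mul_le_mul_of_nonneg_right ?_ (hE0 _)
              refine pow_le_pow_right₀ hc1 (card_le_card (Nat.primeFactors_mono (Dvd.intro_left _ rfl) ?_))
              have h6 := Nat.mul_pos (ha.pos j) (hS q hq).1.1
              omega
          _ = ∑ q ∈ (E2b_S e0 T (Q * p)).image (fun q => a j * q),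
                ((2 : ℝ) ^ (Fintype.card ι + 2)) ^ q.primeFactors.card * E q := by
              rw [sum_image]
              intro x _ y _ hxy
              exact Nat.eq_of_mul_eq_mul_left (ha.pos j) hxy
          _ ≤ _ := by
              refine sum_le_sum_of_subset_of_nonneg ?_ (fun q _ _ => mul_nonneg (by positivity) (hE0 q))
              intro q' hq'
              rw [mem_image] at hq'
              obtain ⟨q, hq, rfl⟩ := hq'
              obtain ⟨⟨h6, h7⟩, h8⟩ := hS q hq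
              rw [mem_filter, mem_Icc]
              exact ⟨⟨Nat.mul_pos (ha.pos j) h6, Nat.le_floor (hsmall q h7)⟩, hndvd q h8⟩
      · rw [mul_assoc]
        refine mul_le_mul_of_nonneg_left ?_ hC1
        refine (hsum (T ^ (2 * e0)) (Real.one_le_rpow h3 (by linarith)) _ (fun q hq => (hS q hq).1)).trans ?_
        refine mul_le_mul_of_nonneg_left ?_ (by linarith)
        rw [← Real.rpow_natCast, ← Real.rpow_mul hT0.le]
        refine Real.rpow_le_rpow_of_exponent_le h3 ?_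
        push_cast
        linarith
  obtain ⟨T0, hT0⟩ := Filter.eventually_atTop.1 hev
  exact ⟨T0, fun T hT => ⟨(hT0 T hT).1, fun n hn n' hn' j => (hT0 T hT).2 j n hn n' hn'⟩⟩

end EG
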