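import Pool.Agent.H6.EG.Mtx
import Pool.Agent.H6.EG.Cnt

/-!
# MP_0e3417 row Mtt: the sum over `t` with the trivial remainder

Proof. `mtx` with `S = rT T`, `g t = φ(t/T)`; for a pairwise coprime tuple `B` (all `B i ≥ 1`, coprime to `Q`) `crtB` and `cnt` with `q = ∏ B i` give `T ∫φ/∏ B_i + O(C)`. The main terms sum to `T ∫φ * Mm D f 1`
(in `Mm D f 1` the condition of coprimality to `m = 1` is void), the errors to at most `C ∑_B ∏ |f i (B i)| ≤ C ∏_i ∑_{B ∈ D i} |f i B|`.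
-/

open Finset

namespace EG

theorem mtt {η : ℝ} {φ : ℝ → ℝ} (hφ : Wt η φ) : ∃ C : ℝ, 0 ≤ C ∧ ∀ (ι : Type) [Fintype ι] [DecidableEq ι] (Q : ℕ) (a b : ι → ℕ),
    Forms Q a b → ∀ (D : ι → Finset ℕ) (f : ι → ℕ → ℝ), (∀ i, Good Q (D i)) → ∀ T : ℝ, 1 ≤ T →
      |∑ t ∈ rT T, φ ((t : ℝ) / T) * ∏ i, Fn (D i) (f i) (a i * t + b i) - T * (∫ x, φ x) * Mm D f 1| ≤
        C * ∏ i, ∑ B ∈ D i, |f i B| := by
  obtain ⟨C, hC, hcnt⟩ := cnt hφ
  refine ⟨C, hC, ?_⟩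
  intro ι _ _ Q a b hF D f hD T hT
  have hM : Mm D f 1 = ∑ B ∈ (Fintype.piFinset D).filter
      (fun B => ∀ i j, i ≠ j → Nat.Coprime (B i) (B j)), ∏ i, f i (B i) / (B i : ℝ) := by
    unfold Mm
    refine Finset.sum_congr (Finset.filter_congr (fun B _ => ?_)) (fun _ _ => rfl)
    exact ⟨fun h => h.1, fun h => ⟨h, fun i => Nat.coprime_one_right _⟩⟩
  rw [mtx hF hD (rT T) (fun t => φ ((t : ℝ) / T)), hM, Finset.mul_sum, ← Finset.sum_sub_distrib,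
    Finset.prod_univ_sum, Finset.mul_sum]
  refine (Finset.abs_sum_le_sum_abs _ _).trans ?_
  refine le_trans ?_ (Finset.sum_le_sum_of_subset_of_nonneg (Finset.filter_subset
      (fun B => ∀ i j, i ≠ j → Nat.Coprime (B i) (B j)) (Fintype.piFinset D)) (fun B _ _ =>
    mul_nonneg hC (Finset.prod_nonneg (fun i _ => abs_nonneg _))))
  refine Finset.sum_le_sum (fun B hB => ?_)
  rw [Finset.mem_filter, Fintype.mem_piFinset] at hB
  obtain ⟨hBD, hBc⟩ := hB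
  have hgood : ∀ i, 1 ≤ B i ∧ Nat.Coprime (B i) Q := by
    intro i
    have h1 := hD i (B i) (hBD i)
    exact ⟨Nat.pos_of_ne_zero h1.1.ne_zero, h1.2⟩
  obtain ⟨ρ, hρ⟩ := crtB hF hgood hBc
  have hq : 1 ≤ ∏ i, B i := Nat.pos_of_ne_zero (Finset.prod_ne_zero_iff.2 (fun i _ => by
    have := (hgood i).1
    omega))
  have hfil : (rT T).filter (fun t => ∀ i, B i ∣ a i * t + b i) =
      (rT T).filter (fun t => t ≡ ρ [MOD ∏ i, B i]) :=
    Finset.filter_congr (fun t _ => hρ t)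
  have h1 := hcnt T hT (∏ i, B i) hq ρ
  have h2 : ∏ i, f i (B i) / (B i : ℝ) = (∏ i, f i (B i)) / ((∏ i, B i : ℕ) : ℝ) := by
    rw [Finset.prod_div_distrib, Nat.cast_prod]
  rw [hfil, h2]
  have h3 : (∏ i, f i (B i)) * ∑ t ∈ (rT T).filter (fun t => t ≡ ρ [MOD ∏ i, B i]), φ ((t : ℝ) / T) -
      T * (∫ x, φ x) * ((∏ i, f i (B i)) / ((∏ i, B i : ℕ) : ℝ)) =
      (∏ i, f i (B i)) * (∑ t ∈ (rT T).filter (fun t => t ≡ ρ [MOD ∏ i, B i]), φ ((t : ℝ) / T) -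
        T * (∫ x, φ x) / ((∏ i, B i : ℕ) : ℝ)) := by ring
  rw [h3, abs_mul, Finset.abs_prod, mul_comm C]
  exact mul_le_mul_of_nonneg_left h1 (Finset.prod_nonneg (fun i _ => abs_nonneg _))

end EG
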