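import Pool.Agent.H6.EG.S3a

/-!
# MP_0e3417 row S3: sums over pairwise coprime tuples are nearly products

Proof. For `s : Finset ι` put `D^s i = if i ∈ s then D i else {1}`, `f^s i = if i ∈ s then f i else (fun _ => 1)`. Claim by induction on `s`: there is a constant `C_n`, `n = s.card`,
depending only on `C` and `n` (define `C_0 = C`, `C_{n+1} = max C_n (constant of s3step C_n C)`; monotonicity of `Rep` in the constant is easy), such that for `C_n ≤ w`:
`Rep Q w p_s C_n (∏_{i ∈ s} a i) (∏_{i ∈ s} SS (D i) (f i) 1) (Mm D^s f^s)` with `p_s = p` if `j0 ∈ s`, else `1`.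
`s = ∅`: `Mm = 1` for all `m` (one tuple, `B = 1`); `c e = if e = 1 then 1 else 0`.
Step `s ∪ {i}`: `update D^{s ∪ {i}} i {1} = D^s`, same for `f`; `p' p'' = p_s * (if i = j0 then p else 1)`.
`s = univ`, `m = 1`: `Mm D f 1 = c 1`, so `|Mm D f 1 - ∏ SS| ≤ C_K (∏ a)/√w`.
-/

open Finset

namespace EG

/-- the constant of the step -/
def S3_Step (C C0 C1 : ℝ) : Prop :=
  ∀ (ι : Type) [Fintype ι] [DecidableEq ι]
    (w Q p' p'' : ℕ), Wide w Q → C1 ≤ w → (p' = 1 ∨ p'' = 1) → (p' = 1 ∨ (p'.Prime ∧ w < p')) → (p'' = 1 ∨ (p''.Prime ∧ w < p'')) →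
    ∀ (D : ι → Finset ℕ) (f : ι → ℕ → ℝ) (i : ι) (A a X : ℝ), 0 ≤ A → 0 ≤ a → Good Q (D i) → Ctrl C0 a p'' (D i) (f i) →
      Rep Q w p' C A X (Mm (Function.update D i {1}) (Function.update f i (fun _ => 1))) →
      Rep Q w (p' * p'') C1 (A * a) (X * SS (D i) (f i) 1) (Mm D f)

theorem S3_rep_mono {Q w p : ℕ} {C C' A X : ℝ} {F : ℕ → ℝ} (hC : 1 ≤ C) (hCC : C ≤ C') (hA : 0 ≤ A)
    (h : Rep Q w p C A X F) : Rep Q w p C' A X F := by
  obtain ⟨c, h1, h2, h3⟩ := h
  have hC0 : 0 ≤ C := by linarith
  refine ⟨c, h1, fun e he => (h2 e he).trans ?_, h3.trans ?_⟩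
  · have : C ^ (1 + e.primeFactors.card) ≤ C' ^ (1 + e.primeFactors.card) := pow_le_pow_left₀ hC0 hCC _
    gcongr
  · gcongr

theorem S3_const (C : ℝ) (hC : 1 ≤ C) : ∃ Cn : ℕ → ℝ, Cn 0 = C ∧ (∀ n, 1 ≤ Cn n) ∧ Monotone Cn ∧
    ∀ n, S3_Step (Cn n) C (Cn (n + 1)) := by
  have hstep : ∀ x : {x : ℝ // 1 ≤ x}, ∃ y : {x : ℝ // 1 ≤ x}, (x : ℝ) ≤ y ∧ S3_Step x C y := by
    intro x
    obtain ⟨C1, hC1, h⟩ := s3step x.1 C x.2 hC
    refine ⟨⟨max x.1 C1, le_max_of_le_right hC1⟩, le_max_left _ _, ?_⟩
    intro ι _ _ w Q p' p'' hW hw h1 h2 h3 D f i A a X hA ha hD hf hR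
    have h4 := h ι w Q p' p'' hW ((le_max_right _ _).trans hw) h1 h2 h3 D f i A a X hA ha hD hf hR
    exact S3_rep_mono hC1 (le_max_right _ _) (mul_nonneg hA ha) h4
  choose S hS1 hS2 using hstep
  let T : ℕ → {x : ℝ // 1 ≤ x} := fun n => Nat.rec ⟨C, hC⟩ (fun _ y => S y) n
  have hT : ∀ n, T (n + 1) = S (T n) := fun n => rfl
  refine ⟨fun n : ℕ => (T n).1, rfl, fun n => (T n).2, monotone_nat_of_le_succ fun n => ?_, fun n => ?_⟩
  · show (T n).1 ≤ (T (n + 1)).1
    rw [hT]
    exact hS1 _
  · show S3_Step (T n).1 C (T (n + 1)).1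
    rw [hT]
    exact hS2 _

theorem S3_base {ι : Type} [Fintype ι] [DecidableEq ι] (Q w : ℕ) (C : ℝ) (hC : 1 ≤ C) :
    Rep Q w 1 C 1 1 (Mm (fun _ : ι => ({1} : Finset ℕ)) (fun _ _ => 1)) := by
  have hM : ∀ m : ℕ, Mm (fun _ : ι => ({1} : Finset ℕ)) (fun _ _ => 1) m = 1 := by
    intro m
    unfold Mm
    have h1 : (Fintype.piFinset fun _ : ι => ({1} : Finset ℕ)) = {fun _ => 1} := by
      ext B
      rw [Fintype.mem_piFinset, Finset.mem_singleton]
      constructor
      · intro h
        funext i
        exact Finset.mem_singleton.1 (h i)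
      · rintro rfl i
        exact Finset.mem_singleton_self _
    rw [h1, Finset.filter_singleton, if_pos ⟨fun i j _ => Nat.coprime_one_left _, fun i => Nat.coprime_one_left _⟩,
      Finset.sum_singleton]
    simp
  refine ⟨fun e => if e = 1 then 1 else 0, fun m hm => ?_, fun e he => ?_, ?_⟩
  · rw [hM, Finset.sum_ite_eq' , if_pos]
    rw [Finset.mem_filter, Nat.mem_divisors]
    exact ⟨⟨one_dvd _, by omega⟩, squarefree_one, Nat.coprime_one_left _⟩
  · have hC0 : 0 ≤ C := by linarith
    beta_reduce
    split_ifs with h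
    · subst h
      simp
      linarith
    · rw [abs_zero]
      positivity
  · have hC0 : 0 ≤ C := by linarith
    simp
    positivity

theorem s3 (K : ℕ) (C : ℝ) (hC : 1 ≤ C) : ∃ C' : ℝ, 1 ≤ C' ∧ ∀ (ι : Type) [Fintype ι] [DecidableEq ι], Fintype.card ι = K →
    ∀ w Q p : ℕ, Wide w Q → C' ≤ w → (p = 1 ∨ (p.Prime ∧ w < p)) →
    ∀ (D : ι → Finset ℕ) (f : ι → ℕ → ℝ) (a : ι → ℝ) (j0 : ι), (∀ i, 0 ≤ a i) → (∀ i, Good Q (D i)) →
      (∀ i, Ctrl C (a i) (if i = j0 then p else 1) (D i) (f i)) →
      |Mm D f 1 - ∏ i, SS (D i) (f i) 1| ≤ C' / Real.sqrt w * ∏ i, a i := by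
  classical
  obtain ⟨Cn, hC0, hC1, hmono, hstep⟩ := S3_const C hC
  refine ⟨Cn K, hC1 K, ?_⟩
  intro ι _ dec hcard w Q p hW hw hp D f a j0 ha hD hf
  have key : ∀ s : Finset ι, Rep Q w (if j0 ∈ s then p else 1) (Cn s.card) (∏ i ∈ s, a i) (∏ i ∈ s, SS (D i) (f i) 1)
      (Mm (fun i => if i ∈ s then D i else {1}) (fun i => if i ∈ s then f i else (fun _ => 1))) := by
    intro s
    induction s using Finset.induction_on with
    | empty =>
      have h := S3_base (ι := ι) Q w (Cn 0) (hC1 0)
      simpa using h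
    | insert i s hi ih =>
      have hle : s.card + 1 ≤ K := by
        rw [← Finset.card_insert_of_notMem hi, ← hcard]
        exact Finset.card_le_univ _
      have e1 : Function.update (fun j => if j ∈ insert i s then D j else {1}) i {1} = fun j => if j ∈ s then D j else {1} := by
        funext j
        by_cases hj : j = i
        · subst hj
          rw [Function.update_self, if_neg hi]
        · rw [Function.update_of_ne hj]
          by_cases hjs : j ∈ s
          · rw [if_pos hjs, if_pos (Finset.mem_insert_of_mem hjs)]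
          · rw [if_neg hjs, if_neg]
            rw [Finset.mem_insert]
            tauto
      have e2 : Function.update (fun j => if j ∈ insert i s then f j else (fun _ => (1 : ℝ))) i (fun _ => 1) =
          fun j => if j ∈ s then f j else (fun _ => 1) := by
        funext j
        by_cases hj : j = i
        · subst hj
          rw [Function.update_self, if_neg hi]
        · rw [Function.update_of_ne hj]
          by_cases hjs : j ∈ s
          · rw [if_pos hjs, if_pos (Finset.mem_insert_of_mem hjs)]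
          · rw [if_neg hjs, if_neg]
            rw [Finset.mem_insert]
            tauto
      have e3 : (if j0 ∈ insert i s then p else 1) = (if j0 ∈ s then p else 1) * (if i = j0 then p else 1) := by
        by_cases h1 : i = j0
        · subst h1
          rw [if_pos (Finset.mem_insert_self _ _), if_neg hi, if_pos rfl, one_mul]
        · rw [if_neg h1, mul_one]
          by_cases h2 : j0 ∈ s
          · rw [if_pos h2, if_pos (Finset.mem_insert_of_mem h2)]
          · rw [if_neg h2, if_neg]
            rw [Finset.mem_insert]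
            rintro (h3 | h3)
            · exact h1 h3.symm
            · exact h2 h3
      rw [Finset.card_insert_of_notMem hi, Finset.prod_insert hi, Finset.prod_insert hi, e3, mul_comm (a i),
        mul_comm (SS (D i) (f i) 1)]
      have hs := hstep s.card ι w Q (if j0 ∈ s then p else 1) (if i = j0 then p else 1) hW
        ((hmono hle).trans hw)
        (by
          by_cases h1 : i = j0
          · subst h1
            exact Or.inl (if_neg hi)
          · exact Or.inr (if_neg h1))
        (by
          by_cases h1 : j0 ∈ s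
          · rw [if_pos h1]
            exact hp
          · exact Or.inl (if_neg h1))
        (by
          by_cases h1 : i = j0
          · rw [if_pos h1]
            exact hp
          · exact Or.inl (if_neg h1))
        (fun j => if j ∈ insert i s then D j else {1}) (fun j => if j ∈ insert i s then f j else (fun _ => 1)) i
        (∏ i ∈ s, a i) (a i) (∏ i ∈ s, SS (D i) (f i) 1) (Finset.prod_nonneg fun i _ => ha i) (ha i)
        (by
          simp only [Finset.mem_insert_self, if_true]
          exact hD i)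
        (by
          simp only [Finset.mem_insert_self, if_true]
          exact hf i)
        (by
          rw [e1, e2]
          exact ih)
      simp only [Finset.mem_insert_self, if_true] at hs
      exact hs
  have hu := key Finset.univ
  simp only [Finset.mem_univ, if_true] at hu
  rw [Finset.card_univ, hcard] at hu
  obtain ⟨c, h1, -, h3⟩ := hu
  have h4 : Mm D f 1 = c 1 := by
    rw [h1 1 le_rfl, Nat.divisors_one, Finset.filter_singleton, if_pos ⟨squarefree_one, Nat.coprime_one_left _⟩,
      Finset.sum_singleton]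
  rw [h4]
  refine h3.trans (le_of_eq ?_)
  ring

end EG
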