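import Pool.Agent.H6.EG.Defs2

/-!
# MP_0e3417 row SqJ: the weighted square as a sum of products of divisor sums

Proof. Expand `sM² = ∑_{n,n'} ∏_i (…)(…)`, and write `∏_{i ∈ J} be = ∏_i (if i ∈ J then be else 1)`. For `i ∈ J` the factor is `la 1 * la' 1 * Fn (sq Q R) (lb) x ^ 2 = Fn (DB Q R) (fun B => la la' fB B) x`
(`fn_mul`, and pull the constant into the coefficients); for `i ∉ J` it is `Fn .. la x * Fn .. la' x = Fn (DA ..) (fA ..) x` (`fn_mul`). Exchange the finite sums.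
-/

open Finset

namespace EG

theorem sqJ_const (D : Finset ℕ) (c : ℝ) (f : ℕ → ℝ) (n : ℕ) : c * Fn D f n = Fn D (fun B => c * f B) n := by
  simp only [Fn, Finset.mul_sum]

theorem sqJ {ι : Type} [Fintype ι] [DecidableEq ι] (e0 v0 T : ℝ) (m Q R : ℕ) (a b : ι → ℕ) (J : Finset ι) (S : Finset ℕ) (g : ℕ → ℝ) :
    ∑ t ∈ S, g t * (sM e0 v0 T m Q a b J t ^ 2 * ∏ i ∈ J, be Q R (a i * t + b i)) =
      ∑ n ∈ AS ι v0 m, ∑ n' ∈ AS ι v0 m, ∑ t ∈ S, g t *
        ∏ i, Fn (DJ e0 v0 T Q R J n n' i) (fJ e0 v0 T Q R J n n' i) (a i * t + b i) := by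
  have key : ∀ t, sM e0 v0 T m Q a b J t ^ 2 * ∏ i ∈ J, be Q R (a i * t + b i) =
      ∑ n ∈ AS ι v0 m, ∑ n' ∈ AS ι v0 m,
        ∏ i, Fn (DJ e0 v0 T Q R J n n' i) (fJ e0 v0 T Q R J n n' i) (a i * t + b i) := by
    intro t
    have hJ : ∏ i ∈ J, be Q R (a i * t + b i) = ∏ i, if i ∈ J then be Q R (a i * t + b i) else 1 := by
      rw [Finset.prod_ite_mem, Finset.univ_inter]
    rw [hJ, pow_two]
    unfold sM
    rw [Finset.sum_mul_sum, Finset.sum_mul]
    refine Finset.sum_congr rfl fun n _ => ?_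
    rw [Finset.sum_mul]
    refine Finset.sum_congr rfl fun n' _ => ?_
    rw [← Finset.prod_mul_distrib, ← Finset.prod_mul_distrib]
    refine Finset.prod_congr rfl fun i _ => ?_
    by_cases hi : i ∈ J
    · simp only [hi, if_true, DJ, fJ]
      rw [← sqJ_const, be, pow_two, fn_mul]
      rfl
    · simp only [hi, if_false, DJ, fJ, mul_one]
      rw [fn_mul]
      rfl
  simp only [key, Finset.mul_sum]
  rw [Finset.sum_comm]
  refine Finset.sum_congr rfl fun n _ => ?_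
  rw [Finset.sum_comm]

end EG
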