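import Pool.Agent.H6.EG.FUa

/-!
# MP_0e3417 row FUb: the lower bound for the functional `J`

Proof. Let `K = card ι`, `g w (n) = (vv n)⁻¹ wv n`, `h(n) = ((vv n)⁻¹)² wv n`. In `FI {j}` the product vanishes unless `n i = n' i` for all `i ≠ j`. Keep only the pairs `n, n'` with `n i = n' i` (`i ≠ j`), all entries `≤ m`, and
`∑_{i ≠ j} v_{n i} ≤ 1/2`; they belong to `AS` because `v_{n j}, v_{n' j} ≤ v_m ≤ 1/2`. So `FI {j} ≥ aI² ∑_{x} ∏_{i ≠ j} h(x i)`, the sum over `x : ι → ℕ` with `x j = 0`, `x i ≤ m`, `∑_{i ≠ j} v_{x i} ≤ 1/2`. Without the last condition the sum is `bI^(K-1)`; the part with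
`∑_{i ≠ j} v_{x i} > 1/2` is at most `2 ∑_x ∏ h(x i) ∑_{i ≠ j} v_{x i} = 2 (K-1) bI^(K-2) ∑_{n ≤ m} h(n) v_n = 2 (K-1) bI^(K-2) aI` (`h(n) v_n = g w(n)`), `≤ 2 K aI v0 bI^(K-1)` since `bI ≥ 1/v0`.
-/

open Finset

namespace EG

/-- the factors outside `j` -/
noncomputable def FUbf {ι : Type} [DecidableEq ι] (v0 : ℝ) (j i : ι) (a : ℕ) : ℝ :=
  if i = j then 1 else ((vv v0 a)⁻¹) ^ 2 * wv v0 a

/-- the ranges -/
def FUbt {ι : Type} [DecidableEq ι] (m : ℕ) (j i : ι) : Finset ℕ := if i = j then {0} else range (m + 1)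

theorem FUb_vv {v0 : ℝ} (hv0 : 0 < v0) (n : ℕ) : 0 < vv v0 n := by unfold vv; positivity

theorem FUb_wv {v0 : ℝ} (hv0 : 0 < v0) (n : ℕ) : 0 < wv v0 n := by
  unfold wv
  split_ifs
  · exact hv0
  · have := FUb_vv hv0 n; positivity

theorem FUb_vv_le {v0 : ℝ} (hv0 : 0 < v0) {a m : ℕ} (h : a ≤ m) : vv v0 a ≤ vv v0 m := by
  unfold vv
  exact mul_le_mul_of_nonneg_right (pow_le_pow_right₀ (by norm_num) h) hv0.le

theorem FUb_f_nonneg {ι : Type} [DecidableEq ι] {v0 : ℝ} (hv0 : 0 < v0) (j i : ι) (a : ℕ) : 0 ≤ FUbf v0 j i a := by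
  unfold FUbf
  have h1 := FUb_vv hv0 a
  have h2 := FUb_wv hv0 a
  split_ifs <;> positivity

theorem FUb_local {ι : Type} [DecidableEq ι] (v0 : ℝ) (m : ℕ) (j i : ι) :
    ∑ a ∈ FUbt m j i, FUbf v0 j i a = if i = j then 1 else bI v0 m := by
  unfold FUbt FUbf bI
  split_ifs
  · simp
  · rfl

theorem FUb_total {ι : Type} [Fintype ι] [DecidableEq ι] (v0 : ℝ) (m : ℕ) (j : ι) :
    ∑ x ∈ Fintype.piFinset (FUbt m j), ∏ i, FUbf v0 j i (x i) = bI v0 m ^ (Fintype.card ι - 1) := by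
  rw [← Finset.prod_univ_sum, Finset.prod_congr rfl (fun i _ => FUb_local v0 m j i),
    ← Finset.mul_prod_erase univ _ (mem_univ j), if_pos rfl, one_mul,
    Finset.prod_congr rfl (g := fun _ => bI v0 m) (fun i hi => if_neg (Finset.ne_of_mem_erase hi)),
    Finset.prod_const, Finset.card_erase_of_mem (mem_univ j), Finset.card_univ]

theorem FUb_one {ι : Type} [Fintype ι] [DecidableEq ι] {v0 : ℝ} (hv0 : 0 < v0) (m : ℕ) {j l : ι} (hl : l ≠ j) :
    ∑ x ∈ Fintype.piFinset (FUbt m j), (∏ i, FUbf v0 j i (x i)) * vv v0 (x l) ≤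
      aI v0 m * v0 * bI v0 m ^ (Fintype.card ι - 1) := by
  have hb : 1 ≤ v0 * bI v0 m := by
    have := bI_ge hv0 m
    rw [div_le_iff₀ hv0] at this
    linarith
  have hb0 : 0 ≤ bI v0 m := Finset.sum_nonneg fun n _ => by
    have h1 := FUb_vv hv0 n
    have h2 := FUb_wv hv0 n
    positivity
  have ha0 : 0 ≤ aI v0 m := Finset.sum_nonneg fun n _ => by
    have h1 := FUb_vv hv0 n
    have h2 := FUb_wv hv0 n
    positivity
  have e1 : ∀ x : ι → ℕ, (∏ i, FUbf v0 j i (x i)) * vv v0 (x l) =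
      ∏ i, (FUbf v0 j i (x i) * (if i = l then vv v0 (x i) else 1)) := by
    intro x
    rw [Finset.prod_mul_distrib, Finset.prod_ite_eq' univ l (fun i => vv v0 (x i)), if_pos (mem_univ l)]
  rw [Finset.sum_congr rfl (fun x _ => e1 x),
    ← Finset.prod_univ_sum (f := fun i a => FUbf v0 j i a * (if i = l then vv v0 a else 1)),
    ← FUb_total, ← Finset.prod_univ_sum,
    ← Finset.mul_prod_erase univ (fun i => ∑ a ∈ FUbt m j i, FUbf v0 j i a * (if i = l then vv v0 a else 1)) (mem_univ l),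
    ← Finset.mul_prod_erase univ (fun i => ∑ a ∈ FUbt m j i, FUbf v0 j i a) (mem_univ l)]
  have e2 : ∑ a ∈ FUbt m j l, FUbf v0 j l a * (if l = l then vv v0 a else 1) = aI v0 m := by
    unfold FUbt FUbf aI
    rw [if_neg hl]
    refine Finset.sum_congr rfl fun a _ => ?_
    rw [if_neg hl, if_pos rfl]
    have h1 := (FUb_vv hv0 a).ne'
    field_simp
  have e3 : ∏ i ∈ univ.erase l, ∑ a ∈ FUbt m j i, FUbf v0 j i a * (if i = l then vv v0 a else 1) =
      ∏ i ∈ univ.erase l, ∑ a ∈ FUbt m j i, FUbf v0 j i a := by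
    refine Finset.prod_congr rfl fun i hi => ?_
    refine Finset.sum_congr rfl fun a _ => ?_
    rw [if_neg (Finset.ne_of_mem_erase hi), mul_one]
  have e4 : ∑ a ∈ FUbt m j l, FUbf v0 j l a = bI v0 m := by rw [FUb_local, if_neg hl]
  rw [e2, e3, e4]
  have hP : 0 ≤ ∏ i ∈ univ.erase l, ∑ a ∈ FUbt m j i, FUbf v0 j i a :=
    Finset.prod_nonneg fun i _ => Finset.sum_nonneg fun a _ => FUb_f_nonneg hv0 j i a
  calc aI v0 m * ∏ i ∈ univ.erase l, ∑ a ∈ FUbt m j i, FUbf v0 j i a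
      = (1 * aI v0 m) * ∏ i ∈ univ.erase l, ∑ a ∈ FUbt m j i, FUbf v0 j i a := by rw [one_mul]
    _ ≤ (v0 * bI v0 m * aI v0 m) * ∏ i ∈ univ.erase l, ∑ a ∈ FUbt m j i, FUbf v0 j i a :=
        mul_le_mul_of_nonneg_right (mul_le_mul_of_nonneg_right hb ha0) hP
    _ = _ := by ring

/-- the tuples `x` that are kept -/
noncomputable def FUbX {ι : Type} [Fintype ι] [DecidableEq ι] (v0 : ℝ) (m : ℕ) (j : ι) : Finset (ι → ℕ) :=
  (Fintype.piFinset (FUbt m j)).filter (fun x => ∑ i ∈ univ.erase j, vv v0 (x i) ≤ 1 / 2)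

theorem FUb_X {ι : Type} [Fintype ι] [DecidableEq ι] {v0 : ℝ} (hv0 : 0 < v0) (m : ℕ) (j : ι) :
    (1 - 2 * Fintype.card ι * aI v0 m * v0) * bI v0 m ^ (Fintype.card ι - 1) ≤
      ∑ x ∈ FUbX v0 m j, ∏ i, FUbf v0 j i (x i) := by
  have hb0 : 0 ≤ bI v0 m := Finset.sum_nonneg fun n _ => by
    have h1 := FUb_vv hv0 n
    have h2 := FUb_wv hv0 n
    positivity
  have ha0 : 0 ≤ aI v0 m := Finset.sum_nonneg fun n _ => by
    have h1 := FUb_vv hv0 n
    have h2 := FUb_wv hv0 n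
    positivity
  have hN : ∀ x : ι → ℕ, 0 ≤ ∏ i, FUbf v0 j i (x i) := fun x => Finset.prod_nonneg fun i _ => FUb_f_nonneg hv0 j i _
  have h1 : ∑ x ∈ Fintype.piFinset (FUbt m j), (∏ i, FUbf v0 j i (x i)) *
      (1 - 2 * ∑ i ∈ univ.erase j, vv v0 (x i)) ≤ ∑ x ∈ FUbX v0 m j, ∏ i, FUbf v0 j i (x i) := by
    unfold FUbX
    rw [Finset.sum_filter]
    refine Finset.sum_le_sum fun x _ => ?_
    have h2 := hN x
    have h3 : 0 ≤ ∑ i ∈ univ.erase j, vv v0 (x i) := Finset.sum_nonneg fun i _ => (FUb_vv hv0 _).le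
    split_ifs with h
    · nlinarith
    · push Not at h
      nlinarith
  refine le_trans ?_ h1
  have h4 : ∀ x : ι → ℕ, (∏ i, FUbf v0 j i (x i)) * (1 - 2 * ∑ i ∈ univ.erase j, vv v0 (x i)) =
      ∏ i, FUbf v0 j i (x i) - 2 * ∑ l ∈ univ.erase j, (∏ i, FUbf v0 j i (x i)) * vv v0 (x l) := by
    intro x
    rw [← Finset.mul_sum]
    ring
  rw [Finset.sum_congr rfl (fun x _ => h4 x), Finset.sum_sub_distrib, FUb_total, ← Finset.mul_sum, Finset.sum_comm]
  have h5 : ∑ l ∈ univ.erase j, ∑ x ∈ Fintype.piFinset (FUbt m j), (∏ i, FUbf v0 j i (x i)) * vv v0 (x l) ≤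
      (Fintype.card ι : ℝ) * (aI v0 m * v0 * bI v0 m ^ (Fintype.card ι - 1)) := by
    refine (Finset.sum_le_sum fun l hl => FUb_one hv0 m (Finset.ne_of_mem_erase hl)).trans ?_
    rw [Finset.sum_const, nsmul_eq_mul]
    refine mul_le_mul_of_nonneg_right ?_ (by positivity)
    have : (univ.erase j).card ≤ Fintype.card ι := Finset.card_le_univ _
    exact_mod_cast this
  linarith

theorem FUb_mem {ι : Type} [Fintype ι] [DecidableEq ι] {v0 : ℝ} (hv0 : 0 < v0) {m : ℕ} (hm : vv v0 m ≤ 1 / 2) {j : ι}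
    {x : ι → ℕ} (hx : x ∈ FUbX v0 m j) {a : ℕ} (ha : a ∈ range (m + 1)) : Function.update x j a ∈ AS ι v0 m := by
  unfold FUbX at hx
  rw [Finset.mem_filter, Fintype.mem_piFinset] at hx
  unfold AS
  rw [Finset.mem_filter, Fintype.mem_piFinset]
  constructor
  · intro i
    by_cases hi : i = j
    · subst hi; rw [Function.update_self]; exact ha
    · rw [Function.update_of_ne hi]
      have := hx.1 i
      unfold FUbt at this
      rwa [if_neg hi] at this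
  · rw [← Finset.add_sum_erase univ _ (mem_univ j), Function.update_self,
      Finset.sum_congr rfl (g := fun i => vv v0 (x i))
        (fun i hi => by rw [Function.update_of_ne (Finset.ne_of_mem_erase hi)])]
    have h1 := FUb_vv_le hv0 (Nat.lt_succ_iff.1 (mem_range.1 ha))
    linarith [hx.2]

theorem FUb_term {ι : Type} [Fintype ι] [DecidableEq ι] (v0 : ℝ) (j : ι) (x : ι → ℕ) (a b : ℕ) :
    (∏ i, if i ∈ ({j} : Finset ι) then (vv v0 (Function.update x j a i))⁻¹ * wv v0 (Function.update x j a i) *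
      ((vv v0 (Function.update x j b i))⁻¹ * wv v0 (Function.update x j b i))
    else if Function.update x j a i = Function.update x j b i then
      ((vv v0 (Function.update x j a i))⁻¹) ^ 2 * wv v0 (Function.update x j a i) else 0) =
    ((vv v0 a)⁻¹ * wv v0 a) * ((vv v0 b)⁻¹ * wv v0 b) * ∏ i, FUbf v0 j i (x i) := by
  rw [← Finset.mul_prod_erase univ _ (mem_univ j),
    ← Finset.mul_prod_erase univ (fun i => FUbf v0 j i (x i)) (mem_univ j)]
  rw [if_pos (mem_singleton_self j), Function.update_self, Function.update_self]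
  have e1 : FUbf v0 j j (x j) = 1 := by unfold FUbf; rw [if_pos rfl]
  rw [e1, one_mul]
  congr 1
  refine Finset.prod_congr rfl fun i hi => ?_
  have hij : i ≠ j := Finset.ne_of_mem_erase hi
  rw [if_neg (by simpa using hij), Function.update_of_ne hij, Function.update_of_ne hij, if_pos rfl]
  unfold FUbf
  rw [if_neg hij]

theorem FI_ge {v0 : ℝ} (hv0 : 0 < v0) (m : ℕ) (hm : vv v0 m ≤ 1 / 2) (ι : Type) [Fintype ι] [DecidableEq ι] (j : ι) :
    (1 - 2 * Fintype.card ι * aI v0 m * v0) * (aI v0 m ^ 2 * bI v0 m ^ (Fintype.card ι - 1)) ≤ FI ι v0 m {j} := by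
  have hnn : ∀ n n' : ι → ℕ, 0 ≤ ∏ i, (if i ∈ ({j} : Finset ι) then (vv v0 (n i))⁻¹ * wv v0 (n i) *
      ((vv v0 (n' i))⁻¹ * wv v0 (n' i)) else if n i = n' i then ((vv v0 (n i))⁻¹) ^ 2 * wv v0 (n i) else 0) := by
    intro n n'
    refine Finset.prod_nonneg fun i _ => ?_
    have h1 := FUb_vv hv0 (n i)
    have h2 := FUb_wv hv0 (n i)
    have h3 := FUb_vv hv0 (n' i)
    have h4 := FUb_wv hv0 (n' i)
    split_ifs <;> positivity
  unfold FI
  rw [← Finset.sum_product' (f := fun n n' : ι → ℕ => ∏ i, (if i ∈ ({j} : Finset ι) then (vv v0 (n i))⁻¹ * wv v0 (n i) *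
      ((vv v0 (n' i))⁻¹ * wv v0 (n' i)) else if n i = n' i then ((vv v0 (n i))⁻¹) ^ 2 * wv v0 (n i) else 0))]
  set φ : (ι → ℕ) × ℕ × ℕ → (ι → ℕ) × (ι → ℕ) := fun q => (Function.update q.1 j q.2.1, Function.update q.1 j q.2.2)
    with hφ
  set S := FUbX v0 m j ×ˢ range (m + 1) ×ˢ range (m + 1) with hS
  have hinj : Set.InjOn φ (S : Set ((ι → ℕ) × ℕ × ℕ)) := by
    intro p hp q hq h
    have hp1 := mem_product.1 (mem_coe.1 hp)
    have hq1 := mem_product.1 (mem_coe.1 hq)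
    have e := Prod.mk.inj h
    have e1 : p.2.1 = q.2.1 := by
      have := congrFun e.1 j
      rwa [Function.update_self, Function.update_self] at this
    have e2 : p.2.2 = q.2.2 := by
      have := congrFun e.2 j
      rwa [Function.update_self, Function.update_self] at this
    have e3 : p.1 = q.1 := by
      funext i
      by_cases hi : i = j
      · have z : ∀ x ∈ FUbX v0 m j, x j = 0 := by
          intro x hx
          unfold FUbX at hx
          have := Fintype.mem_piFinset.1 (mem_filter.1 hx).1 j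
          unfold FUbt at this
          rwa [if_pos rfl, mem_singleton] at this
        rw [hi, z _ hp1.1, z _ hq1.1]
      · have := congrFun e.1 i
        rwa [Function.update_of_ne hi, Function.update_of_ne hi] at this
    exact Prod.ext e3 (Prod.ext e1 e2)
  have hsub : S.image φ ⊆ AS ι v0 m ×ˢ AS ι v0 m := by
    intro p hp
    obtain ⟨q, hq, rfl⟩ := mem_image.1 hp
    have hq1 := mem_product.1 hq
    have hq2 := mem_product.1 hq1.2
    exact mem_product.2 ⟨FUb_mem hv0 hm hq1.1 hq2.1, FUb_mem hv0 hm hq1.1 hq2.2⟩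
  refine le_trans ?_ (Finset.sum_le_sum_of_subset_of_nonneg hsub fun p _ _ => hnn p.1 p.2)
  rw [Finset.sum_image hinj]
  have hval : ∑ q ∈ S, (∏ i, (if i ∈ ({j} : Finset ι) then (vv v0 ((φ q).1 i))⁻¹ * wv v0 ((φ q).1 i) *
      ((vv v0 ((φ q).2 i))⁻¹ * wv v0 ((φ q).2 i)) else if (φ q).1 i = (φ q).2 i then
        ((vv v0 ((φ q).1 i))⁻¹) ^ 2 * wv v0 ((φ q).1 i) else 0)) =
      aI v0 m ^ 2 * ∑ x ∈ FUbX v0 m j, ∏ i, FUbf v0 j i (x i) := by
    have e : ∀ q ∈ S, (∏ i, (if i ∈ ({j} : Finset ι) then (vv v0 ((φ q).1 i))⁻¹ * wv v0 ((φ q).1 i) *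
      ((vv v0 ((φ q).2 i))⁻¹ * wv v0 ((φ q).2 i)) else if (φ q).1 i = (φ q).2 i then
        ((vv v0 ((φ q).1 i))⁻¹) ^ 2 * wv v0 ((φ q).1 i) else 0)) =
      ((vv v0 q.2.1)⁻¹ * wv v0 q.2.1) * ((vv v0 q.2.2)⁻¹ * wv v0 q.2.2) * ∏ i, FUbf v0 j i (q.1 i) :=
      fun q _ => FUb_term v0 j q.1 q.2.1 q.2.2
    rw [Finset.sum_congr rfl e, hS,
      Finset.sum_product (f := fun q : (ι → ℕ) × ℕ × ℕ => ((vv v0 q.2.1)⁻¹ * wv v0 q.2.1) *
        ((vv v0 q.2.2)⁻¹ * wv v0 q.2.2) * ∏ i, FUbf v0 j i (q.1 i)), Finset.mul_sum]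
    refine Finset.sum_congr rfl fun x _ => ?_
    dsimp only
    rw [← Finset.sum_mul, Finset.sum_product' (f := fun a b : ℕ => ((vv v0 a)⁻¹ * wv v0 a) * ((vv v0 b)⁻¹ * wv v0 b)),
      ← Finset.sum_mul_sum, pow_two]
    rfl
  rw [hval]
  have h6 := FUb_X hv0 m j
  calc (1 - 2 * Fintype.card ι * aI v0 m * v0) * (aI v0 m ^ 2 * bI v0 m ^ (Fintype.card ι - 1))
      = aI v0 m ^ 2 * ((1 - 2 * Fintype.card ι * aI v0 m * v0) * bI v0 m ^ (Fintype.card ι - 1)) := by ring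
    _ ≤ _ := mul_le_mul_of_nonneg_left h6 (sq_nonneg _)

end EG
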