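import Pool.Agent.H6.EG.Defs2
import Pool.Agent.H6.EG.LamB

/-!
# MP_0e3417 row Pt: pointwise facts

`Rough`: all prime factors which do not divide `Q` are `> T^e0`.
`sM_rough`: for `x = a j t + b j` rough and `n ∈ AS` (`v_{n j} ≤ 1`, so `z_{n j} ≤ T^e0`): a divisor `d > 1` of `x` in `sq Q z_{n j}` has a prime factor `p ≤ d ≤ T^e0` not dividing `Q`, contradiction; so `Fn (sq Q z) (la) x = la 1` (`1 ∈ sq Q z`: `z ≥ 1` as `T ≥ 1`).
`be_prime`: `x` prime, `x > R`: the divisors of `x` in `sq Q R` are `1` only, `lb 1 = 1` (`lam_sel_one`).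
`be_rough`: the divisors `d` of `x` in `sq Q R` are squarefree products of primes `p ∣ x`, `p ∤ Q`, all `> T^e0`; there are at most `2/e0` such primes since their product is `≤ x ≤ T²`. So at most `2^(2/e0)` divisors, `|lb| ≤ 1`, `be ≤ (2^(2/e0))²`.
-/

open Finset

namespace EG

/-- `x` has no small prime factor outside `Q` -/
def Rough (e0 T : ℝ) (Q x : ℕ) : Prop := ∀ p : ℕ, p.Prime → p ∣ x → ¬ p ∣ Q → T ^ e0 < p

theorem Pt_filter {Q z x : ℕ} (hz : 1 ≤ z) (h : ∀ p : ℕ, p.Prime → p ∣ x → ¬ p ∣ Q → z < p) :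
    (sq Q z).filter (fun d => d ∣ x) = {1} := by
  ext d
  rw [Finset.mem_filter, Finset.mem_singleton]
  unfold sq
  rw [Finset.mem_filter, Finset.mem_Icc]
  constructor
  · rintro ⟨⟨⟨h1, h2⟩, _, h4⟩, h5⟩
    by_contra hd
    have hp := Nat.minFac_prime hd
    have hpd := Nat.minFac_dvd d
    have hpQ : ¬ d.minFac ∣ Q := by
      intro hQ
      have h6 : d.minFac ∣ Nat.gcd d Q := Nat.dvd_gcd hpd hQ
      rw [h4.gcd_eq_one] at h6
      exact hp.one_lt.ne' (Nat.dvd_one.1 h6)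
    have h7 := h _ hp (hpd.trans h5) hpQ
    have h8 := Nat.le_of_dvd h1 hpd
    omega
  · rintro rfl
    exact ⟨⟨⟨le_refl _, hz⟩, squarefree_one, Nat.coprime_one_left Q⟩, one_dvd x⟩

theorem Pt_vv {ι : Type} [Fintype ι] [DecidableEq ι] {v0 : ℝ} (hv0 : 0 < v0) {m : ℕ} {n : ι → ℕ} (hn : n ∈ AS ι v0 m) (j : ι) :
    vv v0 (n j) ≤ 1 := by
  unfold AS at hn
  rw [Finset.mem_filter] at hn
  refine le_trans ?_ hn.2
  apply Finset.single_le_sum (f := fun i => vv v0 (n i)) _ (Finset.mem_univ j)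
  intro i _
  unfold vv
  positivity

theorem Pt_zz {e0 v0 T : ℝ} (he0 : 0 < e0) (hv0 : 0 < v0) (hT : 1 ≤ T) {n : ℕ} (hn : vv v0 n ≤ 1) :
    1 ≤ zz e0 v0 T n ∧ (zz e0 v0 T n : ℝ) ≤ T ^ e0 := by
  have hv : 0 < vv v0 n := by
    unfold vv
    positivity
  have h1 : (1 : ℝ) ≤ T ^ (e0 * vv v0 n) := Real.one_le_rpow hT (by positivity)
  constructor
  · unfold zz
    rw [Nat.one_le_floor_iff]
    exact h1
  · unfold zz
    refine (Nat.floor_le (by linarith)).trans ?_
    apply Real.rpow_le_rpow_of_exponent_le hT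
    nlinarith

theorem sM_rough {ι : Type} [Fintype ι] [DecidableEq ι] {e0 v0 T : ℝ} (he0 : 0 < e0) (hv0 : 0 < v0) (hT : 1 ≤ T) (m Q : ℕ) (a b : ι → ℕ)
    {J : Finset ι} {j : ι} (hj : j ∉ J) {t : ℕ} (h : Rough e0 T Q (a j * t + b j)) (h0 : 1 ≤ a j * t + b j) :
    sM e0 v0 T m Q a b J t = sM e0 v0 T m Q a b (insert j J) t := by
  have _h0 := h0
  unfold sM
  apply Finset.sum_congr rfl
  intro n hn
  apply Finset.prod_congr rfl
  intro i _
  by_cases hij : i = j
  · subst hij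
    rw [if_neg hj, if_pos (Finset.mem_insert_self _ _)]
    obtain ⟨hz1, hz2⟩ := Pt_zz he0 hv0 hT (Pt_vv hv0 hn i)
    have h1 := Pt_filter (Q := Q) (z := zz e0 v0 T (n i)) (x := a i * t + b i) hz1 (by
      intro p hp hpx hpQ
      have h2 := h p hp hpx hpQ
      have h3 : (zz e0 v0 T (n i) : ℝ) < p := lt_of_le_of_lt hz2 h2
      exact_mod_cast h3)
    unfold Fn
    rw [h1, Finset.sum_singleton]
  · by_cases hiJ : i ∈ J
    · rw [if_pos hiJ, if_pos (Finset.mem_insert_of_mem hiJ)]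
    · rw [if_neg hiJ, if_neg]
      intro h4
      rcases Finset.mem_insert.1 h4 with h5 | h5
      · exact hij h5
      · exact hiJ h5

theorem be_prime {Q R x : ℕ} (hR : 1 ≤ R) (hx : x.Prime) (h : R < x) : be Q R x = 1 := by
  have h1 := Pt_filter (Q := Q) (z := R) (x := x) hR (by
    intro p hp hpx _
    rw [(Nat.prime_dvd_prime_iff_eq hp hx).1 hpx]
    exact h)
  unfold be Fn
  rw [h1, Finset.sum_singleton]
  unfold lb
  rw [lam_sel_one Q R hR, one_pow]

theorem be_rough {e0 T : ℝ} (he0 : 0 < e0) (hT : 1 < T) {Q R x : ℕ} (hR : 1 ≤ R) (hx : 1 ≤ x) (hxT : (x : ℝ) ≤ T ^ (2 : ℝ)) (h : Rough e0 T Q x) :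
    be Q R x ≤ (4 : ℝ) ^ (2 / e0) := by
  have hT0 : 0 < T := by linarith
  set P : Finset ℕ := x.primeFactors.filter (fun p => ¬ p ∣ Q) with hP
  set D : Finset ℕ := (sq Q R).filter (fun d => d ∣ x) with hD
  -- the number of primes
  have hcard : (P.card : ℝ) ≤ 2 / e0 := by
    have h1 : (∏ p ∈ P, p : ℕ) ∣ x := by
      refine dvd_trans ?_ (Nat.prod_primeFactors_dvd x)
      exact Finset.prod_dvd_prod_of_subset _ _ _ (Finset.filter_subset _ _)
    have h2 : ((∏ p ∈ P, p : ℕ) : ℝ) ≤ T ^ (2 : ℝ) := by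
      refine le_trans ?_ hxT
      exact_mod_cast Nat.le_of_dvd hx h1
    have h3 : (T ^ e0) ^ P.card ≤ ((∏ p ∈ P, p : ℕ) : ℝ) := by
      push_cast
      rw [← Finset.prod_const]
      apply Finset.prod_le_prod
      · intro p _
        exact Real.rpow_nonneg hT0.le _
      · intro p hp
        rw [hP, Finset.mem_filter, Nat.mem_primeFactors] at hp
        exact (h p hp.1.1 hp.1.2.1 hp.2).le
    have h4 : T ^ (e0 * P.card) ≤ T ^ (2 : ℝ) := by
      rw [Real.rpow_mul hT0.le, Real.rpow_natCast]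
      exact h3.trans h2
    have h5 : e0 * P.card ≤ 2 := (Real.rpow_le_rpow_left_iff hT).1 h4
    rw [le_div_iff₀ he0]
    linarith
  have hDc : D.card ≤ 2 ^ P.card := by
    rw [← Finset.card_powerset]
    apply Finset.card_le_card_of_injOn (fun d => d.primeFactors)
    · intro d hd
      rw [Finset.mem_coe, hD, Finset.mem_filter] at hd
      rw [Finset.mem_coe, Finset.mem_powerset]
      intro p hp
      rw [hP, Finset.mem_filter]
      have hp' := Nat.mem_primeFactors.1 hp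
      refine ⟨Nat.mem_primeFactors.2 ⟨hp'.1, hp'.2.1.trans hd.2, by omega⟩, ?_⟩
      intro hQ
      have h4 : Nat.Coprime d Q := by
        have h5 := hd.1
        unfold sq at h5
        rw [Finset.mem_filter] at h5
        exact h5.2.2
      have h6 : p ∣ Nat.gcd d Q := Nat.dvd_gcd hp'.2.1 hQ
      rw [h4.gcd_eq_one] at h6
      exact hp'.1.one_lt.ne' (Nat.dvd_one.1 h6)
    · intro d hd d' hd' hdd
      rw [Finset.mem_coe, hD, Finset.mem_filter] at hd hd'
      have h5 := hd.1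
      have h6 := hd'.1
      unfold sq at h5 h6
      rw [Finset.mem_filter] at h5 h6
      have h7 := Nat.prod_primeFactors_of_squarefree h5.2.1
      have h8 := Nat.prod_primeFactors_of_squarefree h6.2.1
      simp only at hdd
      rw [← h7, ← h8, hdd]
  have hFn : |Fn (sq Q R) (lb Q R) x| ≤ (2 : ℝ) ^ P.card := by
    unfold Fn
    refine (Finset.abs_sum_le_sum_abs _ _).trans ?_
    have h1 : ∑ d ∈ D, |lb Q R d| ≤ ∑ d ∈ D, (1 : ℝ) := by
      apply Finset.sum_le_sum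
      intro d _
      exact lam_sel_le Q R hR d
    refine h1.trans ?_
    rw [Finset.sum_const, nsmul_eq_mul, mul_one]
    exact_mod_cast hDc
  unfold be
  have h9 : Fn (sq Q R) (lb Q R) x ^ 2 ≤ ((2 : ℝ) ^ P.card) ^ 2 := by
    rw [← sq_abs (Fn (sq Q R) (lb Q R) x)]
    exact pow_le_pow_left₀ (abs_nonneg _) hFn 2
  refine h9.trans ?_
  have h10 : ((2 : ℝ) ^ P.card) ^ 2 = (4 : ℝ) ^ (P.card : ℝ) := by
    rw [Real.rpow_natCast, ← pow_mul, mul_comm, pow_mul]
    norm_num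
  rw [h10]
  exact Real.rpow_le_rpow_of_exponent_le (by norm_num) hcard

end EG
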