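import Pool.Agent.H6.EG.Defs

/-!
# MP_0e3417 row CfgA: generic parameters of the configuration

Proof. Put `e(i) = k * i.1 + i.2 + 1 ∈ ℕ` (injective in `i`, `≥ 1`) and `H i = Z ^ e(i)`, `Z ≥ 2` to be chosen (then `H` is injective). For fixed
`i, i', j, j'` as in the statement the difference `u v' - u' v` of the two sides is a polynomial in `Z` with integer coefficients
`Δ(Z) = U W^{j.1-j'.1+1} Z^{e(j)} - U W Z^{e(j')} - V W^{i.1-i'.1+1} Z^{e(i)} + V W Z^{e(i')} + const`, `U = cu i i' > 0`, `V = cu j j' > 0`. It is not the zero polynomial: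
* if `i ≠ j` and `i ≠ j'`: the coefficient of `Z^{e(i)}` is `- V W^{..} ≠ 0` (`i ≠ i'`);
* if `i = j` : then `i' ≠ j'`, also `i' ≠ j = i`, so the coefficient of `Z^{e(i')}` is `V W ≠ 0`;
* if `i = j'`: then `j ≠ i`, and `j ≠ i'` since `j.1 > j'.1 = i.1 > i'.1`; the coefficient of `Z^{e(j)}` is `U W^{..} ≠ 0`.
There are finitely many such polynomials, each with finitely many roots; take `Z ≥ 2` a natural number which is none of the roots.
-/

open Finset

namespace EG

/-- leading coefficient of the difference of two elements of the configuration -/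
def cu {M k : ℕ} (W : ℕ) (i i' : Fin M × Fin k) : ℤ := ((i.1 : ℕ) - (i'.1 : ℕ) : ℤ) * (W : ℤ) ^ (M + 1 - (i'.1 : ℕ))

/-- constant term of the difference of two elements of the configuration -/
def cv {M k : ℕ} (W : ℕ) (H : Fin M × Fin k → ℕ) (i i' : Fin M × Fin k) : ℤ :=
  (W : ℤ) ^ ((i.1 : ℕ) - (i'.1 : ℕ)) * (1 + W * H i) - (1 + W * H i')

open Polynomial in
/-- the difference of the two sides as a polynomial in `Z` -/
noncomputable def CfgA_Q (U V a b : ℤ) (c : ℤ) (W : ℤ) (ei ei' ej ej' : ℕ) : ℤ[X] :=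
  C (U * a * W) * X ^ ej - C (U * W) * X ^ ej' - (C (V * b * W) * X ^ ei - C (V * W) * X ^ ei')
    + C c

open Polynomial in
theorem CfgA_coeff (U V a b c W : ℤ) (ei ei' ej ej' m : ℕ) (hm : m ≠ 0) :
    (CfgA_Q U V a b c W ei ei' ej ej').coeff m =
      (if m = ej then U * a * W else 0) - (if m = ej' then U * W else 0)
        - ((if m = ei then V * b * W else 0) - (if m = ei' then V * W else 0)) := by
  unfold CfgA_Q
  rw [coeff_add, coeff_sub, coeff_sub, coeff_sub, coeff_C_mul_X_pow, coeff_C_mul_X_pow,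
    coeff_C_mul_X_pow, coeff_C_mul_X_pow, coeff_C_ne_zero hm, add_zero]

theorem CfgA_fin (P : Polynomial ℤ) (hP : P ≠ 0) : {z : ℕ | P.eval (z : ℤ) = 0}.Finite := by
  have h1 : {x : ℤ | P.IsRoot x}.Finite := Polynomial.finite_setOf_isRoot hP
  refine (h1.preimage (f := fun z : ℕ => (z : ℤ)) (Nat.cast_injective.injOn)).subset ?_
  intro z hz
  exact hz

theorem cfgA (M k W : ℕ) (hW : 2 ≤ W) :
    ∃ H : Fin M × Fin k → ℕ, Function.Injective H ∧ ∀ i i' j j' : Fin M × Fin k, i'.1 < i.1 → j'.1 < j.1 → (i, i') ≠ (j, j') →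
      cu W i i' * cv W H j j' ≠ cu W j j' * cv W H i i' := by
  classical
  have hW0 : (W : ℤ) ≠ 0 := by
    have : W ≠ 0 := by omega
    exact_mod_cast this
  let e : Fin M × Fin k → ℕ := fun i => (finProdFinEquiv i).val + 1
  have he : Function.Injective e := fun i j h =>
    finProdFinEquiv.injective (Fin.ext (Nat.succ.inj h))
  have he0 : ∀ i, e i ≠ 0 := fun i => Nat.succ_ne_zero _
  have hcu : ∀ i i' : Fin M × Fin k, i'.1 < i.1 → cu W i i' ≠ 0 := by
    intro i i' h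
    unfold cu
    refine mul_ne_zero ?_ (pow_ne_zero _ hW0)
    have h1 : (i'.1 : ℕ) < (i.1 : ℕ) := h
    have h2 : ((i'.1 : ℕ) : ℤ) < ((i.1 : ℕ) : ℤ) := by exact_mod_cast h1
    omega
  let Q : (Fin M × Fin k) × (Fin M × Fin k) × (Fin M × Fin k) × (Fin M × Fin k) → Polynomial ℤ :=
    fun t => CfgA_Q (cu W t.1 t.2.1) (cu W t.2.2.1 t.2.2.2)
      ((W : ℤ) ^ ((t.2.2.1.1 : ℕ) - (t.2.2.2.1 : ℕ))) ((W : ℤ) ^ ((t.1.1 : ℕ) - (t.2.1.1 : ℕ)))
      (cu W t.1 t.2.1 * ((W : ℤ) ^ ((t.2.2.1.1 : ℕ) - (t.2.2.2.1 : ℕ)) - 1)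
        - cu W t.2.2.1 t.2.2.2 * ((W : ℤ) ^ ((t.1.1 : ℕ) - (t.2.1.1 : ℕ)) - 1))
      W (e t.1) (e t.2.1) (e t.2.2.1) (e t.2.2.2)
  have hQ : ∀ i i' j j' : Fin M × Fin k, i'.1 < i.1 → j'.1 < j.1 → (i, i') ≠ (j, j') →
      Q (i, i', j, j') ≠ 0 := by
    intro i i' j j' hi hj hne h0
    have hU := hcu i i' hi
    have hV := hcu j j' hj
    have hii : i ≠ i' := fun h => by rw [h] at hi; exact lt_irrefl _ hi
    have hjj : j ≠ j' := fun h => by rw [h] at hj; exact lt_irrefl _ hj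
    have hc : ∀ m, m ≠ 0 → (Q (i, i', j, j')).coeff m = 0 := fun m _ => by
      rw [h0, Polynomial.coeff_zero]
    have pw : ∀ n : ℕ, (W : ℤ) ^ n ≠ 0 := fun n => pow_ne_zero _ hW0
    by_cases h1 : i = j
    · have h2 : i' ≠ j' := fun h => hne (by rw [h1, h])
      have h3 := hc (e i') (he0 _)
      rw [CfgA_coeff _ _ _ _ _ _ _ _ _ _ _ (he0 _)] at h3
      have e1 : e i' ≠ e j := fun h => hii (h1.trans (he h).symm)
      have e2 : e i' ≠ e j' := fun h => h2 (he h)
      have e3 : e i' ≠ e i := fun h => hii (he h).symm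
      simp only [e1, e2, e3, if_false, if_true, if_pos] at h3
      have h4 : cu W j j' * (W : ℤ) = 0 := by linarith
      exact mul_ne_zero hV hW0 h4
    · by_cases h2 : i = j'
      · have h3 := hc (e j) (he0 _)
        rw [CfgA_coeff _ _ _ _ _ _ _ _ _ _ _ (he0 _)] at h3
        have hij' : j ≠ i' := by
          intro h
          have a1 : (i'.1 : Fin M) < j'.1 := by rw [← h2]; exact hi
          have a2 := a1.trans hj
          rw [h] at a2
          exact lt_irrefl _ a2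
        have e1 : e j ≠ e j' := fun h => hjj (he h)
        have e2 : e j ≠ e i := fun h => h1 (he h).symm
        have e3 : e j ≠ e i' := fun h => hij' (he h)
        simp only [e1, e2, e3, if_false, if_true, if_pos] at h3
        have h4 : cu W i i' * (W : ℤ) ^ ((j.1 : ℕ) - (j'.1 : ℕ)) * (W : ℤ) = 0 := by linarith
        exact mul_ne_zero (mul_ne_zero hU (pw _)) hW0 h4
      · have h3 := hc (e i) (he0 _)
        rw [CfgA_coeff _ _ _ _ _ _ _ _ _ _ _ (he0 _)] at h3
        have e1 : e i ≠ e j := fun h => h1 (he h)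
        have e2 : e i ≠ e j' := fun h => h2 (he h)
        have e3 : e i ≠ e i' := fun h => hii (he h)
        simp only [e1, e2, e3, if_false, if_true, if_pos] at h3
        have h4 : cu W j j' * (W : ℤ) ^ ((i.1 : ℕ) - (i'.1 : ℕ)) * (W : ℤ) = 0 := by linarith
        exact mul_ne_zero (mul_ne_zero hV (pw _)) hW0 h4
  have hev : ∀ (Z : ℕ) (i i' j j' : Fin M × Fin k), (Q (i, i', j, j')).eval (Z : ℤ) =
      cu W i i' * cv W (fun a => Z ^ e a) j j' - cu W j j' * cv W (fun a => Z ^ e a) i i' := by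
    intro Z i i' j j'
    simp only [Q, CfgA_Q, cv, Polynomial.eval_add, Polynomial.eval_sub, Polynomial.eval_mul,
      Polynomial.eval_C, Polynomial.eval_pow, Polynomial.eval_X]
    push_cast
    ring
  let S : Set ((Fin M × Fin k) × (Fin M × Fin k) × (Fin M × Fin k) × (Fin M × Fin k)) :=
    {t | Q t ≠ 0}
  have hfin : (⋃ t ∈ S, {z : ℕ | (Q t).eval (z : ℤ) = 0}).Finite :=
    Set.Finite.biUnion (Set.toFinite S) fun t ht => CfgA_fin _ ht
  obtain ⟨Z, hZ⟩ := ((Set.finite_le_nat 1).union hfin).infinite_compl.nonempty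
  rw [Set.mem_compl_iff, Set.mem_union, not_or] at hZ
  obtain ⟨hZ1, hZ2⟩ := hZ
  have hZ3 : 2 ≤ Z := by
    by_contra h
    exact hZ1 (by change Z ≤ 1; omega)
  refine ⟨fun a => Z ^ e a, fun a b h => he (Nat.pow_right_injective hZ3 h), ?_⟩
  intro i i' j j' hi hj hne h
  apply hZ2
  rw [Set.mem_iUnion₂]
  refine ⟨(i, i', j, j'), hQ i i' j j' hi hj hne, ?_⟩
  change (Q (i, i', j, j')).eval (Z : ℤ) = 0
  rw [hev, h, sub_self]

end EG
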