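import Pool.Agent.H6.EG.Defs

/-!
# MP_0e3417 row CfgB: a value where finitely many linear forms are pairwise coprime

Proof. Let `𝒫` be the set of primes `p > P1` which divide `∏_{a ≠ b} (u a v b - u b v a)` (a nonzero integer, so `𝒫` is finite). For `p ∈ 𝒫` choose a
residue `g_p` mod `p` with `u a g_p + v a ≢ 0` mod `p` for all `a ∈ s`: for each `a` exactly one residue is bad (`p` does not divide `u a`), and
`s.card < P1 < p`. By the Chinese remainder theorem there is `G ≥ LB` with `G ≡ g_p` mod `p` for all `p ∈ 𝒫` (add a multiple of `∏ 𝒫`).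
If a prime `p` divides the values of `a ≠ b` at `G`: `p > P1` by `hsmall`; `p` divides
`u b (u a G + v a) - u a (u b G + v b) = u b v a - u a v b ≠ 0`, so `p ∈ 𝒫`; contradiction to the choice of `g_p`.
-/

open Finset

namespace EG

theorem cfgB {α : Type} [DecidableEq α] (s : Finset α) (u v : α → ℤ) (P1 : ℕ) (hP : s.card < P1)
    (hu : ∀ a ∈ s, ∀ p : ℕ, p.Prime → P1 < p → ¬ (p : ℤ) ∣ u a)
    (hsmall : ∀ a ∈ s, ∀ p : ℕ, p.Prime → p ≤ P1 → ∀ G : ℤ, ¬ (p : ℤ) ∣ u a * G + v a)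
    (hdet : ∀ a ∈ s, ∀ b ∈ s, a ≠ b → u a * v b ≠ u b * v a) (LB : ℕ) :
    ∃ G : ℕ, LB ≤ G ∧ ∀ a ∈ s, ∀ b ∈ s, a ≠ b → IsCoprime (u a * G + v a) (u b * G + v b) := by
  classical
  set D : ℤ := ∏ q ∈ s.offDiag, (u q.1 * v q.2 - u q.2 * v q.1) with hD
  have hD0 : D ≠ 0 := by
    rw [hD, Finset.prod_ne_zero_iff]
    intro q hq
    rw [Finset.mem_offDiag] at hq
    exact sub_ne_zero.mpr (hdet q.1 hq.1 q.2 hq.2.1 hq.2.2)
  set S : Finset ℕ := D.natAbs.primeFactors.filter (fun p => P1 < p) with hS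
  have hSp : ∀ p ∈ S, p.Prime ∧ P1 < p := by
    intro p hp
    rw [hS, Finset.mem_filter] at hp
    exact ⟨Nat.prime_of_mem_primeFactors hp.1, hp.2⟩
  have hres : ∀ p ∈ S, ∃ g : ℕ, ∀ a ∈ s, ¬ (p : ℤ) ∣ u a * g + v a := by
    intro p hp
    obtain ⟨hpp, hpP⟩ := hSp p hp
    have := Fact.mk hpp
    set bad : Finset (ZMod p) := s.image (fun a => -((v a : ℤ) : ZMod p) / ((u a : ℤ) : ZMod p)) with hbad
    have hcard : bad.card < (Finset.univ : Finset (ZMod p)).card := by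
      rw [Finset.card_univ, ZMod.card]
      exact lt_of_le_of_lt Finset.card_image_le (lt_trans hP hpP)
    obtain ⟨g, -, hg⟩ := Finset.exists_mem_notMem_of_card_lt_card hcard
    refine ⟨g.val, ?_⟩
    intro a ha hdvd
    apply hg
    rw [hbad, Finset.mem_image]
    refine ⟨a, ha, ?_⟩
    have hu0 : ((u a : ℤ) : ZMod p) ≠ 0 := by
      intro h
      exact hu a ha p hpp hpP ((ZMod.intCast_zmod_eq_zero_iff_dvd _ _).mp h)
    have h1 : (((u a * (g.val : ℤ) + v a : ℤ)) : ZMod p) = 0 :=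
      (ZMod.intCast_zmod_eq_zero_iff_dvd _ _).mpr hdvd
    push_cast at h1
    rw [ZMod.natCast_zmod_val] at h1
    rw [div_eq_iff hu0]
    linear_combination -h1
  choose! g hg using hres
  obtain ⟨k, hk⟩ := Nat.chineseRemainderOfFinset g (fun p => p) S
    (fun p hp => (hSp p hp).1.ne_zero)
    (by
      intro p hp q hq hpq
      exact (Nat.coprime_primes (hSp p hp).1 (hSp q hq).1).mpr hpq)
  have hprod : 1 ≤ ∏ p ∈ S, p := Finset.prod_pos (fun p hp => (hSp p hp).1.pos)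
  refine ⟨k + LB * ∏ p ∈ S, p, ?_, ?_⟩
  · calc LB = LB * 1 := (mul_one _).symm
      _ ≤ LB * ∏ p ∈ S, p := Nat.mul_le_mul_left _ hprod
      _ ≤ _ := Nat.le_add_left _ _
  · intro a ha b hb hab
    rw [Int.isCoprime_iff_gcd_eq_one]
    by_contra hne
    obtain ⟨p, hp, hpd⟩ := Nat.exists_prime_and_dvd hne
    have hpd' : (p : ℤ) ∣ (Int.gcd (u a * ((k + LB * ∏ p ∈ S, p : ℕ) : ℤ) + v a)
        (u b * ((k + LB * ∏ p ∈ S, p : ℕ) : ℤ) + v b) : ℤ) := Int.natCast_dvd_natCast.mpr hpd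
    have h1 := hpd'.trans (Int.gcd_dvd_left _ _)
    have h2 := hpd'.trans (Int.gcd_dvd_right _ _)
    have hpP : P1 < p := by
      by_contra hle
      push Not at hle
      exact hsmall a ha p hp hle _ h1
    have h3 : (p : ℤ) ∣ u a * v b - u b * v a := by
      have h4 := dvd_sub (Dvd.dvd.mul_left h2 (u a)) (Dvd.dvd.mul_left h1 (u b))
      have h4' : u a * v b - u b * v a = u a * (u b * ((k + LB * ∏ p ∈ S, p : ℕ) : ℤ) + v b)
          - u b * (u a * ((k + LB * ∏ p ∈ S, p : ℕ) : ℤ) + v a) := by ring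
      rw [h4']
      exact h4
    have h5 : (p : ℤ) ∣ D := by
      refine h3.trans ?_
      have h6 : ((a, b) : α × α) ∈ s.offDiag := by
        rw [Finset.mem_offDiag]; exact ⟨ha, hb, hab⟩
      exact Finset.dvd_prod_of_mem (fun q : α × α => u q.1 * v q.2 - u q.2 * v q.1) h6
    have h7 : p ∈ S := by
      rw [hS, Finset.mem_filter, Nat.mem_primeFactors]
      refine ⟨⟨hp, Int.natCast_dvd.mp h5, ?_⟩, hpP⟩
      simpa using hD0
    refine hg p h7 a ha ?_
    have h8 : ((k + LB * ∏ p ∈ S, p : ℕ) : ℤ) ≡ (g p : ℤ) [ZMOD (p : ℤ)] := by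
      have h9 : k ≡ g p [MOD p] := hk p h7
      have h10 : p ∣ LB * ∏ p ∈ S, p := Dvd.dvd.mul_left (Finset.dvd_prod_of_mem _ h7) _
      have h11 : LB * ∏ p ∈ S, p ≡ 0 [MOD p] := (Nat.modEq_zero_iff_dvd).mpr h10
      have h12 := h9.add h11
      rw [add_zero] at h12
      exact (Int.natCast_modEq_iff).mpr h12
    have h13 := (Int.modEq_iff_dvd.mp h8)
    have h14 : u a * (g p : ℤ) + v a = (u a * ((k + LB * ∏ p ∈ S, p : ℕ) : ℤ) + v a)
        + u a * ((g p : ℤ) - ((k + LB * ∏ p ∈ S, p : ℕ) : ℤ)) := by ring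
    rw [h14]
    exact dvd_add h1 (Dvd.dvd.mul_left h13 _)

end EG
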