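import Pool.Agent.H6.EG.CfgA
import Pool.Agent.H6.EG.CfgB

/-!
# MP_0e3417 row CfgC: the configuration

Proof. If `M = 0` or `k = 0` the index type is empty, trivial. Let `P1 = (M k)² + M + 2`, `W = ∏_{p ≤ P1 prime} p` (`primorial P1`), `H` from `cfgA`,
`y i = W^(i.1+1) (1 + W H i)` (natural numbers). Let `s` be the set of pairs `(i, i')` with `i'.1 < i.1` (card `≤ (Mk)² < P1`), `u = cu`, `v = cv`.
`hu`: `cu = (i.1 - i'.1) W^..` with `0 < i.1 - i'.1 < M < P1`, and the primes of `W` are `≤ P1`. `hsmall`: `cu W i i' ≡ 0` mod `W` (exponent `M + 1 - i'.1 ≥ 1`)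
and `cv ≡ -1` mod `W` (exponent `i.1 - i'.1 ≥ 1`), so every value is `≡ -1` mod `W`, hence coprime to `W`. `hdet` is `cfgA`.
`cfgB` gives `G'` arbitrarily large with the values `D(i,i') = cu G' + cv` pairwise coprime; take `G'` so large that all `D(i,i') > 0` and `y i ≤ η G` for all `i`,
`G = W^(M+2) G'`. Put `x i = i.1 G + y i`. Then for `i'.1 < i.1`: `x i - x i' = W^(i'.1+1) D(i,i')` (check: `W^(M+2) = W^(i'.1+1) W^(M+1-i'.1)`).
By the Chinese remainder theorem (moduli `W^(M+1)` and `D(i,i')`, pairwise coprime) there is `B ≥ 1` with `B ≡ 0` mod `W^(M+1)` and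
`B ≡ - x i` mod `D(i,i')` for all pairs. Let `c i = B + x i`. For `i'.1 < i.1`: `c i - c i' = W^(i'.1+1) D(i,i') > 0`; `D(i,i') ∣ c i`; `W^(i'.1+1) ∣ B`,
`W^(i'.1+1) ∣ x i` (as `i.1 + 1 ≥ i'.1 + 1` and `M + 2 ≥ i'.1 + 1`), and `D` is coprime to `W`, so `c i - c i' ∣ c i`.
`|(c i - c i') - (i.1 - i'.1) G| = |y i - y i'| ≤ η G`. Injective: different clusters are ordered by the above; in the same cluster
`y` is injective since `H` is.
-/

open Finset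

namespace EG

/-- product of the primes up to `P` -/
def CfgC_W (P : ℕ) : ℕ := ∏ p ∈ (Finset.range (P + 1)).filter Nat.Prime, p

theorem CfgC_dvd {P p : ℕ} (hp : p.Prime) (h : p ≤ P) : p ∣ CfgC_W P :=
  Finset.dvd_prod_of_mem (fun p => p) (by
    rw [Finset.mem_filter, Finset.mem_range]
    exact ⟨by omega, hp⟩)

theorem CfgC_le {P p : ℕ} (hp : p.Prime) (h : p ∣ CfgC_W P) : p ≤ P := by
  obtain ⟨q, hq, hpq⟩ := (Nat.Prime.prime hp).exists_mem_finset_dvd h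
  rw [Finset.mem_filter, Finset.mem_range] at hq
  have := (Nat.prime_dvd_prime_iff_eq hp hq.2).1 hpq
  omega

theorem CfgC_two {P : ℕ} (h : 2 ≤ P) : 2 ≤ CfgC_W P := by
  have h1 := CfgC_dvd Nat.prime_two h
  have h2 : 0 < CfgC_W P := Finset.prod_pos fun p hp => (Finset.mem_filter.1 hp).2.pos
  exact Nat.le_of_dvd h2 h1

theorem cfg (M k : ℕ) {η : ℝ} (hη : 0 < η) :
    ∃ (G : ℕ) (c : Fin M × Fin k → ℕ), 1 ≤ G ∧ (∀ i, 1 ≤ c i) ∧ Function.Injective c ∧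
      ∀ i i' : Fin M × Fin k, i'.1 < i.1 → c i' < c i ∧ (c i - c i') ∣ c i ∧
        |((c i : ℝ) - c i') - (((i.1 : ℕ) : ℝ) - ((i'.1 : ℕ) : ℝ)) * G| ≤ η * G := by
  classical
  obtain ⟨P1, hP1⟩ : ∃ P1, P1 = (M * k) ^ 2 + M + 2 := ⟨_, rfl⟩
  obtain ⟨W, hWd⟩ : ∃ W, W = CfgC_W P1 := ⟨_, rfl⟩
  have hW2 : 2 ≤ W := hWd ▸ CfgC_two (by omega)
  have hW0 : 0 < W := by omega
  obtain ⟨H, hHinj, hHdet⟩ := cfgA M k W hW2
  obtain ⟨y, hy⟩ : ∃ y : Fin M × Fin k → ℕ, y = fun i => W ^ ((i.1 : ℕ) + 1) * (1 + W * H i) :=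
    ⟨_, rfl⟩
  obtain ⟨Y, hY⟩ : ∃ Y, Y = ∑ i, y i := ⟨_, rfl⟩
  have hyY : ∀ i, y i ≤ Y := fun i => by
    rw [hY]
    exact Finset.single_le_sum (f := y) (fun _ _ => Nat.zero_le _) (Finset.mem_univ i)
  obtain ⟨s, hs⟩ : ∃ s : Finset ((Fin M × Fin k) × (Fin M × Fin k)),
      s = Finset.univ.filter (fun p => p.2.1 < p.1.1) := ⟨_, rfl⟩
  have hms : ∀ p : (Fin M × Fin k) × (Fin M × Fin k), p ∈ s ↔ p.2.1 < p.1.1 := by
    intro p
    rw [hs, Finset.mem_filter]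
    simp
  have hcard : s.card < P1 := by
    have h1 : s.card ≤ (Finset.univ : Finset ((Fin M × Fin k) × (Fin M × Fin k))).card := by
      rw [hs]
      exact Finset.card_filter_le _ _
    have h2 : (Finset.univ : Finset ((Fin M × Fin k) × (Fin M × Fin k))).card = (M * k) ^ 2 := by
      rw [Finset.card_univ, Fintype.card_prod, Fintype.card_prod, Fintype.card_fin,
        Fintype.card_fin]
      ring
    omega
  -- facts on the pairs
  have hlt : ∀ i i' : Fin M × Fin k, i'.1 < i.1 → (i'.1 : ℕ) < (i.1 : ℕ) ∧ (i.1 : ℕ) < M :=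
    fun i i' h => ⟨h, i.1.2⟩
  have hu : ∀ a ∈ s, ∀ p : ℕ, p.Prime → P1 < p → ¬ (p : ℤ) ∣ cu W a.1 a.2 := by
    rintro ⟨i, i'⟩ ha p hp hP hd
    have h0 := (hms _).1 ha
    obtain ⟨h1, h2⟩ := hlt i i' h0
    unfold cu at hd
    rcases (Nat.prime_iff_prime_int.1 hp).dvd_or_dvd hd with h3 | h3
    · have h4 : ((p : ℕ) : ℤ) ∣ (((i.1 : ℕ) - (i'.1 : ℕ) : ℕ) : ℤ) := by
        rw [Nat.cast_sub h1.le]
        exact h3
      have h5 := Nat.le_of_dvd (by omega) (Int.natCast_dvd_natCast.1 h4)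
      omega
    · have h4 := (Nat.prime_iff_prime_int.1 hp).dvd_of_dvd_pow h3
      have h5 := CfgC_le hp (hWd ▸ Int.natCast_dvd_natCast.1 h4)
      omega
  have hsm : ∀ a ∈ s, ∀ p : ℕ, p.Prime → p ≤ P1 → ∀ G : ℤ,
      ¬ (p : ℤ) ∣ cu W a.1 a.2 * G + cv W H a.1 a.2 := by
    rintro ⟨i, i'⟩ ha p hp hP G hd
    have h0 := (hms _).1 ha
    obtain ⟨h1, h2⟩ := hlt i i' h0
    have hpW : (p : ℤ) ∣ (W : ℤ) := Int.natCast_dvd_natCast.2 (hWd ▸ CfgC_dvd hp hP)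
    have c1 : (p : ℤ) ∣ cu W i i' * G := by
      unfold cu
      exact Dvd.dvd.mul_right (Dvd.dvd.mul_left (dvd_pow hpW (by omega)) _) _
    have c2 : (p : ℤ) ∣ cv W H i i' := (dvd_add_right c1).1 hd
    unfold cv at c2
    have c3 : (p : ℤ) ∣ (W : ℤ) ^ ((i.1 : ℕ) - (i'.1 : ℕ)) * (1 + W * H i) :=
      Dvd.dvd.mul_right (dvd_pow hpW (by omega)) _
    have c4 : (p : ℤ) ∣ 1 + (W : ℤ) * H i' := (dvd_sub_right c3).1 c2
    have c5 : (p : ℤ) ∣ (W : ℤ) * H i' := Dvd.dvd.mul_right hpW _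
    have c6 : (p : ℤ) ∣ 1 := (dvd_add_left c5).1 c4
    have c7 : p ∣ 1 := Int.natCast_dvd_natCast.1 (by exact_mod_cast c6)
    exact hp.one_lt.ne' (Nat.dvd_one.1 c7)
  have hdet : ∀ a ∈ s, ∀ b ∈ s, a ≠ b → cu W a.1 a.2 * cv W H b.1 b.2 ≠
      cu W b.1 b.2 * cv W H a.1 a.2 := by
    rintro ⟨i, i'⟩ ha ⟨j, j'⟩ hb hne
    exact hHdet i i' j j' ((hms _).1 ha) ((hms _).1 hb) hne
  obtain ⟨G', hG', hcop⟩ := cfgB s (fun a => cu W a.1 a.2) (fun a => cv W H a.1 a.2) P1 hcard hu hsm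
    hdet (Y + 1 + ⌈(Y : ℝ) / η⌉₊)
  obtain ⟨G, hG⟩ : ∃ G, G = W ^ (M + 2) * G' := ⟨_, rfl⟩
  have hGG : G' ≤ G := by
    rw [hG]
    exact Nat.le_mul_of_pos_left _ (pow_pos hW0 _)
  have hG1 : 1 ≤ G := by omega
  have hηG : (Y : ℝ) ≤ η * G := by
    have h1 : (Y : ℝ) / η ≤ G := by
      refine (Nat.le_ceil _).trans ?_
      exact_mod_cast (show ⌈(Y : ℝ) / η⌉₊ ≤ G by omega)
    rw [div_le_iff₀ hη] at h1
    linarith
  -- the values
  obtain ⟨D, hD⟩ : ∃ D : (Fin M × Fin k) × (Fin M × Fin k) → ℤ,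
      D = fun a => cu W a.1 a.2 * G' + cv W H a.1 a.2 := ⟨_, rfl⟩
  have hDpos : ∀ a ∈ s, 0 < D a := by
    rintro ⟨i, i'⟩ ha
    obtain ⟨h1, h2⟩ := hlt i i' ((hms _).1 ha)
    have hcu : (1 : ℤ) ≤ cu W i i' := by
      unfold cu
      have e1 : (1 : ℤ) ≤ ((i.1 : ℕ) : ℤ) - ((i'.1 : ℕ) : ℤ) := by
        have : ((i'.1 : ℕ) : ℤ) < ((i.1 : ℕ) : ℤ) := by exact_mod_cast h1
        omega
      have e2 : (1 : ℤ) ≤ (W : ℤ) ^ (M + 1 - (i'.1 : ℕ)) := by
        exact_mod_cast Nat.one_le_pow _ _ hW0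
      nlinarith
    have hcv : -(Y : ℤ) ≤ cv W H i i' := by
      unfold cv
      have e1 : (0 : ℤ) ≤ (W : ℤ) ^ ((i.1 : ℕ) - (i'.1 : ℕ)) * (1 + W * H i) := by positivity
      have e2 : 1 + W * H i' ≤ Y := by
        refine le_trans ?_ (hyY i')
        rw [hy]
        exact Nat.le_mul_of_pos_left _ (pow_pos hW0 _)
      have e3 : (1 : ℤ) + W * H i' ≤ Y := by exact_mod_cast e2
      linarith
    rw [hD]
    show 0 < cu W i i' * G' + cv W H i i'
    have h3 : (Y : ℤ) + 1 ≤ G' := by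
      have : Y + 1 ≤ G' := by omega
      exact_mod_cast this
    have h4 : (G' : ℤ) ≤ cu W i i' * G' := by nlinarith
    linarith
  obtain ⟨Dn, hDn⟩ : ∃ Dn : (Fin M × Fin k) × (Fin M × Fin k) → ℕ, Dn = fun a => (D a).toNat :=
    ⟨_, rfl⟩
  have hDnD : ∀ a ∈ s, ((Dn a : ℕ) : ℤ) = D a := by
    intro a ha
    rw [hDn]
    exact Int.toNat_of_nonneg (hDpos a ha).le
  have hDnpos : ∀ a ∈ s, 0 < Dn a := by
    intro a ha
    have := hDpos a ha
    rw [← hDnD a ha] at this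
    exact_mod_cast this
  have hDncop : ∀ a ∈ s, ∀ b ∈ s, a ≠ b → Nat.Coprime (Dn a) (Dn b) := by
    intro a ha b hb hab
    rw [← Nat.isCoprime_iff_coprime, hDnD a ha, hDnD b hb]
    have := hcop a ha b hb hab
    rw [hD]
    exact this
  have hDnW : ∀ a ∈ s, Nat.Coprime (Dn a) W := by
    intro a ha
    rw [Nat.coprime_iff_gcd_eq_one]
    by_contra hne
    obtain ⟨p, hp, hpd⟩ := Nat.exists_prime_and_dvd hne
    have h1 : p ∣ Dn a := hpd.trans (Nat.gcd_dvd_left _ _)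
    have h2 : p ∣ W := hpd.trans (Nat.gcd_dvd_right _ _)
    have h3 : p ≤ P1 := CfgC_le hp (hWd ▸ h2)
    have h4 : (p : ℤ) ∣ D a := by
      rw [← hDnD a ha]
      exact Int.natCast_dvd_natCast.2 h1
    rw [hD] at h4
    exact hsm a ha p hp h3 _ h4
  -- the numbers x
  obtain ⟨x, hx⟩ : ∃ x : Fin M × Fin k → ℕ, x = fun i => (i.1 : ℕ) * G + y i := ⟨_, rfl⟩
  have hxdiff : ∀ i i' : Fin M × Fin k, i'.1 < i.1 →
      x i = x i' + W ^ ((i'.1 : ℕ) + 1) * Dn (i, i') := by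
    intro i i' h
    obtain ⟨h1, h2⟩ := hlt i i' h
    have hmem : (i, i') ∈ s := (hms _).2 h
    have e : (x i : ℤ) = x i' + (W : ℤ) ^ ((i'.1 : ℕ) + 1) * Dn (i, i') := by
      rw [hDnD _ hmem, hD, hx, hy, hG]
      simp only
      unfold cu cv
      push_cast
      have p1 : (W : ℤ) ^ (M + 2) = (W : ℤ) ^ ((i'.1 : ℕ) + 1) * (W : ℤ) ^ (M + 1 - (i'.1 : ℕ)) := by
        rw [← pow_add]
        congr 1
        omega
      have p2 : (W : ℤ) ^ ((i.1 : ℕ) + 1) = (W : ℤ) ^ ((i'.1 : ℕ) + 1) *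
          (W : ℤ) ^ ((i.1 : ℕ) - (i'.1 : ℕ)) := by
        rw [← pow_add]
        congr 1
        omega
      rw [p1, p2]
      ring
    exact_mod_cast e
  -- Chinese remainder theorem
  have hcr : ∃ B : ℕ, 1 ≤ B ∧ W ^ (M + 1) ∣ B ∧ ∀ i i' : Fin M × Fin k, i'.1 < i.1 →
      Dn (i, i') ∣ B + x i := by
    obtain ⟨B1, hB1⟩ := Nat.chineseRemainderOfFinset (fun a => (Dn a - 1) * x a.1) Dn s
      (fun a ha => (hDnpos a ha).ne') (fun a ha b hb hab => hDncop a ha b hb hab)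
    have hco : Nat.Coprime (∏ a ∈ s, Dn a) (W ^ (M + 1)) :=
      Nat.Coprime.pow_right _ (Nat.Coprime.prod_left fun a ha => hDnW a ha)
    obtain ⟨B2, hB2, hB2'⟩ := Nat.chineseRemainder hco B1 0
    refine ⟨B2 + (∏ a ∈ s, Dn a) * W ^ (M + 1), ?_, ?_, ?_⟩
    · have h1 : 0 < (∏ a ∈ s, Dn a) * W ^ (M + 1) :=
        Nat.mul_pos (Finset.prod_pos fun a ha => hDnpos a ha) (pow_pos hW0 _)
      omega
    · exact dvd_add ((Nat.modEq_zero_iff_dvd).1 hB2') (Dvd.intro_left _ rfl)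
    · intro i i' h
      have hmem : (i, i') ∈ s := (hms _).2 h
      have h1 : Dn (i, i') ∣ ∏ a ∈ s, Dn a := Finset.dvd_prod_of_mem Dn hmem
      have h2 : B2 ≡ B1 [MOD Dn (i, i')] := Nat.ModEq.of_dvd h1 hB2
      have h3 : B1 ≡ (Dn (i, i') - 1) * x i [MOD Dn (i, i')] := hB1 (i, i') hmem
      have h4 : B2 + x i ≡ (Dn (i, i') - 1) * x i + x i [MOD Dn (i, i')] :=
        (h2.trans h3).add_right _
      have h5 : (Dn (i, i') - 1) * x i + x i = Dn (i, i') * x i := by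
        have h6 : Dn (i, i') = (Dn (i, i') - 1) + 1 := by
          have := hDnpos _ hmem
          omega
        nth_rewrite 2 [h6]
        ring
      rw [h5] at h4
      have h7 : Dn (i, i') ∣ B2 + x i :=
        (Nat.modEq_zero_iff_dvd).1 (h4.trans ((Nat.modEq_zero_iff_dvd).2 (Dvd.intro _ rfl)))
      have h8 : B2 + (∏ a ∈ s, Dn a) * W ^ (M + 1) + x i =
          (B2 + x i) + (∏ a ∈ s, Dn a) * W ^ (M + 1) := by ring
      rw [h8]
      exact dvd_add h7 (h1.mul_right _)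
  obtain ⟨B, hB1, hBW, hBD⟩ := hcr
  have hord : ∀ i i' : Fin M × Fin k, i'.1 < i.1 → x i' < x i := by
    intro i i' h
    rw [hxdiff i i' h]
    have h1 : 0 < W ^ ((i'.1 : ℕ) + 1) * Dn (i, i') :=
      Nat.mul_pos (pow_pos hW0 _) (hDnpos _ ((hms _).2 h))
    omega
  refine ⟨G, fun i => B + x i, hG1, fun i => by show 1 ≤ B + x i; omega, ?_, ?_⟩
  · intro i j hij
    have hij' : x i = x j := Nat.add_left_cancel hij
    rcases lt_trichotomy i.1 j.1 with h | h | h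
    · exact absurd hij' (hord j i h).ne
    · rw [hx] at hij'
      simp only [h] at hij'
      have h1 : y i = y j := Nat.add_left_cancel hij'
      rw [hy] at h1
      simp only [h] at h1
      have h2 : 1 + W * H i = 1 + W * H j := Nat.eq_of_mul_eq_mul_left (pow_pos hW0 _) h1
      have h3 : W * H i = W * H j := Nat.add_left_cancel h2
      exact hHinj (Nat.eq_of_mul_eq_mul_left hW0 h3)
    · exact absurd hij' (hord i j h).ne'
  · intro i i' h
    obtain ⟨h1, h2⟩ := hlt i i' h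
    have hmem : (i, i') ∈ s := (hms _).2 h
    have hd := hxdiff i i' h
    have hsub : (B + x i) - (B + x i') = W ^ ((i'.1 : ℕ) + 1) * Dn (i, i') := by omega
    refine ⟨?_, ?_, ?_⟩
    · show B + x i' < B + x i
      have := hord i i' h
      omega
    · show (B + x i) - (B + x i') ∣ B + x i
      rw [hsub]
      refine Nat.Coprime.mul_dvd_of_dvd_of_dvd ?_ ?_ (hBD i i' h)
      · exact (Nat.Coprime.pow_right _ (hDnW _ hmem)).symm
      · refine dvd_add ((pow_dvd_pow W (by omega)).trans hBW) ?_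
        rw [hx]
        show W ^ ((i'.1 : ℕ) + 1) ∣ (i.1 : ℕ) * G + y i
        refine dvd_add ?_ ?_
        · rw [hG]
          exact Dvd.dvd.mul_left (Dvd.dvd.mul_right (pow_dvd_pow W (by omega)) _) _
        · rw [hy]
          exact Dvd.dvd.mul_right (pow_dvd_pow W (by omega)) _
    · have e : (((B + x i : ℕ) : ℝ) - ((B + x i' : ℕ) : ℝ)) -
          (((i.1 : ℕ) : ℝ) - ((i'.1 : ℕ) : ℝ)) * G = (y i : ℝ) - y i' := by
        rw [hx]
        push_cast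
        ring
      rw [e]
      have a1 : (y i : ℝ) ≤ Y := by exact_mod_cast hyY i
      have a2 : (y i' : ℝ) ≤ Y := by exact_mod_cast hyY i'
      have a3 : (0 : ℝ) ≤ y i := Nat.cast_nonneg _
      have a4 : (0 : ℝ) ≤ y i' := Nat.cast_nonneg _
      rw [abs_le]
      constructor <;> linarith

end EG
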