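import Pool.Agent.H6.EG.Pt

/-!
# MP_0e3417 row CluP: the pointwise inequalities for large `T`

Let `T1` be so large that for `T ≥ T1` and all `j` (finitely many): `T/2 > T^e0`, `T/2 > T^r`, `2 a_j T + 1 ≤ T²`, `T > 1`. If `t ∈ rT T` and `φ(t/T) ≠ 0` then `T/2 < t ≤ 2T`, so `x = a j t + 1` satisfies `T/2 < x ≤ T²`.
(1) `x` prime: its only prime factor `x > T^e0`, so `Rough`, and `be = 1` (`be_prime`: `x > T^r ≥ Rr r T`).
(2), (3): `bp` is `0` or `be ≥ 0` (a square); `be_rough`: `bp² ≤ B0 bp ≤ B0 be`.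
(4), (5): `bp ≠ 0` implies `Rough`: `sM_rough` with `J = ∅` (`insert j ∅ = {j}`), then with `J = {j}`, giving `{i, j}`.
(6) if `bp ≠ be` then `x` is not rough: some prime `p ∣ x`, `p ∤ Q`, `p ≤ T^e0`, so the sum over `p` contains the term `be`.
-/

open Finset

namespace EG

open Classical in
/-- `β'(x) = β(x)` if `x` is rough, and `0` otherwise -/
noncomputable def bp (e0 T : ℝ) (Q R x : ℕ) : ℝ := if Rough e0 T Q x then be Q R x else 0

theorem CluP_ev {e : ℝ} (he : e < 1) : ∀ᶠ T : ℝ in Filter.atTop, T ^ e < T / 2 := by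
  have h1 : Filter.Tendsto (fun T : ℝ => T ^ (1 - e)) Filter.atTop Filter.atTop := tendsto_rpow_atTop (by linarith)
  filter_upwards [h1.eventually_gt_atTop 2, Filter.eventually_gt_atTop (0 : ℝ)] with T h2 hT
  have h3 : T ^ e * T ^ (1 - e) = T := by
    rw [← Real.rpow_add hT]
    simp
  have h4 : 0 < T ^ e := Real.rpow_pos_of_pos hT e
  nlinarith

theorem CluP_be_nonneg (Q R x : ℕ) : 0 ≤ be Q R x := by
  unfold be
  positivity

theorem cluP {η : ℝ} {φ : ℝ → ℝ} (hφ : Wt η φ) {e0 v0 r : ℝ} (he0 : 0 < e0) (he1 : e0 < 1) (hv0 : 0 < v0) (hr0 : 0 < r) (hr1 : r < 1)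
    {ι : Type} [Fintype ι] [DecidableEq ι] (a : ι → ℕ) (ha : ∀ i, 1 ≤ a i) :
    ∃ T1 : ℝ, ∀ T, T1 ≤ T → ∀ (m Q : ℕ), ∀ t ∈ rT T, φ ((t : ℝ) / T) ≠ 0 → ∀ j : ι,
      ((a j * t + 1).Prime → bp e0 T Q (Rr r T) (a j * t + 1) = 1 ∧
        sM e0 v0 T m Q a (fun _ => 1) ∅ t = sM e0 v0 T m Q a (fun _ => 1) {j} t) ∧
      (0 ≤ bp e0 T Q (Rr r T) (a j * t + 1) ∧ bp e0 T Q (Rr r T) (a j * t + 1) ≤ be Q (Rr r T) (a j * t + 1)) ∧
      bp e0 T Q (Rr r T) (a j * t + 1) ^ 2 ≤ (4 : ℝ) ^ (2 / e0) * be Q (Rr r T) (a j * t + 1) ∧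
      sM e0 v0 T m Q a (fun _ => 1) ∅ t ^ 2 * bp e0 T Q (Rr r T) (a j * t + 1) =
        sM e0 v0 T m Q a (fun _ => 1) {j} t ^ 2 * bp e0 T Q (Rr r T) (a j * t + 1) ∧
      (∀ i : ι, i ≠ j → sM e0 v0 T m Q a (fun _ => 1) ∅ t ^ 2 *
          (bp e0 T Q (Rr r T) (a i * t + 1) * bp e0 T Q (Rr r T) (a j * t + 1)) =
        sM e0 v0 T m Q a (fun _ => 1) {i, j} t ^ 2 *
          (bp e0 T Q (Rr r T) (a i * t + 1) * bp e0 T Q (Rr r T) (a j * t + 1))) ∧
      be Q (Rr r T) (a j * t + 1) -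
          ∑ p ∈ (Icc 1 ⌊T ^ e0⌋₊).filter (fun p => p.Prime ∧ ¬ p ∣ Q),
            (if p ∣ a j * t + 1 then be Q (Rr r T) (a j * t + 1) else 0) ≤ bp e0 T Q (Rr r T) (a j * t + 1) := by
  classical
  set A : ℝ := ∑ i, (a i : ℝ) with hA
  have hAa : ∀ i, (a i : ℝ) ≤ A := fun i =>
    Finset.single_le_sum (f := fun i => (a i : ℝ)) (fun k _ => Nat.cast_nonneg _) (Finset.mem_univ i)
  have hev : ∀ᶠ T : ℝ in Filter.atTop, T ^ e0 < T / 2 ∧ T ^ r < T / 2 ∧ 1 < T ∧ 2 * A + 1 ≤ T := by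
    filter_upwards [CluP_ev he1, CluP_ev hr1, Filter.eventually_gt_atTop (1 : ℝ), Filter.eventually_ge_atTop (2 * A + 1)]
      with T h1 h2 h3 h4
    exact ⟨h1, h2, h3, h4⟩
  obtain ⟨T1, hT1⟩ := Filter.eventually_atTop.1 hev
  refine ⟨T1, fun T hT m Q t ht hφt j => ?_⟩
  obtain ⟨hTe, hTr, hT1', hTA⟩ := hT1 T hT
  have hT0 : 0 < T := by linarith
  have hR : 1 ≤ Rr r T := by
    unfold Rr
    rw [Nat.one_le_floor_iff]
    exact Real.one_le_rpow hT1'.le hr0.le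
  have ht1 : T / 2 < t := by
    by_contra h
    apply hφt
    apply hφ.zero
    have h1 : (t : ℝ) / T ≤ 1 / 2 := by
      rw [div_le_iff₀ hT0]
      linarith
    have h2 := hφ.η_le
    rw [abs_of_nonpos (by linarith)]
    linarith
  have ht2 : (t : ℝ) ≤ 2 * T := by
    unfold rT at ht
    rw [Finset.mem_range] at ht
    have h1 : t ≤ ⌊2 * T⌋₊ := by omega
    exact (Nat.le_floor_iff (by linarith)).1 h1
  have hx1 : ∀ i, T / 2 < ((a i * t + 1 : ℕ) : ℝ) := by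
    intro i
    push_cast
    have h1 : (1 : ℝ) ≤ a i := by exact_mod_cast ha i
    have h2 : (0 : ℝ) ≤ t := Nat.cast_nonneg t
    nlinarith
  have hx2 : ∀ i, ((a i * t + 1 : ℕ) : ℝ) ≤ T ^ (2 : ℝ) := by
    intro i
    push_cast
    have h1 := hAa i
    have h0 : (0 : ℝ) ≤ a i := Nat.cast_nonneg _
    have h2 : (a i : ℝ) * t ≤ A * (2 * T) := by
      have h3 : (0 : ℝ) ≤ t := Nat.cast_nonneg t
      nlinarith
    have h4 : T ^ (2 : ℝ) = T * T := by
      rw [show (2 : ℝ) = ((2 : ℕ) : ℝ) by norm_num, Real.rpow_natCast]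
      ring
    rw [h4]
    nlinarith
  have hx0 : ∀ i, 1 ≤ a i * t + 1 := fun i => by omega
  have hsM : ∀ (J : Finset ι) (i : ι), i ∉ J → Rough e0 T Q (a i * t + 1) →
      sM e0 v0 T m Q a (fun _ => 1) J t = sM e0 v0 T m Q a (fun _ => 1) (insert i J) t := by
    intro J i hi h
    exact sM_rough he0 hv0 hT1'.le m Q a (fun _ => 1) hi h (hx0 i)
  have hs1 : ∀ i, Rough e0 T Q (a i * t + 1) →
      sM e0 v0 T m Q a (fun _ => 1) ∅ t = sM e0 v0 T m Q a (fun _ => 1) {i} t := by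
    intro i h
    have := hsM ∅ i (Finset.notMem_empty i) h
    rw [this]
    congr 1
  have hbe0 := CluP_be_nonneg Q (Rr r T) (a j * t + 1)
  refine ⟨?_, ?_, ?_, ?_, ?_, ?_⟩
  · intro hp
    have hro : Rough e0 T Q (a j * t + 1) := by
      intro p hpp hpx _
      rw [(Nat.prime_dvd_prime_iff_eq hpp hp).1 hpx]
      exact hTe.trans (hx1 j)
    refine ⟨?_, hs1 j hro⟩
    unfold bp
    rw [if_pos hro]
    refine be_prime hR hp ?_
    have h1 : (Rr r T : ℝ) ≤ T ^ r := Nat.floor_le (Real.rpow_nonneg hT0.le _)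
    have h2 : (Rr r T : ℝ) < ((a j * t + 1 : ℕ) : ℝ) := lt_of_le_of_lt h1 (hTr.trans (hx1 j))
    exact_mod_cast h2
  · unfold bp
    split_ifs
    · exact ⟨hbe0, le_rfl⟩
    · exact ⟨le_rfl, hbe0⟩
  · unfold bp
    split_ifs with hro
    · have h1 := be_rough he0 hT1' (Q := Q) hR (hx0 j) (hx2 j) hro
      rw [_root_.sq]
      exact mul_le_mul_of_nonneg_right h1 hbe0
    · have : (0 : ℝ) ≤ (4 : ℝ) ^ (2 / e0) * be Q (Rr r T) (a j * t + 1) := by positivity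
      simpa using this
  · by_cases hro : Rough e0 T Q (a j * t + 1)
    · rw [hs1 j hro]
    · unfold bp
      rw [if_neg hro]
      simp
  · intro i hij
    by_cases hro : Rough e0 T Q (a j * t + 1)
    · by_cases hroi : Rough e0 T Q (a i * t + 1)
      · rw [hs1 j hro, hsM {j} i (by simpa using hij) hroi]
      · unfold bp
        rw [if_neg hroi]
        simp
    · unfold bp
      rw [if_neg hro]
      simp
  · have hnn : ∀ p ∈ (Icc 1 ⌊T ^ e0⌋₊).filter (fun p => p.Prime ∧ ¬ p ∣ Q),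
        (0 : ℝ) ≤ (if p ∣ a j * t + 1 then be Q (Rr r T) (a j * t + 1) else 0) := by
      intro p _
      split_ifs
      · exact hbe0
      · exact le_rfl
    by_cases hro : Rough e0 T Q (a j * t + 1)
    · have h1 := Finset.sum_nonneg hnn
      unfold bp
      rw [if_pos hro]
      linarith
    · unfold bp
      rw [if_neg hro]
      unfold Rough at hro
      push Not at hro
      obtain ⟨p, hpp, hpx, hpQ, hpT⟩ := hro
      have hmem : p ∈ (Icc 1 ⌊T ^ e0⌋₊).filter (fun p => p.Prime ∧ ¬ p ∣ Q) := by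
        rw [Finset.mem_filter, Finset.mem_Icc]
        exact ⟨⟨hpp.one_lt.le, Nat.le_floor hpT⟩, hpp, hpQ⟩
      have h1 := Finset.single_le_sum hnn hmem
      rw [if_pos hpx] at h1
      linarith

end EG
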