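import Pool.Agent.H6.EG.E2b
import Pool.Agent.H6.EG.E2c

/-!
# MP_0e3417 row E2: the lower bound for the sum over primes

Proof. `e2b` with `A = 1` gives `B, P`. `Q' = Q * P T`. `Big e0 T Q'` for large `T`: `EQ Q' = 2 * 2^ω(Q) (1 + log Q + log P) ≤ c_Q log log T`, `uu e0 T Q' ≥ c'_Q log T`. `Wide w0 Q'`, `1 ≤ Q'`.
(1) `∑_t φ Λ(L_j) sM{j}² = ∑_{n,n'} la(n j) 1 la(n' j) 1 ∑_t φ Λ(L_j) ∏_i Fn (update DA j {1} i) (update fA j 1 i) (L_i)` (square of a sum; `Fn {1} (fun _ => 1) x = 1`; `fn_mul`).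
(2) by `e2b`, `e2c`: `= T ∫φ (a_j/φ(a_j)) u^(K+1) (FI {j} + O(ε')) + O((m+1)^(2K) (4/v0 (1 + log T)³)² T/(log T)^A)`: to absorb the last term take `A = 7` in `e2b` (and `u ≥ 1`). `a_j/φ(a_j) = Q/φ(Q)` (same prime factors), `φ(Q')/Q' = (φ(Q)/Q)(1 - 1/P)`, so
`(a_j/φ(a_j)) u = (1 - 1/P) e0 log T`, `P > w1 ≥ ..`: replace `w1` by `max w1 ⌈1/ε'⌉`.
(3) prime powers: if `L_j(t)` is not prime then `Λ(L_j(t)) ≠ 0` only if `L_j(t) = p^k`, `k ≥ 2`, `L_j(t) ≤ 2 a_j T + 1 =: X`: at most `√X log X/log 2` such `t`, each contributing at most `log X * ((m+1)^K (4/v0 (1 + log T)³)^K T^e0)²`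
(`|sM| ≤ |AS| ∏ max(|la 1|, ∑ |la|)`, `la_abs`, `∑ v ≤ 1`): total `≤ T^(1/2 + 1/4 + 1/100) ≤ ε' T`.
(4) for `L_j(t)` prime `Λ(L_j(t)) = log L_j(t) ≤ log X ≤ (1 + ε') log T`. So `∑_{L_j prime} φ sM² ≥ (1/((1+ε') log T)) (T ∫φ (1-ε') e0 log T u^K (FI - ε') - ε' T ..)`. `FI {j}` is bounded by `((m+1)² (1/v0+1))^K`.
-/

open Finset H69LB

namespace EG

theorem E2_log (M : ℝ) (N : ℕ) {κ : ℝ} (hκ : 0 < κ) {ε : ℝ} (hε : 0 < ε) :
    ∃ T1 : ℝ, 1 ≤ T1 ∧ ∀ T, T1 ≤ T → M * (1 + Real.log T) ^ N * T ^ (1 - κ) ≤ ε * T := by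
  have h1 := isLittleO_log_rpow_rpow_atTop (N : ℝ) hκ
  have hc : 0 < ε / ((|M| + 1) * 2 ^ N) := by positivity
  have h2 := (h1.def hc).and (Filter.eventually_ge_atTop (Real.exp 1))
  obtain ⟨T1, hT1⟩ := Filter.eventually_atTop.1 h2
  refine ⟨max T1 1, le_max_right _ _, ?_⟩
  intro T hT
  obtain ⟨h3, h4⟩ := hT1 T ((le_max_left _ _).trans hT)
  have hT0 : 0 < T := (Real.exp_pos 1).trans_le h4
  have hL : 1 ≤ Real.log T := by
    rw [Real.le_log_iff_exp_le hT0]; exact h4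
  rw [Real.rpow_natCast, Real.norm_of_nonneg (by positivity), Real.norm_of_nonneg (by positivity)] at h3
  have h5 : (1 + Real.log T) ^ N ≤ 2 ^ N * Real.log T ^ N := by
    rw [← mul_pow]
    exact pow_le_pow_left₀ (by linarith) (by linarith) N
  have h6 : T ^ (1 - κ) = T / T ^ κ := by
    rw [Real.rpow_sub hT0, Real.rpow_one]
  have hTk : 0 < T ^ κ := Real.rpow_pos_of_pos hT0 _
  rw [h6, mul_div_assoc', div_le_iff₀ hTk]
  have h7 : M * (1 + Real.log T) ^ N ≤ (|M| + 1) * (2 ^ N * Real.log T ^ N) := by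
    have h8 : M ≤ |M| + 1 := (le_abs_self M).trans (by linarith)
    exact mul_le_mul h8 h5 (by positivity) (by positivity)
  have h9 : (|M| + 1) * (2 ^ N * Real.log T ^ N) ≤ ε * T ^ κ := by
    have h10 := mul_le_mul_of_nonneg_left h3 (by positivity : 0 ≤ (|M| + 1) * 2 ^ N)
    have h11 : (|M| + 1) * 2 ^ N * (ε / ((|M| + 1) * 2 ^ N) * T ^ κ) = ε * T ^ κ := by
      field_simp
    rw [h11] at h10
    linarith
  calc M * (1 + Real.log T) ^ N * T ≤ (ε * T ^ κ) * T :=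
        mul_le_mul_of_nonneg_right (h7.trans h9) hT0.le
    _ = ε * T * T ^ κ := by ring

theorem E2_card (ι : Type) [Fintype ι] [DecidableEq ι] (v0 : ℝ) (m : ℕ) :
    (((AS ι v0 m).card : ℕ) : ℝ) ≤ ((m + 1 : ℕ) : ℝ) ^ Fintype.card ι := by
  have h1 : (AS ι v0 m).card ≤ (m + 1) ^ Fintype.card ι := by
    unfold AS
    refine (Finset.card_filter_le _ _).trans ?_
    rw [Fintype.card_piFinset]
    simp
  exact_mod_cast h1

theorem E2_AS {ι : Type} [Fintype ι] [DecidableEq ι] {v0 : ℝ} (hv0 : 0 < v0) {m : ℕ} {n : ι → ℕ} (hn : n ∈ AS ι v0 m) :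
    (∑ i, vv v0 (n i) ≤ 1) ∧ ∀ i, vv v0 (n i) ≤ 1 := by
  unfold AS at hn
  rw [Finset.mem_filter] at hn
  refine ⟨hn.2, fun i => le_trans ?_ hn.2⟩
  exact Finset.single_le_sum (f := fun i => vv v0 (n i)) (fun i _ => (AtA_vv_pos hv0 (n i)).le) (Finset.mem_univ i)

theorem E2_sM {ι : Type} [Fintype ι] [DecidableEq ι] {e0 v0 T : ℝ} (he0 : 0 < e0) (he1 : e0 ≤ 1) (hv0 : 0 < v0) (hT : 1 ≤ T)
    (m Q : ℕ) (a b : ι → ℕ) (J : Finset ι) (t : ℕ) :
    |sM e0 v0 T m Q a b J t| ≤ ((m + 1 : ℕ) : ℝ) ^ Fintype.card ι * ((4 / v0 * (1 + Real.log T) ^ 3) ^ Fintype.card ι * T ^ e0) := by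
  have hlogT : 0 ≤ Real.log T := Real.log_nonneg hT
  have hT0 : 0 < T := by linarith
  unfold sM
  refine (Finset.abs_sum_le_sum_abs _ _).trans ?_
  have h1 : ∀ n ∈ AS ι v0 m, |∏ i, if i ∈ J then la e0 v0 T Q (n i) 1
      else Fn (sq Q (zz e0 v0 T (n i))) (la e0 v0 T Q (n i)) (a i * t + b i)| ≤
      (4 / v0 * (1 + Real.log T) ^ 3) ^ Fintype.card ι * T ^ e0 := by
    intro n hn
    obtain ⟨hs, hi⟩ := E2_AS hv0 hn
    rw [Finset.abs_prod]
    have h2 : ∀ i ∈ (Finset.univ : Finset ι), |if i ∈ J then la e0 v0 T Q (n i) 1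
        else Fn (sq Q (zz e0 v0 T (n i))) (la e0 v0 T Q (n i)) (a i * t + b i)| ≤
        T ^ (e0 * vv v0 (n i)) * (4 / v0 * (1 + Real.log T) ^ 3) := by
      intro i _
      obtain ⟨h3, h4⟩ := la_abs he0 he1 hv0 hT Q (n i) (hi i)
      have h5 : (1 : ℝ) ≤ T ^ (e0 * vv v0 (n i)) :=
        Real.one_le_rpow hT (mul_nonneg he0.le (AtA_vv_pos hv0 (n i)).le)
      split_ifs
      · exact (h3 1).trans (le_mul_of_one_le_left (by positivity) h5)
      · refine le_trans ?_ h4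
        unfold Fn
        refine (Finset.abs_sum_le_sum_abs _ _).trans ?_
        exact Finset.sum_le_sum_of_subset_of_nonneg (Finset.filter_subset _ _) (fun _ _ _ => abs_nonneg _)
    refine (Finset.prod_le_prod (fun i _ => abs_nonneg _) h2).trans ?_
    rw [Finset.prod_mul_distrib, Finset.prod_const, Finset.card_univ, ← Real.rpow_sum_of_pos hT0, mul_comm]
    refine mul_le_mul_of_nonneg_left ?_ (by positivity)
    refine Real.rpow_le_rpow_of_exponent_le hT ?_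
    rw [← Finset.mul_sum]
    nlinarith
  refine (Finset.sum_le_sum h1).trans ?_
  rw [Finset.sum_const, nsmul_eq_mul]
  exact mul_le_mul_of_nonneg_right (E2_card ι v0 m) (by positivity)

theorem E2_FI {ι : Type} [Fintype ι] [DecidableEq ι] {v0 : ℝ} (hv0 : 0 < v0) (m : ℕ) (J : Finset ι) :
    0 ≤ FI ι v0 m J ∧ FI ι v0 m J ≤ (((m + 1 : ℕ) : ℝ) ^ Fintype.card ι) ^ 2 * (1 + 1 / v0) ^ Fintype.card ι := by
  have hgw : ∀ n : ℕ, 0 ≤ (vv v0 n)⁻¹ * wv v0 n ∧ (vv v0 n)⁻¹ * wv v0 n ≤ 1 := by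
    intro n
    have hp := AtA_vv_pos hv0 n
    unfold wv
    split_ifs with h
    · subst h
      rw [AtA_vv_zero, inv_mul_cancel₀ hv0.ne']
      exact ⟨zero_le_one, le_rfl⟩
    · constructor
      · positivity
      · rw [← mul_div_assoc, inv_mul_cancel₀ hp.ne']
        norm_num
  have hg : ∀ n : ℕ, 0 < (vv v0 n)⁻¹ ∧ (vv v0 n)⁻¹ ≤ 1 / v0 := by
    intro n
    refine ⟨inv_pos.2 (AtA_vv_pos hv0 n), ?_⟩
    rw [one_div]
    exact inv_anti₀ hv0 (AtA_vv_ge hv0 n)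
  have hv1 : 0 < 1 / v0 := by positivity
  have hfac : ∀ n n' : ι → ℕ, ∀ i, 0 ≤ (if i ∈ J then (vv v0 (n i))⁻¹ * wv v0 (n i) * ((vv v0 (n' i))⁻¹ * wv v0 (n' i))
    else if n i = n' i then ((vv v0 (n i))⁻¹) ^ 2 * wv v0 (n i) else 0) ∧
    (if i ∈ J then (vv v0 (n i))⁻¹ * wv v0 (n i) * ((vv v0 (n' i))⁻¹ * wv v0 (n' i))
    else if n i = n' i then ((vv v0 (n i))⁻¹) ^ 2 * wv v0 (n i) else 0) ≤ 1 + 1 / v0 := by
    intro n n' i
    obtain ⟨h1, h2⟩ := hgw (n i)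
    obtain ⟨h3, h4⟩ := hgw (n' i)
    obtain ⟨h5, h6⟩ := hg (n i)
    split_ifs
    · refine ⟨mul_nonneg h1 h3, ?_⟩
      nlinarith
    · have h7 : ((vv v0 (n i))⁻¹) ^ 2 * wv v0 (n i) = (vv v0 (n i))⁻¹ * ((vv v0 (n i))⁻¹ * wv v0 (n i)) := by ring
      rw [h7]
      refine ⟨mul_nonneg h5.le h1, ?_⟩
      nlinarith
    · exact ⟨le_rfl, by linarith⟩
  constructor
  · unfold FI
    exact Finset.sum_nonneg fun n _ => Finset.sum_nonneg fun n' _ => Finset.prod_nonneg fun i _ => (hfac n n' i).1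
  · unfold FI
    have h1 : ∀ n ∈ AS ι v0 m, ∀ n' ∈ AS ι v0 m, (∏ i, if i ∈ J then (vv v0 (n i))⁻¹ * wv v0 (n i) * ((vv v0 (n' i))⁻¹ * wv v0 (n' i))
      else if n i = n' i then ((vv v0 (n i))⁻¹) ^ 2 * wv v0 (n i) else 0) ≤ (1 + 1 / v0) ^ Fintype.card ι := by
      intro n _ n' _
      refine (Finset.prod_le_prod (fun i _ => (hfac n n' i).1) (fun i _ => (hfac n n' i).2)).trans ?_
      rw [Finset.prod_const, Finset.card_univ]
    refine (Finset.sum_le_sum fun n hn => Finset.sum_le_sum fun n' hn' => h1 n hn n' hn').trans ?_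
    rw [Finset.sum_const, Finset.sum_const, nsmul_eq_mul, nsmul_eq_mul, ← mul_assoc, ← pow_two]
    refine mul_le_mul_of_nonneg_right ?_ (by positivity)
    exact pow_le_pow_left₀ (by positivity) (E2_card ι v0 m) 2

theorem E2_tot {Q a : ℕ} (hQ : 1 ≤ Q) (ha : 1 ≤ a) (haQ : a ∣ Q) (hp : ∀ p : ℕ, p.Prime → p ∣ Q → p ∣ a) :
    (a : ℝ) / (Nat.totient a : ℝ) = (Q : ℝ) / (Nat.totient Q : ℝ) := by
  have hpf : a.primeFactors = Q.primeFactors := by
    ext p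
    simp only [Nat.mem_primeFactors]
    constructor
    · rintro ⟨h1, h2, _⟩
      exact ⟨h1, h2.trans haQ, by omega⟩
    · rintro ⟨h1, h2, _⟩
      exact ⟨h1, hp p h1 h2, by omega⟩
  have h1 : ∀ n : ℕ, (Nat.totient n : ℝ) = n * ∏ p ∈ n.primeFactors, (1 - (p : ℝ)⁻¹) := by
    intro n
    have := congrArg (fun q : ℚ => (q : ℝ)) (Nat.totient_eq_mul_prod_factors n)
    simpa using this
  have ha0 : (a : ℝ) ≠ 0 := by
    have : a ≠ 0 := by omega
    exact_mod_cast this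
  have hQ0 : (Q : ℝ) ≠ 0 := by
    have : Q ≠ 0 := by omega
    exact_mod_cast this
  rw [h1 a, h1 Q, hpf]
  rw [div_mul_eq_div_div, div_self ha0, div_mul_eq_div_div, div_self hQ0]

theorem E2_uP {e0 T : ℝ} {Q P : ℕ} (hP : P.Prime) (hPQ : ¬ P ∣ Q) :
    uu e0 T (Q * P) = (1 - 1 / (P : ℝ)) * uu e0 T Q := by
  have hc : Nat.Coprime Q P := ((Nat.Prime.coprime_iff_not_dvd hP).2 hPQ).symm
  have hP0 : (P : ℝ) ≠ 0 := by exact_mod_cast hP.ne_zero
  unfold uu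
  rw [Nat.totient_mul hc, Nat.totient_prime hP, Nat.cast_mul, Nat.cast_mul, Nat.cast_sub hP.one_le, Nat.cast_one]
  by_cases hQ : (Q : ℝ) = 0
  · simp [hQ]
  · field_simp

theorem E2_pf {Q P : ℕ} (hQ : 1 ≤ Q) (hP : P.Prime) : (Q * P).primeFactors.card ≤ Q.primeFactors.card + 1 := by
  rw [Nat.primeFactors_mul (by omega) hP.ne_zero]
  refine (Finset.card_union_le _ _).trans ?_
  rw [Nat.Prime.primeFactors hP]
  simp

theorem E2_big {e0 : ℝ} (he0 : 0 < e0) {Q : ℕ} (hQ : 1 ≤ Q) (B : ℝ) : ∃ T1 : ℝ, ∀ T, T1 ≤ T → ∀ P : ℕ, P.Prime → ¬ P ∣ Q →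
    (P : ℝ) ≤ Real.log T ^ B → Big e0 T (Q * P) := by
  have hQ0 : (0 : ℝ) < Q := by exact_mod_cast hQ
  have hφ : (0 : ℝ) < Nat.totient Q := by exact_mod_cast Nat.totient_pos.2 (by omega)
  set c : ℝ := 1 / 2 * ((Nat.totient Q : ℝ) / Q * e0) with hc
  have hc0 : 0 < c := by positivity
  set M : ℝ := (2 ^ (Q.primeFactors.card + 1) * (1 + Real.log Q + |B|)) ^ 4 with hM
  obtain ⟨x1, hx1, H⟩ := E2_log M 4 (show (0 : ℝ) < 1 by norm_num) hc0
  refine ⟨Real.exp x1, ?_⟩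
  intro T hT P hP hPQ hPB
  have hT0 : 0 < T := (Real.exp_pos _).trans_le hT
  have hL : x1 ≤ Real.log T := by
    rw [Real.le_log_iff_exp_le hT0]; exact hT
  have hL1 : 1 ≤ Real.log T := hx1.trans hL
  have h1 := H (Real.log T) hL
  rw [sub_self, Real.rpow_zero, mul_one] at h1
  unfold Big
  have hP1 : (1 : ℝ) ≤ P := by exact_mod_cast hP.one_le
  have hP2 : (2 : ℝ) ≤ P := by exact_mod_cast hP.two_le
  have hll : 0 ≤ Real.log (Real.log T) := Real.log_nonneg hL1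
  have hlogP : Real.log P ≤ |B| * Real.log (Real.log T) := by
    have h2 : Real.log P ≤ Real.log (Real.log T ^ B) := Real.log_le_log (by linarith) hPB
    rw [Real.log_rpow (by linarith)] at h2
    exact h2.trans (mul_le_mul_of_nonneg_right (le_abs_self B) hll)
  have hlogQ : 0 ≤ Real.log Q := Real.log_nonneg (by exact_mod_cast hQ)
  have hEQ : EQ (Q * P) ≤ 2 ^ (Q.primeFactors.card + 1) * (1 + Real.log Q + |B|) * (1 + Real.log (Real.log T)) := by
    unfold EQ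
    rw [Nat.cast_mul, Real.log_mul (by positivity) (by positivity)]
    have h3 : (2 : ℝ) ^ (Q * P).primeFactors.card ≤ 2 ^ (Q.primeFactors.card + 1) :=
      pow_le_pow_right₀ (by norm_num) (E2_pf hQ hP)
    have h4 : 1 + (Real.log Q + Real.log P) ≤ (1 + Real.log Q + |B|) * (1 + Real.log (Real.log T)) := by
      have h5 : 0 ≤ |B| := abs_nonneg B
      nlinarith [mul_nonneg hlogQ hll]
    have h6 : 0 ≤ Real.log P := Real.log_nonneg hP1
    calc (2 : ℝ) ^ (Q * P).primeFactors.card * (1 + (Real.log Q + Real.log P)) ≤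
        2 ^ (Q.primeFactors.card + 1) * ((1 + Real.log Q + |B|) * (1 + Real.log (Real.log T))) :=
          mul_le_mul h3 h4 (by positivity) (by positivity)
      _ = _ := by ring
  have hEQ0 : 0 ≤ EQ (Q * P) := by
    have := EQ_ge_one (Q := Q * P) (Nat.mul_pos hQ hP.pos)
    linarith
  have h7 : EQ (Q * P) ^ 4 ≤ M * (1 + Real.log (Real.log T)) ^ 4 := by
    rw [hM, ← mul_pow]
    exact pow_le_pow_left₀ hEQ0 hEQ 4
  refine (h7.trans h1).trans ?_
  rw [E2_uP hP hPQ]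
  unfold uu
  have h8 : (1 : ℝ) / 2 ≤ 1 - 1 / (P : ℝ) := by
    have : 1 / (P : ℝ) ≤ 1 / 2 := one_div_le_one_div_of_le (by norm_num) hP2
    linarith
  calc c * Real.log T = 1 / 2 * ((Nat.totient Q : ℝ) / Q * (e0 * Real.log T)) := by rw [hc]; ring
    _ ≤ (1 - 1 / (P : ℝ)) * ((Nat.totient Q : ℝ) / Q * (e0 * Real.log T)) :=
        mul_le_mul_of_nonneg_right h8 (by positivity)

theorem E2_wide {w Q P : ℕ} (h : Wide w Q) (hP : P.Prime) : Wide w (Q * P) :=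
  ⟨Nat.mul_pos h.1 hP.pos, fun p hp hpw => (h.2 p hp hpw).trans (Dvd.intro _ rfl)⟩

theorem E2_Fn1 (x : ℕ) : Fn {1} (fun _ => 1) x = 1 := by
  unfold Fn
  have : ({1} : Finset ℕ).filter (fun B => B ∣ x) = {1} := by
    ext y
    simp only [Finset.mem_filter, Finset.mem_singleton]
    constructor
    · exact fun h => h.1
    · rintro rfl
      exact ⟨rfl, one_dvd x⟩
  rw [this]
  simp

theorem E2_sq {ι : Type} [Fintype ι] [DecidableEq ι] (e0 v0 T : ℝ) (m Q : ℕ) (a b : ι → ℕ) (j : ι) (t : ℕ) :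
    sM e0 v0 T m Q a b {j} t ^ 2 =
      ∑ n ∈ AS ι v0 m, ∑ n' ∈ AS ι v0 m, la e0 v0 T Q (n j) 1 * la e0 v0 T Q (n' j) 1 *
        ∏ i, Fn (Function.update (fun i => DA e0 v0 T Q (n i) (n' i)) j {1} i)
          (Function.update (fun i => fA e0 v0 T Q (n i) (n' i)) j (fun _ => 1) i) (a i * t + b i) := by
  unfold sM
  rw [pow_two, Finset.sum_mul_sum]
  refine Finset.sum_congr rfl fun n _ => Finset.sum_congr rfl fun n' _ => ?_
  rw [← Finset.prod_mul_distrib, ← Finset.mul_prod_erase Finset.univ _ (Finset.mem_univ j),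
    ← Finset.mul_prod_erase Finset.univ (fun i => Fn (Function.update (fun i => DA e0 v0 T Q (n i) (n' i)) j {1} i)
          (Function.update (fun i => fA e0 v0 T Q (n i) (n' i)) j (fun _ => 1) i) (a i * t + b i)) (Finset.mem_univ j)]
  rw [Function.update_self, Function.update_self, E2_Fn1, one_mul]
  simp only [Finset.mem_singleton, if_true]
  congr 1
  refine Finset.prod_congr rfl fun i hi => ?_
  have hij : i ≠ j := Finset.ne_of_mem_erase hi
  rw [if_neg hij, if_neg hij, Function.update_of_ne hij, Function.update_of_ne hij, fn_mul]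
  rfl

/-- prime powers -/
theorem E2_pp {φ : ℝ → ℝ} (h1 : ∀ x, φ x ≤ 1) {T : ℝ} (hT : 1 ≤ T) {a : ℕ} (ha : 1 ≤ a) {s : ℕ → ℝ} {S : ℝ}
    (hs : ∀ t, |s t| ≤ S) :
    ∑ t ∈ (rT T).filter (fun t => ¬ (a * t + 1).Prime), φ ((t : ℝ) / T) * ArithmeticFunction.vonMangoldt (a * t + 1) * s t ^ 2 ≤
      S ^ 2 * (2 * Real.sqrt (3 * a * T) * Real.log (3 * a * T)) := by
  have ha1 : (1 : ℝ) ≤ a := by exact_mod_cast ha
  have haT : 1 ≤ (a : ℝ) * T := by nlinarith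
  have hX : (1 : ℝ) ≤ 3 * a * T := by nlinarith
  have h2 := Chebyshev.psi_sub_theta_le hX
  rw [Chebyshev.psi_sub_theta_eq_sum_not_prime] at h2
  have h3 : ∑ t ∈ (rT T).filter (fun t => ¬ (a * t + 1).Prime), φ ((t : ℝ) / T) * ArithmeticFunction.vonMangoldt (a * t + 1) * s t ^ 2 ≤
      ∑ t ∈ (rT T).filter (fun t => ¬ (a * t + 1).Prime), S ^ 2 * ArithmeticFunction.vonMangoldt (a * t + 1) := by
    refine Finset.sum_le_sum fun t _ => ?_
    have h4 : s t ^ 2 ≤ S ^ 2 := by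
      rw [← sq_abs (s t)]
      exact pow_le_pow_left₀ (abs_nonneg _) (hs t) 2
    have h5 : 0 ≤ ArithmeticFunction.vonMangoldt (a * t + 1) := ArithmeticFunction.vonMangoldt_nonneg
    calc φ ((t : ℝ) / T) * ArithmeticFunction.vonMangoldt (a * t + 1) * s t ^ 2 ≤
        1 * ArithmeticFunction.vonMangoldt (a * t + 1) * S ^ 2 := by
          refine mul_le_mul (mul_le_mul_of_nonneg_right (h1 _) h5) h4 (by positivity) (by positivity)
      _ = _ := by ring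
  refine h3.trans ?_
  rw [← Finset.mul_sum]
  refine mul_le_mul_of_nonneg_left (le_trans ?_ h2) (by positivity)
  have h6 : ∑ t ∈ (rT T).filter (fun t => ¬ (a * t + 1).Prime), ArithmeticFunction.vonMangoldt (a * t + 1) =
      ∑ x ∈ ((rT T).filter (fun t => ¬ (a * t + 1).Prime)).image (fun t => a * t + 1), ArithmeticFunction.vonMangoldt x := by
    rw [Finset.sum_image]
    intro x _ y _ hxy
    have : a * x = a * y := by simpa using hxy
    exact Nat.eq_of_mul_eq_mul_left ha this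
  rw [h6]
  refine Finset.sum_le_sum_of_subset_of_nonneg ?_ (fun _ _ _ => ArithmeticFunction.vonMangoldt_nonneg)
  intro x hx
  rw [Finset.mem_image] at hx
  obtain ⟨t, ht, rfl⟩ := hx
  rw [Finset.mem_filter] at ht ⊢
  refine ⟨?_, ht.2⟩
  rw [Finset.mem_Ioc]
  refine ⟨by omega, ?_⟩
  rw [Nat.le_floor_iff (by linarith)]
  have h7 := ht.1
  unfold rT at h7
  rw [Finset.mem_range] at h7
  have h8 : (t : ℝ) ≤ 2 * T := by
    have : t ≤ ⌊2 * T⌋₊ := by omega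
    exact (Nat.le_floor_iff (by linarith)).1 this
  push_cast
  nlinarith

theorem E2_final {L I T u F FB ε δ e0 p : ℝ} {K : ℕ} (hL : 1 ≤ L) (hTI : 0 < T * I) (hu : 1 ≤ u ^ K) (hF0 : 0 ≤ F) (hF1 : F ≤ FB)
    (hε : 0 < ε) (hδ0 : 0 < δ) (hδ1 : δ * (8 * (FB + ε + 1)) = ε) (he0 : 0 < e0) (he1 : e0 ≤ 1 / 8) (hp0 : 0 ≤ p) (hpδ : p ≤ δ) :
    (1 + δ) * L * (T * I * ((e0 * F - ε) * u ^ K)) ≤ T * I * ((1 - p) * (e0 * L)) * ((F - ε / 4) * u ^ K) - ε / 2 * I * T := by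
  have key : (1 + δ) * L * ((e0 * F - ε) * u ^ K) ≤ ((1 - p) * (e0 * L)) * ((F - ε / 4) * u ^ K) - ε / 2 := by
    have k1 : (1 + δ) * (e0 * F - ε) ≤ (1 - p) * (e0 * (F - ε / 4)) - ε / 2 := by
      have k2 : p * (F - ε / 4) ≤ δ * (FB + ε) := by
        have k3 : p * (F - ε / 4) ≤ p * (FB + ε) :=
          mul_le_mul_of_nonneg_left (by linarith) hp0
        exact k3.trans (mul_le_mul_of_nonneg_right hpδ (by linarith))
      have k4 : δ * F ≤ δ * (FB + ε) := mul_le_mul_of_nonneg_left (by linarith) hδ0.le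
      have k5 : δ * (FB + ε) ≤ ε / 8 := by nlinarith
      have k6 : e0 * (p * (F - ε / 4)) ≤ e0 * (ε / 8) := mul_le_mul_of_nonneg_left (k2.trans k5) he0.le
      have k7 : e0 * (δ * F) ≤ e0 * (ε / 8) := mul_le_mul_of_nonneg_left (k4.trans k5) he0.le
      have k8 : e0 * ε ≤ 1 / 8 * ε := mul_le_mul_of_nonneg_right he1 hε.le
      nlinarith [mul_pos hδ0 hε]
    have hLu : 0 ≤ L * u ^ K := by positivity
    have k9 : L * u ^ K * ((1 + δ) * (e0 * F - ε)) ≤ L * u ^ K * ((1 - p) * (e0 * (F - ε / 4)) - ε / 2) :=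
      mul_le_mul_of_nonneg_left k1 hLu
    have k10 : 1 ≤ L * u ^ K := by nlinarith
    have k11 : ε / 2 ≤ L * u ^ K * (ε / 2) := le_mul_of_one_le_left (by positivity) k10
    calc (1 + δ) * L * ((e0 * F - ε) * u ^ K) = L * u ^ K * ((1 + δ) * (e0 * F - ε)) := by ring
      _ ≤ L * u ^ K * ((1 - p) * (e0 * (F - ε / 4)) - ε / 2) := k9
      _ = ((1 - p) * (e0 * L)) * ((F - ε / 4) * u ^ K) - L * u ^ K * (ε / 2) := by ring
      _ ≤ _ := by linarith
  calc (1 + δ) * L * (T * I * ((e0 * F - ε) * u ^ K)) = T * I * ((1 + δ) * L * ((e0 * F - ε) * u ^ K)) := by ring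
    _ ≤ T * I * (((1 - p) * (e0 * L)) * ((F - ε / 4) * u ^ K) - ε / 2) :=
        mul_le_mul_of_nonneg_left key hTI.le
    _ = _ := by ring

theorem E2_er1 {M v0 T C1 ε I : ℝ} {K : ℕ} (hM : 0 ≤ M) (hv0 : 0 < v0) (hT : 0 < T) (hL1 : 1 ≤ Real.log T)
    (hC1 : C1 = (M ^ K) ^ 2 * (4 / v0) ^ 2 * 64) (h6 : C1 ≤ Real.log T * (ε / 4 * I)) :
    M ^ K * (M ^ K * ((4 / v0 * (1 + Real.log T) ^ 3) * (4 / v0 * (1 + Real.log T) ^ 3) * (T / Real.log T ^ 7))) ≤ ε / 4 * I * T := by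
  have h5 : (1 + Real.log T) ^ 6 ≤ 64 * Real.log T ^ 6 := by
    have : (1 + Real.log T) ^ 6 ≤ (2 * Real.log T) ^ 6 := pow_le_pow_left₀ (by linarith) (by linarith) 6
    rw [mul_pow] at this
    norm_num at this
    exact this
  have hLT0 : 0 < Real.log T := by linarith
  calc M ^ K * (M ^ K * ((4 / v0 * (1 + Real.log T) ^ 3) * (4 / v0 * (1 + Real.log T) ^ 3) * (T / Real.log T ^ 7))) =
      ((M ^ K) ^ 2 * (4 / v0) ^ 2 * (1 + Real.log T) ^ 6) * T / Real.log T ^ 7 := by ring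
    _ ≤ ((M ^ K) ^ 2 * (4 / v0) ^ 2 * (64 * Real.log T ^ 6)) * T / Real.log T ^ 7 := by gcongr
    _ = C1 * T / Real.log T := by rw [hC1]; field_simp
    _ ≤ ε / 4 * I * T := by
        rw [div_le_iff₀ hLT0]
        nlinarith

theorem E2_er2 {M v0 T e0 : ℝ} {K a Q : ℕ} (hM : 0 ≤ M) (hv0 : 0 < v0) (hT1 : 1 ≤ T) (he0 : 0 < e0) (he1 : e0 ≤ 1 / 8)
    (ha : 1 ≤ a) (haQ : a ≤ Q) :
    (M ^ K * ((4 / v0 * (1 + Real.log T) ^ 3) ^ K * T ^ e0)) ^ 2 * (2 * Real.sqrt (3 * a * T) * Real.log (3 * a * T)) ≤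
      (M ^ K) ^ 2 * ((4 / v0) ^ K) ^ 2 * (2 * Real.sqrt (3 * Q) * (1 + Real.log (3 * Q))) * (1 + Real.log T) ^ (6 * K + 1) *
        T ^ (1 - 1 / 4 : ℝ) := by
  have hT0 : 0 < T := by linarith
  have hL0 : 0 ≤ Real.log T := Real.log_nonneg hT1
  have haj1 : (1 : ℝ) ≤ a := by exact_mod_cast ha
  have hajQ' : (a : ℝ) ≤ Q := by exact_mod_cast haQ
  have hQ1 : (1 : ℝ) ≤ Q := haj1.trans hajQ'
  have hlog3Q : 0 ≤ Real.log (3 * Q) := Real.log_nonneg (by linarith)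
  have h1 : Real.sqrt (3 * a * T) ≤ Real.sqrt (3 * Q) * Real.sqrt T := by
    rw [← Real.sqrt_mul (by positivity)]
    apply Real.sqrt_le_sqrt
    nlinarith
  have h2 : Real.log (3 * a * T) ≤ (1 + Real.log (3 * Q)) * (1 + Real.log T) := by
    have h3 : Real.log (3 * a * T) ≤ Real.log (3 * Q * T) := by
      apply Real.log_le_log (by positivity)
      nlinarith
    have h4 : Real.log (3 * Q * T) = Real.log (3 * Q) + Real.log T := Real.log_mul (by positivity) (by positivity)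
    nlinarith
  have h3 : 0 ≤ Real.log (3 * a * T) := Real.log_nonneg (by nlinarith)
  have h4 : T ^ e0 * T ^ e0 ≤ T ^ (1 / 4 : ℝ) := by
    rw [← Real.rpow_add hT0]
    exact Real.rpow_le_rpow_of_exponent_le hT1 (by linarith)
  have h5 : T ^ (1 / 4 : ℝ) * Real.sqrt T = T ^ (1 - 1 / 4 : ℝ) := by
    rw [Real.sqrt_eq_rpow, ← Real.rpow_add hT0]
    norm_num
  have h6 : 0 ≤ 1 + Real.log T := by linarith
  have h7 : ((4 / v0 * (1 + Real.log T) ^ 3) ^ K) ^ 2 = ((4 / v0) ^ K) ^ 2 * (1 + Real.log T) ^ (6 * K) := by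
    rw [mul_pow, mul_pow, ← pow_mul (1 + Real.log T) 3 K, ← pow_mul (1 + Real.log T) (3 * K) 2]
    congr 2
    ring
  set Y := ((4 / v0 * (1 + Real.log T) ^ 3) ^ K) with hY
  have hY0 : 0 ≤ Y := by rw [hY]; positivity
  calc (M ^ K * (Y * T ^ e0)) ^ 2 * (2 * Real.sqrt (3 * a * T) * Real.log (3 * a * T)) =
      ((M ^ K) ^ 2 * Y ^ 2) * (T ^ e0 * T ^ e0) * (2 * (Real.sqrt (3 * a * T) * Real.log (3 * a * T))) := by ring
    _ ≤ ((M ^ K) ^ 2 * Y ^ 2) * T ^ (1 / 4 : ℝ) *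
        (2 * ((Real.sqrt (3 * Q) * Real.sqrt T) * ((1 + Real.log (3 * Q)) * (1 + Real.log T)))) := by
        gcongr
    _ = ((M ^ K) ^ 2 * Y ^ 2) * (2 * Real.sqrt (3 * Q) * (1 + Real.log (3 * Q))) * (1 + Real.log T) *
        (T ^ (1 / 4 : ℝ) * Real.sqrt T) := by ring
    _ = _ := by
        rw [h5, h7, pow_succ (1 + Real.log T) (6 * K)]
        generalize (1 + Real.log T) ^ (6 * K) = W
        ring

theorem e2 {η : ℝ} {φ : ℝ → ℝ} (hφ : Wt η φ) {e0 v0 : ℝ} (he0 : 0 < e0) (he1 : e0 ≤ 1 / 8) (hv0 : 0 < v0) (m K : ℕ) (hK : 1 ≤ K)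
    {ε : ℝ} (hε : 0 < ε) :
    ∃ w0 : ℕ, ∀ (ι : Type) [Fintype ι] [DecidableEq ι], Fintype.card ι = K → ∀ (Q : ℕ) (a : ι → ℕ), SForms Q a → Wide w0 Q → ∀ w1 : ℕ,
      ∃ T0 : ℝ, ∀ T, T0 ≤ T → ∃ P : ℕ, P.Prime ∧ w1 < P ∧ ¬ P ∣ Q ∧ Big e0 T (Q * P) ∧ ∀ j : ι,
        T * (∫ x, φ x) * ((e0 * FI ι v0 m {j} - ε) * uu e0 T (Q * P) ^ K) ≤
          ∑ t ∈ (rT T).filter (fun t => (a j * t + 1).Prime), φ ((t : ℝ) / T) * sM e0 v0 T m (Q * P) a (fun _ => 1) {j} t ^ 2 := by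
  have hI : 0 < ∫ x, φ x := hφ.int_pos
  set I := ∫ x, φ x with hIdef
  obtain ⟨Tc, w0, hcc⟩ := e2c he0 hv0 m K hK (show 0 < ε / 4 by positivity)
  refine ⟨w0, ?_⟩
  intro ι _ _ hcard Q a hSF hW w1
  have hQ1 : 1 ≤ Q := hSF.Q_pos
  have hQ0 : (1 : ℝ) ≤ Q := by exact_mod_cast hQ1
  set FB : ℝ := (((m + 1 : ℕ) : ℝ) ^ K) ^ 2 * (1 + 1 / v0) ^ K with hFB
  have hFB0 : 0 ≤ FB := by positivity
  set δ : ℝ := ε / (8 * (FB + ε + 1)) with hδ
  have hδ0 : 0 < δ := by positivity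
  have hδ1 : δ * (8 * (FB + ε + 1)) = ε := by rw [hδ]; field_simp
  obtain ⟨B, P, hP, T0b, hb⟩ := e2b hφ he0 he1 hv0 m ((7 : ℕ) : ℝ) ι Q a hSF (max w1 ⌈1 / δ⌉₊)
  obtain ⟨Tbig, hbig⟩ := E2_big he0 hQ1 B
  obtain ⟨Te, hTe1, heqs⟩ := eqs he0 (show (0 : ℝ) < 1 by norm_num)
  obtain ⟨Tl, hTl1, hlog⟩ := E2_log ((((m + 1 : ℕ) : ℝ) ^ K) ^ 2 * ((4 / v0) ^ K) ^ 2 * (2 * Real.sqrt (3 * Q) * (1 + Real.log (3 * Q))))
    (6 * K + 1) (show (0 : ℝ) < 1 / 4 by norm_num) (show 0 < ε / 4 * I by positivity)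
  set C1 : ℝ := (((m + 1 : ℕ) : ℝ) ^ K) ^ 2 * (4 / v0) ^ 2 * 64 with hC1
  have hC10 : 0 < C1 := by positivity
  have hlog3Q : 0 ≤ Real.log (3 * Q) := Real.log_nonneg (by linarith)
  set V : ℝ := 1 + Real.log (3 * Q) / δ + C1 / (ε / 4 * I) with hV
  have hV1 : 1 ≤ V := by
    have h1 : 0 ≤ Real.log (3 * Q) / δ := by positivity
    have h2 : 0 ≤ C1 / (ε / 4 * I) := by positivity
    rw [hV]; linarith
  refine ⟨max (max Tc T0b) (max Tbig (max Te (max Tl (Real.exp V)))), ?_⟩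
  intro T hT
  have hTc : Tc ≤ T := ((le_max_left _ _).trans (le_max_left _ _)).trans hT
  have hT0b : T0b ≤ T := ((le_max_right _ _).trans (le_max_left _ _)).trans hT
  have hT' := (le_max_right _ _).trans hT
  have hTbig : Tbig ≤ T := (le_max_left _ _).trans hT'
  have hT'' := (le_max_right _ _).trans hT'
  have hTe : Te ≤ T := (le_max_left _ _).trans hT''
  have hT3 := (le_max_right _ _).trans hT''
  have hTl : Tl ≤ T := (le_max_left _ _).trans hT3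
  have hTV : Real.exp V ≤ T := (le_max_right _ _).trans hT3
  have hT1 : 1 ≤ T := hTe1.trans hTe
  have hT0 : 0 < T := by linarith
  have hLV : V ≤ Real.log T := by
    rw [Real.le_log_iff_exp_le hT0]; exact hTV
  have hL1 : 1 ≤ Real.log T := hV1.trans hLV
  obtain ⟨hPT, hb2⟩ := hb T hT0b
  obtain ⟨hPp, hPw, hPQ⟩ := hP T
  refine ⟨P T, hPp, (le_max_left _ _).trans_lt hPw, hPQ, hbig T hTbig (P T) hPp hPQ hPT, ?_⟩
  have hBig := hbig T hTbig (P T) hPp hPQ hPT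
  intro j
  have hQP1 : 1 ≤ Q * P T := Nat.mul_pos hQ1 hPp.pos
  have hu1 : 1 ≤ uu e0 T (Q * P T) := by
    have := (heqs T hTe (Q * P T) hQP1 hBig).1
    simpa using this
  set u := uu e0 T (Q * P T) with hu
  have huK : 1 ≤ u ^ K := one_le_pow₀ hu1
  have hFI := E2_FI (ι := ι) hv0 m {j}
  rw [hcard, ← hFB] at hFI
  set F := FI ι v0 m {j} with hF
  -- the prime P
  have hP0 : (0 : ℝ) < P T := by exact_mod_cast hPp.pos
  have hPδ : 1 / (P T : ℝ) ≤ δ := by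
    have h1 : 1 / δ ≤ (P T : ℝ) := by
      have h2 : ⌈1 / δ⌉₊ ≤ P T := ((le_max_right _ _).trans_lt hPw).le
      exact (Nat.le_ceil _).trans (by exact_mod_cast h2)
    rw [div_le_iff₀ hP0]
    rw [div_le_iff₀ hδ0] at h1
    linarith
  have hP1 : 1 / (P T : ℝ) ≤ 1 := by
    rw [div_le_one hP0]
    exact_mod_cast hPp.one_le
  have hPpos : 0 ≤ 1 / (P T : ℝ) := by positivity
  -- the factor
  have haj := hSF.pos j
  have hajQ : a j ≤ Q := Nat.le_of_dvd hQ1 (hSF.dvd j)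
  have hφQ : (0 : ℝ) < Nat.totient Q := by exact_mod_cast Nat.totient_pos.2 hQ1
  have hau : (a j : ℝ) / (Nat.totient (a j) : ℝ) * u = (1 - 1 / (P T : ℝ)) * (e0 * Real.log T) := by
    rw [E2_tot hQ1 haj (hSF.dvd j) (fun p hp hpQ => hSF.prime j p hp hpQ), hu, E2_uP hPp hPQ]
    unfold uu
    have hQne : (Q : ℝ) ≠ 0 := by linarith
    field_simp
  have hau0 : 0 ≤ (a j : ℝ) / (Nat.totient (a j) : ℝ) := by positivity
  -- the coefficients
  set Lg : ℝ := 4 / v0 * (1 + Real.log T) ^ 3 with hLg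
  have hLg0 : 0 ≤ Lg := by positivity
  have hla : ∀ n ∈ AS ι v0 m, |la e0 v0 T (Q * P T) (n j) 1| ≤ Lg := by
    intro n hn
    exact (la_abs he0 (by linarith) hv0 hT1 (Q * P T) (n j) ((E2_AS hv0 hn).2 j)).1 1
  have hcAS := E2_card ι v0 m
  rw [hcard] at hcAS
  -- the total sum
  set TS : ℝ := ∑ t ∈ rT T, φ ((t : ℝ) / T) * ArithmeticFunction.vonMangoldt (a j * t + 1) *
    sM e0 v0 T m (Q * P T) a (fun _ => 1) {j} t ^ 2 with hTS
  have hTS1 : TS = ∑ n ∈ AS ι v0 m, ∑ n' ∈ AS ι v0 m, la e0 v0 T (Q * P T) (n j) 1 * la e0 v0 T (Q * P T) (n' j) 1 *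
      ∑ t ∈ rT T, φ ((t : ℝ) / T) * ArithmeticFunction.vonMangoldt (a j * t + 1) *
        ∏ i, Fn (Function.update (fun i => DA e0 v0 T (Q * P T) (n i) (n' i)) j {1} i)
          (Function.update (fun i => fA e0 v0 T (Q * P T) (n i) (n' i)) j (fun _ => 1) i) (a i * t + 1) := by
    rw [hTS]
    simp only [E2_sq, Finset.mul_sum]
    rw [Finset.sum_comm]
    refine Finset.sum_congr rfl fun n _ => ?_
    rw [Finset.sum_comm]
    refine Finset.sum_congr rfl fun n' _ => Finset.sum_congr rfl fun t _ => ?_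
    ring
  have hc1 := hcc ι hcard (Q * P T) hQP1 (E2_wide hW hPp) T hTc hBig j
  set MS : ℝ := ∑ n ∈ AS ι v0 m, ∑ n' ∈ AS ι v0 m, la e0 v0 T (Q * P T) (n j) 1 * la e0 v0 T (Q * P T) (n' j) 1 *
          Mm (Function.update (fun i => DA e0 v0 T (Q * P T) (n i) (n' i)) j {1})
            (Function.update (fun i B => fA e0 v0 T (Q * P T) (n i) (n' i) B * ((B : ℝ) / (Nat.totient B : ℝ))) j (fun _ => 1)) 1 with hMS
  have hTS2 : |TS - T * I * ((a j : ℝ) / (Nat.totient (a j) : ℝ)) * MS| ≤ ε / 4 * I * T := by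
    have h1 : TS - T * I * ((a j : ℝ) / (Nat.totient (a j) : ℝ)) * MS =
        ∑ n ∈ AS ι v0 m, ∑ n' ∈ AS ι v0 m, la e0 v0 T (Q * P T) (n j) 1 * la e0 v0 T (Q * P T) (n' j) 1 *
          (∑ t ∈ rT T, φ ((t : ℝ) / T) * ArithmeticFunction.vonMangoldt (a j * t + 1) *
            ∏ i, Fn (Function.update (fun i => DA e0 v0 T (Q * P T) (n i) (n' i)) j {1} i)
              (Function.update (fun i => fA e0 v0 T (Q * P T) (n i) (n' i)) j (fun _ => 1) i) (a i * t + 1) -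
            T * I * ((a j : ℝ) / (Nat.totient (a j) : ℝ)) *
            Mm (Function.update (fun i => DA e0 v0 T (Q * P T) (n i) (n' i)) j {1})
            (Function.update (fun i B => fA e0 v0 T (Q * P T) (n i) (n' i) B * ((B : ℝ) / (Nat.totient B : ℝ))) j (fun _ => 1)) 1) := by
      rw [hTS1, hMS]
      simp only [mul_sub, Finset.sum_sub_distrib, Finset.mul_sum]
      congr 1
      refine Finset.sum_congr rfl fun n _ => Finset.sum_congr rfl fun n' _ => ?_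
      ring
    have h2 : |TS - T * I * ((a j : ℝ) / (Nat.totient (a j) : ℝ)) * MS| ≤
        ∑ n ∈ AS ι v0 m, ∑ n' ∈ AS ι v0 m, Lg * Lg * (T / Real.log T ^ 7) := by
      rw [h1]
      refine (Finset.abs_sum_le_sum_abs _ _).trans (Finset.sum_le_sum fun n hn => ?_)
      refine (Finset.abs_sum_le_sum_abs _ _).trans (Finset.sum_le_sum fun n' hn' => ?_)
      rw [abs_mul, abs_mul]
      have h3 := hb2 n hn n' hn' j
      rw [Real.rpow_natCast] at h3
      exact mul_le_mul (mul_le_mul (hla n hn) (hla n' hn') (abs_nonneg _) hLg0) h3 (abs_nonneg _) (by positivity)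
    refine h2.trans ?_
    rw [Finset.sum_const, Finset.sum_const, nsmul_eq_mul, nsmul_eq_mul]
    have h4 : ((AS ι v0 m).card : ℝ) * (((AS ι v0 m).card : ℝ) * (Lg * Lg * (T / Real.log T ^ 7))) ≤
        ((m + 1 : ℕ) : ℝ) ^ K * (((m + 1 : ℕ) : ℝ) ^ K * (Lg * Lg * (T / Real.log T ^ 7))) := by
      gcongr
    refine h4.trans ?_
    have h6 : C1 / (ε / 4 * I) ≤ Real.log T := by
      refine le_trans ?_ hLV
      have h1 : 0 ≤ Real.log (3 * Q) / δ := by positivity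
      rw [hV]; linarith
    rw [div_le_iff₀ (by positivity)] at h6
    exact E2_er1 (by positivity) hv0 hT0 hL1 hC1 h6
  -- prime powers
  have hs : ∀ t, |sM e0 v0 T m (Q * P T) a (fun _ => 1) {j} t| ≤ ((m + 1 : ℕ) : ℝ) ^ K * (Lg ^ K * T ^ e0) := by
    intro t
    have := E2_sM he0 (by linarith) hv0 hT1 m (Q * P T) a (fun _ => 1) {j} t
    rw [hcard] at this
    exact this
  have hpp := E2_pp hφ.le_one hT1 haj hs
  have hpp2 : (((m + 1 : ℕ) : ℝ) ^ K * (Lg ^ K * T ^ e0)) ^ 2 * (2 * Real.sqrt (3 * a j * T) * Real.log (3 * a j * T)) ≤ ε / 4 * I * T := by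
    exact (E2_er2 (Q := Q) (by positivity) hv0 hT1 he0 he1 haj hajQ).trans (hlog T hTl)
  -- primes
  have hpr : ∑ t ∈ (rT T).filter (fun t => (a j * t + 1).Prime), φ ((t : ℝ) / T) * ArithmeticFunction.vonMangoldt (a j * t + 1) *
      sM e0 v0 T m (Q * P T) a (fun _ => 1) {j} t ^ 2 ≤ (1 + δ) * Real.log T *
      ∑ t ∈ (rT T).filter (fun t => (a j * t + 1).Prime), φ ((t : ℝ) / T) * sM e0 v0 T m (Q * P T) a (fun _ => 1) {j} t ^ 2 := by
    rw [Finset.mul_sum]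
    refine Finset.sum_le_sum fun t ht => ?_
    rw [Finset.mem_filter] at ht
    have h1 : ArithmeticFunction.vonMangoldt (a j * t + 1) ≤ (1 + δ) * Real.log T := by
      rw [ArithmeticFunction.vonMangoldt_apply_prime ht.2]
      have h7 := ht.1
      unfold rT at h7
      rw [Finset.mem_range] at h7
      have h8 : (t : ℝ) ≤ 2 * T := by
        have : t ≤ ⌊2 * T⌋₊ := by omega
        exact (Nat.le_floor_iff (by linarith)).1 this
      have hajQ' : (a j : ℝ) ≤ Q := by exact_mod_cast hajQ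
      have h9 : Real.log ((a j * t + 1 : ℕ) : ℝ) ≤ Real.log (3 * Q * T) := by
        apply Real.log_le_log
        · positivity
        · push_cast
          have h10 : (a j : ℝ) * t ≤ Q * (2 * T) := mul_le_mul hajQ' h8 (by positivity) (by positivity)
          nlinarith
      rw [Real.log_mul (by positivity) (by positivity)] at h9
      have h11 : Real.log (3 * Q) ≤ δ * Real.log T := by
        have h12 : Real.log (3 * Q) / δ ≤ Real.log T := by
          refine le_trans ?_ hLV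
          have h2 : 0 ≤ C1 / (ε / 4 * I) := by positivity
          rw [hV]; linarith
        rw [div_le_iff₀ hδ0] at h12
        linarith
      linarith
    calc φ ((t : ℝ) / T) * ArithmeticFunction.vonMangoldt (a j * t + 1) * sM e0 v0 T m (Q * P T) a (fun _ => 1) {j} t ^ 2 =
        ArithmeticFunction.vonMangoldt (a j * t + 1) * (φ ((t : ℝ) / T) * sM e0 v0 T m (Q * P T) a (fun _ => 1) {j} t ^ 2) := by ring
      _ ≤ (1 + δ) * Real.log T * (φ ((t : ℝ) / T) * sM e0 v0 T m (Q * P T) a (fun _ => 1) {j} t ^ 2) :=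
          mul_le_mul_of_nonneg_right h1 (mul_nonneg (hφ.nonneg _) (sq_nonneg _))
  set SP : ℝ := ∑ t ∈ (rT T).filter (fun t => (a j * t + 1).Prime), φ ((t : ℝ) / T) * sM e0 v0 T m (Q * P T) a (fun _ => 1) {j} t ^ 2 with hSP
  have hsplit : TS ≤ (1 + δ) * Real.log T * SP + ε / 4 * I * T := by
    rw [hTS, ← Finset.sum_filter_add_sum_filter_not (rT T) (fun t => (a j * t + 1).Prime)]
    exact add_le_add hpr (hpp.trans hpp2)
  -- conclusion
  have hMS1 : (F - ε / 4) * u ^ (K + 1) ≤ MS := by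
    have := (abs_le.1 hc1).1
    linarith
  have hTS3 : T * I * ((a j : ℝ) / (Nat.totient (a j) : ℝ)) * MS - ε / 4 * I * T ≤ TS := by
    have := (abs_le.1 hTS2).1
    linarith
  have hmain1 : T * I * ((1 - 1 / (P T : ℝ)) * (e0 * Real.log T)) * ((F - ε / 4) * u ^ K) ≤
      T * I * ((a j : ℝ) / (Nat.totient (a j) : ℝ)) * MS := by
    have h1 : T * I * ((a j : ℝ) / (Nat.totient (a j) : ℝ)) * ((F - ε / 4) * u ^ (K + 1)) ≤
        T * I * ((a j : ℝ) / (Nat.totient (a j) : ℝ)) * MS := mul_le_mul_of_nonneg_left hMS1 (by positivity)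
    refine le_trans (le_of_eq ?_) h1
    rw [← hau, pow_succ]
    ring
  have hall : T * I * ((1 - 1 / (P T : ℝ)) * (e0 * Real.log T)) * ((F - ε / 4) * u ^ K) - ε / 2 * I * T ≤
      (1 + δ) * Real.log T * SP := by linarith
  have hLT0 : 0 < Real.log T := by linarith
  have hcoef : 0 < (1 + δ) * Real.log T := by positivity
  have hgoal : (1 + δ) * Real.log T * (T * I * ((e0 * F - ε) * u ^ K)) ≤ (1 + δ) * Real.log T * SP := by
    refine le_trans ?_ hall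
    exact E2_final hL1 (by positivity) huK hFI.1 hFI.2 hε hδ0 hδ1 he0 he1 hPpos hPδ
  exact le_of_mul_le_mul_left hgoal hcoef

end EG
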