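import Pool.Agent.H6.EG.E3pM
import Pool.Agent.H6.EG.SqJ
import Pool.Agent.H6.EG.AbsJ
import Pool.Agent.H6.EG.Mtt

/-!
# MP_0e3417 row E3p: the sum over small primes `p ∣ L_j`

Proof. Fix `p`. As in `sqJ`: `∑_{t, p ∣ L_j} φ sM² β = ∑_{n,n'} ∑_t φ ∏_i Fn (D i) (f i) (L_i t)` with the data of `e3pM` (`Fn (DB) (fB) x * [p ∣ x] = Fn (DBp) (fBp) x` by `fn_mul` with `{p}`). `mtt`: the remainder is at most
`C (m+1)^(2K) (4/v0 (1 + log T)³)^(2K) T^(2 e0 + 2 r)` (`∑ |fBp| ≤ ∑ |fB| ≤ T^(2r)` by `lcf_abs`), in total over `p ≤ T^e0`: `≤ ε T u^K` since `3 e0 + 2 r ≤ 1 - κ`.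
Main terms: `T ∫φ (FI {j} + ε) u^(K+1) ∑_p ap`. `∑_{p ≤ x} (log p)/p ≤ ∑_{n ≤ x} Λ(n)/n ≤ log x + 6` (from `∑_{n ≤ x} Λ(n) ⌊x/n⌋ = log ⌊x⌋! ≤ x log x` and `ψ(x) ≤ 6 x`, Mathlib's `Chebyshev.psi` bounds / `H17`), and
`∑_{p ≤ x} 1/p ≤ 1 + log y + (log x + 6)/log y ≤ 4 √(log x) + 8` with `y = exp √(log x)`. With `x = T^e0`, `G = GG Q (Rr r T) ≥ (r/e0) u (1 - ε')` (`beB`), `φ(Q)/Q e0 log T = u`:
`∑_p ap ≤ (1/G²) ((φ(Q)/Q)(e0 log T + 6) + C0 EQ (4 √(log T) + 8)) ≤ (e0/r)² (1 + ε'') u/u²` by `eqs`. So the total is `≤ T ∫φ ((e0/r)² FI {j} + ε) u^K` (`FI {j}` is bounded in terms of `v0, m, K`: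
every factor is at most `1/v0 + 1`, so `FI ≤ ((m+1)² (1/v0 + 1))^K`).
-/

open Finset

namespace EG

theorem e3p_mer_div (n : ℕ) :
    ∑ p ∈ (Ioc 0 n).filter Nat.Prime, ((n / p : ℕ) : ℝ) * Real.log p ≤ n * Real.log n := by
  have h1 : ∀ p ∈ (Ioc 0 n).filter Nat.Prime, ((n / p : ℕ) : ℝ) * Real.log p =
      ∑ m ∈ Ioc 0 n, if p ∣ m then Real.log p else 0 := by
    intro p _
    rw [← Finset.sum_filter, Finset.sum_const, Nat.Ioc_filter_dvd_card_eq_div, nsmul_eq_mul]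
  rw [Finset.sum_congr rfl h1, Finset.sum_comm]
  calc _ ≤ ∑ m ∈ Ioc 0 n, Real.log n := by
        apply Finset.sum_le_sum
        intro m hm
        rw [Finset.mem_Ioc] at hm
        rw [← Finset.sum_filter, Finset.filter_filter]
        have h2 : (Ioc 0 n).filter (fun p => p.Prime ∧ p ∣ m) ⊆ m.primeFactors := by
          intro p hp
          rw [Finset.mem_filter] at hp
          exact Nat.mem_primeFactors.2 ⟨hp.2.1, hp.2.2, hm.1.ne'⟩
        calc _ ≤ ∑ p ∈ m.primeFactors, Real.log p :=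
              Finset.sum_le_sum_of_subset_of_nonneg h2 (fun p hp _ => Real.log_natCast_nonneg p)
          _ = Real.log (∏ p ∈ m.primeFactors, (p : ℝ)) :=
              (Real.log_prod (fun p hp => by
                exact_mod_cast (Nat.prime_of_mem_primeFactors hp).ne_zero)).symm
          _ ≤ Real.log n := by
              apply Real.log_le_log
              · exact Finset.prod_pos (fun p hp => by
                  exact_mod_cast (Nat.prime_of_mem_primeFactors hp).pos)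
              · have : ∏ p ∈ m.primeFactors, p ≤ n :=
                  (Nat.le_of_dvd hm.1 (Nat.prod_primeFactors_dvd m)).trans hm.2
                rw [← Nat.cast_prod]
                exact Nat.cast_le.2 this
    _ = n * Real.log n := by rw [Finset.sum_const, Nat.card_Ioc, nsmul_eq_mul, Nat.sub_zero]

/-- Mertens' first theorem, upper bound -/
theorem e3p_mer {n : ℕ} (hn1 : 1 ≤ n) :
    ∑ p ∈ (Ioc 0 n).filter Nat.Prime, Real.log p / p ≤ Real.log n + 2 := by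
  have hnpos : (0 : ℝ) < n := by exact_mod_cast hn1
  have hl4 : Real.log 4 ≤ 2 := by
    have h5 : (4 : ℝ) = 2 ^ 2 := by norm_num
    rw [h5, Real.log_pow]
    have := Real.log_two_lt_d9
    push_cast
    linarith
  have h1 : (n : ℝ) * ∑ p ∈ (Ioc 0 n).filter Nat.Prime, Real.log p / p ≤ n * Real.log n + Real.log 4 * n := by
    rw [Finset.mul_sum]
    calc _ ≤ ∑ p ∈ (Ioc 0 n).filter Nat.Prime,
          (((n / p : ℕ) : ℝ) * Real.log p + Real.log p) := by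
          apply Finset.sum_le_sum
          intro p hp
          have hp' := (Finset.mem_filter.1 hp).2
          have h2 : (n : ℝ) / p ≤ ((n / p : ℕ) : ℝ) + 1 := by
            have h3 := (Nat.lt_floor_add_one ((n : ℝ) / p)).le
            rwa [Nat.floor_div_eq_div] at h3
          have h4 : 0 ≤ Real.log p := Real.log_natCast_nonneg p
          calc (n : ℝ) * (Real.log p / p) = (n / p) * Real.log p := by ring
            _ ≤ (((n / p : ℕ) : ℝ) + 1) * Real.log p := mul_le_mul_of_nonneg_right h2 h4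
            _ = _ := by ring
      _ = ∑ p ∈ (Ioc 0 n).filter Nat.Prime, ((n / p : ℕ) : ℝ) * Real.log p +
          Chebyshev.theta n := by
          rw [Finset.sum_add_distrib]
          congr 1
          unfold Chebyshev.theta
          rw [Nat.floor_natCast]
      _ ≤ _ := add_le_add (e3p_mer_div n) (Chebyshev.theta_le_log4_mul_x hnpos.le)
  have h3 : (n : ℝ) * ∑ p ∈ (Ioc 0 n).filter Nat.Prime, Real.log p / p ≤ n * (Real.log n + 2) := by
    refine h1.trans ?_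
    nlinarith
  exact le_of_mul_le_mul_left h3 hnpos

theorem e3p_recip {n : ℕ} (hn : 1 ≤ n) :
    ∑ p ∈ (Ioc 0 n).filter Nat.Prime, 1 / (p : ℝ) ≤ 4 * Real.sqrt (Real.log n) + 8 := by
  classical
  have hnpos : (0 : ℝ) < n := by exact_mod_cast hn
  have hL : 0 ≤ Real.log n := Real.log_natCast_nonneg n
  obtain ⟨s, hs⟩ : ∃ s : ℝ, s = Real.sqrt (Real.log n) := ⟨_, rfl⟩
  have hs0 : 0 ≤ s := by rw [hs]; exact Real.sqrt_nonneg _
  have hss : s * s = Real.log n := by rw [hs]; exact Real.mul_self_sqrt hL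
  rw [← hs]
  have hexp : 1 ≤ Real.exp s := Real.one_le_exp hs0
  have hsmall : ∀ S : Finset ℕ, (∀ p ∈ S, 1 ≤ p ∧ (p : ℝ) ≤ Real.exp s) → ∑ p ∈ S, 1 / (p : ℝ) ≤ 1 + s := by
    intro S hS
    have h1 : S ⊆ Icc 1 ⌊Real.exp s⌋₊ := by
      intro p hp
      exact mem_Icc.2 ⟨(hS p hp).1, Nat.le_floor (hS p hp).2⟩
    have h2 : ∑ p ∈ S, 1 / (p : ℝ) ≤ ∑ p ∈ Icc 1 ⌊Real.exp s⌋₊, 1 / (p : ℝ) :=
      Finset.sum_le_sum_of_subset_of_nonneg h1 (fun p _ _ => by positivity)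
    refine h2.trans ?_
    have h3 := harmonic_floor_le_one_add_log (Real.exp s) hexp
    rw [Real.log_exp, harmonic_eq_sum_Icc] at h3
    push_cast at h3
    refine le_trans (le_of_eq ?_) h3
    exact Finset.sum_congr rfl fun p _ => one_div _
  rcases lt_or_ge s 1 with hs1 | hs1
  · -- `n ≤ 2`
    have h1 : ∑ p ∈ (Ioc 0 n).filter Nat.Prime, 1 / (p : ℝ) ≤ ∑ p ∈ Ioc 0 n, 1 / (p : ℝ) :=
      Finset.sum_le_sum_of_subset_of_nonneg (Finset.filter_subset _ _) (fun p _ _ => by positivity)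
    have h2 : (n : ℝ) ≤ Real.exp 1 := by
      rw [← Real.log_le_iff_le_exp hnpos, ← hss]
      nlinarith
    have h3 : ∑ p ∈ Ioc 0 n, 1 / (p : ℝ) ≤ ∑ p ∈ Ioc 0 n, (1 : ℝ) := by
      refine Finset.sum_le_sum fun p hp => ?_
      have : 1 ≤ p := (mem_Ioc.1 hp).1
      rw [div_le_one (by exact_mod_cast this)]
      exact_mod_cast this
    rw [Finset.sum_const, Nat.card_Ioc, nsmul_eq_mul, mul_one, Nat.sub_zero] at h3
    have h4 := Real.exp_one_lt_d9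
    linarith
  · have hs0' : 0 < s := by linarith
    have hsplit : ∑ p ∈ (Ioc 0 n).filter Nat.Prime, 1 / (p : ℝ) =
        ∑ p ∈ ((Ioc 0 n).filter Nat.Prime).filter (fun p : ℕ => (p : ℝ) ≤ Real.exp s), 1 / (p : ℝ) +
        ∑ p ∈ ((Ioc 0 n).filter Nat.Prime).filter (fun p : ℕ => ¬ (p : ℝ) ≤ Real.exp s), 1 / (p : ℝ) :=
      (Finset.sum_filter_add_sum_filter_not _ _ _).symm
    rw [hsplit]
    have h1 : ∑ p ∈ ((Ioc 0 n).filter Nat.Prime).filter (fun p : ℕ => (p : ℝ) ≤ Real.exp s), 1 / (p : ℝ) ≤ 1 + s := by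
      refine hsmall _ fun p hp => ?_
      rw [mem_filter, mem_filter, mem_Ioc] at hp
      exact ⟨hp.1.1.1, hp.2⟩
    have h2 : ∑ p ∈ ((Ioc 0 n).filter Nat.Prime).filter (fun p : ℕ => ¬ (p : ℝ) ≤ Real.exp s), 1 / (p : ℝ) ≤
        (1 / s) * (Real.log n + 2) := by
      have h3 : ∑ p ∈ ((Ioc 0 n).filter Nat.Prime).filter (fun p : ℕ => ¬ (p : ℝ) ≤ Real.exp s), 1 / (p : ℝ) ≤
          ∑ p ∈ ((Ioc 0 n).filter Nat.Prime).filter (fun p : ℕ => ¬ (p : ℝ) ≤ Real.exp s), (1 / s) * (Real.log p / p) := by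
        refine Finset.sum_le_sum fun p hp => ?_
        rw [mem_filter, mem_filter, mem_Ioc] at hp
        have hp0 : (0 : ℝ) < p := by exact_mod_cast hp.1.1.1
        have h4 : s ≤ Real.log p := by
          rw [Real.le_log_iff_exp_le hp0]
          exact (not_le.1 hp.2).le
        have h5 : (1 / s) * (Real.log p / p) = (Real.log p / s) * (1 / p) := by
          field_simp
        rw [h5]
        have h6 : 1 ≤ Real.log p / s := by
          rw [le_div_iff₀ hs0', one_mul]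
          exact h4
        have h7 : 0 ≤ 1 / (p : ℝ) := by positivity
        nlinarith
      refine h3.trans ?_
      rw [← Finset.mul_sum]
      refine mul_le_mul_of_nonneg_left ?_ (by positivity)
      refine (Finset.sum_le_sum_of_subset_of_nonneg (Finset.filter_subset _ _) (fun p hp _ => ?_)).trans (e3p_mer hn)
      exact div_nonneg (Real.log_natCast_nonneg p) (Nat.cast_nonneg p)
    have h3 : (1 / s) * (Real.log n + 2) ≤ s + 2 := by
      rw [← hss, one_div, inv_mul_le_iff₀ hs0']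
      nlinarith
    linarith

theorem e3p_apnn {C0 : ℝ} (hC0 : 1 ≤ C0) {Q R p : ℕ} (hQ : 1 ≤ Q) (hp : 1 ≤ p) : 0 ≤ ap C0 Q R p := by
  unfold ap
  have h1 := EQ_ge_one hQ
  have h2 : 0 ≤ Real.log p := Real.log_natCast_nonneg p
  refine div_nonneg ?_ (by positivity)
  have h3 : 0 ≤ (Nat.totient Q : ℝ) / Q := by positivity
  have := mul_nonneg h3 h2
  nlinarith

theorem e3p_sum {e0 T : ℝ} (he0 : 0 < e0) (he1 : e0 ≤ 1) (hT : 1 ≤ T) (Q R : ℕ) (hQ : 1 ≤ Q) {C0 : ℝ}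
    (hC0 : 1 ≤ C0) :
    ∑ p ∈ (Icc 1 ⌊T ^ e0⌋₊).filter (fun p => p.Prime ∧ ¬ p ∣ Q), ap C0 Q R p ≤
      (uu e0 T Q + 2 + 8 * C0 * (EQ Q * (1 + Real.sqrt (Real.log T)))) / GG Q R ^ 2 := by
  classical
  have hT0 : 0 < T := by linarith
  have hlT : 0 ≤ Real.log T := Real.log_nonneg hT
  have hE := EQ_ge_one hQ
  have hTe : 1 ≤ T ^ e0 := Real.one_le_rpow hT he0.le
  obtain ⟨n, hn⟩ : ∃ n : ℕ, n = ⌊T ^ e0⌋₊ := ⟨_, rfl⟩
  have hn1 : 1 ≤ n := by
    rw [hn]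
    exact Nat.le_floor (by exact_mod_cast hTe)
  have hnpos : (0 : ℝ) < n := by exact_mod_cast hn1
  have hnT : (n : ℝ) ≤ T ^ e0 := by
    rw [hn]
    exact Nat.floor_le (by positivity)
  have hlog : Real.log n ≤ e0 * Real.log T := by
    have := Real.log_le_log hnpos hnT
    rwa [Real.log_rpow hT0] at this
  have hlog2 : e0 * Real.log T ≤ Real.log T := by nlinarith
  rw [← hn]
  have h1 : ∑ p ∈ (Icc 1 n).filter (fun p => p.Prime ∧ ¬ p ∣ Q), ap C0 Q R p ≤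
      ∑ p ∈ (Ioc 0 n).filter Nat.Prime, ap C0 Q R p := by
    refine Finset.sum_le_sum_of_subset_of_nonneg ?_ ?_
    · intro p hp
      rw [mem_filter, mem_Icc] at hp
      rw [mem_filter, mem_Ioc]
      exact ⟨⟨by omega, hp.1.2⟩, hp.2.1⟩
    · intro p hp _
      exact e3p_apnn hC0 hQ (mem_filter.1 hp).2.one_lt.le
  refine h1.trans ?_
  have h2 : ∀ p ∈ (Ioc 0 n).filter Nat.Prime, ap C0 Q R p =
      (((Nat.totient Q : ℝ) / Q) * (Real.log p / p) + C0 * EQ Q * (1 / p)) / GG Q R ^ 2 := by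
    intro p hp
    have hp0 : (p : ℝ) ≠ 0 := by exact_mod_cast (mem_filter.1 hp).2.ne_zero
    unfold ap
    rw [← div_div]
    congr 1
    field_simp
  rw [Finset.sum_congr rfl h2, ← Finset.sum_div]
  refine div_le_div_of_nonneg_right ?_ (by positivity)
  rw [Finset.sum_add_distrib, ← Finset.mul_sum, ← Finset.mul_sum]
  have hφ0 : 0 ≤ (Nat.totient Q : ℝ) / Q := by positivity
  have hφ1 : (Nat.totient Q : ℝ) / Q ≤ 1 := by
    rw [div_le_one (by exact_mod_cast hQ)]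
    exact_mod_cast Nat.totient_le Q
  have h3 := mul_le_mul_of_nonneg_left (e3p_mer hn1) hφ0
  have h4 : ((Nat.totient Q : ℝ) / Q) * (Real.log n + 2) ≤ uu e0 T Q + 2 := by
    unfold uu
    have := mul_le_mul_of_nonneg_left hlog hφ0
    nlinarith
  have hCE : 0 ≤ C0 * EQ Q := by positivity
  have h5 := mul_le_mul_of_nonneg_left (e3p_recip hn1) hCE
  have h6 : Real.sqrt (Real.log n) ≤ Real.sqrt (Real.log T) := Real.sqrt_le_sqrt (hlog.trans hlog2)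
  have h7 : C0 * EQ Q * (4 * Real.sqrt (Real.log n) + 8) ≤
      8 * C0 * (EQ Q * (1 + Real.sqrt (Real.log T))) := by
    have h8 : 4 * Real.sqrt (Real.log n) + 8 ≤ 8 * (1 + Real.sqrt (Real.log T)) := by
      have := Real.sqrt_nonneg (Real.log T)
      linarith
    calc _ ≤ C0 * EQ Q * (8 * (1 + Real.sqrt (Real.log T))) := mul_le_mul_of_nonneg_left h8 hCE
      _ = _ := by ring
  linarith

theorem e3p_big {κ δ A : ℝ} (hκ : 0 < κ) (hδ : 0 < δ) (hA : 0 ≤ A) (k : ℕ) :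
    ∃ T1 : ℝ, 1 ≤ T1 ∧ ∀ T, T1 ≤ T → A * (1 + Real.log T) ^ k ≤ δ * T ^ κ := by
  have h1 := (isLittleO_log_rpow_rpow_atTop (k : ℝ) hκ).bound (c := δ / (A * 2 ^ k + 1)) (by positivity)
  rw [Filter.eventually_atTop] at h1
  obtain ⟨T0, hT0⟩ := h1
  refine ⟨max T0 (Real.exp 1), ?_, fun T hT => ?_⟩
  · exact (Real.one_le_exp (by norm_num)).trans (le_max_right _ _)
  · have hTe : Real.exp 1 ≤ T := (le_max_right _ _).trans hT
    have hTpos : 0 < T := (Real.exp_pos 1).trans_le hTe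
    have hl : 1 ≤ Real.log T := by
      rw [Real.le_log_iff_exp_le hTpos]
      exact hTe
    have h2 := hT0 T ((le_max_left _ _).trans hT)
    rw [Real.norm_of_nonneg (by positivity), Real.norm_of_nonneg (by positivity), Real.rpow_natCast] at h2
    have h3 : (1 + Real.log T) ^ k ≤ 2 ^ k * Real.log T ^ k := by
      rw [← mul_pow]
      exact pow_le_pow_left₀ (by linarith) (by linarith) k
    have h4 : A * (1 + Real.log T) ^ k ≤ (A * 2 ^ k + 1) * Real.log T ^ k := by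
      have h5 := mul_le_mul_of_nonneg_left h3 hA
      have h6 : 0 ≤ Real.log T ^ k := by positivity
      nlinarith
    refine h4.trans ?_
    have h7 := mul_le_mul_of_nonneg_left h2 (show (0 : ℝ) ≤ A * 2 ^ k + 1 by positivity)
    refine h7.trans (le_of_eq ?_)
    have : A * 2 ^ k + 1 ≠ 0 := by positivity
    field_simp

theorem e3p_Fn (Q R p : ℕ) (c : ℝ) (x : ℕ) :
    Fn (DBp Q R p) (fun B => c * fBp Q R p B) x =
      (if p ∣ x then 1 else 0) * Fn (DB Q R) (fun B => c * fB Q R B) x := by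
  rw [← sqJ_const, ← sqJ_const]
  have h1 := fn_mul (DB Q R) {p} (fB Q R) (fun _ => 1) x
  have h2 : Fn {p} (fun _ => (1 : ℝ)) x = if p ∣ x then 1 else 0 := by
    unfold Fn
    rw [Finset.sum_filter, Finset.sum_singleton]
  rw [h2] at h1
  have h3 : Fn (DBp Q R p) (fBp Q R p) x = Fn (DB Q R) (fB Q R) x * (if p ∣ x then 1 else 0) := by
    rw [h1]
    rfl
  rw [h3]
  ring

theorem e3p_prod {ι : Type} [Fintype ι] [DecidableEq ι] (e0 v0 T : ℝ) (Q R p : ℕ) (j : ι) (n n' : ι → ℕ)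
    (L : ι → ℕ) :
    ∏ i, Fn ((fun i => if i = j then DBp Q R p else DA e0 v0 T Q (n i) (n' i)) i)
      ((fun i => if i = j then fun B => la e0 v0 T Q (n i) 1 * la e0 v0 T Q (n' i) 1 * fBp Q R p B
              else fA e0 v0 T Q (n i) (n' i)) i) (L i) =
    (if p ∣ L j then 1 else 0) * ∏ i, Fn (DJ e0 v0 T Q R {j} n n' i) (fJ e0 v0 T Q R {j} n n' i) (L i) := by
  have h1 : ∀ i ∈ (Finset.univ : Finset ι), Fn ((fun i => if i = j then DBp Q R p else DA e0 v0 T Q (n i) (n' i)) i)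
      ((fun i => if i = j then fun B => la e0 v0 T Q (n i) 1 * la e0 v0 T Q (n' i) 1 * fBp Q R p B
              else fA e0 v0 T Q (n i) (n' i)) i) (L i) =
      (if i = j then (if p ∣ L i then (1 : ℝ) else 0) else 1) *
        Fn (DJ e0 v0 T Q R {j} n n' i) (fJ e0 v0 T Q R {j} n n' i) (L i) := by
    intro i _
    by_cases hij : i = j
    · subst hij
      simp only [if_true, DJ, fJ, Finset.mem_singleton]
      exact e3p_Fn Q R p _ (L i)
    · simp only [if_neg hij, DJ, fJ, Finset.mem_singleton, one_mul]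
  rw [Finset.prod_congr rfl h1, Finset.prod_mul_distrib, Finset.prod_ite_eq', if_pos (Finset.mem_univ j)]

theorem e3p_abs {ι : Type} [Fintype ι] [DecidableEq ι] (e0 v0 T : ℝ) (Q R p : ℕ) (j : ι) (n n' : ι → ℕ) :
    ∏ i, ∑ B ∈ (fun i => if i = j then DBp Q R p else DA e0 v0 T Q (n i) (n' i)) i,
      |(fun i => if i = j then fun B => la e0 v0 T Q (n i) 1 * la e0 v0 T Q (n' i) 1 * fBp Q R p B
              else fA e0 v0 T Q (n i) (n' i)) i B| ≤
    ∏ i, ∑ B ∈ DJ e0 v0 T Q R {j} n n' i, |fJ e0 v0 T Q R {j} n n' i B| := by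
  refine Finset.prod_le_prod (fun i _ => Finset.sum_nonneg fun _ _ => abs_nonneg _) fun i _ => ?_
  by_cases hij : i = j
  · subst hij
    simp only [if_true, DJ, fJ, Finset.mem_singleton]
    have h1 : ∀ (D : Finset ℕ) (f : ℕ → ℝ) (c : ℝ), ∑ B ∈ D, |c * f B| = |c| * ∑ B ∈ D, |f B| := by
      intro D f c
      rw [Finset.mul_sum]
      exact Finset.sum_congr rfl fun B _ => abs_mul _ _
    rw [h1, h1]
    refine mul_le_mul_of_nonneg_left ?_ (abs_nonneg _)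
    have h2 := lcf_abs (DB Q R) {p} (fB Q R) (fun _ => 1)
    rw [Finset.sum_singleton, abs_one, mul_one] at h2
    exact h2
  · simp only [if_neg hij, DJ, fJ, Finset.mem_singleton]
    exact le_rfl

/-- one prime -/
theorem e3p_one {φ : ℝ → ℝ} {C : ℝ} (hC : 0 ≤ C)
    (hmtt : ∀ (ι : Type) [Fintype ι] [DecidableEq ι] (Q : ℕ) (a b : ι → ℕ),
    Forms Q a b → ∀ (D : ι → Finset ℕ) (f : ι → ℕ → ℝ), (∀ i, Good Q (D i)) → ∀ T : ℝ, 1 ≤ T →
      |∑ t ∈ rT T, φ ((t : ℝ) / T) * ∏ i, Fn (D i) (f i) (a i * t + b i) - T * (∫ x, φ x) * Mm D f 1| ≤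
        C * ∏ i, ∑ B ∈ D i, |f i B|)
    {e0 v0 r : ℝ} (he0 : 0 < e0) (he1 : e0 ≤ 1) (hv0 : 0 < v0) (hr : 0 < r) (m K : ℕ)
    (ι : Type) [Fintype ι] [DecidableEq ι] (hι : Fintype.card ι = K) (Q : ℕ) (a b : ι → ℕ) (hF : Forms Q a b)
    {T : ℝ} (hT : 1 ≤ T) (j : ι) (p : ℕ) (hgd : Good Q (DBp Q (Rr r T) p)) :
    ∑ t ∈ (rT T).filter (fun t => p ∣ a j * t + b j),
          φ ((t : ℝ) / T) * (sM e0 v0 T m Q a b {j} t ^ 2 * be Q (Rr r T) (a j * t + b j)) ≤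
      T * (∫ x, φ x) * (∑ n ∈ AS ι v0 m, ∑ n' ∈ AS ι v0 m,
          Mm (fun i => if i = j then DBp Q (Rr r T) p else DA e0 v0 T Q (n i) (n' i))
            (fun i => if i = j then fun B => la e0 v0 T Q (n i) 1 * la e0 v0 T Q (n' i) 1 * fBp Q (Rr r T) p B
              else fA e0 v0 T Q (n i) (n' i)) 1) +
      (((m : ℝ) + 1) ^ K) ^ 2 * (C * ((4 / v0 * (1 + Real.log T) ^ 3) ^ (2 * K) * T ^ (2 * e0 + 2 * r))) := by
  classical
  have hlT : 0 ≤ Real.log T := Real.log_nonneg hT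
  have hT0 : 0 < T := by linarith
  have h1 := sqJ e0 v0 T m Q (Rr r T) a b {j} ((rT T).filter (fun t => p ∣ a j * t + b j))
    (fun t => φ ((t : ℝ) / T))
  simp only [Finset.prod_singleton] at h1
  rw [h1]
  have hB0 : 0 ≤ C * ((4 / v0 * (1 + Real.log T) ^ 3) ^ (2 * K) * T ^ (2 * e0 + 2 * r)) := by positivity
  have key : ∀ n ∈ AS ι v0 m, ∀ n' ∈ AS ι v0 m,
      ∑ t ∈ (rT T).filter (fun t => p ∣ a j * t + b j), φ ((t : ℝ) / T) *
        ∏ i, Fn (DJ e0 v0 T Q (Rr r T) {j} n n' i) (fJ e0 v0 T Q (Rr r T) {j} n n' i) (a i * t + b i) ≤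
      T * (∫ x, φ x) * Mm (fun i => if i = j then DBp Q (Rr r T) p else DA e0 v0 T Q (n i) (n' i))
            (fun i => if i = j then fun B => la e0 v0 T Q (n i) 1 * la e0 v0 T Q (n' i) 1 * fBp Q (Rr r T) p B
              else fA e0 v0 T Q (n i) (n' i)) 1 +
        C * ((4 / v0 * (1 + Real.log T) ^ 3) ^ (2 * K) * T ^ (2 * e0 + 2 * r)) := by
    intro n hn n' hn'
    have h2 := hmtt ι Q a b hF
      (fun i => if i = j then DBp Q (Rr r T) p else DA e0 v0 T Q (n i) (n' i))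
      (fun i => if i = j then fun B => la e0 v0 T Q (n i) 1 * la e0 v0 T Q (n' i) 1 * fBp Q (Rr r T) p B
              else fA e0 v0 T Q (n i) (n' i)) ?_ T hT
    · have h3 := (abs_le.1 h2).2
      have h4 : ∑ t ∈ rT T, φ ((t : ℝ) / T) * ∏ i,
          Fn ((fun i => if i = j then DBp Q (Rr r T) p else DA e0 v0 T Q (n i) (n' i)) i)
          ((fun i => if i = j then fun B => la e0 v0 T Q (n i) 1 * la e0 v0 T Q (n' i) 1 * fBp Q (Rr r T) p B
              else fA e0 v0 T Q (n i) (n' i)) i) (a i * t + b i) =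
          ∑ t ∈ (rT T).filter (fun t => p ∣ a j * t + b j), φ ((t : ℝ) / T) *
            ∏ i, Fn (DJ e0 v0 T Q (Rr r T) {j} n n' i) (fJ e0 v0 T Q (Rr r T) {j} n n' i) (a i * t + b i) := by
        rw [Finset.sum_filter]
        refine Finset.sum_congr rfl fun t _ => ?_
        rw [e3p_prod e0 v0 T Q (Rr r T) p j n n' (fun i => a i * t + b i)]
        split_ifs with h
        · rw [one_mul]
        · rw [zero_mul, mul_zero]
      rw [h4] at h3
      have h5 := e3p_abs e0 v0 T Q (Rr r T) p j n n'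
      have h6 := absJ he0 he1 hv0 hr m ι Q hT {j} hn hn'
      rw [Finset.card_singleton, Nat.cast_one, mul_one, hι] at h6
      have h7 := mul_le_mul_of_nonneg_left (h5.trans h6) hC
      linarith
    · intro i
      by_cases hij : i = j
      · simp only [if_pos hij]
        exact hgd
      · simp only [if_neg hij]
        exact good_lcD (beB_good Q _) (beB_good Q _)
  refine (Finset.sum_le_sum fun n hn => Finset.sum_le_sum fun n' hn' => key n hn n' hn').trans ?_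
  simp only [Finset.sum_add_distrib, ← Finset.mul_sum, Finset.sum_const, nsmul_eq_mul]
  have h8 := E3pM_card ι hι v0 m
  have h9 : ((AS ι v0 m).card : ℝ) * (((AS ι v0 m).card : ℝ) *
      (C * ((4 / v0 * (1 + Real.log T) ^ 3) ^ (2 * K) * T ^ (2 * e0 + 2 * r)))) ≤
      (((m : ℝ) + 1) ^ K) ^ 2 * (C * ((4 / v0 * (1 + Real.log T) ^ 3) ^ (2 * K) * T ^ (2 * e0 + 2 * r))) := by
    rw [← mul_assoc, ← pow_two]
    exact mul_le_mul_of_nonneg_right (pow_le_pow_left₀ (Nat.cast_nonneg _) h8 2) hB0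
  linarith

theorem e3p_FI {v0 : ℝ} (hv0 : 0 < v0) (m K : ℕ) (ι : Type) [Fintype ι] [DecidableEq ι]
    (hι : Fintype.card ι = K) (j : ι) :
    0 ≤ FI ι v0 m {j} ∧ FI ι v0 m {j} ≤ (((m : ℝ) + 1) ^ K) ^ 2 * (1 + 1 / v0) ^ K := by
  have hFI : FI ι v0 m {j} = ∑ n ∈ AS ι v0 m, ∑ n' ∈ AS ι v0 m, ∏ i, E3pM_F v0 j n n' i := rfl
  have hv : 0 < 1 / v0 := by positivity
  rw [hFI]
  constructor
  · exact Finset.sum_nonneg fun n _ => Finset.sum_nonneg fun n' _ =>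
      Finset.prod_nonneg fun i _ => E3pM_F_nn hv0 j n n' i
  · have h1 : ∀ n ∈ AS ι v0 m, ∀ n' ∈ AS ι v0 m, ∏ i, E3pM_F v0 j n n' i ≤ (1 + 1 / v0) ^ K := by
      intro n _ n' _
      refine (Finset.prod_le_prod (fun i _ => E3pM_F_nn hv0 j n n' i)
        (fun i _ => E3pM_F_le hv0 j n n' i)).trans (le_of_eq ?_)
      rw [Finset.prod_const, Finset.card_univ, hι]
    refine (Finset.sum_le_sum fun n hn => Finset.sum_le_sum fun n' hn' => h1 n hn n' hn').trans ?_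
    simp only [Finset.sum_const, nsmul_eq_mul]
    have h8 := E3pM_card ι hι v0 m
    rw [← mul_assoc, ← pow_two]
    exact mul_le_mul_of_nonneg_right (pow_le_pow_left₀ (Nat.cast_nonneg _) h8 2) (by positivity)

/-- the constants -/
theorem e3p_const {F Fm ρ ε η u G x : ℝ} {K : ℕ} (hF : 0 ≤ F) (hFm : F ≤ Fm) (hρ : 0 < ρ) (hη : 0 < η) (hη1 : η ≤ 1)
    (hηε : (3 * Fm + 4) * η * ρ ^ 2 ≤ ε) (hu : 0 < u) (hG : (ρ⁻¹ - ρ⁻¹ * (η / 4)) * u ≤ G)
    (hx : x ≤ u * (1 + η)) (hx0 : 0 ≤ x) :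
    (F + η) * u ^ (K + 1) * (x / G ^ 2) ≤ (ρ ^ 2 * F + ε) * u ^ K := by
  have hρi : 0 < ρ⁻¹ := inv_pos.2 hρ
  have h0 : 0 < 1 - η / 4 := by linarith
  have h1 : 0 < (ρ⁻¹ - ρ⁻¹ * (η / 4)) * u := by
    have : ρ⁻¹ - ρ⁻¹ * (η / 4) = ρ⁻¹ * (1 - η / 4) := by ring
    rw [this]
    positivity
  have hG0 : 0 < G := h1.trans_le hG
  have h2 : ((ρ⁻¹ - ρ⁻¹ * (η / 4)) * u) ^ 2 ≤ G ^ 2 := pow_le_pow_left₀ h1.le hG 2
  have h3 : u ^ 2 * (1 + η)⁻¹ ≤ ρ ^ 2 * G ^ 2 := by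
    have h4 : ρ ^ 2 * ((ρ⁻¹ - ρ⁻¹ * (η / 4)) * u) ^ 2 = (1 - η / 4) ^ 2 * u ^ 2 := by
      field_simp
    have h5 : (1 + η)⁻¹ ≤ (1 - η / 4) ^ 2 := by
      rw [inv_le_iff_one_le_mul₀ (by linarith)]
      nlinarith [mul_nonneg hη.le (sub_nonneg.2 hη1)]
    calc u ^ 2 * (1 + η)⁻¹ ≤ u ^ 2 * (1 - η / 4) ^ 2 := mul_le_mul_of_nonneg_left h5 (by positivity)
      _ = ρ ^ 2 * ((ρ⁻¹ - ρ⁻¹ * (η / 4)) * u) ^ 2 := by rw [h4]; ring
      _ ≤ ρ ^ 2 * G ^ 2 := mul_le_mul_of_nonneg_left h2 (by positivity)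
  have h6 : u * (x / G ^ 2) ≤ ρ ^ 2 * (1 + η) ^ 2 := by
    have h7 : u ^ 2 ≤ ρ ^ 2 * G ^ 2 * (1 + η) := by
      have := mul_le_mul_of_nonneg_right h3 (show (0 : ℝ) ≤ 1 + η by linarith)
      rwa [mul_assoc, inv_mul_cancel₀ (by linarith), mul_one] at this
    have h8 : u * x ≤ ρ ^ 2 * (1 + η) ^ 2 * G ^ 2 := by
      calc u * x ≤ u * (u * (1 + η)) := mul_le_mul_of_nonneg_left hx hu.le
        _ = u ^ 2 * (1 + η) := by ring
        _ ≤ ρ ^ 2 * G ^ 2 * (1 + η) * (1 + η) := mul_le_mul_of_nonneg_right h7 (by linarith)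
        _ = _ := by ring
    rw [← mul_div_assoc, div_le_iff₀ (by positivity)]
    exact h8
  have h9 : (F + η) * u ^ (K + 1) * (x / G ^ 2) = (F + η) * (u * (x / G ^ 2)) * u ^ K := by
    rw [pow_succ]
    ring
  rw [h9]
  refine mul_le_mul_of_nonneg_right ?_ (by positivity)
  have h10 : (F + η) * (u * (x / G ^ 2)) ≤ (F + η) * (ρ ^ 2 * (1 + η) ^ 2) :=
    mul_le_mul_of_nonneg_left h6 (by linarith)
  refine h10.trans ?_
  have h11 : (1 + η) ^ 2 ≤ 1 + 3 * η := by nlinarith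
  have h12 : (F + η) * (1 + η) ^ 2 ≤ F + (3 * Fm + 4) * η := by
    calc (F + η) * (1 + η) ^ 2 ≤ (F + η) * (1 + 3 * η) := mul_le_mul_of_nonneg_left h11 (by linarith)
      _ = F + 3 * F * η + (1 + 3 * η) * η := by ring
      _ ≤ F + 3 * Fm * η + 4 * η := by nlinarith
      _ = _ := by ring
  calc (F + η) * (ρ ^ 2 * (1 + η) ^ 2) = ρ ^ 2 * ((F + η) * (1 + η) ^ 2) := by ring
    _ ≤ ρ ^ 2 * (F + (3 * Fm + 4) * η) := mul_le_mul_of_nonneg_left h12 (by positivity)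
    _ = ρ ^ 2 * F + (3 * Fm + 4) * η * ρ ^ 2 := by ring
    _ ≤ _ := by linarith

theorem e3p {η : ℝ} {φ : ℝ → ℝ} (hφ : Wt η φ) {e0 v0 r κ : ℝ} (he0 : 0 < e0) (he1 : e0 ≤ 1) (hv0 : 0 < v0) (hr : 0 < r) (hκ : 0 < κ)
    (h3 : 3 * e0 + 2 * r ≤ 1 - κ) (m K : ℕ) (hK : 1 ≤ K) {ε : ℝ} (hε : 0 < ε) :
    ∃ T1 : ℝ, ∃ w0 : ℕ, ∀ (ι : Type) [Fintype ι] [DecidableEq ι], Fintype.card ι = K → ∀ (Q : ℕ) (a b : ι → ℕ), Forms Q a b → Wide w0 Q →
      ∀ T, T1 ≤ T → Big e0 T Q → ∀ j : ι,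
      ∑ p ∈ (Icc 1 ⌊T ^ e0⌋₊).filter (fun p => p.Prime ∧ ¬ p ∣ Q), ∑ t ∈ (rT T).filter (fun t => p ∣ a j * t + b j),
          φ ((t : ℝ) / T) * (sM e0 v0 T m Q a b {j} t ^ 2 * be Q (Rr r T) (a j * t + b j)) ≤
        T * (∫ x, φ x) * (((e0 / r) ^ 2 * FI ι v0 m {j} + ε) * uu e0 T Q ^ K) := by
  classical
  obtain ⟨C, hC, hmtt⟩ := mtt hφ
  obtain ⟨C0, hC0, hM⟩ := e3pM he0 hv0 hr m K hK
  obtain ⟨C1, hC1, hBB⟩ := beB he0 hr
  have hI := hφ.int_pos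
  obtain ⟨ρ, hρ⟩ : ∃ ρ : ℝ, ρ = e0 / r := ⟨_, rfl⟩
  have hρ0 : 0 < ρ := by rw [hρ]; positivity
  have hv : 0 < 1 / v0 := by positivity
  obtain ⟨Fm, hFm⟩ : ∃ Fm : ℝ, Fm = (((m : ℝ) + 1) ^ K) ^ 2 * (1 + 1 / v0) ^ K := ⟨_, rfl⟩
  have hFm0 : 0 ≤ Fm := by rw [hFm]; positivity
  obtain ⟨η', hη'⟩ : ∃ η' : ℝ, η' = min 1 ((ε / 2) / ((3 * Fm + 4) * ρ ^ 2)) := ⟨_, rfl⟩
  have hη0 : 0 < η' := by
    rw [hη']
    exact lt_min one_pos (by positivity)
  have hη1 : η' ≤ 1 := by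
    rw [hη']
    exact min_le_left _ _
  have hηε : (3 * Fm + 4) * η' * ρ ^ 2 ≤ ε / 2 := by
    have h1 : η' ≤ (ε / 2) / ((3 * Fm + 4) * ρ ^ 2) := by
      rw [hη']
      exact min_le_right _ _
    rw [le_div_iff₀ (by positivity)] at h1
    linarith
  obtain ⟨TM, w0, hTM⟩ := hM η' hη0
  obtain ⟨TB, hTB⟩ := hBB (ρ⁻¹ * (η' / 4)) (by positivity)
  obtain ⟨TE, hTE1, hTE⟩ := eqs he0 (ε := η' / (2 + 8 * C0)) (by positivity)
  obtain ⟨TL, hTL1, hTL⟩ := e3p_big (κ := κ) (δ := ε / 2 * ∫ x, φ x)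
    (A := (((m : ℝ) + 1) ^ K) ^ 2 * (C * (4 / v0) ^ (2 * K))) hκ (by positivity) (by positivity) (6 * K)
  refine ⟨max (max TM TB) (max TE TL), w0, ?_⟩
  intro ι _ _ hι Q a b hF hW T hT hbig j
  have hTM' : TM ≤ T := (le_max_left _ _).trans ((le_max_left _ _).trans hT)
  have hTB' : TB ≤ T := (le_max_right _ _).trans ((le_max_left _ _).trans hT)
  have hTE' : TE ≤ T := (le_max_left _ _).trans ((le_max_right _ _).trans hT)
  have hTL' : TL ≤ T := (le_max_right _ _).trans ((le_max_right _ _).trans hT)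
  have hT1 : 1 ≤ T := hTE1.trans hTE'
  have hT0 : 0 < T := by linarith
  have hlT : 0 ≤ Real.log T := Real.log_nonneg hT1
  have hQ := hF.Q_pos
  obtain ⟨hE1, hE2⟩ := hTE T hTE' Q hQ hbig
  obtain ⟨_, _, _, _, hGG⟩ := hTB T hTB' Q hQ hbig
  obtain ⟨hFI0, hFI1⟩ := e3p_FI hv0 m K ι hι j
  rw [← hFm] at hFI1
  obtain ⟨u, hu⟩ : ∃ u : ℝ, u = uu e0 T Q := ⟨_, rfl⟩
  obtain ⟨F, hFd⟩ : ∃ F : ℝ, F = FI ι v0 m {j} := ⟨_, rfl⟩
  have hsum := e3p_sum he0 he1 hT1 Q (Rr r T) hQ hC0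
  have hE0 : 0 < 2 + 8 * C0 := by linarith
  rw [← hu] at hE1 hE2 hGG hsum ⊢
  rw [← hFd] at hFI0 hFI1 ⊢
  rw [← hρ]
  have hρr : r / e0 = ρ⁻¹ := by rw [hρ, inv_div]
  rw [hρr] at hGG
  have hu1 : 1 ≤ u := by
    have h1 : 1 ≤ 1 / (η' / (2 + 8 * C0)) := by
      rw [le_div_iff₀ (by positivity), one_mul, div_le_one hE0]
      linarith
    exact h1.trans hE1
  have hu0 : 0 < u := by linarith
  have hE1' : 2 * (η' / (2 + 8 * C0)) * u ≥ 2 := by
    rw [div_le_iff₀ (by positivity)] at hE1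
    linarith
  have hG : (ρ⁻¹ - ρ⁻¹ * (η' / 4)) * u ≤ GG Q (Rr r T) := by
    have := (abs_le.1 hGG).1
    linarith
  have hEnn : 0 ≤ EQ Q * (1 + Real.sqrt (Real.log T)) := by
    have := EQ_ge_one hQ
    positivity
  have hx : u + 2 + 8 * C0 * (EQ Q * (1 + Real.sqrt (Real.log T))) ≤ u * (1 + η') := by
    have h1 : 8 * C0 * (EQ Q * (1 + Real.sqrt (Real.log T))) ≤ 8 * C0 * (η' / (2 + 8 * C0) * u) :=
      mul_le_mul_of_nonneg_left hE2 (by positivity)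
    have h2 : 2 * (η' / (2 + 8 * C0)) * u + 8 * C0 * (η' / (2 + 8 * C0) * u) = u * η' := by
      field_simp
    linarith
  have hx0 : 0 ≤ u + 2 + 8 * C0 * (EQ Q * (1 + Real.sqrt (Real.log T))) := by positivity
  have hconst := e3p_const (K := K) hFI0 hFI1 hρ0 hη0 hη1 hηε hu0 hG hx hx0
  -- the sum over the primes
  obtain ⟨P, hP⟩ : ∃ P : Finset ℕ, P = (Icc 1 ⌊T ^ e0⌋₊).filter (fun p => p.Prime ∧ ¬ p ∣ Q) := ⟨_, rfl⟩
  rw [← hP] at hsum ⊢
  obtain ⟨B, hB⟩ : ∃ B : ℝ, B = (((m : ℝ) + 1) ^ K) ^ 2 *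
      (C * ((4 / v0 * (1 + Real.log T) ^ 3) ^ (2 * K) * T ^ (2 * e0 + 2 * r))) := ⟨_, rfl⟩
  have hB0 : 0 ≤ B := by rw [hB]; positivity
  have hone : ∀ p ∈ P, ∑ t ∈ (rT T).filter (fun t => p ∣ a j * t + b j),
          φ ((t : ℝ) / T) * (sM e0 v0 T m Q a b {j} t ^ 2 * be Q (Rr r T) (a j * t + b j)) ≤
      T * (∫ x, φ x) * ((F + η') * u ^ (K + 1)) * ap C0 Q (Rr r T) p + B := by
    intro p hp
    rw [hP, mem_filter] at hp
    obtain ⟨hgd, hmm⟩ := hTM ι hι Q hQ hW T hTM' hbig j p hp.2.1 hp.2.2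
    have h1 := e3p_one hC hmtt he0 he1 hv0 hr m K ι hι Q a b hF hT1 j p hgd
    rw [← hB] at h1
    rw [← hu, ← hFd] at hmm
    have h2 := mul_le_mul_of_nonneg_left hmm (show 0 ≤ T * (∫ x, φ x) by positivity)
    have h3 : T * (∫ x, φ x) * ((F + η') * u ^ (K + 1) * ap C0 Q (Rr r T) p) =
      T * (∫ x, φ x) * ((F + η') * u ^ (K + 1)) * ap C0 Q (Rr r T) p := by ring
    rw [h3] at h2
    exact h1.trans (add_le_add h2 le_rfl)
  refine (Finset.sum_le_sum hone).trans ?_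
  rw [Finset.sum_add_distrib, ← Finset.mul_sum, Finset.sum_const, nsmul_eq_mul]
  have hcard : (P.card : ℝ) ≤ T ^ e0 := by
    have h1 : P.card ≤ ⌊T ^ e0⌋₊ := by
      rw [hP]
      refine (Finset.card_filter_le _ _).trans ?_
      rw [Nat.card_Icc]
      omega
    exact (Nat.cast_le.2 h1).trans (Nat.floor_le (by positivity))
  have hrem : (P.card : ℝ) * B ≤ T * (∫ x, φ x) * (ε / 2 * u ^ K) := by
    have h1 : (P.card : ℝ) * B ≤ T ^ e0 * B := mul_le_mul_of_nonneg_right hcard hB0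
    have h2 : T ^ e0 * B = ((((m : ℝ) + 1) ^ K) ^ 2 * (C * (4 / v0) ^ (2 * K)) * (1 + Real.log T) ^ (6 * K)) *
        T ^ (3 * e0 + 2 * r) := by
      have h3 : T ^ (3 * e0 + 2 * r) = T ^ e0 * T ^ (2 * e0 + 2 * r) := by
        rw [← Real.rpow_add hT0]
        congr 1
        ring
      have h4 : (4 / v0 * (1 + Real.log T) ^ 3) ^ (2 * K) = (4 / v0) ^ (2 * K) * (1 + Real.log T) ^ (6 * K) := by
        rw [mul_pow, ← pow_mul]
        congr 2
        ring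
      rw [hB, h3, h4]
      ring
    have h5 := hTL T hTL'
    have h6 : T ^ (3 * e0 + 2 * r) ≤ T ^ (1 - κ) := Real.rpow_le_rpow_of_exponent_le hT1 h3
    have h7 : T ^ κ * T ^ (1 - κ) = T := by
      rw [← Real.rpow_add hT0]
      have : κ + (1 - κ) = 1 := by ring
      rw [this, Real.rpow_one]
    have h8 : (1 : ℝ) ≤ u ^ K := one_le_pow₀ hu1
    calc (P.card : ℝ) * B ≤ T ^ e0 * B := h1
      _ = ((((m : ℝ) + 1) ^ K) ^ 2 * (C * (4 / v0) ^ (2 * K)) * (1 + Real.log T) ^ (6 * K)) *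
        T ^ (3 * e0 + 2 * r) := h2
      _ ≤ (ε / 2 * (∫ x, φ x) * T ^ κ) * T ^ (1 - κ) :=
          mul_le_mul h5 h6 (by positivity) (by positivity)
      _ = (T ^ κ * T ^ (1 - κ)) * (∫ x, φ x) * (ε / 2 * 1) := by ring
      _ = T * (∫ x, φ x) * (ε / 2 * 1) := by rw [h7]
      _ ≤ T * (∫ x, φ x) * (ε / 2 * u ^ K) := by
          refine mul_le_mul_of_nonneg_left ?_ (by positivity)
          exact mul_le_mul_of_nonneg_left h8 (by positivity)
  have hmain : T * (∫ x, φ x) * ((F + η') * u ^ (K + 1)) * ∑ p ∈ P, ap C0 Q (Rr r T) p ≤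
      T * (∫ x, φ x) * ((ρ ^ 2 * F + ε / 2) * u ^ K) := by
    have h1 : (F + η') * u ^ (K + 1) * ∑ p ∈ P, ap C0 Q (Rr r T) p ≤
        (F + η') * u ^ (K + 1) * ((u + 2 + 8 * C0 * (EQ Q * (1 + Real.sqrt (Real.log T)))) / GG Q (Rr r T) ^ 2) :=
      mul_le_mul_of_nonneg_left hsum (by positivity)
    have h2 := mul_le_mul_of_nonneg_left (h1.trans hconst) (show 0 ≤ T * (∫ x, φ x) by positivity)
    refine le_trans (le_of_eq ?_) h2
    ring
  refine (add_le_add hmain hrem).trans (le_of_eq ?_)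
  ring

end EG
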