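import Pool.Agent.H6.EG.AtA
import Pool.Agent.H6.EG.BeB
import Pool.Agent.H6.EG.Gen

/-!
# MP_0e3417 row MainJ: the main terms of E1, E3, E5

Proof. Fix `n, n' ∈ AS` (so `n i, n' i ≤ m`) and apply `gen` with `p = 1`, any `j0` (`K ≥ 1`), `s i = u = uu e0 T Q`, `D = DJ`, `f = fJ`, `C = 10` and
`σ i = if i ∈ J then (e0/r) g w(n i) g w(n' i) else (if n i = n' i then g² w(n i) else 0)` (`g = 1/vv`, `w = wv`), where `g w ≤ 1`, `g² w ≤ 1/v0`.
`i ∉ J`: `atA`. `i ∈ J`: `Ctrl` and `SS` are linear in `f`: `|la 1|, |la' 1| ≤ 2 u`, so `Ctrl 10 (4 u² C1/u)`; `|la la' SS(fB) 1 - g w g w (e0/r) u| ≤ ε1 u` from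
`|la - g w u| ≤ ε' u`, `|SS(fB) 1 - (e0/r)/u| ≤ ε'/u`. So `|Mm - (∏ σ) u^K| ≤ ε' u^K` for each of the at most `(m+1)^(2K)` pairs, and
`∑_{n,n'} ∏_i σ i = (e0/r)^|J| FI ι v0 m J`.
-/

open Finset

namespace EG

theorem MainJ_SS (c : ℝ) (D : Finset ℕ) (f : ℕ → ℝ) (b : ℕ) :
    SS D (fun B => c * f B) b = c * SS D f b := by
  unfold SS
  rw [mul_sum]
  exact sum_congr rfl fun B _ => mul_div_assoc _ _ _

theorem MainJ_mono {C a a' : ℝ} {p : ℕ} {D : Finset ℕ} {f : ℕ → ℝ} (hC : 0 ≤ C)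
    (h : Ctrl C a p D f) (ha : a ≤ a') : Ctrl C a' p D f := by
  intro b hb
  refine (h b hb).trans ?_
  gcongr

theorem MainJ_ctrl {C a a' c : ℝ} {p : ℕ} {D : Finset ℕ} {f : ℕ → ℝ} (hC : 0 ≤ C)
    (h : Ctrl C a p D f) (ha : |c| * a ≤ a') : Ctrl C a' p D (fun B => c * f B) := by
  intro b hb
  rw [MainJ_SS, abs_mul]
  calc |c| * |SS D f b| ≤ |c| * (a * C ^ b.primeFactors.card * (Nat.gcd b p : ℝ) / b) :=
        mul_le_mul_of_nonneg_left (h b hb) (abs_nonneg _)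
    _ = (|c| * a) * C ^ b.primeFactors.card * (Nat.gcd b p : ℝ) / b := by ring
    _ ≤ a' * C ^ b.primeFactors.card * (Nat.gcd b p : ℝ) / b := by gcongr

theorem MainJ_gw {v0 : ℝ} (hv0 : 0 < v0) (n : ℕ) :
    0 ≤ (vv v0 n)⁻¹ * wv v0 n ∧ (vv v0 n)⁻¹ * wv v0 n ≤ 1 := by
  have h := AtA_vv_pos hv0 n
  unfold wv
  by_cases hn : n = 0
  · subst hn
    rw [if_pos rfl, AtA_vv_zero, inv_mul_cancel₀ hv0.ne']
    norm_num
  · rw [if_neg hn]
    have h1 : (vv v0 n)⁻¹ * (vv v0 n / 2) = 1 / 2 := by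
      field_simp
    rw [h1]
    norm_num

theorem MainJ_g2w {v0 : ℝ} (hv0 : 0 < v0) (n : ℕ) :
    |((vv v0 n)⁻¹) ^ 2 * wv v0 n| ≤ v0⁻¹ := by
  obtain ⟨h1, h2⟩ := MainJ_gw hv0 n
  have h3 : 0 < (vv v0 n)⁻¹ := inv_pos.2 (AtA_vv_pos hv0 n)
  have h4 : (vv v0 n)⁻¹ ≤ v0⁻¹ := inv_anti₀ hv0 (AtA_vv_ge hv0 n)
  have e : ((vv v0 n)⁻¹) ^ 2 * wv v0 n = (vv v0 n)⁻¹ * ((vv v0 n)⁻¹ * wv v0 n) := by ring
  rw [e, abs_of_nonneg (mul_nonneg h3.le h1)]
  calc (vv v0 n)⁻¹ * ((vv v0 n)⁻¹ * wv v0 n) ≤ v0⁻¹ * 1 :=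
        mul_le_mul h4 h2 h1 (inv_pos.2 hv0).le
    _ = v0⁻¹ := mul_one _

theorem MainJ_prod {ι : Type} [Fintype ι] [DecidableEq ι] (κ : ℝ) (J : Finset ι) (X Y : ι → ℝ) :
    ∏ i, (if i ∈ J then κ * X i else Y i) =
      κ ^ J.card * ∏ i, (if i ∈ J then X i else Y i) := by
  have h1 : ∀ i, (if i ∈ J then κ * X i else Y i) =
      (if i ∈ J then κ else 1) * (if i ∈ J then X i else Y i) := by
    intro i
    split_ifs <;> simp
  rw [prod_congr rfl (fun i _ => h1 i), prod_mul_distrib, prod_ite_mem, univ_inter, prod_const]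

theorem MainJ_three {α α' κ δ u a a' S : ℝ} (hα : 0 ≤ α) (hα1 : α ≤ 1) (hα' : 0 ≤ α')
    (hα1' : α' ≤ 1) (hκ : 0 ≤ κ) (hδ : 0 ≤ δ) (hδ1 : δ ≤ 1) (hu : 0 < u)
    (ha : |a - α * u| ≤ δ * u) (ha' : |a' - α' * u| ≤ δ * u) (hS : |S - κ / u| ≤ δ / u) :
    |a * a' * S - κ * (α * α') * u| ≤ (3 * κ + 4) * δ * u := by
  have h1 : |a'| ≤ 2 * u := by
    have q1 : |a'| ≤ |a' - α' * u| + |α' * u| := by
      have := abs_add_le (a' - α' * u) (α' * u)
      simpa using this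
    have q2 : |α' * u| ≤ 1 * u := by
      rw [abs_of_nonneg (by positivity)]
      exact mul_le_mul_of_nonneg_right hα1' hu.le
    have q3 : δ * u ≤ 1 * u := mul_le_mul_of_nonneg_right hδ1 hu.le
    linarith
  have h2 : |S| ≤ (κ + 1) / u := by
    have q1 : |S| ≤ |S - κ / u| + |κ / u| := by
      have := abs_add_le (S - κ / u) (κ / u)
      simpa using this
    have q2 : |κ / u| = κ / u := abs_of_nonneg (by positivity)
    have q3 : δ / u ≤ 1 / u := div_le_div_of_nonneg_right hδ1 hu.le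
    rw [add_div]
    linarith
  have e : a * a' * S - κ * (α * α') * u = (a - α * u) * (a' * S) + (α * u) * ((a' - α' * u) * S)
      + (α * u) * ((α' * u) * (S - κ / u)) := by
    field_simp
    ring
  rw [e]
  have t1 : |(a - α * u) * (a' * S)| ≤ 2 * (κ + 1) * δ * u := by
    rw [abs_mul, abs_mul]
    calc |a - α * u| * (|a'| * |S|) ≤ (δ * u) * ((2 * u) * ((κ + 1) / u)) := by gcongr
      _ = 2 * (κ + 1) * δ * u := by field_simp
  have t2 : |(α * u) * ((a' - α' * u) * S)| ≤ (κ + 1) * δ * u := by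
    rw [abs_mul (α * u), abs_mul (a' - α' * u), abs_of_nonneg (by positivity : 0 ≤ α * u)]
    calc (α * u) * (|a' - α' * u| * |S|) ≤ (1 * u) * ((δ * u) * ((κ + 1) / u)) := by gcongr
      _ = (κ + 1) * δ * u := by field_simp
  have t3 : |(α * u) * ((α' * u) * (S - κ / u))| ≤ δ * u := by
    rw [abs_mul (α * u), abs_mul (α' * u), abs_of_nonneg (by positivity : 0 ≤ α * u),
      abs_of_nonneg (by positivity : 0 ≤ α' * u)]
    calc (α * u) * ((α' * u) * |S - κ / u|) ≤ (1 * u) * ((1 * u) * (δ / u)) := by gcongr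
      _ = δ * u := by field_simp
  have t4 := abs_add_le ((a - α * u) * (a' * S) + (α * u) * ((a' - α' * u) * S))
    ((α * u) * ((α' * u) * (S - κ / u)))
  have t5 := abs_add_le ((a - α * u) * (a' * S)) ((α * u) * ((a' - α' * u) * S))
  linarith

theorem mainJ {e0 v0 r : ℝ} (he0 : 0 < e0) (hv0 : 0 < v0) (hr : 0 < r) (m K : ℕ) (hK : 1 ≤ K) {ε : ℝ} (hε : 0 < ε) :
    ∃ T1 : ℝ, ∃ w0 : ℕ, ∀ (ι : Type) [Fintype ι] [DecidableEq ι], Fintype.card ι = K → ∀ Q : ℕ, 1 ≤ Q → Wide w0 Q →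
      ∀ T, T1 ≤ T → Big e0 T Q → ∀ J : Finset ι,
      |∑ n ∈ AS ι v0 m, ∑ n' ∈ AS ι v0 m, Mm (DJ e0 v0 T Q (Rr r T) J n n') (fJ e0 v0 T Q (Rr r T) J n n') 1 -
        (e0 / r) ^ J.card * FI ι v0 m J * uu e0 T Q ^ K| ≤ ε * uu e0 T Q ^ K := by
  have hκ : 0 < e0 / r := div_pos he0 hr
  obtain ⟨Ca, hCa, hatA⟩ := atA he0 hv0 m
  obtain ⟨Cb, hCb, hbeB⟩ := beB he0 hr
  have hv0' : 0 < v0⁻¹ := inv_pos.2 hv0
  obtain ⟨A, hA⟩ : ∃ A : ℝ, A = Ca + 4 * Cb + e0 / r + v0⁻¹ := ⟨_, rfl⟩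
  have hA1 : 1 ≤ A := by
    rw [hA]
    linarith
  obtain ⟨N, hNdef⟩ : ∃ N : ℝ, N = ((m + 1 : ℕ) : ℝ) ^ K := ⟨_, rfl⟩
  have hN : 0 < N := by
    rw [hNdef]
    positivity
  have hNN : 0 < N * N := by positivity
  obtain ⟨ε1, w0, hε1, hgen⟩ := gen K 10 A (by norm_num) hA1 (div_pos hε hNN)
  obtain ⟨δ, hδ⟩ : ∃ δ : ℝ, δ = min 1 (ε1 / (3 * (e0 / r) + 4)) := ⟨_, rfl⟩
  have hδ0 : 0 < δ := by
    rw [hδ]
    exact lt_min one_pos (by positivity)
  have hδ1 : δ ≤ 1 := by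
    rw [hδ]
    exact min_le_left _ _
  have hδ2 : (3 * (e0 / r) + 4) * δ ≤ ε1 := by
    have h1 : δ ≤ ε1 / (3 * (e0 / r) + 4) := by
      rw [hδ]
      exact min_le_right _ _
    rw [le_div_iff₀ (by positivity)] at h1
    linarith
  have hδ3 : δ ≤ ε1 := by nlinarith
  obtain ⟨Ta, hTa⟩ := hatA δ hδ0
  obtain ⟨Tb, hTb⟩ := hbeB δ hδ0
  refine ⟨max Ta Tb, w0, ?_⟩
  intro ι _ _ hcard Q hQ hW T hT hBig J
  have hTA := hTa T ((le_max_left _ _).trans hT) Q hQ hBig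
  obtain ⟨hR1, hDBg, hDBc, hDBs, hGG⟩ := hTb T ((le_max_right _ _).trans hT) Q hQ hBig
  have hu1 : 1 ≤ uu e0 T Q := by
    have h1 := EQ_ge_one hQ
    have h2 : (1 : ℝ) ≤ EQ Q ^ 4 := one_le_pow₀ h1
    exact h2.trans hBig
  obtain ⟨u, hu⟩ : ∃ u : ℝ, u = uu e0 T Q := ⟨_, rfl⟩
  rw [← hu] at hTA hDBc hDBs hGG hu1 ⊢
  have hu0 : 0 < u := by linarith
  haveI : Nonempty ι := by
    rw [← Fintype.card_pos_iff, hcard]
    omega
  have hAS : ∀ n ∈ AS ι v0 m, ∀ i, n i ≤ m := by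
    intro n hn i
    rw [AS, mem_filter, Fintype.mem_piFinset] at hn
    have := hn.1 i
    rw [mem_range] at this
    omega
  have key : ∀ n ∈ AS ι v0 m, ∀ n' ∈ AS ι v0 m,
      |Mm (DJ e0 v0 T Q (Rr r T) J n n') (fJ e0 v0 T Q (Rr r T) J n n') 1 -
        (e0 / r) ^ J.card * (∏ i, if i ∈ J then
          (vv v0 (n i))⁻¹ * wv v0 (n i) * ((vv v0 (n' i))⁻¹ * wv v0 (n' i))
          else if n i = n' i then ((vv v0 (n i))⁻¹) ^ 2 * wv v0 (n i) else 0) * u ^ K| ≤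
        ε / (N * N) * u ^ K := by
    intro n hn n' hn'
    have hla : ∀ k ≤ m, |la e0 v0 T Q k 1| ≤ 2 * u := by
      intro k hk
      have h1 := (hTA k hk k hk).2.2.2
      obtain ⟨h2, h3⟩ := MainJ_gw hv0 k
      have h4 : |la e0 v0 T Q k 1| ≤
          |la e0 v0 T Q k 1 - (vv v0 k)⁻¹ * wv v0 k * u| + |(vv v0 k)⁻¹ * wv v0 k * u| := by
        have := abs_add_le (la e0 v0 T Q k 1 - (vv v0 k)⁻¹ * wv v0 k * u)
          ((vv v0 k)⁻¹ * wv v0 k * u)
        simpa using this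
      have h5 : |(vv v0 k)⁻¹ * wv v0 k * u| ≤ 1 * u := by
        rw [abs_of_nonneg (mul_nonneg h2 hu0.le)]
        exact mul_le_mul_of_nonneg_right h3 hu0.le
      have h6 : δ * u ≤ 1 * u := mul_le_mul_of_nonneg_right hδ1 hu0.le
      linarith
    have hG := hgen ι hcard w0 Q 1 hW le_rfl (Or.inl rfl)
      (DJ e0 v0 T Q (Rr r T) J n n') (fJ e0 v0 T Q (Rr r T) J n n') (fun _ => u)
      (fun i => if i ∈ J then e0 / r *
          ((vv v0 (n i))⁻¹ * wv v0 (n i) * ((vv v0 (n' i))⁻¹ * wv v0 (n' i)))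
          else if n i = n' i then ((vv v0 (n i))⁻¹) ^ 2 * wv v0 (n i) else 0)
      (Classical.arbitrary ι) (fun _ => hu0.le) ?_ ?_ ?_ ?_
    · rw [MainJ_prod (e0 / r) J
        (fun i => (vv v0 (n i))⁻¹ * wv v0 (n i) * ((vv v0 (n' i))⁻¹ * wv v0 (n' i)))
        (fun i => if n i = n' i then ((vv v0 (n i))⁻¹) ^ 2 * wv v0 (n i) else 0), prod_const,
        card_univ, hcard] at hG
      exact hG
    · intro i
      by_cases hi : i ∈ J
      · simp only [if_pos hi]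
        obtain ⟨h2, h3⟩ := MainJ_gw hv0 (n i)
        obtain ⟨h2', h3'⟩ := MainJ_gw hv0 (n' i)
        rw [abs_of_nonneg (mul_nonneg hκ.le (mul_nonneg h2 h2'))]
        have h4 : (vv v0 (n i))⁻¹ * wv v0 (n i) * ((vv v0 (n' i))⁻¹ * wv v0 (n' i)) ≤ 1 :=
          mul_le_one₀ h3 h2' h3'
        have h5 := mul_le_mul_of_nonneg_left h4 hκ.le
        rw [hA]
        linarith
      · simp only [if_neg hi]
        by_cases hnn : n i = n' i
        · rw [if_pos hnn]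
          refine (MainJ_g2w hv0 (n i)).trans ?_
          rw [hA]
          linarith
        · rw [if_neg hnn, abs_zero]
          linarith
    · intro i
      by_cases hi : i ∈ J
      · simp only [DJ, if_pos hi]
        exact hDBg
      · simp only [DJ, if_neg hi]
        exact (hTA (n i) (hAS n hn i) (n' i) (hAS n' hn' i)).1
    · intro i
      rw [ite_self]
      by_cases hi : i ∈ J
      · simp only [DJ, fJ, if_pos hi]
        refine MainJ_ctrl (by norm_num) hDBc ?_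
        have h1 := hla (n i) (hAS n hn i)
        have h2 := hla (n' i) (hAS n' hn' i)
        rw [abs_mul]
        calc |la e0 v0 T Q (n i) 1| * |la e0 v0 T Q (n' i) 1| * (Cb / u) ≤
              (2 * u) * (2 * u) * (Cb / u) := by
                have : 0 ≤ Cb / u := div_nonneg (by linarith) hu0.le
                gcongr
          _ = 4 * Cb * u := by
            field_simp
            ring
          _ ≤ A * u := by
            refine mul_le_mul_of_nonneg_right ?_ hu0.le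
            rw [hA]
            linarith
      · simp only [DJ, fJ, if_neg hi]
        refine MainJ_mono (by norm_num)
          (hTA (n i) (hAS n hn i) (n' i) (hAS n' hn' i)).2.1 ?_
        refine mul_le_mul_of_nonneg_right ?_ hu0.le
        rw [hA]
        linarith
    · intro i
      by_cases hi : i ∈ J
      · simp only [DJ, fJ, if_pos hi]
        rw [MainJ_SS]
        obtain ⟨h2, h3⟩ := MainJ_gw hv0 (n i)
        obtain ⟨h2', h3'⟩ := MainJ_gw hv0 (n' i)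
        have h1 := (hTA (n i) (hAS n hn i) (n i) (hAS n hn i)).2.2.2
        have h1' := (hTA (n' i) (hAS n' hn' i) (n' i) (hAS n' hn' i)).2.2.2
        have h4 := MainJ_three h2 h3 h2' h3' hκ.le hδ0.le hδ1 hu0 h1 h1' hDBs
        exact h4.trans (mul_le_mul_of_nonneg_right hδ2 hu0.le)
      · simp only [DJ, fJ, if_neg hi]
        exact ((hTA (n i) (hAS n hn i) (n' i) (hAS n' hn' i)).2.2.1).trans
          (mul_le_mul_of_nonneg_right hδ3 hu0.le)
  have hFI : (e0 / r) ^ J.card * FI ι v0 m J * u ^ K = ∑ n ∈ AS ι v0 m, ∑ n' ∈ AS ι v0 m,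
      (e0 / r) ^ J.card * (∏ i, if i ∈ J then
          (vv v0 (n i))⁻¹ * wv v0 (n i) * ((vv v0 (n' i))⁻¹ * wv v0 (n' i))
          else if n i = n' i then ((vv v0 (n i))⁻¹) ^ 2 * wv v0 (n i) else 0) * u ^ K := by
    unfold FI
    rw [mul_sum, sum_mul]
    refine sum_congr rfl fun n _ => ?_
    rw [mul_sum, sum_mul]
  rw [hFI, ← sum_sub_distrib]
  have hcardAS : ((AS ι v0 m).card : ℝ) ≤ N := by
    have h1 : (AS ι v0 m).card ≤ (m + 1) ^ K := by
      refine (card_filter_le _ _).trans (le_of_eq ?_)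
      rw [Fintype.card_piFinset]
      simp [hcard]
    rw [hNdef]
    exact_mod_cast h1
  have hP : 0 ≤ ε / (N * N) * u ^ K := by positivity
  calc |∑ n ∈ AS ι v0 m, (∑ n' ∈ AS ι v0 m, Mm (DJ e0 v0 T Q (Rr r T) J n n')
          (fJ e0 v0 T Q (Rr r T) J n n') 1 - ∑ n' ∈ AS ι v0 m,
      (e0 / r) ^ J.card * (∏ i, if i ∈ J then
          (vv v0 (n i))⁻¹ * wv v0 (n i) * ((vv v0 (n' i))⁻¹ * wv v0 (n' i))
          else if n i = n' i then ((vv v0 (n i))⁻¹) ^ 2 * wv v0 (n i) else 0) * u ^ K)|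
      ≤ ∑ n ∈ AS ι v0 m, N * (ε / (N * N) * u ^ K) := by
        refine (abs_sum_le_sum_abs _ _).trans (sum_le_sum fun n hn => ?_)
        rw [← sum_sub_distrib]
        refine (abs_sum_le_sum_abs _ _).trans ?_
        refine (sum_le_sum fun n' hn' => key n hn n' hn').trans ?_
        rw [sum_const, nsmul_eq_mul]
        exact mul_le_mul_of_nonneg_right hcardAS hP
    _ ≤ N * (N * (ε / (N * N) * u ^ K)) := by
        rw [sum_const, nsmul_eq_mul]
        exact mul_le_mul_of_nonneg_right hcardAS (mul_nonneg hN.le hP)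
    _ = ε * u ^ K := by
        field_simp

end EG
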