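import Pool.Agent.H6.EG.E5a
import Pool.Agent.H6.EG.SqJ
import Pool.Agent.H6.EG.MainJ
import Pool.Agent.H6.EG.Eqs

/-!
# MP_0e3417 row E5: the pair correlation of the squares of the Selberg sums

Proof. `sqJ` with `J = {i, j}` (`card = 2`, `∏_{l ∈ J}` is a product of two factors), `e5a` for each of the at most `(m+1)^(2K)` pairs, `mainJ` with `ε/(2 ∫φ + 2)`; `(m+1)^(2K) T^(1-δ/4) ≤ (ε/2) T u^K` for large `T` (`u ≥ 1`, `eqs`).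
-/

open Finset

namespace EG

theorem e5_card (ι : Type) [Fintype ι] [DecidableEq ι] (v0 : ℝ) (m : ℕ) :
    ((AS ι v0 m).card : ℝ) ≤ ((m + 1 : ℕ) : ℝ) ^ Fintype.card ι := by
  have h : (AS ι v0 m).card ≤ (m + 1) ^ Fintype.card ι := by
    unfold AS
    refine (Finset.card_filter_le _ _).trans ?_
    rw [Fintype.card_piFinset]
    simp
  exact_mod_cast h

theorem e5_T {δ : ℝ} (hδ : 0 < δ) {A ε : ℝ} (hA : 0 ≤ A) (hε : 0 < ε) : ∃ T2 : ℝ, 1 ≤ T2 ∧ ∀ T, T2 ≤ T →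
    A * T ^ (1 - δ / 4) ≤ ε * T := by
  refine ⟨max 1 ((A / ε) ^ (4 / δ)), le_max_left _ _, fun T hT => ?_⟩
  have hT1 : 1 ≤ T := (le_max_left _ _).trans hT
  have hT0 : 0 < T := by linarith
  have h1 : (A / ε) ^ (4 / δ) ≤ T := (le_max_right _ _).trans hT
  have h0 : 0 ≤ A / ε := div_nonneg hA hε.le
  have h2 : A / ε ≤ T ^ (δ / 4) := by
    have h3 : ((A / ε) ^ (4 / δ)) ^ (δ / 4) ≤ T ^ (δ / 4) :=
      Real.rpow_le_rpow (Real.rpow_nonneg h0 _) h1 (by positivity)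
    have h4 : 4 / δ * (δ / 4) = 1 := by field_simp
    rwa [← Real.rpow_mul h0, h4, Real.rpow_one] at h3
  have h5 : T ^ (1 - δ / 4) * T ^ (δ / 4) = T := by
    rw [← Real.rpow_add hT0]
    have : 1 - δ / 4 + δ / 4 = 1 := by ring
    rw [this, Real.rpow_one]
  have h6 : 0 ≤ T ^ (1 - δ / 4) := Real.rpow_nonneg hT0.le _
  calc A * T ^ (1 - δ / 4) = ε * ((A / ε) * T ^ (1 - δ / 4)) := by field_simp
    _ ≤ ε * (T ^ (δ / 4) * T ^ (1 - δ / 4)) := by gcongr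
    _ = ε * T := by rw [mul_comm (T ^ (δ / 4)), h5]

theorem e5 {η : ℝ} {φ : ℝ → ℝ} (hφ : Wt η φ) {r : ℝ} (hr0 : 0 < r) (hr : r < 3 / 11) :
    ∃ δ : ℝ, 0 < δ ∧ δ ≤ 1 ∧ ∀ e0 v0 : ℝ, 0 < e0 → 4 * e0 ≤ δ → 0 < v0 → ∀ (m K : ℕ), 1 ≤ K → ∀ ε : ℝ, 0 < ε → ∃ w0 : ℕ,
      ∀ (ι : Type) [Fintype ι] [DecidableEq ι], Fintype.card ι = K → ∀ (Q : ℕ) (a : ι → ℕ), SForms Q a → Wide w0 Q →
      ∃ T0 : ℝ, ∀ T, T0 ≤ T → ∀ P : ℕ, P.Prime → ¬ P ∣ Q → Big e0 T (Q * P) → ∀ i j : ι, i ≠ j →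
        |∑ t ∈ rT T, φ ((t : ℝ) / T) * (sM e0 v0 T m (Q * P) a (fun _ => 1) {i, j} t ^ 2 *
            (be (Q * P) (Rr r T) (a i * t + 1) * be (Q * P) (Rr r T) (a j * t + 1))) -
          T * (∫ x, φ x) * ((e0 / r) ^ 2 * FI ι v0 m {i, j} * uu e0 T (Q * P) ^ K)| ≤ ε * T * uu e0 T (Q * P) ^ K := by
  obtain ⟨δ, hδ, hδ1, he5a⟩ := e5a hφ hr0 hr
  refine ⟨δ, hδ, hδ1, ?_⟩
  intro e0 v0 he0 h4 hv0 m K hK ε hε
  have hI := hφ.int_pos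
  obtain ⟨ε', hε'd⟩ : ∃ ε' : ℝ, ε' = ε / (2 * ((∫ x, φ x) + 1)) := ⟨_, rfl⟩
  have hε' : 0 < ε' := by
    rw [hε'd]
    positivity
  have hε'2 : (∫ x, φ x) * ε' ≤ ε / 2 := by
    rw [hε'd]
    have : (∫ x, φ x) * (ε / (2 * ((∫ x, φ x) + 1))) = (ε / 2) * ((∫ x, φ x) / ((∫ x, φ x) + 1)) := by
      field_simp
    rw [this]
    have h1 : (∫ x, φ x) / ((∫ x, φ x) + 1) ≤ 1 := by
      rw [div_le_one (by linarith)]
      linarith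
    nlinarith
  obtain ⟨T1, w0, hmain⟩ := mainJ he0 hv0 hr0 m K hK hε'
  refine ⟨w0, ?_⟩
  intro ι _ _ hcard Q a hSF hW
  obtain ⟨T0, hT0⟩ := he5a e0 v0 he0 h4 hv0 m ι Q a hSF
  obtain ⟨T2, hT21, hT2⟩ := e5_T hδ (A := ((m + 1 : ℕ) : ℝ) ^ K * ((m + 1 : ℕ) : ℝ) ^ K) (ε := ε / 2)
    (by positivity) (by positivity)
  obtain ⟨T3, hT31, hT3⟩ := eqs he0 (ε := 1) one_pos
  refine ⟨max (max T0 T1) (max T2 T3), ?_⟩
  intro T hT P hP hPQ hB i j hij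
  have hTT0 : T0 ≤ T := ((le_max_left _ _).trans (le_max_left _ _)).trans hT
  have hTT1 : T1 ≤ T := ((le_max_right _ _).trans (le_max_left _ _)).trans hT
  have hTT2 : T2 ≤ T := ((le_max_left _ _).trans (le_max_right _ _)).trans hT
  have hTT3 : T3 ≤ T := ((le_max_right _ _).trans (le_max_right _ _)).trans hT
  have hTpos : 0 < T := by linarith
  have hQP : 1 ≤ Q * P := Nat.mul_pos hSF.Q_pos hP.pos
  have hWP : Wide w0 (Q * P) := ⟨hQP, fun p hp hpw => (hW.2 p hp hpw).trans (Dvd.intro _ rfl)⟩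
  have hu1 : 1 ≤ uu e0 T (Q * P) := by
    have := (hT3 T hTT3 (Q * P) hQP hB).1
    simpa using this
  have huK : 1 ≤ uu e0 T (Q * P) ^ K := one_le_pow₀ hu1
  have hm := hmain ι hcard (Q * P) hQP hWP T hTT1 hB {i, j}
  rw [Finset.card_pair hij] at hm
  have hsq := sqJ e0 v0 T m (Q * P) (Rr r T) a (fun _ => 1) {i, j} (rT T) (fun t => φ ((t : ℝ) / T))
  simp only [Finset.prod_pair hij] at hsq
  rw [hsq]
  have hE := fun n (hn : n ∈ AS ι v0 m) n' (hn' : n' ∈ AS ι v0 m) => hT0 T hTT0 P hP hPQ i j hij n hn n' hn'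
  have hsum : |∑ n ∈ AS ι v0 m, ∑ n' ∈ AS ι v0 m, ∑ t ∈ rT T, φ ((t : ℝ) / T) *
        ∏ l, Fn (DJ e0 v0 T (Q * P) (Rr r T) {i, j} n n' l) (fJ e0 v0 T (Q * P) (Rr r T) {i, j} n n' l) (a l * t + 1) -
      T * (∫ x, φ x) * ∑ n ∈ AS ι v0 m, ∑ n' ∈ AS ι v0 m,
        Mm (DJ e0 v0 T (Q * P) (Rr r T) {i, j} n n') (fJ e0 v0 T (Q * P) (Rr r T) {i, j} n n') 1| ≤ ε / 2 * T := by
    rw [Finset.mul_sum, ← Finset.sum_sub_distrib]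
    have h1 : ∀ n ∈ AS ι v0 m, |(∑ n' ∈ AS ι v0 m, ∑ t ∈ rT T, φ ((t : ℝ) / T) *
        ∏ l, Fn (DJ e0 v0 T (Q * P) (Rr r T) {i, j} n n' l) (fJ e0 v0 T (Q * P) (Rr r T) {i, j} n n' l) (a l * t + 1)) -
        T * (∫ x, φ x) * ∑ n' ∈ AS ι v0 m,
        Mm (DJ e0 v0 T (Q * P) (Rr r T) {i, j} n n') (fJ e0 v0 T (Q * P) (Rr r T) {i, j} n n') 1| ≤
        ((m + 1 : ℕ) : ℝ) ^ K * T ^ (1 - δ / 4) := by
      intro n hn
      rw [Finset.mul_sum, ← Finset.sum_sub_distrib]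
      refine (Finset.abs_sum_le_sum_abs _ _).trans ?_
      refine (Finset.sum_le_card_nsmul _ _ _ (fun n' hn' => hE n hn n' hn')).trans ?_
      rw [nsmul_eq_mul]
      have h2 := e5_card ι v0 m
      rw [hcard] at h2
      exact mul_le_mul_of_nonneg_right h2 (Real.rpow_nonneg hTpos.le _)
    refine (Finset.abs_sum_le_sum_abs _ _).trans ?_
    refine (Finset.sum_le_card_nsmul _ _ _ h1).trans ?_
    rw [nsmul_eq_mul]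
    have h2 := e5_card ι v0 m
    rw [hcard] at h2
    have h3 : 0 ≤ ((m + 1 : ℕ) : ℝ) ^ K * T ^ (1 - δ / 4) := mul_nonneg (by positivity) (Real.rpow_nonneg hTpos.le _)
    calc ((AS ι v0 m).card : ℝ) * (((m + 1 : ℕ) : ℝ) ^ K * T ^ (1 - δ / 4))
        ≤ ((m + 1 : ℕ) : ℝ) ^ K * (((m + 1 : ℕ) : ℝ) ^ K * T ^ (1 - δ / 4)) := mul_le_mul_of_nonneg_right h2 h3
      _ = ((m + 1 : ℕ) : ℝ) ^ K * ((m + 1 : ℕ) : ℝ) ^ K * T ^ (1 - δ / 4) := by ring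
      _ ≤ ε / 2 * T := hT2 T hTT2
  have hTI : 0 ≤ T * (∫ x, φ x) := mul_nonneg hTpos.le hI.le
  have h5 : |T * (∫ x, φ x) * (∑ n ∈ AS ι v0 m, ∑ n' ∈ AS ι v0 m,
        Mm (DJ e0 v0 T (Q * P) (Rr r T) {i, j} n n') (fJ e0 v0 T (Q * P) (Rr r T) {i, j} n n') 1) -
        T * (∫ x, φ x) * ((e0 / r) ^ 2 * FI ι v0 m {i, j} * uu e0 T (Q * P) ^ K)| ≤ ε / 2 * T * uu e0 T (Q * P) ^ K := by
    rw [← mul_sub, abs_mul, abs_of_nonneg hTI]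
    calc T * (∫ x, φ x) * _ ≤ T * (∫ x, φ x) * (ε' * uu e0 T (Q * P) ^ K) := mul_le_mul_of_nonneg_left hm hTI
      _ = ((∫ x, φ x) * ε') * (T * uu e0 T (Q * P) ^ K) := by ring
      _ ≤ (ε / 2) * (T * uu e0 T (Q * P) ^ K) := mul_le_mul_of_nonneg_right hε'2 (by positivity)
      _ = ε / 2 * T * uu e0 T (Q * P) ^ K := by ring
  have h6 : ε / 2 * T ≤ ε / 2 * T * uu e0 T (Q * P) ^ K := le_mul_of_one_le_right (by positivity) huK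
  refine (abs_sub_le _ (T * (∫ x, φ x) * ∑ n ∈ AS ι v0 m, ∑ n' ∈ AS ι v0 m,
        Mm (DJ e0 v0 T (Q * P) (Rr r T) {i, j} n n') (fJ e0 v0 T (Q * P) (Rr r T) {i, j} n n') 1) _).trans ?_
  calc _ ≤ ε / 2 * T + ε / 2 * T * uu e0 T (Q * P) ^ K := add_le_add hsum h5
    _ ≤ ε / 2 * T * uu e0 T (Q * P) ^ K + ε / 2 * T * uu e0 T (Q * P) ^ K := by linarith
    _ = ε * T * uu e0 T (Q * P) ^ K := by ring

end EG
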