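import Pool.Agent.H6.EG.SqJ
import Pool.Agent.H6.EG.MainJ
import Pool.Agent.H6.EG.AbsJ
import Pool.Agent.H6.EG.Mtt

/-!
# MP_0e3417 row ETr: the sums E1 (`J = ∅`) and E3 (`J = {j}`)

Proof. `sqJ` with `g t = φ(t/T)`, then `mtt` for each of the at most `(m+1)^(2K)` pairs `(n, n')` (`Good` from `good_lcD`), the remainders are at most
`(m+1)^(2K) C (4/v0 (1 + log T)³)^(2K) T^(1-κ) ≤ (ε/2) T u^K` for large `T` (`absJ`; `u ≥ 1` by `eqs` with `ε = 1`), the main term is `mainJ` with `ε/(2 ∫φ + 2)`.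
-/

open Finset

namespace EG

theorem ETr_log (M : ℝ) (N : ℕ) {κ : ℝ} (hκ : 0 < κ) {ε : ℝ} (hε : 0 < ε) :
    ∃ T1 : ℝ, 1 ≤ T1 ∧ ∀ T, T1 ≤ T → M * (1 + Real.log T) ^ N * T ^ (1 - κ) ≤ ε * T := by
  have h1 := isLittleO_log_rpow_rpow_atTop (N : ℝ) hκ
  have hc : 0 < ε / ((|M| + 1) * 2 ^ N) := by positivity
  have h2 := (h1.def hc).and (Filter.eventually_ge_atTop (Real.exp 1))
  obtain ⟨T1, hT1⟩ := Filter.eventually_atTop.1 h2
  refine ⟨max T1 1, le_max_right _ _, ?_⟩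
  intro T hT
  obtain ⟨h3, h4⟩ := hT1 T ((le_max_left _ _).trans hT)
  have hT0 : 0 < T := (Real.exp_pos 1).trans_le h4
  have hL : 1 ≤ Real.log T := by
    rw [Real.le_log_iff_exp_le hT0]; exact h4
  rw [Real.rpow_natCast, Real.norm_of_nonneg (by positivity), Real.norm_of_nonneg (by positivity)] at h3
  have h5 : (1 + Real.log T) ^ N ≤ 2 ^ N * Real.log T ^ N := by
    rw [← mul_pow]
    exact pow_le_pow_left₀ (by linarith) (by linarith) N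
  have h6 : T ^ (1 - κ) = T / T ^ κ := by
    rw [Real.rpow_sub hT0, Real.rpow_one]
  have hTk : 0 < T ^ κ := Real.rpow_pos_of_pos hT0 _
  rw [h6, mul_div_assoc', div_le_iff₀ hTk]
  have h7 : M * (1 + Real.log T) ^ N ≤ (|M| + 1) * (2 ^ N * Real.log T ^ N) := by
    have h8 : M ≤ |M| + 1 := (le_abs_self M).trans (by linarith)
    exact mul_le_mul h8 h5 (by positivity) (by positivity)
  have h9 : (|M| + 1) * (2 ^ N * Real.log T ^ N) ≤ ε * T ^ κ := by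
    have h10 := mul_le_mul_of_nonneg_left h3 (by positivity : 0 ≤ (|M| + 1) * 2 ^ N)
    have h11 : (|M| + 1) * 2 ^ N * (ε / ((|M| + 1) * 2 ^ N) * T ^ κ) = ε * T ^ κ := by
      field_simp
    rw [h11] at h10
    linarith
  calc M * (1 + Real.log T) ^ N * T ≤ (ε * T ^ κ) * T :=
        mul_le_mul_of_nonneg_right (h7.trans h9) hT0.le
    _ = ε * T * T ^ κ := by ring

theorem ETr_sq (Q z : ℕ) : Good Q (sq Q z) := by
  intro B hB
  unfold sq at hB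
  rw [Finset.mem_filter] at hB
  exact hB.2

theorem eTr {η : ℝ} {φ : ℝ → ℝ} (hφ : Wt η φ) {e0 v0 r κ : ℝ} (he0 : 0 < e0) (he1 : e0 ≤ 1) (hv0 : 0 < v0) (hr : 0 < r) (hκ : 0 < κ)
    (m K : ℕ) (hK : 1 ≤ K) {ε : ℝ} (hε : 0 < ε) :
    ∃ T1 : ℝ, ∃ w0 : ℕ, ∀ (ι : Type) [Fintype ι] [DecidableEq ι], Fintype.card ι = K → ∀ (Q : ℕ) (a b : ι → ℕ), Forms Q a b → Wide w0 Q →
      ∀ T, T1 ≤ T → Big e0 T Q → ∀ J : Finset ι, 2 * e0 + 2 * r * J.card ≤ 1 - κ →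
      |∑ t ∈ rT T, φ ((t : ℝ) / T) * (sM e0 v0 T m Q a b J t ^ 2 * ∏ i ∈ J, be Q (Rr r T) (a i * t + b i)) -
        T * (∫ x, φ x) * ((e0 / r) ^ J.card * FI ι v0 m J * uu e0 T Q ^ K)| ≤ ε * T * uu e0 T Q ^ K := by
  obtain ⟨C, hC, hmtt⟩ := mtt hφ
  have hI : 0 < ∫ x, φ x := hφ.int_pos
  set I := ∫ x, φ x with hIdef
  obtain ⟨T2, w0, hmain⟩ := mainJ he0 hv0 hr m K hK (show 0 < ε / (2 * I + 2) by positivity)
  obtain ⟨T3, hT31, heqs⟩ := eqs he0 (show (0 : ℝ) < 1 by norm_num)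
  obtain ⟨T4, hT41, hlog⟩ := ETr_log ((((m + 1 : ℕ) : ℝ) ^ K) ^ 2 * C * (4 / v0) ^ (2 * K)) (3 * (2 * K)) hκ (half_pos hε)
  refine ⟨max T2 (max T3 T4), w0, ?_⟩
  intro ι _ _ hcard Q a b hF hW T hT hB J hJ
  have hT2 : T2 ≤ T := (le_max_left _ _).trans hT
  have hT3 : T3 ≤ T := (le_max_left _ _).trans ((le_max_right _ _).trans hT)
  have hT4 : T4 ≤ T := (le_max_right _ _).trans ((le_max_right _ _).trans hT)
  have hT1 : 1 ≤ T := hT31.trans hT3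
  have hT0 : 0 < T := by linarith
  have hu1 : 1 ≤ uu e0 T Q := by
    have := (heqs T hT3 Q hF.Q_pos hB).1
    simpa using this
  have huK : 1 ≤ uu e0 T Q ^ K := one_le_pow₀ hu1
  have hM := hmain ι hcard Q hF.Q_pos hW T hT2 hB J
  have hgood : ∀ n n' : ι → ℕ, ∀ i, Good Q (DJ e0 v0 T Q (Rr r T) J n n' i) := by
    intro n n' i
    unfold DJ
    split_ifs
    · exact good_lcD (ETr_sq _ _) (ETr_sq _ _)
    · exact good_lcD (ETr_sq _ _) (ETr_sq _ _)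
  rw [sqJ e0 v0 T m Q (Rr r T) a b J (rT T) (fun t => φ ((t : ℝ) / T))]
  have hcAS : (((AS ι v0 m).card : ℕ) : ℝ) ≤ ((m + 1 : ℕ) : ℝ) ^ K := by
    have h1 : (AS ι v0 m).card ≤ (m + 1) ^ K := by
      unfold AS
      refine (Finset.card_filter_le _ _).trans ?_
      rw [Fintype.card_piFinset]
      simp [hcard]
    exact_mod_cast h1
  set P := (4 / v0 * (1 + Real.log T) ^ 3) ^ (2 * K) * T ^ (1 - κ) with hP
  have hlogT : 0 ≤ Real.log T := Real.log_nonneg hT1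
  have hP0 : 0 ≤ P := by positivity
  have hrem : ∀ n ∈ AS ι v0 m, ∀ n' ∈ AS ι v0 m,
      |∑ t ∈ rT T, φ ((t : ℝ) / T) * ∏ i, Fn (DJ e0 v0 T Q (Rr r T) J n n' i) (fJ e0 v0 T Q (Rr r T) J n n' i) (a i * t + b i) -
        T * I * Mm (DJ e0 v0 T Q (Rr r T) J n n') (fJ e0 v0 T Q (Rr r T) J n n') 1| ≤ C * P := by
    intro n hn n' hn'
    refine (hmtt ι Q a b hF _ _ (hgood n n') T hT1).trans ?_
    refine mul_le_mul_of_nonneg_left ?_ hC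
    have h1 := absJ he0 he1 hv0 hr m ι Q hT1 J hn hn'
    rw [hcard] at h1
    refine h1.trans ?_
    rw [hP]
    refine mul_le_mul_of_nonneg_left ?_ (by positivity)
    exact Real.rpow_le_rpow_of_exponent_le hT1 hJ
  have hsum : |∑ n ∈ AS ι v0 m, ∑ n' ∈ AS ι v0 m,
      (∑ t ∈ rT T, φ ((t : ℝ) / T) * ∏ i, Fn (DJ e0 v0 T Q (Rr r T) J n n' i) (fJ e0 v0 T Q (Rr r T) J n n' i) (a i * t + b i) -
        T * I * Mm (DJ e0 v0 T Q (Rr r T) J n n') (fJ e0 v0 T Q (Rr r T) J n n') 1)| ≤ ε / 2 * T * uu e0 T Q ^ K := by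
    have h1 : |∑ n ∈ AS ι v0 m, ∑ n' ∈ AS ι v0 m,
      (∑ t ∈ rT T, φ ((t : ℝ) / T) * ∏ i, Fn (DJ e0 v0 T Q (Rr r T) J n n' i) (fJ e0 v0 T Q (Rr r T) J n n' i) (a i * t + b i) -
        T * I * Mm (DJ e0 v0 T Q (Rr r T) J n n') (fJ e0 v0 T Q (Rr r T) J n n') 1)| ≤
        ∑ n ∈ AS ι v0 m, ∑ n' ∈ AS ι v0 m, C * P := by
      refine (Finset.abs_sum_le_sum_abs _ _).trans (Finset.sum_le_sum fun n hn => ?_)
      exact (Finset.abs_sum_le_sum_abs _ _).trans (Finset.sum_le_sum fun n' hn' => hrem n hn n' hn')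
    refine h1.trans ?_
    rw [Finset.sum_const, Finset.sum_const, nsmul_eq_mul, nsmul_eq_mul]
    have h2 : ((AS ι v0 m).card : ℝ) * (((AS ι v0 m).card : ℝ) * (C * P)) ≤
        ((m + 1 : ℕ) : ℝ) ^ K * (((m + 1 : ℕ) : ℝ) ^ K * (C * P)) := by
      gcongr
    refine h2.trans ?_
    have h3 := hlog T hT4
    have h4 : ((m + 1 : ℕ) : ℝ) ^ K * (((m + 1 : ℕ) : ℝ) ^ K * (C * P)) =
        (((m + 1 : ℕ) : ℝ) ^ K) ^ 2 * C * (4 / v0) ^ (2 * K) * (1 + Real.log T) ^ (3 * (2 * K)) * T ^ (1 - κ) := by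
      rw [hP, mul_pow, ← pow_mul]
      ring
    rw [h4]
    refine h3.trans ?_
    exact le_mul_of_one_le_right (by positivity) huK
  have hdec : ∑ n ∈ AS ι v0 m, ∑ n' ∈ AS ι v0 m, ∑ t ∈ rT T, φ ((t : ℝ) / T) *
        ∏ i, Fn (DJ e0 v0 T Q (Rr r T) J n n' i) (fJ e0 v0 T Q (Rr r T) J n n' i) (a i * t + b i) -
        T * I * ((e0 / r) ^ J.card * FI ι v0 m J * uu e0 T Q ^ K) =
      (∑ n ∈ AS ι v0 m, ∑ n' ∈ AS ι v0 m,
      (∑ t ∈ rT T, φ ((t : ℝ) / T) * ∏ i, Fn (DJ e0 v0 T Q (Rr r T) J n n' i) (fJ e0 v0 T Q (Rr r T) J n n' i) (a i * t + b i) -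
        T * I * Mm (DJ e0 v0 T Q (Rr r T) J n n') (fJ e0 v0 T Q (Rr r T) J n n') 1)) +
      T * I * (∑ n ∈ AS ι v0 m, ∑ n' ∈ AS ι v0 m, Mm (DJ e0 v0 T Q (Rr r T) J n n') (fJ e0 v0 T Q (Rr r T) J n n') 1 -
        (e0 / r) ^ J.card * FI ι v0 m J * uu e0 T Q ^ K) := by
    simp only [Finset.sum_sub_distrib, mul_sub, Finset.mul_sum]
    ring
  rw [hdec]
  refine (abs_add_le _ _).trans ?_
  have h5 : |T * I * (∑ n ∈ AS ι v0 m, ∑ n' ∈ AS ι v0 m, Mm (DJ e0 v0 T Q (Rr r T) J n n') (fJ e0 v0 T Q (Rr r T) J n n') 1 -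
        (e0 / r) ^ J.card * FI ι v0 m J * uu e0 T Q ^ K)| ≤ ε / 2 * T * uu e0 T Q ^ K := by
    rw [abs_mul, abs_of_pos (by positivity : 0 < T * I)]
    refine (mul_le_mul_of_nonneg_left hM (by positivity)).trans ?_
    have h6 : I * (ε / (2 * I + 2)) ≤ ε / 2 := by
      rw [mul_div_assoc', div_le_div_iff₀ (by positivity) (by norm_num)]
      nlinarith
    calc T * I * (ε / (2 * I + 2) * uu e0 T Q ^ K) = (I * (ε / (2 * I + 2))) * (T * uu e0 T Q ^ K) := by ring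
      _ ≤ ε / 2 * (T * uu e0 T Q ^ K) := mul_le_mul_of_nonneg_right h6 (by positivity)
      _ = ε / 2 * T * uu e0 T Q ^ K := by ring
  calc _ ≤ ε / 2 * T * uu e0 T Q ^ K + ε / 2 * T * uu e0 T Q ^ K := add_le_add hsum h5
    _ = ε * T * uu e0 T Q ^ K := by ring

end EG
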