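import Pool.Agent.H6.EG.CluA
import Pool.Agent.H6.EG.CluP
import Pool.Agent.H6.EG.ETr
import Pool.Agent.H6.EG.E3p
import Pool.Agent.H6.EG.E2
import Pool.Agent.H6.EG.E5
import Pool.Agent.H6.EG.FUb

/-!
# MP_0e3417 row Clu: lower bound for the measure of the hits of one cluster

`δ` is the one of `e5`. Let `ε' > 0` be small (depending on `ε` and on all parameters, chosen at the end), `w0` the maximum of the `w0` of `eTr`, `e3p`, `e2`, `e5` for `ε'` (`κ = 1/4`; note `3 e0 + 2 r ≤ 3/4` since `e0 ≤ 1/16`, `2 r < 6/11`), `K = M k` the number of forms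
(`ι = Fin M × Fin k`). For `T` large let `P` be the prime of `e2` (with `w1 = 1`), `Q' = Q P` (`1 ≤ Q'`, `Wide w0 Q'`, `Forms Q' a 1` by `SForms.forms`, `Big e0 T Q'`), `u = uu e0 T Q'` (`≥ 1` by `eqs`), `U = T ∫φ u^K > 0` (`≥ T ∫φ`), `R = Rr r T`. Write
`ω_t = φ(t/T) sM(∅)²`, `X_t = #{j : a(l,j) t + 1 prime}`, `Y_t = ∑_j bp(a(l,j) t + 1)`, `Jb = aI² bI^(K-1)`, `x = e0/r`, `κ' = 2 K aI v0`, `ν = k x aI²/bI > 0`, `B0 = 4^(2/e0)`, `H_l = ∑_{hit} ω`, `Z = ∑ ω`.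
All sums are over `t ∈ rT T`; terms with `φ(t/T) = 0` vanish; otherwise use `cluP`.
(a) `X ≤ Y` where `ω ≠ 0`, `X = 0` without hit.
(b) `∑ ω X = ∑_j ∑_{L_j prime} φ sM{j}² ≥ k (e0 (1 - κ') Jb - ε') U` (`e2`, `FI_ge`).
(c) `∑ ω Y = ∑_j ∑ φ sM{j}² bp ≥ ∑_j [∑ φ sM{j}² be - ∑_p ∑_{p ∣ L_j} φ sM{j}² be] ≥ k [x FI{j} - x² FI{j} - 2 ε'] U ≥ (k x Jb (1 - κ' - x) - 2 k ε') U`
    (`eTr` with `J = {j}`, `e3p`; `x ≤ 1` is assumed; `(1-x)(1-κ') ≥ 1 - x - κ'`; errors `ε T u^K` of `eTr` are `(ε/∫φ) U`: use `ε' ∫φ` there).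
(d) `∑ ω Y² = ∑_j ∑ φ sM(∅)² bp² + ∑_{i ≠ j} ∑ φ sM{i,j}² bp bp ≤ B0 k (x FI{j} + ε') U + k² (x² FI{i,j} + ε') U ≤ (B0 k x Jb + k² x² aI⁴ bI^(K-2) + ε' (B0 k + k²)) U`
    (for the diagonal: `sM(∅)² bp² = sM{j}² bp² ≤ B0 sM{j}² be`; `FI_le`).
(e) `Z ≤ (FI ∅ + ε') U ≤ (bI^K + ε') U`.
(f) `k x Jb = ν bI^K`, `k² x² aI⁴ bI^(K-2) = ν² bI^K` (`K ≥ 2` or the pair sum is empty: if `K = 1`, `k = 1`, there are no pairs `i ≠ j`; treat `bI^(K-2)` with care). So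
    `V = ∑ ω (Y - ν)² = ∑ ω Y² - 2 ν ∑ ω Y + ν² Z ≤ U (bI^K ν² S + C ε')`, `S = B0/ν + 2 κ' + 2 x`, `C = B0 k + k² + 4 k ν + ν²`.
(g) `cluA`: `k (e0 (1-κ') Jb - ε') U ≤ ν H_l + U ((bI^K + ε') (bI^K ν² S + C ε'))^(1/2)`; `k e0 (1-κ') Jb = r ν (1-κ') bI^K`. As `ε' → 0` the right root tends to `bI^K ν √S`: choose `ε'` with
    `H_l ≥ U (bI^K (r (1-κ') - √S) - ε)`, and also `ε' ≤ ε` for the bound of `Z`.
-/

open Finset

namespace EG

open Classical in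
theorem Clu_abs {k : ℕ} (S : Finset ℕ) (f s0 : ℕ → ℝ) (s1 : Fin k → ℕ → ℝ) (s2 : Fin k → Fin k → ℕ → ℝ)
    (pr : Fin k → ℕ → Prop) (p b c : Fin k → ℕ → ℝ) (Hs : Finset ℕ)
    (hHs : ∀ t, t ∈ Hs ↔ t ∈ S ∧ ∃ j, pr j t) {B0 U ν F0 F1 F3 F5 F34 : ℝ}
    (hU : 0 ≤ U) (hν : 0 ≤ ν) (hF5 : 0 ≤ F5) (hB0 : 0 ≤ B0) (hf : ∀ t ∈ S, 0 ≤ f t)
    (hP : ∀ t ∈ S, f t ≠ 0 → ∀ j, (pr j t → p j t = 1 ∧ s0 t = s1 j t) ∧ (0 ≤ p j t ∧ p j t ≤ b j t) ∧
      p j t ^ 2 ≤ B0 * b j t ∧ s0 t ^ 2 * p j t = s1 j t ^ 2 * p j t ∧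
      (∀ i, i ≠ j → s0 t ^ 2 * (p i t * p j t) = s2 i j t ^ 2 * (p i t * p j t)) ∧
      b j t - c j t ≤ p j t)
    (E0 : ∑ t ∈ S, f t * s0 t ^ 2 ≤ F0 * U)
    (E1 : ∀ j, F1 * U ≤ ∑ t ∈ S.filter (pr j), f t * s1 j t ^ 2)
    (E3 : ∀ j, ∑ t ∈ S, f t * (s1 j t ^ 2 * b j t) ≤ F3 * U)
    (E34 : ∀ j, F34 * U ≤ ∑ t ∈ S, f t * (s1 j t ^ 2 * b j t) - ∑ t ∈ S, f t * (s1 j t ^ 2 * c j t))
    (E5 : ∀ i j, i ≠ j → ∑ t ∈ S, f t * (s2 i j t ^ 2 * (b i t * b j t)) ≤ F5 * U) :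
    k * F1 * U ≤ ν * ∑ t ∈ Hs, f t * s0 t ^ 2 +
      Real.sqrt ((F0 * U) * ((B0 * F3 * k + k ^ 2 * F5 - 2 * ν * (k * F34) + ν ^ 2 * F0) * U)) := by
  have hω : ∀ t ∈ S, 0 ≤ f t * s0 t ^ 2 := fun t ht => mul_nonneg (hf t ht) (sq_nonneg _)
  have hA := cluA S (fun t => f t * s0 t ^ 2) (fun t => ∑ j, if pr j t then 1 else 0)
    (fun t => ∑ j, p j t) (fun t => ∃ j, pr j t) ν hω
    (by
      intro t _ hnot
      exact le_of_eq (Finset.sum_eq_zero fun j _ => if_neg fun h => hnot ⟨j, h⟩))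
    (by
      intro t ht hne
      have hft : f t ≠ 0 := by
        intro h
        exact hne (by simp only [h, zero_mul])
      refine Finset.sum_le_sum fun j _ => ?_
      obtain ⟨h1, h2, _⟩ := hP t ht hft j
      split_ifs with h
      · rw [(h1 h).1]
      · exact h2.1)
  have hB : k * F1 * U ≤ ∑ t ∈ S, f t * s0 t ^ 2 * ∑ j, (if pr j t then (1 : ℝ) else 0) := by
    have h1 : ∑ t ∈ S, f t * s0 t ^ 2 * ∑ j, (if pr j t then (1 : ℝ) else 0) =
        ∑ j, ∑ t ∈ S.filter (pr j), f t * s1 j t ^ 2 := by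
      simp_rw [Finset.mul_sum]
      rw [Finset.sum_comm]
      refine Finset.sum_congr rfl fun j _ => ?_
      rw [Finset.sum_filter]
      refine Finset.sum_congr rfl fun t ht => ?_
      split_ifs with h
      · rw [mul_one]
        by_cases hft : f t = 0
        · rw [hft, zero_mul, zero_mul]
        · rw [((hP t ht hft j).1 h).2]
      · rw [mul_zero]
    rw [h1]
    calc k * F1 * U = ∑ _j : Fin k, F1 * U := by
          rw [Finset.sum_const, Finset.card_univ, Fintype.card_fin, nsmul_eq_mul]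
          ring
      _ ≤ _ := Finset.sum_le_sum fun j _ => E1 j
  have hC : k * F34 * U ≤ ∑ t ∈ S, f t * s0 t ^ 2 * ∑ j, p j t := by
    have h1 : ∑ t ∈ S, f t * s0 t ^ 2 * ∑ j, p j t = ∑ j, ∑ t ∈ S, f t * (s1 j t ^ 2 * p j t) := by
      simp_rw [Finset.mul_sum]
      rw [Finset.sum_comm]
      refine Finset.sum_congr rfl fun j _ => Finset.sum_congr rfl fun t ht => ?_
      by_cases hft : f t = 0
      · rw [hft]
        ring
      · rw [← (hP t ht hft j).2.2.2.1]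
        ring
    rw [h1]
    calc k * F34 * U = ∑ _j : Fin k, F34 * U := by
          rw [Finset.sum_const, Finset.card_univ, Fintype.card_fin, nsmul_eq_mul]
          ring
      _ ≤ _ := by
        refine Finset.sum_le_sum fun j _ => (E34 j).trans ?_
        rw [← Finset.sum_sub_distrib]
        refine Finset.sum_le_sum fun t ht => ?_
        by_cases hft : f t = 0
        · rw [hft]
          simp
        · have h2 := (hP t ht hft j).2.2.2.2.2
          have h3 : f t * (s1 j t ^ 2 * b j t) - f t * (s1 j t ^ 2 * c j t) =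
              f t * s1 j t ^ 2 * (b j t - c j t) := by ring
          rw [h3, ← mul_assoc]
          exact mul_le_mul_of_nonneg_left h2 (mul_nonneg (hf t ht) (sq_nonneg _))
  have hD : ∑ t ∈ S, f t * s0 t ^ 2 * (∑ j, p j t) ^ 2 ≤ (B0 * F3 * k + k ^ 2 * F5) * U := by
    have h1 : ∑ t ∈ S, f t * s0 t ^ 2 * (∑ j, p j t) ^ 2 =
        ∑ i, ∑ j, ∑ t ∈ S, f t * (s0 t ^ 2 * (p i t * p j t)) := by
      have h0 : ∀ t, f t * s0 t ^ 2 * (∑ j, p j t) ^ 2 =
          ∑ i, ∑ j, f t * (s0 t ^ 2 * (p i t * p j t)) := by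
        intro t
        rw [pow_two (∑ j, p j t), Finset.sum_mul_sum, Finset.mul_sum]
        refine Finset.sum_congr rfl fun i _ => ?_
        rw [Finset.mul_sum]
        refine Finset.sum_congr rfl fun j _ => ?_
        ring
      rw [Finset.sum_congr rfl (fun t _ => h0 t), Finset.sum_comm]
      refine Finset.sum_congr rfl fun i _ => ?_
      rw [Finset.sum_comm]
    rw [h1]
    have h2 : ∀ i j, ∑ t ∈ S, f t * (s0 t ^ 2 * (p i t * p j t)) ≤
        (if i = j then B0 * F3 * U else 0) + F5 * U := by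
      intro i j
      by_cases hij : i = j
      · subst hij
        rw [if_pos rfl]
        have h3 : ∑ t ∈ S, f t * (s0 t ^ 2 * (p i t * p i t)) ≤
            B0 * ∑ t ∈ S, f t * (s1 i t ^ 2 * b i t) := by
          rw [Finset.mul_sum]
          refine Finset.sum_le_sum fun t ht => ?_
          by_cases hft : f t = 0
          · rw [hft]
            simp
          · obtain ⟨_, _, h4, h5, _⟩ := hP t ht hft i
            have h6 : f t * (s0 t ^ 2 * (p i t * p i t)) = f t * s1 i t ^ 2 * p i t ^ 2 := by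
              rw [← mul_assoc (s0 t ^ 2), h5]
              ring
            rw [h6]
            calc f t * s1 i t ^ 2 * p i t ^ 2 ≤ f t * s1 i t ^ 2 * (B0 * b i t) :=
                  mul_le_mul_of_nonneg_left h4 (mul_nonneg (hf t ht) (sq_nonneg _))
              _ = _ := by ring
        have h7 := mul_le_mul_of_nonneg_left (E3 i) hB0
        have h8 : 0 ≤ F5 * U := mul_nonneg hF5 hU
        linarith
      · rw [if_neg hij, zero_add]
        refine le_trans (Finset.sum_le_sum fun t ht => ?_) (E5 i j hij)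
        by_cases hft : f t = 0
        · rw [hft]
          simp
        · obtain ⟨_, h3, _, _, h5, _⟩ := hP t ht hft j
          obtain ⟨_, h4, _⟩ := hP t ht hft i
          rw [h5 i hij]
          refine mul_le_mul_of_nonneg_left (mul_le_mul_of_nonneg_left ?_ (sq_nonneg _)) (hf t ht)
          exact mul_le_mul h4.2 h3.2 h3.1 (h4.1.trans h4.2)
    calc ∑ i, ∑ j, ∑ t ∈ S, f t * (s0 t ^ 2 * (p i t * p j t))
        ≤ ∑ i : Fin k, ∑ j : Fin k, ((if i = j then B0 * F3 * U else 0) + F5 * U) :=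
          Finset.sum_le_sum fun i _ => Finset.sum_le_sum fun j _ => h2 i j
      _ = ∑ _i : Fin k, (B0 * F3 * U + k * (F5 * U)) := by
          refine Finset.sum_congr rfl fun i _ => ?_
          rw [Finset.sum_add_distrib, Finset.sum_ite_eq, if_pos (Finset.mem_univ i), Finset.sum_const,
            Finset.card_univ, Fintype.card_fin, nsmul_eq_mul]
      _ = _ := by
          rw [Finset.sum_const, Finset.card_univ, Fintype.card_fin, nsmul_eq_mul]
          ring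
  have hV : ∑ t ∈ S, f t * s0 t ^ 2 * (∑ j, p j t - ν) ^ 2 ≤
      (B0 * F3 * k + k ^ 2 * F5 - 2 * ν * (k * F34) + ν ^ 2 * F0) * U := by
    have h1 : ∑ t ∈ S, f t * s0 t ^ 2 * (∑ j, p j t - ν) ^ 2 =
        ∑ t ∈ S, f t * s0 t ^ 2 * (∑ j, p j t) ^ 2 - 2 * ν * ∑ t ∈ S, f t * s0 t ^ 2 * ∑ j, p j t +
          ν ^ 2 * ∑ t ∈ S, f t * s0 t ^ 2 := by
      rw [Finset.mul_sum, Finset.mul_sum, ← Finset.sum_sub_distrib, ← Finset.sum_add_distrib]
      refine Finset.sum_congr rfl fun t _ => ?_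
      ring
    rw [h1]
    have h2 := mul_le_mul_of_nonneg_left hC (show 0 ≤ 2 * ν by positivity)
    have h3 := mul_le_mul_of_nonneg_left E0 (sq_nonneg ν)
    linarith
  have hfe : ∀ inst : DecidablePred fun t => ∃ j, pr j t,
      @Finset.filter ℕ (fun t => ∃ j, pr j t) inst S = Hs := by
    intro inst
    ext t
    rw [Finset.mem_filter, hHs]
  refine hB.trans (hA.trans ?_)
  rw [hfe]
  have h9 : Real.sqrt ((∑ t ∈ S, f t * s0 t ^ 2) * ∑ t ∈ S, f t * s0 t ^ 2 * (∑ j, p j t - ν) ^ 2) ≤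
      Real.sqrt ((F0 * U) * ((B0 * F3 * k + k ^ 2 * F5 - 2 * ν * (k * F34) + ν ^ 2 * F0) * U)) := by
    refine Real.sqrt_le_sqrt ?_
    refine mul_le_mul E0 hV ?_ ((Finset.sum_nonneg hω).trans E0)
    exact Finset.sum_nonneg fun t ht => mul_nonneg (hω t ht) (sq_nonneg _)
  linarith

theorem Clu_eps {k bK ν S C ε : ℝ} (hb : 0 < bK) (hν : 0 < ν) (hε : 0 < ε) :
    ∃ s : ℝ, 0 < s ∧ s ≤ ε ∧ k * s + Real.sqrt ((bK + s) * (bK * ν ^ 2 * S + C * s)) ≤
      ν * bK * Real.sqrt S + ν * ε := by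
  have hcont : Continuous fun s : ℝ => k * s + Real.sqrt ((bK + s) * (bK * ν ^ 2 * S + C * s)) := by
    fun_prop
  have h0 : k * 0 + Real.sqrt ((bK + 0) * (bK * ν ^ 2 * S + C * 0)) = ν * bK * Real.sqrt S := by
    have h1 : (bK + 0) * (bK * ν ^ 2 * S + C * 0) = (ν * bK) ^ 2 * S := by ring
    rw [h1, Real.sqrt_mul (sq_nonneg _), Real.sqrt_sq (by positivity)]
    ring
  have h1 : ∀ᶠ s in nhdsWithin (0 : ℝ) (Set.Ioi 0),
      k * s + Real.sqrt ((bK + s) * (bK * ν ^ 2 * S + C * s)) < ν * bK * Real.sqrt S + ν * ε := by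
    refine ((hcont.tendsto 0).mono_left nhdsWithin_le_nhds).eventually_lt_const ?_
    rw [h0]
    have : 0 < ν * ε := by positivity
    linarith
  have h2 : ∀ᶠ s in nhdsWithin (0 : ℝ) (Set.Ioi 0), s ∈ Set.Ioc 0 ε := Ioc_mem_nhdsGT hε
  obtain ⟨s, hs1, hs2⟩ := (h1.and h2).exists
  exact ⟨s, hs2.1, hs2.2, hs1.le⟩

/-- the sum over the small primes -/
theorem Clu_c {S : Finset ℕ} {D : Finset ℕ} (f s b : ℕ → ℝ) (L : ℕ → ℕ) :
    ∑ t ∈ S, f t * (s t ^ 2 * ∑ p ∈ D, (if p ∣ L t then b t else 0)) =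
      ∑ p ∈ D, ∑ t ∈ S.filter (fun t => p ∣ L t), f t * (s t ^ 2 * b t) := by
  simp_rw [Finset.mul_sum]
  rw [Finset.sum_comm]
  refine Finset.sum_congr rfl fun p _ => ?_
  rw [Finset.sum_filter]
  refine Finset.sum_congr rfl fun t _ => ?_
  split_ifs <;> ring

theorem clu {η : ℝ} {φ : ℝ → ℝ} (hφ : Wt η φ) {r : ℝ} (hr0 : 0 < r) (hr : r < 3 / 11) :
    ∃ δ : ℝ, 0 < δ ∧ ∀ e0 v0 : ℝ, 0 < e0 → 4 * e0 ≤ δ → e0 ≤ 1 / 16 → e0 ≤ r → 0 < v0 → ∀ m k M : ℕ, 1 ≤ k → 1 ≤ M → vv v0 m ≤ 1 / 2 →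
      ∀ ε : ℝ, 0 < ε → ∃ w0 : ℕ, ∀ (Q : ℕ) (a : Fin M × Fin k → ℕ), SForms Q a → Wide w0 Q → ∃ T0 : ℝ, ∀ T, T0 ≤ T →
      ∃ (Q' : ℕ) (U : ℝ), T * (∫ x, φ x) ≤ U ∧ 0 < U ∧
        ∑ t ∈ rT T, φ ((t : ℝ) / T) * sM e0 v0 T m Q' a (fun _ => 1) ∅ t ^ 2 ≤ (bI v0 m ^ (M * k) + ε) * U ∧
        ∀ l : Fin M,
          (bI v0 m ^ (M * k) * (r * (1 - 2 * (M * k : ℕ) * aI v0 m * v0) -
              Real.sqrt ((4 : ℝ) ^ (2 / e0) / (k * (e0 / r) * aI v0 m ^ 2 / bI v0 m) +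
                2 * (2 * (M * k : ℕ) * aI v0 m * v0) + 2 * (e0 / r))) - ε) * U ≤
            ∑ t ∈ (rT T).filter (fun t => ∃ j : Fin k, (a (l, j) * t + 1).Prime),
              φ ((t : ℝ) / T) * sM e0 v0 T m Q' a (fun _ => 1) ∅ t ^ 2 := by
  obtain ⟨δ, hδ, hδ1, he5⟩ := e5 hφ hr0 hr
  refine ⟨δ, hδ, ?_⟩
  intro e0 v0 he0 h4 he16 her hv0 m k M hk hM hm ε hε
  have hI := hφ.int_pos
  obtain ⟨I, hIdef⟩ : ∃ I, I = ∫ x, φ x := ⟨_, rfl⟩
  rw [← hIdef] at hI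
  obtain ⟨K, hKdef⟩ : ∃ K, K = M * k := ⟨_, rfl⟩
  have hK1 : 1 ≤ K := by rw [hKdef]; exact Nat.mul_pos hM hk
  have hcard : Fintype.card (Fin M × Fin k) = K := by
    rw [Fintype.card_prod, Fintype.card_fin, Fintype.card_fin, hKdef]
  obtain ⟨bb, hbb⟩ : ∃ bb, bb = bI v0 m := ⟨_, rfl⟩
  obtain ⟨aa, haa⟩ : ∃ aa, aa = aI v0 m := ⟨_, rfl⟩
  have hbI : 0 < bb := by rw [hbb]; exact lt_of_lt_of_le (by positivity) (bI_ge hv0 m)
  have haI : 0 < aa := by rw [haa, aI_eq hv0]; positivity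
  obtain ⟨x, hx⟩ : ∃ x, x = e0 / r := ⟨_, rfl⟩
  have hx0 : 0 < x := by rw [hx]; positivity
  have hx1 : x ≤ 1 := by rw [hx, div_le_one hr0]; exact her
  have hxr : e0 = r * x := by rw [hx]; field_simp
  have hk0 : (1 : ℝ) ≤ k := by exact_mod_cast hk
  obtain ⟨κ', hκ'⟩ : ∃ κ' : ℝ, κ' = 2 * (K : ℕ) * aa * v0 := ⟨_, rfl⟩
  have hκ0 : 0 ≤ κ' := by rw [hκ']; positivity
  obtain ⟨ν, hν⟩ : ∃ ν : ℝ, ν = k * x * aa ^ 2 / bb := ⟨_, rfl⟩
  have hν0 : 0 < ν := by rw [hν]; positivity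
  obtain ⟨B0, hB0⟩ : ∃ B0 : ℝ, B0 = (4 : ℝ) ^ (2 / e0) := ⟨_, rfl⟩
  have hB00 : 0 < B0 := by rw [hB0]; positivity
  obtain ⟨bK, hbK⟩ : ∃ bK : ℝ, bK = bb ^ K := ⟨_, rfl⟩
  have hbK0 : 0 < bK := by rw [hbK]; positivity
  obtain ⟨S, hS⟩ : ∃ S : ℝ, S = B0 / ν + 2 * κ' + 2 * x := ⟨_, rfl⟩
  obtain ⟨s, hs, hsε, hsb⟩ := Clu_eps (k := k) (S := S)
    (C := B0 * k + (k : ℝ) ^ 2 + 4 * ν * k + ν ^ 2) hbK0 hν0 hε
  obtain ⟨Ta, wa, hTr⟩ := eTr hφ he0 (by linarith) hv0 hr0 (κ := 1 / 4) (by norm_num) m K hK1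
    (ε := s * I) (by positivity)
  obtain ⟨Tb, wb, h3p⟩ := e3p hφ he0 (by linarith) hv0 hr0 (κ := 1 / 4) (by norm_num)
    (by linarith) m K hK1 hs
  obtain ⟨wc, h2⟩ := e2 hφ he0 (by linarith) hv0 m K hK1 hs
  obtain ⟨wd, h5⟩ := he5 e0 v0 he0 h4 hv0 m K hK1 (s * I) (by positivity)
  refine ⟨max (max wa wb) (max wc wd), ?_⟩
  intro Q a hSF hW
  have hW' : ∀ w, w ≤ max (max wa wb) (max wc wd) → Wide w Q :=
    fun w hw => ⟨hW.1, fun p hp hpw => hW.2 p hp (hpw.trans hw)⟩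
  have hwa : wa ≤ max (max wa wb) (max wc wd) := (le_max_left _ _).trans (le_max_left _ _)
  have hwb : wb ≤ max (max wa wb) (max wc wd) := (le_max_right _ _).trans (le_max_left _ _)
  have hwc : wc ≤ max (max wa wb) (max wc wd) := (le_max_left _ _).trans (le_max_right _ _)
  have hwd : wd ≤ max (max wa wb) (max wc wd) := (le_max_right _ _).trans (le_max_right _ _)
  obtain ⟨Tc, hTc⟩ := h2 (Fin M × Fin k) hcard Q a hSF (hW' wc hwc) 1
  obtain ⟨Td, hTd⟩ := h5 (Fin M × Fin k) hcard Q a hSF (hW' wd hwd)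
  obtain ⟨Te, hTe⟩ := cluP (v0 := v0) hφ he0 (by linarith) hv0 hr0 (by linarith) a hSF.pos
  obtain ⟨Tf, hTf1, hTf⟩ := eqs he0 (show (0 : ℝ) < 1 by norm_num)
  refine ⟨max (max (max Ta Tb) (max Tc Td)) (max Te Tf), ?_⟩
  intro T hT
  have hTa : Ta ≤ T := (((le_max_left _ _).trans (le_max_left _ _)).trans (le_max_left _ _)).trans hT
  have hTb : Tb ≤ T := (((le_max_right _ _).trans (le_max_left _ _)).trans (le_max_left _ _)).trans hT
  have hTc' : Tc ≤ T := (((le_max_left _ _).trans (le_max_right _ _)).trans (le_max_left _ _)).trans hT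
  have hTd' : Td ≤ T := (((le_max_right _ _).trans (le_max_right _ _)).trans (le_max_left _ _)).trans hT
  have hTe' : Te ≤ T := ((le_max_left _ _).trans (le_max_right _ _)).trans hT
  have hTf' : Tf ≤ T := ((le_max_right _ _).trans (le_max_right _ _)).trans hT
  have hT0 : 0 < T := by linarith
  obtain ⟨P, hP, hP1, hPQ, hBig, hE2⟩ := hTc T hTc'
  obtain ⟨Q', hQ'⟩ : ∃ Q', Q' = Q * P := ⟨_, rfl⟩
  have hQ'1 : 1 ≤ Q' := by rw [hQ']; exact Nat.mul_pos hSF.Q_pos hP.pos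
  have hforms : Forms Q' a (fun _ => 1) := by rw [hQ']; exact hSF.forms hP.one_lt.le
  have hWQ : ∀ w, w ≤ max (max wa wb) (max wc wd) → Wide w Q' :=
    fun w hw => ⟨hQ'1, fun p hp hpw => by rw [hQ']; exact ((hW' w hw).2 p hp hpw).mul_right P⟩
  have hE5 := hTd T hTd' P hP hPQ hBig
  rw [← hQ', ← hIdef] at hE5
  rw [← hQ'] at hBig hE2
  rw [← hIdef] at hE2
  obtain ⟨u, hu⟩ : ∃ u, u = uu e0 T Q' := ⟨_, rfl⟩
  have hu1 : 1 ≤ u := by
    have := (hTf T hTf' Q' hQ'1 hBig).1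
    rw [hu]
    simpa using this
  rw [← hu] at hE5 hE2
  obtain ⟨U, hU⟩ : ∃ U, U = T * I * u ^ K := ⟨_, rfl⟩
  have hU0 : 0 < U := by rw [hU]; positivity
  have hFI0 : FI (Fin M × Fin k) v0 m ∅ ≤ bK := by
    have := FI_le hv0 m (Fin M × Fin k) ∅
    rw [Finset.card_empty, pow_zero, one_mul, tsub_zero, hcard, ← hbb, ← hbK] at this
    exact this
  obtain ⟨Jb, hJb⟩ : ∃ Jb : ℝ, Jb = aa ^ 2 * bK / bb := ⟨_, rfl⟩
  have hJb0 : 0 < Jb := by rw [hJb]; positivity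
  have hpow1 : bb ^ (K - 1) = bK / bb := by
    rw [hbK, eq_div_iff hbI.ne', ← pow_succ]
    congr 1
    omega
  have hFI1 : ∀ j : Fin M × Fin k, FI (Fin M × Fin k) v0 m {j} ≤ Jb := by
    intro j
    have := FI_le hv0 m (Fin M × Fin k) {j}
    rw [Finset.card_singleton, pow_one, hcard, ← hbb, ← haa, hpow1] at this
    rw [hJb]
    linarith [mul_div_assoc (aa ^ 2) bK bb]
  have hFI1' : ∀ j : Fin M × Fin k, (1 - κ') * Jb ≤ FI (Fin M × Fin k) v0 m {j} := by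
    intro j
    have := FI_ge hv0 m hm (Fin M × Fin k) j
    rw [hcard, ← hbb, ← haa, hpow1, ← hκ'] at this
    rw [hJb, mul_div_assoc]
    exact this
  have hFI2 : ∀ i j : Fin M × Fin k, i ≠ j → FI (Fin M × Fin k) v0 m {i, j} ≤ aa ^ 4 * bK / bb ^ 2 := by
    intro i j hij
    have h6 := FI_le hv0 m (Fin M × Fin k) {i, j}
    have hK2 : 2 ≤ K := by
      rw [← hcard, ← Finset.card_univ, ← Finset.card_pair hij]
      exact Finset.card_le_card (Finset.subset_univ _)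
    have hpow2 : bb ^ (K - 2) = bK / bb ^ 2 := by
      rw [hbK, eq_div_iff (by positivity), ← pow_add]
      congr 1
      omega
    rw [Finset.card_pair hij, hcard, ← hbb, ← haa, hpow2] at h6
    refine h6.trans (le_of_eq ?_)
    ring
  have hE0 : ∑ t ∈ rT T, φ ((t : ℝ) / T) * sM e0 v0 T m Q' a (fun _ => 1) ∅ t ^ 2 ≤ (bK + s) * U := by
    have h := hTr (Fin M × Fin k) hcard Q' a (fun _ => 1) hforms (hWQ wa hwa) T hTa hBig ∅ (by
      rw [Finset.card_empty]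
      push_cast
      linarith)
    simp only [Finset.prod_empty, mul_one, Finset.card_empty, pow_zero, one_mul] at h
    rw [← hIdef, ← hu] at h
    have h1 := (abs_le.1 h).2
    have h2 : T * I * (FI (Fin M × Fin k) v0 m ∅ * u ^ K) ≤ T * I * (bK * u ^ K) := by gcongr
    rw [hU]
    linarith
  have hE3 : ∀ j : Fin M × Fin k, |∑ t ∈ rT T, φ ((t : ℝ) / T) *
      (sM e0 v0 T m Q' a (fun _ => 1) {j} t ^ 2 * be Q' (Rr r T) (a j * t + 1)) -
        x * FI (Fin M × Fin k) v0 m {j} * U| ≤ s * U := by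
    intro j
    have h := hTr (Fin M × Fin k) hcard Q' a (fun _ => 1) hforms (hWQ wa hwa) T hTa hBig {j} (by
      rw [Finset.card_singleton]
      push_cast
      linarith)
    simp only [Finset.prod_singleton, Finset.card_singleton, pow_one] at h
    rw [← hIdef, ← hu, ← hx] at h
    have e1 : T * I * (x * FI (Fin M × Fin k) v0 m {j} * u ^ K) = x * FI (Fin M × Fin k) v0 m {j} * U := by
      rw [hU]
      ring
    have e2 : s * I * T * u ^ K = s * U := by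
      rw [hU]
      ring
    rw [e1, e2] at h
    exact h
  have hE3p : ∀ j : Fin M × Fin k, ∑ t ∈ rT T, φ ((t : ℝ) / T) *
      (sM e0 v0 T m Q' a (fun _ => 1) {j} t ^ 2 *
        ∑ p ∈ (Icc 1 ⌊T ^ e0⌋₊).filter (fun p => p.Prime ∧ ¬ p ∣ Q'),
            (if p ∣ a j * t + 1 then be Q' (Rr r T) (a j * t + 1) else 0)) ≤
      (x ^ 2 * FI (Fin M × Fin k) v0 m {j} + s) * U := by
    intro j
    have h := h3p (Fin M × Fin k) hcard Q' a (fun _ => 1) hforms (hWQ wb hwb) T hTb hBig j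
    rw [← hIdef, ← hu, ← hx] at h
    rw [Clu_c (fun t : ℕ => φ ((t : ℝ) / T)) (fun t => sM e0 v0 T m Q' a (fun _ => 1) {j} t)
      (fun t => be Q' (Rr r T) (a j * t + 1)) (fun t => a j * t + 1)]
    refine h.trans (le_of_eq ?_)
    rw [hU]
    ring
  refine ⟨Q', U, ?_, hU0, ?_, ?_⟩
  · rw [← hIdef, hU]
    exact le_mul_of_one_le_right (by positivity) (one_le_pow₀ hu1)
  · rw [← hbb, ← hKdef, ← hbK]
    refine hE0.trans ?_
    exact mul_le_mul_of_nonneg_right (by linarith) hU0.le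
  · intro l
    have hinj : ∀ i j : Fin k, i ≠ j → ((l, i) : Fin M × Fin k) ≠ (l, j) := by
      intro i j hij h
      exact hij (Prod.mk.inj h).2
    have habs := Clu_abs (k := k) (rT T) (fun t => φ ((t : ℝ) / T))
      (fun t => sM e0 v0 T m Q' a (fun _ => 1) ∅ t)
      (fun j t => sM e0 v0 T m Q' a (fun _ => 1) {(l, j)} t)
      (fun i j t => sM e0 v0 T m Q' a (fun _ => 1) {(l, i), (l, j)} t)
      (fun j t => (a (l, j) * t + 1).Prime)
      (fun j t => bp e0 T Q' (Rr r T) (a (l, j) * t + 1))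
      (fun j t => be Q' (Rr r T) (a (l, j) * t + 1))
      (fun j t => ∑ p ∈ (Icc 1 ⌊T ^ e0⌋₊).filter (fun p => p.Prime ∧ ¬ p ∣ Q'),
            (if p ∣ a (l, j) * t + 1 then be Q' (Rr r T) (a (l, j) * t + 1) else 0))
      ((rT T).filter (fun t => ∃ j : Fin k, (a (l, j) * t + 1).Prime))
      (fun t => Finset.mem_filter)
      (B0 := B0) (U := U) (ν := ν) (F0 := bK + s) (F1 := e0 * ((1 - κ') * Jb) - s)
      (F3 := x * Jb + s) (F5 := x ^ 2 * (aa ^ 4 * bK / bb ^ 2) + s)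
      (F34 := x * Jb * (1 - κ' - x) - 2 * s) hU0.le hν0.le (by positivity) hB00.le
      (fun t _ => hφ.nonneg _)
      (by
        intro t ht hne j
        obtain ⟨h1, h2, h3, h4, h5, h6⟩ := hTe T hTe' m Q' t ht hne (l, j)
        rw [← hB0] at h3
        exact ⟨h1, h2, h3, h4, fun i hij => h5 (l, i) (hinj i j hij), h6⟩)
      hE0
      (by
        intro j
        have h1 := hE2 (l, j)
        have h2 : T * I * ((e0 * ((1 - κ') * Jb) - s) * u ^ K) ≤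
            T * I * ((e0 * FI (Fin M × Fin k) v0 m {(l, j)} - s) * u ^ K) := by
          have := hFI1' (l, j)
          gcongr
        have h3 : (e0 * ((1 - κ') * Jb) - s) * U = T * I * ((e0 * ((1 - κ') * Jb) - s) * u ^ K) := by
          rw [hU]
          ring
        rw [h3]
        refine (h2.trans h1).trans (le_of_eq ?_)
        refine Finset.sum_congr ?_ fun _ _ => rfl
        ext t
        simp only [Finset.mem_filter])
      (by
        intro j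
        have h1 := (abs_le.1 (hE3 (l, j))).2
        have h2 : x * FI (Fin M × Fin k) v0 m {(l, j)} * U ≤ x * Jb * U := by
          have := hFI1 (l, j)
          gcongr
        linarith)
      (by
        intro j
        have h1 := (abs_le.1 (hE3 (l, j))).1
        have h2 := hE3p (l, j)
        have h3 : (x * Jb * (1 - κ' - x)) * U ≤
            (x * (1 - x) * FI (Fin M × Fin k) v0 m {(l, j)}) * U := by
          refine mul_le_mul_of_nonneg_right ?_ hU0.le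
          have h4 : x * (1 - x) * ((1 - κ') * Jb) ≤ x * (1 - x) * FI (Fin M × Fin k) v0 m {(l, j)} :=
            mul_le_mul_of_nonneg_left (hFI1' (l, j)) (mul_nonneg hx0.le (by linarith))
          have h5 : 0 ≤ x * Jb * (x * κ') := by positivity
          nlinarith
        linarith)
      (by
        intro i j hij
        have h1 := (abs_le.1 (hE5 (l, i) (l, j) (hinj i j hij))).2
        have h2 : T * I * (x ^ 2 * FI (Fin M × Fin k) v0 m {(l, i), (l, j)} * u ^ K) ≤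
            T * I * (x ^ 2 * (aa ^ 4 * bK / bb ^ 2) * u ^ K) := by
          have := hFI2 (l, i) (l, j) (hinj i j hij)
          gcongr
        rw [← hx] at h1
        rw [hU]
        linarith)
    have hkx : k * (x * Jb) = ν * bK := by
      rw [hν, hJb]
      ring
    have hV : B0 * (x * Jb + s) * k + (k : ℝ) ^ 2 * (x ^ 2 * (aa ^ 4 * bK / bb ^ 2) + s) -
        2 * ν * (k * (x * Jb * (1 - κ' - x) - 2 * s)) + ν ^ 2 * (bK + s) =
        bK * ν ^ 2 * S + (B0 * k + (k : ℝ) ^ 2 + 4 * ν * k + ν ^ 2) * s := by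
      have e1 : (k : ℝ) ^ 2 * (x ^ 2 * (aa ^ 4 * bK / bb ^ 2)) = ν ^ 2 * bK := by
        rw [hν]
        field_simp
      have e2 : ν ^ 2 * S = B0 * ν + 2 * κ' * ν ^ 2 + 2 * x * ν ^ 2 := by
        rw [hS]
        field_simp
      calc _ = B0 * (k * (x * Jb)) + B0 * k * s + (k : ℝ) ^ 2 * (x ^ 2 * (aa ^ 4 * bK / bb ^ 2)) + (k : ℝ) ^ 2 * s -
            2 * ν * (k * (x * Jb)) * (1 - κ' - x) + 4 * ν * k * s + ν ^ 2 * bK + ν ^ 2 * s := by ring
        _ = bK * (B0 * ν + 2 * κ' * ν ^ 2 + 2 * x * ν ^ 2) +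
            (B0 * k + (k : ℝ) ^ 2 + 4 * ν * k + ν ^ 2) * s := by
            rw [hkx, e1]
            ring
        _ = _ := by
            rw [← e2]
            ring
    rw [hV] at habs
    have hsqrt : Real.sqrt ((bK + s) * U * ((bK * ν ^ 2 * S +
        (B0 * k + (k : ℝ) ^ 2 + 4 * ν * k + ν ^ 2) * s) * U)) =
        U * Real.sqrt ((bK + s) * (bK * ν ^ 2 * S +
        (B0 * k + (k : ℝ) ^ 2 + 4 * ν * k + ν ^ 2) * s)) := by
      have e : (bK + s) * U * ((bK * ν ^ 2 * S + (B0 * k + (k : ℝ) ^ 2 + 4 * ν * k + ν ^ 2) * s) * U) =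
          U ^ 2 * ((bK + s) * (bK * ν ^ 2 * S + (B0 * k + (k : ℝ) ^ 2 + 4 * ν * k + ν ^ 2) * s)) := by ring
      rw [e, Real.sqrt_mul (sq_nonneg U), Real.sqrt_sq hU0.le]
    rw [hsqrt] at habs
    rw [← hbb, ← haa, ← hKdef, ← hbK, ← hB0, ← hx, ← hκ', ← hν, ← hS]
    obtain ⟨H, hHdef⟩ : ∃ H, H = ∑ t ∈ (rT T).filter (fun t => ∃ j : Fin k, (a (l, j) * t + 1).Prime),
        φ ((t : ℝ) / T) * sM e0 v0 T m Q' a (fun _ => 1) ∅ t ^ 2 := ⟨_, rfl⟩
    rw [← hHdef] at habs ⊢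
    have h7 := mul_le_mul_of_nonneg_left hsb hU0.le
    have h8 : k * (e0 * ((1 - κ') * Jb) - s) * U = (r * ν * (1 - κ') * bK - k * s) * U := by
      have : k * (e0 * ((1 - κ') * Jb)) = r * (k * (x * Jb)) * (1 - κ') := by
        rw [hxr]
        ring
      rw [hkx] at this
      rw [mul_sub, this]
      ring
    rw [h8] at habs
    have h9 : ν * ((bK * (r * (1 - κ') - Real.sqrt S) - ε) * U) ≤ ν * H := by
      linarith
    exact le_of_mul_le_mul_left h9 hν0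

end EG
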