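import Pool.Agent.H6.EG.Defs2

/-!
# MP_0e3417 row CluA: the abstract hit inequality

Proof. `∑ ω X ≤ ∑_{hit} ω X ≤ ∑_{hit} ω Y = ν ∑_{hit} ω + ∑_{hit} ω (Y - ν)` and by Cauchy-Schwarz `∑_{hit} ω |Y - ν| ≤ (∑_{hit} ω)^(1/2) (∑_{hit} ω (Y - ν)²)^(1/2) ≤ (∑ ω ∑ ω (Y-ν)²)^(1/2)`.
-/

open Finset

namespace EG

open Classical in
theorem cluA (S : Finset ℕ) (ω X Y : ℕ → ℝ) (hit : ℕ → Prop) (ν : ℝ) (hω : ∀ t ∈ S, 0 ≤ ω t) (hX : ∀ t ∈ S, ¬ hit t → X t ≤ 0)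
    (hXY : ∀ t ∈ S, ω t ≠ 0 → X t ≤ Y t) :
    ∑ t ∈ S, ω t * X t ≤ ν * ∑ t ∈ S.filter hit, ω t +
      Real.sqrt ((∑ t ∈ S, ω t) * ∑ t ∈ S, ω t * (Y t - ν) ^ 2) := by
  have h1 : ∑ t ∈ S, ω t * X t ≤ ∑ t ∈ S.filter hit, ω t * Y t := by
    have h2 : ∑ t ∈ S, ω t * X t ≤ ∑ t ∈ S, (if hit t then ω t * Y t else 0) := by
      refine sum_le_sum fun t ht => ?_
      by_cases h : hit t
      · rw [if_pos h]
        by_cases h0 : ω t = 0
        · rw [h0, zero_mul, zero_mul]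
        · exact mul_le_mul_of_nonneg_left (hXY t ht h0) (hω t ht)
      · rw [if_neg h]
        exact mul_nonpos_of_nonneg_of_nonpos (hω t ht) (hX t ht h)
    rwa [← sum_filter] at h2
  have hω' : ∀ t ∈ S.filter hit, 0 ≤ ω t := fun t ht => hω t (mem_filter.1 ht).1
  have h3 : ∑ t ∈ S.filter hit, ω t * Y t =
      ν * ∑ t ∈ S.filter hit, ω t + ∑ t ∈ S.filter hit, ω t * (Y t - ν) := by
    rw [mul_sum, ← sum_add_distrib]
    refine sum_congr rfl fun t _ => ?_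
    ring
  have h4 : (∑ t ∈ S.filter hit, ω t * (Y t - ν)) ^ 2 ≤
      (∑ t ∈ S.filter hit, ω t) * ∑ t ∈ S.filter hit, ω t * (Y t - ν) ^ 2 := by
    have h5 := sum_mul_sq_le_sq_mul_sq (S.filter hit) (fun t => Real.sqrt (ω t))
      (fun t => Real.sqrt (ω t) * (Y t - ν))
    have e1 : ∑ t ∈ S.filter hit, Real.sqrt (ω t) * (Real.sqrt (ω t) * (Y t - ν)) =
        ∑ t ∈ S.filter hit, ω t * (Y t - ν) := by
      refine sum_congr rfl fun t ht => ?_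
      rw [← mul_assoc, Real.mul_self_sqrt (hω' t ht)]
    have e2 : ∑ t ∈ S.filter hit, Real.sqrt (ω t) ^ 2 = ∑ t ∈ S.filter hit, ω t :=
      sum_congr rfl fun t ht => Real.sq_sqrt (hω' t ht)
    have e3 : ∑ t ∈ S.filter hit, (Real.sqrt (ω t) * (Y t - ν)) ^ 2 =
        ∑ t ∈ S.filter hit, ω t * (Y t - ν) ^ 2 := by
      refine sum_congr rfl fun t ht => ?_
      rw [mul_pow, Real.sq_sqrt (hω' t ht)]
    rw [e1, e2, e3] at h5
    exact h5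
  have h6 : (∑ t ∈ S.filter hit, ω t) * ∑ t ∈ S.filter hit, ω t * (Y t - ν) ^ 2 ≤
      (∑ t ∈ S, ω t) * ∑ t ∈ S, ω t * (Y t - ν) ^ 2 := by
    refine mul_le_mul ?_ ?_ ?_ ?_
    · exact sum_le_sum_of_subset_of_nonneg (filter_subset _ _) fun t ht _ => hω t ht
    · exact sum_le_sum_of_subset_of_nonneg (filter_subset _ _)
        fun t ht _ => mul_nonneg (hω t ht) (sq_nonneg _)
    · exact sum_nonneg fun t ht => mul_nonneg (hω' t ht) (sq_nonneg _)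
    · exact sum_nonneg fun t ht => hω t ht
  have h7 := (le_abs_self _).trans (Real.abs_le_sqrt (h4.trans h6))
  rw [h3] at h1
  linarith

end EG
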