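import Pool.Agent.H69.EGD.Fin

/-!
# MP_0e3417: the dispersion part

The sum of two squares of Selberg type divisor sums over two linear forms, level `T^(6/11)` for each of them.
-/

open Finset H69LB

namespace EG

theorem disp {η : ℝ} {φ : ℝ → ℝ} (hφ : Wt η φ) {r : ℝ} (hr0 : 0 < r) (hr : r < 3 / 11) :
    ∃ δ : ℝ, 0 < δ ∧ ∀ Q a b : ℕ, 1 ≤ a → 1 ≤ b → a ≠ b → a ∣ Q → b ∣ Q →
      (∀ p : ℕ, p.Prime → (p : ℤ) ∣ (a : ℤ) - b → p ∣ Q) → ∃ T0 : ℝ, ∀ T, T0 ≤ T →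
      ∀ q ρ : ℕ, 1 ≤ q → (q : ℝ) ≤ T ^ δ → Nat.Coprime q Q →
      ∀ S : Finset ℕ, (∀ d ∈ S, Squarefree d ∧ Nat.Coprime d (Q * q) ∧ (d : ℝ) ≤ T ^ r) →
      ∀ l l' : ℕ → ℝ, (∀ d, |l d| ≤ 1) → (∀ d, |l' d| ≤ 1) →
        |∑ d ∈ S ×ˢ S, ∑ e ∈ (S ×ˢ S).filter (fun e => Nat.Coprime (Nat.lcm d.1 d.2) (Nat.lcm e.1 e.2)),
          l d.1 * l d.2 * (l' e.1 * l' e.2) *
            (NDE φ T a b q ρ (Nat.lcm d.1 d.2) (Nat.lcm e.1 e.2) -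
              T * (∫ x, φ x) / ((Nat.lcm d.1 d.2 : ℝ) * (Nat.lcm e.1 e.2 : ℝ) * q))| ≤ T ^ (1 - δ) :=
  H69EGD.fin_disp hφ hr0 hr

end EG
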