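import Pool.Agent.H6.EG.Defs2

/-!
# MP_0e3417 row E2a: primes in progressions in the variable `t`

`(i)` `W = fun η => φ(exp η * Q/a)` is smooth; `φ(y) ≠ 0` only for `1/2 < y < 3/2`, so `W η ≠ 0` only for `|η| < log (2Q) + 1` (`a ≤ Q`).
`(ii)` `∫ W(η) e^η dη = (a/Q) ∫ φ` (substitution `y = e^η Q/a`, e.g. `MeasureTheory.integral_comp_mul...` after `integral_exp`-type change of variables on `(0,∞)`; `φ = 0` on `(-∞, 1/2]`).
`(iii)` `t ≡ ρ` mod `q` iff `n = a t + 1 ≡ a ρ + 1` mod `a q`, and every `n ≡ aρ + 1` mod `a q`, `n ≥ 1`, is of the form `a t + 1` with `t ≥ 0`, `t ≡ ρ` mod `q`. So the sum over `t` is `∑_{n ≡ aρ+1} φ((n-1)/(aT)) Λ(n)` over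
`n ≤ a ⌊2T⌋ + 1`; on the other side `W(log(n/(QT))) = φ(n/(aT))`, and `NN M (QT) ≥ a ⌊2T⌋ + 1` is not needed: terms beyond the range of the other sum vanish (`φ(y) = 0` for `y ≥ 3/2`, `T ≥ T1`).
With a Lipschitz constant `L` of `φ` the difference is at most `∑_{n ≤ 2aT+1} Λ(n) L/(aT) ≤ 6 (2aT + 1) L/(aT) ≤ 18 L` (`ψ(x) ≤ 6x`). Main terms: `Q T (a/Q) ∫φ/φ(aq) = T ∫φ (a/φ(a))/φ(q)`, as `(a,q) = 1`.
-/

open Finset H69LB

namespace EG

theorem e2a_ws {η : ℝ} {φ : ℝ → ℝ} (hφ : Wt η φ) {Q a : ℕ} (hQ : 1 ≤ Q) (ha : 1 ≤ a) (haQ : a ∣ Q) :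
    WS (Real.log (2 * Q) + 1) (fun x => φ (Real.exp x * Q / a)) ∧
    ∫ x, φ (Real.exp x * Q / a) * Real.exp x = (a : ℝ) / Q * ∫ x, φ x := by
  have hQ' : (1 : ℝ) ≤ Q := by exact_mod_cast hQ
  have ha' : (1 : ℝ) ≤ a := by exact_mod_cast ha
  have haQ' : (a : ℝ) ≤ Q := by exact_mod_cast Nat.le_of_dvd (by omega) haQ
  have hη := hφ.η_le
  have hη0 := hφ.η_pos
  refine ⟨⟨?_, ?_⟩, ?_⟩
  · exact hφ.smooth.comp ((Real.contDiff_exp.mul contDiff_const).div_const _)
  · intro x hx
    apply hφ.zero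
    rcases le_abs.1 hx with h | h
    · have h1 : 2 * (Q : ℝ) ≤ Real.exp x := by
        calc 2 * (Q : ℝ) = Real.exp (Real.log (2 * Q)) := (Real.exp_log (by positivity)).symm
          _ ≤ Real.exp x := Real.exp_le_exp.2 (by linarith)
      have h2 : 2 ≤ Real.exp x * Q / a := by
        rw [le_div_iff₀ (by linarith)]
        nlinarith
      rw [le_abs]
      left
      linarith
    · have h1 : Real.exp x ≤ 1 / (2 * Q) := by
        have : Real.exp x ≤ Real.exp (-(Real.log (2 * Q))) := Real.exp_le_exp.2 (by linarith)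
        rwa [Real.exp_neg, Real.exp_log (by positivity), ← one_div] at this
      have h2 : Real.exp x * Q / a ≤ 1 / 2 := by
        rw [div_le_iff₀ (by linarith)]
        have h4 : Real.exp x * Q ≤ 1 / (2 * Q) * Q := by gcongr
        have h3 : 1 / (2 * (Q : ℝ)) * Q = 1 / 2 := by field_simp
        linarith
      rw [le_abs]
      right
      linarith
  · have h1 : ∫ x, φ (Real.exp x * Q / a) * Real.exp x = ∫ y in Set.Ioi (0 : ℝ), φ (y * ((Q : ℝ) / a)) := by
      have := MeasureTheory.integral_image_eq_integral_abs_deriv_smul (s := Set.univ) (f := Real.exp)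
        (f' := Real.exp) MeasurableSet.univ (fun x _ => (Real.hasDerivAt_exp x).hasDerivWithinAt)
        (Real.exp_injective.injOn) (fun y => φ (y * ((Q : ℝ) / a)))
      rw [Set.image_univ, Real.range_exp] at this
      rw [this, MeasureTheory.setIntegral_univ]
      congr 1
      ext x
      rw [abs_of_pos (Real.exp_pos x), smul_eq_mul, mul_comm, mul_div_assoc]
    have h2 : ∫ y in Set.Ioi (0 : ℝ), φ (y * ((Q : ℝ) / a)) = ∫ y, φ (y * ((Q : ℝ) / a)) := by
      apply MeasureTheory.setIntegral_eq_integral_of_forall_compl_eq_zero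
      intro y hy
      apply hφ.zero
      have hy0 : y ≤ 0 := not_lt.1 hy
      have : y * ((Q : ℝ) / a) ≤ 0 := mul_nonpos_of_nonpos_of_nonneg hy0 (by positivity)
      rw [le_abs]
      right
      linarith
    rw [h1, h2, MeasureTheory.Measure.integral_comp_mul_right, abs_of_nonneg (by positivity),
      smul_eq_mul, inv_div]

private theorem e2a_lip {η : ℝ} {φ : ℝ → ℝ} (hφ : Wt η φ) :
    ∃ L : ℝ, 0 ≤ L ∧ ∀ x y, |φ x - φ y| ≤ L * |x - y| := by
  have hs : HasCompactSupport φ := by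
    apply HasCompactSupport.intro (isCompact_Icc (a := (0 : ℝ)) (b := 2))
    intro x hx
    apply hφ.zero
    have := hφ.η_le
    rw [Set.mem_Icc, not_and_or, not_le, not_le] at hx
    rw [le_abs]
    rcases hx with h | h
    · right
      linarith
    · left
      linarith
  obtain ⟨C, hC⟩ := ContDiff.lipschitzWith_of_hasCompactSupport hs hφ.smooth (by simp)
  refine ⟨C, C.2, fun x y => ?_⟩
  have := hC.dist_le_mul x y
  simpa [Real.dist_eq] using this

private theorem e2a_psi (N : ℕ) : ∑ n ∈ Icc 1 N, ArithmeticFunction.vonMangoldt n ≤ 6 * (N : ℝ) := by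
  have h := Chebyshev.psi_le_const_mul_self (x := (N : ℝ)) (by positivity)
  have h1 : Chebyshev.psi (N : ℝ) = ∑ n ∈ Icc 1 N, ArithmeticFunction.vonMangoldt n := by
    rw [Chebyshev.psi, Nat.floor_natCast]
    rfl
  rw [h1] at h
  have h2 : Real.log 4 ≤ 2 := by
    have : Real.log 4 = 2 * Real.log 2 := by
      rw [show (4 : ℝ) = 2 ^ 2 by norm_num, Real.log_pow]
      norm_num
    rw [this]
    have := Real.log_two_lt_d9
    linarith
  have h3 : (Real.log 4 + 4) * (N : ℝ) ≤ 6 * N := by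
    apply mul_le_mul_of_nonneg_right _ (by positivity)
    linarith
  linarith

theorem e2a {η : ℝ} {φ : ℝ → ℝ} (hφ : Wt η φ) {Q a : ℕ} (hQ : 1 ≤ Q) (ha : 1 ≤ a) (haQ : a ∣ Q) :
    ∃ C T1 : ℝ, 0 ≤ C ∧ ∀ T, T1 ≤ T → ∀ q : ℕ, 1 ≤ q → Nat.Coprime q a → ∀ ρ : ℕ,
      |∑ t ∈ (rT T).filter (fun t => t ≡ ρ [MOD q]), φ ((t : ℝ) / T) * ArithmeticFunction.vonMangoldt (a * t + 1) -
          T * (∫ x, φ x) * ((a : ℝ) / (Nat.totient a : ℝ)) / (Nat.totient q : ℝ)| ≤
        |∑ n ∈ (Icc 1 (NN (Real.log (2 * Q) + 1) (Q * T))).filter (fun n => n ≡ a * ρ + 1 [MOD a * q]),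
            ArithmeticFunction.vonMangoldt n * φ (Real.exp (Real.log (n / (Q * T))) * Q / a) -
          Q * T * (∫ x, φ (Real.exp x * Q / a) * Real.exp x) / (Nat.totient (a * q) : ℝ)| + C := by
  obtain ⟨L, hL0, hL⟩ := e2a_lip hφ
  refine ⟨18 * L, 1, by positivity, fun T hT q hq hqa ρ => ?_⟩
  have hQ' : (1 : ℝ) ≤ Q := by exact_mod_cast hQ
  have ha' : (1 : ℝ) ≤ a := by exact_mod_cast ha
  have haQ' : (a : ℝ) ≤ Q := by exact_mod_cast Nat.le_of_dvd (by omega) haQ
  have hT0 : (0 : ℝ) < T := by linarith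
  have hη := hφ.η_le
  have hη0 := hφ.η_pos
  -- main terms
  have hmain : Q * T * (∫ x, φ (Real.exp x * Q / a) * Real.exp x) / (Nat.totient (a * q) : ℝ) =
      T * (∫ x, φ x) * ((a : ℝ) / (Nat.totient a : ℝ)) / (Nat.totient q : ℝ) := by
    rw [(e2a_ws hφ hQ ha haQ).2, Nat.totient_mul hqa.symm, Nat.cast_mul]
    have h1 : (Nat.totient a : ℝ) ≠ 0 := by
      have := Nat.totient_pos.2 (show 0 < a by omega)
      positivity
    have h2 : (Nat.totient q : ℝ) ≠ 0 := by
      have := Nat.totient_pos.2 (show 0 < q by omega)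
      positivity
    field_simp
  rw [hmain]
  set A := (rT T).filter (fun t => t ≡ ρ [MOD q]) with hA
  set N := NN (Real.log (2 * Q) + 1) (Q * T) with hN
  -- the sum over n
  have hB : ∑ n ∈ (Icc 1 N).filter (fun n => n ≡ a * ρ + 1 [MOD a * q]),
        ArithmeticFunction.vonMangoldt n * φ (Real.exp (Real.log (n / (Q * T))) * Q / a) =
      ∑ t ∈ A, ArithmeticFunction.vonMangoldt (a * t + 1) * φ (((a * t + 1 : ℕ) : ℝ) / (a * T)) := by
    have hinj : ∀ t₁ ∈ A, ∀ t₂ ∈ A, a * t₁ + 1 = a * t₂ + 1 → t₁ = t₂ := by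
      intro t₁ _ t₂ _ h
      exact Nat.eq_of_mul_eq_mul_left (by omega) (Nat.add_right_cancel h)
    have e1 : ∑ t ∈ A, ArithmeticFunction.vonMangoldt (a * t + 1) * φ (((a * t + 1 : ℕ) : ℝ) / (a * T)) =
        ∑ n ∈ A.image (fun t => a * t + 1), ArithmeticFunction.vonMangoldt n * φ ((n : ℝ) / (a * T)) :=
      (Finset.sum_image (f := fun n : ℕ => ArithmeticFunction.vonMangoldt n * φ ((n : ℝ) / (a * T))) hinj).symm
    rw [e1]
    have e2 : ∑ n ∈ (Icc 1 N).filter (fun n => n ≡ a * ρ + 1 [MOD a * q]),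
        ArithmeticFunction.vonMangoldt n * φ (Real.exp (Real.log (n / (Q * T))) * Q / a) =
        ∑ n ∈ (Icc 1 N).filter (fun n => n ≡ a * ρ + 1 [MOD a * q]),
          ArithmeticFunction.vonMangoldt n * φ ((n : ℝ) / (a * T)) := by
      apply Finset.sum_congr rfl
      intro n hn
      have hn1 : 1 ≤ n := (mem_Icc.1 (mem_filter.1 hn).1).1
      have hn0 : (0 : ℝ) < n := by exact_mod_cast hn1
      rw [Real.exp_log (by positivity)]
      congr 2
      field_simp
    rw [e2]
    symm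
    apply Finset.sum_subset
    · intro n hn
      obtain ⟨t, ht, rfl⟩ := mem_image.1 hn
      rw [hA, mem_filter, rT, mem_range] at ht
      rw [mem_filter, mem_Icc]
      refine ⟨⟨by omega, ?_⟩, ?_⟩
      · rw [hN, NN, Nat.le_floor_iff (by positivity), Real.exp_add, Real.exp_log (by positivity)]
        have h1 : (t : ℝ) ≤ 2 * T := by
          have : t ≤ ⌊2 * T⌋₊ := by omega
          exact (Nat.le_floor_iff (by positivity)).1 this
        have h2 : (2 : ℝ) ≤ Real.exp 1 := by
          have := Real.add_one_le_exp (1 : ℝ)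
          linarith
        have h3 : ((a * t + 1 : ℕ) : ℝ) ≤ Q * (2 * T) + Q * T := by
          push_cast
          have h4 : (a : ℝ) * t ≤ Q * (2 * T) := by gcongr
          have h5 : (1 : ℝ) ≤ Q * T := by nlinarith
          linarith
        have h6 : (Q : ℝ) * T * (2 * Q * 2) ≤ Q * T * (2 * Q * Real.exp 1) := by gcongr
        have h7 : (0 : ℝ) ≤ Q * T := by positivity
        have h8 : (Q : ℝ) * T * 3 ≤ Q * T * (2 * Q * 2) := by
          apply mul_le_mul_of_nonneg_left _ h7
          linarith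
        linarith
      · exact (ht.2.mul_left' a).add_right 1
    · intro n hn hn'
      rw [mem_filter, mem_Icc] at hn
      have hz : φ ((n : ℝ) / (a * T)) = 0 := by
        by_contra hne
        apply hn'
        rw [mem_image]
        have h1 : |(n : ℝ) / (a * T) - 1| < η := by
          by_contra h
          exact hne (hφ.zero _ (not_lt.1 h))
        have h2 : (n : ℝ) / (a * T) < 3 / 2 := by
          have := (abs_lt.1 h1).2
          linarith
        rw [div_lt_iff₀ (by positivity)] at h2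
        -- n ≡ 1 mod a
        have h3 : n ≡ 1 [MOD a] := by
          have h4 : n ≡ a * ρ + 1 [MOD a] := hn.2.of_mul_right q
          have h5 : a * ρ + 1 ≡ 0 + 1 [MOD a] := by
            apply Nat.ModEq.add_right
            exact (Nat.modEq_zero_iff_dvd).2 (Dvd.intro _ rfl)
          exact h4.trans h5
        have h6 : a ∣ n - 1 := (Nat.modEq_iff_dvd' hn.1.1).1 h3.symm
        obtain ⟨t, ht⟩ := h6
        have hnt : n = a * t + 1 := by omega
        refine ⟨t, ?_, hnt.symm⟩
        rw [hA, mem_filter, rT, mem_range]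
        refine ⟨?_, ?_⟩
        · rw [Nat.lt_add_one_iff, Nat.le_floor_iff (by positivity)]
          rw [hnt] at h2
          push_cast at h2
          have h7 : (a : ℝ) * t < a * (2 * T) := by
            have : (a : ℝ) * T * (3 / 2) ≤ a * (2 * T) := by
              have : (0 : ℝ) ≤ a * T := by positivity
              linarith
            linarith
          exact (lt_of_mul_lt_mul_left h7 (by positivity)).le
        · rw [hnt] at hn
          have h8 := Nat.ModEq.add_right_cancel' 1 hn.2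
          exact Nat.ModEq.mul_left_cancel' (by omega) h8
      rw [hz, mul_zero]
  rw [hB]
  -- comparison
  have hdiff : |∑ t ∈ A, φ ((t : ℝ) / T) * ArithmeticFunction.vonMangoldt (a * t + 1) -
      ∑ t ∈ A, ArithmeticFunction.vonMangoldt (a * t + 1) * φ (((a * t + 1 : ℕ) : ℝ) / (a * T))| ≤ 18 * L := by
    rw [← Finset.sum_sub_distrib]
    refine (Finset.abs_sum_le_sum_abs _ _).trans ?_
    have h1 : ∀ t ∈ A, |φ ((t : ℝ) / T) * ArithmeticFunction.vonMangoldt (a * t + 1) -
        ArithmeticFunction.vonMangoldt (a * t + 1) * φ (((a * t + 1 : ℕ) : ℝ) / (a * T))| ≤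
        L / (a * T) * ArithmeticFunction.vonMangoldt (a * t + 1) := by
      intro t _
      have hv := ArithmeticFunction.vonMangoldt_nonneg (n := a * t + 1)
      have e1 : φ ((t : ℝ) / T) * ArithmeticFunction.vonMangoldt (a * t + 1) -
          ArithmeticFunction.vonMangoldt (a * t + 1) * φ (((a * t + 1 : ℕ) : ℝ) / (a * T)) =
          (φ ((t : ℝ) / T) - φ (((a * t + 1 : ℕ) : ℝ) / (a * T))) * ArithmeticFunction.vonMangoldt (a * t + 1) := by
        ring
      rw [e1, abs_mul, abs_of_nonneg hv]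
      apply mul_le_mul_of_nonneg_right _ hv
      refine (hL _ _).trans ?_
      have e2 : (t : ℝ) / T - ((a * t + 1 : ℕ) : ℝ) / (a * T) = -(1 / (a * T)) := by
        push_cast
        field_simp
        ring
      rw [e2, abs_neg, abs_of_nonneg (by positivity), mul_one_div]
    refine (Finset.sum_le_sum h1).trans ?_
    rw [← Finset.mul_sum]
    have h2 : ∑ t ∈ A, ArithmeticFunction.vonMangoldt (a * t + 1) ≤ 6 * ((a * ⌊2 * T⌋₊ + 1 : ℕ) : ℝ) := by
      refine le_trans ?_ (e2a_psi (a * ⌊2 * T⌋₊ + 1))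
      have hinj : ∀ t₁ ∈ A, ∀ t₂ ∈ A, a * t₁ + 1 = a * t₂ + 1 → t₁ = t₂ := by
        intro t₁ _ t₂ _ h
        exact Nat.eq_of_mul_eq_mul_left (by omega) (Nat.add_right_cancel h)
      rw [← Finset.sum_image (f := fun n : ℕ => ArithmeticFunction.vonMangoldt n) hinj]
      apply Finset.sum_le_sum_of_subset_of_nonneg
      · intro n hn
        obtain ⟨t, ht, rfl⟩ := mem_image.1 hn
        rw [hA, mem_filter, rT, mem_range] at ht
        rw [mem_Icc]
        refine ⟨by omega, ?_⟩
        have : a * t ≤ a * ⌊2 * T⌋₊ := Nat.mul_le_mul_left a (by omega)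
        omega
      · intro n _ _
        exact ArithmeticFunction.vonMangoldt_nonneg
    have h3 : ((a * ⌊2 * T⌋₊ + 1 : ℕ) : ℝ) ≤ 3 * (a * T) := by
      push_cast
      have h4 : (⌊2 * T⌋₊ : ℝ) ≤ 2 * T := Nat.floor_le (by positivity)
      have h5 : (a : ℝ) * ⌊2 * T⌋₊ ≤ a * (2 * T) := by gcongr
      have h6 : (1 : ℝ) ≤ a * T := by nlinarith
      linarith
    calc L / (a * T) * ∑ t ∈ A, ArithmeticFunction.vonMangoldt (a * t + 1) ≤
        L / (a * T) * (6 * (3 * (a * T))) := by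
          apply mul_le_mul_of_nonneg_left _ (by positivity)
          linarith
      _ = 18 * L := by
          field_simp
          ring
  set X := ∑ t ∈ A, φ ((t : ℝ) / T) * ArithmeticFunction.vonMangoldt (a * t + 1)
  set Y := ∑ t ∈ A, ArithmeticFunction.vonMangoldt (a * t + 1) * φ (((a * t + 1 : ℕ) : ℝ) / (a * T))
  set M := T * (∫ x, φ x) * ((a : ℝ) / (Nat.totient a : ℝ)) / (Nat.totient q : ℝ)
  calc |X - M| = |(Y - M) + (X - Y)| := by
        congr 1
        ring
    _ ≤ |Y - M| + |X - Y| := abs_add_le _ _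
    _ ≤ |Y - M| + 18 * L := by linarith

end EG
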