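import Pool.Agent.H6.EG.Defs

/-!
# MP_0e3417 row Eul: two convergent sums over squarefree numbers without small prime factors

Proof. (0) For squarefree `e ≥ 1`: `c^ω(e) ≤ K e^(1/4)` with `K = c^⌈c^4⌉` (each prime factor `q > c^4` has `c ≤ q^(1/4)`, there are at most `⌈c^4⌉` smaller ones).
So `∑_{e ≤ N} c^ω(e)/e² ≤ K ∑ e^(-7/4) =: K1`, and `∑_{w < e ≤ N} c^ω(e)/e² ≤ K ∑_{e > w} e^(-7/4) ≤ 3 K w^(-3/4)`. If all primes `≤ w` divide `Q`, an `e > 1` in
`sq Q N` has all its prime factors `> w`, so `e > w`.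
(1) with `p = 1`: `gcd(e, g) ≤ ∑_{d ∣ g, d ∣ e} d`; for `d ∣ e`, `e = d e'` with `ω(e) = ω(d) + ω(e')`, so
`∑_e c^ω(e) gcd(e,g)/e² ≤ ∑_{d ∣ g} c^ω(d)/d K1 = K1 ∏_{q ∣ g} (1 + c/q) ≤ K1 2^ω(g)` if `w ≥ c` (prime factors of `g` are `> w` as `g` is coprime to `Q`; those `d` which are not
coprime to `Q` do not occur).
`p` prime, `p > w`: `gcd(e,p) ≤ 1 + p [p ∣ e]`; for `e = p e'`: `c^ω(e) p gcd(e,g)/e² ≤ (c/p) gcd(p,g) c^ω(e') gcd(e',g)/e'² ≤ c * c^ω(e') gcd(e',g)/e'²`. Total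
`≤ (1 + c) K1 2^ω(g)`.
(2) `p = 1`: by (0) at most `3 K w^(-3/4) ≤ 3 K/√w`. `p` prime `> w`: the terms with `p ∣ e`, `e = p e'`, contribute at most `(c/p) K1 ≤ c K1/w`.
-/

open Finset

namespace EG

theorem eul_cK (c : ℝ) (hc : 1 ≤ c) : ∃ K : ℝ, 1 ≤ K ∧ ∀ e : ℕ, 1 ≤ e →
    c ^ e.primeFactors.card ≤ K * (e : ℝ) ^ (1 / 4 : ℝ) := by
  classical
  set M : ℕ := ⌈c ^ 4⌉₊ with hM
  refine ⟨c ^ M, one_le_pow₀ hc, ?_⟩
  intro e he
  have hc0 : 0 ≤ c := by linarith
  have hsplit : e.primeFactors.card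
      = (e.primeFactors.filter (fun q => q ≤ M)).card + (e.primeFactors.filter (fun q => ¬ q ≤ M)).card := by
    rw [Finset.card_filter_add_card_filter_not]
  rw [hsplit, pow_add]
  have h1 : c ^ (e.primeFactors.filter (fun q => q ≤ M)).card ≤ c ^ M := by
    apply pow_le_pow_right₀ hc
    have hsub : e.primeFactors.filter (fun q => q ≤ M) ⊆ Finset.Icc 1 M := by
      intro q hq
      rw [Finset.mem_filter] at hq
      rw [Finset.mem_Icc]
      exact ⟨(Nat.prime_of_mem_primeFactors hq.1).one_lt.le, hq.2⟩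
    have := Finset.card_le_card hsub
    simpa using this
  have h2 : c ^ (e.primeFactors.filter (fun q => ¬ q ≤ M)).card ≤ (e : ℝ) ^ (1 / 4 : ℝ) := by
    rw [← Finset.prod_const]
    have h3 : ∏ _q ∈ e.primeFactors.filter (fun q => ¬ q ≤ M), c
        ≤ ∏ q ∈ e.primeFactors.filter (fun q => ¬ q ≤ M), (q : ℝ) ^ (1 / 4 : ℝ) := by
      apply Finset.prod_le_prod
      · intro q _
        exact hc0
      · intro q hq
        rw [Finset.mem_filter] at hq
        have h4 : c ^ 4 ≤ (q : ℝ) := by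
          have h5 : c ^ 4 ≤ (M : ℝ) := Nat.le_ceil _
          have h6 : (M : ℝ) ≤ (q : ℝ) := by
            exact_mod_cast (not_le.mp hq.2).le
          linarith
        have h7 : c = (c ^ 4) ^ (1 / 4 : ℝ) := by
          rw [← Real.rpow_natCast c 4, ← Real.rpow_mul hc0]
          norm_num
        calc c = (c ^ 4) ^ (1 / 4 : ℝ) := h7
          _ ≤ (q : ℝ) ^ (1 / 4 : ℝ) := Real.rpow_le_rpow (by positivity) h4 (by norm_num)
    refine h3.trans ?_
    rw [Real.finsetProd_rpow _ _ (fun i _ => Nat.cast_nonneg i)]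
    apply Real.rpow_le_rpow
    · exact Finset.prod_nonneg (fun i _ => Nat.cast_nonneg i)
    · have h8 : (∏ q ∈ e.primeFactors.filter (fun q => ¬ q ≤ M), q) ∣ e :=
        (Finset.prod_dvd_prod_of_subset _ _ _ (Finset.filter_subset _ _)).trans (Nat.prod_primeFactors_dvd e)
      have h9 := Nat.le_of_dvd (by omega) h8
      rw [← Nat.cast_prod]
      exact_mod_cast h9
    · norm_num
  exact mul_le_mul h1 h2 (by positivity) (by positivity)

theorem eul_term (c K : ℝ) (hc : 1 ≤ c) (e : ℕ) (he : 1 ≤ e)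
    (h : c ^ e.primeFactors.card ≤ K * (e : ℝ) ^ (1 / 4 : ℝ)) :
    c ^ e.primeFactors.card / (e : ℝ) ^ 2 ≤ K * (1 / Real.sqrt e) * (1 / (e : ℝ) ^ (5 / 4 : ℝ)) := by
  have he0 : (0 : ℝ) < e := by exact_mod_cast he
  have h1 : (e : ℝ) ^ 2 = (e : ℝ) ^ (1 / 4 : ℝ) * (Real.sqrt e * (e : ℝ) ^ (5 / 4 : ℝ)) := by
    rw [Real.sqrt_eq_rpow, ← Real.rpow_add he0, ← Real.rpow_add he0, ← Real.rpow_natCast]
    norm_num
  have hA : 0 < (e : ℝ) ^ (1 / 4 : ℝ) := Real.rpow_pos_of_pos he0 _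
  have hB : 0 < (e : ℝ) ^ (5 / 4 : ℝ) := Real.rpow_pos_of_pos he0 _
  have hS : 0 < Real.sqrt e := Real.sqrt_pos.mpr he0
  calc c ^ e.primeFactors.card / (e : ℝ) ^ 2 ≤ (K * (e : ℝ) ^ (1 / 4 : ℝ)) / (e : ℝ) ^ 2 := by
        apply div_le_div_of_nonneg_right h (by positivity)
    _ = K * (1 / Real.sqrt e) * (1 / (e : ℝ) ^ (5 / 4 : ℝ)) := by
        rw [h1]
        field_simp

theorem eul_w {w Q N e : ℕ} (hW : Wide w Q) (he : e ∈ (sq Q N).erase 1) : w < e := by
  rw [Finset.mem_erase, sq, Finset.mem_filter, Finset.mem_Icc] at he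
  obtain ⟨hne, ⟨h1, _⟩, _, hco⟩ := he
  by_contra hlt
  push Not at hlt
  have h2 := Nat.exists_prime_and_dvd hne
  obtain ⟨q, hq, hqe⟩ := h2
  have h3 : q ≤ w := (Nat.le_of_dvd (by omega) hqe).trans hlt
  have h4 := hW.2 q hq h3
  exact Nat.not_coprime_of_dvd_of_dvd hq.one_lt hqe h4 hco

theorem eul_base (c : ℝ) (hc : 1 ≤ c) : ∃ K : ℝ, 1 ≤ K ∧
    (∀ Q N : ℕ, ∑ e ∈ sq Q N, c ^ e.primeFactors.card / (e : ℝ) ^ 2 ≤ K) ∧
    ∀ w Q : ℕ, Wide w Q → 1 ≤ w → ∀ N : ℕ,
      ∑ e ∈ (sq Q N).erase 1, c ^ e.primeFactors.card / (e : ℝ) ^ 2 ≤ K / Real.sqrt w := by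
  classical
  obtain ⟨K, hK, hb⟩ := eul_cK c hc
  have hsum : Summable (fun n : ℕ => 1 / (n : ℝ) ^ (5 / 4 : ℝ)) :=
    Real.summable_one_div_nat_rpow.mpr (by norm_num)
  set Z : ℝ := ∑' n : ℕ, 1 / (n : ℝ) ^ (5 / 4 : ℝ) with hZ
  have hZ0 : 0 ≤ Z := tsum_nonneg (fun n => by positivity)
  have hfin : ∀ S : Finset ℕ, ∑ n ∈ S, 1 / (n : ℝ) ^ (5 / 4 : ℝ) ≤ Z := fun S =>
    hsum.sum_le_tsum S (fun n _ => by positivity)
  have hpos : ∀ {Q N e : ℕ}, e ∈ sq Q N → 1 ≤ e := by
    intro Q N e he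
    rw [sq, Finset.mem_filter, Finset.mem_Icc] at he
    exact he.1.1
  refine ⟨K * (Z + 1), ?_, ?_, ?_⟩
  · nlinarith
  · intro Q N
    calc ∑ e ∈ sq Q N, c ^ e.primeFactors.card / (e : ℝ) ^ 2
        ≤ ∑ e ∈ sq Q N, K * (1 / (e : ℝ) ^ (5 / 4 : ℝ)) := by
          apply Finset.sum_le_sum
          intro e he
          have he1 := hpos he
          refine (eul_term c K hc e he1 (hb e he1)).trans ?_
          have he1' : (1 : ℝ) ≤ e := by exact_mod_cast he1
          have h1 : 1 / Real.sqrt e ≤ 1 := by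
            rw [div_le_one (Real.sqrt_pos.mpr (by linarith))]
            exact Real.one_le_sqrt.mpr he1'
          have h2 : 0 ≤ 1 / (e : ℝ) ^ (5 / 4 : ℝ) := by positivity
          apply mul_le_mul_of_nonneg_right _ h2
          nlinarith
      _ = K * ∑ e ∈ sq Q N, 1 / (e : ℝ) ^ (5 / 4 : ℝ) := by rw [Finset.mul_sum]
      _ ≤ K * (Z + 1) := by
          apply mul_le_mul_of_nonneg_left _ (by linarith)
          linarith [hfin (sq Q N)]
  · intro w Q hW hw N
    have hw1 : (1 : ℝ) ≤ w := by exact_mod_cast hw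
    have hsw : 0 < Real.sqrt w := Real.sqrt_pos.mpr (by linarith)
    calc ∑ e ∈ (sq Q N).erase 1, c ^ e.primeFactors.card / (e : ℝ) ^ 2
        ≤ ∑ e ∈ (sq Q N).erase 1, (K / Real.sqrt w) * (1 / (e : ℝ) ^ (5 / 4 : ℝ)) := by
          apply Finset.sum_le_sum
          intro e he
          have he1 := hpos (Finset.mem_of_mem_erase he)
          have hwe := eul_w hW he
          refine (eul_term c K hc e he1 (hb e he1)).trans ?_
          have he1' : (w : ℝ) ≤ e := by exact_mod_cast hwe.le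
          have h1 : 1 / Real.sqrt e ≤ 1 / Real.sqrt w :=
            one_div_le_one_div_of_le hsw (Real.sqrt_le_sqrt he1')
          have h2 : 0 ≤ 1 / (e : ℝ) ^ (5 / 4 : ℝ) := by positivity
          apply mul_le_mul_of_nonneg_right _ h2
          have h3 := mul_le_mul_of_nonneg_left h1 (by linarith : (0:ℝ) ≤ K)
          calc K * (1 / Real.sqrt e) ≤ K * (1 / Real.sqrt w) := h3
            _ = K / Real.sqrt w := by ring
      _ = (K / Real.sqrt w) * ∑ e ∈ (sq Q N).erase 1, 1 / (e : ℝ) ^ (5 / 4 : ℝ) := by rw [Finset.mul_sum]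
      _ ≤ (K / Real.sqrt w) * (Z + 1) := by
          apply mul_le_mul_of_nonneg_left _ (by positivity)
          linarith [hfin ((sq Q N).erase 1)]
      _ = K * (Z + 1) / Real.sqrt w := by ring

theorem eul_dil (Q N d : ℕ) (hd : 1 ≤ d) (f h : ℕ → ℝ) (hh : ∀ e, 0 ≤ h e)
    (H : ∀ e, 1 ≤ e → Squarefree (d * e) → f (d * e) ≤ h e) :
    ∑ e ∈ (sq Q N).filter (fun e => d ∣ e), f e ≤ ∑ e ∈ sq Q N, h e := by
  classical
  have h1 : ∑ e ∈ (sq Q N).filter (fun e => d ∣ e), f e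
      ≤ ∑ e ∈ (sq Q N).filter (fun e => d ∣ e), h (e / d) := by
    apply Finset.sum_le_sum
    intro e he
    rw [Finset.mem_filter, sq, Finset.mem_filter, Finset.mem_Icc] at he
    obtain ⟨⟨⟨he1, _⟩, hsf, _⟩, k, rfl⟩ := he
    rw [Nat.mul_div_cancel_left _ (by omega)]
    apply H k _ hsf
    rcases Nat.eq_zero_or_pos k with h0 | h0
    · subst h0
      simp at he1
    · exact h0
  refine h1.trans ?_
  have hinj : Set.InjOn (fun e : ℕ => e / d) ((sq Q N).filter (fun e => d ∣ e) : Finset ℕ) := by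
    intro a ha b hb hab
    have ha' : d ∣ a := (Finset.mem_filter.mp ha).2
    have hb' : d ∣ b := (Finset.mem_filter.mp hb).2
    have hab' : a / d = b / d := hab
    rw [← Nat.div_mul_cancel ha', ← Nat.div_mul_cancel hb', hab']
  rw [← Finset.sum_image (f := h) hinj]
  apply Finset.sum_le_sum_of_subset_of_nonneg
  · intro e he
    rw [Finset.mem_image] at he
    obtain ⟨a, ha, rfl⟩ := he
    rw [Finset.mem_filter, sq, Finset.mem_filter, Finset.mem_Icc] at ha
    obtain ⟨⟨⟨ha1, haN⟩, hsf, hco⟩, k, rfl⟩ := ha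
    rw [Nat.mul_div_cancel_left _ (by omega), sq, Finset.mem_filter, Finset.mem_Icc]
    have hk : 1 ≤ k := by
      rcases Nat.eq_zero_or_pos k with h0 | h0
      · subst h0
        simp at ha1
      · exact h0
    have hkle : k ≤ d * k := Nat.le_mul_of_pos_left k (by omega)
    refine ⟨⟨hk, by omega⟩, hsf.squarefree_of_dvd (Dvd.intro_left d rfl), hco.coprime_dvd_left (Dvd.intro_left d rfl)⟩
  · intro e _ _
    exact hh e

theorem eul_om {d e : ℕ} (h : Squarefree (d * e)) :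
    (d * e).primeFactors.card = d.primeFactors.card + e.primeFactors.card := by
  have hco : Nat.Coprime d e := (Nat.squarefree_mul_iff.mp h).1
  rw [hco.primeFactors_mul]
  exact Finset.card_union_of_disjoint hco.disjoint_primeFactors

theorem eul_tau {g : ℕ} (hg : Squarefree g) : g.divisors.card ≤ 2 ^ g.primeFactors.card := by
  classical
  rw [← Finset.card_powerset]
  apply Finset.card_le_card_of_injOn (fun d => d.primeFactors)
  · intro d hd
    have hd' := Nat.mem_divisors.mp hd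
    exact Finset.mem_coe.mpr (Finset.mem_powerset.mpr (Nat.primeFactors_mono hd'.1 hd'.2))
  · intro a ha b hb hab
    have ha' := Nat.mem_divisors.mp ha
    have hb' := Nat.mem_divisors.mp hb
    have hab' : a.primeFactors = b.primeFactors := hab
    rw [← Nat.prod_primeFactors_of_squarefree (hg.squarefree_of_dvd ha'.1),
      ← Nat.prod_primeFactors_of_squarefree (hg.squarefree_of_dvd hb'.1), hab']

theorem eul_g (c : ℝ) (hc : 1 ≤ c) (K : ℝ) (hK : 1 ≤ K)
    (hb : ∀ Q N : ℕ, ∑ e ∈ sq Q N, c ^ e.primeFactors.card / (e : ℝ) ^ 2 ≤ K)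
    (w Q : ℕ) (hW : Wide w Q) (hcw : c ≤ w) (N g : ℕ) (hg : Squarefree g) (hgQ : Nat.Coprime g Q) :
    ∑ e ∈ sq Q N, c ^ e.primeFactors.card * (Nat.gcd e g : ℝ) / (e : ℝ) ^ 2 ≤ K * 2 ^ g.primeFactors.card := by
  classical
  have hc0 : (0 : ℝ) < c := by linarith
  have hg0 : g ≠ 0 := hg.ne_zero
  have h1 : ∑ e ∈ sq Q N, c ^ e.primeFactors.card * (Nat.gcd e g : ℝ) / (e : ℝ) ^ 2
      ≤ ∑ e ∈ sq Q N, ∑ d ∈ g.divisors, (if d ∣ e then c ^ e.primeFactors.card * (d : ℝ) / (e : ℝ) ^ 2 else 0) := by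
    apply Finset.sum_le_sum
    intro e he
    have hmem : Nat.gcd e g ∈ g.divisors := Nat.mem_divisors.mpr ⟨Nat.gcd_dvd_right e g, hg0⟩
    have h2 := Finset.single_le_sum (s := g.divisors)
      (f := fun d => (if d ∣ e then c ^ e.primeFactors.card * (d : ℝ) / (e : ℝ) ^ 2 else 0))
      (fun d _ => by split_ifs <;> positivity) hmem
    rw [if_pos (Nat.gcd_dvd_left e g)] at h2
    exact h2
  refine h1.trans ?_
  rw [Finset.sum_comm]
  have h3 : ∀ d ∈ g.divisors, ∑ e ∈ sq Q N, (if d ∣ e then c ^ e.primeFactors.card * (d : ℝ) / (e : ℝ) ^ 2 else 0) ≤ K := by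
    intro d hd
    have hd' := Nat.mem_divisors.mp hd
    have hd0 : d ≠ 0 := fun h => hg0 (Nat.eq_zero_of_zero_dvd (h ▸ hd'.1))
    have hdp : (0 : ℝ) < d := by exact_mod_cast Nat.pos_of_ne_zero hd0
    have hcd : c ^ d.primeFactors.card ≤ d := by
      have h4 : (d : ℝ) = ∏ q ∈ d.primeFactors, (q : ℝ) := by
        have := Nat.prod_primeFactors_of_squarefree (hg.squarefree_of_dvd hd'.1)
        rw [← Nat.cast_prod, this]
      rw [h4, ← Finset.prod_const]
      apply Finset.prod_le_prod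
      · intro q _
        exact hc0.le
      · intro q hq
        have hqp := Nat.prime_of_mem_primeFactors hq
        have hqd := Nat.dvd_of_mem_primeFactors hq
        have hqw : w < q := by
          by_contra hle
          push Not at hle
          have h5 := hW.2 q hqp hle
          exact Nat.not_coprime_of_dvd_of_dvd hqp.one_lt (hqd.trans hd'.1) h5 hgQ
        have : (w : ℝ) ≤ q := by exact_mod_cast hqw.le
        linarith
    rw [← Finset.sum_filter]
    refine (eul_dil Q N d (Nat.pos_of_ne_zero hd0) _ (fun e => c ^ e.primeFactors.card / (e : ℝ) ^ 2)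
      (fun e => by positivity) ?_).trans (hb Q N)
    intro e he hsf
    have he0 : (0 : ℝ) < e := by exact_mod_cast he
    rw [eul_om hsf, pow_add]
    push_cast
    have h6 : c ^ d.primeFactors.card * c ^ e.primeFactors.card * (d : ℝ) / ((d : ℝ) * e) ^ 2
        = (c ^ d.primeFactors.card / d) * (c ^ e.primeFactors.card / (e : ℝ) ^ 2) := by
      field_simp
    rw [h6]
    have h7 : c ^ d.primeFactors.card / d ≤ 1 := (div_le_one hdp).mpr hcd
    have h8 : 0 ≤ c ^ e.primeFactors.card / (e : ℝ) ^ 2 := by positivity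
    nlinarith
  calc ∑ d ∈ g.divisors, ∑ e ∈ sq Q N, (if d ∣ e then c ^ e.primeFactors.card * (d : ℝ) / (e : ℝ) ^ 2 else 0)
      ≤ ∑ d ∈ g.divisors, K := Finset.sum_le_sum h3
    _ = K * (g.divisors.card : ℝ) := by rw [Finset.sum_const, nsmul_eq_mul]; ring
    _ ≤ K * 2 ^ g.primeFactors.card := by
        apply mul_le_mul_of_nonneg_left _ (by linarith)
        exact_mod_cast eul_tau hg

theorem eul_gp {p : ℕ} (hp : p.Prime) (e : ℕ) : (Nat.gcd e p : ℝ) ≤ 1 + (if p ∣ e then (p : ℝ) else 0) := by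
  split_ifs with h
  · rw [Nat.gcd_eq_right h]
    linarith
  · have : Nat.gcd e p = 1 := Nat.Coprime.symm ((Nat.Prime.coprime_iff_not_dvd hp).mpr h)
    rw [this]
    simp

theorem eul (c : ℝ) (hc : 1 ≤ c) : ∃ C : ℝ, 1 ≤ C ∧ ∀ w Q : ℕ, Wide w Q → C ≤ w → ∀ p : ℕ, (p = 1 ∨ (p.Prime ∧ w < p)) → ∀ N : ℕ,
    (∀ g : ℕ, Squarefree g → Nat.Coprime g Q →
      ∑ e ∈ sq Q N, c ^ e.primeFactors.card * (Nat.gcd e g : ℝ) * (Nat.gcd e p : ℝ) / (e : ℝ) ^ 2 ≤ C * 2 ^ g.primeFactors.card) ∧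
    ∑ e ∈ (sq Q N).erase 1, c ^ e.primeFactors.card * (Nat.gcd e p : ℝ) / (e : ℝ) ^ 2 ≤ C / Real.sqrt w := by
  classical
  obtain ⟨K, hK, hb, hb2⟩ := eul_base c hc
  have hc0 : (0 : ℝ) < c := by linarith
  refine ⟨(1 + c) * K, by nlinarith, ?_⟩
  intro w Q hW hCw p hp N
  have hcw : c ≤ w := by nlinarith
  have hw1 : (1 : ℝ) ≤ w := by linarith
  have hw1' : 1 ≤ w := by exact_mod_cast hw1
  have hsw : 0 < Real.sqrt w := Real.sqrt_pos.mpr (by linarith)
  have hsw2 : Real.sqrt w ≤ w := by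
    rw [Real.sqrt_le_left (by linarith)]
    nlinarith
  constructor
  · intro g hg hgQ
    have hG := eul_g c hc K hK hb w Q hW hcw N g hg hgQ
    have h2g : (0 : ℝ) < 2 ^ g.primeFactors.card := by positivity
    rcases hp with hp | ⟨hp, hpw⟩
    · subst hp
      have h1 : ∑ e ∈ sq Q N, c ^ e.primeFactors.card * (Nat.gcd e g : ℝ) * (Nat.gcd e 1 : ℝ) / (e : ℝ) ^ 2
          = ∑ e ∈ sq Q N, c ^ e.primeFactors.card * (Nat.gcd e g : ℝ) / (e : ℝ) ^ 2 := by
        apply Finset.sum_congr rfl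
        intro e _
        simp
      rw [h1]
      have h3 : 0 < K * 2 ^ g.primeFactors.card := by positivity
      nlinarith
    · have hp0 : (0 : ℝ) < p := by exact_mod_cast hp.pos
      have h1 : ∑ e ∈ sq Q N, c ^ e.primeFactors.card * (Nat.gcd e g : ℝ) * (Nat.gcd e p : ℝ) / (e : ℝ) ^ 2
          ≤ ∑ e ∈ sq Q N, (c ^ e.primeFactors.card * (Nat.gcd e g : ℝ) / (e : ℝ) ^ 2
            + (if p ∣ e then c ^ e.primeFactors.card * (Nat.gcd e g : ℝ) * (p : ℝ) / (e : ℝ) ^ 2 else 0)) := by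
        apply Finset.sum_le_sum
        intro e he
        have h2 := eul_gp hp e
        have h3 : 0 ≤ c ^ e.primeFactors.card * (Nat.gcd e g : ℝ) / (e : ℝ) ^ 2 := by positivity
        have h4 := mul_le_mul_of_nonneg_left h2 h3
        split_ifs at h4 ⊢ with h5
        · calc c ^ e.primeFactors.card * (Nat.gcd e g : ℝ) * (Nat.gcd e p : ℝ) / (e : ℝ) ^ 2
              = c ^ e.primeFactors.card * (Nat.gcd e g : ℝ) / (e : ℝ) ^ 2 * (Nat.gcd e p : ℝ) := by ring
            _ ≤ c ^ e.primeFactors.card * (Nat.gcd e g : ℝ) / (e : ℝ) ^ 2 * (1 + (p : ℝ)) := h4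
            _ = _ := by ring
        · calc c ^ e.primeFactors.card * (Nat.gcd e g : ℝ) * (Nat.gcd e p : ℝ) / (e : ℝ) ^ 2
              = c ^ e.primeFactors.card * (Nat.gcd e g : ℝ) / (e : ℝ) ^ 2 * (Nat.gcd e p : ℝ) := by ring
            _ ≤ c ^ e.primeFactors.card * (Nat.gcd e g : ℝ) / (e : ℝ) ^ 2 * (1 + 0) := h4
            _ = _ := by ring
      rw [Finset.sum_add_distrib, ← Finset.sum_filter] at h1
      have h6 := eul_dil Q N p hp.pos
        (fun e => c ^ e.primeFactors.card * (Nat.gcd e g : ℝ) * (p : ℝ) / (e : ℝ) ^ 2)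
        (fun e => c * (c ^ e.primeFactors.card * (Nat.gcd e g : ℝ) / (e : ℝ) ^ 2))
        (fun e => by positivity) (by
          intro e he hsf
          have he0 : (0 : ℝ) < e := by exact_mod_cast he
          have h7 : (Nat.gcd (p * e) g : ℝ) ≤ p * Nat.gcd e g := by
            have h8 : Nat.gcd (p * e) g ∣ Nat.gcd p g * Nat.gcd e g := Nat.gcd_mul_left_dvd_mul_gcd g p e
            have h9 : 0 < Nat.gcd p g * Nat.gcd e g :=
              Nat.mul_pos (Nat.gcd_pos_of_pos_left _ hp.pos) (Nat.gcd_pos_of_pos_left _ he)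
            have h10 := Nat.le_of_dvd h9 h8
            have h11 : Nat.gcd p g ≤ p := Nat.gcd_le_left _ hp.pos
            have h12 : Nat.gcd (p * e) g ≤ p * Nat.gcd e g := h10.trans (Nat.mul_le_mul_right _ h11)
            exact_mod_cast h12
          rw [eul_om hsf, pow_add, hp.primeFactors, Finset.card_singleton, pow_one]
          push_cast
          calc c * c ^ e.primeFactors.card * (Nat.gcd (p * e) g : ℝ) * (p : ℝ) / ((p : ℝ) * e) ^ 2
              = (c * c ^ e.primeFactors.card * (p : ℝ) / ((p : ℝ) * e) ^ 2) * (Nat.gcd (p * e) g : ℝ) := by ring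
            _ ≤ (c * c ^ e.primeFactors.card * (p : ℝ) / ((p : ℝ) * e) ^ 2) * (p * Nat.gcd e g) := by
                apply mul_le_mul_of_nonneg_left h7 (by positivity)
            _ = c * (c ^ e.primeFactors.card * (Nat.gcd e g : ℝ) / (e : ℝ) ^ 2) := by
                field_simp)
      rw [← Finset.mul_sum] at h6
      have h13 := mul_le_mul_of_nonneg_left hG hc0.le
      have h14 : (1 + c) * K * 2 ^ g.primeFactors.card
          = K * 2 ^ g.primeFactors.card + c * (K * 2 ^ g.primeFactors.card) := by ring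
      rw [h14]
      linarith
  · have hB := hb2 w Q hW hw1' N
    rcases hp with hp | ⟨hp, hpw⟩
    · subst hp
      have h1 : ∑ e ∈ (sq Q N).erase 1, c ^ e.primeFactors.card * (Nat.gcd e 1 : ℝ) / (e : ℝ) ^ 2
          = ∑ e ∈ (sq Q N).erase 1, c ^ e.primeFactors.card / (e : ℝ) ^ 2 := by
        apply Finset.sum_congr rfl
        intro e _
        simp
      rw [h1]
      refine hB.trans ?_
      apply div_le_div_of_nonneg_right _ hsw.le
      nlinarith
    · have hp0 : (0 : ℝ) < p := by exact_mod_cast hp.pos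
      have h1 : ∑ e ∈ (sq Q N).erase 1, c ^ e.primeFactors.card * (Nat.gcd e p : ℝ) / (e : ℝ) ^ 2
          ≤ ∑ e ∈ (sq Q N).erase 1, (c ^ e.primeFactors.card / (e : ℝ) ^ 2
            + (if p ∣ e then c ^ e.primeFactors.card * (p : ℝ) / (e : ℝ) ^ 2 else 0)) := by
        apply Finset.sum_le_sum
        intro e he
        have h2 := eul_gp hp e
        have h3 : 0 ≤ c ^ e.primeFactors.card / (e : ℝ) ^ 2 := by positivity
        have h4 := mul_le_mul_of_nonneg_left h2 h3
        split_ifs at h4 ⊢ with h5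
        · calc c ^ e.primeFactors.card * (Nat.gcd e p : ℝ) / (e : ℝ) ^ 2
              = c ^ e.primeFactors.card / (e : ℝ) ^ 2 * (Nat.gcd e p : ℝ) := by ring
            _ ≤ c ^ e.primeFactors.card / (e : ℝ) ^ 2 * (1 + (p : ℝ)) := h4
            _ = _ := by ring
        · calc c ^ e.primeFactors.card * (Nat.gcd e p : ℝ) / (e : ℝ) ^ 2
              = c ^ e.primeFactors.card / (e : ℝ) ^ 2 * (Nat.gcd e p : ℝ) := by ring
            _ ≤ c ^ e.primeFactors.card / (e : ℝ) ^ 2 * (1 + 0) := h4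
            _ = _ := by ring
      rw [Finset.sum_add_distrib] at h1
      have h5 : ∑ e ∈ (sq Q N).erase 1, (if p ∣ e then c ^ e.primeFactors.card * (p : ℝ) / (e : ℝ) ^ 2 else 0)
          ≤ ∑ e ∈ (sq Q N).filter (fun e => p ∣ e), c ^ e.primeFactors.card * (p : ℝ) / (e : ℝ) ^ 2 := by
        rw [Finset.sum_filter]
        apply Finset.sum_le_sum_of_subset_of_nonneg (Finset.erase_subset _ _)
        intro e _ _
        split_ifs <;> positivity
      have h6 := eul_dil Q N p hp.pos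
        (fun e => c ^ e.primeFactors.card * (p : ℝ) / (e : ℝ) ^ 2)
        (fun e => (c / p) * (c ^ e.primeFactors.card / (e : ℝ) ^ 2))
        (fun e => by positivity) (by
          intro e he hsf
          have he0 : (0 : ℝ) < e := by exact_mod_cast he
          rw [eul_om hsf, pow_add, hp.primeFactors, Finset.card_singleton, pow_one]
          push_cast
          apply le_of_eq
          field_simp)
      rw [← Finset.mul_sum] at h6
      have h7 : (c / p) * ∑ e ∈ sq Q N, c ^ e.primeFactors.card / (e : ℝ) ^ 2 ≤ (c / Real.sqrt w) * K := by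
        apply mul_le_mul _ (hb Q N) (Finset.sum_nonneg (fun e _ => by positivity)) (by positivity)
        apply div_le_div_of_nonneg_left hc0.le hsw
        have : (w : ℝ) ≤ p := by exact_mod_cast hpw.le
        linarith
      have h8 : (1 + c) * K / Real.sqrt w = K / Real.sqrt w + (c / Real.sqrt w) * K := by ring
      rw [h8]
      linarith

end EG
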