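import Pool.Agent.H6.EG.Defs2

/-!
# MP_0e3417 row FUa: the functionals, upper bounds

`aI_eq`: `(1/v_0) w_0 = 1`, `(1/v_n) w_n = 1/2` for `n ≥ 1`. `bI`: `(1/v_0²) w_0 = 1/v0` and `(1/v_n²) w_n = 1/(2 v_n) = 2^(-n)/(2 v0)` for `n ≥ 1`: the sum is between `1/v0` and `(3/2)/v0`.
`FI_le`: all terms are nonnegative; enlarge `AS` to `piFinset (range (m+1))` in both sums; the double sum of the product is `∏_i ∑_{n, n' ≤ m} (factor) = ∏_{i ∈ J} aI² ∏_{i ∉ J} bI`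
(`Finset.prod_univ_sum` twice, or sum over pairs `(n i, n' i)`).
-/

open Finset

namespace EG

/-- `a = ∑ g w` -/
noncomputable def aI (v0 : ℝ) (m : ℕ) : ℝ := ∑ n ∈ range (m + 1), (vv v0 n)⁻¹ * wv v0 n

/-- `b = ∑ g² w` -/
noncomputable def bI (v0 : ℝ) (m : ℕ) : ℝ := ∑ n ∈ range (m + 1), ((vv v0 n)⁻¹) ^ 2 * wv v0 n

theorem FUa_vv_pos {v0 : ℝ} (hv0 : 0 < v0) (n : ℕ) : 0 < vv v0 n := by
  unfold vv
  positivity

theorem FUa_wv_nonneg {v0 : ℝ} (hv0 : 0 < v0) (n : ℕ) : 0 ≤ wv v0 n := by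
  unfold wv
  split_ifs
  · exact hv0.le
  · exact div_nonneg (FUa_vv_pos hv0 n).le (by norm_num)

theorem FUa_wv_succ {v0 : ℝ} (n : ℕ) : wv v0 (n + 1) = vv v0 (n + 1) / 2 := by
  unfold wv
  rw [if_neg (Nat.succ_ne_zero n)]

theorem FUa_zero (v0 : ℝ) : vv v0 0 = v0 ∧ wv v0 0 = v0 := by
  unfold vv wv
  simp

theorem aI_eq {v0 : ℝ} (hv0 : 0 < v0) (m : ℕ) : aI v0 m = 1 + m / 2 := by
  unfold aI
  induction m with
  | zero =>
    rw [zero_add, sum_range_one, (FUa_zero v0).1, (FUa_zero v0).2, inv_mul_cancel₀ hv0.ne']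
    simp
  | succ k ih =>
    have h := (FUa_vv_pos hv0 (k + 1)).ne'
    rw [sum_range_succ, ih, FUa_wv_succ]
    have e : (vv v0 (k + 1))⁻¹ * (vv v0 (k + 1) / 2) = 1 / 2 := by
      field_simp
    rw [e]
    push_cast
    ring

theorem FUa_bI {v0 : ℝ} (hv0 : 0 < v0) (m : ℕ) :
    bI v0 m = (3 / 2 - (1 / 2) ^ (m + 1)) / v0 := by
  unfold bI
  induction m with
  | zero =>
    rw [zero_add, sum_range_one, (FUa_zero v0).1, (FUa_zero v0).2]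
    field_simp
    norm_num
  | succ k ih =>
    rw [sum_range_succ, ih, FUa_wv_succ]
    have e : ((vv v0 (k + 1))⁻¹) ^ 2 * (vv v0 (k + 1) / 2) = (1 / 2) ^ (k + 2) / v0 := by
      have h2 : (1 / 2 : ℝ) ^ (k + 2) = 1 / (2 ^ (k + 1) * 2) := by
        rw [one_div_pow, pow_succ]
      rw [h2]
      unfold vv
      field_simp
    rw [e]
    ring

theorem bI_ge {v0 : ℝ} (hv0 : 0 < v0) (m : ℕ) : 1 / v0 ≤ bI v0 m := by
  rw [FUa_bI hv0]
  refine div_le_div_of_nonneg_right ?_ hv0.le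
  have h : (1 / 2 : ℝ) ^ (m + 1) ≤ (1 / 2) ^ 1 :=
    pow_le_pow_of_le_one (by norm_num) (by norm_num) (by omega)
  linarith

theorem bI_le {v0 : ℝ} (hv0 : 0 < v0) (m : ℕ) : bI v0 m ≤ 3 / 2 / v0 := by
  rw [FUa_bI hv0]
  refine div_le_div_of_nonneg_right ?_ hv0.le
  have h : 0 ≤ (1 / 2 : ℝ) ^ (m + 1) := by positivity
  linarith

/-- the factor at `i` -/
noncomputable def FUa_F {ι : Type} [DecidableEq ι] (v0 : ℝ) (J : Finset ι) (i : ι) (a b : ℕ) : ℝ :=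
  if i ∈ J then (vv v0 a)⁻¹ * wv v0 a * ((vv v0 b)⁻¹ * wv v0 b)
    else if a = b then ((vv v0 a)⁻¹) ^ 2 * wv v0 a else 0

theorem FUa_F_nonneg {ι : Type} [DecidableEq ι] {v0 : ℝ} (hv0 : 0 < v0) (J : Finset ι) (i : ι)
    (a b : ℕ) : 0 ≤ FUa_F v0 J i a b := by
  unfold FUa_F
  have h1 : ∀ n, 0 ≤ (vv v0 n)⁻¹ := fun n => (inv_pos.2 (FUa_vv_pos hv0 n)).le
  have h2 := FUa_wv_nonneg hv0
  split_ifs
  · exact mul_nonneg (mul_nonneg (h1 _) (h2 _)) (mul_nonneg (h1 _) (h2 _))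
  · exact mul_nonneg (sq_nonneg _) (h2 _)
  · exact le_rfl

theorem FUa_FI (v0 : ℝ) (m : ℕ) (ι : Type) [Fintype ι] [DecidableEq ι] (J : Finset ι) :
    FI ι v0 m J = ∑ n ∈ AS ι v0 m, ∑ n' ∈ AS ι v0 m, ∏ i, FUa_F v0 J i (n i) (n' i) := rfl

theorem FI_nonneg {v0 : ℝ} (hv0 : 0 < v0) (m : ℕ) (ι : Type) [Fintype ι] [DecidableEq ι] (J : Finset ι) : 0 ≤ FI ι v0 m J := by
  rw [FUa_FI]
  exact sum_nonneg fun n _ => sum_nonneg fun n' _ => prod_nonneg fun i _ =>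
    FUa_F_nonneg hv0 J i _ _

theorem FUa_fac {ι : Type} [DecidableEq ι] (v0 : ℝ) (m : ℕ) (J : Finset ι) (i : ι) :
    ∑ a ∈ range (m + 1), ∑ b ∈ range (m + 1), FUa_F v0 J i a b =
      if i ∈ J then aI v0 m ^ 2 else bI v0 m := by
  by_cases hi : i ∈ J
  · simp only [FUa_F, if_pos hi]
    rw [pow_two, aI, sum_mul_sum]
  · simp only [FUa_F, if_neg hi]
    rw [bI]
    refine sum_congr rfl fun a ha => ?_
    rw [sum_ite_eq, if_pos ha]

theorem FI_le {v0 : ℝ} (hv0 : 0 < v0) (m : ℕ) (ι : Type) [Fintype ι] [DecidableEq ι] (J : Finset ι) :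
    FI ι v0 m J ≤ (aI v0 m ^ 2) ^ J.card * bI v0 m ^ (Fintype.card ι - J.card) := by
  rw [FUa_FI]
  have hsub : AS ι v0 m ⊆ Fintype.piFinset fun _ => range (m + 1) := filter_subset _ _
  have h1 : ∑ n ∈ AS ι v0 m, ∑ n' ∈ AS ι v0 m, ∏ i, FUa_F v0 J i (n i) (n' i) ≤
      ∑ n ∈ Fintype.piFinset fun _ : ι => range (m + 1),
        ∑ n' ∈ Fintype.piFinset fun _ : ι => range (m + 1), ∏ i, FUa_F v0 J i (n i) (n' i) := by
    have hp : ∀ n n' : ι → ℕ, 0 ≤ ∏ i, FUa_F v0 J i (n i) (n' i) := fun n n' =>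
      prod_nonneg fun i _ => FUa_F_nonneg hv0 J i _ _
    calc _ ≤ ∑ n ∈ AS ι v0 m, ∑ n' ∈ Fintype.piFinset fun _ : ι => range (m + 1),
          ∏ i, FUa_F v0 J i (n i) (n' i) :=
          sum_le_sum fun n _ => sum_le_sum_of_subset_of_nonneg hsub fun n' _ _ => hp n n'
      _ ≤ _ := sum_le_sum_of_subset_of_nonneg hsub fun n _ _ => sum_nonneg fun n' _ => hp n n'
  refine h1.trans (le_of_eq ?_)
  have h2 : ∑ n ∈ Fintype.piFinset fun _ : ι => range (m + 1),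
        ∑ n' ∈ Fintype.piFinset fun _ : ι => range (m + 1), ∏ i, FUa_F v0 J i (n i) (n' i) =
      ∏ i, ∑ a ∈ range (m + 1), ∑ b ∈ range (m + 1), FUa_F v0 J i a b := by
    rw [prod_univ_sum (fun _ : ι => range (m + 1))
      (fun i a => ∑ b ∈ range (m + 1), FUa_F v0 J i a b)]
    refine sum_congr rfl fun n _ => ?_
    rw [prod_univ_sum (fun _ : ι => range (m + 1)) (fun i b => FUa_F v0 J i (n i) b)]
  rw [h2, prod_congr rfl (fun i _ => FUa_fac v0 m J i), prod_ite, prod_const, prod_const]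
  have c1 : (univ.filter (fun i => i ∈ J)) = J := by
    ext i
    simp
  have c2 : (univ.filter (fun i => ¬ i ∈ J)) = Jᶜ := by
    ext i
    simp
  rw [c1, c2, card_compl]

end EG
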