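import Pool.Agent.H6.EG.Defs

/-!
# MP_0e3417 row FormQ: linear forms from a finite set of integers

Proof. `Q = w! (∏_i c i)² ∏_{i ≠ j} |c i - c j|` (product over `univ.offDiag`, `Int.natAbs`), `a i = Q / c i`, `c i * a i = Q` as `c i ∣ Q`.
`a i = w! (∏ c) (∏_{j ≠ i} c j) ∏ |..|`.
`prime`: `p ∣ Q` implies `p ∣ w!` or `p ∣ ∏ c` or `p ∣ ∏ |..|`, and each of these three divides `a i`. `ne`: `c` injective.
`diff`: `p ∣ a i - a j` implies `p ∣ c i c j (a i - a j) = Q (c j - c i)`, so `p ∣ Q` or `p ∣ c j - c i ∣ Q`. `Wide`: `p ∣ w!`.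
-/

open Finset

namespace EG

/-- The product of the differences. -/
def FormQ_E {ι : Type} [Fintype ι] [DecidableEq ι] (c : ι → ℕ) : ℕ :=
  ∏ x ∈ (univ : Finset ι).offDiag, Int.natAbs ((c x.1 : ℤ) - c x.2)

theorem FormQ_Epos {ι : Type} [Fintype ι] [DecidableEq ι] (c : ι → ℕ) (hi : Function.Injective c) :
    0 < FormQ_E c := by
  refine Finset.prod_pos (fun x hx => ?_)
  have hx' := (Finset.mem_offDiag.1 hx).2.2
  rw [Int.natAbs_pos, sub_ne_zero]
  intro h
  exact hx' (hi (by exact_mod_cast h))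

theorem FormQ_Edvd {ι : Type} [Fintype ι] [DecidableEq ι] (c : ι → ℕ) (i j : ι) (hij : i ≠ j) :
    Int.natAbs ((c i : ℤ) - c j) ∣ FormQ_E c := by
  have hm : ((i, j) : ι × ι) ∈ (univ : Finset ι).offDiag :=
    Finset.mem_offDiag.2 ⟨Finset.mem_univ i, Finset.mem_univ j, hij⟩
  exact Finset.dvd_prod_of_mem (fun x : ι × ι => Int.natAbs ((c x.1 : ℤ) - c x.2)) hm

theorem formQ {ι : Type} [Fintype ι] [DecidableEq ι] (c : ι → ℕ) (hc : ∀ i, 1 ≤ c i) (hi : Function.Injective c) (w : ℕ) :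
    ∃ (Q : ℕ) (a : ι → ℕ), (∀ i, c i * a i = Q) ∧ SForms Q a ∧ Wide w Q := by
  have hE := FormQ_Epos c hi
  have hP : 0 < ∏ i, c i := Finset.prod_pos (fun i _ => hc i)
  have hP' : ∀ i, 0 < ∏ j ∈ univ.erase i, c j := fun i => Finset.prod_pos (fun j _ => hc j)
  have hW : 0 < w.factorial := Nat.factorial_pos w
  set E := FormQ_E c with hEdef
  set P := ∏ i, c i with hPdef
  obtain ⟨Q, hQ⟩ : ∃ Q, Q = w.factorial * P ^ 2 * E := ⟨_, rfl⟩
  obtain ⟨a, ha⟩ : ∃ a : ι → ℕ, ∀ i, a i = w.factorial * P * (∏ j ∈ univ.erase i, c j) * E :=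
    ⟨_, fun _ => rfl⟩
  have hQpos : 1 ≤ Q := by
    rw [hQ]
    exact Nat.mul_pos (Nat.mul_pos hW (pow_pos hP 2)) hE
  have hca : ∀ i, c i * a i = Q := by
    intro i
    rw [ha, hQ]
    have h1 : c i * ∏ j ∈ univ.erase i, c j = P := Finset.mul_prod_erase univ c (Finset.mem_univ i)
    calc c i * (w.factorial * P * (∏ j ∈ univ.erase i, c j) * E)
        = w.factorial * P * (c i * ∏ j ∈ univ.erase i, c j) * E := by ring
      _ = w.factorial * P ^ 2 * E := by
        rw [h1]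
        ring
  have hapos : ∀ i, 1 ≤ a i := by
    intro i
    rw [ha]
    exact Nat.mul_pos (Nat.mul_pos (Nat.mul_pos hW hP) (hP' i)) hE
  refine ⟨Q, a, hca, ?_, hQpos, ?_⟩
  · refine ⟨hQpos, hapos, ?_, ?_, ?_, ?_⟩
    · intro i
      exact Dvd.intro_left _ (hca i)
    · intro i p hp hpQ
      rw [hQ] at hpQ
      rw [ha]
      rcases hp.dvd_mul.1 hpQ with h | h
      · rcases hp.dvd_mul.1 h with h | h
        · exact Dvd.dvd.mul_right (Dvd.dvd.mul_right (Dvd.dvd.mul_right h _) _) _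
        · have h2 := hp.dvd_of_dvd_pow h
          exact Dvd.dvd.mul_right (Dvd.dvd.mul_right (Dvd.dvd.mul_left h2 _) _) _
      · exact Dvd.dvd.mul_left h _
    · intro i j hij h
      have h1 := (hca i).trans (hca j).symm
      rw [h] at h1
      exact hij (hi (Nat.eq_of_mul_eq_mul_right (hapos j) h1))
    · intro i j hij p hp hd
      have h1 : (p : ℤ) ∣ (Q : ℤ) * ((c j : ℤ) - c i) := by
        have e : (Q : ℤ) * ((c j : ℤ) - c i) = (c i : ℤ) * c j * ((a i : ℤ) - a j) := by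
          have e1 : (c i : ℤ) * a i = Q := by exact_mod_cast hca i
          have e2 : (c j : ℤ) * a j = Q := by exact_mod_cast hca j
          calc (Q : ℤ) * ((c j : ℤ) - c i) = c j * (Q : ℤ) - c i * (Q : ℤ) := by ring
            _ = c j * ((c i : ℤ) * a i) - c i * ((c j : ℤ) * a j) := by rw [e1, e2]
            _ = (c i : ℤ) * c j * ((a i : ℤ) - a j) := by ring
        rw [e]
        exact Dvd.dvd.mul_left hd _
      rcases (Nat.prime_iff_prime_int.1 hp).dvd_or_dvd h1 with h2 | h2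
      · exact_mod_cast h2
      · have h3 : p ∣ Int.natAbs ((c j : ℤ) - c i) := Int.natCast_dvd.1 h2
        have h4 : E ∣ Q := by
          rw [hQ]
          exact Dvd.intro_left _ rfl
        exact (h3.trans (FormQ_Edvd c j i (Ne.symm hij))).trans h4
  · intro p hp hpw
    have h1 : p ∣ w.factorial := (hp.dvd_factorial).2 hpw
    rw [hQ]
    exact Dvd.dvd.mul_right (Dvd.dvd.mul_right h1 _) _

end EG
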