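import Pool.Agent.H6.EG.Defs

/-!
# MP_0e3417 row Gq: the sum `G_Q`, uniformly in `Q`

Proof. (1) `H_Q(x) = ∑_{n ≤ x, (n,Q) = 1} 1/n = ∑_{d ∣ rad Q} (μ(d)/d) H(x/d)`, `H(y) = ∑_{n ≤ y} 1/n`. For `d ≤ x`: `H(x/d) = log x - log d + O(1)` with `|O(1)| ≤ 1`;
for `d > x`: `H(x/d) = 0 = log x - log d + O(log Q)`. Since `∑_{d ∣ rad Q} μ(d)/d = φ(Q)/Q`: `|H_Q(x) - (φ(Q)/Q) log x| ≤ ∑_{d ∣ rad Q} (1/d)(1 + 2 log Q) ≤ 2^ω(Q) (1 + 2 log Q)`.
(2) lower bound: for squarefree `r` the sum of `1/n` over all `n` with radical `r` is `1/φ(r)` (every finite partial sum is at most `1/φ(r)`, `hsm_fiber` in `Pool/Agent/H69/LB/Hsm.lean`, private there: copy it),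
so `G_Q(x) ≥ ∑_{n ≤ x, (n,Q)=1} 1/n = H_Q(x)`.
(3) upper bound: `G_Q(x) = lim_{N → ∞} ∑_{n ≤ N, (n,Q)=1, rad n ≤ x} 1/n ≤ H_Q(x) + sup_N ∑_{x < n ≤ N, rad n ≤ x} 1/n ≤ H_Q(x) + C` with the absolute constant of
`hsm_small` (same file; copy with its helper lemmas). For the limit: for each squarefree `r` the partial sums over `n` with radical `r`, `n ≤ N`, tend to `1/φ(r) = ∏_{q ∣ r} ∑_{j ≥ 1} q^(-j)`
(or: for every `ε > 0` there is `N` with partial sum `≥ 1/φ(r) - ε`; e.g. all `n = ∏ q^{j_q}`, `1 ≤ j_q ≤ J`).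
-/

open Finset

namespace EG

/-- the error term for `G_Q` -/
noncomputable def EQ (Q : ℕ) : ℝ := 2 ^ Q.primeFactors.card * (1 + Real.log Q)

/-- the product of the primes dividing `k` -/
def gqRad (k : ℕ) : ℕ := ∏ p ∈ k.primeFactors, p

theorem gqRad_dvd (k : ℕ) : gqRad k ∣ k := Nat.prod_primeFactors_dvd k

theorem gqRad_pos (k : ℕ) : 0 < gqRad k :=
  Finset.prod_pos fun _ hp => (Nat.prime_of_mem_primeFactors hp).pos

theorem gqRad_squarefree (k : ℕ) : Squarefree (gqRad k) := by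
  refine Finset.squarefree_prod_of_pairwise_isCoprime (fun p hp q hq hpq ↦ ?_) ?_
  · have h1 := Nat.prime_of_mem_primeFactors (Finset.mem_coe.1 hp)
    have h2 := Nat.prime_of_mem_primeFactors (Finset.mem_coe.1 hq)
    exact (Nat.coprime_iff_isRelPrime.1 ((Nat.coprime_primes h1 h2).2 hpq))
  · intro _ hp
    exact (Nat.prime_of_mem_primeFactors hp).squarefree

theorem gqRad_mono {u w : ℕ} (h : u ∣ w) (hw : w ≠ 0) : gqRad u ∣ gqRad w :=
  Finset.prod_dvd_prod_of_subset _ _ _ (Nat.primeFactors_mono h hw)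

theorem gqRad_primeFactors (k : ℕ) : (gqRad k).primeFactors = k.primeFactors :=
  Nat.primeFactors_prod fun _ hp => Nat.prime_of_mem_primeFactors hp

theorem gqRad_self {u : ℕ} (h : Squarefree u) : gqRad u = u :=
  Nat.prod_primeFactors_of_squarefree h

/-- the quotient `k / rad k` has its radical dividing `rad k` -/
theorem gqRad_quot {k : ℕ} (hk : k ≠ 0) : gqRad (k / gqRad k) ∣ gqRad k :=
  gqRad_mono (Nat.div_dvd_of_dvd (gqRad_dvd k)) hk

theorem gq_log_step' (n : ℕ) (hn : 1 ≤ n) :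
    (((n + 1 : ℕ) : ℝ))⁻¹ ≤ Real.log (n + 1) - Real.log n := by
  have hn' : (0 : ℝ) < n := by exact_mod_cast hn
  have := Real.log_le_sub_one_of_pos (show (0 : ℝ) < n / (n + 1) by positivity)
  rw [Real.log_div hn'.ne' (by positivity)] at this
  have h2 : (n : ℝ) / (n + 1) - 1 = - (((n + 1 : ℕ) : ℝ))⁻¹ := by
    push_cast
    field_simp
    ring
  rw [h2] at this
  linarith

theorem gq_harm_upper (a : ℕ) (ha : 1 ≤ a) : ∀ b : ℕ, a ≤ b →
    ∑ k ∈ Ioc a b, ((k : ℝ))⁻¹ ≤ Real.log b - Real.log a := by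
  intro b hb
  induction b, hb using Nat.le_induction with
  | base => simp
  | succ b hb ih =>
    rw [← Finset.insert_Ioc_right_eq_Ioc_add_one (by omega), Finset.sum_insert (by simp)]
    have := gq_log_step' b (by omega)
    push_cast at this ⊢
    linarith

theorem gq_harm (Y w : ℕ) (hw : 1 ≤ w) :
    ∑ k ∈ Ioc (Y / w) Y, ((k : ℝ))⁻¹ ≤ 1 + Real.log w := by
  have hw' : (1 : ℝ) ≤ w := by exact_mod_cast hw
  have hlw := Real.log_nonneg hw'
  by_cases h0 : Y / w = 0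
  · rw [h0]
    rcases Nat.eq_zero_or_pos Y with hY | hY
    · subst hY; simp; linarith
    · have h1 : Ioc 0 Y = insert 1 (Ioc 1 Y) := by
        ext x; simp; omega
      rw [h1, Finset.sum_insert (by simp)]
      have h2 := gq_harm_upper 1 le_rfl Y hY
      have h3 : Y < w := by
        rcases (Nat.div_eq_zero_iff).1 h0 with h | h
        · omega
        · exact h
      have h4 : Real.log Y ≤ Real.log w := Real.log_le_log (by exact_mod_cast hY) (by exact_mod_cast h3.le)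
      simp only [Nat.cast_one, Real.log_one, inv_one] at h2 ⊢
      linarith
  · have h1 : 1 ≤ Y / w := Nat.one_le_iff_ne_zero.2 h0
    have h2 := gq_harm_upper (Y / w) h1 Y (Nat.div_le_self _ _)
    have h3 : Y < 2 * (w * (Y / w)) := by
      have := Nat.lt_mul_div_succ Y (show 0 < w by omega)
      nlinarith
    have h4 : (Y : ℝ) ≤ 2 * (w * ((Y / w : ℕ) : ℝ)) := by exact_mod_cast h3.le
    have h5 : (0 : ℝ) < ((Y / w : ℕ) : ℝ) := by exact_mod_cast h1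
    have hY : (0 : ℝ) < Y := by
      have : 0 < Y := by
        by_contra hc
        have : Y = 0 := by omega
        simp [this] at h0
      exact_mod_cast this
    have h6 : Real.log Y ≤ Real.log 2 + (Real.log w + Real.log ((Y / w : ℕ) : ℝ)) := by
      rw [← Real.log_mul (by positivity) h5.ne', ← Real.log_mul (by norm_num) (by positivity)]
      exact Real.log_le_log hY h4
    have h7 : Real.log 2 ≤ 1 := by
      have := Real.log_two_lt_d9; linarith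
    linarith

/-- the bounded sum over `w` -/
theorem gq_wsum : ∃ C : ℝ, 0 ≤ C ∧ ∀ N : ℕ,
    ∑ w ∈ Icc 1 N, (1 + Real.log w) / (w * gqRad w) ≤ C := by
  classical
  have hs1 : Summable (fun n : ℕ => ((n : ℝ) ^ (7 / 4 : ℝ))⁻¹) :=
    Real.summable_nat_rpow_inv.2 (by norm_num)
  have hs2 : Summable (fun n : ℕ => ((n : ℝ) ^ (3 / 2 : ℝ))⁻¹) :=
    Real.summable_nat_rpow_inv.2 (by norm_num)
  refine ⟨5 * ((∑' n : ℕ, ((n : ℝ) ^ (7 / 4 : ℝ))⁻¹) * (∑' n : ℕ, ((n : ℝ) ^ (3 / 2 : ℝ))⁻¹)), ?_, ?_⟩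
  · have h1 : 0 ≤ ∑' n : ℕ, ((n : ℝ) ^ (7 / 4 : ℝ))⁻¹ := tsum_nonneg fun n => by positivity
    have h2 : 0 ≤ ∑' n : ℕ, ((n : ℝ) ^ (3 / 2 : ℝ))⁻¹ := tsum_nonneg fun n => by positivity
    positivity
  intro N
  have hch : ∀ w : ℕ, ∃ p : ℕ × ℕ, 0 < w → 0 < p.1 ∧ 0 < p.2 ∧ p.2 ^ 2 * p.1 = w ∧ Squarefree p.1 := by
    intro w
    by_cases hw : 0 < w
    · obtain ⟨a, b, h1, h2, h3, h4⟩ := Nat.sq_mul_squarefree_of_pos hw
      exact ⟨(a, b), fun _ => ⟨h1, h2, h3, h4⟩⟩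
    · exact ⟨(0, 0), fun h => absurd h hw⟩
  choose g hg using hch
  have hterm : ∀ w ∈ Icc 1 N, (1 + Real.log w) / (w * gqRad w) ≤
      5 * ((((g w).1 : ℝ) ^ (7 / 4 : ℝ))⁻¹ * (((g w).2 : ℝ) ^ (3 / 2 : ℝ))⁻¹) := by
    intro w hw
    have hw0 : 0 < w := (Finset.mem_Icc.1 hw).1
    obtain ⟨h1, h2, h3, h4⟩ := hg w hw0
    have hu : (0 : ℝ) < (g w).1 := by exact_mod_cast h1
    have hv : (0 : ℝ) < (g w).2 := by exact_mod_cast h2
    have hwr : (0 : ℝ) < w := by exact_mod_cast hw0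
    have hw1 : (1 : ℝ) ≤ w := by exact_mod_cast hw0
    have hwuv : (w : ℝ) = ((g w).2 : ℝ) ^ 2 * (g w).1 := by exact_mod_cast h3.symm
    have hrad : ((g w).1 : ℝ) ≤ gqRad w := by
      have : (g w).1 ≤ gqRad w := by
        apply Nat.le_of_dvd (gqRad_pos w)
        rw [← gqRad_self h4]
        exact gqRad_mono ⟨(g w).2 ^ 2, by rw [mul_comm]; exact h3.symm⟩ hw0.ne'
      exact_mod_cast this
    have hlog : 1 + Real.log w ≤ 5 * (w : ℝ) ^ (1 / 4 : ℝ) := by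
      have h5 := Real.log_le_rpow_div hwr.le (show (0 : ℝ) < 1 / 4 by norm_num)
      have h6 : (1 : ℝ) ≤ (w : ℝ) ^ (1 / 4 : ℝ) := Real.one_le_rpow hw1 (by norm_num)
      have h7 : (w : ℝ) ^ (1 / 4 : ℝ) / (1 / 4) = 4 * (w : ℝ) ^ (1 / 4 : ℝ) := by ring
      rw [h7] at h5
      linarith
    have hrp : (0 : ℝ) < gqRad w := by exact_mod_cast gqRad_pos w
    calc (1 + Real.log w) / (w * gqRad w) ≤ (5 * (w : ℝ) ^ (1 / 4 : ℝ)) / (w * (g w).1) := by
          apply div_le_div₀ (by positivity) hlog (by positivity)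
          exact mul_le_mul_of_nonneg_left hrad hwr.le
      _ = 5 * ((((g w).1 : ℝ) ^ (7 / 4 : ℝ))⁻¹ * (((g w).2 : ℝ) ^ (3 / 2 : ℝ))⁻¹) := by
          have e1 : (w : ℝ) ^ (1 / 4 : ℝ) = ((g w).2 : ℝ) ^ (1 / 2 : ℝ) * ((g w).1 : ℝ) ^ (1 / 4 : ℝ) := by
            rw [hwuv, Real.mul_rpow (by positivity) hu.le, ← Real.rpow_natCast_mul hv.le]
            norm_num
          have e2 : ((g w).1 : ℝ) ^ (7 / 4 : ℝ) * ((g w).1 : ℝ) ^ (1 / 4 : ℝ) = ((g w).1 : ℝ) ^ 2 := by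
            rw [← Real.rpow_add hu, ← Real.rpow_natCast]
            norm_num
          have e3 : ((g w).2 : ℝ) ^ (3 / 2 : ℝ) * ((g w).2 : ℝ) ^ (1 / 2 : ℝ) = ((g w).2 : ℝ) ^ 2 := by
            rw [← Real.rpow_add hv, ← Real.rpow_natCast]
            norm_num
          rw [e1, hwuv]
          have p1 : (0 : ℝ) < ((g w).1 : ℝ) ^ (7 / 4 : ℝ) := by positivity
          have p2 : (0 : ℝ) < ((g w).2 : ℝ) ^ (3 / 2 : ℝ) := by positivity
          rw [← mul_inv, ← div_eq_mul_inv, div_eq_div_iff (by positivity) (by positivity)]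
          calc 5 * (((g w).2 : ℝ) ^ (1 / 2 : ℝ) * ((g w).1 : ℝ) ^ (1 / 4 : ℝ)) *
                (((g w).1 : ℝ) ^ (7 / 4 : ℝ) * ((g w).2 : ℝ) ^ (3 / 2 : ℝ))
              = 5 * ((((g w).1 : ℝ) ^ (7 / 4 : ℝ) * ((g w).1 : ℝ) ^ (1 / 4 : ℝ)) *
                (((g w).2 : ℝ) ^ (3 / 2 : ℝ) * ((g w).2 : ℝ) ^ (1 / 2 : ℝ))) := by ring
            _ = 5 * (((g w).2 : ℝ) ^ 2 * ((g w).1 : ℝ) * ((g w).1 : ℝ)) := by rw [e2, e3]; ring
  refine (Finset.sum_le_sum hterm).trans ?_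
  rw [← Finset.mul_sum]
  refine mul_le_mul_of_nonneg_left ?_ (by norm_num)
  have hinj : Set.InjOn g (Icc 1 N : Finset ℕ) := by
    intro a ha b hb hab
    have ha0 : 0 < a := (Finset.mem_Icc.1 (Finset.mem_coe.1 ha)).1
    have hb0 : 0 < b := (Finset.mem_Icc.1 (Finset.mem_coe.1 hb)).1
    rw [← (hg a ha0).2.2.1, ← (hg b hb0).2.2.1, hab]
  have himg : ∑ w ∈ Icc 1 N, ((((g w).1 : ℝ) ^ (7 / 4 : ℝ))⁻¹ * (((g w).2 : ℝ) ^ (3 / 2 : ℝ))⁻¹) =
      ∑ p ∈ (Icc 1 N).image g, (((p.1 : ℝ) ^ (7 / 4 : ℝ))⁻¹ * ((p.2 : ℝ) ^ (3 / 2 : ℝ))⁻¹) :=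
    (Finset.sum_image (f := fun p : ℕ × ℕ => (((p.1 : ℝ) ^ (7 / 4 : ℝ))⁻¹ * ((p.2 : ℝ) ^ (3 / 2 : ℝ))⁻¹)) hinj).symm
  rw [himg]
  have hsub : (Icc 1 N).image g ⊆ Icc 1 N ×ˢ Icc 1 N := by
    intro p hp
    obtain ⟨w, hw, rfl⟩ := Finset.mem_image.1 hp
    have hw0 : 0 < w := (Finset.mem_Icc.1 hw).1
    have hwN : w ≤ N := (Finset.mem_Icc.1 hw).2
    obtain ⟨h1, h2, h3, h4⟩ := hg w hw0
    rw [Finset.mem_product, Finset.mem_Icc, Finset.mem_Icc]
    have h5 : (g w).1 ≤ w := Nat.le_of_dvd hw0 ⟨(g w).2 ^ 2, by rw [mul_comm]; exact h3.symm⟩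
    have h6 : (g w).2 ≤ w := Nat.le_of_dvd hw0 ⟨(g w).2 * (g w).1, by rw [← mul_assoc, ← pow_two]; exact h3.symm⟩
    exact ⟨⟨h1, h5.trans hwN⟩, ⟨h2, h6.trans hwN⟩⟩
  refine (Finset.sum_le_sum_of_subset_of_nonneg hsub fun p _ _ => by positivity).trans ?_
  rw [Finset.sum_product' (f := fun a b : ℕ => (((a : ℝ) ^ (7 / 4 : ℝ))⁻¹ * ((b : ℝ) ^ (3 / 2 : ℝ))⁻¹)),
    ← Finset.sum_mul_sum]
  exact mul_le_mul (hs1.sum_le_tsum _ fun n _ => by positivity)
    (hs2.sum_le_tsum _ fun n _ => by positivity)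
    (Finset.sum_nonneg fun n _ => by positivity) (tsum_nonneg fun n => by positivity)

/-- numbers above `z` whose radical is at most `z` -/
theorem gq_small : ∃ C : ℝ, 0 ≤ C ∧ ∀ z z2 : ℕ,
    ∑ k ∈ (Ioc z z2).filter (fun k => gqRad k ≤ z), ((k : ℝ))⁻¹ ≤ C := by
  classical
  obtain ⟨C, hC0, hC⟩ := gq_wsum
  refine ⟨C, hC0, fun z z2 => ?_⟩
  set S := (Ioc z z2).filter (fun k => gqRad k ≤ z) with hS
  have hmaps : ∀ k ∈ S, k / gqRad k ∈ Icc 1 z2 := by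
    intro k hk
    rw [hS, Finset.mem_filter, Finset.mem_Ioc] at hk
    rw [Finset.mem_Icc]
    refine ⟨Nat.div_pos (Nat.le_of_dvd (by omega) (gqRad_dvd k)) (gqRad_pos k), ?_⟩
    exact (Nat.div_le_self _ _).trans hk.1.2
  rw [← Finset.sum_fiberwise_of_maps_to hmaps]
  refine le_trans (Finset.sum_le_sum fun w hw => ?_) (hC z2)
  have hw1 : 1 ≤ w := (Finset.mem_Icc.1 hw).1
  have hgp : 0 < gqRad w := gqRad_pos w
  -- each term
  have hfac : ∀ k ∈ S.filter (fun k => k / gqRad k = w),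
      k = w * (gqRad w * (gqRad k / gqRad w)) ∧ gqRad k / gqRad w ∈ Ioc (z / gqRad w / w) (z / gqRad w) := by
    intro k hk
    rw [Finset.mem_filter, hS, Finset.mem_filter, Finset.mem_Ioc] at hk
    obtain ⟨⟨⟨hk1, hk2⟩, hk3⟩, hk4⟩ := hk
    have hd : gqRad w ∣ gqRad k := by
      rw [← hk4]; exact gqRad_quot (by omega)
    have e1 : gqRad w * (gqRad k / gqRad w) = gqRad k := Nat.mul_div_cancel' hd
    have e2 : w * gqRad k = k := by
      rw [← hk4]; exact Nat.div_mul_cancel (gqRad_dvd k)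
    refine ⟨by rw [e1, e2], ?_⟩
    rw [Finset.mem_Ioc]
    refine ⟨?_, Nat.div_le_div_right hk3⟩
    rw [Nat.div_div_eq_div_mul, Nat.div_lt_iff_lt_mul (by positivity)]
    calc z < k := hk1
      _ = (gqRad k / gqRad w) * (gqRad w * w) := by
          rw [← mul_assoc, mul_comm (gqRad k / gqRad w), e1, mul_comm, e2]
  have hinj : Set.InjOn (fun k => gqRad k / gqRad w) (S.filter (fun k => k / gqRad k = w) : Finset ℕ) := by
    intro a ha b hb hab
    have h1 := (hfac a (Finset.mem_coe.1 ha)).1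
    have h2 := (hfac b (Finset.mem_coe.1 hb)).1
    simp only at hab
    rw [h1, h2, hab]
  calc ∑ k ∈ S.filter (fun k => k / gqRad k = w), ((k : ℝ))⁻¹
      = ∑ k ∈ S.filter (fun k => k / gqRad k = w),
          ((w : ℝ) * gqRad w)⁻¹ * (((gqRad k / gqRad w : ℕ) : ℝ))⁻¹ := by
        refine Finset.sum_congr rfl fun k hk => ?_
        have h1 := (hfac k hk).1
        have h2 : (k : ℝ) = w * (gqRad w * ((gqRad k / gqRad w : ℕ) : ℝ)) := by exact_mod_cast h1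
        rw [h2, mul_inv, mul_inv, mul_inv, mul_assoc]
    _ = ((w : ℝ) * gqRad w)⁻¹ * ∑ k ∈ S.filter (fun k => k / gqRad k = w),
          (((gqRad k / gqRad w : ℕ) : ℝ))⁻¹ := by rw [Finset.mul_sum]
    _ = ((w : ℝ) * gqRad w)⁻¹ * ∑ n ∈ (S.filter (fun k => k / gqRad k = w)).image
          (fun k => gqRad k / gqRad w), ((n : ℝ))⁻¹ := by
        rw [Finset.sum_image hinj]
    _ ≤ ((w : ℝ) * gqRad w)⁻¹ * ∑ n ∈ Ioc (z / gqRad w / w) (z / gqRad w), ((n : ℝ))⁻¹ := by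
        refine mul_le_mul_of_nonneg_left ?_ (by positivity)
        refine Finset.sum_le_sum_of_subset_of_nonneg ?_ fun n _ _ => by positivity
        intro n hn
        obtain ⟨k, hk, rfl⟩ := Finset.mem_image.1 hn
        exact (hfac k hk).2
    _ ≤ ((w : ℝ) * gqRad w)⁻¹ * (1 + Real.log w) :=
        mul_le_mul_of_nonneg_left (gq_harm _ w hw1) (by positivity)
    _ = (1 + Real.log w) / (w * gqRad w) := by rw [div_eq_mul_inv, mul_comm]

/-- the reciprocals of the numbers with radical `r` sum to `1/φ(r)` -/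
theorem gq_fiber {r : ℕ} (hr : Squarefree r) :
    HasSum (fun n : ℕ => if n ≠ 0 ∧ gqRad n = r then ((n : ℝ))⁻¹ else 0) (1 / (Nat.totient r : ℝ)) := by
  classical
  have hr0 : r ≠ 0 := hr.ne_zero
  have hrr : (r : ℝ) ≠ 0 := by exact_mod_cast hr0
  let f : ℕ →* ℝ :=
    { toFun := fun n => ((n : ℝ))⁻¹
      map_one' := by simp
      map_mul' := by
        intro a b
        simp [mul_comm] }
  have hf : ∀ {p : ℕ}, p.Prime → ‖f p‖ < 1 := by
    intro p hp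
    show ‖((p : ℝ))⁻¹‖ < 1
    rw [norm_inv, Real.norm_natCast]
    exact inv_lt_one_of_one_lt₀ (by exact_mod_cast hp.one_lt)
  obtain ⟨hsum, hhas⟩ :=
    EulerProduct.summable_and_hasSum_factoredNumbers_prod_filter_prime_geometric hf r.primeFactors
  have hprod : ∏ p ∈ r.primeFactors with p.Prime, (1 - f p)⁻¹ = (r : ℝ) * ((Nat.totient r : ℝ))⁻¹ := by
    have h1 : r.primeFactors.filter Nat.Prime = r.primeFactors :=
      Finset.filter_true_of_mem fun p hp => Nat.prime_of_mem_primeFactors hp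
    rw [h1, Finset.prod_inv_distrib]
    have h2 : ((Nat.totient r : ℚ) : ℝ) = (((r : ℚ) * ∏ p ∈ r.primeFactors, (1 - (p : ℚ)⁻¹) : ℚ) : ℝ) := by
      rw [Nat.totient_eq_mul_prod_factors]
    push_cast at h2
    rw [h2, mul_inv, ← mul_assoc, mul_inv_cancel₀ hrr, one_mul]
    rfl
  rw [hprod] at hhas
  have h3 := hhas.mul_left ((r : ℝ)⁻¹)
  rw [← mul_assoc, inv_mul_cancel₀ hrr, one_mul] at h3
  -- transfer to all natural numbers
  set g : Nat.factoredNumbers r.primeFactors → ℕ := fun m => r * m.1 with hg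
  have hinj : Function.Injective g := by
    intro a b hab
    apply Subtype.ext
    exact Nat.eq_of_mul_eq_mul_left (Nat.pos_of_ne_zero hr0) hab
  rw [← hinj.hasSum_iff]
  · rw [one_div]
    refine (congrArg (fun F => HasSum F ((Nat.totient r : ℝ))⁻¹) (funext fun m => ?_)).mpr h3
    have hm := (Nat.mem_factoredNumbers_iff_primeFactors_subset).1 m.2
    have hm0 : m.1 ≠ 0 := hm.1
    have hne : r * m.1 ≠ 0 := mul_ne_zero hr0 hm0
    have hrad : gqRad (r * m.1) = r := by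
      unfold gqRad
      rw [Nat.primeFactors_mul hr0 hm0, Finset.union_eq_left.2 hm.2]
      exact Nat.prod_primeFactors_of_squarefree hr
    change (if g m ≠ 0 ∧ gqRad (g m) = r then (((g m : ℕ) : ℝ))⁻¹ else 0) = (r : ℝ)⁻¹ * ((m.1 : ℕ) : ℝ)⁻¹
    rw [if_pos ⟨hne, hrad⟩, hg]
    push_cast
    rw [mul_inv]
  · intro n hn
    rw [if_neg]
    rintro ⟨h0, h1⟩
    apply hn
    have hrn : r ∣ n := h1 ▸ gqRad_dvd n
    refine ⟨⟨n / r, ?_⟩, Nat.mul_div_cancel' hrn⟩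
    rw [Nat.mem_factoredNumbers_iff_primeFactors_subset]
    refine ⟨?_, ?_⟩
    · exact (Nat.div_pos (Nat.le_of_dvd (Nat.pos_of_ne_zero h0) hrn) (Nat.pos_of_ne_zero hr0)).ne'
    · have : r.primeFactors = n.primeFactors := by rw [← h1, gqRad_primeFactors]
      rw [this]
      exact Nat.primeFactors_mono (Nat.div_dvd_of_dvd hrn) h0

/-- the reciprocals of the numbers whose radical lies in `sq Q N` sum to `G_Q(N)` -/
theorem gq_hasSum (Q N : ℕ) :
    HasSum (fun n : ℕ => if n ≠ 0 ∧ gqRad n ∈ sq Q N then ((n : ℝ))⁻¹ else 0) (GG Q N) := by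
  classical
  have h : HasSum (fun n : ℕ => ∑ r ∈ sq Q N, (if n ≠ 0 ∧ gqRad n = r then ((n : ℝ))⁻¹ else 0)) (GG Q N) := by
    unfold GG
    apply hasSum_sum
    intro r hr
    exact gq_fiber (Finset.mem_filter.1 hr).2.1
  convert h using 1
  funext n
  by_cases h0 : n = 0
  · simp [h0]
  · simp only [ne_eq, h0, not_false_eq_true, true_and]
    rw [Finset.sum_ite_eq]

/-- `∑_{n ≤ N, (n, Q) = 1} 1/n` -/
noncomputable def gqH (Q N : ℕ) : ℝ := ∑ n ∈ (Icc 1 N).filter (fun n => Nat.Coprime n Q), ((n : ℝ))⁻¹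

theorem gq_rad_mem {Q N n : ℕ} (h1 : 1 ≤ n) (hN : n ≤ N) (hc : Nat.Coprime n Q) : gqRad n ∈ sq Q N := by
  unfold sq
  rw [Finset.mem_filter, Finset.mem_Icc]
  refine ⟨⟨gqRad_pos n, (Nat.le_of_dvd h1 (gqRad_dvd n)).trans hN⟩, gqRad_squarefree n, ?_⟩
  exact Nat.Coprime.coprime_dvd_left (gqRad_dvd n) hc

theorem gq_rad_coprime {Q n : ℕ} (h0 : n ≠ 0) (hc : Nat.Coprime (gqRad n) Q) : Nat.Coprime n Q := by
  apply Nat.Coprime.symm
  rw [Nat.coprime_iff_gcd_eq_one] 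
  by_contra h
  obtain ⟨p, hp, hpd⟩ := Nat.exists_prime_and_dvd h
  have h1 : p ∣ Q := hpd.trans (Nat.gcd_dvd_left _ _)
  have h2 : p ∣ n := hpd.trans (Nat.gcd_dvd_right _ _)
  have h3 : p ∣ gqRad n := by
    unfold gqRad
    exact Finset.dvd_prod_of_mem _ (Nat.mem_primeFactors.2 ⟨hp, h2, h0⟩)
  have h4 : p ∣ 1 := by
    have := Nat.dvd_gcd h3 h1
    rwa [hc] at this
  exact hp.one_lt.ne' (Nat.dvd_one.1 h4)

theorem gq_lower (Q N : ℕ) : gqH Q N ≤ GG Q N := by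
  classical
  have h := sum_le_hasSum ((Icc 1 N).filter (fun n => Nat.Coprime n Q)) (fun n _ => by positivity) (gq_hasSum Q N)
  refine le_trans (le_of_eq ?_) h
  unfold gqH
  refine Finset.sum_congr rfl fun n hn => ?_
  rw [Finset.mem_filter, Finset.mem_Icc] at hn
  rw [if_pos ⟨by omega, gq_rad_mem hn.1.1 hn.1.2 hn.2⟩]

theorem gq_upper : ∃ C : ℝ, 0 ≤ C ∧ ∀ Q N : ℕ, GG Q N ≤ gqH Q N + C := by
  classical
  obtain ⟨C, hC0, hC⟩ := gq_small
  refine ⟨C, hC0, fun Q N => ?_⟩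
  refine hasSum_le_of_sum_le (gq_hasSum Q N) fun s => ?_
  rw [← Finset.sum_filter_add_sum_filter_not s (fun n => n ≤ N)]
  apply add_le_add
  · unfold gqH
    rw [Finset.sum_ite, Finset.sum_const_zero, add_zero]
    refine Finset.sum_le_sum_of_subset_of_nonneg ?_ fun n _ _ => by positivity
    intro n hn
    rw [Finset.mem_filter, Finset.mem_filter] at hn
    rw [Finset.mem_filter, Finset.mem_Icc]
    obtain ⟨⟨_, h2⟩, h3, h4⟩ := hn
    unfold sq at h4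
    rw [Finset.mem_filter] at h4
    exact ⟨⟨by omega, h2⟩, gq_rad_coprime h3 h4.2.2⟩
  · rw [Finset.sum_ite, Finset.sum_const_zero, add_zero]
    refine le_trans (Finset.sum_le_sum_of_subset_of_nonneg ?_ fun n _ _ => by positivity) (hC N (s.sup id))
    intro n hn
    rw [Finset.mem_filter, Finset.mem_filter] at hn
    rw [Finset.mem_filter, Finset.mem_Ioc]
    obtain ⟨⟨h1, h2⟩, h3, h4⟩ := hn
    unfold sq at h4
    rw [Finset.mem_filter, Finset.mem_Icc] at h4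
    exact ⟨⟨by omega, Finset.le_sup (f := id) h1⟩, h4.1.2⟩

/-- `∑_{d ∣ Q} μ(d)/d = φ(Q)/Q` -/
theorem gq_mu {Q : ℕ} (hQ : 1 ≤ Q) :
    ∑ d ∈ Q.divisors, (ArithmeticFunction.moebius d : ℝ) * ((d : ℝ))⁻¹ = (Nat.totient Q : ℝ) / Q := by
  have h0 : ∀ n > 0, ∑ i ∈ n.divisors, (Nat.totient i : ℝ) = ((n : ℕ) : ℝ) := by
    intro n _
    have := Nat.sum_totient n
    exact_mod_cast this
  have h1 := (ArithmeticFunction.sum_eq_iff_sum_mul_moebius_eq (R := ℝ)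
    (f := fun i => (Nat.totient i : ℝ)) (g := fun n => (n : ℝ))).1 h0 Q hQ
  have hQr : (Q : ℝ) ≠ 0 := by
    have : (0 : ℝ) < Q := by exact_mod_cast hQ
    exact this.ne'
  rw [eq_div_iff hQr, ← h1, Finset.sum_mul]
  rw [Nat.sum_divisorsAntidiagonal (f := fun a b => (ArithmeticFunction.moebius a : ℝ) * (b : ℝ))]
  refine Finset.sum_congr rfl fun d hd => ?_
  have hdQ := (Nat.mem_divisors.1 hd).1
  have hd0 : (d : ℝ) ≠ 0 := by
    have : 0 < d := Nat.pos_of_mem_divisors hd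
    have : (0 : ℝ) < d := by exact_mod_cast this
    exact this.ne'
  rw [Nat.cast_div hdQ hd0]
  field_simp

/-- the number of squarefree divisors -/
theorem gq_card {Q : ℕ} (hQ : 1 ≤ Q) : (Q.divisors.filter Squarefree).card ≤ 2 ^ Q.primeFactors.card := by
  classical
  rw [← Finset.card_powerset]
  apply Finset.card_le_card_of_injOn (fun d => d.primeFactors)
  · intro d hd
    have hd' := Finset.mem_filter.1 (Finset.mem_coe.1 hd)
    rw [Finset.mem_coe, Finset.mem_powerset]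
    exact Nat.primeFactors_mono (Nat.mem_divisors.1 hd'.1).1 (by omega)
  · intro a ha b hb hab
    have ha' := Finset.mem_filter.1 (Finset.mem_coe.1 ha)
    have hb' := Finset.mem_filter.1 (Finset.mem_coe.1 hb)
    rw [← Nat.prod_primeFactors_of_squarefree ha'.2, ← Nat.prod_primeFactors_of_squarefree hb'.2]
    simp only at hab
    rw [hab]

theorem gq_harmQ {Q d : ℕ} {x : ℝ} (hx : 1 ≤ x) (hQ : 1 ≤ Q) (hd : d ∣ Q) :
    |∑ k ∈ Icc 1 (⌊x⌋₊ / d), ((k : ℝ))⁻¹ - Real.log x| ≤ 1 + Real.log Q := by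
  have hd0 : 0 < d := Nat.pos_of_dvd_of_pos hd hQ
  have hd1 : (0 : ℝ) < d := by exact_mod_cast hd0
  have hlQ : Real.log d ≤ Real.log Q :=
    Real.log_le_log hd1 (by exact_mod_cast Nat.le_of_dvd hQ hd)
  have hx0 : 0 < x := by linarith
  have hlx := Real.log_nonneg hx
  have hld : 0 ≤ Real.log d := Real.log_nonneg (by exact_mod_cast hd0)
  set m := ⌊x⌋₊ / d with hm
  have hm' : m = ⌊x / d⌋₊ := by rw [hm, Nat.floor_div_natCast]
  have hH : ∑ k ∈ Icc 1 m, ((k : ℝ))⁻¹ = ((harmonic m : ℚ) : ℝ) := by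
    rw [harmonic_eq_sum_Icc]
    push_cast
    rfl
  have hlow := log_add_one_le_harmonic m
  have hup := harmonic_le_one_add_log m
  rw [← hH] at hlow hup
  have h1 : Real.log (x / d) ≤ Real.log ((m + 1 : ℕ) : ℝ) := by
    apply Real.log_le_log (by positivity)
    rw [hm']
    push_cast
    exact (Nat.lt_floor_add_one _).le
  rw [Real.log_div hx0.ne' hd1.ne'] at h1
  have h2 : Real.log m ≤ Real.log x := by
    rcases Nat.eq_zero_or_pos m with h0 | h0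
    · rw [h0]; simpa using hlx
    · apply Real.log_le_log (by exact_mod_cast h0)
      have : (m : ℝ) ≤ (⌊x⌋₊ : ℝ) := by exact_mod_cast Nat.div_le_self _ _
      exact this.trans (Nat.floor_le hx0.le)
  rw [abs_le]
  constructor <;> linarith

theorem gq_moebius (Q N : ℕ) (hQ : 1 ≤ Q) :
    gqH Q N = ∑ d ∈ Q.divisors, (ArithmeticFunction.moebius d : ℝ) * ((d : ℝ))⁻¹ *
      ∑ k ∈ Icc 1 (N / d), ((k : ℝ))⁻¹ := by
  classical
  have h1 : ∀ n ∈ Icc 1 N, (if Nat.Coprime n Q then ((n : ℝ))⁻¹ else 0) =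
      ∑ d ∈ Q.divisors, (if d ∣ n then (ArithmeticFunction.moebius d : ℝ) * ((n : ℝ))⁻¹ else 0) := by
    intro n hn
    have hn1 : 1 ≤ n := (Finset.mem_Icc.1 hn).1
    have h2 : ∑ d ∈ (Nat.gcd n Q).divisors, (ArithmeticFunction.moebius d : ℤ) =
        if Nat.gcd n Q = 1 then 1 else 0 := by
      rw [← ArithmeticFunction.coe_mul_zeta_apply, ArithmeticFunction.moebius_mul_coe_zeta, ArithmeticFunction.one_apply]
    have h3 : (Nat.gcd n Q).divisors = Q.divisors.filter (fun d => d ∣ n) := by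
      ext d
      rw [Nat.mem_divisors, Finset.mem_filter, Nat.mem_divisors, Nat.dvd_gcd_iff]
      constructor
      · rintro ⟨⟨a, b⟩, _⟩
        exact ⟨⟨b, by omega⟩, a⟩
      · rintro ⟨⟨b, _⟩, a⟩
        exact ⟨⟨a, b⟩, (Nat.gcd_pos_of_pos_left _ hn1).ne'⟩
    rw [← Finset.sum_filter, ← h3, ← Finset.sum_mul]
    have h4 : ∑ d ∈ (Nat.gcd n Q).divisors, (ArithmeticFunction.moebius d : ℝ) =
        if Nat.gcd n Q = 1 then 1 else 0 := by exact_mod_cast h2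
    rw [h4]
    by_cases hc : Nat.gcd n Q = 1
    · rw [if_pos hc, if_pos (show Nat.Coprime n Q from hc), one_mul]
    · rw [if_neg hc, if_neg (show ¬ Nat.Coprime n Q from hc), zero_mul]
  unfold gqH
  rw [Finset.sum_filter, Finset.sum_congr rfl h1, Finset.sum_comm]
  refine Finset.sum_congr rfl fun d hd => ?_
  have hd0 : 0 < d := Nat.pos_of_mem_divisors hd
  rw [← Finset.sum_filter, Finset.mul_sum]
  symm
  refine Finset.sum_bij (fun k _ => d * k) ?_ ?_ ?_ ?_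
  · intro k hk
    rw [Finset.mem_Icc] at hk
    rw [Finset.mem_filter, Finset.mem_Icc]
    refine ⟨⟨Nat.mul_pos hd0 hk.1, ?_⟩, Dvd.intro _ rfl⟩
    rw [mul_comm]
    exact (Nat.le_div_iff_mul_le hd0).1 hk.2
  · intro a _ b _ hab
    exact Nat.eq_of_mul_eq_mul_left hd0 hab
  · intro n hn
    rw [Finset.mem_filter, Finset.mem_Icc] at hn
    obtain ⟨k, rfl⟩ := hn.2
    refine ⟨k, ?_, rfl⟩
    rw [Finset.mem_Icc]
    refine ⟨Nat.pos_of_ne_zero ?_, (Nat.le_div_iff_mul_le hd0).2 (by rw [mul_comm]; exact hn.1.2)⟩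
    rintro rfl
    simp at hn
  · intro k _
    push_cast
    rw [mul_inv]
    ring

theorem gq_H {Q : ℕ} (hQ : 1 ≤ Q) {x : ℝ} (hx : 1 ≤ x) :
    |gqH Q ⌊x⌋₊ - (Nat.totient Q : ℝ) / Q * Real.log x| ≤ EQ Q := by
  classical
  have hlQ : 0 ≤ Real.log Q := Real.log_nonneg (by exact_mod_cast hQ)
  rw [gq_moebius Q _ hQ, ← gq_mu hQ, Finset.sum_mul, ← Finset.sum_sub_distrib]
  refine (Finset.abs_sum_le_sum_abs _ _).trans ?_
  have h1 : ∀ d ∈ Q.divisors, |(ArithmeticFunction.moebius d : ℝ) * ((d : ℝ))⁻¹ *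
      ∑ k ∈ Icc 1 (⌊x⌋₊ / d), ((k : ℝ))⁻¹ - (ArithmeticFunction.moebius d : ℝ) * ((d : ℝ))⁻¹ * Real.log x| ≤
      if Squarefree d then 1 + Real.log Q else 0 := by
    intro d hd
    have hd0 : 0 < d := Nat.pos_of_mem_divisors hd
    have hd1 : (1 : ℝ) ≤ d := by exact_mod_cast hd0
    by_cases hs : Squarefree d
    · rw [if_pos hs, ← mul_sub, abs_mul]
      have h2 := gq_harmQ hx hQ (Nat.mem_divisors.1 hd).1
      have h3 : |(ArithmeticFunction.moebius d : ℝ) * ((d : ℝ))⁻¹| ≤ 1 := by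
        rw [abs_mul]
        have h4 : |(ArithmeticFunction.moebius d : ℝ)| ≤ 1 := by
          exact_mod_cast ArithmeticFunction.abs_moebius_le_one
        have h5 : |((d : ℝ))⁻¹| ≤ 1 := by
          rw [abs_of_nonneg (by positivity)]
          exact inv_le_one_of_one_le₀ hd1
        calc _ ≤ (1 : ℝ) * 1 := mul_le_mul h4 h5 (abs_nonneg _) zero_le_one
          _ = 1 := one_mul 1
      calc _ ≤ 1 * (1 + Real.log Q) := mul_le_mul h3 h2 (abs_nonneg _) zero_le_one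
        _ = _ := one_mul _
    · rw [if_neg hs, ArithmeticFunction.moebius_eq_zero_of_not_squarefree hs]
      simp
  refine (Finset.sum_le_sum h1).trans ?_
  rw [← Finset.sum_filter, Finset.sum_const, nsmul_eq_mul]
  unfold EQ
  refine mul_le_mul_of_nonneg_right ?_ (by linarith)
  exact_mod_cast gq_card hQ

theorem gq_EQ {Q : ℕ} (hQ : 1 ≤ Q) : 1 ≤ EQ Q := by
  have hlQ : 0 ≤ Real.log Q := Real.log_nonneg (by exact_mod_cast hQ)
  have h1 : (1 : ℝ) ≤ 2 ^ Q.primeFactors.card := one_le_pow₀ (by norm_num)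
  unfold EQ
  nlinarith

theorem gq : ∃ C0 : ℝ, 1 ≤ C0 ∧ ∀ Q : ℕ, 1 ≤ Q → ∀ x : ℝ, 1 ≤ x →
    |GG Q ⌊x⌋₊ - (Nat.totient Q : ℝ) / Q * Real.log x| ≤ C0 * EQ Q := by
  obtain ⟨C, hC0, hC⟩ := gq_upper
  refine ⟨1 + C, by linarith, fun Q hQ x hx => ?_⟩
  have h1 := gq_lower Q ⌊x⌋₊
  have h2 := hC Q ⌊x⌋₊
  have h3 := gq_H hQ hx
  have h4 := gq_EQ hQ
  rw [abs_le] at h3 ⊢
  have h5 : C ≤ C * EQ Q := le_mul_of_one_le_right hC0 h4
  constructor <;> nlinarith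

end EG
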