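import Pool.Agent.H6.EG.Clu
import Pool.Agent.H6.EG.AbsJ
import Pool.Agent.H6.EG.E2

/-!
# MP_0e3417 row Hits: the hits theorem

(0) Weight: `η1 = min η (1/2)`; a smooth bump `φ` (`ContDiffBump (1 : ℝ)` with `rIn = η1/2`, `rOut = η1`) satisfies `Wt η1 φ` (`φ = 0` for `|x - 1| ≥ η1`; `∫ φ > 0`).
(1) Parameters: `r = 543/2000 < 3/11`; `δ0` from `clu`. WLOG `δ ≤ 1/4` (a smaller `δ` gives a stronger statement). Let `e0 > 0` with `4 e0 ≤ δ0`, `e0 ≤ 1/16`, `e0 ≤ r`, `e0 ≤ ε/4`, `2 (e0/r) ≤ (δ/8)²`, `κ = min ((δ/8)²/4) (1/4)`. For a natural number `m` (large) put `k = 2^(m+1)` and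
`v0 = κ/(2 M k aI)`, where `aI = 1 + m/2` (`aI_eq`, independent of `v0`; define `v0` with `1 + m/2`), so `2 (M k) aI v0 = κ`, `vv v0 m = 2^m v0 ≤ κ/(4 M aI) ≤ 1/2`. `ν = k (e0/r) aI²/bI ≥ k (e0/r) aI² (2/3) v0 = (e0/r) aI κ/(3 M)` (`bI_le`), which tends to
infinity with `m`: choose `m` with `4^(2/e0)/ν ≤ (δ/8)²`. Then the root in `clu` is at most `((δ/8)² + (δ/8)²/2 + (δ/8)²)^(1/2) ≤ δ/4`, and `r (1 - κ) ≥ r - δ/8`.
(2) Let `b = bI^(M k) > 0`, `ε' = b δ/8`: `w` from `clu`. For `Q, a` and `T` large (also `T > 0`): `clu` gives `Q', U`; let `ω_t = φ(t/T) sM²`, `#H_t` the number in question. Sum over `l`: `∑_t ω_t #H_t = ∑_l ∑_{hit_l} ω ≥ M b (r - δ/8 - δ/4 - δ/8) U = M b (r - δ/2) U`, while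
`∑ ω ≤ b (1 + δ/8) U`. Let `G` be the set of the `t ∈ rT T` with `φ(t/T) ≠ 0` and `#H_t ≥ (r - δ) M`. Then `M b (r - δ/2) U ≤ ∑_t ω_t #H_t ≤ M ∑_G ω + (r - δ) M ∑ ω ≤ M ∑_G ω + (r - δ) M b (1 + δ/8) U` (`r ≥ δ`), and `(r - δ)(1 + δ/8) ≤ r - 7 δ/8`, so
`∑_G ω ≥ b (3 δ/8) U`, and `U ≥ T ∫φ` (`clu`).
(3) `ω_t ≤ ((m+1)^(Mk) (4/v0 (1 + log T)³)^(Mk) T^e0)² ≤ T^(3 e0)` for large `T`: for `n ∈ AS`, `|∏_i Fn (sq Q' z_{n i}) (la) x| ≤ ∏_i ∑_{d ∈ sq} |la| ≤ (4/v0 (1 + log T)³)^(Mk) T^(e0 ∑ v_{n i})` (`la_abs`), at most `(m+1)^(Mk)` terms; `φ ≤ 1`.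
So `#G ≥ b (3 δ/8) c T^(1 - 3 e0) ≥ T^(1-ε)` for large `T`, and `φ(t/T) ≠ 0` gives `|t/T - 1| < η1 ≤ η`.
-/

open Finset H69LB

namespace EG

theorem Hits_bump {η : ℝ} (h0 : 0 < η) (h1 : η ≤ 1 / 2) : ∃ φ : ℝ → ℝ, Wt η φ := by
  let f : ContDiffBump (1 : ℝ) := ⟨η / 2, η, by positivity, by linarith⟩
  refine ⟨f, h0, h1, f.contDiff, ?_, fun x => f.nonneg, fun x => f.le_one, ?_⟩
  · intro x hx
    exact f.zero_of_le_dist (by rw [Real.dist_eq]; exact hx)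
  · exact f.integral_pos

theorem Hits_swap {α : Type} [Fintype α] (S : Finset ℕ) (ω : ℕ → ℝ) (R : α → ℕ → Prop) [∀ l t, Decidable (R l t)] :
    ∑ l : α, ∑ t ∈ S.filter (fun t => R l t), ω t = ∑ t ∈ S, ω t * ((univ.filter (fun l => R l t)).card : ℝ) := by
  have h1 : ∀ l : α, ∑ t ∈ S.filter (fun t => R l t), ω t = ∑ t ∈ S, if R l t then ω t else 0 := fun l =>
    Finset.sum_filter _ _
  simp only [h1]
  rw [Finset.sum_comm]
  refine Finset.sum_congr rfl fun t _ => ?_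
  rw [← Finset.sum_filter, Finset.sum_const, nsmul_eq_mul, mul_comm]

/-- the choice of the parameters -/
theorem Hits_par (M : ℕ) (hM : 1 ≤ M) {σ r e0 : ℝ} (hσ : 0 < σ) (hσ1 : σ ≤ 1 / 8) (hr : 0 < r) (hr1 : r ≤ 1) (he0 : 0 < e0)
    (he : 2 * (e0 / r) ≤ σ ^ 2) :
    ∃ (m k : ℕ) (v0 : ℝ), 1 ≤ k ∧ 0 < v0 ∧ vv v0 m ≤ 1 / 2 ∧
      r - 3 * σ ≤ r * (1 - 2 * (M * k : ℕ) * aI v0 m * v0) -
              Real.sqrt ((4 : ℝ) ^ (2 / e0) / (k * (e0 / r) * aI v0 m ^ 2 / bI v0 m) +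
                2 * (2 * (M * k : ℕ) * aI v0 m * v0) + 2 * (e0 / r)) := by
  have hM' : (1 : ℝ) ≤ M := by exact_mod_cast hM
  have hM0 : (0 : ℝ) < M := by linarith
  obtain ⟨κ, hκ⟩ : ∃ κ : ℝ, κ = σ ^ 2 / 4 := ⟨_, rfl⟩
  have hκ0 : 0 < κ := by rw [hκ]; positivity
  have hκ1 : κ ≤ 1 / 4 := by
    rw [hκ]
    nlinarith
  have hκσ : κ ≤ σ := by
    rw [hκ]
    nlinarith
  obtain ⟨B, hB⟩ : ∃ B : ℝ, B = (4 : ℝ) ^ (2 / e0) := ⟨_, rfl⟩
  have hB0 : 0 < B := by rw [hB]; positivity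
  obtain ⟨x, hx⟩ : ∃ x : ℝ, x = e0 / r := ⟨_, rfl⟩
  have hx0 : 0 < x := by rw [hx]; positivity
  obtain ⟨m, hm⟩ := exists_nat_ge (2 * (B / σ ^ 2 * (3 * M) / (x * κ)))
  obtain ⟨A, hA⟩ : ∃ A : ℝ, A = 1 + (m : ℝ) / 2 := ⟨_, rfl⟩
  have hmn : (0 : ℝ) ≤ m := Nat.cast_nonneg m
  have hA1 : 1 ≤ A := by rw [hA]; linarith
  have hA0 : 0 < A := by linarith
  have hAm : B / σ ^ 2 * (3 * M) / (x * κ) ≤ A := by rw [hA]; linarith
  obtain ⟨k, hk⟩ : ∃ k : ℕ, k = 2 ^ (m + 1) := ⟨_, rfl⟩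
  have hk1 : 1 ≤ k := by rw [hk]; exact Nat.one_le_two_pow
  have hk1' : (1 : ℝ) ≤ k := by exact_mod_cast hk1
  have hk0 : (0 : ℝ) < k := by linarith
  obtain ⟨v0, hv⟩ : ∃ v0 : ℝ, v0 = κ / (2 * M * k * A) := ⟨_, rfl⟩
  have hv0 : 0 < v0 := by rw [hv]; positivity
  have haI : aI v0 m = A := by rw [aI_eq hv0, hA]
  have hprod : 2 * ((M * k : ℕ) : ℝ) * A * v0 = κ := by
    rw [hv]
    push_cast
    field_simp
  refine ⟨m, k, v0, hk1, hv0, ?_, ?_⟩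
  · have h1 : vv v0 m = κ / (4 * M * A) := by
      unfold vv
      rw [hv, hk]
      push_cast
      rw [pow_succ]
      field_simp
      ring
    rw [h1, div_le_iff₀ (by positivity)]
    nlinarith [mul_pos hM0 hA0, mul_le_mul hM' hA1 zero_le_one hM0.le]
  · rw [haI, hprod, ← hB, ← hx]
    rw [← hx] at he
    have hb1 := bI_ge hv0 m
    have hb2 := bI_le hv0 m
    obtain ⟨b, hb⟩ : ∃ b : ℝ, b = bI v0 m := ⟨_, rfl⟩
    rw [← hb] at hb1 hb2 ⊢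
    have hb0 : 0 < b := lt_of_lt_of_le (by positivity) hb1
    have hb3 : b ≤ 3 * M * k * A / κ := by
      refine hb2.trans (le_of_eq ?_)
      rw [hv]
      field_simp
    have hν : B / σ ^ 2 ≤ k * x * A ^ 2 / b := by
      have h1 : x * A * κ / (3 * M) ≤ k * x * A ^ 2 / b := by
        rw [div_le_div_iff₀ (by positivity) hb0]
        calc x * A * κ * b ≤ x * A * κ * (3 * M * k * A / κ) := by
              apply mul_le_mul_of_nonneg_left hb3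
              positivity
          _ = k * x * A ^ 2 * (3 * M) := by
              field_simp
      have h2 : B / σ ^ 2 ≤ x * A * κ / (3 * M) := by
        rw [le_div_iff₀ (by positivity)]
        rw [div_le_iff₀ (by positivity)] at hAm
        linarith
      exact h2.trans h1
    have hν2 : B / (k * x * A ^ 2 / b) ≤ σ ^ 2 := by
      have h3 : 0 < k * x * A ^ 2 / b := by positivity
      rw [div_le_iff₀ h3]
      rw [div_le_iff₀ (by positivity)] at hν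
      linarith
    have hs : Real.sqrt (B / (k * x * A ^ 2 / b) + 2 * κ + 2 * x) ≤ 2 * σ := by
      rw [Real.sqrt_le_left (by positivity)]
      have : 2 * κ = σ ^ 2 / 2 := by rw [hκ]; ring
      rw [this]
      nlinarith [sq_nonneg σ]
    have hr2 : r * κ ≤ σ := by nlinarith
    have e : r * (1 - κ) = r - r * κ := by ring
    rw [e]
    linarith

theorem Hits_sup {η : ℝ} {φ : ℝ → ℝ} (hφ : Wt η φ) {e0 v0 : ℝ} (he0 : 0 < e0) (he1 : e0 ≤ 1) (hv0 : 0 < v0) (m K : ℕ) :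
    ∃ T1 : ℝ, 1 ≤ T1 ∧ ∀ T, T1 ≤ T → ∀ (ι : Type) [Fintype ι] [DecidableEq ι], Fintype.card ι = K → ∀ (Q : ℕ) (a b : ι → ℕ) (t : ℕ),
      φ ((t : ℝ) / T) * sM e0 v0 T m Q a b ∅ t ^ 2 ≤ T ^ (3 * e0) := by
  obtain ⟨T1, hT11, hT1⟩ := ETr_log ((((m + 1 : ℕ) : ℝ) ^ K * (4 / v0) ^ K) ^ 2) (2 * (3 * K)) he0 one_pos
  refine ⟨T1, hT11, fun T hT ι _ _ hι Q a b t => ?_⟩
  have hT1' : 1 ≤ T := hT11.trans hT
  have hT0 : 0 < T := by linarith
  have h1 := E2_sM he0 he1 hv0 hT1' m Q a b ∅ t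
  rw [hι] at h1
  have h2 : sM e0 v0 T m Q a b ∅ t ^ 2 ≤ (((m + 1 : ℕ) : ℝ) ^ K * ((4 / v0 * (1 + Real.log T) ^ 3) ^ K * T ^ e0)) ^ 2 := by
    rw [← sq_abs]
    exact pow_le_pow_left₀ (abs_nonneg _) h1 2
  have h3 : φ ((t : ℝ) / T) * sM e0 v0 T m Q a b ∅ t ^ 2 ≤ sM e0 v0 T m Q a b ∅ t ^ 2 := by
    have := mul_le_mul_of_nonneg_right (hφ.le_one ((t : ℝ) / T)) (sq_nonneg (sM e0 v0 T m Q a b ∅ t))
    linarith
  refine h3.trans (h2.trans ?_)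
  have h4 := hT1 T hT
  have e1 : T ^ (3 * e0) = T * T ^ (3 * e0 - 1) := by
    rw [← Real.rpow_one_add' hT0.le (by linarith)]
    congr 1
    ring
  have e2 : (((m + 1 : ℕ) : ℝ) ^ K * ((4 / v0 * (1 + Real.log T) ^ 3) ^ K * T ^ e0)) ^ 2 =
      (((m + 1 : ℕ) : ℝ) ^ K * (4 / v0) ^ K) ^ 2 * (1 + Real.log T) ^ (2 * (3 * K)) * T ^ (1 - e0) * T ^ (3 * e0 - 1) := by
    have e3 : (T ^ e0) ^ 2 = T ^ (1 - e0) * T ^ (3 * e0 - 1) := by
      rw [← Real.rpow_add hT0, ← Real.rpow_natCast, ← Real.rpow_mul hT0.le]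
      congr 1
      push_cast
      ring
    rw [mul_assoc _ (T ^ (1 - e0)), ← e3, mul_pow (4 / v0), ← pow_mul (1 + Real.log T) 3 K, pow_mul' (1 + Real.log T) 2 (3 * K)]
    ring
  rw [e1, e2]
  apply mul_le_mul_of_nonneg_right _ (Real.rpow_nonneg hT0.le _)
  linarith

theorem hits (M : ℕ) (hM : 1 ≤ M) {δ : ℝ} (hδ : 0 < δ) {η : ℝ} (hη : 0 < η) {ε : ℝ} (hε : 0 < ε) :
    ∃ k w : ℕ, 1 ≤ k ∧ ∀ (Q : ℕ) (a : Fin M × Fin k → ℕ), SForms Q a → Wide w Q →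
      ∃ T0 : ℝ, ∀ T, T0 ≤ T → T ^ (1 - ε) ≤ (((rT T).filter (fun t : ℕ => |(t : ℝ) - T| ≤ η * T ∧
        (543 / 2000 - δ) * M ≤
          ((univ.filter (fun l : Fin M => ∃ j : Fin k, (a (l, j) * t + 1).Prime)).card : ℝ))).card : ℝ) := by
  classical
  have hM' : (1 : ℝ) ≤ M := by exact_mod_cast hM
  have hM0 : (0 : ℝ) < M := by linarith
  obtain ⟨d, hd⟩ : ∃ d : ℝ, d = min δ (1 / 8) := ⟨_, rfl⟩
  have hd0 : 0 < d := by rw [hd]; exact lt_min hδ (by norm_num)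
  have hd1 : d ≤ 1 / 8 := by rw [hd]; exact min_le_right _ _
  have hdδ : d ≤ δ := by rw [hd]; exact min_le_left _ _
  obtain ⟨η1, hη1⟩ : ∃ η1 : ℝ, η1 = min η (1 / 2) := ⟨_, rfl⟩
  have hη10 : 0 < η1 := by rw [hη1]; exact lt_min hη (by norm_num)
  have hη11 : η1 ≤ 1 / 2 := by rw [hη1]; exact min_le_right _ _
  have hη12 : η1 ≤ η := by rw [hη1]; exact min_le_left _ _
  obtain ⟨φ, hφ⟩ := Hits_bump hη10 hη11
  obtain ⟨I, hI⟩ : ∃ I : ℝ, I = ∫ x, φ x := ⟨_, rfl⟩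
  have hI0 : 0 < I := by rw [hI]; exact hφ.int_pos
  obtain ⟨r, hrdef⟩ : ∃ r : ℝ, r = 543 / 2000 := ⟨_, rfl⟩
  have hr0 : 0 < r := by rw [hrdef]; norm_num
  have hr1 : r < 3 / 11 := by rw [hrdef]; norm_num
  obtain ⟨δ0, hδ0, hclu⟩ := clu hφ hr0 hr1
  obtain ⟨σ, hσ⟩ : ∃ σ : ℝ, σ = d / 8 := ⟨_, rfl⟩
  have hσ0 : 0 < σ := by rw [hσ]; positivity
  have hσ1 : σ ≤ 1 / 8 := by rw [hσ]; linarith
  obtain ⟨e0, he0def⟩ : ∃ e0 : ℝ, e0 = min (ε / 4) (min (δ0 / 4) (min (1 / 16) (min r (r * σ ^ 2 / 2)))) := ⟨_, rfl⟩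
  have he0 : 0 < e0 := by
    rw [he0def]
    exact lt_min (by positivity) (lt_min (by positivity) (lt_min (by norm_num) (lt_min hr0 (by positivity))))
  have heε : e0 ≤ ε / 4 := by rw [he0def]; exact min_le_left _ _
  have hem : e0 ≤ min (δ0 / 4) (min (1 / 16) (min r (r * σ ^ 2 / 2))) := by rw [he0def]; exact min_le_right _ _
  have he1 : e0 ≤ δ0 / 4 := hem.trans (min_le_left _ _)
  have he2 : e0 ≤ 1 / 16 := hem.trans ((min_le_right _ _).trans (min_le_left _ _))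
  have he3 : e0 ≤ r := hem.trans ((min_le_right _ _).trans ((min_le_right _ _).trans (min_le_left _ _)))
  have he4 : e0 ≤ r * σ ^ 2 / 2 := hem.trans ((min_le_right _ _).trans ((min_le_right _ _).trans (min_le_right _ _)))
  have he5 : 2 * (e0 / r) ≤ σ ^ 2 := by
    have : e0 / r ≤ σ ^ 2 / 2 := by
      rw [div_le_iff₀ hr0]
      linarith
    linarith
  obtain ⟨m, k, v0, hk, hv0, hvm, hpar⟩ := Hits_par M hM hσ0 hσ1 hr0 (by linarith) he0 he5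
  obtain ⟨b, hb⟩ : ∃ b : ℝ, b = bI v0 m ^ (M * k) := ⟨_, rfl⟩
  have hb0 : 0 < b := by
    rw [hb]
    exact pow_pos (lt_of_lt_of_le (by positivity) (bI_ge hv0 m)) _
  obtain ⟨w, hw⟩ := hclu e0 v0 he0 (by linarith) he2 he3 hv0 m k M hk hM hvm (b * σ) (by positivity)
  obtain ⟨T1, hT11, hsup⟩ := Hits_sup hφ he0 (by linarith) hv0 m (M * k)
  obtain ⟨T2, hT21, hgr⟩ := ETr_log 1 0 he0 (show 0 < 3 * σ * b * I by positivity)
  refine ⟨k, w, hk, fun Q a hQ hwide => ?_⟩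
  obtain ⟨T0, hT0⟩ := hw Q a hQ hwide
  refine ⟨max T0 (max T1 T2), fun T hT => ?_⟩
  have hTT1 : T1 ≤ T := (le_max_left _ _).trans ((le_max_right _ _).trans hT)
  have hTT2 : T2 ≤ T := (le_max_right _ _).trans ((le_max_right _ _).trans hT)
  have hTone : 1 ≤ T := hT11.trans hTT1
  have hTpos : 0 < T := by linarith
  obtain ⟨Q', U, hUI, hU, hZ, hH⟩ := hT0 T ((le_max_left _ _).trans hT)
  obtain ⟨ω, hω⟩ : ∃ ω : ℕ → ℝ, ω = fun t : ℕ => φ ((t : ℝ) / T) * sM e0 v0 T m Q' a (fun _ => 1) ∅ t ^ 2 := ⟨_, rfl⟩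
  have hωt : ∀ t : ℕ, φ ((t : ℝ) / T) * sM e0 v0 T m Q' a (fun _ => 1) ∅ t ^ 2 = ω t := fun t => by rw [hω]
  have hωn : ∀ t, 0 ≤ ω t := by
    intro t
    rw [← hωt]
    exact mul_nonneg (hφ.nonneg _) (sq_nonneg _)
  have hωs : ∀ t, ω t ≤ T ^ (3 * e0) := by
    intro t
    rw [← hωt]
    exact hsup T hTT1 (Fin M × Fin k) (by simp) Q' a (fun _ => 1) t
  simp only [hωt] at hZ hH
  rw [← hb] at hZ hH
  have hH' : ∀ l : Fin M, b * (r - 4 * σ) * U ≤ ∑ t ∈ (rT T).filter (fun t => ∃ j : Fin k, (a (l, j) * t + 1).Prime), ω t := by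
    intro l
    refine le_trans ?_ (hH l)
    apply mul_le_mul_of_nonneg_right _ hU.le
    have := mul_le_mul_of_nonneg_left hpar hb0.le
    linarith
  have hsum : (M : ℝ) * (b * (r - 4 * σ) * U) ≤
      ∑ t ∈ rT T, ω t * ((univ.filter (fun l : Fin M => ∃ j : Fin k, (a (l, j) * t + 1).Prime)).card : ℝ) := by
    rw [← Hits_swap (rT T) ω (fun (l : Fin M) t => ∃ j : Fin k, (a (l, j) * t + 1).Prime)]
    calc (M : ℝ) * (b * (r - 4 * σ) * U) = ∑ _l : Fin M, b * (r - 4 * σ) * U := by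
          rw [Finset.sum_const, Finset.card_univ, Fintype.card_fin, nsmul_eq_mul]
      _ ≤ _ := Finset.sum_le_sum fun l _ => hH' l
  obtain ⟨h, hh⟩ : ∃ h : ℕ → ℝ, h = fun t : ℕ =>
      ((univ.filter (fun l : Fin M => ∃ j : Fin k, (a (l, j) * t + 1).Prime)).card : ℝ) := ⟨_, rfl⟩
  have hht : ∀ t : ℕ, ((univ.filter (fun l : Fin M => ∃ j : Fin k, (a (l, j) * t + 1).Prime)).card : ℝ) = h t := fun t => by rw [hh]
  have hhM : ∀ t, h t ≤ M := by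
    intro t
    rw [← hht]
    have h1 := Finset.card_le_univ (univ.filter (fun l : Fin M => ∃ j : Fin k, (a (l, j) * t + 1).Prime))
    rw [Fintype.card_fin] at h1
    exact_mod_cast h1
  have hhn : ∀ t, 0 ≤ h t := by
    intro t
    rw [← hht]
    exact Nat.cast_nonneg _
  simp only [hht] at hsum ⊢
  have hrd : 0 ≤ (r - d) * M := by
    apply mul_nonneg _ hM0.le
    rw [hrdef]
    linarith
  obtain ⟨G, hG⟩ : ∃ G : Finset ℕ, G = (rT T).filter (fun t : ℕ => φ ((t : ℝ) / T) ≠ 0 ∧ (r - d) * M ≤ h t) := ⟨_, rfl⟩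
  have hupp : ∑ t ∈ rT T, ω t * h t ≤ M * ∑ t ∈ G, ω t + (∑ t ∈ rT T, ω t) * ((r - d) * M) := by
    rw [hG, Finset.sum_filter, Finset.mul_sum, Finset.sum_mul, ← Finset.sum_add_distrib]
    apply Finset.sum_le_sum
    intro t _
    have hn := hωn t
    by_cases h0 : φ ((t : ℝ) / T) = 0
    · have hz : ω t = 0 := by rw [← hωt, h0, zero_mul]
      rw [if_neg (fun hc => hc.1 h0), hz]
      simp
    · by_cases h1 : (r - d) * M ≤ h t
      · rw [if_pos ⟨h0, h1⟩]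
        have h2 := mul_le_mul_of_nonneg_left (hhM t) hn
        have h3 := mul_nonneg hn hrd
        linarith
      · rw [if_neg (fun hc => h1 hc.2)]
        have h2 := mul_le_mul_of_nonneg_left (not_le.1 h1).le hn
        linarith
  have h4 := mul_le_mul_of_nonneg_right hZ hrd
  have h5 : (M : ℝ) * (b * (r - 4 * σ) * U) ≤ M * ∑ t ∈ G, ω t + (b + b * σ) * U * ((r - d) * M) := by linarith
  have h6 : b * (3 * σ) * U ≤ ∑ t ∈ G, ω t := by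
    have h7 : (M : ℝ) * (b * (r - 4 * σ) * U - (b + b * σ) * U * (r - d)) ≤ M * ∑ t ∈ G, ω t := by
      calc (M : ℝ) * (b * (r - 4 * σ) * U - (b + b * σ) * U * (r - d)) =
            (M : ℝ) * (b * (r - 4 * σ) * U) - (b + b * σ) * U * ((r - d) * M) := by ring
        _ ≤ _ := by linarith
    have h8 := le_of_mul_le_mul_left h7 hM0
    refine le_trans ?_ h8
    have h9 : b * (r - 4 * σ) * U - (b + b * σ) * U * (r - d) = b * U * ((r - 4 * σ) - (1 + σ) * (r - d)) := by ring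
    have h10 : 3 * σ ≤ (r - 4 * σ) - (1 + σ) * (r - d) := by
      have h11 : d = 8 * σ := by rw [hσ]; ring
      have h12 : σ * (r - d) ≤ σ * 1 := by
        apply mul_le_mul_of_nonneg_left _ hσ0.le
        linarith
      rw [h11] at h12 ⊢
      linarith
    rw [h9]
    calc b * (3 * σ) * U = b * U * (3 * σ) := by ring
      _ ≤ _ := mul_le_mul_of_nonneg_left h10 (by positivity)
  have h7 : ∑ t ∈ G, ω t ≤ (G.card : ℝ) * T ^ (3 * e0) := by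
    refine (Finset.sum_le_sum fun t _ => hωs t).trans ?_
    rw [Finset.sum_const, nsmul_eq_mul]
  have hGs : G.card ≤ ((rT T).filter (fun t : ℕ => |(t : ℝ) - T| ≤ η * T ∧ (543 / 2000 - δ) * M ≤ h t)).card := by
    apply Finset.card_le_card
    rw [hG]
    intro t ht
    rw [Finset.mem_filter] at ht ⊢
    obtain ⟨h1, h2, h3⟩ := ht
    refine ⟨h1, ?_, ?_⟩
    · have h8 : |(t : ℝ) / T - 1| < η1 := by
        by_contra hc
        exact h2 (hφ.zero _ (not_lt.1 hc))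
      have e : (t : ℝ) - T = ((t : ℝ) / T - 1) * T := by
        field_simp
      rw [e, abs_mul, abs_of_pos hTpos]
      exact mul_le_mul_of_nonneg_right (h8.le.trans hη12) hTpos.le
    · refine le_trans ?_ h3
      apply mul_le_mul_of_nonneg_right _ hM0.le
      rw [hrdef]
      linarith
  have hGs' : (G.card : ℝ) ≤ (((rT T).filter (fun t : ℕ => |(t : ℝ) - T| ≤ η * T ∧ (543 / 2000 - δ) * M ≤ h t)).card : ℝ) := by
    exact_mod_cast hGs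
  refine le_trans ?_ hGs'
  have hT3 : 0 < T ^ (3 * e0) := Real.rpow_pos_of_pos hTpos _
  have h8 : 3 * σ * b * I * T ≤ (G.card : ℝ) * T ^ (3 * e0) := by
    rw [← hI] at hUI
    have h9 : b * (3 * σ) * (T * I) ≤ b * (3 * σ) * U := mul_le_mul_of_nonneg_left hUI (by positivity)
    calc 3 * σ * b * I * T = b * (3 * σ) * (T * I) := by ring
      _ ≤ _ := by linarith
  have h9 := hgr T hTT2
  rw [pow_zero, one_mul, one_mul] at h9
  have h10 : T ^ (1 - e0) ≤ (G.card : ℝ) * T ^ (3 * e0) := by linarith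
  have h11 : T ^ (1 - ε) * T ^ (3 * e0) ≤ T ^ (1 - e0) := by
    rw [← Real.rpow_add hTpos]
    apply Real.rpow_le_rpow_of_exponent_le hTone
    linarith
  exact le_of_mul_le_mul_right (h11.trans h10) hT3

end EG
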