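import Pool.Agent.H6.EG.Defs

/-!
# MP_0e3417 row Red: reduction to consecutive integers with large prime factors

Proof of `red`. Let `K0, N0` be given, `S` in the set, `N = max S`. We show `N < N1 := max N0 (K0! ^ 3 + K0 + 4)`, so `S ⊆ range N1` and
the set is finite. Suppose `N ≥ N1`.
(1) A prime `p` with `N < K0 p` divides no element of `S`. Let `A = {x ∈ S : p ∣ x}` and suppose it is not empty; `x = p m` with
`m ≤ N/p < K0`, so `m ∣ (K0)!`. Multiply `∑_{x ∈ S} 1/x = 1` by `p (K0)! ∏_{x ∈ S \ A} x`: the left side is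
`(∏_{S \ A} x) ∑_{x ∈ A} (K0)!/m + p (K0)! ∑_{x ∈ S \ A} ∏_{y ≠ x} y`, the right side is divisible by `p`; hence `p` divides
`(∏_{S \ A} x) ∑_{x ∈ A} (K0)!/m`, so `p` divides `c = ∑_{x ∈ A} (K0)!/m` (`p` prime, divides no `x ∈ S \ A`). But `0 < c ≤ K0 (K0)!`
(different `x` have different `m < K0`) and `p > N/K0 ≥ K0 (K0)!`. (If you prefer p-adic valuations: fine.)
(2) `x1 = min S ≥ 2`: if `1 ∈ S` then the sum is `> 1` (card ≥ 2). `1 ≤ ∑_{n=x1}^{N} 1/n ≤ log (N/(x1-1))` (from `1/n ≤ log n - log (n-1)`),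
so `(x1 - 1) e ≤ N`, `x1 ≤ N/e + 1 ≤ n`.
(3) Take `n, p, p'` from the hypothesis. By (1) `n ∉ S` and `n+1 ∉ S`; `x1 ≤ n`, so `x1 < n`; `n + 1 ≤ N`, so `n + 1 < N` (`N ∈ S`). Let `x` be the
largest element of `S` below `n` (exists, `x1`). By the gap property (with `y = N`) there is `z ∈ S`, `x < z ≤ x + 2`. By maximality `z ≥ n`, so
`z ≥ n + 2 > x + 2`. Contradiction.
-/

open Finset H69LB

namespace EG

theorem Red_log (a : ℕ) (ha : 1 ≤ a) (N : ℕ) (hN : a ≤ N) :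
    (∑ n ∈ Ioc a N, (1 : ℝ) / (n : ℝ)) ≤ Real.log N - Real.log a := by
  induction N, hN using Nat.le_induction with
  | base => simp
  | succ N hN ih =>
    rw [Finset.sum_Ioc_succ_top (by omega)]
    have hN0 : (0 : ℝ) < N := by exact_mod_cast (by omega : 0 < N)
    have h1 := Real.one_sub_inv_le_log_of_pos (x := ((N : ℝ) + 1) / N) (by positivity)
    rw [Real.log_div (by positivity) (by positivity)] at h1
    have h2 : 1 - (((N : ℝ) + 1) / N)⁻¹ = 1 / ((N : ℝ) + 1) := by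
      field_simp
      ring
    rw [h2] at h1
    push_cast
    linarith

/-- a large prime divides no element -/
theorem Red_prime (S : Finset ℕ) (hpos : ∀ x ∈ S, 0 < x)
    (hsum : (∑ x ∈ S, (1 : ℚ) / (x : ℚ)) = 1) (K0 N p : ℕ) (hp : p.Prime)
    (hN : ∀ x ∈ S, x ≤ N) (hNp : N < K0 * p) (hbig : K0.factorial ^ 3 ≤ N) :
    ∀ x ∈ S, ¬ p ∣ x := by
  classical
  intro x0 hx0 hpx0
  have hK0 : 0 < K0 := by
    rcases Nat.eq_zero_or_pos K0 with h | h
    · rw [h] at hNp; omega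
    · exact h
  set K := K0.factorial with hK
  have hKpos : 0 < K := Nat.factorial_pos _
  have hK0K : K0 ≤ K := Nat.self_le_factorial _
  have hpp := hp.pos
  set A := S.filter (fun x => p ∣ x) with hA
  set B := S.filter (fun x => ¬ p ∣ x) with hB
  have hsplit : (∑ x ∈ A, (1 : ℚ) / (x : ℚ)) + ∑ x ∈ B, (1 : ℚ) / (x : ℚ) = 1 := by
    rw [hA, hB, Finset.sum_filter_add_sum_filter_not]
    exact hsum
  have hAm : ∀ x ∈ A, x = p * (x / p) ∧ 0 < x / p ∧ x / p < K0 ∧ x / p ∣ K := by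
    intro x hx
    rw [hA, Finset.mem_filter] at hx
    have h1 : p * (x / p) = x := Nat.mul_div_cancel' hx.2
    have h2 : 0 < x / p := Nat.div_pos (Nat.le_of_dvd (hpos x hx.1) hx.2) hpp
    have h3 : x / p < K0 := by
      rw [Nat.div_lt_iff_lt_mul hpp]
      exact lt_of_le_of_lt (hN x hx.1) hNp
    exact ⟨h1.symm, h2, h3, Nat.dvd_factorial h2 h3.le⟩
  set c := ∑ x ∈ A, K / (x / p) with hc
  set P := ∏ x ∈ B, x with hP
  set b := ∑ x ∈ B, P / x with hb
  have hPpos : 0 < P := Finset.prod_pos fun x hx => hpos x (Finset.mem_of_mem_filter x hx)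
  have hcA : (∑ x ∈ A, (1 : ℚ) / (x : ℚ)) = (c : ℚ) / ((p : ℚ) * K) := by
    rw [hc, Nat.cast_sum, Finset.sum_div]
    refine Finset.sum_congr rfl fun x hx => ?_
    obtain ⟨h1, h2, h3, h4⟩ := hAm x hx
    have h5 : ((K / (x / p) : ℕ) : ℚ) = (K : ℚ) / ((x / p : ℕ) : ℚ) :=
      Nat.cast_div h4 (by exact_mod_cast h2.ne')
    have h6 : (x : ℚ) = (p : ℚ) * ((x / p : ℕ) : ℚ) := by exact_mod_cast h1
    have h7 : ((x / p : ℕ) : ℚ) ≠ 0 := by exact_mod_cast h2.ne'
    have h8 : (p : ℚ) ≠ 0 := by exact_mod_cast hpp.ne'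
    have h9 : (K : ℚ) ≠ 0 := by exact_mod_cast hKpos.ne'
    rw [h5, h6]
    field_simp
  have hbB : (∑ x ∈ B, (1 : ℚ) / (x : ℚ)) = (b : ℚ) / P := by
    rw [hb, Nat.cast_sum, Finset.sum_div]
    refine Finset.sum_congr rfl fun x hx => ?_
    have h2 : 0 < x := hpos x (Finset.mem_of_mem_filter x hx)
    have h4 : x ∣ P := Finset.dvd_prod_of_mem _ hx
    have h5 : ((P / x : ℕ) : ℚ) = (P : ℚ) / (x : ℚ) := Nat.cast_div h4 (by exact_mod_cast h2.ne')
    have h7 : (x : ℚ) ≠ 0 := by exact_mod_cast h2.ne'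
    have h8 : (P : ℚ) ≠ 0 := by exact_mod_cast hPpos.ne'
    rw [h5]
    field_simp
  rw [hcA, hbB] at hsplit
  have h8 : (p : ℚ) ≠ 0 := by exact_mod_cast hpp.ne'
  have h9 : (K : ℚ) ≠ 0 := by exact_mod_cast hKpos.ne'
  have h10 : (P : ℚ) ≠ 0 := by exact_mod_cast hPpos.ne'
  have h11 : (c : ℚ) * P + b * (p * K) = p * K * P := by
    field_simp at hsplit
    linear_combination hsplit
  have h12 : c * P + b * (p * K) = p * K * P := by exact_mod_cast h11
  have h13 : p ∣ c * P := by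
    have h14 : p ∣ b * (p * K) := ⟨b * K, by ring⟩
    have h15 : p ∣ c * P + b * (p * K) := by
      rw [h12]
      exact ⟨K * P, by ring⟩
    exact (Nat.dvd_add_left h14).mp h15
  have h14 : ¬ p ∣ P := by
    intro h15
    obtain ⟨y, hy, hpy⟩ := (Prime.dvd_finsetProd_iff hp.prime _).mp h15
    rw [hB, Finset.mem_filter] at hy
    exact hy.2 hpy
  have h15 : p ∣ c := ((hp.dvd_mul).mp h13).resolve_right h14
  have hx0A : x0 ∈ A := by
    rw [hA, Finset.mem_filter]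
    exact ⟨hx0, hpx0⟩
  have hcpos : 0 < c := by
    refine Finset.sum_pos (fun x hx => ?_) ⟨x0, hx0A⟩
    obtain ⟨h1, h2, h3, h4⟩ := hAm x hx
    exact Nat.div_pos (Nat.le_of_dvd hKpos h4) h2
  have hcard : A.card ≤ K0 := by
    have h16 : A.card ≤ (Finset.range K0).card := by
      refine Finset.card_le_card_of_injOn (fun x => x / p) ?_ ?_
      · intro x hx
        exact Finset.mem_coe.mpr (Finset.mem_range.mpr (hAm x hx).2.2.1)
      · intro x hx y hy hxy
        simp only at hxy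
        rw [(hAm x hx).1, (hAm y hy).1, hxy]
    rwa [Finset.card_range] at h16
  have hcle : c ≤ K0 * K := by
    calc c ≤ ∑ _x ∈ A, K := Finset.sum_le_sum fun x _ => Nat.div_le_self _ _
      _ = A.card * K := by rw [Finset.sum_const, smul_eq_mul]
      _ ≤ K0 * K := Nat.mul_le_mul_right _ hcard
  have hple : p ≤ K0 * K := (Nat.le_of_dvd hcpos h15).trans hcle
  have h17 : K0 * p ≤ K ^ 3 := by
    calc K0 * p ≤ K0 * (K0 * K) := Nat.mul_le_mul_left _ hple
      _ ≤ K * (K * K) := Nat.mul_le_mul hK0K (Nat.mul_le_mul_right _ hK0K)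
      _ = K ^ 3 := by ring
  omega

theorem red
    (h : ∃ K0 N0 : ℕ, ∀ N : ℕ, N0 ≤ N → ∃ n p p' : ℕ, (N : ℝ) / Real.exp 1 + 1 ≤ n ∧ n + 1 ≤ N ∧
      p.Prime ∧ p'.Prime ∧ p ∣ n ∧ p' ∣ n + 1 ∧ N < K0 * p ∧ N < K0 * p') :
    Set.Finite {S : Finset ℕ |
        2 ≤ S.card ∧ (∀ x ∈ S, 0 < x) ∧ (∑ x ∈ S, (1 : ℚ) / (x : ℚ)) = 1 ∧
        ∀ x ∈ S, ∀ y ∈ S, x < y → ∃ z ∈ S, x < z ∧ z ≤ x + 2} := by
  classical
  obtain ⟨K0, N0, h⟩ := h
  set N1 := max N0 (K0.factorial ^ 3) with hN1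
  refine Set.Finite.subset (Finset.finite_toSet (Finset.range (N1 + 1)).powerset) ?_
  rintro S ⟨hcard, hpos, hsum, hgap⟩
  rw [Finset.mem_coe, Finset.mem_powerset]
  have hne : S.Nonempty := Finset.card_pos.mp (by omega)
  set N := S.max' hne with hNdef
  have hNS : N ∈ S := S.max'_mem hne
  have hle : ∀ x ∈ S, x ≤ N := fun x hx => S.le_max' x hx
  by_contra hcon
  have hNbig : N1 ≤ N := by
    by_contra hlt
    refine hcon fun x hx => ?_
    rw [Finset.mem_range]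
    have := hle x hx
    omega
  have hN0N : N0 ≤ N := (le_max_left _ _).trans hNbig
  have hKN : K0.factorial ^ 3 ≤ N := (le_max_right _ _).trans hNbig
  obtain ⟨n, p, p', hn1, hn2, hp, hp', hpn, hpn', hNp, hNp'⟩ := h N hN0N
  have hnS : n ∉ S := fun hn => Red_prime S hpos hsum K0 N p hp hle hNp hKN n hn hpn
  have hnS' : n + 1 ∉ S := fun hn => Red_prime S hpos hsum K0 N p' hp' hle hNp' hKN (n + 1) hn hpn'
  -- the least element
  set x1 := S.min' hne with hx1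
  have hx1S : x1 ∈ S := S.min'_mem hne
  have hx1le : ∀ x ∈ S, x1 ≤ x := fun x hx => S.min'_le x hx
  have hx1pos := hpos x1 hx1S
  have hx12 : 2 ≤ x1 := by
    by_contra hlt
    have h1 : x1 = 1 := by omega
    obtain ⟨a, ha, b, hb, hab⟩ := Finset.one_lt_card.mp (by omega : 1 < S.card)
    have h2 : ∃ y ∈ S, y ≠ x1 := by
      by_cases h3 : a = x1
      · exact ⟨b, hb, fun h4 => hab (h3.trans h4.symm)⟩
      · exact ⟨a, ha, h3⟩
    obtain ⟨y, hy, hyx⟩ := h2
    have h3 : (∑ x ∈ ({x1, y} : Finset ℕ), (1 : ℚ) / (x : ℚ)) ≤ ∑ x ∈ S, (1 : ℚ) / (x : ℚ) := by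
      refine Finset.sum_le_sum_of_subset_of_nonneg ?_ fun _ _ _ => by positivity
      intro z hz
      rw [Finset.mem_insert, Finset.mem_singleton] at hz
      rcases hz with rfl | rfl
      · exact hx1S
      · exact hy
    rw [Finset.sum_pair hyx.symm, hsum, h1] at h3
    norm_num at h3
    have := hpos y hy
    omega
  have hlog : (1 : ℝ) ≤ Real.log N - Real.log ((x1 - 1 : ℕ) : ℝ) := by
    have h1 : ((∑ x ∈ S, (1 : ℚ) / (x : ℚ) : ℚ) : ℝ) = 1 := by rw [hsum]; norm_num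
    rw [Rat.cast_sum] at h1
    have h2 : (∑ x ∈ S, (((1 : ℚ) / (x : ℚ) : ℚ) : ℝ)) = ∑ x ∈ S, (1 : ℝ) / (x : ℝ) := by
      refine Finset.sum_congr rfl fun x _ => ?_
      push_cast
      rfl
    rw [h2] at h1
    rw [← h1]
    refine le_trans ?_ (Red_log (x1 - 1) (by omega) N (by have := hle x1 hx1S; omega))
    refine Finset.sum_le_sum_of_subset_of_nonneg ?_ fun _ _ _ => by positivity
    intro x hx
    rw [Finset.mem_Ioc]
    have := hle x hx
    have := hx1le x hx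
    omega
  have hx1n : x1 ≤ n := by
    have hNpos : (0 : ℝ) < N := by
      have := hpos N hNS
      exact_mod_cast this
    have hapos : (0 : ℝ) < ((x1 - 1 : ℕ) : ℝ) := by
      exact_mod_cast (by omega : 0 < x1 - 1)
    have h1 : Real.exp 1 ≤ (N : ℝ) / ((x1 - 1 : ℕ) : ℝ) := by
      rw [← Real.log_div hNpos.ne' hapos.ne'] at hlog
      have h2 := Real.exp_le_exp.mpr hlog
      rwa [Real.exp_log (by positivity)] at h2
    have h2 : ((x1 - 1 : ℕ) : ℝ) ≤ (N : ℝ) / Real.exp 1 := by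
      rw [le_div_iff₀ hapos] at h1
      rw [le_div_iff₀ (Real.exp_pos 1)]
      linarith
    have h3 : ((x1 - 1 : ℕ) : ℝ) = (x1 : ℝ) - 1 := by
      rw [Nat.cast_sub (by omega)]
      norm_num
    rw [h3] at h2
    have h4 : (x1 : ℝ) ≤ (n : ℝ) := by linarith
    exact_mod_cast h4
  have hx1lt : x1 < n := lt_of_le_of_ne hx1n fun h1 => hnS (h1 ▸ hx1S)
  -- the largest element below `n`
  have hne2 : (S.filter (· < n)).Nonempty := ⟨x1, Finset.mem_filter.mpr ⟨hx1S, hx1lt⟩⟩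
  set x := (S.filter (· < n)).max' hne2 with hx
  have hxS := (S.filter (· < n)).max'_mem hne2
  rw [← hx, Finset.mem_filter] at hxS
  obtain ⟨z, hzS, hz1, hz2⟩ := hgap x hxS.1 N hNS (by omega)
  have hzn : n ≤ z := by
    by_contra hlt
    have h1 := (S.filter (· < n)).le_max' z (Finset.mem_filter.mpr ⟨hzS, by omega⟩)
    rw [← hx] at h1
    omega
  have hz3 : z ≠ n := fun h1 => hnS (h1 ▸ hzS)
  have hz4 : z ≠ n + 1 := fun h1 => hnS' (h1 ▸ hzS)
  omega

end EG
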