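import Pool.Agent.H6.EG.Defs

/-!
# MP_0e3417 row Win: sets without differences in `[J1, J2]`

Proof. For an integer `s` let `W_s = {x : s ≤ x < s + J1 + J2}` (use `x + J1 + J2 - s` or work in `ℤ`). CLAIM `|H ∩ W_s| ≤ J1`. Let `a = min (H ∩ W_s)` (empty: trivial). No element of `H`
lies in `[a+J1, a+J2]`. So `H ∩ W_s ⊆ F ∪ S`, `F = H ∩ [a, a+J1)`, `S = H ∩ (a+J2, s+J1+J2)`. If `S` is empty: `|F| ≤ J1`. Otherwise `b = min S`,
`b > a + J2 ≥ a + 2 J1`; an element `x ∈ F` has `x < a + J1 ≤ b - J1`, so `b - x > J1`, so by hypothesis `b - x > J2`, `x < b - J2`: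
`|F| ≤ b - J2 - a`; and `|S| ≤ s + J1 + J2 - b`. Sum `≤ s + J1 - a ≤ J1`.
Sum the claim over the `M + J1 + J2 - 1` integers `s` from `-(J1+J2)+1` to `M - 1`: every `h ∈ H ⊆ [0, M)` is in exactly `J1 + J2` of the `W_s`.
(Shift by `J1 + J2` to stay in `ℕ`.)
-/

open Finset


open Finset

namespace EG

theorem Win_one {J1 J2 t : ℕ} (h1 : 1 ≤ J1) (h2 : 2 * J1 ≤ J2) {H : Finset ℕ}
    (hd : ∀ x ∈ H, ∀ y ∈ H, J1 ≤ y - x → J2 < y - x) :
    (H.filter (fun x => x ≤ t ∧ t < x + (J1 + J2))).card ≤ J1 := by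
  set W := H.filter (fun x => x ≤ t ∧ t < x + (J1 + J2)) with hW
  have hmem : ∀ x, x ∈ W → x ∈ H ∧ x ≤ t ∧ t < x + (J1 + J2) := fun x hx => by
    rw [hW, mem_filter] at hx
    exact hx
  rcases W.eq_empty_or_nonempty with he | hne
  · rw [he]; simp
  · obtain ⟨a, ha, hamin⟩ : ∃ a ∈ W, ∀ x ∈ W, a ≤ x := ⟨W.min' hne, W.min'_mem hne, fun x hx => W.min'_le x hx⟩
    obtain ⟨haH, hat, hta⟩ := hmem a ha
    set S := W.filter (fun x => a + J1 ≤ x) with hS
    rcases S.eq_empty_or_nonempty with hse | hsne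
    · have hsub : W ⊆ Ico a (a + J1) := by
        intro x hx
        rw [mem_Ico]
        refine ⟨hamin x hx, ?_⟩
        by_contra hc
        have : x ∈ S := by
          rw [hS, mem_filter]
          exact ⟨hx, by omega⟩
        rw [hse] at this
        simp at this
      have := card_le_card hsub
      rw [Nat.card_Ico] at this
      omega
    · obtain ⟨b, hb, hbmin⟩ : ∃ b ∈ S, ∀ x ∈ S, b ≤ x := ⟨S.min' hsne, S.min'_mem hsne, fun x hx => S.min'_le x hx⟩
      rw [hS, mem_filter] at hb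
      obtain ⟨hbW, hab⟩ := hb
      obtain ⟨hbH, hbt, htb⟩ := hmem b hbW
      have hba := hd a haH b hbH (by omega)
      have hsub : W ⊆ Ico a (b - J2) ∪ Icc b t := by
        intro x hx
        obtain ⟨hxH, hxt, htx⟩ := hmem x hx
        rw [mem_union, mem_Ico, mem_Icc]
        rcases lt_or_ge x (a + J1) with hlt | hge
        · left
          refine ⟨hamin x hx, ?_⟩
          have := hd x hxH b hbH (by omega)
          omega
        · right
          exact ⟨hbmin x (by rw [hS, mem_filter]; exact ⟨hx, hge⟩), hxt⟩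
      have h3 := card_le_card hsub
      have h4 := card_union_le (Ico a (b - J2)) (Icc b t)
      rw [Nat.card_Ico, Nat.card_Icc] at h4
      omega

theorem win {M J1 J2 : ℕ} (h1 : 1 ≤ J1) (h2 : 2 * J1 ≤ J2) {H : Finset ℕ} (hH : H ⊆ range M)
    (hd : ∀ x ∈ H, ∀ y ∈ H, J1 ≤ y - x → J2 < y - x) :
    H.card * (J1 + J2) ≤ J1 * (M + J1 + J2) := by
  have key : ∑ t ∈ range (M + J1 + J2), (H.filter (fun x => x ≤ t ∧ t < x + (J1 + J2))).card =
      H.card * (J1 + J2) := by
    have e1 : ∀ t, (H.filter (fun x => x ≤ t ∧ t < x + (J1 + J2))).card =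
        ∑ x ∈ H, if x ≤ t ∧ t < x + (J1 + J2) then 1 else 0 := fun t => by
      rw [card_filter]
    rw [sum_congr rfl (fun t _ => e1 t), sum_comm]
    have e2 : ∀ x ∈ H, (∑ t ∈ range (M + J1 + J2), if x ≤ t ∧ t < x + (J1 + J2) then 1 else 0) = J1 + J2 := by
      intro x hx
      have hxM := mem_range.mp (hH hx)
      rw [← card_filter]
      have e3 : (range (M + J1 + J2)).filter (fun t => x ≤ t ∧ t < x + (J1 + J2)) = Ico x (x + (J1 + J2)) := by
        ext t
        rw [mem_filter, mem_range, mem_Ico]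
        constructor
        · exact fun h => h.2
        · intro h
          exact ⟨by omega, h⟩
      rw [e3, Nat.card_Ico]
      omega
    rw [sum_congr rfl e2, sum_const, smul_eq_mul]
  rw [← key]
  have h3 : ∑ t ∈ range (M + J1 + J2), (H.filter (fun x => x ≤ t ∧ t < x + (J1 + J2))).card ≤
      ∑ t ∈ range (M + J1 + J2), J1 := sum_le_sum fun t _ => Win_one h1 h2 hd
  rw [sum_const, card_range, smul_eq_mul, mul_comm] at h3
  exact h3

end EG
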