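import Pool.Agent.H6.EG.Hits
import Pool.Agent.H6.EG.CfgC
import Pool.Agent.H6.EG.FormQ
import Pool.Agent.H6.EG.Win
import Pool.Agent.H6.EG.Red

/-!
# MP_0e3417 row Last: from the hits theorem to consecutive integers with large prime factors

Proof. Let `J1 = 1001`, `J2 = 2717`, `M = 10^8`, `δ = 10^(-4)`, `η = 10^(-4)`. `hits` gives `k, w`; `cfg M k η` gives `G, c`; `formQ c w` gives `Q, a`; `hits` for these
(with `η`) gives `T0`. Let `Cm = max c` (`sup`), `K0 = 2 Cm + 1`... Let `N` be large and `T = 1000 G N / Q ≥ T0`; `t` with `|t - T| ≤ η T` and `H = {l : hit}`,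
`|H| ≥ (543/2000 - δ) M = .2714 M`. Since `1001/3718 (1 + 3718/M) = .26923.. < .2714`, `win` (for the image of `H` in `range M`) gives `l, l' ∈ H` with
`1001 ≤ l - l' ≤ 2717`. Let `i = (l, j)`, `i' = (l', j')` be the indices of the primes `p = a i * t + 1`, `p' = a i' * t + 1`, `g = c i - c i'`, `g ∣ c i`, `g ∣ c i'`.
Put `n = (c i'/g) p'`. Then `g n = c i' p' = Q t + c i'` and `g ((c i/g) p) = Q t + c i = g n + g`, so `n + 1 = (c i/g) p`. `p' ∣ n`, `p ∣ n + 1`.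
Location: `Q t = 1000 G N (1 + θ)`, `|θ| ≤ η`; `g = (l - l') G + y`, `|y| ≤ η G`.
`g (n + 1) = Q t + c i ≤ 1000 G N (1 + 10^(-4)) + Cm`, `g N ≥ (1001 - 10^(-4)) G N`; `1000.1 G N + Cm ≤ 1000.9 G N` for large `N`: `n + 1 ≤ N`.
`g n ≥ Q t ≥ 1000 (1 - 10^(-4)) G N = 999.9 G N` and `g (N/e + 1) ≤ (2717 + 10^(-4)) G (N/e + 1)`; `2717.0001/e ≤ 999.53 < 999.9` since `e > 2.7182818`
(`Real.exp_one_gt_d9`): so `N/e + 1 ≤ n` for large `N`.
Size: `p ≥ (n + 1) g / c i ≥ n/Cm`, so `N ≤ e n ≤ 3 Cm p`: take `K0 = 3 Cm + 1` (similarly for `p'`).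
-/

open Finset H69LB

namespace EG

/-- the final estimates -/
theorem last_est {N G Cm n Qt ci ci' g d T t Q : ℝ} (hG : 1 ≤ G) (hN1 : 2 * Cm ≤ N) (hN2 : 10000 ≤ N)
    (hQ : 1 ≤ Q) (hT : T = 1000 * G * N / Q) (ht : |t - T| ≤ 1 / 10000 * T) (hQt : Qt = Q * t)
    (hci : ci ≤ Cm) (hci0 : 0 ≤ ci') (hcig : ci = ci' + g) (hd1 : 1001 ≤ d) (hd2 : d ≤ 2717)
    (hg : |g - d * G| ≤ 1 / 10000 * G) (hn : g * n = Qt + ci') :
    N / Real.exp 1 + 1 ≤ n ∧ n + 1 ≤ N := by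
  have hQ0 : 0 < Q := by linarith
  have hG0 : 0 < G := by linarith
  have hN0 : 0 < N := by linarith
  have h1 : Q * T = 1000 * G * N := by rw [hT]; field_simp
  have h2 := abs_le.1 ht
  have h3 := abs_le.1 hg
  have hGN : N ≤ G * N := by nlinarith
  have h4 : Q * t ≤ 1000.1 * (G * N) := by
    have : Q * t ≤ Q * (T + 1 / 10000 * T) := mul_le_mul_of_nonneg_left (by linarith) hQ0.le
    nlinarith
  have h5 : 999.9 * (G * N) ≤ Q * t := by
    have : Q * (T - 1 / 10000 * T) ≤ Q * t := mul_le_mul_of_nonneg_left (by linarith) hQ0.le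
    nlinarith
  have hdG1 : 1001 * G ≤ d * G := mul_le_mul_of_nonneg_right hd1 hG0.le
  have hdG2 : d * G ≤ 2717 * G := mul_le_mul_of_nonneg_right hd2 hG0.le
  have hg1 : 1000.9999 * G ≤ g := by linarith
  have hg2 : g ≤ 2717.0001 * G := by linarith
  have hg0 : 0 < g := by linarith
  constructor
  · by_contra hcon
    push Not at hcon
    have e1 := Real.exp_one_gt_d9
    have e0 : 0 < Real.exp 1 := Real.exp_pos 1
    obtain ⟨s, hs⟩ : ∃ s : ℝ, s = N / Real.exp 1 := ⟨_, rfl⟩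
    have hsN : s * Real.exp 1 = N := by rw [hs]; field_simp
    have hs0 : 0 < s := by rw [hs]; positivity
    rw [← hs] at hcon
    have e2 : s * 2.7182818 ≤ N := by
      rw [← hsN]
      exact mul_le_mul_of_nonneg_left (by linarith) hs0.le
    have e3 : g * n < g * (s + 1) := mul_lt_mul_of_pos_left hcon hg0
    have e4 : g * (s + 1) ≤ 2717.0001 * G * (s + 1) :=
      mul_le_mul_of_nonneg_right hg2 (by linarith)
    have e5 : 2717.0001 * (s + 1) ≤ 999.9 * N := by linarith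
    have e6 : G * (2717.0001 * (s + 1)) ≤ G * (999.9 * N) := mul_le_mul_of_nonneg_left e5 hG0.le
    linarith
  · have e1 : g * (n + 1) ≤ g * N := by
      have e2 : 1000.9999 * G * N ≤ g * N := mul_le_mul_of_nonneg_right hg1 hN0.le
      have e3 : g * (n + 1) = Qt + ci := by rw [hcig]; linarith
      rw [e3]
      linarith
    exact le_of_mul_le_mul_left e1 hg0

/-- for one good `t` -/
theorem last_core {M k : ℕ} (hM : M = 100000000) {G Q Cm N : ℕ} {c a : Fin M × Fin k → ℕ} {T : ℝ} {t : ℕ}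
    (hG1 : (1 : ℝ) ≤ (G : ℝ)) (hQ1 : (1 : ℝ) ≤ (Q : ℝ)) (hN2 : (10000 : ℝ) ≤ (N : ℝ)) (hN1 : 2 * (Cm : ℝ) ≤ (N : ℝ))
    (hTdef : T = 1000 * (G : ℝ) * N / Q) (ht : |(t : ℝ) - T| ≤ 1 / 10000 * T)
    (hc1 : ∀ i, 1 ≤ c i) (hcfg : ∀ i i' : Fin M × Fin k, i'.1 < i.1 → c i' < c i ∧ (c i - c i') ∣ c i ∧
        |((c i : ℝ) - c i') - (((i.1 : ℕ) : ℝ) - ((i'.1 : ℕ) : ℝ)) * G| ≤ 1 / 10000 * G)
    (hca : ∀ i, c i * a i = Q) (hCm : ∀ i, c i ≤ Cm)
    (hcard : (543 / 2000 - 1 / 10000) * (M : ℝ) ≤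
          ((univ.filter (fun l : Fin M => ∃ j : Fin k, (a (l, j) * t + 1).Prime)).card : ℝ)) :
    ∃ i i' : Fin M × Fin k, 1 ≤ c i' / (c i - c i') ∧
      (N : ℝ) / Real.exp 1 + 1 ≤ ((c i' / (c i - c i') * (a i' * t + 1) : ℕ) : ℝ) ∧
      c i' / (c i - c i') * (a i' * t + 1) + 1 ≤ N ∧ ∃ p p' : ℕ,
      p.Prime ∧ p'.Prime ∧ p ∣ c i' / (c i - c i') * (a i' * t + 1) ∧ p' ∣ c i' / (c i - c i') * (a i' * t + 1) + 1 ∧
      N < (3 * Cm + 1) * p ∧ N < (3 * Cm + 1) * p' := by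
  obtain ⟨H, hH⟩ : ∃ H : Finset (Fin M), H =
    univ.filter (fun l : Fin M => ∃ j : Fin k, (a (l, j) * t + 1).Prime) := ⟨_, rfl⟩
  rw [← hH] at hcard
  have hwin : ∃ x ∈ H.image Fin.val, ∃ y ∈ H.image Fin.val, 1001 ≤ y - x ∧ y - x ≤ 2717 := by
    by_contra hcon
    have h1 := win (M := M) (J1 := 1001) (J2 := 2717) (H := H.image Fin.val) (by norm_num)
      (by norm_num) (by
        intro x hx
        obtain ⟨l, _, rfl⟩ := Finset.mem_image.1 hx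
        exact Finset.mem_range.2 l.2) (by
        intro x hx y hy hxy
        by_contra hlt
        exact hcon ⟨x, hx, y, hy, hxy, by omega⟩)
    rw [Finset.card_image_of_injective H Fin.val_injective] at h1
    have h2 : ((H.card * (1001 + 2717) : ℕ) : ℝ) ≤ ((1001 * (M + 1001 + 2717) : ℕ) : ℝ) :=
      Nat.cast_le.2 h1
    push_cast at h2
    have hMr : (M : ℝ) = 100000000 := by rw [hM]; norm_num
    rw [hMr] at h2 hcard
    linarith
  obtain ⟨x, hx, y, hy, hxy1, hxy2⟩ := hwin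
  obtain ⟨l', hl', rfl⟩ := Finset.mem_image.1 hx
  obtain ⟨l, hl, rfl⟩ := Finset.mem_image.1 hy
  rw [hH, Finset.mem_filter] at hl hl'
  obtain ⟨-, j, hj⟩ := hl
  obtain ⟨-, j', hj'⟩ := hl'
  have hlt : ((l', j') : Fin M × Fin k).1 < ((l, j) : Fin M × Fin k).1 := by
    show l' < l
    rw [Fin.lt_def]
    omega
  obtain ⟨hclt, hdvd, hdist⟩ := hcfg (l, j) (l', j') hlt
  obtain ⟨g, hg⟩ : ∃ g : ℕ, g = c (l, j) - c (l', j') := ⟨_, rfl⟩
  have hgpos : 0 < g := by omega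
  have hcg : c (l, j) = c (l', j') + g := by omega
  rw [← hg] at hdvd
  obtain ⟨e, he⟩ := hdvd
  have hdvd' : g ∣ c (l', j') := by
    have h1 : g ∣ c (l', j') + g := by rw [← hcg, he]; exact Dvd.intro _ rfl
    exact (Nat.dvd_add_left (dvd_refl g)).1 h1
  obtain ⟨e', he'⟩ := hdvd'
  have hee : e = e' + 1 := by
    rw [he, he'] at hcg
    have h1 : g * e = g * (e' + 1) := by rw [hcg]; ring
    exact Nat.eq_of_mul_eq_mul_left hgpos h1
  have hQi := hca (l, j)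
  have hQi' := hca (l', j')
  -- `n = e' p'`
  have hnn : e' * (a (l', j') * t + 1) + 1 = e * (a (l, j) * t + 1) := by
    have h1 : g * (e' * (a (l', j') * t + 1) + 1) = g * (e * (a (l, j) * t + 1)) := by
      have h2 : g * (e' * (a (l', j') * t + 1) + 1) = (g * e') * a (l', j') * t + (g * e' + g) := by
        ring
      have h3 : g * (e * (a (l, j) * t + 1)) = (g * e) * a (l, j) * t + g * e := by ring
      rw [h2, h3, ← he', ← he, hQi, hQi', hcg]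
    exact Nat.eq_of_mul_eq_mul_left hgpos h1
  have hgn : (g : ℝ) * ((e' * (a (l', j') * t + 1) : ℕ) : ℝ) = (Q : ℝ) * t + c (l', j') := by
    have h1 : g * (e' * (a (l', j') * t + 1)) = Q * t + c (l', j') := by
      have h2 : g * (e' * (a (l', j') * t + 1)) = (g * e') * a (l', j') * t + g * e' := by ring
      rw [h2, ← he', hQi']
    exact_mod_cast h1
  have hcgr : (c (l, j) : ℝ) = (c (l', j') : ℝ) + g := by exact_mod_cast hcg
  have hd : ((l.val : ℝ) - (l'.val : ℝ)) = ((l.val - l'.val : ℕ) : ℝ) := by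
    rw [Nat.cast_sub (by omega)]
  have hest := last_est (N := N) (G := G) (Cm := Cm) (n := ((e' * (a (l', j') * t + 1) : ℕ) : ℝ))
    (Qt := (Q : ℝ) * t) (ci := c (l, j)) (ci' := c (l', j')) (g := g)
    (d := (l.val : ℝ) - (l'.val : ℝ)) (T := T) (t := t) (Q := Q) hG1 hN1 hN2 hQ1 hTdef ht rfl
    (by exact_mod_cast hCm (l, j)) (Nat.cast_nonneg _) hcgr
    (by rw [hd]; exact_mod_cast hxy1) (by rw [hd]; exact_mod_cast hxy2)
    (by
      have h1 : (g : ℝ) = (c (l, j) : ℝ) - c (l', j') := by linarith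
      rw [h1]
      exact hdist) hgn
  obtain ⟨hE1, hE2⟩ := hest
  have hNn : (N : ℝ) ≤ 3 * ((e' * (a (l', j') * t + 1) : ℕ) : ℝ) := by
    have e0 : 0 < Real.exp 1 := Real.exp_pos 1
    have e1 := Real.exp_one_lt_d9
    have h1 : (N : ℝ) / Real.exp 1 ≤ ((e' * (a (l', j') * t + 1) : ℕ) : ℝ) := by linarith
    rw [div_le_iff₀ e0] at h1
    have h2 : ((e' * (a (l', j') * t + 1) : ℕ) : ℝ) * Real.exp 1 ≤
        ((e' * (a (l', j') * t + 1) : ℕ) : ℝ) * 3 :=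
      mul_le_mul_of_nonneg_left (by linarith) (Nat.cast_nonneg _)
    linarith
  have hNn' : N ≤ 3 * (e' * (a (l', j') * t + 1)) := by exact_mod_cast hNn
  have heC : e ≤ Cm := by
    have h1 : e ≤ g * e := Nat.le_mul_of_pos_left e hgpos
    rw [← he] at h1
    exact h1.trans (hCm _)
  have heC' : e' ≤ Cm := by omega
  have heq : c (l', j') / (c (l, j) - c (l', j')) = e' := by
    rw [← hg]
    exact Nat.div_eq_of_eq_mul_right hgpos he'
  have he1 : 1 ≤ e' := by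
    rcases Nat.eq_zero_or_pos e' with h | h
    · exfalso
      have h1 := hc1 (l', j')
      rw [he', h] at h1
      omega
    · exact h
  refine ⟨(l, j), (l', j'), ?_⟩
  rw [heq]
  refine ⟨he1, hE1, ?_, a (l', j') * t + 1, a (l, j) * t + 1, hj', hj, Dvd.intro_left _ rfl, ?_, ?_, ?_⟩
  · exact_mod_cast hE2
  · rw [hnn]; exact Dvd.intro_left _ rfl
  · have h1 : e' * (a (l', j') * t + 1) ≤ Cm * (a (l', j') * t + 1) :=
      Nat.mul_le_mul_right _ heC'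
    have h2 : (3 * Cm + 1) * (a (l', j') * t + 1) =
        3 * (Cm * (a (l', j') * t + 1)) + (a (l', j') * t + 1) := by ring
    rw [h2]
    omega
  · have h1 : e * (a (l, j) * t + 1) ≤ Cm * (a (l, j) * t + 1) :=
      Nat.mul_le_mul_right _ heC
    have h2 : (3 * Cm + 1) * (a (l, j) * t + 1) =
        3 * (Cm * (a (l, j) * t + 1)) + (a (l, j) * t + 1) := by ring
    rw [h2]
    omega


open Classical in
theorem last2 (ε : ℝ) (hε : 0 < ε) : ∃ K0 N0 : ℕ, ∀ N : ℕ, N0 ≤ N → (N : ℝ) ^ (1 - ε) ≤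
      (((range N).filter (fun n : ℕ => (N : ℝ) / Real.exp 1 + 1 ≤ n ∧ n + 1 ≤ N ∧ ∃ p p' : ℕ,
        p.Prime ∧ p'.Prime ∧ p ∣ n ∧ p' ∣ n + 1 ∧ N < K0 * p ∧ N < K0 * p')).card : ℝ) := by
  obtain ⟨ε', hε', hε1, hεε⟩ : ∃ ε' : ℝ, 0 < ε' ∧ ε' ≤ 1 ∧ ε' ≤ ε := ⟨min ε 1, by positivity, min_le_right _ _, min_le_left _ _⟩
  obtain ⟨M, hM⟩ : ∃ M : ℕ, M = 100000000 := ⟨_, rfl⟩
  have hM1 : 1 ≤ M := by omega
  have hη : (0 : ℝ) < 1 / 10000 := by norm_num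
  obtain ⟨k, w, hk, Hk⟩ := hits M hM1 hη hη (by linarith : (0 : ℝ) < ε' / 2)
  obtain ⟨G, c, hG, hc1, hcinj, hcfg⟩ := cfg M k hη
  obtain ⟨Q, a, hca, hSF, hW⟩ := formQ c hc1 hcinj w
  obtain ⟨T0, hT0⟩ := Hk Q a hSF hW
  obtain ⟨Cm, hCm⟩ : ∃ Cm : ℕ, ∀ i, c i ≤ Cm :=
    ⟨univ.sup c, fun i => Finset.le_sup (f := c) (Finset.mem_univ i)⟩
  obtain ⟨Y, hY⟩ : ∃ Y : ℝ, Y = (Q : ℝ) * (M * k) ^ 2 := ⟨_, rfl⟩
  obtain ⟨X0, hX0⟩ : ∃ X0 : ℝ, ∀ x, X0 ≤ x → 1 ≤ x ∧ Y ≤ x ^ (ε' / 2) := by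
    have h1 := (tendsto_rpow_atTop (by linarith : 0 < ε' / 2)).eventually_ge_atTop Y
    obtain ⟨X0, hX0⟩ := Filter.eventually_atTop.1 (h1.and (Filter.eventually_ge_atTop (1 : ℝ)))
    exact ⟨X0, fun x hx => ⟨(hX0 x hx).2, (hX0 x hx).1⟩⟩
  refine ⟨3 * Cm + 1, ⌈|T0| * Q⌉₊ + 2 * Cm + 10000 + ⌈|X0|⌉₊, fun N hN => ?_⟩
  have hNr : ((⌈|T0| * Q⌉₊ + 2 * Cm + 10000 + ⌈|X0|⌉₊ : ℕ) : ℝ) ≤ (N : ℝ) := Nat.cast_le.2 hN
  push_cast at hNr
  have hceil := Nat.le_ceil (|T0| * Q)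
  have hceil0 : (0 : ℝ) ≤ (⌈|T0| * Q⌉₊ : ℝ) := Nat.cast_nonneg _
  have hceil2 := Nat.le_ceil (|X0|)
  have hceil3 : (0 : ℝ) ≤ (⌈|X0|⌉₊ : ℝ) := Nat.cast_nonneg _
  have hCm0 : (0 : ℝ) ≤ (Cm : ℝ) := Nat.cast_nonneg _
  have hQ1 : (1 : ℝ) ≤ (Q : ℝ) := by exact_mod_cast hSF.Q_pos
  have hG1 : (1 : ℝ) ≤ (G : ℝ) := by exact_mod_cast hG
  have hN2 : (10000 : ℝ) ≤ (N : ℝ) := by linarith
  have hN1 : 2 * (Cm : ℝ) ≤ (N : ℝ) := by linarith
  have hN3 : |T0| * Q ≤ (N : ℝ) := by linarith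
  have hN4 : X0 ≤ N := (le_abs_self X0).trans (by linarith)
  obtain ⟨hN5, hN6⟩ := hX0 N hN4
  obtain ⟨T, hTdef⟩ : ∃ T : ℝ, T = 1000 * (G : ℝ) * N / Q := ⟨_, rfl⟩
  have hTT : T0 ≤ T := by
    rw [hTdef, le_div_iff₀ (by linarith)]
    have h1 : T0 * Q ≤ |T0| * Q := mul_le_mul_of_nonneg_right (le_abs_self _) (by linarith)
    have h2 : (N : ℝ) ≤ 1000 * (G : ℝ) * N := by nlinarith
    linarith
  have hcount := hT0 T hTT
  set Gt := (rT T).filter (fun t : ℕ => |(t : ℝ) - T| ≤ 1 / 10000 * T ∧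
        (543 / 2000 - 1 / 10000) * (M : ℝ) ≤
          ((univ.filter (fun l : Fin M => ∃ j : Fin k, (a (l, j) * t + 1).Prime)).card : ℝ)) with hGt
  set F := (range N).filter (fun n : ℕ => (N : ℝ) / Real.exp 1 + 1 ≤ n ∧ n + 1 ≤ N ∧ ∃ p p' : ℕ,
        p.Prime ∧ p'.Prime ∧ p ∣ n ∧ p' ∣ n + 1 ∧ N < (3 * Cm + 1) * p ∧ N < (3 * Cm + 1) * p') with hF
  have hsub : Gt ⊆ (univ : Finset ((Fin M × Fin k) × (Fin M × Fin k))).biUnion
      (fun x => Gt.filter (fun t => 1 ≤ c x.2 / (c x.1 - c x.2) ∧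
        c x.2 / (c x.1 - c x.2) * (a x.2 * t + 1) ∈ F)) := by
    intro t ht
    have ht' := ht
    rw [hGt, Finset.mem_filter] at ht'
    obtain ⟨-, ht1, ht2⟩ := ht'
    obtain ⟨i, i', h1, h2, h3, h4⟩ := last_core hM hG1 hQ1 hN2 hN1 hTdef ht1 hc1 hcfg hca hCm ht2
    rw [Finset.mem_biUnion]
    refine ⟨(i, i'), Finset.mem_univ _, ?_⟩
    rw [Finset.mem_filter]
    refine ⟨ht, h1, ?_⟩
    rw [hF, Finset.mem_filter, Finset.mem_range]
    exact ⟨Nat.lt_of_succ_le h3, h2, h3, h4⟩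
  have hcard : Gt.card ≤ (M * k * (M * k)) * F.card := by
    calc Gt.card ≤ _ := Finset.card_le_card hsub
      _ ≤ ∑ x : (Fin M × Fin k) × (Fin M × Fin k), (Gt.filter (fun t => 1 ≤ c x.2 / (c x.1 - c x.2) ∧
        c x.2 / (c x.1 - c x.2) * (a x.2 * t + 1) ∈ F)).card := Finset.card_biUnion_le
      _ ≤ ∑ _x : (Fin M × Fin k) × (Fin M × Fin k), F.card := by
          refine Finset.sum_le_sum fun x _ => ?_
          refine Finset.card_le_card_of_injOn (fun t => c x.2 / (c x.1 - c x.2) * (a x.2 * t + 1)) ?_ ?_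
          · intro t ht
            exact (Finset.mem_filter.1 ht).2.2
          · intro t ht t' ht' htt
            have h1 := (Finset.mem_filter.1 ht).2.1
            have h2 : a x.2 * t + 1 = a x.2 * t' + 1 := Nat.eq_of_mul_eq_mul_left (by omega) htt
            have h3 := hSF.pos x.2
            have h4 : a x.2 * t = a x.2 * t' := by omega
            exact Nat.eq_of_mul_eq_mul_left (by omega) h4
      _ = (M * k * (M * k)) * F.card := by
          rw [Finset.sum_const, smul_eq_mul, Finset.card_univ, Fintype.card_prod, Fintype.card_prod,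
            Fintype.card_fin, Fintype.card_fin]
  have hcardr : (Gt.card : ℝ) ≤ (M * k * (M * k)) * F.card := by exact_mod_cast hcard
  have hMk : (1 : ℝ) ≤ (M : ℝ) * k := by
    have : 1 ≤ M * k := Nat.mul_pos hM1 hk
    exact_mod_cast this
  have hN0 : (0 : ℝ) < N := by linarith
  have hTN : (N : ℝ) / Q ≤ T := by
    rw [hTdef]
    apply div_le_div_of_nonneg_right _ (by linarith)
    nlinarith
  have hT1 : (N : ℝ) ^ (1 - ε' / 2) / Q ≤ T ^ (1 - ε' / 2) := by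
    have h1 : ((N : ℝ) / Q) ^ (1 - ε' / 2) ≤ T ^ (1 - ε' / 2) :=
      Real.rpow_le_rpow (by positivity) hTN (by linarith)
    refine le_trans ?_ h1
    rw [Real.div_rpow hN0.le (by linarith)]
    apply div_le_div_of_nonneg_left (by positivity) (by positivity)
    calc (Q : ℝ) ^ (1 - ε' / 2) ≤ (Q : ℝ) ^ (1 : ℝ) := Real.rpow_le_rpow_of_exponent_le hQ1 (by linarith)
      _ = Q := Real.rpow_one _
  have hpow : (N : ℝ) ^ (1 - ε' / 2) = (N : ℝ) ^ (ε' / 2) * (N : ℝ) ^ (1 - ε') := by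
    rw [← Real.rpow_add hN0]
    congr 1
    ring
  have hp0 : (0 : ℝ) < (N : ℝ) ^ (1 - ε') := Real.rpow_pos_of_pos hN0 _
  have h1 : Y * (N : ℝ) ^ (1 - ε') ≤ (N : ℝ) ^ (1 - ε' / 2) := by
    rw [hpow]
    exact mul_le_mul_of_nonneg_right hN6 hp0.le
  have h2 : Y * (N : ℝ) ^ (1 - ε') / Q ≤ (M * k * (M * k)) * F.card :=
    ((div_le_div_of_nonneg_right h1 (by linarith)).trans hT1).trans (hcount.trans hcardr)
  have h3 : Y * (N : ℝ) ^ (1 - ε') / Q = (M * k * (M * k)) * (N : ℝ) ^ (1 - ε') := by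
    rw [hY]
    field_simp
  rw [h3] at h2
  have h4 : (N : ℝ) ^ (1 - ε') ≤ F.card := le_of_mul_le_mul_left h2 (by positivity)
  refine le_trans ?_ h4
  exact Real.rpow_le_rpow_of_exponent_le (by linarith) (by linarith)

end EG
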