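import Pool.Agent.H6.EG.Defs

/-!
# MP_0e3417 row MRec: splitting off one coordinate

`split`: `(x, B) ↦ update B i x` is a bijection from `D i ×ˢ piFinset (update D i {1})` to `piFinset D` (inverse `B ↦ (B i, update B i 1)`).
`mrec`: apply `split`. For `B` with `B i = 1` and `B' = update B i x`: `B'` is pairwise coprime and coprime to `m` iff `x` is coprime to `m`, `B` is pairwise
coprime and all `B j` are coprime to `m * x` (for `j = i`: `B i = 1`). The product is `(f i x / x) ∏_{j} (update f i 1) j (B j) / B j` (the factor for
`j = i` on the right is `1/1`).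
-/

open Finset

namespace EG

theorem split {ι : Type} [Fintype ι] [DecidableEq ι] (D : ι → Finset ℕ) (i : ι) (g : (ι → ℕ) → ℝ) :
    ∑ B ∈ Fintype.piFinset D, g B =
      ∑ x ∈ D i, ∑ B ∈ Fintype.piFinset (Function.update D i {1}), g (Function.update B i x) := by
  rw [← Finset.sum_product' (D i) (Fintype.piFinset (Function.update D i {1}))
    (fun x B => g (Function.update B i x))]
  refine Finset.sum_nbij' (fun B => (B i, Function.update B i 1))
    (fun p => Function.update p.2 i p.1) ?_ ?_ ?_ ?_ ?_
  · intro B hB
    rw [Fintype.mem_piFinset] at hB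
    rw [Finset.mem_product, Fintype.mem_piFinset]
    refine ⟨hB i, fun j => ?_⟩
    show Function.update B i 1 j ∈ Function.update D i {1} j
    by_cases hj : j = i
    · subst hj
      rw [Function.update_self, Function.update_self]
      exact Finset.mem_singleton_self _
    · rw [Function.update_of_ne hj, Function.update_of_ne hj]
      exact hB j
  · rintro ⟨x, B⟩ hp
    rw [Finset.mem_product, Fintype.mem_piFinset] at hp
    rw [Fintype.mem_piFinset]
    intro j
    show Function.update B i x j ∈ D j
    by_cases hj : j = i
    · subst hj
      rw [Function.update_self]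
      exact hp.1
    · have h1 := hp.2 j
      rw [Function.update_of_ne hj] at h1
      rw [Function.update_of_ne hj]
      exact h1
  · intro B _
    show Function.update (Function.update B i 1) i (B i) = B
    rw [Function.update_idem, Function.update_eq_self]
  · rintro ⟨x, B⟩ hp
    rw [Finset.mem_product, Fintype.mem_piFinset] at hp
    have h1 := hp.2 i
    rw [Function.update_self, Finset.mem_singleton] at h1
    have h2 : B i = 1 := h1
    show (Function.update B i x i, Function.update (Function.update B i x) i 1) = (x, B)
    rw [Function.update_self, Function.update_idem, ← h2, Function.update_eq_self]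
  · intro B _
    show g B = g (Function.update (Function.update B i 1) i (B i))
    rw [Function.update_idem, Function.update_eq_self]

theorem MRec_iff {ι : Type} [DecidableEq ι] (B : ι → ℕ) (i : ι) (x m : ℕ) (hB : B i = 1) :
    ((∀ j k, j ≠ k → Nat.Coprime (Function.update B i x j) (Function.update B i x k)) ∧
      ∀ j, Nat.Coprime (Function.update B i x j) m) ↔
    (Nat.Coprime x m ∧ (∀ j k, j ≠ k → Nat.Coprime (B j) (B k)) ∧
      ∀ j, Nat.Coprime (B j) (m * x)) := by
  constructor
  · rintro ⟨h1, h2⟩
    refine ⟨?_, ?_, ?_⟩
    · have := h2 i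
      rwa [Function.update_self] at this
    · intro j k hjk
      by_cases hj : j = i
      · rw [hj, hB]; exact Nat.coprime_one_left _
      by_cases hk : k = i
      · rw [hk, hB]; exact Nat.coprime_one_right _
      have := h1 j k hjk
      rwa [Function.update_of_ne hj, Function.update_of_ne hk] at this
    · intro j
      by_cases hj : j = i
      · rw [hj, hB]; exact Nat.coprime_one_left _
      have e1 := h2 j
      rw [Function.update_of_ne hj] at e1
      have e2 := h1 j i hj
      rw [Function.update_of_ne hj, Function.update_self] at e2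
      exact Nat.Coprime.mul_right e1 e2
  · rintro ⟨h1, h2, h3⟩
    refine ⟨?_, ?_⟩
    · intro j k hjk
      by_cases hj : j = i
      · have hk : k ≠ i := fun h => hjk (hj.trans h.symm)
        rw [hj, Function.update_self, Function.update_of_ne hk]
        exact (Nat.Coprime.coprime_mul_left_right (h3 k)).symm
      by_cases hk : k = i
      · rw [hk, Function.update_self, Function.update_of_ne hj]
        exact Nat.Coprime.coprime_mul_left_right (h3 j)
      rw [Function.update_of_ne hj, Function.update_of_ne hk]
      exact h2 j k hjk
    · intro j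
      by_cases hj : j = i
      · rw [hj, Function.update_self]; exact h1
      rw [Function.update_of_ne hj]
      exact Nat.Coprime.coprime_mul_right_right (h3 j)

theorem MRec_prod {ι : Type} [Fintype ι] [DecidableEq ι] (f : ι → ℕ → ℝ) (B : ι → ℕ) (i : ι)
    (x : ℕ) (hB : B i = 1) :
    ∏ j, f j (Function.update B i x j) / (Function.update B i x j : ℝ) =
      f i x / (x : ℝ) * ∏ j, (Function.update f i (fun _ => 1)) j (B j) / (B j : ℝ) := by
  rw [← Finset.mul_prod_erase univ (fun j => f j (Function.update B i x j) /
      (Function.update B i x j : ℝ)) (Finset.mem_univ i),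
    ← Finset.mul_prod_erase univ (fun j => (Function.update f i (fun _ => 1)) j (B j) / (B j : ℝ))
      (Finset.mem_univ i)]
  simp only [Function.update_self]
  rw [hB]
  have h1 : (1 : ℝ) / ((1 : ℕ) : ℝ) = 1 := by norm_num
  rw [h1, one_mul]
  congr 1
  refine Finset.prod_congr rfl (fun j hj => ?_)
  have hj' : j ≠ i := Finset.ne_of_mem_erase hj
  rw [Function.update_of_ne hj', Function.update_of_ne hj']

theorem mrec {ι : Type} [Fintype ι] [DecidableEq ι] (D : ι → Finset ℕ) (f : ι → ℕ → ℝ) (m : ℕ) (i : ι) :
    Mm D f m = ∑ x ∈ (D i).filter (fun x => Nat.Coprime x m), f i x / (x : ℝ) *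
      Mm (Function.update D i {1}) (Function.update f i (fun _ => 1)) (m * x) := by
  unfold Mm
  rw [Finset.sum_filter, split D i, Finset.sum_filter]
  refine Finset.sum_congr rfl (fun x _ => ?_)
  by_cases hx : Nat.Coprime x m
  · rw [if_pos hx, Finset.sum_filter, Finset.mul_sum]
    refine Finset.sum_congr rfl (fun B hB => ?_)
    rw [Fintype.mem_piFinset] at hB
    have h1 := hB i
    rw [Function.update_self, Finset.mem_singleton] at h1
    have hiff := MRec_iff B i x m h1
    by_cases hP : (∀ j k, j ≠ k → Nat.Coprime (B j) (B k)) ∧ ∀ j, Nat.Coprime (B j) (m * x)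
    · rw [if_pos (hiff.2 ⟨hx, hP⟩), if_pos hP]
      exact MRec_prod f B i x h1
    · rw [if_neg (fun h => hP (hiff.1 h).2), if_neg hP, mul_zero]
  · rw [if_neg hx]
    refine Finset.sum_eq_zero (fun B hB => ?_)
    rw [Fintype.mem_piFinset] at hB
    have h1 := hB i
    rw [Function.update_self, Finset.mem_singleton] at h1
    exact if_neg (fun h => hx ((MRec_iff B i x m h1).1 h).1)

end EG
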