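import Pool.Agent.H6.EG.Red

/-!
# MP_0e3417: the reduction, with a count of the gaps
-/

open Finset H69LB

namespace EG

/-- the least element of a solution -/
theorem red_min (S : Finset ℕ) (hcard : 2 ≤ S.card) (hpos : ∀ x ∈ S, 0 < x) (hsum : (∑ x ∈ S, (1 : ℚ) / (x : ℚ)) = 1)
    {N x1 : ℕ} (hNS : N ∈ S) (hle : ∀ x ∈ S, x ≤ N) (hx1S : x1 ∈ S) (hx1le : ∀ x ∈ S, x1 ≤ x) {n : ℕ}
    (hn1 : (N : ℝ) / Real.exp 1 + 1 ≤ n) : x1 ≤ n := by
  classical
  have hx1pos := hpos x1 hx1S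
  have hx12 : 2 ≤ x1 := by
    by_contra hlt
    have h1 : x1 = 1 := by omega
    obtain ⟨a, ha, b, hb, hab⟩ := Finset.one_lt_card.mp (by omega : 1 < S.card)
    have h2 : ∃ y ∈ S, y ≠ x1 := by
      by_cases h3 : a = x1
      · exact ⟨b, hb, fun h4 => hab (h3.trans h4.symm)⟩
      · exact ⟨a, ha, h3⟩
    obtain ⟨y, hy, hyx⟩ := h2
    have h3 : (∑ x ∈ ({x1, y} : Finset ℕ), (1 : ℚ) / (x : ℚ)) ≤ ∑ x ∈ S, (1 : ℚ) / (x : ℚ) := by
      refine Finset.sum_le_sum_of_subset_of_nonneg ?_ fun _ _ _ => by positivity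
      intro z hz
      rw [Finset.mem_insert, Finset.mem_singleton] at hz
      rcases hz with rfl | rfl
      · exact hx1S
      · exact hy
    rw [Finset.sum_pair hyx.symm, hsum, h1] at h3
    norm_num at h3
    have := hpos y hy
    omega
  have hlog : (1 : ℝ) ≤ Real.log N - Real.log ((x1 - 1 : ℕ) : ℝ) := by
    have h1 : ((∑ x ∈ S, (1 : ℚ) / (x : ℚ) : ℚ) : ℝ) = 1 := by rw [hsum]; norm_num
    rw [Rat.cast_sum] at h1
    have h2 : (∑ x ∈ S, (((1 : ℚ) / (x : ℚ) : ℚ) : ℝ)) = ∑ x ∈ S, (1 : ℝ) / (x : ℝ) := by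
      refine Finset.sum_congr rfl fun x _ => ?_
      push_cast
      rfl
    rw [h2] at h1
    rw [← h1]
    refine le_trans ?_ (Red_log (x1 - 1) (by omega) N (by have := hle x1 hx1S; omega))
    refine Finset.sum_le_sum_of_subset_of_nonneg ?_ fun _ _ _ => by positivity
    intro x hx
    rw [Finset.mem_Ioc]
    have := hle x hx
    have := hx1le x hx
    omega
  have hNpos : (0 : ℝ) < N := by
    have := hpos N hNS
    exact_mod_cast this
  have hapos : (0 : ℝ) < ((x1 - 1 : ℕ) : ℝ) := by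
    exact_mod_cast (by omega : 0 < x1 - 1)
  have h1 : Real.exp 1 ≤ (N : ℝ) / ((x1 - 1 : ℕ) : ℝ) := by
    rw [← Real.log_div hNpos.ne' hapos.ne'] at hlog
    have h2 := Real.exp_le_exp.mpr hlog
    rwa [Real.exp_log (by positivity)] at h2
  have h2 : ((x1 - 1 : ℕ) : ℝ) ≤ (N : ℝ) / Real.exp 1 := by
    rw [le_div_iff₀ hapos] at h1
    rw [le_div_iff₀ (Real.exp_pos 1)]
    linarith
  have h3 : ((x1 - 1 : ℕ) : ℝ) = (x1 : ℝ) - 1 := by
    rw [Nat.cast_sub (by omega)]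
    norm_num
  rw [h3] at h2
  have h4 : (x1 : ℝ) ≤ (n : ℝ) := by linarith
  exact_mod_cast h4

open Classical in
theorem red2
    (h : ∀ ε : ℝ, 0 < ε → ∃ K0 N0 : ℕ, ∀ N : ℕ, N0 ≤ N → (N : ℝ) ^ (1 - ε) ≤
      (((range N).filter (fun n : ℕ => (N : ℝ) / Real.exp 1 + 1 ≤ n ∧ n + 1 ≤ N ∧ ∃ p p' : ℕ,
        p.Prime ∧ p'.Prime ∧ p ∣ n ∧ p' ∣ n + 1 ∧ N < K0 * p ∧ N < K0 * p')).card : ℝ))
    (c : ℕ) {ε : ℝ} (hε : 0 < ε) :
    Set.Finite {S : Finset ℕ |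
        2 ≤ S.card ∧ (∀ x ∈ S, 0 < x) ∧ (∑ x ∈ S, (1 : ℚ) / (x : ℚ)) = 1 ∧
        (∀ x ∈ S, ∀ y ∈ S, x < y → ∃ z ∈ S, x < z ∧ z ≤ x + c) ∧
        ((S.filter (fun x => (∃ y ∈ S, x < y) ∧ ∀ y ∈ S, x < y → x + 3 ≤ y)).card : ℝ) <
          ((S.sup id : ℕ) : ℝ) ^ (1 - ε)} := by
  obtain ⟨K0, N0, h⟩ := h (ε / 2) (by linarith)
  obtain ⟨X0, hX0⟩ : ∃ X0 : ℝ, ∀ x, X0 ≤ x → 1 ≤ x ∧ (c : ℝ) ≤ x ^ (ε / 2) := by
    have h1 := (tendsto_rpow_atTop (by linarith : 0 < ε / 2)).eventually_ge_atTop (c : ℝ)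
    obtain ⟨X0, hX0⟩ := Filter.eventually_atTop.1 (h1.and (Filter.eventually_ge_atTop (1 : ℝ)))
    exact ⟨X0, fun x hx => ⟨(hX0 x hx).2, (hX0 x hx).1⟩⟩
  set N1 := max (max N0 (K0.factorial ^ 3)) ⌈X0⌉₊ with hN1
  refine Set.Finite.subset (Finset.finite_toSet (Finset.range (N1 + 1)).powerset) ?_
  rintro S ⟨hcard, hpos, hsum, hgap, hfew⟩
  rw [Finset.mem_coe, Finset.mem_powerset]
  have hne : S.Nonempty := Finset.card_pos.mp (by omega)
  set N := S.max' hne with hNdef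
  have hNS : N ∈ S := S.max'_mem hne
  have hle : ∀ x ∈ S, x ≤ N := fun x hx => S.le_max' x hx
  have hsup : S.sup id = N := by
    apply le_antisymm
    · exact Finset.sup_le fun x hx => hle x hx
    · exact Finset.le_sup (f := id) hNS
  rw [hsup] at hfew
  by_contra hcon
  have hNbig : N1 ≤ N := by
    by_contra hlt
    refine hcon fun x hx => ?_
    rw [Finset.mem_range]
    have := hle x hx
    omega
  have hN0N : N0 ≤ N := ((le_max_left _ _).trans (le_max_left _ _)).trans hNbig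
  have hKN : K0.factorial ^ 3 ≤ N := ((le_max_right _ _).trans (le_max_left _ _)).trans hNbig
  have hXN : X0 ≤ N := (Nat.le_ceil X0).trans (by exact_mod_cast (le_max_right _ _).trans hNbig)
  obtain ⟨hN1', hcN⟩ := hX0 N hXN
  have hmain := h N hN0N
  set F := (range N).filter (fun n : ℕ => (N : ℝ) / Real.exp 1 + 1 ≤ n ∧ n + 1 ≤ N ∧ ∃ p p' : ℕ,
        p.Prime ∧ p'.Prime ∧ p ∣ n ∧ p' ∣ n + 1 ∧ N < K0 * p ∧ N < K0 * p') with hF
  set x1 := S.min' hne with hx1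
  have hx1S : x1 ∈ S := S.min'_mem hne
  have hx1le : ∀ x ∈ S, x1 ≤ x := fun x hx => S.min'_le x hx
  set G := S.filter (fun x => (∃ y ∈ S, x < y) ∧ ∀ y ∈ S, x < y → x + 3 ≤ y) with hG
  -- the largest element of `S` below `n`
  have key : ∀ n ∈ F, ∃ x ∈ G, x < n ∧ n < x + c := by
    intro n hn
    rw [hF, Finset.mem_filter] at hn
    obtain ⟨-, hn1, hn2, p, p', hp, hp', hpn, hpn', hNp, hNp'⟩ := hn
    have hnS : n ∉ S := fun hn => Red_prime S hpos hsum K0 N p hp hle hNp hKN n hn hpn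
    have hnS' : n + 1 ∉ S := fun hn => Red_prime S hpos hsum K0 N p' hp' hle hNp' hKN (n + 1) hn hpn'
    have hx1n := red_min S hcard hpos hsum hNS hle hx1S hx1le hn1
    have hx1lt : x1 < n := lt_of_le_of_ne hx1n fun h1 => hnS (h1 ▸ hx1S)
    have hne2 : (S.filter (· < n)).Nonempty := ⟨x1, Finset.mem_filter.mpr ⟨hx1S, hx1lt⟩⟩
    obtain ⟨x, hx⟩ : ∃ x, x = (S.filter (· < n)).max' hne2 := ⟨_, rfl⟩
    have hxS := (S.filter (· < n)).max'_mem hne2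
    rw [← hx, Finset.mem_filter] at hxS
    have hnext : ∀ y ∈ S, x < y → n + 2 ≤ y := by
      intro y hy hxy
      have hny : n ≤ y := by
        by_contra hlt
        have h1 := (S.filter (· < n)).le_max' y (Finset.mem_filter.mpr ⟨hy, by omega⟩)
        rw [← hx] at h1
        omega
      have hz3 : y ≠ n := fun h1 => hnS (h1 ▸ hy)
      have hz4 : y ≠ n + 1 := fun h1 => hnS' (h1 ▸ hy)
      omega
    obtain ⟨z, hzS, hz1, hz2⟩ := hgap x hxS.1 N hNS (by omega)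
    have hz3 := hnext z hzS hz1
    refine ⟨x, ?_, hxS.2, by omega⟩
    rw [hG, Finset.mem_filter]
    refine ⟨hxS.1, ⟨z, hzS, hz1⟩, fun y hy hxy => ?_⟩
    have := hnext y hy hxy
    omega
  have hFG : F.card ≤ c * G.card := by
    have hsub : F ⊆ G.biUnion (fun x => Finset.Ioo x (x + c)) := by
      intro n hn
      obtain ⟨x, hx, h1, h2⟩ := key n hn
      rw [Finset.mem_biUnion]
      exact ⟨x, hx, Finset.mem_Ioo.2 ⟨h1, h2⟩⟩
    calc F.card ≤ (G.biUnion (fun x => Finset.Ioo x (x + c))).card := Finset.card_le_card hsub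
      _ ≤ ∑ x ∈ G, (Finset.Ioo x (x + c)).card := Finset.card_biUnion_le
      _ ≤ ∑ _x ∈ G, c := by
          refine Finset.sum_le_sum fun x _ => ?_
          rw [Nat.card_Ioo]
          omega
      _ = c * G.card := by rw [Finset.sum_const, smul_eq_mul, mul_comm]
  have hFGr : (F.card : ℝ) ≤ c * G.card := by exact_mod_cast hFG
  have hN0' : (0 : ℝ) < N := by linarith
  have hpow : (N : ℝ) ^ (1 - ε / 2) = (N : ℝ) ^ (ε / 2) * (N : ℝ) ^ (1 - ε) := by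
    rw [← Real.rpow_add hN0']
    congr 1
    ring
  have hp1 : (0 : ℝ) < (N : ℝ) ^ (1 - ε) := Real.rpow_pos_of_pos hN0' _
  rcases Nat.eq_zero_or_pos c with hc | hc
  · rw [hc] at hFGr
    have h1 : (0 : ℝ) < (N : ℝ) ^ (1 - ε / 2) := Real.rpow_pos_of_pos hN0' _
    have h2 : (F.card : ℝ) ≤ 0 := by simpa using hFGr
    linarith
  · have hc' : (0 : ℝ) < c := by exact_mod_cast hc
    have h1 : (c : ℝ) * G.card < c * (N : ℝ) ^ (1 - ε) := mul_lt_mul_of_pos_left hfew hc'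
    have h2 : (c : ℝ) * (N : ℝ) ^ (1 - ε) ≤ (N : ℝ) ^ (ε / 2) * (N : ℝ) ^ (1 - ε) :=
      mul_le_mul_of_nonneg_right hcN hp1.le
    rw [← hpow] at h2
    linarith

end EG
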