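import Pool.Agent.H6.EG.MRec
import Pool.Agent.H6.EG.Eul

/-!
# MP_0e3417 row S3a: the induction step of the lemma on coprime tuples

Write `𝒟` for the squarefree numbers coprime to `Q`, `C` for the given constants (`C, C0 ≥ 1`), `F'(m) = Mm D' f' m` with `D' = update D i {1}`, `f' = update f i 1`,
`c` for the coefficients in `Rep` of `F'`, `N` a bound for `D i`. For `m ≥ 1` by `mrec`
`Mm D f m = ∑_{x ∈ D i, (x,m) = 1} f(x)/x ∑_{e ∣ m x, e ∈ 𝒟} c(e)`. Here `e = e1 e2` uniquely with `e1 ∣ m`, `e2 ∣ x` (`e1, e2` coprime); insert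
`[(x,m) = 1] = ∑_{g ∣ m, g ∣ x} μ(g)` (all `g ∣ x` are in `𝒟`); for `e1 ∣ m`, `e2 ∣ x`, `(x,m) = 1` one has `(e1,e2) = 1` automatically, so
`Mm D f m = ∑_{e1 ∣ m} ∑_{g ∣ m} μ(g) ∑_{e2 ∈ sq Q N, (e1,e2) = 1} c(e1 e2) SS(D i)(f i)(lcm e2 g)`   (`e1, g ∈ 𝒟`).
Group by `e = lcm(e1, g)`, which divides `m` iff `e1, g` do:
`c_new(e) = ∑_{e1 ∣ e, g ∣ e, lcm(e1,g) = e} μ(g) ∑_{e2 ∈ sq Q N, (e1,e2) = 1} c(e1 e2) SS(D i)(f i)(lcm e2 g)`.
Bounds: `|c(e1 e2)| ≤ A C^(1 + ω(e1) + ω(e2)) gcd(e1,p') gcd(e2,p')/(e1 e2)`, `|SS(lcm e2 g)| ≤ a C0^(ω(e2) + ω(g)) gcd(e2,p'') gcd(g,p'') gcd(e2,g)/(e2 g)`. One of `p', p''` is `1`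
and `p = p' p''`, so `gcd(e2,p') gcd(e2,p'') = gcd(e2,p)` and `gcd(e1,p') gcd(g,p'') ≤ gcd(e,p)`; `1/(e1 g) ≤ 1/e`. By `eul` (constant `C C0`, giving `C2`) the sum over `e2` is
`≤ A a C C^ω(e1) C0^ω(g) C2 2^ω(g) gcd(e,p)/e`, and there are at most `4^ω(e)` pairs `(e1,g)`: `|c_new(e)| ≤ A a C1^(1 + ω(e)) gcd(e,p)/e` with
`C1 = 8 C C0 C2 + ...`.
`c_new(1) = ∑_{e2 ∈ sq Q N} c(e2) SS(e2)`; the terms `e2 ≠ 1` give at most `A C a C2/√w` (second part of `eul`), and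
`|c(1) SS(1) - X SS(1)| ≤ (A C/√w) a` (`|SS(1)| ≤ a` by `Ctrl` at `b = 1`). `c_new(e) := 0` for `e ∉ 𝒟`.
Take `C1` large enough (also `≥ C`, so that `C1 ≤ w` implies what `eul` needs).
-/

open Finset

namespace EG

/-- `F(m)` is a divisor sum with small coefficients and main term `X` -/
def Rep (Q w p : ℕ) (C A X : ℝ) (F : ℕ → ℝ) : Prop :=
  ∃ c : ℕ → ℝ, (∀ m : ℕ, 1 ≤ m → F m = ∑ e ∈ m.divisors.filter (fun e => Squarefree e ∧ Nat.Coprime e Q), c e) ∧
    (∀ e : ℕ, Squarefree e → |c e| ≤ A * C ^ (1 + e.primeFactors.card) * (Nat.gcd e p : ℝ) / e) ∧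
    |c 1 - X| ≤ A * C / Real.sqrt w

theorem S3a_lcm_sq {a b : ℕ} (ha : Squarefree a) (hb : Squarefree b) : Squarefree (Nat.lcm a b) := by
  have ha0 := ha.ne_zero
  have hb0 := hb.ne_zero
  rw [Nat.squarefree_iff_factorization_le_one (Nat.lcm_ne_zero ha0 hb0)]
  intro p
  rw [Nat.factorization_lcm ha0 hb0, Finsupp.sup_apply]
  exact sup_le (ha.natFactorization_le_one p) (hb.natFactorization_le_one p)

/-- the contribution of a pair `(e1, g)` -/
noncomputable def S3a_G (Q N : ℕ) (DD : Finset ℕ) (f c : ℕ → ℝ) (e1 g : ℕ) : ℝ :=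
  (ArithmeticFunction.moebius g : ℝ) *
    ∑ e2 ∈ (sq Q N).filter (fun e2 => Nat.Coprime e1 e2), c (e1 * e2) * SS DD f (Nat.lcm e2 g)

open Classical in
/-- the new coefficients -/
noncomputable def S3a_c (Q N : ℕ) (DD : Finset ℕ) (f c : ℕ → ℝ) (e : ℕ) : ℝ :=
  if Squarefree e ∧ Nat.Coprime e Q then
    ∑ p ∈ (e.divisors ×ˢ e.divisors).filter (fun p => Nat.lcm p.1 p.2 = e), S3a_G Q N DD f c p.1 p.2
  else 0

theorem S3a_moebius (n : ℕ) :
    ∑ g ∈ n.divisors, (ArithmeticFunction.moebius g : ℝ) = if n = 1 then 1 else 0 := by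
  have h := congrArg (fun F => F n) ArithmeticFunction.moebius_mul_coe_zeta
  simp only [ArithmeticFunction.coe_mul_zeta_apply, ArithmeticFunction.one_apply] at h
  have h2 : ((∑ i ∈ n.divisors, ArithmeticFunction.moebius i : ℤ) : ℝ) = ((if n = 1 then (1 : ℤ) else 0 : ℤ) : ℝ) := by
    rw [h]
  push_cast at h2
  exact h2

theorem S3a_div (Q m x : ℕ) (hm : 1 ≤ m) (hx : Squarefree x) (hxQ : Nat.Coprime x Q) (hxm : Nat.Coprime x m)
    (c : ℕ → ℝ) :
    ∑ e ∈ (m * x).divisors.filter (fun e => Squarefree e ∧ Nat.Coprime e Q), c e =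
      ∑ e1 ∈ m.divisors.filter (fun e => Squarefree e ∧ Nat.Coprime e Q), ∑ e2 ∈ x.divisors, c (e1 * e2) := by
  have hx0 : x ≠ 0 := hx.ne_zero
  have hm0 : m ≠ 0 := by omega
  rw [← Finset.sum_product' (m.divisors.filter (fun e => Squarefree e ∧ Nat.Coprime e Q)) x.divisors
    (fun e1 e2 => c (e1 * e2))]
  refine Finset.sum_nbij' (fun e => (Nat.gcd e m, Nat.gcd e x)) (fun p => p.1 * p.2) ?_ ?_ ?_ ?_ ?_
  · intro e he
    rw [Finset.mem_filter, Nat.mem_divisors] at he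
    rw [Finset.mem_product, Finset.mem_filter, Nat.mem_divisors, Nat.mem_divisors]
    refine ⟨⟨⟨Nat.gcd_dvd_right _ _, hm0⟩, ?_, ?_⟩, Nat.gcd_dvd_right _ _, hx0⟩
    · exact he.2.1.squarefree_of_dvd (Nat.gcd_dvd_left _ _)
    · exact Nat.Coprime.coprime_dvd_left (Nat.gcd_dvd_left _ _) he.2.2
  · rintro ⟨e1, e2⟩ hp
    rw [Finset.mem_product, Finset.mem_filter, Nat.mem_divisors, Nat.mem_divisors] at hp
    obtain ⟨⟨⟨h1, _⟩, h2, h3⟩, h4, _⟩ := hp
    rw [Finset.mem_filter, Nat.mem_divisors]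
    have hco : Nat.Coprime e1 e2 := (hxm.coprime_dvd_left h4).symm.coprime_dvd_left h1
    refine ⟨⟨Nat.mul_dvd_mul h1 h4, Nat.mul_ne_zero hm0 hx0⟩, ?_, ?_⟩
    · exact (Nat.squarefree_mul hco).mpr ⟨h2, hx.squarefree_of_dvd h4⟩
    · exact Nat.Coprime.mul_left h3 (hxQ.coprime_dvd_left h4)
  · intro e he
    rw [Finset.mem_filter, Nat.mem_divisors] at he
    show Nat.gcd e m * Nat.gcd e x = e
    rw [← Nat.Coprime.gcd_mul e hxm.symm]
    exact Nat.gcd_eq_left he.1.1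
  · rintro ⟨e1, e2⟩ hp
    rw [Finset.mem_product, Finset.mem_filter, Nat.mem_divisors, Nat.mem_divisors] at hp
    obtain ⟨⟨⟨h1, _⟩, h2, h3⟩, h4, _⟩ := hp
    have h1 : e1 ∣ m := h1
    have h4 : e2 ∣ x := h4
    have hA : Nat.Coprime e2 m := hxm.coprime_dvd_left h4
    have hB : Nat.Coprime e1 x := hxm.symm.coprime_dvd_left h1
    show (Nat.gcd (e1 * e2) m, Nat.gcd (e1 * e2) x) = (e1, e2)
    rw [Nat.Coprime.gcd_mul_right_cancel e1 hA, Nat.Coprime.gcd_mul_left_cancel e2 hB,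
      Nat.gcd_eq_left h1, Nat.gcd_eq_left h4]
  · intro e he
    rw [Finset.mem_filter, Nat.mem_divisors] at he
    show c e = c (Nat.gcd e m * Nat.gcd e x)
    rw [← Nat.Coprime.gcd_mul e hxm.symm, Nat.gcd_eq_left he.1.1]

/-- indicator of coprimality -/
theorem S3a_ind (Q m x : ℕ) (hm : 1 ≤ m) (hx : Squarefree x) (hxQ : Nat.Coprime x Q) :
    ∑ g ∈ m.divisors.filter (fun e => Squarefree e ∧ Nat.Coprime e Q),
      (if g ∣ x then (ArithmeticFunction.moebius g : ℝ) else 0) = if Nat.Coprime x m then 1 else 0 := by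
  have hx0 : x ≠ 0 := hx.ne_zero
  have hm0 : m ≠ 0 := by omega
  rw [← Finset.sum_filter, Finset.filter_filter]
  have h1 : m.divisors.filter (fun a => (Squarefree a ∧ Nat.Coprime a Q) ∧ a ∣ x) = (Nat.gcd x m).divisors := by
    ext g
    rw [Finset.mem_filter, Nat.mem_divisors, Nat.mem_divisors, Nat.dvd_gcd_iff]
    constructor
    · rintro ⟨⟨h1, _⟩, _, h3⟩
      exact ⟨⟨h3, h1⟩, Nat.gcd_ne_zero_left hx0⟩
    · rintro ⟨⟨h1, h2⟩, _⟩
      exact ⟨⟨h2, hm0⟩, ⟨hx.squarefree_of_dvd h1, hxQ.coprime_dvd_left h1⟩, h1⟩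
  rw [h1, S3a_moebius]

theorem S3a_inner (Q N m x : ℕ) (hx : Squarefree x) (hxQ : Nat.Coprime x Q) (hxN : x ≤ N)
    (hxm : Nat.Coprime x m) (c : ℕ → ℝ) (e1 : ℕ) (he1 : e1 ∣ m) :
    ∑ e2 ∈ (sq Q N).filter (fun e2 => Nat.Coprime e1 e2), (if e2 ∣ x then c (e1 * e2) else 0) =
      ∑ e2 ∈ x.divisors, c (e1 * e2) := by
  have hx0 : x ≠ 0 := hx.ne_zero
  rw [← Finset.sum_filter, Finset.filter_filter]
  refine Finset.sum_congr ?_ (fun _ _ => rfl)
  ext e
  rw [Finset.mem_filter, sq, Finset.mem_filter, Finset.mem_Icc, Nat.mem_divisors]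
  constructor
  · rintro ⟨_, _, h⟩
    exact ⟨h, hx0⟩
  · rintro ⟨h, _⟩
    refine ⟨⟨⟨Nat.pos_of_dvd_of_pos h (Nat.pos_of_ne_zero hx0), (Nat.le_of_dvd (Nat.pos_of_ne_zero hx0) h).trans hxN⟩,
      hx.squarefree_of_dvd h, hxQ.coprime_dvd_left h⟩, ?_, h⟩
    exact (hxm.coprime_dvd_left h).symm.coprime_dvd_left he1

theorem S3a_group (Q m : ℕ) (hm : 1 ≤ m) (G : ℕ → ℕ → ℝ) :
    ∑ e1 ∈ m.divisors.filter (fun e => Squarefree e ∧ Nat.Coprime e Q),
      ∑ g ∈ m.divisors.filter (fun e => Squarefree e ∧ Nat.Coprime e Q), G e1 g =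
    ∑ e ∈ m.divisors.filter (fun e => Squarefree e ∧ Nat.Coprime e Q),
      ∑ p ∈ (e.divisors ×ˢ e.divisors).filter (fun p => Nat.lcm p.1 p.2 = e), G p.1 p.2 := by
  classical
  have hm0 : m ≠ 0 := by omega
  rw [← Finset.sum_product' (m.divisors.filter (fun e => Squarefree e ∧ Nat.Coprime e Q))
    (m.divisors.filter (fun e => Squarefree e ∧ Nat.Coprime e Q)) G]
  rw [← Finset.sum_fiberwise_of_maps_to (s := (m.divisors.filter (fun e => Squarefree e ∧ Nat.Coprime e Q)) ×ˢ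
      (m.divisors.filter (fun e => Squarefree e ∧ Nat.Coprime e Q)))
    (t := m.divisors.filter (fun e => Squarefree e ∧ Nat.Coprime e Q))
    (g := fun p => Nat.lcm p.1 p.2)]
  · refine Finset.sum_congr rfl (fun e he => ?_)
    refine Finset.sum_congr ?_ (fun _ _ => rfl)
    rw [Finset.mem_filter, Nat.mem_divisors] at he
    ext ⟨a, b⟩
    simp only [Finset.mem_filter, Finset.mem_product, Nat.mem_divisors]
    constructor
    · rintro ⟨⟨⟨h1, h2, h3⟩, h4, h5, h6⟩, h7⟩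
      have he0 : e ≠ 0 := he.2.1.ne_zero
      exact ⟨⟨⟨h7 ▸ Nat.dvd_lcm_left a b, he0⟩, h7 ▸ Nat.dvd_lcm_right a b, he0⟩, h7⟩
    · rintro ⟨⟨⟨h1, h2⟩, h3, h4⟩, h7⟩
      exact ⟨⟨⟨⟨h1.trans he.1.1, hm0⟩, he.2.1.squarefree_of_dvd h1, he.2.2.coprime_dvd_left h1⟩,
        ⟨h3.trans he.1.1, hm0⟩, he.2.1.squarefree_of_dvd h3, he.2.2.coprime_dvd_left h3⟩, h7⟩
  · rintro ⟨a, b⟩ hab
    simp only [Finset.mem_filter, Finset.mem_product, Nat.mem_divisors] at hab ⊢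
    obtain ⟨⟨⟨h1, _⟩, h2, h3⟩, ⟨h4, _⟩, h5, h6⟩ := hab
    refine ⟨⟨Nat.lcm_dvd h1 h4, hm0⟩, ?_, ?_⟩
    · exact S3a_lcm_sq h2 h5
    · exact Nat.Coprime.coprime_dvd_left (Nat.lcm_dvd_mul a b) (Nat.Coprime.mul_left h3 h6)

theorem S3a_id (Q N m : ℕ) (hm : 1 ≤ m) (DD : Finset ℕ) (f c : ℕ → ℝ) (hD : Good Q DD) (hN : ∀ x ∈ DD, x ≤ N) :
    ∑ x ∈ DD.filter (fun x => Nat.Coprime x m), f x / (x : ℝ) *
      ∑ e ∈ (m * x).divisors.filter (fun e => Squarefree e ∧ Nat.Coprime e Q), c e =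
    ∑ e ∈ m.divisors.filter (fun e => Squarefree e ∧ Nat.Coprime e Q), S3a_c Q N DD f c e := by
  classical
  have hx : ∀ x ∈ DD, (if Nat.Coprime x m then f x / (x : ℝ) *
      ∑ e ∈ (m * x).divisors.filter (fun e => Squarefree e ∧ Nat.Coprime e Q), c e else 0) =
      ∑ e1 ∈ m.divisors.filter (fun e => Squarefree e ∧ Nat.Coprime e Q),
      ∑ g ∈ m.divisors.filter (fun e => Squarefree e ∧ Nat.Coprime e Q),
      ∑ e2 ∈ (sq Q N).filter (fun e2 => Nat.Coprime e1 e2),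
        (if Nat.lcm e2 g ∣ x then (ArithmeticFunction.moebius g : ℝ) * (c (e1 * e2) * (f x / (x : ℝ))) else 0) := by
    intro x hx
    have hxs := (hD x hx).1
    have hxQ := (hD x hx).2
    calc (if Nat.Coprime x m then f x / (x : ℝ) *
      ∑ e ∈ (m * x).divisors.filter (fun e => Squarefree e ∧ Nat.Coprime e Q), c e else 0)
        = (∑ g ∈ m.divisors.filter (fun e => Squarefree e ∧ Nat.Coprime e Q),
            (if g ∣ x then (ArithmeticFunction.moebius g : ℝ) else 0)) *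
            (f x / (x : ℝ) * ∑ e1 ∈ m.divisors.filter (fun e => Squarefree e ∧ Nat.Coprime e Q),
              ∑ e2 ∈ (sq Q N).filter (fun e2 => Nat.Coprime e1 e2), (if e2 ∣ x then c (e1 * e2) else 0)) := by
          rw [S3a_ind Q m x hm hxs hxQ]
          split_ifs with h
          · rw [S3a_div Q m x hm hxs hxQ h, one_mul]
            congr 1
            refine Finset.sum_congr rfl (fun e1 he1 => ?_)
            rw [Finset.mem_filter, Nat.mem_divisors] at he1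
            exact (S3a_inner Q N m x hxs hxQ (hN x hx) h c e1 he1.1.1).symm
          · rw [zero_mul]
      _ = ∑ e1 ∈ m.divisors.filter (fun e => Squarefree e ∧ Nat.Coprime e Q),
            ∑ g ∈ m.divisors.filter (fun e => Squarefree e ∧ Nat.Coprime e Q),
            (if g ∣ x then (ArithmeticFunction.moebius g : ℝ) else 0) *
            (f x / (x : ℝ) *
              ∑ e2 ∈ (sq Q N).filter (fun e2 => Nat.Coprime e1 e2), (if e2 ∣ x then c (e1 * e2) else 0)) := by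
          rw [Finset.mul_sum, Finset.mul_sum]
          refine Finset.sum_congr rfl (fun e1 _ => ?_)
          rw [Finset.sum_mul]
      _ = _ := by
          refine Finset.sum_congr rfl (fun e1 _ => ?_)
          refine Finset.sum_congr rfl (fun g _ => ?_)
          rw [Finset.mul_sum, Finset.mul_sum]
          refine Finset.sum_congr rfl (fun e2 _ => ?_)
          by_cases hg : g ∣ x
          · by_cases he : e2 ∣ x
            · rw [if_pos hg, if_pos he, if_pos (Nat.lcm_dvd he hg)]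
              ring
            · rw [if_neg he, if_neg (fun h => he ((Nat.dvd_lcm_left e2 g).trans h))]
              ring
          · rw [if_neg hg, if_neg (fun h => hg ((Nat.dvd_lcm_right e2 g).trans h))]
            ring
  rw [Finset.sum_filter, Finset.sum_congr rfl hx, Finset.sum_comm]
  have h2 : ∑ e ∈ m.divisors.filter (fun e => Squarefree e ∧ Nat.Coprime e Q), S3a_c Q N DD f c e =
      ∑ e ∈ m.divisors.filter (fun e => Squarefree e ∧ Nat.Coprime e Q),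
      ∑ p ∈ (e.divisors ×ˢ e.divisors).filter (fun p => Nat.lcm p.1 p.2 = e), S3a_G Q N DD f c p.1 p.2 := by
    refine Finset.sum_congr rfl (fun e he => ?_)
    rw [Finset.mem_filter] at he
    rw [S3a_c, if_pos he.2]
  rw [h2, ← S3a_group Q m hm]
  refine Finset.sum_congr rfl (fun e1 _ => ?_)
  rw [Finset.sum_comm]
  refine Finset.sum_congr rfl (fun g _ => ?_)
  rw [Finset.sum_comm, S3a_G, Finset.mul_sum]
  refine Finset.sum_congr rfl (fun e2 _ => ?_)
  rw [SS, ← Finset.sum_filter, Finset.mul_sum, Finset.mul_sum]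

theorem S3a_gcd1 {p' p'' : ℕ} (h : p' = 1 ∨ p'' = 1) (e : ℕ) :
    (Nat.gcd e p' : ℝ) * (Nat.gcd e p'' : ℝ) = (Nat.gcd e (p' * p'') : ℝ) := by
  rcases h with h | h
  · subst h; simp
  · subst h; simp

theorem S3a_gcd2 {p' p'' : ℕ} (h : p' = 1 ∨ p'' = 1) {e1 g e : ℕ} (h1 : e1 ∣ e) (h2 : g ∣ e) (he : e ≠ 0) :
    (Nat.gcd e1 p' : ℝ) * (Nat.gcd g p'' : ℝ) ≤ (Nat.gcd e (p' * p'') : ℝ) := by
  rcases h with h | h
  · subst h
    simp only [Nat.gcd_one_right, Nat.cast_one, one_mul, Nat.cast_le]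
    exact Nat.le_of_dvd (Nat.gcd_pos_of_pos_left _ (Nat.pos_of_ne_zero he)) (Nat.gcd_dvd_gcd_of_dvd_left _ h2)
  · subst h
    simp only [Nat.gcd_one_right, Nat.cast_one, mul_one, Nat.cast_le]
    exact Nat.le_of_dvd (Nat.gcd_pos_of_pos_left _ (Nat.pos_of_ne_zero he)) (Nat.gcd_dvd_gcd_of_dvd_left _ h1)

theorem S3a_term (C C0 A a : ℝ) (hC : 1 ≤ C) (hC0 : 1 ≤ C0) (hA : 0 ≤ A) (ha : 0 ≤ a) (p' p'' : ℕ)
    (h1 : p' = 1 ∨ p'' = 1) (DD : Finset ℕ) (f c : ℕ → ℝ) (hf : Ctrl C0 a p'' DD f)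
    (hc : ∀ e : ℕ, Squarefree e → |c e| ≤ A * C ^ (1 + e.primeFactors.card) * (Nat.gcd e p' : ℝ) / e)
    (e1 g e2 : ℕ) (he1 : Squarefree e1) (hg : Squarefree g) (he2 : Squarefree e2) (hco : Nat.Coprime e1 e2) :
    |c (e1 * e2) * SS DD f (Nat.lcm e2 g)| ≤
      (A * a * C * C ^ e1.primeFactors.card * C0 ^ g.primeFactors.card *
        ((Nat.gcd e1 p' : ℝ) * (Nat.gcd g p'' : ℝ) / ((e1 : ℝ) * g))) *
      ((C * C0) ^ e2.primeFactors.card * (Nat.gcd e2 g : ℝ) * (Nat.gcd e2 (p' * p'') : ℝ) / (e2 : ℝ) ^ 2) := by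
  have hCp : 0 < C := by linarith
  have hC0p : 0 < C0 := by linarith
  have e1p : (0 : ℝ) < e1 := by exact_mod_cast Nat.pos_of_ne_zero he1.ne_zero
  have gp : (0 : ℝ) < g := by exact_mod_cast Nat.pos_of_ne_zero hg.ne_zero
  have e2p : (0 : ℝ) < e2 := by exact_mod_cast Nat.pos_of_ne_zero he2.ne_zero
  have hs12 : Squarefree (e1 * e2) := (Nat.squarefree_mul hco).mpr ⟨he1, he2⟩
  have hsl : Squarefree (Nat.lcm e2 g) := S3a_lcm_sq he2 hg
  have hlp : (0 : ℝ) < (Nat.lcm e2 g : ℕ) := by exact_mod_cast Nat.pos_of_ne_zero hsl.ne_zero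
  have hgcd : (0 : ℝ) < (Nat.gcd e2 g : ℕ) := by
    exact_mod_cast Nat.gcd_pos_of_pos_left _ (Nat.pos_of_ne_zero he2.ne_zero)
  have hb1 : |c (e1 * e2)| ≤ A * C ^ (1 + e1.primeFactors.card + e2.primeFactors.card) *
      ((Nat.gcd e1 p' : ℝ) * (Nat.gcd e2 p' : ℝ)) / ((e1 : ℝ) * e2) := by
    refine (hc _ hs12).trans ?_
    rw [eul_om hs12, ← add_assoc, Nat.cast_mul]
    apply div_le_div_of_nonneg_right _ (by positivity)
    apply mul_le_mul_of_nonneg_left _ (by positivity)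
    have h2 : Nat.gcd (e1 * e2) p' ≤ Nat.gcd e1 p' * Nat.gcd e2 p' := by
      apply Nat.le_of_dvd _ (Nat.gcd_mul_left_dvd_mul_gcd p' e1 e2)
      exact Nat.mul_pos (Nat.gcd_pos_of_pos_left _ (Nat.pos_of_ne_zero he1.ne_zero))
        (Nat.gcd_pos_of_pos_left _ (Nat.pos_of_ne_zero he2.ne_zero))
    exact_mod_cast h2
  have hb2 : |SS DD f (Nat.lcm e2 g)| ≤ a * C0 ^ (e2.primeFactors.card + g.primeFactors.card) *
      ((Nat.gcd e2 p'' : ℝ) * (Nat.gcd g p'' : ℝ)) * (Nat.gcd e2 g : ℝ) / ((e2 : ℝ) * g) := by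
    refine (hf _ hsl).trans ?_
    have h3 : ((e2 : ℝ) * g) = (Nat.gcd e2 g : ℝ) * (Nat.lcm e2 g : ℝ) := by
      exact_mod_cast (Nat.gcd_mul_lcm e2 g).symm
    rw [h3, div_le_div_iff₀ hlp (mul_pos hgcd hlp)]
    have h4 : (Nat.lcm e2 g).primeFactors.card ≤ e2.primeFactors.card + g.primeFactors.card := by
      have h5 : (Nat.lcm e2 g).primeFactors ⊆ e2.primeFactors ∪ g.primeFactors := by
        rw [← Nat.primeFactors_mul he2.ne_zero hg.ne_zero]
        exact Nat.primeFactors_mono (Nat.lcm_dvd_mul e2 g) (Nat.mul_ne_zero he2.ne_zero hg.ne_zero)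
      exact (Finset.card_le_card h5).trans (Finset.card_union_le _ _)
    have h6 : (Nat.gcd (Nat.lcm e2 g) p'' : ℝ) ≤ (Nat.gcd e2 p'' : ℝ) * (Nat.gcd g p'' : ℝ) := by
      have h7 : Nat.gcd (Nat.lcm e2 g) p'' ≤ Nat.gcd e2 p'' * Nat.gcd g p'' := by
        apply Nat.le_of_dvd
        · exact Nat.mul_pos (Nat.gcd_pos_of_pos_left _ (Nat.pos_of_ne_zero he2.ne_zero))
            (Nat.gcd_pos_of_pos_left _ (Nat.pos_of_ne_zero hg.ne_zero))
        · exact (Nat.gcd_dvd_gcd_of_dvd_left _ (Nat.lcm_dvd_mul e2 g)).trans (Nat.gcd_mul_left_dvd_mul_gcd p'' e2 g)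
      exact_mod_cast h7
    have h8 : C0 ^ (Nat.lcm e2 g).primeFactors.card ≤ C0 ^ (e2.primeFactors.card + g.primeFactors.card) :=
      pow_le_pow_right₀ hC0 h4
    have h9 : a * C0 ^ (Nat.lcm e2 g).primeFactors.card * (Nat.gcd (Nat.lcm e2 g) p'' : ℝ) ≤
        a * C0 ^ (e2.primeFactors.card + g.primeFactors.card) * ((Nat.gcd e2 p'' : ℝ) * (Nat.gcd g p'' : ℝ)) := by
      apply mul_le_mul (mul_le_mul_of_nonneg_left h8 ha) h6 (by positivity) (by positivity)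
    calc a * C0 ^ (Nat.lcm e2 g).primeFactors.card * (Nat.gcd (Nat.lcm e2 g) p'' : ℝ) *
          ((Nat.gcd e2 g : ℝ) * (Nat.lcm e2 g : ℝ))
        ≤ a * C0 ^ (e2.primeFactors.card + g.primeFactors.card) * ((Nat.gcd e2 p'' : ℝ) * (Nat.gcd g p'' : ℝ)) *
          ((Nat.gcd e2 g : ℝ) * (Nat.lcm e2 g : ℝ)) := mul_le_mul_of_nonneg_right h9 (by positivity)
      _ = _ := by ring
  rw [abs_mul]
  refine (mul_le_mul hb1 hb2 (abs_nonneg _) (by positivity)).trans (le_of_eq ?_)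
  rw [← S3a_gcd1 h1 e2, mul_pow, pow_add, pow_add, pow_add, pow_one]
  field_simp

theorem S3a_Gb (C C0 A a C2 : ℝ) (hC : 1 ≤ C) (hC0 : 1 ≤ C0) (hA : 0 ≤ A) (ha : 0 ≤ a) (p' p'' Q N : ℕ)
    (h1 : p' = 1 ∨ p'' = 1) (DD : Finset ℕ) (f c : ℕ → ℝ) (hf : Ctrl C0 a p'' DD f)
    (hc : ∀ e : ℕ, Squarefree e → |c e| ≤ A * C ^ (1 + e.primeFactors.card) * (Nat.gcd e p' : ℝ) / e)
    (hC2 : 1 ≤ C2)
    (hE : ∀ g : ℕ, Squarefree g → Nat.Coprime g Q →
      ∑ e ∈ sq Q N, (C * C0) ^ e.primeFactors.card * (Nat.gcd e g : ℝ) * (Nat.gcd e (p' * p'') : ℝ) / (e : ℝ) ^ 2 ≤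
        C2 * 2 ^ g.primeFactors.card)
    (e1 g e : ℕ) (he : Squarefree e) (heQ : Nat.Coprime e Q) (h : Nat.lcm e1 g = e) :
    |S3a_G Q N DD f c e1 g| ≤
      A * a * C * C2 * (2 * C * C0) ^ e.primeFactors.card * ((Nat.gcd e (p' * p'') : ℝ) / e) := by
  have hCp : 0 < C := by linarith
  have hC0p : 0 < C0 := by linarith
  have hd1 : e1 ∣ e := h ▸ Nat.dvd_lcm_left e1 g
  have hd2 : g ∣ e := h ▸ Nat.dvd_lcm_right e1 g
  have he1 : Squarefree e1 := he.squarefree_of_dvd hd1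
  have hg : Squarefree g := he.squarefree_of_dvd hd2
  have hgQ : Nat.Coprime g Q := heQ.coprime_dvd_left hd2
  have e1p : (0 : ℝ) < e1 := by exact_mod_cast Nat.pos_of_ne_zero he1.ne_zero
  have gp : (0 : ℝ) < g := by exact_mod_cast Nat.pos_of_ne_zero hg.ne_zero
  have ep : (0 : ℝ) < e := by exact_mod_cast Nat.pos_of_ne_zero he.ne_zero
  have hmu : |(ArithmeticFunction.moebius g : ℝ)| ≤ 1 := by
    have := ArithmeticFunction.abs_moebius_le_one (n := g)
    exact_mod_cast this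
  have hK : 0 ≤ A * a * C * C ^ e1.primeFactors.card * C0 ^ g.primeFactors.card *
        ((Nat.gcd e1 p' : ℝ) * (Nat.gcd g p'' : ℝ) / ((e1 : ℝ) * g)) := by positivity
  rw [S3a_G, abs_mul]
  calc |(ArithmeticFunction.moebius g : ℝ)| *
        |∑ e2 ∈ (sq Q N).filter (fun e2 => Nat.Coprime e1 e2), c (e1 * e2) * SS DD f (Nat.lcm e2 g)|
      ≤ 1 * ∑ e2 ∈ (sq Q N).filter (fun e2 => Nat.Coprime e1 e2), |c (e1 * e2) * SS DD f (Nat.lcm e2 g)| :=
        mul_le_mul hmu (Finset.abs_sum_le_sum_abs _ _) (abs_nonneg _) zero_le_one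
    _ = ∑ e2 ∈ (sq Q N).filter (fun e2 => Nat.Coprime e1 e2), |c (e1 * e2) * SS DD f (Nat.lcm e2 g)| := one_mul _
    _ ≤ ∑ e2 ∈ (sq Q N).filter (fun e2 => Nat.Coprime e1 e2),
          (A * a * C * C ^ e1.primeFactors.card * C0 ^ g.primeFactors.card *
            ((Nat.gcd e1 p' : ℝ) * (Nat.gcd g p'' : ℝ) / ((e1 : ℝ) * g))) *
          ((C * C0) ^ e2.primeFactors.card * (Nat.gcd e2 g : ℝ) * (Nat.gcd e2 (p' * p'') : ℝ) / (e2 : ℝ) ^ 2) := by
        apply Finset.sum_le_sum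
        intro e2 he2
        rw [Finset.mem_filter, sq, Finset.mem_filter] at he2
        exact S3a_term C C0 A a hC hC0 hA ha p' p'' h1 DD f c hf hc e1 g e2 he1 hg he2.1.2.1 he2.2
    _ ≤ ∑ e2 ∈ sq Q N,
          (A * a * C * C ^ e1.primeFactors.card * C0 ^ g.primeFactors.card *
            ((Nat.gcd e1 p' : ℝ) * (Nat.gcd g p'' : ℝ) / ((e1 : ℝ) * g))) *
          ((C * C0) ^ e2.primeFactors.card * (Nat.gcd e2 g : ℝ) * (Nat.gcd e2 (p' * p'') : ℝ) / (e2 : ℝ) ^ 2) := by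
        apply Finset.sum_le_sum_of_subset_of_nonneg (Finset.filter_subset _ _)
        intro e2 _ _
        positivity
    _ ≤ (A * a * C * C ^ e1.primeFactors.card * C0 ^ g.primeFactors.card *
            ((Nat.gcd e1 p' : ℝ) * (Nat.gcd g p'' : ℝ) / ((e1 : ℝ) * g))) * (C2 * 2 ^ g.primeFactors.card) := by
        rw [← Finset.mul_sum]
        exact mul_le_mul_of_nonneg_left (hE g hg hgQ) hK
    _ ≤ (A * a * C * C ^ e.primeFactors.card * C0 ^ e.primeFactors.card *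
            ((Nat.gcd e (p' * p'') : ℝ) / e)) * (C2 * 2 ^ e.primeFactors.card) := by
        have hw1 : e1.primeFactors.card ≤ e.primeFactors.card :=
          Finset.card_le_card (Nat.primeFactors_mono hd1 he.ne_zero)
        have hw2 : g.primeFactors.card ≤ e.primeFactors.card :=
          Finset.card_le_card (Nat.primeFactors_mono hd2 he.ne_zero)
        have hq1 : C ^ e1.primeFactors.card ≤ C ^ e.primeFactors.card := pow_le_pow_right₀ hC hw1
        have hq2 : C0 ^ g.primeFactors.card ≤ C0 ^ e.primeFactors.card := pow_le_pow_right₀ hC0 hw2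
        have hq3 : (2 : ℝ) ^ g.primeFactors.card ≤ 2 ^ e.primeFactors.card := pow_le_pow_right₀ (by norm_num) hw2
        have hq4 : (Nat.gcd e1 p' : ℝ) * (Nat.gcd g p'' : ℝ) / ((e1 : ℝ) * g) ≤ (Nat.gcd e (p' * p'') : ℝ) / e := by
          apply div_le_div₀ (by positivity) (S3a_gcd2 h1 hd1 hd2 he.ne_zero) ep
          have : e ≤ e1 * g := by
            rw [← h]
            exact Nat.le_of_dvd (Nat.mul_pos (Nat.pos_of_ne_zero he1.ne_zero) (Nat.pos_of_ne_zero hg.ne_zero))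
              (Nat.lcm_dvd_mul e1 g)
          exact_mod_cast this
        apply mul_le_mul _ (mul_le_mul_of_nonneg_left hq3 (by linarith)) (by positivity) (by positivity)
        apply mul_le_mul _ hq4 (by positivity) (by positivity)
        apply mul_le_mul _ hq2 (by positivity) (by positivity)
        exact mul_le_mul_of_nonneg_left hq1 (by positivity)
    _ = _ := by rw [mul_pow, mul_pow]; ring

theorem S3a_cb (C C0 A a C2 C1 : ℝ) (hC : 1 ≤ C) (hC0 : 1 ≤ C0) (hA : 0 ≤ A) (ha : 0 ≤ a) (p' p'' Q N : ℕ)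
    (h1 : p' = 1 ∨ p'' = 1) (DD : Finset ℕ) (f c : ℕ → ℝ) (hf : Ctrl C0 a p'' DD f)
    (hc : ∀ e : ℕ, Squarefree e → |c e| ≤ A * C ^ (1 + e.primeFactors.card) * (Nat.gcd e p' : ℝ) / e)
    (hC2 : 1 ≤ C2)
    (hE : ∀ g : ℕ, Squarefree g → Nat.Coprime g Q →
      ∑ e ∈ sq Q N, (C * C0) ^ e.primeFactors.card * (Nat.gcd e g : ℝ) * (Nat.gcd e (p' * p'') : ℝ) / (e : ℝ) ^ 2 ≤
        C2 * 2 ^ g.primeFactors.card)
    (hC1 : C * C2 ≤ C1) (hC1' : 8 * C * C0 ≤ C1) (e : ℕ) (he : Squarefree e) :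
    |S3a_c Q N DD f c e| ≤ (A * a) * C1 ^ (1 + e.primeFactors.card) * (Nat.gcd e (p' * p'') : ℝ) / e := by
  classical
  have hCp : 0 < C := by linarith
  have hC0p : 0 < C0 := by linarith
  have hC1p : 0 ≤ C1 := le_trans (by positivity) hC1
  rw [S3a_c]
  split_ifs with h
  · calc |∑ p ∈ (e.divisors ×ˢ e.divisors).filter (fun p => Nat.lcm p.1 p.2 = e), S3a_G Q N DD f c p.1 p.2|
        ≤ ∑ p ∈ (e.divisors ×ˢ e.divisors).filter (fun p => Nat.lcm p.1 p.2 = e), |S3a_G Q N DD f c p.1 p.2| :=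
          Finset.abs_sum_le_sum_abs _ _
      _ ≤ ∑ p ∈ (e.divisors ×ˢ e.divisors).filter (fun p => Nat.lcm p.1 p.2 = e),
            A * a * C * C2 * (2 * C * C0) ^ e.primeFactors.card * ((Nat.gcd e (p' * p'') : ℝ) / e) := by
          apply Finset.sum_le_sum
          intro p hp
          rw [Finset.mem_filter] at hp
          exact S3a_Gb C C0 A a C2 hC hC0 hA ha p' p'' Q N h1 DD f c hf hc hC2 hE p.1 p.2 e he h.2 hp.2
      _ ≤ ∑ p ∈ e.divisors ×ˢ e.divisors,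
            A * a * C * C2 * (2 * C * C0) ^ e.primeFactors.card * ((Nat.gcd e (p' * p'') : ℝ) / e) := by
          apply Finset.sum_le_sum_of_subset_of_nonneg (Finset.filter_subset _ _)
          intro p _ _
          positivity
      _ = (e.divisors.card : ℝ) * (e.divisors.card : ℝ) *
            (A * a * C * C2 * (2 * C * C0) ^ e.primeFactors.card * ((Nat.gcd e (p' * p'') : ℝ) / e)) := by
          rw [Finset.sum_const, Finset.card_product, nsmul_eq_mul, Nat.cast_mul]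
      _ ≤ (2 ^ e.primeFactors.card) * (2 ^ e.primeFactors.card) *
            (A * a * C * C2 * (2 * C * C0) ^ e.primeFactors.card * ((Nat.gcd e (p' * p'') : ℝ) / e)) := by
          apply mul_le_mul_of_nonneg_right _ (by positivity)
          have h2 : (e.divisors.card : ℝ) ≤ 2 ^ e.primeFactors.card := by exact_mod_cast eul_tau he
          exact mul_le_mul h2 h2 (by positivity) (by positivity)
      _ = (A * a) * ((C * C2) * (8 * C * C0) ^ e.primeFactors.card) * ((Nat.gcd e (p' * p'') : ℝ) / e) := by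
          have h3 : (8 * C * C0) ^ e.primeFactors.card =
              (2 ^ e.primeFactors.card) * (2 ^ e.primeFactors.card) * (2 * C * C0) ^ e.primeFactors.card := by
            rw [← mul_pow, ← mul_pow]
            congr 1
            ring
          rw [h3]
          ring
      _ ≤ (A * a) * (C1 * C1 ^ e.primeFactors.card) * ((Nat.gcd e (p' * p'') : ℝ) / e) := by
          apply mul_le_mul_of_nonneg_right _ (by positivity)
          apply mul_le_mul_of_nonneg_left _ (by positivity)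
          exact mul_le_mul hC1 (pow_le_pow_left₀ (by positivity) hC1' _) (by positivity) hC1p
      _ = _ := by rw [pow_add, pow_one]; ring
  · rw [abs_zero]
    positivity

theorem S3a_c1 (Q N : ℕ) (DD : Finset ℕ) (f c : ℕ → ℝ) (hN : 1 ≤ N) :
    S3a_c Q N DD f c 1 = c 1 * SS DD f 1 + ∑ e ∈ (sq Q N).erase 1, c (1 * e) * SS DD f (Nat.lcm e 1) := by
  classical
  have h1 : (1 : ℕ) ∈ sq Q N := by
    rw [sq, Finset.mem_filter, Finset.mem_Icc]
    exact ⟨⟨le_refl _, hN⟩, squarefree_one, Nat.coprime_one_left _⟩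
  have h2 : (sq Q N).filter (fun e2 => Nat.Coprime 1 e2) = sq Q N :=
    Finset.filter_true_of_mem (fun e _ => Nat.coprime_one_left e)
  have h3 : ((Nat.divisors 1) ×ˢ (Nat.divisors 1)).filter (fun p => Nat.lcm p.1 p.2 = 1) = {((1 : ℕ), (1 : ℕ))} := by
    rw [Nat.divisors_one]
    rfl
  rw [S3a_c, if_pos ⟨squarefree_one, Nat.coprime_one_left _⟩, h3, Finset.sum_singleton, S3a_G, h2,
    ArithmeticFunction.moebius_apply_one, Int.cast_one, one_mul,
    ← Finset.add_sum_erase (sq Q N) (fun e => c (1 * e) * SS DD f (Nat.lcm e 1)) h1]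
  rfl

theorem s3step (C C0 : ℝ) (hC : 1 ≤ C) (hC0 : 1 ≤ C0) : ∃ C1 : ℝ, 1 ≤ C1 ∧ ∀ (ι : Type) [Fintype ι] [DecidableEq ι]
    (w Q p' p'' : ℕ), Wide w Q → C1 ≤ w → (p' = 1 ∨ p'' = 1) → (p' = 1 ∨ (p'.Prime ∧ w < p')) → (p'' = 1 ∨ (p''.Prime ∧ w < p'')) →
    ∀ (D : ι → Finset ℕ) (f : ι → ℕ → ℝ) (i : ι) (A a X : ℝ), 0 ≤ A → 0 ≤ a → Good Q (D i) → Ctrl C0 a p'' (D i) (f i) →
      Rep Q w p' C A X (Mm (Function.update D i {1}) (Function.update f i (fun _ => 1))) →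
      Rep Q w (p' * p'') C1 (A * a) (X * SS (D i) (f i) 1) (Mm D f) := by
  have hCC : 1 ≤ C * C0 := by nlinarith
  obtain ⟨C2, hC2, hE⟩ := eul (C * C0) hCC
  have hCp : 0 < C := by linarith
  have hC0p : 0 < C0 := by linarith
  have hp1 : 0 < C * C2 := by positivity
  have hp2 : 0 < 8 * C * C0 := by positivity
  refine ⟨C + C * C2 + 8 * C * C0 + C2, by linarith, ?_⟩
  intro ι _ _ w Q p' p'' hW hCw h1 hp' hp'' D f i A a X hA ha hD hf hR
  obtain ⟨c, hc1, hc2, hc3⟩ := hR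
  obtain ⟨N, hNdef⟩ : ∃ N : ℕ, N = (D i).sup id + 1 := ⟨_, rfl⟩
  have hN1 : 1 ≤ N := by omega
  have hN : ∀ x ∈ D i, x ≤ N := by
    intro x hx
    have := Finset.le_sup (f := id) hx
    simp only [id] at this
    omega
  have hC2w : C2 ≤ w := by linarith
  have hwp : (0 : ℝ) < w := by linarith
  have hsw : 0 < Real.sqrt w := Real.sqrt_pos.mpr hwp
  have hpp : p' * p'' = 1 ∨ ((p' * p'').Prime ∧ w < p' * p'') := by
    rcases h1 with h | h
    · subst h
      simpa using hp''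
    · subst h
      simpa using hp'
  obtain ⟨hE1, hE2⟩ := hE w Q hW hC2w (p' * p'') hpp N
  refine ⟨S3a_c Q N (D i) (f i) c, ?_, ?_, ?_⟩
  · intro m hm
    rw [mrec D f m i, ← S3a_id Q N m hm (D i) (f i) c hD hN]
    refine Finset.sum_congr rfl (fun x hx => ?_)
    rw [Finset.mem_filter] at hx
    have hx0 : 1 ≤ x := Nat.pos_of_ne_zero (hD x hx.1).1.ne_zero
    rw [hc1 (m * x) (Nat.mul_pos hm hx0)]
  · intro e he
    exact S3a_cb C C0 A a C2 _ hC hC0 hA ha p' p'' Q N h1 (D i) (f i) c hf hc2 hC2 hE1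
      (by linarith) (by linarith) e he
  · rw [S3a_c1 Q N (D i) (f i) c hN1]
    have hS1 : |SS (D i) (f i) 1| ≤ a := by
      have := hf 1 squarefree_one
      simpa using this
    have hT : |∑ e ∈ (sq Q N).erase 1, c (1 * e) * SS (D i) (f i) (Nat.lcm e 1)| ≤ A * a * C * (C2 / Real.sqrt w) := by
      calc |∑ e ∈ (sq Q N).erase 1, c (1 * e) * SS (D i) (f i) (Nat.lcm e 1)|
          ≤ ∑ e ∈ (sq Q N).erase 1, |c (1 * e) * SS (D i) (f i) (Nat.lcm e 1)| := Finset.abs_sum_le_sum_abs _ _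
        _ ≤ ∑ e ∈ (sq Q N).erase 1, A * a * C *
              ((C * C0) ^ e.primeFactors.card * (Nat.gcd e (p' * p'') : ℝ) / (e : ℝ) ^ 2) := by
            apply Finset.sum_le_sum
            intro e he
            have he' := Finset.mem_of_mem_erase he
            rw [sq, Finset.mem_filter] at he'
            refine (S3a_term C C0 A a hC hC0 hA ha p' p'' h1 (D i) (f i) c hf hc2 1 1 e squarefree_one
              squarefree_one he'.2.1 (Nat.coprime_one_left e)).trans (le_of_eq ?_)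
            simp
        _ ≤ _ := by
            rw [← Finset.mul_sum]
            exact mul_le_mul_of_nonneg_left hE2 (by positivity)
    have hU : |(c 1 - X) * SS (D i) (f i) 1| ≤ A * C / Real.sqrt w * a := by
      rw [abs_mul]
      exact mul_le_mul hc3 hS1 (abs_nonneg _) (by positivity)
    have heq : c 1 * SS (D i) (f i) 1 + ∑ e ∈ (sq Q N).erase 1, c (1 * e) * SS (D i) (f i) (Nat.lcm e 1) -
        X * SS (D i) (f i) 1 = (c 1 - X) * SS (D i) (f i) 1 +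
          ∑ e ∈ (sq Q N).erase 1, c (1 * e) * SS (D i) (f i) (Nat.lcm e 1) := by ring
    rw [heq]
    refine (abs_add_le _ _).trans ((add_le_add hU hT).trans ?_)
    have h5 : A * C / Real.sqrt w * a + A * a * C * (C2 / Real.sqrt w) = A * a * (C + C * C2) / Real.sqrt w := by
      ring
    rw [h5]
    apply div_le_div_of_nonneg_right _ hsw.le
    apply mul_le_mul_of_nonneg_left _ (by positivity)
    linarith

end EG
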