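import Pool.Agent.H6.EG.Defs

/-!
# MP_0e3417 row SelT: the first Selberg identity

Proof. `lam d * gcd(d,b)/d = μ(d) gcd(d,b) ∑_{s ∈ sq Q z, d ∣ s} y_s/φ(s)`. Exchange the sums: the left side is
`∑_{s ∈ sq Q z, r ∣ s} (y_s/φ(s)) ∑_{d : r ∣ d ∣ s} μ(d) gcd(d,b)` (a divisor `d` of `s ∈ sq Q z` is in `sq Q z`). In the inner sum `d = r d'`, `d' ∣ s/r`, `(d', r) = 1`, `gcd(d,b) = gcd(d',b)`
(`(r,b) = 1`), so it is `μ(r) ∑_{d' ∣ s/r} μ(d') gcd(d',b) = μ(r) ∏_{q ∣ s/r} (1 - gcd(q,b))`. This is `0` unless `s/r ∣ b`; if `s/r = c ∣ b` it is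
`μ(r) ∏_{q ∣ c} (1 - q) = μ(r) μ(c) φ(c)`. With `φ(r c) = φ(r) φ(c)`: the left side is `∑_{c ∣ b, r c ∈ sq Q z} y_{rc} μ(r) μ(c)/φ(r)`.
(If `r c` is squarefree then `(r,c) = 1`.)
-/

open Finset

namespace EG

/-- `Y_b(r) = ∑_{c ∣ b} μ(c) y_{rc}` -/
noncomputable def Yb (Q z : ℕ) (y : ℕ → ℝ) (b r : ℕ) : ℝ :=
  ∑ c ∈ b.divisors, (ArithmeticFunction.moebius c : ℝ) * (if r * c ∈ sq Q z then y (r * c) else 0)

theorem selT_phi {t : ℕ} (ht : Squarefree t) :
    ((Nat.totient t : ℕ) : ℝ) = ∏ p ∈ t.primeFactors, ((p : ℝ) - 1) := by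
  have h1 := Nat.totient_mul_prod_primeFactors t
  rw [Nat.prod_primeFactors_of_squarefree ht] at h1
  have ht0 : (t : ℝ) ≠ 0 := by exact_mod_cast ht.ne_zero
  have h2 : ((Nat.totient t : ℕ) : ℝ) * t = t * ∏ p ∈ t.primeFactors, ((p : ℝ) - 1) := by
    have h3 : ((Nat.totient t * t : ℕ) : ℝ) = ((t * ∏ p ∈ t.primeFactors, (p - 1) : ℕ) : ℝ) := by
      rw [h1]
    push_cast at h3
    rw [h3]
    congr 1
    refine Finset.prod_congr rfl fun p hp => ?_
    have := (Nat.prime_of_mem_primeFactors hp).one_lt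
    rw [Nat.cast_sub this.le, Nat.cast_one]
  have h4 : (t : ℝ) * ((Nat.totient t : ℕ) : ℝ) = t * ∏ p ∈ t.primeFactors, ((p : ℝ) - 1) := by
    rw [mul_comm]; exact h2
  exact mul_left_cancel₀ ht0 h4

/-- the arithmetic function `gcd(n, b)` -/
noncomputable def selT_f (b : ℕ) : ArithmeticFunction ℝ :=
  ⟨fun n => if n = 0 then 0 else (Nat.gcd n b : ℝ), by simp⟩

theorem selT_f_apply {b n : ℕ} (hn : n ≠ 0) : selT_f b n = (Nat.gcd n b : ℝ) := by
  change (if n = 0 then (0 : ℝ) else (Nat.gcd n b : ℝ)) = _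
  rw [if_neg hn]

theorem selT_f_mult (b : ℕ) : (selT_f b).IsMultiplicative := by
  rw [ArithmeticFunction.IsMultiplicative.iff_ne_zero]
  refine ⟨?_, fun {m n} hm hn hmn => ?_⟩
  · rw [selT_f_apply one_ne_zero]
    simp
  · rw [selT_f_apply (mul_ne_zero hm hn), selT_f_apply hm, selT_f_apply hn]
    rw [Nat.gcd_comm (m * n) b, Nat.Coprime.gcd_mul b hmn, Nat.gcd_comm b m, Nat.gcd_comm b n]
    push_cast
    ring

theorem selT_sum {b t : ℕ} (ht : Squarefree t) :
    ∑ d ∈ t.divisors, (ArithmeticFunction.moebius d : ℝ) * (Nat.gcd d b : ℝ) =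
      if t ∣ b then (ArithmeticFunction.moebius t : ℝ) * (Nat.totient t : ℝ) else 0 := by
  have h1 : ∑ d ∈ t.divisors, (ArithmeticFunction.moebius d : ℝ) * (Nat.gcd d b : ℝ) =
      ∏ p ∈ t.primeFactors, (1 - (Nat.gcd p b : ℝ)) := by
    have h2 := ArithmeticFunction.IsMultiplicative.prodPrimeFactors_one_sub_of_squarefree
      (selT_f b) (selT_f_mult b) ht
    have h3 : ∏ p ∈ t.primeFactors, (1 - (Nat.gcd p b : ℝ)) =
        ∏ p ∈ t.primeFactors, (1 - selT_f b p) := by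
      refine Finset.prod_congr rfl fun p hp => ?_
      rw [selT_f_apply (Nat.prime_of_mem_primeFactors hp).ne_zero]
    rw [h3, h2]
    refine Finset.sum_congr rfl fun d hd => ?_
    rw [selT_f_apply (Nat.pos_of_mem_divisors hd).ne']
  rw [h1]
  split_ifs with h
  · have h4 : ∏ p ∈ t.primeFactors, (1 - (Nat.gcd p b : ℝ)) =
        ∏ p ∈ t.primeFactors, ((ArithmeticFunction.moebius p : ℝ) * ((p : ℝ) - 1)) := by
      refine Finset.prod_congr rfl fun p hp => ?_
      have hpp := Nat.prime_of_mem_primeFactors hp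
      have hpb : p ∣ b := (Nat.dvd_of_mem_primeFactors hp).trans h
      rw [Nat.gcd_eq_left hpb, ArithmeticFunction.moebius_apply_prime hpp]
      push_cast
      ring
    rw [h4, Finset.prod_mul_distrib, ← selT_phi ht]
    congr 1
    have h5 := ArithmeticFunction.isMultiplicative_moebius.prod_primeFactors ht
    rw [← h5]
    push_cast
    rfl
  · have h6 : ∃ p ∈ t.primeFactors, ¬ p ∣ b := by
      by_contra hc
      push Not at hc
      apply h
      rw [← Nat.prod_primeFactors_of_squarefree ht]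
      exact Finset.prod_primes_dvd b (fun p hp => (Nat.prime_of_mem_primeFactors hp).prime) hc
    obtain ⟨p, hp, hpb⟩ := h6
    refine Finset.prod_eq_zero hp ?_
    have hpp := Nat.prime_of_mem_primeFactors hp
    rw [(Nat.Prime.coprime_iff_not_dvd hpp).mpr hpb]
    simp

theorem selT_mem {Q z d : ℕ} : d ∈ sq Q z ↔ (1 ≤ d ∧ d ≤ z) ∧ Squarefree d ∧ Nat.Coprime d Q := by
  simp only [sq, Finset.mem_filter, Finset.mem_Icc]

theorem selT_dvd {Q z d s : ℕ} (hs : s ∈ sq Q z) (h : d ∣ s) : d ∈ sq Q z := by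
  rw [selT_mem] at hs ⊢
  have hs0 : 0 < s := hs.1.1
  exact ⟨⟨Nat.pos_of_dvd_of_pos h hs0, (Nat.le_of_dvd hs0 h).trans hs.1.2⟩,
    hs.2.1.squarefree_of_dvd h, hs.2.2.coprime_dvd_left h⟩

/-- the inner sum -/
theorem selT_inner {Q z b r s : ℕ} (hs : s ∈ sq Q z) (hr : Squarefree r) (hrb : Nat.Coprime r b) :
    ∑ d ∈ (sq Q z).filter (fun d => r ∣ d), (if d ∣ s then
        (ArithmeticFunction.moebius d : ℝ) * (Nat.gcd d b : ℝ) else 0) =
      if r ∣ s ∧ s / r ∣ b then (ArithmeticFunction.moebius r : ℝ) *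
        ((ArithmeticFunction.moebius (s / r) : ℝ) * (Nat.totient (s / r) : ℝ)) else 0 := by
  have hs' := selT_mem.mp hs
  by_cases hrs : r ∣ s
  · obtain ⟨t, rfl⟩ := hrs
    have hr0 : 0 < r := Nat.pos_of_ne_zero hr.ne_zero
    have hsf := hs'.2.1
    have hcop : Nat.Coprime r t := Nat.coprime_of_squarefree_mul hsf
    have htsf : Squarefree t := hsf.squarefree_of_dvd (Dvd.intro_left r rfl)
    have hdiv : r * t / r = t := Nat.mul_div_cancel_left t hr0
    rw [hdiv]
    have h1 : ∑ d ∈ (sq Q z).filter (fun d => r ∣ d), (if d ∣ r * t then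
        (ArithmeticFunction.moebius d : ℝ) * (Nat.gcd d b : ℝ) else 0) =
        ∑ d ∈ t.divisors, (ArithmeticFunction.moebius r : ℝ) *
          ((ArithmeticFunction.moebius d : ℝ) * (Nat.gcd d b : ℝ)) := by
      rw [← Finset.sum_filter]
      symm
      refine Finset.sum_nbij (fun d => r * d) ?_ ?_ ?_ ?_
      · intro d hd
        have hdt := Nat.dvd_of_mem_divisors hd
        have h2 : r * d ∣ r * t := Nat.mul_dvd_mul_left r hdt
        simp only [Finset.mem_filter]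
        exact ⟨⟨selT_dvd hs h2, Dvd.intro d rfl⟩, h2⟩
      · intro d _ e _ hde
        exact Nat.eq_of_mul_eq_mul_left hr0 hde
      · intro e he
        simp only [Finset.coe_filter, Finset.mem_filter, Set.mem_ofPred_eq] at he
        obtain ⟨⟨_, d, rfl⟩, he2⟩ := he
        refine ⟨d, ?_, rfl⟩
        have h3 : d ∣ t := Nat.dvd_of_mul_dvd_mul_left hr0 he2
        exact Finset.mem_coe.mpr (Nat.mem_divisors.mpr ⟨h3, htsf.ne_zero⟩)
      · intro d hd
        have hdt := Nat.dvd_of_mem_divisors hd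
        have hrd : Nat.Coprime r d := hcop.coprime_dvd_right hdt
        have h4 : Nat.gcd (r * d) b = Nat.gcd d b := by
          exact Nat.Coprime.gcd_mul_left_cancel d hrb
        have h5 := ArithmeticFunction.isMultiplicative_moebius.map_mul_of_coprime hrd
        change _ = (ArithmeticFunction.moebius (r * d) : ℝ) * (Nat.gcd (r * d) b : ℝ)
        rw [h4, h5]
        push_cast
        ring
    rw [h1, ← Finset.mul_sum, selT_sum htsf]
    by_cases htb : t ∣ b
    · rw [if_pos htb, if_pos ⟨Dvd.intro t rfl, htb⟩]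
    · rw [if_neg htb, if_neg (fun h => htb h.2), mul_zero]
  · rw [if_neg (fun h => hrs h.1)]
    refine Finset.sum_eq_zero fun d hd => ?_
    rw [if_neg]
    intro hds
    exact hrs ((Finset.mem_filter.mp hd).2.trans hds)

theorem selT (Q z : ℕ) (y : ℕ → ℝ) {b r : ℕ} (hr : Squarefree r) (hrQ : Nat.Coprime r Q) (hb : Squarefree b)
    (hbQ : Nat.Coprime b Q) (hrb : Nat.Coprime r b) :
    ∑ d ∈ (sq Q z).filter (fun d => r ∣ d), lam Q z y d * (Nat.gcd d b : ℝ) / d =
      (ArithmeticFunction.moebius r : ℝ) / (Nat.totient r : ℝ) * Yb Q z y b r := by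
  have hr0 : 0 < r := Nat.pos_of_ne_zero hr.ne_zero
  have hphir : ((Nat.totient r : ℕ) : ℝ) ≠ 0 := by
    exact_mod_cast (Nat.totient_pos.mpr hr0).ne'
  have h1 : ∑ d ∈ (sq Q z).filter (fun d => r ∣ d), lam Q z y d * (Nat.gcd d b : ℝ) / d =
      ∑ s ∈ sq Q z, (y s / (Nat.totient s : ℝ)) *
        ∑ d ∈ (sq Q z).filter (fun d => r ∣ d), (if d ∣ s then
          (ArithmeticFunction.moebius d : ℝ) * (Nat.gcd d b : ℝ) else 0) := by
    have h2 : ∀ d ∈ (sq Q z).filter (fun d => r ∣ d), lam Q z y d * (Nat.gcd d b : ℝ) / d =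
        ∑ s ∈ sq Q z, (y s / (Nat.totient s : ℝ)) * (if d ∣ s then
          (ArithmeticFunction.moebius d : ℝ) * (Nat.gcd d b : ℝ) else 0) := by
      intro d hd
      have hd1 := (selT_mem.mp (Finset.mem_filter.mp hd).1).1.1
      have hd0 : (d : ℝ) ≠ 0 := by exact_mod_cast (by omega : d ≠ 0)
      have h3 : lam Q z y d * (Nat.gcd d b : ℝ) / d =
          ((ArithmeticFunction.moebius d : ℝ) * (Nat.gcd d b : ℝ)) *
            ∑ s ∈ (sq Q z).filter (fun s => d ∣ s), y s / (Nat.totient s : ℝ) := by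
        unfold lam
        field_simp
      rw [h3, Finset.mul_sum, Finset.sum_filter]
      refine Finset.sum_congr rfl fun s _ => ?_
      split_ifs
      · ring
      · ring
    rw [Finset.sum_congr rfl h2, Finset.sum_comm]
    refine Finset.sum_congr rfl fun s _ => ?_
    rw [Finset.mul_sum]
  rw [h1]
  have h4 : ∀ s ∈ sq Q z, (y s / (Nat.totient s : ℝ)) *
        (∑ d ∈ (sq Q z).filter (fun d => r ∣ d), (if d ∣ s then
          (ArithmeticFunction.moebius d : ℝ) * (Nat.gcd d b : ℝ) else 0)) =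
      if r ∣ s ∧ s / r ∣ b then (ArithmeticFunction.moebius r : ℝ) / (Nat.totient r : ℝ) *
        ((ArithmeticFunction.moebius (s / r) : ℝ) * y s) else 0 := by
    intro s hs
    rw [selT_inner hs hr hrb]
    split_ifs with h
    · obtain ⟨⟨t, rfl⟩, htb⟩ := h
      have hsf := (selT_mem.mp hs).2.1
      have hcop : Nat.Coprime r t := Nat.coprime_of_squarefree_mul hsf
      have hdiv : r * t / r = t := Nat.mul_div_cancel_left t hr0
      rw [hdiv, Nat.totient_mul hcop]
      have ht0 : 0 < t := Nat.pos_of_ne_zero (hsf.squarefree_of_dvd (Dvd.intro_left r rfl)).ne_zero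
      have hphit : ((Nat.totient t : ℕ) : ℝ) ≠ 0 := by
        exact_mod_cast (Nat.totient_pos.mpr ht0).ne'
      push_cast
      field_simp
    · rw [mul_zero]
  rw [Finset.sum_congr rfl h4, ← Finset.sum_filter, ← Finset.mul_sum]
  congr 1
  unfold Yb
  have h5 : ∑ c ∈ b.divisors, (ArithmeticFunction.moebius c : ℝ) *
        (if r * c ∈ sq Q z then y (r * c) else 0) =
      ∑ c ∈ b.divisors.filter (fun c => r * c ∈ sq Q z), (ArithmeticFunction.moebius c : ℝ) *
        y (r * c) := by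
    rw [Finset.sum_filter]
    refine Finset.sum_congr rfl fun c _ => ?_
    split_ifs
    · rfl
    · rw [mul_zero]
  rw [h5]
  symm
  refine Finset.sum_nbij (fun c => r * c) ?_ ?_ ?_ ?_
  · intro c hc
    rw [Finset.mem_filter] at hc ⊢
    refine ⟨hc.2, Dvd.intro c rfl, ?_⟩
    rw [Nat.mul_div_cancel_left c hr0]
    exact Nat.dvd_of_mem_divisors hc.1
  · intro c _ e _ hce
    exact Nat.eq_of_mul_eq_mul_left hr0 hce
  · intro s hs
    simp only [Finset.coe_filter, Set.mem_ofPred_eq] at hs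
    obtain ⟨hs1, ⟨c, rfl⟩, hs3⟩ := hs
    rw [Nat.mul_div_cancel_left c hr0] at hs3
    refine ⟨c, ?_, rfl⟩
    simp only [Finset.coe_filter, Set.mem_ofPred_eq]
    exact ⟨Nat.mem_divisors.mpr ⟨hs3, hb.ne_zero⟩, hs1⟩
  · intro c _
    rw [Nat.mul_div_cancel_left c hr0]

end EG
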