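import Pool.Agent.H6.EG.MRec

/-!
# MP_0e3417 row Sp2: splitting off two coordinates

Proof. Apply `split` for `i` and then for `j` (`i ≠ j`, `update D i {1}` at `j` is `D j`) to the function `B ↦ if B is pairwise coprime then G B else 0` (`Finset.sum_filter`). For `B' = update (update B i x) j y` with
`B i = B j = 1`: `B'` is pairwise coprime iff `B` is pairwise coprime, `x` and `y` are coprime to `∏ B` and `x, y` are coprime (`Nat.Coprime.prod_right` and its converse `Nat.coprime_prod_right_iff`).
-/

open Finset

namespace EG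

theorem split2_iff {ι : Type} [Fintype ι] [DecidableEq ι] (B : ι → ℕ) (i : ι) (x : ℕ) (hB : B i = 1) :
    (∀ a b, a ≠ b → Nat.Coprime (Function.update B i x a) (Function.update B i x b)) ↔
      ((∀ a b, a ≠ b → Nat.Coprime (B a) (B b)) ∧ Nat.Coprime x (∏ l, B l)) := by
  have h := MRec_iff B i x 1 hB
  simp only [Nat.coprime_one_right_eq_true, implies_true, and_true, true_and, one_mul] at h
  rw [h, Nat.coprime_prod_right_iff]
  constructor
  · rintro ⟨h1, h2⟩
    exact ⟨h1, fun l _ => (h2 l).symm⟩
  · rintro ⟨h1, h2⟩
    exact ⟨h1, fun l => (h2 l (Finset.mem_univ l)).symm⟩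

theorem split2_prod {ι : Type} [Fintype ι] [DecidableEq ι] (B : ι → ℕ) (i : ι) (x : ℕ) (hB : B i = 1) :
    ∏ l, Function.update B i x l = x * ∏ l, B l := by
  rw [Finset.prod_update_of_mem (Finset.mem_univ i)]
  have h : ∏ l, B l = ∏ l ∈ univ \ {i}, B l := by
    rw [← Finset.prod_sdiff (Finset.subset_univ {i}), Finset.prod_singleton, hB, mul_one]
  rw [h]

theorem split2 {ι : Type} [Fintype ι] [DecidableEq ι] (D : ι → Finset ℕ) {i j : ι} (hij : i ≠ j) (G : (ι → ℕ) → ℝ) :
    ∑ B ∈ (Fintype.piFinset D).filter (fun B => ∀ a b, a ≠ b → Nat.Coprime (B a) (B b)), G B =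
      ∑ B ∈ (Fintype.piFinset (Function.update (Function.update D i {1}) j {1})).filter
          (fun B => ∀ a b, a ≠ b → Nat.Coprime (B a) (B b)),
        ∑ x ∈ (D i).filter (fun x => Nat.Coprime x (∏ l, B l)), ∑ y ∈ (D j).filter (fun y => Nat.Coprime y (∏ l, B l) ∧ Nat.Coprime x y),
          G (Function.update (Function.update B i x) j y) := by
  classical
  simp only [Finset.sum_filter]
  rw [split D i]
  have hDj : Function.update D i {1} j = D j := Function.update_of_ne hij.symm _ _
  have step : ∀ x ∈ D i, (∑ B ∈ Fintype.piFinset (Function.update D i {1}),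
        (if ∀ a b, a ≠ b → Nat.Coprime (Function.update B i x a) (Function.update B i x b) then
          G (Function.update B i x) else 0)) =
      ∑ B ∈ Fintype.piFinset (Function.update (Function.update D i {1}) j {1}), ∑ y ∈ D j,
        (if ∀ a b, a ≠ b → Nat.Coprime (Function.update (Function.update B i x) j y a) (Function.update (Function.update B i x) j y b) then
          G (Function.update (Function.update B i x) j y) else 0) := by
    intro x _
    rw [split (Function.update D i {1}) j, hDj, Finset.sum_comm]
    refine Finset.sum_congr rfl fun B _ => Finset.sum_congr rfl fun y _ => ?_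
    rw [Function.update_comm hij.symm]
  rw [Finset.sum_congr rfl step, Finset.sum_comm]
  refine Finset.sum_congr rfl fun B hB => ?_
  rw [Fintype.mem_piFinset] at hB
  have hBj : B j = 1 := by
    have := hB j
    rwa [Function.update_self, Finset.mem_singleton] at this
  have hBi : B i = 1 := by
    have := hB i
    rwa [Function.update_of_ne hij, Function.update_self, Finset.mem_singleton] at this
  have hC : ∀ x : ℕ, Function.update B i x j = 1 := fun x => by
    rw [Function.update_of_ne hij.symm]; exact hBj
  by_cases hP : ∀ a b, a ≠ b → Nat.Coprime (B a) (B b)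
  · rw [if_pos hP]
    refine Finset.sum_congr rfl fun x _ => ?_
    by_cases hx : Nat.Coprime x (∏ l, B l)
    · rw [if_pos hx]
      refine Finset.sum_congr rfl fun y _ => ?_
      refine if_congr ?_ rfl rfl
      rw [split2_iff _ j y (hC x), split2_iff B i x hBi, split2_prod B i x hBi]
      constructor
      · rintro ⟨_, h⟩
        exact ⟨Nat.Coprime.coprime_mul_left_right h, (Nat.Coprime.coprime_mul_right_right h).symm⟩
      · rintro ⟨h1, h2⟩
        exact ⟨⟨hP, hx⟩, Nat.Coprime.mul_right h2.symm h1⟩
    · rw [if_neg hx]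
      refine Finset.sum_eq_zero fun y _ => if_neg ?_
      rw [split2_iff _ j y (hC x), split2_iff B i x hBi]
      rintro ⟨⟨_, h⟩, _⟩
      exact hx h
  · rw [if_neg hP]
    refine Finset.sum_eq_zero fun x _ => Finset.sum_eq_zero fun y _ => if_neg ?_
    rw [split2_iff _ j y (hC x), split2_iff B i x hBi]
    rintro ⟨⟨h, _⟩, _⟩
    exact hP h

end EG
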